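import Pool.Agent.Helper41.SK.MainDefs
import Pool.Agent.Helper41.BS.ExistBM
import Pool.Agent.Helper807.BS.LCbmex

set_option autoImplicit false

open scoped ENNReal NNReal Topology
open MeasureTheory ProbabilityTheory Set Filter
open Pool.Agent.Helper807.BS

namespace Pool.Agent.Helper41.SK

/-- There is a complete probability space which carries a standard Brownian motion. -/
theorem exists_bm0 : ∃ (Ω : Type) (_ : MeasurableSpace Ω) (P : Measure Ω) (B : ℝ → Ω → ℝ),
    IsProbabilityMeasure P ∧ P.IsComplete ∧ IsBM0 P B := by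
  obtain ⟨Ω, mΩ, P, hP, hc, B, hB⟩ := Pool.Agent.Helper41.BS.exists_bm2
  obtain ⟨W, hW, -⟩ := exists_cbm P B hB
  refine ⟨Ω, mΩ, P, fun t ω => W 0 t ω - W 0 0 ω, hP, hc, ?_⟩
  have hm : ∀ t, 0 ≤ t → Measurable (W 0 t) := fun t ht =>
    (hW.adapted 0 t ht).mono (hW.le t) le_rfl
  have e : ∀ s t, (fun ω => (W 0 t ω - W 0 0 ω) - (W 0 s ω - W 0 0 ω)) =
      fun ω => W 0 t ω - W 0 s ω := by
    intro s t
    funext ω
    ring
  refine ⟨fun t ht => (hm t ht).sub (hm 0 le_rfl), fun ω => ?_, fun ω => sub_self _, ?_, ?_⟩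
  · exact ((hW.cont 0 ω).sub continuous_const).continuousOn
  · intro s t hs hst
    rw [e]
    exact (hW.gauss 0 s t hs hst).map_eq
  · intro s t hs hst
    rw [e]
    have h1 := (hW.indep 0 s t hs hst).symm
    refine indep_of_indep_of_le_right h1 ?_
    refine iSup_le fun r => ?_
    rintro _ ⟨C, hC, rfl⟩
    have h2 : Measurable[Fil B P s] (fun ω => W 0 r.1 ω - W 0 0 ω) := by
      refine Measurable.sub ?_ ?_
      · exact (hW.adapted 0 r.1 r.2.1).mono (hW.mono _ _ r.2.2) le_rfl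
      · exact (hW.adapted 0 0 le_rfl).mono (hW.mono _ _ hs) le_rfl
    exact h2 hC

end Pool.Agent.Helper41.SK
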