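import Mathlib

set_option autoImplicit false

open scoped ENNReal NNReal Topology
open MeasureTheory ProbabilityTheory Set Filter

namespace Pool.Agent.Helper41.SK

/-- the grid point `a + (b-a) i / n` -/
noncomputable def gp (a b : ℝ) (n i : ℕ) : ℝ := a + (b - a) * i / n

/-- clamp to `[0,1]` -/
noncomputable def cl (z : ℝ) : ℝ := max 0 (min 1 z)

/-- the kernel `6 z (1-z)` on `[0,1]` -/
noncomputable def chi (z : ℝ) : ℝ := 6 * cl z * (1 - cl z)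

/-- its primitive -/
noncomputable def I1 (z : ℝ) : ℝ := 3 * (cl z) ^ 2 - 2 * (cl z) ^ 3

/-- its second primitive -/
noncomputable def J1 (z : ℝ) : ℝ := (cl z) ^ 3 - (cl z) ^ 4 / 2 + max (z - 1) 0

/-- smooth version of `x⁺` -/
noncomputable def Fp (e x : ℝ) : ℝ := e * J1 (x / e)

/-- the one-sided kernel -/
noncomputable def kp (e x : ℝ) : ℝ := chi (x / e) / e

/-- the symmetric kernel (total mass `1`) -/
noncomputable def kap (e x : ℝ) : ℝ := (kp e x + kp e (-x)) / 2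

/-- test functions with `f'(0) = 0` -/
structure TF (f f1 f2 : ℝ → ℝ) (C : ℝ) : Prop where
  h1 : ∀ x, HasDerivAt f (f1 x) x
  h2 : ∀ x, HasDerivAt f1 (f2 x) x
  z : f1 0 = 0
  b1 : ∀ x, |f1 x| ≤ C
  b2 : ∀ x, |f2 x| ≤ C
  lip : ∀ x y, |f2 x - f2 y| ≤ C * |x - y|

/-- `B` is a standard Brownian motion, all paths continuous and started at `0`, with respect to
the complete filtration `F` (only times `t ≥ 0` matter) -/
structure BMF {Ω : Type*} [mΩ : MeasurableSpace Ω] (P : Measure Ω) (F : ℝ → MeasurableSpace Ω)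
    (B : ℝ → Ω → ℝ) : Prop where
  le : ∀ t, F t ≤ mΩ
  mono : Monotone F
  null : ∀ A : Set Ω, P A = 0 → MeasurableSet[F 0] A
  adap : ∀ t, 0 ≤ t → Measurable[F t] (B t)
  cont : ∀ ω, Continuous (fun t => B t ω)
  zero : ∀ ω, B 0 ω = 0
  law : ∀ s t, 0 ≤ s → s ≤ t → P.map (fun ω => B t ω - B s ω) = gaussianReal 0 (t - s).toNNReal
  indep : ∀ s t, 0 ≤ s → s ≤ t →
    Indep (MeasurableSpace.comap (fun ω => B t ω - B s ω) inferInstance) (F s) P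

/-- `X = B + V` up to the stopping time `R ≤ T`, where `V` is stopped at `R`, its increments are
dominated by those of the square integrable increasing process `J`, and `V` is constant on the
time intervals on which `X ≠ 0` -/
structure ZP {Ω : Type*} [mΩ : MeasurableSpace Ω] (P : Measure Ω) (F : ℝ → MeasurableSpace Ω)
    (B : ℝ → Ω → ℝ) (c T : ℝ) (V J : ℝ → Ω → ℝ) (R : Ω → ℝ) : Prop where
  bm : BMF P F B
  T0 : 0 < T
  Vad : ∀ t, 0 ≤ t → Measurable[F t] (V t)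
  Vc : ∀ ω, Continuous (fun t => V t ω)
  V0 : ∀ᵐ ω ∂P, V 0 ω = c
  Jad : ∀ t, 0 ≤ t → Measurable[F t] (J t)
  Jc : ∀ ω, Continuous (fun t => J t ω)
  J0 : ∀ᵐ ω ∂P, J 0 ω = 0
  dom : ∀ᵐ ω ∂P, ∀ s t, 0 ≤ s → s ≤ t → |V t ω - V s ω| ≤ J t ω - J s ω
  Jsq : MemLp (J T) 2 P
  R0 : ∀ ω, 0 ≤ R ω
  RT : ∀ ω, R ω ≤ T
  Rst : ∀ t, 0 ≤ t → MeasurableSet[F t] {ω | t < R ω}
  stop : ∀ᵐ ω ∂P, ∀ t, R ω ≤ t → V t ω = V (R ω) ω
  flat : ∀ᵐ ω ∂P, ∀ s t, 0 ≤ s → s ≤ t → t ≤ R ω → (∀ r ∈ Icc s t, B r ω + V r ω ≠ 0) →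
    V s ω = V t ω

/-- the remainder in the discrete Ito formula for `f (B + V)` on the grid of `[a,b]`, up to the
grid point with index `j` and up to the time `R` -/
noncomputable def Rem {Ω : Type*} (B V : ℝ → Ω → ℝ) (R : Ω → ℝ) (f f1 f2 : ℝ → ℝ) (a b : ℝ)
    (n j : ℕ) (ω : Ω) : ℝ :=
  f (B (min (gp a b n j) (R ω)) ω + V (min (gp a b n j) (R ω)) ω)
    - f (B (min a (R ω)) ω + V (min a (R ω)) ω)
    - (∫ s in (min a (R ω))..(min (gp a b n j) (R ω)), f2 (B s ω + V s ω)) / 2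
    - ∑ i ∈ Finset.range j, if gp a b n i < R ω then
        f1 (B (gp a b n i) ω + V (gp a b n i) ω) * (B (gp a b n (i + 1)) ω - B (gp a b n i) ω)
      else 0

/-- internal notion of solution of `X = B + φ(L)`: `L` is the symmetric local time of `X` at `0`,
in the quantitative form `loc` -/
structure SolC {Ω : Type*} [mΩ : MeasurableSpace Ω] (P : Measure Ω) (F : ℝ → MeasurableSpace Ω)
    (B : ℝ → Ω → ℝ) (c : ℝ) (φ : ℝ → ℝ) (X L : ℝ → Ω → ℝ) : Prop where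
  bm : BMF P F B
  lip : ∀ s t, 0 ≤ s → 0 ≤ t → |φ s - φ t| ≤ |s - t|
  c0 : φ 0 = c
  Xad : ∀ t, 0 ≤ t → Measurable[F t] (X t)
  Xc : ∀ ω, Continuous (fun t => X t ω)
  Lad : ∀ t, 0 ≤ t → Measurable[F t] (L t)
  Lc : ∀ ω, Continuous (fun t => L t ω)
  L0 : ∀ ω, L 0 ω = 0
  Lmono : ∀ ω s t, 0 ≤ s → s ≤ t → L s ω ≤ L t ω
  eq : ∀ᵐ ω ∂P, ∀ t, 0 ≤ t → X t ω = B t ω + φ (L t ω)
  Lsq : ∀ t, 0 ≤ t → MemLp (L t) 2 P
  flat : ∀ᵐ ω ∂P, ∀ s t, 0 ≤ s → s ≤ t → (∀ r ∈ Icc s t, X r ω ≠ 0) → L s ω = L t ω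
  loc : ∀ T e, 0 ≤ T → 0 < e → e ≤ 1 →
    ∫ ω, ((∫ s in (0:ℝ)..T, kap e (X s ω)) - L T ω) ^ 2 ∂P ≤ 20 * (1 + |c| + T) * e

/-- what is known of a solution before the Lipschitz property of `φ` is proved -/
structure Pre {Ω : Type*} [mΩ : MeasurableSpace Ω] (P : Measure Ω) (F : ℝ → MeasurableSpace Ω)
    (B : ℝ → Ω → ℝ) (c : ℝ) (V J L : ℝ → Ω → ℝ) : Prop where
  bm : BMF P F B
  Vad : ∀ t, 0 ≤ t → Measurable[F t] (V t)
  Vc : ∀ ω, Continuous (fun t => V t ω)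
  V0 : ∀ᵐ ω ∂P, V 0 ω = c
  Jad : ∀ t, 0 ≤ t → Measurable[F t] (J t)
  Jc : ∀ ω, Continuous (fun t => J t ω)
  J0 : ∀ ω, J 0 ω = 0
  Jmono : ∀ ω s t, 0 ≤ s → s ≤ t → J s ω ≤ J t ω
  dom : ∀ᵐ ω ∂P, ∀ s t, 0 ≤ s → s ≤ t → |V t ω - V s ω| ≤ J t ω - J s ω
  Lad : ∀ t, 0 ≤ t → Measurable[F t] (L t)
  Lc : ∀ ω, Continuous (fun t => L t ω)
  L0 : ∀ ω, L 0 ω = 0
  Lmono : ∀ ω s t, 0 ≤ s → s ≤ t → L s ω ≤ L t ω
  lim : ∀ᵐ ω ∂P, ∀ t, 0 ≤ t →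
    Tendsto (fun ε : ℝ => ∫ s in (0:ℝ)..t, kap ε (B s ω + V s ω)) (𝓝[>] 0) (𝓝 (L t ω))
  flat : ∀ᵐ ω ∂P, ∀ s t, 0 ≤ s → s ≤ t → (∀ r ∈ Icc s t, B r ω + V r ω ≠ 0) →
    V s ω = V t ω ∧ L s ω = L t ω

/-- the martingale `X⁺ - (L + φ(L) - φ(0))/2` -/
noncomputable def Np {Ω : Type*} (φ : ℝ → ℝ) (X L : ℝ → Ω → ℝ) (t : ℝ) (ω : Ω) : ℝ :=
  max (X t ω) 0 - (L t ω + φ (L t ω) - φ 0) / 2

/-- the test function `(|x|+r) log(1+|x|/r) - |x|` -/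
noncomputable def hr (r x : ℝ) : ℝ := (|x| + r) * Real.log (1 + |x| / r) - |x|

/-- its derivative -/
noncomputable def hr1 (r x : ℝ) : ℝ := SignType.sign x * Real.log (1 + |x| / r)

/-- its second derivative -/
noncomputable def hr2 (r x : ℝ) : ℝ := 1 / (|x| + r)

/-- the one-sided kernel of the key estimate -/
noncomputable def wk (e d g z : ℝ) : ℝ :=
  min (max z 0 / e) 1 * max (1 - max z 0 / (2 * d)) 0 / (g + max z 0)

/-- its total mass -/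
noncomputable def Qk (e d g : ℝ) : ℝ := ∫ z in (0:ℝ)..(2 * d), wk e d g z

/-- the potential `∫ min(y⁻,z) w(z) dz` -/
noncomputable def Sk (e d g y : ℝ) : ℝ := ∫ z in (0:ℝ)..(2 * d), min (max (-y) 0) z * wk e d g z

/-- `W = Q y⁻ - S`, with second derivative `w(y⁻)` -/
noncomputable def Wk (e d g y : ℝ) : ℝ := Qk e d g * max (-y) 0 - Sk e d g y

end Pool.Agent.Helper41.SK
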