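import Mathlib

set_option autoImplicit false

open scoped ENNReal NNReal Topology
open MeasureTheory ProbabilityTheory Set Filter

namespace Pool.Agent.Helper41.SK

/-! Processes are indexed by `t : ℝ`, but only the times `t ≥ 0` matter. -/

/-- `F` is a complete filtration of the probability space -/
structure IsFilt {Ω : Type*} [mΩ : MeasurableSpace Ω] (P : Measure Ω)
    (F : ℝ → MeasurableSpace Ω) : Prop where
  le : ∀ t, 0 ≤ t → F t ≤ mΩ
  mono : ∀ s t, 0 ≤ s → s ≤ t → F s ≤ F t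
  null : ∀ A : Set Ω, P A = 0 → MeasurableSet[F 0] A

/-- continuous adapted process -/
structure IsCA {Ω : Type*} (F : ℝ → MeasurableSpace Ω) (M : ℝ → Ω → ℝ) : Prop where
  adap : ∀ t, 0 ≤ t → Measurable[F t] (M t)
  cont : ∀ ω, ContinuousOn (fun t => M t ω) (Ici 0)

/-- standard Brownian motion (started at `0`) with respect to the filtration `F` -/
structure IsBM {Ω : Type*} [mΩ : MeasurableSpace Ω] (P : Measure Ω)
    (F : ℝ → MeasurableSpace Ω) (B : ℝ → Ω → ℝ) : Prop where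
  filt : IsFilt P F
  ca : IsCA F B
  zero : ∀ ω, B 0 ω = 0
  law : ∀ s t, 0 ≤ s → s ≤ t → P.map (fun ω => B t ω - B s ω) = gaussianReal 0 (t - s).toNNReal
  indep : ∀ s t, 0 ≤ s → s ≤ t →
    Indep (MeasurableSpace.comap (fun ω => B t ω - B s ω) inferInstance) (F s) P

/-- martingale -/
structure IsMart {Ω : Type*} [mΩ : MeasurableSpace Ω] (P : Measure Ω)
    (F : ℝ → MeasurableSpace Ω) (M : ℝ → Ω → ℝ) : Prop where
  adap : ∀ t, 0 ≤ t → Measurable[F t] (M t)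
  int : ∀ t, 0 ≤ t → Integrable (M t) P
  eq : ∀ s t, 0 ≤ s → s ≤ t → ∀ G, MeasurableSet[F s] G →
    ∫ ω in G, M t ω ∂P = ∫ ω in G, M s ω ∂P

/-- finite stopping time -/
structure IsStop {Ω : Type*} (F : ℝ → MeasurableSpace Ω) (τ : Ω → ℝ) : Prop where
  nonneg : ∀ ω, 0 ≤ τ ω
  meas : ∀ t, 0 ≤ t → MeasurableSet[F t] {ω | τ ω ≤ t}

/-- continuous local martingale -/
structure IsLocMart {Ω : Type*} [mΩ : MeasurableSpace Ω] (P : Measure Ω)
    (F : ℝ → MeasurableSpace Ω) (M : ℝ → Ω → ℝ) : Prop where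
  ca : IsCA F M
  loc : ∃ τ : ℕ → Ω → ℝ, (∀ n, IsStop F (τ n)) ∧ (∀ᵐ ω ∂P, ∀ n, τ n ω ≤ τ (n + 1) ω) ∧
    (∀ᵐ ω ∂P, Tendsto (fun n => τ n ω) atTop atTop) ∧
    ∀ n, IsMart P F (fun t ω => M (min t (τ n ω)) ω - M 0 ω)

/-- continuous adapted nondecreasing process started at `0` -/
structure IsIncr {Ω : Type*} (F : ℝ → MeasurableSpace Ω) (A : ℝ → Ω → ℝ) : Prop where
  ca : IsCA F A
  zero : ∀ ω, A 0 ω = 0
  mono : ∀ ω s t, 0 ≤ s → s ≤ t → A s ω ≤ A t ω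

/-- `X` is a continuous semimartingale with bracket `⟨X⟩ = q`: `X` is the sum of a continuous local
martingale `M` and of the continuous finite variation process `A₁ - A₂`, and `M² - q` is a local
martingale -/
def IsSemiMart {Ω : Type*} [mΩ : MeasurableSpace Ω] (P : Measure Ω)
    (F : ℝ → MeasurableSpace Ω) (X q : ℝ → Ω → ℝ) : Prop :=
  IsCA F X ∧ ∃ M A₁ A₂ : ℝ → Ω → ℝ, IsLocMart P F M ∧ IsIncr F A₁ ∧ IsIncr F A₂ ∧
    (∀ᵐ ω ∂P, ∀ t, 0 ≤ t → X t ω = M t ω + A₁ t ω - A₂ t ω) ∧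
    IsIncr F q ∧ IsLocMart P F (fun t ω => (M t ω) ^ 2 - q t ω)

/-- the measure `dq` on `ℝ` of a nondecreasing function `q` on `[0,∞)` (extended by `q 0` on the
negative half-line) -/
noncomputable def dmeas (q : ℝ → ℝ) : Measure ℝ :=
  open Classical in if h : Monotone (fun s => q (max s 0)) then h.stieltjesFunction.measure else 0

/-- the continuous increasing process `L` is the symmetric local time at `0` of `X`:
`L t = lim (1/2ε) ∫_0^t 1_{|X_s|<ε} dq_s`, where `q` is the bracket of `X` -/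
def IsLocalTime {Ω : Type*} [mΩ : MeasurableSpace Ω] (P : Measure Ω)
    (F : ℝ → MeasurableSpace Ω) (X q L : ℝ → Ω → ℝ) : Prop :=
  IsIncr F L ∧ ∀ᵐ ω ∂P, ∀ t, 0 ≤ t →
    Tendsto (fun ε : ℝ => 1 / (2 * ε) *
      (dmeas (fun s => q s ω)).real {s | 0 ≤ s ∧ s ≤ t ∧ |X s ω| < ε}) (𝓝[>] 0) (𝓝 (L t ω))

/-- `X` is a solution of `X_t = B_t + φ(L^X_t(0))` with respect to the filtration `F` -/
def IsSol {Ω : Type*} [mΩ : MeasurableSpace Ω] (P : Measure Ω)
    (F : ℝ → MeasurableSpace Ω) (B : ℝ → Ω → ℝ) (φ : ℝ → ℝ) (X : ℝ → Ω → ℝ) : Prop :=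
  ∃ q L : ℝ → Ω → ℝ, IsSemiMart P F X q ∧ IsLocalTime P F X q L ∧
    ∀ᵐ ω ∂P, ∀ t, 0 ≤ t → X t ω = B t ω + φ (L t ω)

/-- the usual augmentation of the filtration generated by `B` -/
def augF {Ω : Type*} [mΩ : MeasurableSpace Ω] (P : Measure Ω) (B : ℝ → Ω → ℝ) (t : ℝ) :
    MeasurableSpace Ω :=
  ⨅ s : {s : ℝ // t < s}, (⨆ r : {r : ℝ // 0 ≤ r ∧ r ≤ s.1},
    MeasurableSpace.comap (B r.1) inferInstance) ⊔ MeasurableSpace.generateFrom {A | P A = 0}

/-- standard Brownian motion (without reference to a filtration) -/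
structure IsBM0 {Ω : Type*} [mΩ : MeasurableSpace Ω] (P : Measure Ω) (B : ℝ → Ω → ℝ) : Prop where
  meas : ∀ t, 0 ≤ t → Measurable (B t)
  cont : ∀ ω, ContinuousOn (fun t => B t ω) (Ici 0)
  zero : ∀ ω, B 0 ω = 0
  law : ∀ s t, 0 ≤ s → s ≤ t → P.map (fun ω => B t ω - B s ω) = gaussianReal 0 (t - s).toNNReal
  indep : ∀ s t, 0 ≤ s → s ≤ t →
    Indep (MeasurableSpace.comap (fun ω => B t ω - B s ω) inferInstance)
      (⨆ r : {r : ℝ // 0 ≤ r ∧ r ≤ s}, MeasurableSpace.comap (B r.1) inferInstance) P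

end Pool.Agent.Helper41.SK
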