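import Pool.Agent.Helper41.SK.Defs
import Pool.Agent.Helper41.SK.MainDefs


set_option autoImplicit false

open scoped ENNReal NNReal Topology
open MeasureTheory ProbabilityTheory Set Filter

namespace Pool.Agent.Helper41.SK

/-! Processes are indexed by t. -/

/-! ## TARGETS: prove these (statements must not be changed; helper lemmas are welcome) -/

theorem j15691_rand_time {Ω : Type*} {m : MeasurableSpace Ω} (Z : ℝ → Ω → ℝ) (t : ℝ) (ht : 0 ≤ t)
    (hZ : ∀ s, 0 ≤ s → s ≤ t → Measurable (Z s))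
    (hc : ∀ ω, ContinuousOn (fun s => Z s ω) (Ici 0)) (R : Ω → ℝ) (hR : Measurable R)
    (h0 : ∀ ω, 0 ≤ R ω) (h1 : ∀ ω, R ω ≤ t) : Measurable (fun ω => Z (R ω) ω) := by
  let q : ℕ → ℤ → ℝ := fun n k => max 0 (min t (((k : ℝ) + 1) / ((n : ℝ) + 1)))
  have hq0 : ∀ n k, 0 ≤ q n k := fun n k => le_max_left _ _
  have hqt : ∀ n k, q n k ≤ t := fun n k => max_le ht (min_le_left _ _)
  let f : ℕ → Ω → ℝ := fun n ω => Z (q n ⌊((n : ℝ) + 1) * R ω⌋) ω
  have hf : ∀ n, Measurable (f n) := by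
    intro n
    have hg : Measurable (fun p : ℤ × Ω => Z (q n p.1) p.2) :=
      measurable_from_prod_countable_right fun k => hZ _ (hq0 n k) (hqt n k)
    have hN : Measurable (fun ω => (⌊((n : ℝ) + 1) * R ω⌋, ω)) :=
      (Int.measurable_floor.comp (hR.const_mul _)).prodMk measurable_id
    exact hg.comp hN
  refine measurable_of_tendsto_metrizable hf ?_
  rw [tendsto_pi_nhds]
  intro ω
  have hlim : Tendsto (fun n : ℕ => q n ⌊((n : ℝ) + 1) * R ω⌋) atTop (𝓝 (R ω)) := by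
    have h2 : Tendsto (fun n : ℕ => (((⌊((n : ℝ) + 1) * R ω⌋ : ℤ) : ℝ) + 1) / ((n : ℝ) + 1)) atTop
        (𝓝 (R ω)) := by
      have h3 : Tendsto (fun n : ℕ => R ω + 1 / ((n : ℝ) + 1)) atTop (𝓝 (R ω + 0)) :=
        tendsto_const_nhds.add tendsto_one_div_add_atTop_nhds_zero_nat
      rw [add_zero] at h3
      refine tendsto_of_tendsto_of_tendsto_of_le_of_le tendsto_const_nhds h3 ?_ ?_
      · intro n
        have hn : (0 : ℝ) < (n : ℝ) + 1 := by positivity
        have := Int.lt_floor_add_one (((n : ℝ) + 1) * R ω)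
        change R ω ≤ _
        rw [le_div_iff₀ hn]
        linarith
      · intro n
        have hn : (0 : ℝ) < (n : ℝ) + 1 := by positivity
        have := Int.floor_le (((n : ℝ) + 1) * R ω)
        change _ ≤ R ω + 1 / ((n : ℝ) + 1)
        have e : (R ω + 1 / ((n : ℝ) + 1)) * ((n : ℝ) + 1) = ((n : ℝ) + 1) * R ω + 1 := by
          field_simp
        rw [div_le_iff₀ hn, e]
        linarith
    have h4 : Tendsto (fun n : ℕ => q n ⌊((n : ℝ) + 1) * R ω⌋) atTop
        (𝓝 (max 0 (min t (R ω)))) := tendsto_const_nhds.max (tendsto_const_nhds.min h2)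
    rwa [min_eq_right (h1 ω), max_eq_right (h0 ω)] at h4
  have hcont := (hc ω) (R ω) (h0 ω)
  exact hcont.tendsto.comp (tendsto_nhdsWithin_iff.2 ⟨hlim, Eventually.of_forall fun n => hq0 n _⟩)

theorem j15691_meas_Iic {Ω : Type*} {m : MeasurableSpace Ω} (f : Ω → ℝ)
    (h : ∀ s, MeasurableSet (f ⁻¹' Iic s)) : Measurable f := measurable_of_Iic h

theorem j15691_exists_iff (Z : ℝ → ℝ) (hc : ContinuousOn Z (Ici 0)) (z t : ℝ) (ht : 0 ≤ t) :
    (∃ s, 0 ≤ s ∧ s ≤ t ∧ z ≤ Z s) ↔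
      ∀ k : ℕ, ∃ q : ℚ, z - 1 / ((k : ℝ) + 1) < Z (max 0 (min t (q : ℝ))) := by
  constructor
  · rintro ⟨s, hs0, hst, hs⟩ k
    have hcc : Continuous (fun x : ℝ => Z (max 0 (min t x))) := by
      rw [← continuousOn_univ]
      exact hc.comp (continuous_const.max (continuous_const.min continuous_id)).continuousOn
        (fun x _ => mem_Ici.2 (le_max_left _ _))
    have hop : IsOpen {x : ℝ | z - 1 / ((k : ℝ) + 1) < Z (max 0 (min t x))} :=
      isOpen_lt continuous_const hcc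
    have hne : {x : ℝ | z - 1 / ((k : ℝ) + 1) < Z (max 0 (min t x))}.Nonempty := by
      refine ⟨s, ?_⟩
      change z - 1 / ((k : ℝ) + 1) < Z (max 0 (min t s))
      rw [min_eq_right hst, max_eq_right hs0]
      have : (0 : ℝ) < 1 / ((k : ℝ) + 1) := by positivity
      linarith
    obtain ⟨q, hq⟩ := (Rat.denseRange_cast (𝕜 := ℝ)).exists_mem_open hop hne
    exact ⟨q, hq⟩
  · intro h
    have hne : (Icc (0 : ℝ) t).Nonempty := ⟨0, le_rfl, ht⟩
    obtain ⟨s, hs, hmax⟩ := isCompact_Icc.exists_isMaxOn hne (hc.mono fun x hx => hx.1)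
    refine ⟨s, hs.1, hs.2, ?_⟩
    by_contra hlt
    rw [not_le] at hlt
    obtain ⟨k, hk⟩ := exists_nat_one_div_lt (sub_pos.2 hlt)
    obtain ⟨q, hq⟩ := h k
    have h2 : Z (max 0 (min t (q : ℝ))) ≤ Z s :=
      hmax (show max 0 (min t (q : ℝ)) ∈ Icc 0 t from ⟨le_max_left _ _, max_le ht (min_le_left _ _)⟩)
    linarith

section stopping

variable {Ω : Type*} [mΩ : MeasurableSpace Ω] {P : Measure Ω} [IsProbabilityMeasure P]
  {F : ℝ → MeasurableSpace Ω} {B : ℝ → Ω → ℝ}

theorem stopped_adp (hF : IsFilt P F) (Z : ℝ → Ω → ℝ) (hZ : IsCA F Z) (R : Ω → ℝ)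
    (hR : IsStop F R) : IsCA F (fun t ω => Z (min t (R ω)) ω) := by
  refine ⟨fun t ht => ?_, fun ω => ?_⟩
  · have hRm : Measurable[F t] (fun ω => min t (R ω)) := by
      refine j15691_meas_Iic (m := F t) _ fun s => ?_
      have e : (fun ω => min t (R ω)) ⁻¹' Iic s = if t ≤ s then univ else {ω | R ω ≤ s} := by
        split_ifs with h
        · ext ω; simp [h]
        · ext ω; simp [h]
      rw [e]
      split_ifs with h
      · exact @MeasurableSet.univ _ (F t)
      · by_cases hs : 0 ≤ s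
        · exact hF.mono s t hs (not_le.1 h).le _ (hR.meas s hs)
        · have : {ω | R ω ≤ s} = ∅ := by
            ext ω
            have := hR.nonneg ω
            simp only [mem_ofPred_eq, mem_empty_iff_false, iff_false, not_le]
            linarith [not_le.1 hs]
          rw [this]
          exact @MeasurableSet.empty _ (F t)
    exact j15691_rand_time (m := F t) Z t ht
      (fun s hs hst => (hZ.adap s hs).mono (hF.mono s t hs hst) le_rfl) hZ.cont _ hRm
      (fun ω => le_min ht (hR.nonneg ω)) (fun ω => min_le_left _ _)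
  · exact (hZ.cont ω).comp (continuous_id.min continuous_const).continuousOn
      (fun t ht => le_min ht (hR.nonneg ω))

theorem stop_min (hF : IsFilt P F) (R S : Ω → ℝ) (hR : IsStop F R) (hS : IsStop F S) :
    IsStop F (fun ω => min (R ω) (S ω)) := by
  refine ⟨fun ω => le_min (hR.nonneg ω) (hS.nonneg ω), fun t ht => ?_⟩
  have e : {ω | min (R ω) (S ω) ≤ t} = {ω | R ω ≤ t} ∪ {ω | S ω ≤ t} := by
    ext ω
    simp
  rw [e]
  exact @MeasurableSet.union _ (F t) _ _ (hR.meas t ht) (hS.meas t ht)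

theorem stop_lt (hF : IsFilt P F) (R : Ω → ℝ) (hR : IsStop F R) (t : ℝ) (ht : 0 ≤ t) :
    MeasurableSet[F t] {ω | t < R ω} ∧ MeasurableSet[F t] {ω | R ω < t} := by
  constructor
  · have e : {ω | t < R ω} = {ω | R ω ≤ t}ᶜ := by
      ext ω
      simp
    rw [e]
    exact @MeasurableSet.compl _ _ (F t) (hR.meas t ht)
  · have e : {ω | R ω < t} = ⋃ q : {q : ℚ // (0 : ℝ) ≤ q ∧ (q : ℝ) < t}, {ω | R ω ≤ (q.1 : ℝ)} := by
      ext ω
      simp only [mem_ofPred_eq, mem_iUnion]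
      constructor
      · intro h
        obtain ⟨q, hq1, hq2⟩ := exists_rat_btwn h
        exact ⟨⟨q, (hR.nonneg ω).trans hq1.le, hq2⟩, hq1.le⟩
      · rintro ⟨q, hq⟩
        exact lt_of_le_of_lt hq q.2.2
    rw [e]
    refine @MeasurableSet.iUnion _ _ (F t) _ _ fun q => ?_
    exact hF.mono _ t q.2.1 q.2.2.le _ (hR.meas _ q.2.1)

theorem hit_stop (hF : IsFilt P F) (Z : ℝ → Ω → ℝ) (hZ : IsCA F Z) (z T : ℝ) (hT : 0 ≤ T) :
    ∃ R : Ω → ℝ, IsStop F R ∧ (∀ ω, R ω ≤ T) ∧ (∀ ω t, 0 ≤ t → t < R ω → Z t ω < z) ∧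
      (∀ ω, R ω < T → z ≤ Z (R ω) ω) ∧ (∀ ω t, 0 ≤ t → t ≤ T → (∀ s, 0 ≤ s → s ≤ t → Z s ω < z) →
        t ≤ R ω) := by
  let S : Ω → Set ℝ := fun ω => (Icc 0 T ∩ (fun s => Z s ω) ⁻¹' Ici z) ∪ {T}
  have hne : ∀ ω, (S ω).Nonempty := fun ω => ⟨T, Or.inr rfl⟩
  have hbd : ∀ ω, BddBelow (S ω) := by
    intro ω
    refine ⟨0, ?_⟩
    rintro s (hs | hs)
    · exact hs.1.1
    · rw [mem_singleton_iff] at hs
      rw [hs]
      exact hT
  have hcl : ∀ ω, IsClosed (S ω) := by
    intro ω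
    refine IsClosed.union ?_ isClosed_singleton
    exact ((hZ.cont ω).mono fun x hx => hx.1).preimage_isClosed_of_isClosed isClosed_Icc isClosed_Ici
  let R : Ω → ℝ := fun ω => sInf (S ω)
  have hmem : ∀ ω, R ω ∈ S ω := fun ω => (hcl ω).csInf_mem (hne ω) (hbd ω)
  have hRT : ∀ ω, R ω ≤ T := fun ω => csInf_le (hbd ω) (Or.inr rfl)
  have hR0 : ∀ ω, 0 ≤ R ω := by
    intro ω
    rcases hmem ω with h | h
    · exact h.1.1
    · rw [mem_singleton_iff] at h
      rw [h]
      exact hT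
  have hlt : ∀ ω t, 0 ≤ t → t < R ω → Z t ω < z := by
    intro ω t ht htR
    by_contra hc
    rw [not_lt] at hc
    have : R ω ≤ t := csInf_le (hbd ω) (Or.inl ⟨⟨ht, htR.le.trans (hRT ω)⟩, hc⟩)
    linarith
  have hge : ∀ ω, R ω < T → z ≤ Z (R ω) ω := by
    intro ω h
    rcases hmem ω with h' | h'
    · exact h'.2
    · rw [mem_singleton_iff] at h'
      linarith
  refine ⟨R, ⟨hR0, ?_⟩, hRT, hlt, hge, ?_⟩
  · intro t ht
    rcases lt_or_ge t T with htT | htT
    · have e : {ω | R ω ≤ t} = ⋂ k : ℕ, ⋃ q : ℚ,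
          {ω | z - 1 / ((k : ℝ) + 1) < Z (max 0 (min t (q : ℝ))) ω} := by
        ext ω
        simp only [mem_ofPred_eq, mem_iInter, mem_iUnion]
        rw [← j15691_exists_iff (fun s => Z s ω) (hZ.cont ω) z t ht]
        constructor
        · intro h
          exact ⟨R ω, hR0 ω, h, hge ω (h.trans_lt htT)⟩
        · rintro ⟨s, hs0, hst, hs⟩
          exact (csInf_le (hbd ω) (Or.inl ⟨⟨hs0, hst.trans htT.le⟩, hs⟩)).trans hst
      rw [e]
      refine @MeasurableSet.iInter _ _ (F t) _ _ fun k => ?_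
      refine @MeasurableSet.iUnion _ _ (F t) _ _ fun q => ?_
      have hm : Measurable[F t] (Z (max 0 (min t (q : ℝ)))) :=
        (hZ.adap _ (le_max_left _ _)).mono
          (hF.mono _ t (le_max_left _ _) (max_le ht (min_le_left _ _))) le_rfl
      exact hm measurableSet_Ioi
    · have e : {ω | R ω ≤ t} = univ := by
        ext ω
        simp only [mem_ofPred_eq, mem_univ, iff_true]
        exact (hRT ω).trans htT
      rw [e]
      exact @MeasurableSet.univ _ (F t)
  · intro ω t ht htT h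
    by_contra hc
    rw [not_le] at hc
    have := hge ω (hc.trans_le htT)
    have := h (R ω) (hR0 ω) hc.le
    linarith

end stopping

end Pool.Agent.Helper41.SK
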