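import Pool.Agent.Helper41.SK.Defs
import Pool.Agent.Helper41.SK.MainDefs
import Pool.Agent.Helper41.SK.SB01

set_option autoImplicit false

open scoped ENNReal NNReal Topology
open MeasureTheory ProbabilityTheory Set Filter

namespace Pool.Agent.Helper41.SK

/-! Processes are indexed by t. -/


/-! ## TARGETS: prove these (statements must not be changed; helper lemmas are welcome) -/

section stopping

variable {Ω : Type*} [mΩ : MeasurableSpace Ω] {P : Measure Ω} [IsProbabilityMeasure P]
  {F : ℝ → MeasurableSpace Ω} {B : ℝ → Ω → ℝ}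

theorem key_grid (a b r : ℝ) (hab : a < b) (N : ℕ) :
    |(a + (b - a) * ((min (N + 1) ⌈(r - a) * ((N : ℝ) + 1) / (b - a)⌉₊ : ℕ) : ℝ) / ((N : ℝ) + 1))
      - max a (min b r)| ≤ (b - a) * (1 / ((N : ℝ) + 1)) := by
  have hN : (0 : ℝ) < (N : ℝ) + 1 := by positivity
  have hba : 0 < b - a := sub_pos.2 hab
  have hrhs : 0 ≤ (b - a) * (1 / ((N : ℝ) + 1)) := by positivity
  set k := ⌈(r - a) * ((N : ℝ) + 1) / (b - a)⌉₊ with hk
  rcases le_or_gt r a with h | h
  · have hk0 : k = 0 := by
      rw [hk, Nat.ceil_eq_zero]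
      apply div_nonpos_of_nonpos_of_nonneg _ hba.le
      exact mul_nonpos_of_nonpos_of_nonneg (by linarith) hN.le
    rw [hk0, Nat.min_zero]
    have : max a (min b r) = a := max_eq_left ((min_le_right _ _).trans h)
    rw [this]
    simpa using hrhs
  rcases lt_or_ge r b with h' | h'
  · have hy0 : 0 < (r - a) * ((N : ℝ) + 1) / (b - a) := by
      have : 0 < r - a := sub_pos.2 h
      positivity
    have hy1 : (r - a) * ((N : ℝ) + 1) / (b - a) ≤ ((N + 1 : ℕ) : ℝ) := by
      rw [div_le_iff₀ hba]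
      push_cast
      nlinarith
    have hkN : k ≤ N + 1 := Nat.ceil_le.2 hy1
    rw [min_eq_right hkN]
    have hx : max a (min b r) = r := by rw [min_eq_right h'.le, max_eq_right h.le]
    rw [hx]
    have hk1 : (r - a) * ((N : ℝ) + 1) / (b - a) ≤ k := Nat.le_ceil _
    have hk2 : (k : ℝ) < (r - a) * ((N : ℝ) + 1) / (b - a) + 1 := Nat.ceil_lt_add_one hy0.le
    have e1 : (b - a) * ((r - a) * ((N : ℝ) + 1) / (b - a)) / ((N : ℝ) + 1) = r - a := by
      field_simp
    have h1 : r - a ≤ (b - a) * (k : ℝ) / ((N : ℝ) + 1) := by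
      rw [← e1]
      gcongr
    have h2 : (b - a) * (k : ℝ) / ((N : ℝ) + 1) ≤ (r - a) + (b - a) * (1 / ((N : ℝ) + 1)) := by
      calc (b - a) * (k : ℝ) / ((N : ℝ) + 1)
          ≤ (b - a) * ((r - a) * ((N : ℝ) + 1) / (b - a) + 1) / ((N : ℝ) + 1) := by gcongr
        _ = (r - a) + (b - a) * (1 / ((N : ℝ) + 1)) := by
          rw [mul_add, add_div, e1]; ring
    rw [abs_le]
    constructor <;> linarith
  · have hkN : N + 1 ≤ k := by
      have : ((N + 1 : ℕ) : ℝ) ≤ k := by
        refine le_trans ?_ (Nat.le_ceil _)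
        rw [le_div_iff₀ hba]
        push_cast
        nlinarith
      exact_mod_cast this
    rw [min_eq_left hkN]
    have hx : max a (min b r) = b := by rw [min_eq_left h', max_eq_right hab.le]
    rw [hx]
    have : a + (b - a) * ((N + 1 : ℕ) : ℝ) / ((N : ℝ) + 1) - b = 0 := by
      push_cast; field_simp; ring
    rw [this, abs_zero]
    exact hrhs

theorem key_stop (hF : IsFilt P F) (M : ℝ → Ω → ℝ) (hM : IsMart P F M) (hc : IsCA F M)
    (R : Ω → ℝ) (hR : IsStop F R) (a b : ℝ) (ha : 0 ≤ a) (hab : a < b) :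
    Integrable (fun ω => M (max a (min b (R ω))) ω) P ∧
    ∀ A, MeasurableSet[F a] A →
      ∫ ω in A, M (max a (min b (R ω))) ω ∂P = ∫ ω in A, M a ω ∂P := by
  have hba : 0 < b - a := sub_pos.2 hab
  let u : ℕ → ℕ → ℝ := fun N i => a + (b - a) * i / ((N : ℝ) + 1)
  have hu0 : ∀ N i, 0 ≤ u N i := by
    intro N i
    show 0 ≤ a + (b - a) * i / ((N : ℝ) + 1)
    positivity
  have hua : ∀ N, u N 0 = a := by
    intro N
    show a + (b - a) * ((0 : ℕ) : ℝ) / ((N : ℝ) + 1) = a
    simp
  have hub : ∀ N, u N (N + 1) = b := by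
    intro N
    show a + (b - a) * ((N + 1 : ℕ) : ℝ) / ((N : ℝ) + 1) = b
    have hN : (0 : ℝ) < (N : ℝ) + 1 := by positivity
    push_cast; field_simp; ring
  have hum : ∀ N i j, i ≤ j → u N i ≤ u N j := by
    intro N i j hij
    show a + (b - a) * i / ((N : ℝ) + 1) ≤ a + (b - a) * j / ((N : ℝ) + 1)
    have : (i : ℝ) ≤ j := by exact_mod_cast hij
    gcongr
  let f : ∀ _ : ℕ, Filtration ℕ mΩ := fun N =>
    { seq := fun i => F (u N i)
      mono' := fun i j hij => hF.mono _ _ (hu0 N i) (hum N i j hij)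
      le' := fun i => hF.le _ (hu0 N i) }
  have hmart : ∀ N, Martingale (fun i => M (u N i)) (f N) P := by
    intro N
    refine ⟨fun i => (hM.adap (u N i) (hu0 N i)).stronglyMeasurable, fun i j hij => ?_⟩
    symm
    refine ae_eq_condExp_of_forall_setIntegral_eq ((f N).le i) (hM.int _ (hu0 N j)) ?_ ?_ ?_
    · intro s _ _
      exact (hM.int _ (hu0 N i)).integrableOn
    · intro s hs _
      exact (hM.eq (u N i) (u N j) (hu0 N i) (hum N i j hij) s hs).symm
    · exact (hM.adap (u N i) (hu0 N i)).stronglyMeasurable.aestronglyMeasurable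
  let kk : ℕ → Ω → ℕ := fun N ω => min (N + 1) ⌈(R ω - a) * ((N : ℝ) + 1) / (b - a)⌉₊
  let τ : ℕ → Ω → WithTop ℕ := fun N ω => WithTop.some (kk N ω)
  have hcoe : ∀ m n : ℕ, ((WithTop.some m : WithTop ℕ) ≤ WithTop.some n) ↔ m ≤ n :=
    fun m n => WithTop.coe_le_coe
  have hτ : ∀ N, IsStoppingTime (f N) (τ N) := by
    intro N i
    show MeasurableSet[F (u N i)] {ω | (WithTop.some (kk N ω) : WithTop ℕ) ≤ WithTop.some i}
    by_cases hi : N + 1 ≤ i
    · have : {ω | (WithTop.some (kk N ω) : WithTop ℕ) ≤ WithTop.some i} = univ := by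
        apply eq_univ_of_forall
        intro ω
        exact (hcoe _ _).2 ((min_le_left _ _).trans hi)
      rw [this]
      exact MeasurableSet.univ
    · have : {ω | (WithTop.some (kk N ω) : WithTop ℕ) ≤ WithTop.some i} = {ω | R ω ≤ u N i} := by
        ext ω
        show (WithTop.some (kk N ω) : WithTop ℕ) ≤ WithTop.some i ↔ R ω ≤ u N i
        rw [hcoe]
        have hN : (0 : ℝ) < (N : ℝ) + 1 := by positivity
        have h1 : kk N ω ≤ i ↔ ⌈(R ω - a) * ((N : ℝ) + 1) / (b - a)⌉₊ ≤ i := by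
          show min (N + 1) _ ≤ i ↔ _
          rw [min_le_iff]
          constructor
          · rintro (h | h)
            · exact absurd h hi
            · exact h
          · exact Or.inr
        rw [h1, Nat.ceil_le, div_le_iff₀ hba]
        show _ ↔ R ω ≤ a + (b - a) * i / ((N : ℝ) + 1)
        rw [← sub_le_iff_le_add', le_div_iff₀ hN, mul_comm (i : ℝ)]
      rw [this]
      exact hR.meas _ (hu0 N i)
  let Z : ℕ → Ω → ℝ := fun N ω => M (u N (kk N ω)) ω
  have hZ : ∀ N, P[M b | (hτ N).measurableSpace] =ᵐ[P] Z N := by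
    intro N
    have h := (hmart N).stoppedValue_ae_eq_condExp_of_le_const (hτ N) (n := N + 1) (by
      intro ω
      exact (hcoe _ _).2 (min_le_left _ _))
    simp only [hub] at h
    exact h.symm
  have hUI : UniformIntegrable Z 1 P :=
    ((hM.int b (ha.trans hab.le)).uniformIntegrable_condExp
      (ℱ := fun N => (hτ N).measurableSpace) (fun N => (hτ N).measurableSpace_le)).ae_eq hZ
  have hlim : ∀ ω, Tendsto (fun N => Z N ω) atTop (𝓝 (M (max a (min b (R ω))) ω)) := by
    intro ω
    have hx0 : (0 : ℝ) ≤ max a (min b (R ω)) := ha.trans (le_max_left _ _)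
    have hv : Tendsto (fun N => u N (kk N ω)) atTop (𝓝 (max a (min b (R ω)))) := by
      rw [tendsto_iff_norm_sub_tendsto_zero]
      refine squeeze_zero (fun _ => norm_nonneg _) (fun N => key_grid a b (R ω) hab N) ?_
      have := (tendsto_one_div_add_atTop_nhds_zero_nat (𝕜 := ℝ)).const_mul (b - a)
      rwa [mul_zero] at this
    have hcw := hc.cont ω (max a (min b (R ω))) hx0
    exact hcw.tendsto.comp (tendsto_nhdsWithin_iff.2 ⟨hv, Eventually.of_forall fun N => hu0 N _⟩)
  have hint : Integrable (fun ω => M (max a (min b (R ω))) ω) P :=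
    hUI.integrable_of_ae_tendsto (ae_of_all _ hlim)
  refine ⟨hint, fun A hA => ?_⟩
  have hL1 := tendsto_Lp_finite_of_tendsto_ae le_rfl ENNReal.one_ne_top hUI.1
    (memLp_one_iff_integrable.2 hint) hUI.2.1 (ae_of_all _ hlim)
  have hZint : ∀ N, Integrable (Z N) P := fun N => memLp_one_iff_integrable.1 (hUI.memLp N)
  have hlim2 := tendsto_setIntegral_of_L1' (μ := P) (fun ω => M (max a (min b (R ω))) ω) hint.1
    (F := Z) (l := atTop) (Eventually.of_forall hZint) hL1 A
  have hconst : ∀ N, ∫ ω in A, Z N ω ∂P = ∫ ω in A, M a ω ∂P := by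
    intro N
    have hAm : MeasurableSet[(hτ N).measurableSpace] A := by
      rw [(hτ N).measurableSet]
      have h0 : ∀ i, MeasurableSet[f N i] A := by
        intro i
        have : F a ≤ F (u N i) := by
          have := hF.mono _ _ (hu0 N 0) (hum N 0 i (Nat.zero_le _))
          rwa [hua] at this
        exact this A hA
      exact ⟨le_iSup (f N) 0 A (h0 0), fun i => (h0 i).inter (hτ N i)⟩
    have h1 := setIntegral_condExp (μ := P) (hτ N).measurableSpace_le
      (hM.int b (ha.trans hab.le)) hAm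
    have h2 : ∫ ω in A, Z N ω ∂P = ∫ ω in A, (P[M b | (hτ N).measurableSpace]) ω ∂P :=
      integral_congr_ae (ae_restrict_of_ae (hZ N).symm)
    rw [h2, h1]
    exact hM.eq a b ha hab.le A hA
  simp only [hconst] at hlim2
  exact tendsto_nhds_unique hlim2 tendsto_const_nhds

theorem stopped_mart (hF : IsFilt P F) (M : ℝ → Ω → ℝ) (hM : IsMart P F M) (hc : IsCA F M)
    (R : Ω → ℝ) (hR : IsStop F R) : IsMart P F (fun t ω => M (min t (R ω)) ω) := by
  have hadp := stopped_adp hF M hc R hR
  have hint : ∀ t, 0 ≤ t → Integrable (fun ω => M (min t (R ω)) ω) P := by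
    intro t ht
    rcases ht.eq_or_lt with h | h
    · subst h
      have : (fun ω => M (min 0 (R ω)) ω) = M 0 := by
        funext ω; rw [min_eq_left (hR.nonneg ω)]
      rw [this]
      exact hM.int 0 le_rfl
    · have h1 := (key_stop hF M hM hc R hR 0 t le_rfl h).1
      have : (fun ω => M (max 0 (min t (R ω))) ω) = (fun ω => M (min t (R ω)) ω) := by
        funext ω; rw [max_eq_right (le_min ht (hR.nonneg ω))]
      rwa [this] at h1
  refine ⟨hadp.adap, hint, ?_⟩
  intro s t hs hst G hG
  rcases hst.eq_or_lt with h | h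
  · subst h; rfl
  have ht : 0 ≤ t := hs.trans hst
  have hlt := (stop_lt hF R hR s hs).1
  have hltm : MeasurableSet {ω | s < R ω} := hF.le s hs _ hlt
  have hGm : MeasurableSet G := hF.le s hs _ hG
  rw [← integral_inter_add_diff hltm (hint t ht).integrableOn,
    ← integral_inter_add_diff (f := fun ω => M (min s (R ω)) ω) hltm (hint s hs).integrableOn]
  congr 1
  · have hk := (key_stop hF M hM hc R hR s t hs h).2 (G ∩ {ω | s < R ω}) (hG.inter hlt)
    have e1 : ∫ ω in G ∩ {ω | s < R ω}, M (min t (R ω)) ω ∂P =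
        ∫ ω in G ∩ {ω | s < R ω}, M (max s (min t (R ω))) ω ∂P := by
      refine setIntegral_congr_fun (hGm.inter hltm) fun ω hω => ?_
      have : s < R ω := hω.2
      show M (min t (R ω)) ω = M (max s (min t (R ω))) ω
      rw [max_eq_right (le_min hst this.le)]
    have e2 : ∫ ω in G ∩ {ω | s < R ω}, M (min s (R ω)) ω ∂P =
        ∫ ω in G ∩ {ω | s < R ω}, M s ω ∂P := by
      refine setIntegral_congr_fun (hGm.inter hltm) fun ω hω => ?_
      have : s < R ω := hω.2
      show M (min s (R ω)) ω = M s ω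
      rw [min_eq_left this.le]
    rw [e1, e2, hk]
  · refine setIntegral_congr_fun (hGm.diff hltm) fun ω hω => ?_
    have hle : R ω ≤ s := not_lt.1 hω.2
    show M (min t (R ω)) ω = M (min s (R ω)) ω
    rw [min_eq_right hle, min_eq_right (hle.trans hst)]

end stopping

end Pool.Agent.Helper41.SK
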