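import Pool.Agent.Helper41.SK.Defs
import Pool.Agent.Helper41.SK.MainDefs
import Pool.Agent.Helper41.SK.SB01
import Pool.Agent.Helper41.SK.SB02

set_option autoImplicit false

open scoped ENNReal NNReal Topology
open MeasureTheory ProbabilityTheory Set Filter

namespace Pool.Agent.Helper41.SK

/-! Processes are indexed by t. -/


/-! ## TARGETS: prove these (statements must not be changed; helper lemmas are welcome) -/

section stopping

variable {Ω : Type*} [mΩ : MeasurableSpace Ω] {P : Measure Ω} [IsProbabilityMeasure P]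
  {F : ℝ → MeasurableSpace Ω} {B : ℝ → Ω → ℝ}

theorem h232_meas0 (hF : IsFilt P F) (M : ℝ → Ω → ℝ) (hc : IsCA F M) (t : ℝ) (ht : 0 ≤ t) :
    Measurable[F t] (M 0) :=
  (hc.adap 0 le_rfl).mono (hF.mono 0 t le_rfl ht) le_rfl

theorem h232_sub0 (hF : IsFilt P F) (M : ℝ → Ω → ℝ) (hM : IsMart P F M) (Z : Ω → ℝ)
    (hZ : Measurable[F 0] Z) (hZi : Integrable Z P) : IsMart P F (fun t ω => M t ω - Z ω) := by
  refine ⟨fun t ht => ?_, fun t ht => (hM.int t ht).sub hZi, fun s t hs hst G hG => ?_⟩
  · exact Measurable.sub (hM.adap t ht) (hZ.mono (hF.mono 0 t le_rfl ht) le_rfl)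
  · have ht : 0 ≤ t := hs.trans hst
    rw [integral_sub (hM.int t ht).integrableOn hZi.integrableOn,
      integral_sub (hM.int s hs).integrableOn hZi.integrableOn, hM.eq s t hs hst G hG]

theorem h232_lin (M N : ℝ → Ω → ℝ) (hM : IsMart P F M) (hN : IsMart P F N) (a b : ℝ) :
    IsMart P F (fun t ω => a * M t ω + b * N t ω) := by
  refine ⟨fun t ht => ?_, fun t ht => ((hM.int t ht).const_mul a).add ((hN.int t ht).const_mul b),
    fun s t hs hst G hG => ?_⟩
  · exact Measurable.add (Measurable.const_mul (hM.adap t ht) a)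
      (Measurable.const_mul (hN.adap t ht) b)
  · have ht : 0 ≤ t := hs.trans hst
    rw [integral_add ((hM.int t ht).const_mul a).integrableOn
        ((hN.int t ht).const_mul b).integrableOn,
      integral_add ((hM.int s hs).const_mul a).integrableOn
        ((hN.int s hs).const_mul b).integrableOn,
      integral_const_mul, integral_const_mul, integral_const_mul, integral_const_mul,
      hM.eq s t hs hst G hG, hN.eq s t hs hst G hG]

theorem h232_const_stop (c : ℝ) (hc : 0 ≤ c) : IsStop F (fun _ : Ω => c) := by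
  refine ⟨fun _ => hc, fun t _ => ?_⟩
  exact @MeasurableSet.const Ω (F t) (c ≤ t)

theorem mart_locmart (hF : IsFilt P F) (M : ℝ → Ω → ℝ) (hM : IsMart P F M) (hc : IsCA F M) :
    IsLocMart P F M := by
  refine ⟨hc, fun n _ => (n : ℝ), fun n => h232_const_stop (n : ℝ) (Nat.cast_nonneg n), ?_, ?_, ?_⟩
  · exact Eventually.of_forall fun ω n => by push_cast; linarith
  · exact Eventually.of_forall fun ω => tendsto_natCast_atTop_atTop
  · intro n
    have h1 := stopped_mart hF M hM hc (fun _ => (n : ℝ))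
      (h232_const_stop (n : ℝ) (Nat.cast_nonneg n))
    exact h232_sub0 hF _ h1 (M 0) (hc.adap 0 le_rfl) (hM.int 0 le_rfl)

theorem locmart_congr (hF : IsFilt P F) (M N : ℝ → Ω → ℝ) (hM : IsLocMart P F M)
    (hN : IsCA F N) (h : ∀ᵐ ω ∂P, ∀ t, 0 ≤ t → M t ω = N t ω) : IsLocMart P F N := by
  obtain ⟨τ, hst, hmono, htend, hmart⟩ := hM.loc
  refine ⟨hN, τ, hst, hmono, htend, fun n => ?_⟩
  have hcongr : ∀ t, 0 ≤ t → (fun ω => M (min t (τ n ω)) ω - M 0 ω) =ᵐ[P]
      fun ω => N (min t (τ n ω)) ω - N 0 ω := by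
    intro t ht
    filter_upwards [h] with ω hω
    rw [hω _ (le_min ht ((hst n).nonneg ω)), hω 0 le_rfl]
  refine ⟨fun t ht => ?_, fun t ht => ((hmart n).int t ht).congr (hcongr t ht),
    fun s t hs hst' G hG => ?_⟩
  · exact Measurable.sub ((stopped_adp hF N hN (τ n) (hst n)).adap t ht)
      (h232_meas0 hF N hN t ht)
  · have ht : 0 ≤ t := hs.trans hst'
    rw [← integral_congr_ae (ae_restrict_of_ae (hcongr t ht)),
      ← integral_congr_ae (ae_restrict_of_ae (hcongr s hs))]
    exact (hmart n).eq s t hs hst' G hG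

theorem h232_stop_sub (hF : IsFilt P F) (M : ℝ → Ω → ℝ) (hc : IsCA F M) (R : Ω → ℝ)
    (hR : IsStop F R) : IsCA F (fun t ω => M (min t (R ω)) ω - M 0 ω) := by
  have h1 := stopped_adp hF M hc R hR
  refine ⟨fun t ht => ?_, fun ω => ?_⟩
  · exact Measurable.sub (h1.adap t ht) (h232_meas0 hF M hc t ht)
  · exact (h1.cont ω).sub continuousOn_const

theorem locmart_lin (hF : IsFilt P F) (M N : ℝ → Ω → ℝ) (hM : IsLocMart P F M)
    (hN : IsLocMart P F N) (a b : ℝ) : IsLocMart P F (fun t ω => a * M t ω + b * N t ω) := by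
  obtain ⟨τ, hτst, hτmono, hτtend, hτmart⟩ := hM.loc
  obtain ⟨σ, hσst, hσmono, hσtend, hσmart⟩ := hN.loc
  refine ⟨⟨fun t ht => ?_, fun ω => ?_⟩, fun n ω => min (τ n ω) (σ n ω),
    fun n => stop_min hF _ _ (hτst n) (hσst n), ?_, ?_, fun n => ?_⟩
  · exact Measurable.add (Measurable.const_mul (hM.ca.adap t ht) a)
      (Measurable.const_mul (hN.ca.adap t ht) b)
  · exact (continuousOn_const.mul (hM.ca.cont ω)).add (continuousOn_const.mul (hN.ca.cont ω))
  · filter_upwards [hτmono, hσmono] with ω h1 h2 n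
    exact min_le_min (h1 n) (h2 n)
  · filter_upwards [hτtend, hσtend] with ω h1 h2
    rw [tendsto_atTop] at h1 h2 ⊢
    intro c
    filter_upwards [h1 c, h2 c] with n h3 h4
    exact le_min h3 h4
  · have h1 := stopped_mart hF _ (hτmart n) (h232_stop_sub hF M hM.ca (τ n) (hτst n)) (σ n) (hσst n)
    have h2 := stopped_mart hF _ (hσmart n) (h232_stop_sub hF N hN.ca (σ n) (hσst n)) (τ n) (hτst n)
    have h3 := h232_lin _ _ h1 h2 a b
    have h4 : (fun (t : ℝ) (ω : Ω) => a * (M (min (min t (σ n ω)) (τ n ω)) ω - M 0 ω) +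
        b * (N (min (min t (τ n ω)) (σ n ω)) ω - N 0 ω)) =
        fun t ω => (a * M (min t (min (τ n ω) (σ n ω))) ω +
          b * N (min t (min (τ n ω) (σ n ω))) ω) - (a * M 0 ω + b * N 0 ω) := by
      funext t ω
      have e1 : min (min t (σ n ω)) (τ n ω) = min t (min (τ n ω) (σ n ω)) := by
        rw [min_assoc, min_comm (σ n ω)]
      have e2 : min (min t (τ n ω)) (σ n ω) = min t (min (τ n ω) (σ n ω)) := by
        rw [min_assoc]
      rw [e1, e2]
      ring
    rw [h4] at h3
    exact h3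

theorem h232_bm_meas (hB : IsBM P F B) (t : ℝ) (ht : 0 ≤ t) : Measurable (B t) :=
  (hB.ca.adap t ht).mono (hB.filt.le t ht) le_rfl

theorem h232_bm_inc (hB : IsBM P F B) (s t : ℝ) (hs : 0 ≤ s) (hst : s ≤ t) :
    MemLp (fun ω => B t ω - B s ω) 2 P ∧ ∫ ω, (B t ω - B s ω) ∂P = 0 ∧
      ∫ ω, (B t ω - B s ω) ^ 2 ∂P = t - s := by
  have ht : 0 ≤ t := hs.trans hst
  have hDm : Measurable (fun ω => B t ω - B s ω) :=
    (h232_bm_meas hB t ht).sub (h232_bm_meas hB s hs)
  have hlaw := hB.law s t hs hst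
  have hid : MemLp id 2 (gaussianReal 0 (t - s).toNNReal) := memLp_id_gaussianReal' 2 (by simp)
  refine ⟨?_, ?_, ?_⟩
  · rw [← hlaw] at hid
    exact (memLp_map_measure_iff hid.1 hDm.aemeasurable).1 hid
  · have h1 := integral_map (μ := P) hDm.aemeasurable (f := fun x : ℝ => x)
      measurable_id.aestronglyMeasurable
    rw [← h1, hlaw, integral_id_gaussianReal]
  · have h1 := integral_map (μ := P) hDm.aemeasurable (f := fun x : ℝ => x ^ 2)
      (by fun_prop)
    rw [← h1, hlaw]
    have h2 := variance_fun_id_gaussianReal (μ := 0) (v := (t - s).toNNReal)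
    rw [variance_of_integral_eq_zero (by fun_prop) integral_id_gaussianReal] at h2
    rw [Real.coe_toNNReal _ (by linarith)] at h2
    exact h2

theorem h232_bm_ind (hB : IsBM P F B) (s t : ℝ) (hs : 0 ≤ s) (hst : s ≤ t) (Y : Ω → ℝ)
    (hY : Measurable[F s] Y) :
    ∫ ω, Y ω * (B t ω - B s ω) ∂P = 0 ∧
      ∫ ω, Y ω * (B t ω - B s ω) ^ 2 ∂P = (∫ ω, Y ω ∂P) * (t - s) := by
  have ht : 0 ≤ t := hs.trans hst
  have hDm : Measurable (fun ω => B t ω - B s ω) :=
    (h232_bm_meas hB t ht).sub (h232_bm_meas hB s hs)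
  have hYm : Measurable Y := hY.mono (hB.filt.le s hs) le_rfl
  obtain ⟨hL, hE, hV⟩ := h232_bm_inc hB s t hs hst
  have hind : IndepFun Y (fun ω => B t ω - B s ω) P := by
    rw [IndepFun_iff_Indep]
    apply Indep.symm
    exact indep_of_indep_of_le_right (hB.indep s t hs hst) (measurable_iff_comap_le.1 hY)
  refine ⟨?_, ?_⟩
  · rw [hind.integral_fun_mul_eq_mul_integral hYm.aestronglyMeasurable hDm.aestronglyMeasurable,
      hE, mul_zero]
  · have hind2 : IndepFun Y (fun ω => (B t ω - B s ω) ^ 2) P :=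
      hind.comp (φ := id) (ψ := fun x : ℝ => x ^ 2) measurable_id (by fun_prop)
    rw [hind2.integral_fun_mul_eq_mul_integral hYm.aestronglyMeasurable
      (hDm.pow_const 2).aestronglyMeasurable, hV]

theorem bm_mart (hB : IsBM P F B) : IsMart P F B ∧ IsMart P F (fun t ω => (B t ω) ^ 2 - t) := by
  have hL : ∀ t, 0 ≤ t → MemLp (B t) 2 P := by
    intro t ht
    have h1 := (h232_bm_inc hB 0 t le_rfl ht).1
    have h2 : (fun ω => B t ω - B 0 ω) = B t := by
      funext ω
      rw [hB.zero, sub_zero]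
    rwa [h2] at h1
  have hint : ∀ t, 0 ≤ t → Integrable (B t) P := fun t ht => (hL t ht).integrable (by norm_num)
  have hint2 : ∀ t, 0 ≤ t → Integrable (fun ω => (B t ω) ^ 2) P := fun t ht => (hL t ht).integrable_sq
  refine ⟨⟨hB.ca.adap, hint, ?_⟩, ⟨?_, ?_, ?_⟩⟩
  · intro s t hs hst G hG
    have ht : 0 ≤ t := hs.trans hst
    have hGm : MeasurableSet G := hB.filt.le s hs G hG
    have hD : Integrable (fun ω => B t ω - B s ω) P := (hint t ht).sub (hint s hs)
    have hY : Measurable[F s] (G.indicator (fun _ => (1 : ℝ))) :=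
      Measurable.indicator measurable_const hG
    have h1 := (h232_bm_ind hB s t hs hst _ hY).1
    have h2 : ∫ ω in G, (B t ω - B s ω) ∂P = 0 := by
      rw [← integral_indicator hGm, ← h1]
      congr 1
      funext ω
      by_cases hω : ω ∈ G
      · simp [hω]
      · simp [hω]
    rw [integral_sub (hint t ht).integrableOn (hint s hs).integrableOn] at h2
    linarith
  · intro t ht
    exact Measurable.sub_const (Measurable.pow_const (hB.ca.adap t ht) 2) t
  · intro t ht
    exact (hint2 t ht).sub (integrable_const t)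
  · intro s t hs hst G hG
    have ht : 0 ≤ t := hs.trans hst
    have hGm : MeasurableSet G := hB.filt.le s hs G hG
    have hY : Measurable[F s] (G.indicator (fun _ => (1 : ℝ))) :=
      Measurable.indicator measurable_const hG
    have hY2 : Measurable[F s] (G.indicator (B s)) :=
      Measurable.indicator (hB.ca.adap s hs) hG
    have h1 := (h232_bm_ind hB s t hs hst _ hY).2
    have h2 := (h232_bm_ind hB s t hs hst _ hY2).1
    have hDL := (h232_bm_inc hB s t hs hst).1
    have hprod : Integrable (fun ω => B s ω * (B t ω - B s ω)) P :=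
      (hL s hs).integrable_mul hDL
    have hD2 : Integrable (fun ω => (B t ω - B s ω) ^ 2) P := hDL.integrable_sq
    have h3 : ∫ ω in G, B s ω * (B t ω - B s ω) ∂P = 0 := by
      rw [← integral_indicator hGm, ← h2]
      congr 1
      funext ω
      by_cases hω : ω ∈ G
      · simp [hω]
      · simp [hω]
    have h4 : ∫ ω in G, (B t ω - B s ω) ^ 2 ∂P = P.real G * (t - s) := by
      rw [← integral_indicator hGm]
      have h5 : ∫ ω, G.indicator (fun _ => (1 : ℝ)) ω ∂P = P.real G := by
        rw [integral_indicator_const _ hGm]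
        simp
      rw [← h5, ← h1]
      congr 1
      funext ω
      by_cases hω : ω ∈ G
      · simp [hω]
      · simp [hω]
    have h6 : ∫ ω in G, ((B t ω) ^ 2 - t) ∂P = ∫ ω in G, (((B s ω) ^ 2 - s) +
        (2 * (B s ω * (B t ω - B s ω)) + ((B t ω - B s ω) ^ 2 - (t - s)))) ∂P := by
      congr 1
      funext ω
      ring
    have i1 : IntegrableOn (fun ω => (B s ω) ^ 2 - s) G P :=
      ((hint2 s hs).sub (integrable_const s)).integrableOn
    have i2 : IntegrableOn (fun ω => 2 * (B s ω * (B t ω - B s ω))) G P :=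
      (hprod.const_mul 2).integrableOn
    have i4 : IntegrableOn (fun ω => (B t ω - B s ω) ^ 2) G P := hD2.integrableOn
    have i5 : IntegrableOn (fun _ : Ω => (t - s)) G P := (integrable_const (t - s)).integrableOn
    have i3 : IntegrableOn (fun ω => (B t ω - B s ω) ^ 2 - (t - s)) G P := i4.sub i5
    have i6 : IntegrableOn (fun ω => 2 * (B s ω * (B t ω - B s ω)) +
        ((B t ω - B s ω) ^ 2 - (t - s))) G P := i2.add i3
    rw [h6, integral_add i1 i6, integral_add i2 i3, integral_const_mul, h3, integral_sub i4 i5,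
      h4, setIntegral_const, smul_eq_mul]
    ring

end stopping

end Pool.Agent.Helper41.SK
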