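import Pool.Agent.Helper41.SK.Defs
import Pool.Agent.Helper41.SK.MainDefs


set_option autoImplicit false

open scoped ENNReal NNReal Topology
open MeasureTheory ProbabilityTheory Set Filter

namespace Pool.Agent.Helper41.SK

/-! Processes are indexed by t. -/

/-! ## TARGETS: prove these (statements must not be changed; helper lemmas are welcome) -/

section stopping

variable {Ω : Type*} [mΩ : MeasurableSpace Ω] {P : Measure Ω} [IsProbabilityMeasure P]
  {F : ℝ → MeasurableSpace Ω} {B : ℝ → Ω → ℝ}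

theorem relax_upper (p Φ : ℝ → ℝ) (Λ m c ε : ℝ) (hm : 0 < m) (hc : 0 ≤ c)
    (hp : ∀ l, HasDerivAt p (m * (p l - Φ l)) l) (hΛ : ∀ l, Λ ≤ l → p l = Φ l)
    (hΦ : ∀ l r, l ≤ r → Φ r ≤ Φ l + ε + c * (r - l)) (l0 : ℝ) :
    p l0 ≤ Φ l0 + ε + c / m := by
  have hder : ∀ l, HasDerivAt (fun l => Real.exp (-(m * l)) *
      ((Φ l0 + ε + c * (l - l0) + c / m) - p l))
      (Real.exp (-(m * l)) * (m * (Φ l - (Φ l0 + ε + c * (l - l0))))) l := by
    intro l
    have h1 : HasDerivAt (fun l : ℝ => Real.exp (-(m * l))) (Real.exp (-(m * l)) * (-m)) l := by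
      have h2 : HasDerivAt (fun l : ℝ => -(m * l)) (-m) l := by
        have := ((hasDerivAt_id' (𝕜 := ℝ) l).const_mul m).fun_neg
        simpa using this
      exact h2.exp
    have h3 : HasDerivAt (fun l : ℝ => (Φ l0 + ε + c * (l - l0) + c / m) - p l)
        (c - m * (p l - Φ l)) l := by
      have h4 : HasDerivAt (fun l : ℝ => Φ l0 + ε + c * (l - l0) + c / m) c l := by
        have h5 := (((hasDerivAt_id' (𝕜 := ℝ) l).sub_const l0).const_mul c)
        have h6 := (h5.const_add (Φ l0 + ε)).add_const (c / m)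
        simpa using h6
      exact h4.sub (hp l)
    have h7 := h1.mul h3
    refine h7.congr_deriv ?_
    field_simp
    ring
  have hanti : AntitoneOn (fun l => Real.exp (-(m * l)) *
      ((Φ l0 + ε + c * (l - l0) + c / m) - p l)) (Ici l0) := by
    apply antitoneOn_of_deriv_nonpos (convex_Ici l0)
    · exact fun l _ => (hder l).continuousAt.continuousWithinAt
    · exact fun l _ => (hder l).differentiableAt.differentiableWithinAt
    · intro l hl
      rw [interior_Ici] at hl
      rw [(hder l).deriv]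
      have h1 := hΦ l0 l (le_of_lt hl)
      have h2 : Φ l - (Φ l0 + ε + c * (l - l0)) ≤ 0 := by linarith
      have h3 : m * (Φ l - (Φ l0 + ε + c * (l - l0))) ≤ 0 := by nlinarith
      have h4 := Real.exp_pos (-(m * l))
      nlinarith
  have h1 := hanti (self_mem_Ici (a := l0)) (mem_Ici.2 (le_max_right Λ l0)) (le_max_right Λ l0)
  simp only at h1
  have h2 : 0 ≤ Real.exp (-(m * max Λ l0)) *
      ((Φ l0 + ε + c * (max Λ l0 - l0) + c / m) - p (max Λ l0)) := by
    apply mul_nonneg (Real.exp_pos _).le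
    rw [hΛ _ (le_max_left _ _)]
    have h3 := hΦ l0 (max Λ l0) (le_max_right _ _)
    have h4 : 0 ≤ c / m := by positivity
    linarith
  have h5 := h2.trans h1
  have h6 : 0 ≤ (Φ l0 + ε + c * (l0 - l0) + c / m) - p l0 := by
    by_contra hneg
    push Not at hneg
    have := mul_neg_of_pos_of_neg (Real.exp_pos (-(m * l0))) hneg
    linarith
  rw [sub_self, mul_zero, add_zero] at h6
  linarith

theorem relax (φ : ℝ → ℝ) (Λ : ℝ) (hΛ : 0 ≤ Λ) (hφ : ContinuousOn φ (Icc 0 Λ)) (ε : ℝ)
    (hε : 0 < ε) :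
    ∃ m : ℝ, 0 < m ∧ ∃ p p1 : ℝ → ℝ, (∀ l, HasDerivAt p (p1 l) l) ∧ Continuous p1 ∧
      (∀ l, |φ (max 0 (min l Λ)) - p l| ≤ ε) ∧ (∀ l, p1 l = m * (p l - φ (max 0 (min l Λ)))) ∧
      (∀ l, Λ ≤ l → p l = φ Λ) := by
  have hmem : ∀ l : ℝ, max 0 (min l Λ) ∈ Icc 0 Λ := fun l =>
    ⟨le_max_left _ _, max_le hΛ (min_le_right _ _)⟩
  obtain ⟨Φ, hΦdef⟩ : ∃ Φ : ℝ → ℝ, Φ = fun l => φ (max 0 (min l Λ)) := ⟨_, rfl⟩
  have hΦc : Continuous Φ := by
    rw [hΦdef]
    exact hφ.comp_continuous (by fun_prop) hmem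
  have hΦge : ∀ l, Λ ≤ l → Φ l = φ Λ := by
    intro l hl
    rw [hΦdef]
    simp only
    rw [min_eq_right hl, max_eq_right hΛ]
  obtain ⟨K, hK⟩ := isCompact_Icc.exists_bound_of_continuousOn hφ
  have hKΦ : ∀ l, |Φ l| ≤ K := by
    intro l
    rw [hΦdef]
    exact hK _ (hmem l)
  have hK0 : 0 ≤ K := (abs_nonneg _).trans (hKΦ 0)
  have huc := isCompact_Icc.uniformContinuousOn_of_continuous hφ
  rw [Metric.uniformContinuousOn_iff] at huc
  obtain ⟨δ, hδ, huc⟩ := huc (ε / 2) (by positivity)
  have hlip : ∀ l r : ℝ, |max 0 (min l Λ) - max 0 (min r Λ)| ≤ |l - r| := by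
    intro l r
    have h1 : |max 0 (min l Λ) - max 0 (min r Λ)| ≤ |min l Λ - min r Λ| := by
      have := abs_max_sub_max_le_max 0 (min l Λ) 0 (min r Λ)
      simpa using this
    have h2 : |min l Λ - min r Λ| ≤ |l - r| := by
      have := abs_min_sub_min_le_max l Λ r Λ
      simpa using this
    exact h1.trans h2
  set c : ℝ := 2 * K / δ with hcdef
  have hc0 : 0 ≤ c := by positivity
  have hosc : ∀ l r, l ≤ r → |Φ r - Φ l| ≤ ε / 2 + c * (r - l) := by
    intro l r hlr
    by_cases h : r - l < δ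
    · have h1 : dist (max 0 (min r Λ)) (max 0 (min l Λ)) < δ := by
        rw [Real.dist_eq]
        refine (hlip r l).trans_lt ?_
        rwa [abs_of_nonneg (by linarith)]
      have h2 := huc _ (hmem r) _ (hmem l) h1
      rw [Real.dist_eq] at h2
      have h3 : |Φ r - Φ l| < ε / 2 := by rw [hΦdef]; exact h2
      have h4 : 0 ≤ c * (r - l) := mul_nonneg hc0 (by linarith)
      linarith
    · push Not at h
      have h1 : |Φ r - Φ l| ≤ 2 * K := by
        have := abs_sub (Φ r) (Φ l)
        linarith [hKΦ r, hKΦ l]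
      have h2 : 2 * K ≤ c * (r - l) := by
        have h3 : 2 * K = c * δ := by rw [hcdef]; field_simp
        rw [h3]
        exact mul_le_mul_of_nonneg_left h hc0
      linarith
  set m : ℝ := 2 * c / ε + 1 with hmdef
  have hm : 0 < m := by positivity
  have hcm : c / m ≤ ε / 2 := by
    rw [div_le_iff₀ hm, hmdef]
    have : ε / 2 * (2 * c / ε + 1) = c + ε / 2 := by field_simp
    rw [this]
    linarith
  obtain ⟨G, hGdef⟩ : ∃ G : ℝ → ℝ, G = fun l => ∫ r in Λ..l, Real.exp (-(m * r)) * Φ r := ⟨_, rfl⟩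
  have hgc : Continuous (fun r => Real.exp (-(m * r)) * Φ r) := by fun_prop
  have hG : ∀ l, HasDerivAt G (Real.exp (-(m * l)) * Φ l) l := by
    intro l
    rw [hGdef]
    exact (hgc.integral_hasStrictDerivAt Λ l).hasDerivAt
  obtain ⟨p, hpdef⟩ : ∃ p : ℝ → ℝ, p = fun l => Real.exp (m * l) *
      (Real.exp (-(m * Λ)) * φ Λ - m * G l) := ⟨_, rfl⟩
  have hp : ∀ l, HasDerivAt p (m * (p l - Φ l)) l := by
    intro l
    have h1 : HasDerivAt (fun l : ℝ => Real.exp (m * l)) (Real.exp (m * l) * m) l := by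
      have h2 : HasDerivAt (fun l : ℝ => m * l) m l := by
        simpa using (hasDerivAt_id' (𝕜 := ℝ) l).const_mul m
      exact h2.exp
    have h3 : HasDerivAt (fun l => Real.exp (-(m * Λ)) * φ Λ - m * G l)
        (-(m * (Real.exp (-(m * l)) * Φ l))) l := by
      have := ((hG l).const_mul m).const_sub (Real.exp (-(m * Λ)) * φ Λ)
      exact this
    have h4 := h1.mul h3
    rw [hpdef]
    refine h4.congr_deriv ?_
    have h5 : Real.exp (m * l) * Real.exp (-(m * l)) = 1 := by
      rw [← Real.exp_add, add_neg_cancel, Real.exp_zero]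
    have h6 : Real.exp (m * l) * -(m * (Real.exp (-(m * l)) * Φ l)) =
        -(m * Φ l) * (Real.exp (m * l) * Real.exp (-(m * l))) := by ring
    rw [h6, h5]
    ring
  have hpΛ : ∀ l, Λ ≤ l → p l = φ Λ := by
    intro l hl
    have h1 : G l = φ Λ * (Real.exp (-(m * Λ)) - Real.exp (-(m * l))) / m := by
      rw [hGdef]
      simp only
      have h2 : ∫ r in Λ..l, Real.exp (-(m * r)) * Φ r =
          ∫ r in Λ..l, Real.exp (-(m * r)) * φ Λ := by
        apply intervalIntegral.integral_congr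
        intro r hr
        rw [uIcc_of_le hl] at hr
        simp only
        rw [hΦge r hr.1]
      rw [h2]
      have h3 : ∀ x ∈ uIcc Λ l, HasDerivAt (fun r : ℝ => -(φ Λ / m) * Real.exp (-(m * r)))
          (Real.exp (-(m * x)) * φ Λ) x := by
        intro x _
        have h4 : HasDerivAt (fun r : ℝ => -(m * r)) (-m) x := by
          have := ((hasDerivAt_id' (𝕜 := ℝ) x).const_mul m).fun_neg
          simpa using this
        refine (h4.exp.const_mul (-(φ Λ / m))).congr_deriv ?_
        field_simp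
      rw [intervalIntegral.integral_eq_sub_of_hasDerivAt h3]
      · field_simp
        ring
      · apply Continuous.intervalIntegrable
        fun_prop
    rw [hpdef]
    simp only
    rw [h1]
    have h5 : Real.exp (m * l) * Real.exp (-(m * l)) = 1 := by
      rw [← Real.exp_add, add_neg_cancel, Real.exp_zero]
    have h6 : m * (φ Λ * (Real.exp (-(m * Λ)) - Real.exp (-(m * l))) / m) =
        φ Λ * (Real.exp (-(m * Λ)) - Real.exp (-(m * l))) := by field_simp
    rw [h6]
    calc Real.exp (m * l) * (Real.exp (-(m * Λ)) * φ Λ -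
          φ Λ * (Real.exp (-(m * Λ)) - Real.exp (-(m * l))))
        = φ Λ * (Real.exp (m * l) * Real.exp (-(m * l))) := by ring
      _ = φ Λ := by rw [h5, mul_one]
  have hpcont : Continuous p := continuous_iff_continuousAt.2 fun l => (hp l).continuousAt
  refine ⟨m, hm, p, fun l => m * (p l - Φ l), hp, by fun_prop, ?_, ?_, hpΛ⟩
  · intro l
    have hu := relax_upper p Φ Λ m c (ε / 2) hm hc0 hp
      (fun l hl => by rw [hpΛ l hl, hΦge l hl])
      (fun l r hlr => by have := (abs_le.1 (hosc l r hlr)).2; linarith) l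
    have hl := relax_upper (fun l => -p l) (fun l => -Φ l) Λ m c (ε / 2) hm hc0
      (fun l => by
        have := (hp l).neg
        refine this.congr_deriv ?_
        ring)
      (fun l hl => by rw [hpΛ l hl, hΦge l hl])
      (fun l r hlr => by have := (abs_le.1 (hosc l r hlr)).1; linarith) l
    have e1 : φ (max 0 (min l Λ)) = Φ l := by rw [hΦdef]
    rw [e1, abs_le]
    have hl' : -p l ≤ -Φ l + ε / 2 + c / m := hl
    constructor <;> linarith
  · intro l
    rw [hΦdef]

end stopping

end Pool.Agent.Helper41.SK
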