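import Pool.Agent.Helper41.SK.Defs
import Pool.Agent.Helper41.SK.MainDefs
import Pool.Agent.Helper41.SK.SB01
import Pool.Agent.Helper41.SK.SB04

set_option autoImplicit false

open scoped ENNReal NNReal Topology
open MeasureTheory ProbabilityTheory Set Filter

namespace Pool.Agent.Helper41.SK

/-! Processes are indexed by t. -/


/-! ## TARGETS: prove these (statements must not be changed; helper lemmas are welcome) -/

/-- auxiliary: discrete energy inequality -/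
theorem energy_seq (n : ℕ) (x u v l : ℕ → ℝ) (c ε m Kp D1 D2 : ℝ) (p : ℝ → ℝ)
    (hε : 0 ≤ ε)
    (x0 : x 0 = 0) (u0 : u 0 = 0) (v0 : v 0 = 0) (l0 : l 0 = 0)
    (hu : ∀ i < n, u i ≤ u (i + 1)) (hv : ∀ i < n, v i ≤ v (i + 1))
    (hz : ∀ i ≤ n, |c + x i + u i - v i - p (l i)| ≤ 2 * ε)
    (hx : ∀ i < n, |x (i + 1) - x i| ≤ D1)
    (hp : ∀ i < n, |p (l (i + 1)) - p (l i)| ≤ Kp * (l (i + 1) - l i))
    (hzp : ∀ i < n, (c + x i + u i - v i - p (l i)) * (p (l (i + 1)) - p (l i)) ≤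
      Kp / m * D2 * (l (i + 1) - l i)) :
    ∀ j ≤ n, x j ^ 2 ≤ ∑ i ∈ Finset.range j,
        2 * (x i - (c + x i + u i - v i - p (l i))) * (x (i + 1) - x i)
       + (c + x j + u j - v j - p (l j)) ^ 2 + 4 * ε * (u j + v j)
       + 2 * (Kp / m * D2) * l j + 2 * D1 * (u j + v j + Kp * l j) := by
  intro j
  induction j with
  | zero =>
    intro _
    rw [Finset.sum_range_zero, x0, u0, v0, l0]
    nlinarith [sq_nonneg (c + 0 + 0 - 0 - p 0)]
  | succ j ih =>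
    intro hj
    have ih' := ih (by omega)
    rw [Finset.sum_range_succ]
    have hjn : j < n := by omega
    have hu' := hu j hjn
    have hv' := hv j hjn
    have hz' := hz j hjn.le
    have hx' := hx j hjn
    have hp' := hp j hjn
    have hzp' := hzp j hjn
    set z := c + x j + u j - v j - p (l j) with hzd
    set z' := c + x (j + 1) + u (j + 1) - v (j + 1) - p (l (j + 1)) with hzd'
    set S := ∑ i ∈ Finset.range j,
        2 * (x i - (c + x i + u i - v i - p (l i))) * (x (i + 1) - x i) with hS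
    -- increments
    have e1 : -(2 * z * ((u (j + 1) - u j) - (v (j + 1) - v j))) ≤
        4 * ε * ((u (j + 1) - u j) + (v (j + 1) - v j)) := by
      have h1 : |z * ((u (j + 1) - u j) - (v (j + 1) - v j))| ≤
          (2 * ε) * ((u (j + 1) - u j) + (v (j + 1) - v j)) := by
        rw [abs_mul]
        refine mul_le_mul hz' ?_ (abs_nonneg _) (by linarith)
        rw [abs_le]
        constructor <;> linarith
      have h2 := neg_abs_le (z * ((u (j + 1) - u j) - (v (j + 1) - v j)))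
      linarith
    have e2 : -(2 * (x (j + 1) - x j) *
        ((u (j + 1) - u j) - (v (j + 1) - v j) - (p (l (j + 1)) - p (l j)))) ≤
        2 * D1 * ((u (j + 1) - u j) + (v (j + 1) - v j) + Kp * (l (j + 1) - l j)) := by
      have h1 : |(x (j + 1) - x j) *
          ((u (j + 1) - u j) - (v (j + 1) - v j) - (p (l (j + 1)) - p (l j)))| ≤
          D1 * ((u (j + 1) - u j) + (v (j + 1) - v j) + Kp * (l (j + 1) - l j)) := by
        rw [abs_mul]
        refine mul_le_mul hx' ?_ (abs_nonneg _) ((abs_nonneg _).trans hx')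
        have h3 := abs_le.mp hp'
        rw [abs_le]
        constructor <;> linarith [h3.1, h3.2]
      have h2 := neg_abs_le ((x (j + 1) - x j) *
          ((u (j + 1) - u j) - (v (j + 1) - v j) - (p (l (j + 1)) - p (l j))))
      linarith
    have e3 : x (j + 1) ^ 2 - x j ^ 2 = 2 * (x j - z) * (x (j + 1) - x j) + (z' ^ 2 - z ^ 2)
        - (2 * z * ((u (j + 1) - u j) - (v (j + 1) - v j)))
        + 2 * (z * (p (l (j + 1)) - p (l j)))
        - (2 * (x (j + 1) - x j) *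
            ((u (j + 1) - u j) - (v (j + 1) - v j) - (p (l (j + 1)) - p (l j))))
        - ((u (j + 1) - u j) - (v (j + 1) - v j) - (p (l (j + 1)) - p (l j))) ^ 2 := by
      rw [hzd, hzd']
      ring
    have e4 := sq_nonneg ((u (j + 1) - u j) - (v (j + 1) - v j) - (p (l (j + 1)) - p (l j)))
    nlinarith [e1, e2, e3, e4, hzp', ih']

/-- auxiliary: grid -/
noncomputable def eg (T : ℝ) (n i : ℕ) : ℝ := T * i / (n + 1)

theorem eg_zero (T : ℝ) (n : ℕ) : eg T n 0 = 0 := by simp [eg]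

theorem eg_last (T : ℝ) (n : ℕ) : eg T n (n + 1) = T := by
  unfold eg
  have : ((n : ℝ) + 1) ≠ 0 := by positivity
  push_cast
  field_simp

theorem eg_nonneg {T : ℝ} (hT : 0 ≤ T) (n i : ℕ) : 0 ≤ eg T n i := by
  unfold eg; positivity

theorem eg_step (T : ℝ) (n i : ℕ) : eg T n (i + 1) = eg T n i + T / (n + 1) := by
  unfold eg
  push_cast
  ring

theorem eg_mono {T : ℝ} (hT : 0 ≤ T) (n : ℕ) : Monotone (eg T n) := by
  intro i j hij
  unfold eg
  have : (i : ℝ) ≤ j := by exact_mod_cast hij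
  gcongr

theorem eg_le {T : ℝ} (hT : 0 ≤ T) {n i : ℕ} (hi : i ≤ n + 1) : eg T n i ≤ T := by
  calc eg T n i ≤ eg T n (n + 1) := eg_mono hT n hi
    _ = T := eg_last T n

theorem energy_mvt (p p1 : ℝ → ℝ) (hp : ∀ l, HasDerivAt p (p1 l) l) (a b : ℝ) (hab : a ≤ b) :
    ∃ ξ ∈ Icc a b, p b - p a = p1 ξ * (b - a) := by
  rcases hab.eq_or_lt with h | h
  · subst h
    exact ⟨a, ⟨le_refl _, le_refl _⟩, by ring⟩
  · obtain ⟨ξ, hξ, he⟩ := exists_hasDerivAt_eq_slope p p1 h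
      (fun y _ => (hp y).continuousAt.continuousWithinAt) (fun y _ => hp y)
    refine ⟨ξ, ⟨hξ.1.le, hξ.2.le⟩, ?_⟩
    rw [he, div_mul_cancel₀ _ (by linarith : b - a ≠ 0)]

/-- auxiliary: the quantity controlled by the energy inequality -/
noncomputable def eG (x z : ℝ → ℝ) (ε K T : ℝ) (n : ℕ) : ℝ :=
  x T ^ 2 - (4 * ε ^ 2 + 8 * ε * K) - ∑ i ∈ Finset.range (n + 1),
    2 * (x (eg T n i) - z (eg T n i)) * (x (eg T n (i + 1)) - x (eg T n i))

theorem energy_path (x u v l z : ℝ → ℝ) (c ε m Kp K T Λ : ℝ) (p p1 : ℝ → ℝ)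
    (hε : 0 ≤ ε) (hm : 0 < m) (hKp : 0 ≤ Kp) (hT : 0 ≤ T)
    (hz : ∀ t, z t = c + x t + u t - v t - p (l t))
    (hp : ∀ l, HasDerivAt p (p1 l) l)
    (x0 : x 0 = 0) (u0 : u 0 = 0) (v0 : v 0 = 0) (l0 : l 0 = 0)
    (hu : ∀ s t, 0 ≤ s → s ≤ t → u s ≤ u t) (hv : ∀ s t, 0 ≤ s → s ≤ t → v s ≤ v t)
    (hl : ∀ s t, 0 ≤ s → s ≤ t → l s ≤ l t)
    (huK : ∀ t, 0 ≤ t → u t ≤ K) (hvK : ∀ t, 0 ≤ t → v t ≤ K) (hlK : ∀ t, 0 ≤ t → l t ≤ K)
    (hzε : ∀ t, 0 ≤ t → |z t| ≤ 2 * ε)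
    (hp1 : ∀ y, 0 ≤ y → y ≤ K → |p1 y| ≤ Kp)
    (hrel : ∀ t, 0 ≤ t → l t ≤ Λ → p1 (l t) = -(m * z t))
    (hpc : ∀ y y', Λ ≤ y → Λ ≤ y' → p y = p y')
    (n : ℕ) (D1 D2 : ℝ) (hD1 : 0 ≤ D1) (hD2 : 0 ≤ D2)
    (h1 : ∀ i < n + 1, |x (eg T n (i + 1)) - x (eg T n i)| ≤ D1)
    (h2 : ∀ i < n + 1, ∀ ξ ∈ Icc (l (eg T n i)) (l (eg T n (i + 1))),
      |p1 ξ - p1 (l (eg T n i))| ≤ D2) :
    eG x z ε K T n ≤ 2 * (Kp / m * D2) * K + 2 * D1 * (2 * K + Kp * K) := by
  have hl0 : ∀ t, 0 ≤ t → 0 ≤ l t := fun t ht => by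
    have := hl 0 t le_rfl ht
    rwa [l0] at this
  have hstep : ∀ i, eg T n i ≤ eg T n (i + 1) := fun i => eg_mono hT n (Nat.le_succ i)
  have hpos : ∀ i, 0 ≤ eg T n i := fun i => eg_nonneg hT n i
  have hseq := energy_seq (n + 1) (fun i => x (eg T n i)) (fun i => u (eg T n i))
    (fun i => v (eg T n i)) (fun i => l (eg T n i)) c ε m Kp D1 D2 p hε
    (by simp only [eg_zero, x0]) (by simp only [eg_zero, u0]) (by simp only [eg_zero, v0])
    (by simp only [eg_zero, l0])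
    (fun i _ => hu _ _ (hpos i) (hstep i)) (fun i _ => hv _ _ (hpos i) (hstep i))
    (fun i _ => by rw [← hz]; exact hzε _ (hpos i)) h1
    (fun i _ => by
      obtain ⟨ξ, hξ, he⟩ := energy_mvt p p1 hp _ _ (hl _ _ (hpos i) (hstep i))
      show |p (l (eg T n (i + 1))) - p (l (eg T n i))| ≤ _
      rw [he, abs_mul, abs_of_nonneg (sub_nonneg.mpr (hl _ _ (hpos i) (hstep i)))]
      refine mul_le_mul_of_nonneg_right (hp1 ξ ((hl0 _ (hpos i)).trans hξ.1)
        (hξ.2.trans (hlK _ (hpos _)))) (sub_nonneg.mpr (hl _ _ (hpos i) (hstep i))))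
    (fun i hi => by
      show (c + x (eg T n i) + u (eg T n i) - v (eg T n i) - p (l (eg T n i))) *
        (p (l (eg T n (i + 1))) - p (l (eg T n i))) ≤
        Kp / m * D2 * (l (eg T n (i + 1)) - l (eg T n i))
      have hll := hl _ _ (hpos i) (hstep i)
      have hrhs : 0 ≤ Kp / m * D2 * (l (eg T n (i + 1)) - l (eg T n i)) :=
        mul_nonneg (mul_nonneg (div_nonneg hKp hm.le) hD2) (sub_nonneg.mpr hll)
      rcases le_or_gt (l (eg T n i)) Λ with hΛ | hΛ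
      · obtain ⟨ξ, hξ, he⟩ := energy_mvt p p1 hp _ _ hll
        have hr := hrel _ (hpos i) hΛ
        rw [← hz, he]
        set q := p1 (l (eg T n i)) with hq
        have hzq : z (eg T n i) = -(q / m) := by
          rw [hr]; field_simp
        rw [hzq]
        have hqK : |q| ≤ Kp := hp1 _ (hl0 _ (hpos i)) (hlK _ (hpos i))
        have hdq := h2 i hi ξ hξ
        rw [← hq] at hdq
        have hkey : -(q / m) * p1 ξ ≤ Kp / m * D2 := by
          have h3 : -(q * p1 ξ) ≤ Kp * D2 := by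
            have h4 : -(q * (p1 ξ - q)) ≤ Kp * D2 := by
              have h5 : |q * (p1 ξ - q)| ≤ Kp * D2 := by
                rw [abs_mul]
                exact mul_le_mul hqK hdq (abs_nonneg _) hKp
              have h6 := neg_abs_le (q * (p1 ξ - q))
              linarith
            nlinarith [sq_nonneg q]
          have h7 : -(q / m) * p1 ξ = (-(q * p1 ξ)) / m := by ring
          have h8 : Kp / m * D2 = (Kp * D2) / m := by ring
          rw [h7, h8]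
          exact div_le_div_of_nonneg_right h3 hm.le
        calc -(q / m) * (p1 ξ * (l (eg T n (i + 1)) - l (eg T n i)))
            = (-(q / m) * p1 ξ) * (l (eg T n (i + 1)) - l (eg T n i)) := by ring
          _ ≤ _ := mul_le_mul_of_nonneg_right hkey (sub_nonneg.mpr hll)
      · rw [hpc _ _ (hΛ.le.trans hll) hΛ.le, sub_self, mul_zero]
        exact hrhs)
    (n + 1) le_rfl
  simp only [← hz, eg_last] at hseq
  have hzT := hzε T hT
  have hzT2 : z T ^ 2 ≤ 4 * ε ^ 2 := by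
    have := abs_le.mp hzT
    nlinarith
  have huT := huK T hT
  have hvT := hvK T hT
  have hlT := hlK T hT
  have b1 : 4 * ε * (u T + v T) ≤ 8 * ε * K := by nlinarith
  have b2 : 2 * (Kp / m * D2) * l T ≤ 2 * (Kp / m * D2) * K :=
    mul_le_mul_of_nonneg_left hlT (by positivity)
  have b3 : 2 * D1 * (u T + v T + Kp * l T) ≤ 2 * D1 * (2 * K + Kp * K) := by
    refine mul_le_mul_of_nonneg_left ?_ (by positivity)
    nlinarith
  unfold eG
  linarith

theorem energy_path_lim (x u v l z : ℝ → ℝ) (c ε m Kp K T Λ : ℝ) (p p1 : ℝ → ℝ)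
    (hε : 0 ≤ ε) (hm : 0 < m) (hKp : 0 ≤ Kp) (hK : 0 ≤ K) (hT : 0 ≤ T)
    (hz : ∀ t, z t = c + x t + u t - v t - p (l t))
    (hp : ∀ l, HasDerivAt p (p1 l) l) (hp1c : Continuous p1)
    (hxc : ContinuousOn x (Icc 0 T)) (hlc : ContinuousOn l (Icc 0 T))
    (x0 : x 0 = 0) (u0 : u 0 = 0) (v0 : v 0 = 0) (l0 : l 0 = 0)
    (hu : ∀ s t, 0 ≤ s → s ≤ t → u s ≤ u t) (hv : ∀ s t, 0 ≤ s → s ≤ t → v s ≤ v t)
    (hl : ∀ s t, 0 ≤ s → s ≤ t → l s ≤ l t)
    (huK : ∀ t, 0 ≤ t → u t ≤ K) (hvK : ∀ t, 0 ≤ t → v t ≤ K) (hlK : ∀ t, 0 ≤ t → l t ≤ K)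
    (hzε : ∀ t, 0 ≤ t → |z t| ≤ 2 * ε)
    (hp1 : ∀ y, 0 ≤ y → y ≤ K → |p1 y| ≤ Kp)
    (hrel : ∀ t, 0 ≤ t → l t ≤ Λ → p1 (l t) = -(m * z t))
    (hpc : ∀ y y', Λ ≤ y → Λ ≤ y' → p y = p y') :
    ∀ δ > 0, ∀ᶠ n in atTop, eG x z ε K T n ≤ δ := by
  intro δ hδ
  have hl0 : ∀ t, 0 ≤ t → 0 ≤ l t := fun t ht => by
    have := hl 0 t le_rfl ht
    rwa [l0] at this
  set Cst := 2 * (Kp / m) * K + 2 * (2 * K + Kp * K) with hCst
  have hCst0 : 0 ≤ Cst := by positivity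
  set η := δ / (Cst + 1) with hη
  have hη0 : 0 < η := by positivity
  have ux := isCompact_Icc.uniformContinuousOn_of_continuous hxc
  have ul := isCompact_Icc.uniformContinuousOn_of_continuous hlc
  have up := (isCompact_Icc (a := (0:ℝ)) (b := K)).uniformContinuousOn_of_continuous
    hp1c.continuousOn
  rw [Metric.uniformContinuousOn_iff] at ux ul up
  obtain ⟨d1, hd1, hx1⟩ := ux η hη0
  obtain ⟨e1, he1, hp1'⟩ := up η hη0
  obtain ⟨d2, hd2, hl1⟩ := ul e1 he1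
  obtain ⟨n0, hn0⟩ := exists_nat_gt (T / min d1 d2)
  filter_upwards [eventually_ge_atTop n0] with n hn
  have hmin : 0 < min d1 d2 := lt_min hd1 hd2
  have hstepsize : T / (n + 1) < min d1 d2 := by
    have h1 : T / min d1 d2 < (n : ℝ) + 1 := by
      have : (n0 : ℝ) ≤ n := by exact_mod_cast hn
      linarith
    rw [div_lt_iff₀ hmin] at h1
    rw [div_lt_iff₀ (by positivity)]
    linarith
  have hTn : 0 ≤ T / ((n : ℝ) + 1) := by positivity
  have hmem : ∀ i, i ≤ n + 1 → eg T n i ∈ Icc 0 T := fun i hi =>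
    ⟨eg_nonneg hT n i, eg_le hT hi⟩
  have hdist : ∀ i, dist (eg T n (i + 1)) (eg T n i) < min d1 d2 := by
    intro i
    rw [eg_step, Real.dist_eq, add_sub_cancel_left, abs_of_nonneg hTn]
    exact hstepsize
  have hmain := energy_path x u v l z c ε m Kp K T Λ p p1 hε hm hKp hT hz hp x0 u0 v0 l0 hu hv hl
    huK hvK hlK hzε hp1 hrel hpc n η η hη0.le hη0.le
    (fun i hi => by
      have := hx1 _ (hmem (i + 1) (by omega)) _ (hmem i (by omega))
        ((hdist i).trans_le (min_le_left _ _))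
      rw [Real.dist_eq] at this
      exact this.le)
    (fun i hi ξ hξ => by
      have h3 := hl1 _ (hmem (i + 1) (by omega)) _ (hmem i (by omega))
        ((hdist i).trans_le (min_le_right _ _))
      rw [Real.dist_eq] at h3
      have hge := hl0 _ (eg_nonneg hT n i)
      have h4 : dist ξ (l (eg T n i)) < e1 := by
        rw [Real.dist_eq, abs_of_nonneg (by linarith [hξ.1])]
        have h5 := le_abs_self (l (eg T n (i + 1)) - l (eg T n i))
        linarith [hξ.2]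
      have h6 := hp1' ξ ⟨hge.trans hξ.1, hξ.2.trans (hlK _ (eg_nonneg hT n _))⟩
        (l (eg T n i)) ⟨hge, hlK _ (eg_nonneg hT n _)⟩ h4
      rw [Real.dist_eq] at h6
      exact h6.le)
  refine hmain.trans ?_
  have h7 : 2 * (Kp / m * η) * K + 2 * η * (2 * K + Kp * K) = η * Cst := by
    rw [hCst]; ring
  rw [h7, hη]
  rw [div_mul_eq_mul_div, div_le_iff₀ (by positivity)]
  nlinarith

theorem energy_orth {Ω : Type*} [mΩ : MeasurableSpace Ω] {P : Measure Ω} [IsProbabilityMeasure P]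
    {F : ℝ → MeasurableSpace Ω} (hF : IsFilt P F) (M : ℝ → Ω → ℝ) (hM : IsMart P F M)
    (s t : ℝ) (hs : 0 ≤ s) (hst : s ≤ t) (Y : Ω → ℝ) (hY : Measurable[F s] Y) (C : ℝ)
    (hYC : ∀ᵐ ω ∂P, |Y ω| ≤ C) :
    Integrable (fun ω => Y ω * (M t ω - M s ω)) P ∧
      ∫ ω, Y ω * (M t ω - M s ω) ∂P = 0 := by
  have hm := hF.le s hs
  have hX : Integrable (fun ω => M t ω - M s ω) P := (hM.int t (hs.trans hst)).sub (hM.int s hs)
  have hYm : Measurable Y := hY.mono hm le_rfl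
  have hYC' : ∀ᵐ ω ∂P, ‖Y ω‖ ≤ C := by
    filter_upwards [hYC] with ω h
    rwa [Real.norm_eq_abs]
  have hint : Integrable (fun ω => Y ω * (M t ω - M s ω)) P :=
    hX.bdd_mul hYm.aestronglyMeasurable hYC'
  refine ⟨hint, ?_⟩
  have h0 : (0 : Ω → ℝ) =ᵐ[P] P[(fun ω => M t ω - M s ω) | F s] := by
    refine ae_eq_condExp_of_forall_setIntegral_eq hm hX ?_ ?_ ?_
    · intro G _ _
      exact integrableOn_zero
    · intro G hG _
      have h3 := hM.eq s t hs hst G hG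
      rw [integral_sub (hM.int t (hs.trans hst)).integrableOn (hM.int s hs).integrableOn, h3]
      simp
    · exact aestronglyMeasurable_zero
  have h1 := condExp_stronglyMeasurable_mul_of_bound hm (hY.stronglyMeasurable) hX C hYC'
  have h2 : ∫ ω, (Y * fun ω => M t ω - M s ω) ω ∂P =
      ∫ ω, (P[(Y * fun ω => M t ω - M s ω) | F s]) ω ∂P := (integral_condExp hm).symm
  have h3 : ∫ ω, Y ω * (M t ω - M s ω) ∂P = ∫ ω, (Y * fun ω => M t ω - M s ω) ω ∂P := rfl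
  rw [h3, h2]
  have h4 : ∀ᵐ ω ∂P, (P[(Y * fun ω => M t ω - M s ω) | F s]) ω = 0 := by
    filter_upwards [h0, h1] with ω hω0 hω1
    rw [hω1, Pi.mul_apply, ← hω0]
    simp
  rw [integral_congr_ae h4]
  simp

section stopping

variable {Ω : Type*} [mΩ : MeasurableSpace Ω] {P : Measure Ω} [IsProbabilityMeasure P]
  {F : ℝ → MeasurableSpace Ω} {B : ℝ → Ω → ℝ}

theorem energy (hF : IsFilt P F) (N A₁ A₂ L : ℝ → Ω → ℝ) (hN : IsCA F N) (hA₁ : IsIncr F A₁)
    (hA₂ : IsIncr F A₂) (hL : IsIncr F L) (φ : ℝ → ℝ) (Λ : ℝ) (hΛ : 0 ≤ Λ)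
    (hφ : ContinuousOn φ (Icc 0 Λ))
    (h : ∀ᵐ ω ∂P, ∀ t, 0 ≤ t → N t ω + A₁ t ω - A₂ t ω = φ (L t ω))
    (m ε : ℝ) (hm : 0 < m) (hε : 0 < ε) (p p1 : ℝ → ℝ) (hp : ∀ l, HasDerivAt p (p1 l) l)
    (hp1 : Continuous p1) (hpe : ∀ l, |φ (max 0 (min l Λ)) - p l| ≤ ε)
    (hpo : ∀ l, p1 l = m * (p l - φ (max 0 (min l Λ)))) (hpc : ∀ l, Λ ≤ l → p l = φ Λ)
    (R : Ω → ℝ) (hR : IsStop F R) (T K : ℝ) (hT : 0 ≤ T) (hRT : ∀ ω, R ω ≤ T)
    (hNK : ∀ᵐ ω ∂P, ∀ t, 0 ≤ t → t ≤ R ω → |N t ω - N 0 ω| ≤ K ∧ A₁ t ω ≤ K ∧ A₂ t ω ≤ K ∧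
      L t ω ≤ K ∧ |N t ω + A₁ t ω - A₂ t ω - p (L t ω)| ≤ 2 * ε)
    (hM : IsMart P F (fun t ω => N (min t (R ω)) ω - N 0 ω)) :
    ∫ ω, (N (R ω) ω - N 0 ω) ^ 2 ∂P ≤ 4 * ε ^ 2 + 8 * ε * K := by
  classical
  have hsN := stopped_adp hF N hN R hR
  have hsA₁ := stopped_adp hF A₁ hA₁.ca R hR
  have hsA₂ := stopped_adp hF A₂ hA₂.ca R hR
  have hsL := stopped_adp hF L hL.ca R hR
  have hR0 := hR.nonneg
  have hmin0 : ∀ ω t, 0 ≤ t → 0 ≤ min t (R ω) := fun ω t ht => le_min ht (hR0 ω)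
  have hpcont : Continuous p := continuous_iff_continuousAt.mpr fun y => (hp y).continuousAt
  -- K ≥ 0
  have hK : 0 ≤ K := by
    obtain ⟨ω, hω⟩ := hNK.exists
    have := (hω 0 le_rfl (hR0 ω)).1
    exact (abs_nonneg _).trans this
  -- bound of p1
  obtain ⟨Kp, hKp0, hKp⟩ : ∃ Kp : ℝ, 0 ≤ Kp ∧ ∀ y, 0 ≤ y → y ≤ K → |p1 y| ≤ Kp := by
    obtain ⟨C, hC⟩ := (isCompact_Icc (a := (0:ℝ)) (b := K)).exists_bound_of_continuousOn
      hp1.continuousOn
    refine ⟨C, (norm_nonneg _).trans (hC 0 ⟨le_rfl, hK⟩), fun y hy0 hyK => ?_⟩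
    have := hC y ⟨hy0, hyK⟩
    rwa [Real.norm_eq_abs] at this
  set M : ℝ → Ω → ℝ := fun t ω => N (min t (R ω)) ω - N 0 ω with hMdef
  set Zp : ℝ → Ω → ℝ := fun t ω => N 0 ω + M t ω + A₁ (min t (R ω)) ω - A₂ (min t (R ω)) ω
    - p (L (min t (R ω)) ω) with hZdef
  set C : ℝ := 2 * (Kp / m * (2 * Kp)) * K + 2 * (2 * K) * (2 * K + Kp * K) with hCdef
  have hC0 : 0 ≤ C := by positivity
  -- pathwise facts
  have hpath : ∀ᵐ ω ∂P, (∀ n, eG (fun t => M t ω) (fun t => Zp t ω) ε K T n ≤ C) ∧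
      (∀ δ > 0, ∀ᶠ n in atTop, eG (fun t => M t ω) (fun t => Zp t ω) ε K T n ≤ δ) ∧
      (∀ t, 0 ≤ t → |M t ω| ≤ K) ∧ (∀ t, 0 ≤ t → |Zp t ω| ≤ 2 * ε) := by
    filter_upwards [h, hNK] with ω hω hNω
    have hb : ∀ t, 0 ≤ t → |M t ω| ≤ K ∧ A₁ (min t (R ω)) ω ≤ K ∧ A₂ (min t (R ω)) ω ≤ K ∧
        L (min t (R ω)) ω ≤ K ∧ |Zp t ω| ≤ 2 * ε := by
      intro t ht
      obtain ⟨b1, b2, b3, b4, b5⟩ := hNω (min t (R ω)) (hmin0 ω t ht) (min_le_right _ _)
      refine ⟨b1, b2, b3, b4, ?_⟩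
      have : Zp t ω = N (min t (R ω)) ω + A₁ (min t (R ω)) ω - A₂ (min t (R ω)) ω
          - p (L (min t (R ω)) ω) := by
        simp only [hZdef, hMdef]; ring
      rw [this]
      exact b5
    have hm0 : min 0 (R ω) = 0 := min_eq_left (hR0 ω)
    have x0 : M 0 ω = 0 := by simp only [hMdef, hm0, sub_self]
    have u0 : A₁ (min 0 (R ω)) ω = 0 := by rw [hm0]; exact hA₁.zero ω
    have v0 : A₂ (min 0 (R ω)) ω = 0 := by rw [hm0]; exact hA₂.zero ω
    have l0 : L (min 0 (R ω)) ω = 0 := by rw [hm0]; exact hL.zero ω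
    have hu : ∀ s t, 0 ≤ s → s ≤ t → A₁ (min s (R ω)) ω ≤ A₁ (min t (R ω)) ω := fun s t hs hst =>
      hA₁.mono ω _ _ (hmin0 ω s hs) (min_le_min_right _ hst)
    have hv : ∀ s t, 0 ≤ s → s ≤ t → A₂ (min s (R ω)) ω ≤ A₂ (min t (R ω)) ω := fun s t hs hst =>
      hA₂.mono ω _ _ (hmin0 ω s hs) (min_le_min_right _ hst)
    have hl : ∀ s t, 0 ≤ s → s ≤ t → L (min s (R ω)) ω ≤ L (min t (R ω)) ω := fun s t hs hst =>
      hL.mono ω _ _ (hmin0 ω s hs) (min_le_min_right _ hst)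
    have hl0 : ∀ t, 0 ≤ t → 0 ≤ L (min t (R ω)) ω := fun t ht => by
      have := hl 0 t le_rfl ht
      rwa [l0] at this
    have hrel : ∀ t, 0 ≤ t → L (min t (R ω)) ω ≤ Λ →
        p1 (L (min t (R ω)) ω) = -(m * Zp t ω) := by
      intro t ht hle
      have e1 := hω (min t (R ω)) (hmin0 ω t ht)
      have e2 : max 0 (min (L (min t (R ω)) ω) Λ) = L (min t (R ω)) ω := by
        rw [min_eq_left hle, max_eq_right (hl0 t ht)]
      rw [hpo, e2]
      simp only [hZdef, hMdef]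
      rw [← e1]
      ring
    have hpc' : ∀ y y', Λ ≤ y → Λ ≤ y' → p y = p y' := fun y y' hy hy' => by
      rw [hpc y hy, hpc y' hy']
    have hcx : ContinuousOn (fun t => M t ω) (Icc 0 T) :=
      ((hsN.cont ω).mono Icc_subset_Ici_self).sub continuousOn_const
    have hcl : ContinuousOn (fun t => L (min t (R ω)) ω) (Icc 0 T) :=
      (hsL.cont ω).mono Icc_subset_Ici_self
    refine ⟨?_, ?_, fun t ht => (hb t ht).1, fun t ht => (hb t ht).2.2.2.2⟩
    · intro n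
      refine energy_path (fun t => M t ω) (fun t => A₁ (min t (R ω)) ω)
        (fun t => A₂ (min t (R ω)) ω) (fun t => L (min t (R ω)) ω) (fun t => Zp t ω) (N 0 ω)
        ε m Kp K T Λ p p1 hε.le hm hKp0 hT (fun t => rfl) hp x0 u0 v0 l0 hu hv hl
        (fun t ht => (hb t ht).2.1) (fun t ht => (hb t ht).2.2.1) (fun t ht => (hb t ht).2.2.2.1)
        (fun t ht => (hb t ht).2.2.2.2) hKp hrel hpc' n (2 * K) (2 * Kp) (by positivity)
        (by positivity) ?_ ?_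
      · intro i _
        have h1 := (hb _ (eg_nonneg hT n (i + 1))).1
        have h2 := (hb _ (eg_nonneg hT n i)).1
        calc |M (eg T n (i + 1)) ω - M (eg T n i) ω| ≤
            |M (eg T n (i + 1)) ω| + |M (eg T n i) ω| := abs_sub _ _
          _ ≤ 2 * K := by linarith
      · intro i _ ξ hξ
        have hge := hl0 _ (eg_nonneg hT n i)
        have h1 := hKp ξ (hge.trans hξ.1) (hξ.2.trans (hb _ (eg_nonneg hT n (i + 1))).2.2.2.1)
        have h2 := hKp _ hge (hb _ (eg_nonneg hT n i)).2.2.2.1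
        calc |p1 ξ - p1 (L (min (eg T n i) (R ω)) ω)| ≤
            |p1 ξ| + |p1 (L (min (eg T n i) (R ω)) ω)| := abs_sub _ _
          _ ≤ 2 * Kp := by linarith
    · exact energy_path_lim (fun t => M t ω) (fun t => A₁ (min t (R ω)) ω)
        (fun t => A₂ (min t (R ω)) ω) (fun t => L (min t (R ω)) ω) (fun t => Zp t ω) (N 0 ω)
        ε m Kp K T Λ p p1 hε.le hm hKp0 hK hT (fun t => rfl) hp hp1 hcx hcl x0 u0 v0 l0 hu hv hl
        (fun t ht => (hb t ht).2.1) (fun t ht => (hb t ht).2.2.1) (fun t ht => (hb t ht).2.2.2.1)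
        (fun t ht => (hb t ht).2.2.2.2) hKp hrel hpc'
  -- measurability
  have hMm : ∀ t, 0 ≤ t → Measurable[F t] (M t) := fun t ht => hM.adap t ht
  have hN0 : ∀ t, 0 ≤ t → Measurable[F t] (N 0) := fun t ht =>
    (hN.adap 0 le_rfl).mono (hF.mono 0 t le_rfl ht) le_rfl
  have hZm : ∀ t, 0 ≤ t → Measurable[F t] (Zp t) := by
    intro t ht
    have m1 := hsA₁.adap t ht
    have m2 := hsA₂.adap t ht
    have m3 := hsL.adap t ht
    have m4 : Measurable[F t] (fun ω => p (L (min t (R ω)) ω)) := hpcont.measurable.comp m3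
    exact ((((hN0 t ht).add (hMm t ht)).add m1).sub m2).sub m4
  have hMT : ∀ ω, M T ω = N (R ω) ω - N 0 ω := by
    intro ω
    simp only [hMdef, min_eq_right (hRT ω)]
  have hMTint : Integrable (fun ω => M T ω ^ 2) P := by
    have h1 : Measurable (fun ω => M T ω ^ 2) :=
      ((hMm T hT).mono (hF.le T hT) le_rfl).pow_const 2
    refine Integrable.of_bound h1.aestronglyMeasurable (K ^ 2) ?_
    filter_upwards [hpath] with ω hω
    rw [Real.norm_eq_abs, abs_pow]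
    exact pow_le_pow_left₀ (abs_nonneg _) (hω.2.2.1 T hT) 2
  have horth : ∀ n i, Integrable (fun ω => (2 * (M (eg T n i) ω - Zp (eg T n i) ω)) *
      (M (eg T n (i + 1)) ω - M (eg T n i) ω)) P ∧
      ∫ ω, (2 * (M (eg T n i) ω - Zp (eg T n i) ω)) *
      (M (eg T n (i + 1)) ω - M (eg T n i) ω) ∂P = 0 := by
    intro n i
    refine energy_orth hF M hM _ _ (eg_nonneg hT n i) (eg_mono hT n (Nat.le_succ i)) _ ?_
      (2 * (K + 2 * ε)) ?_
    · exact ((hMm _ (eg_nonneg hT n i)).sub (hZm _ (eg_nonneg hT n i))).const_mul 2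
    · filter_upwards [hpath] with ω hω
      rw [abs_mul, abs_of_pos (by norm_num : (0:ℝ) < 2)]
      have h1 := hω.2.2.1 _ (eg_nonneg hT n i)
      have h2 := hω.2.2.2 _ (eg_nonneg hT n i)
      have h3 : |M (eg T n i) ω - Zp (eg T n i) ω| ≤ |M (eg T n i) ω| + |Zp (eg T n i) ω| :=
        abs_sub _ _
      linarith
  set G : ℕ → Ω → ℝ := fun n ω => eG (fun t => M t ω) (fun t => Zp t ω) ε K T n with hGdef
  have hsumint : ∀ n, Integrable (fun ω => ∑ i ∈ Finset.range (n + 1),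
      2 * (M (eg T n i) ω - Zp (eg T n i) ω) * (M (eg T n (i + 1)) ω - M (eg T n i) ω)) P :=
    fun n => integrable_finsetSum _ fun i _ => (horth n i).1
  have hGint : ∀ n, Integrable (G n) P := fun n =>
    (hMTint.sub (integrable_const _)).sub (hsumint n)
  have hGval : ∀ n, ∫ ω, G n ω ∂P = ∫ ω, M T ω ^ 2 ∂P - (4 * ε ^ 2 + 8 * ε * K) := by
    intro n
    have h1 : ∫ ω, G n ω ∂P = ∫ ω, (M T ω ^ 2 - (4 * ε ^ 2 + 8 * ε * K)) ∂P -
        ∫ ω, ∑ i ∈ Finset.range (n + 1),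
          2 * (M (eg T n i) ω - Zp (eg T n i) ω) * (M (eg T n (i + 1)) ω - M (eg T n i) ω) ∂P :=
      integral_sub (hMTint.sub (integrable_const _)) (hsumint n)
    have h2 : ∫ ω, ∑ i ∈ Finset.range (n + 1),
          2 * (M (eg T n i) ω - Zp (eg T n i) ω) * (M (eg T n (i + 1)) ω - M (eg T n i) ω) ∂P
          = 0 := by
      rw [integral_finsetSum _ fun i _ => (horth n i).1]
      exact Finset.sum_eq_zero fun i _ => (horth n i).2
    rw [h1, h2, integral_sub hMTint (integrable_const _)]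
    simp
  have hlim : Tendsto (fun n => ∫ ω, max (G n ω) 0 ∂P) atTop (𝓝 (∫ _ω : Ω, (0:ℝ) ∂P)) := by
    refine tendsto_integral_of_dominated_convergence (fun _ => C) ?_ (integrable_const _) ?_ ?_
    · intro n
      exact ((hGint n).sup (integrable_const 0)).aestronglyMeasurable
    · intro n
      filter_upwards [hpath] with ω hω
      rw [Real.norm_eq_abs, abs_of_nonneg (le_max_right _ _)]
      exact max_le (hω.1 n) hC0
    · filter_upwards [hpath] with ω hω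
      rw [Metric.tendsto_atTop']
      intro δ hδ
      obtain ⟨n0, hn0⟩ := eventually_atTop.mp (hω.2.1 (δ / 2) (by linarith))
      refine ⟨n0, fun n hn => ?_⟩
      rw [Real.dist_eq, sub_zero, abs_of_nonneg (le_max_right _ _)]
      refine (max_le (hn0 n hn.le) (by linarith)).trans_lt (by linarith)
  rw [integral_zero] at hlim
  have hfin : ∫ ω, M T ω ^ 2 ∂P - (4 * ε ^ 2 + 8 * ε * K) ≤ 0 := by
    refine ge_of_tendsto' hlim fun n => ?_
    rw [← hGval n]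
    exact integral_mono (hGint n) ((hGint n).sup (integrable_const 0)) fun ω => le_max_left _ _
  have hcongr : ∫ ω, (N (R ω) ω - N 0 ω) ^ 2 ∂P = ∫ ω, M T ω ^ 2 ∂P := by
    refine integral_congr_ae (Eventually.of_forall fun ω => ?_)
    show (N (R ω) ω - N 0 ω) ^ 2 = M T ω ^ 2
    rw [hMT]
  rw [hcongr]
  linarith

end stopping

end Pool.Agent.Helper41.SK
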