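import Pool.Agent.Helper41.SK.Defs
import Pool.Agent.Helper41.SK.MainDefs
import Pool.Agent.Helper41.SK.SB01
import Pool.Agent.Helper41.SK.SB02
import Pool.Agent.Helper41.SK.SB04
import Pool.Agent.Helper41.SK.SB05

set_option autoImplicit false

open scoped ENNReal NNReal Topology
open MeasureTheory ProbabilityTheory Set Filter

namespace Pool.Agent.Helper41.SK

/-! Processes are indexed by t. -/


/-! ## TARGETS: prove these (statements must not be changed; helper lemmas are welcome) -/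

section stopping

variable {Ω : Type*} [mΩ : MeasurableSpace Ω] {P : Measure Ω} [IsProbabilityMeasure P]
  {F : ℝ → MeasurableSpace Ω} {B : ℝ → Ω → ℝ}

omit mΩ in
theorem nlem_bd (f : ℝ → ℝ) (hf : ContinuousOn f (Ici 0)) (z r : ℝ) (h0 : f 0 ≤ z)
    (h : ∀ t, 0 ≤ t → t < r → f t < z) : ∀ t, 0 ≤ t → t ≤ r → f t ≤ z := by
  intro t ht htr
  rcases ht.eq_or_lt with h1 | h1
  · rw [← h1]; exact h0
  · by_contra hne
    push Not at hne
    have hc := hf t ht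
    rw [Metric.continuousWithinAt_iff] at hc
    obtain ⟨δ, hδ, hd⟩ := hc (f t - z) (sub_pos.2 hne)
    have hs0 : 0 ≤ max 0 (t - δ / 2) := le_max_left _ _
    have hst : max 0 (t - δ / 2) < t := max_lt h1 (by linarith)
    have h2 := hd (x := max 0 (t - δ / 2)) hs0 (by
      rw [Real.dist_eq, abs_sub_comm, abs_of_pos (by linarith)]
      have := le_max_right 0 (t - δ / 2)
      linarith)
    have h3 := h _ hs0 (lt_of_lt_of_le hst htr)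
    rw [Real.dist_eq] at h2
    have := (abs_lt.1 h2).1
    linarith

theorem nlem_m1 {Ω : Type*} (m : MeasurableSpace Ω) {n n0 a b l : Ω → ℝ} (h1 : Measurable n)
    (h2 : Measurable n0) (h3 : Measurable a) (h4 : Measurable b) (h5 : Measurable l) :
    Measurable (fun ω => max (|n ω - n0 ω|) (max (a ω) (max (b ω) (l ω)))) := by
  fun_prop

theorem nlem_m2 {Ω : Type*} (m : MeasurableSpace Ω) {n a b l : Ω → ℝ} {p : ℝ → ℝ}
    (hp : Continuous p) (h1 : Measurable n)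
    (h3 : Measurable a) (h4 : Measurable b) (h5 : Measurable l) :
    Measurable (fun ω => |n ω + a ω - b ω - p (l ω)|) := by
  have : Measurable (fun ω => p (l ω)) := hp.measurable.comp h5
  fun_prop

theorem nlem_Y (hF : IsFilt P F) (N A₁ A₂ L : ℝ → Ω → ℝ) (hN : IsCA F N)
    (hA₁ : IsIncr F A₁) (hA₂ : IsIncr F A₂) (hL : IsIncr F L) (φ : ℝ → ℝ) (Λ : ℝ) (hΛ : 0 ≤ Λ)
    (hφ : ContinuousOn φ (Icc 0 Λ))
    (h : ∀ᵐ ω ∂P, ∀ t, 0 ≤ t → N t ω + A₁ t ω - A₂ t ω = φ (L t ω))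
    (τ : Ω → ℝ) (hτ : IsStop F τ) (hM : IsMart P F (fun t ω => N (min t (τ ω)) ω - N 0 ω))
    (t0 K : ℝ) (ht0 : 0 ≤ t0) (hK : 0 ≤ K) (ε : ℝ) (hε : 0 < ε) :
    ∃ Y : Ω → ℝ, Measurable Y ∧ (∀ᵐ ω ∂P, |Y ω| ≤ K) ∧
      ∫ ω, (Y ω) ^ 2 ∂P ≤ 4 * ε ^ 2 + 8 * ε * K ∧
      ∀ᵐ ω ∂P, (L t0 ω ≤ Λ ∧ t0 ≤ τ ω ∧ ∀ s, 0 ≤ s → s ≤ t0 →
        max (|N s ω - N 0 ω|) (max (A₁ s ω) (max (A₂ s ω) (L s ω))) < K) →
          Y ω = N t0 ω - N 0 ω := by
  obtain ⟨m, hm, p, p1, hp, hp1, hpe, hpo, hpc⟩ := relax φ Λ hΛ hφ ε hε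
  have hpcont : Continuous p := continuous_iff_continuousAt.2 fun l => (hp l).continuousAt
  have hN0 : ∀ t, 0 ≤ t → Measurable[F t] (N 0) := fun t ht =>
    (hN.adap 0 le_rfl).mono (hF.mono 0 t le_rfl ht) le_rfl
  have hZ1 : IsCA F (fun t ω => max (|N t ω - N 0 ω|) (max (A₁ t ω) (max (A₂ t ω) (L t ω)))) := by
    constructor
    · intro t ht
      exact nlem_m1 (F t) (hN.adap t ht) (hN0 t ht) (hA₁.ca.adap t ht) (hA₂.ca.adap t ht)
        (hL.ca.adap t ht)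
    · intro ω
      have c1 := hN.cont ω
      have c2 := hA₁.ca.cont ω
      have c3 := hA₂.ca.cont ω
      have c4 := hL.ca.cont ω
      exact ContinuousOn.sup ((c1.sub continuousOn_const).abs) (ContinuousOn.sup c2 (ContinuousOn.sup c3 c4))
  have hZ2 : IsCA F (fun t ω => |N t ω + A₁ t ω - A₂ t ω - p (L t ω)|) := by
    constructor
    · intro t ht
      exact nlem_m2 (F t) hpcont (hN.adap t ht) (hA₁.ca.adap t ht) (hA₂.ca.adap t ht)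
        (hL.ca.adap t ht)
    · intro ω
      have c1 := hN.cont ω
      have c2 := hA₁.ca.cont ω
      have c3 := hA₂.ca.cont ω
      have c4 := hL.ca.cont ω
      exact (((c1.add c2).sub c3).sub (hpcont.comp_continuousOn c4)).abs
  obtain ⟨R₁, hR1, hR1T, hR1lt, -, hR1E⟩ := hit_stop hF _ hZ1 K t0 ht0
  obtain ⟨R₂, hR2, hR2T, hR2lt, -, hR2E⟩ := hit_stop hF _ hZ2 (2 * ε) t0 ht0
  have hS : IsStop F (fun ω => min (R₁ ω) (R₂ ω)) := stop_min hF R₁ R₂ hR1 hR2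
  have hR : IsStop F (fun ω => min (min (R₁ ω) (R₂ ω)) (τ ω)) := stop_min hF _ τ hS hτ
  have hM'ca : IsCA F (fun t ω => N (min t (τ ω)) ω - N 0 ω) := by
    have h1 := stopped_adp (P := P) hF N hN τ hτ
    constructor
    · intro t ht
      exact (h1.adap t ht).sub (hN0 t ht)
    · intro ω
      exact (h1.cont ω).sub continuousOn_const
  have hMR := stopped_mart hF _ hM hM'ca _ hS
  have hMR' : IsMart P F (fun t ω => N (min t ((fun ω => min (min (R₁ ω) (R₂ ω)) (τ ω)) ω)) ω -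
      N 0 ω) := by
    have e : (fun (t : ℝ) (ω : Ω) => N (min t ((fun ω => min (min (R₁ ω) (R₂ ω)) (τ ω)) ω)) ω -
      N 0 ω) = (fun (t : ℝ) (ω : Ω) => N (min (min t (min (R₁ ω) (R₂ ω))) (τ ω)) ω - N 0 ω) := by
      funext t ω
      show N (min t (min (min (R₁ ω) (R₂ ω)) (τ ω))) ω - N 0 ω = _
      rw [min_assoc t]
    rw [e]
    exact hMR
  have hRT : ∀ ω, (fun ω => min (min (R₁ ω) (R₂ ω)) (τ ω)) ω ≤ t0 := fun ω =>
    (min_le_left _ _).trans ((min_le_left _ _).trans (hR1T ω))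
  have hcl : ∀ l, 0 ≤ l → l ≤ Λ → |φ l - p l| ≤ ε := by
    intro l hl0 hl1
    have := hpe l
    rwa [min_eq_left hl1, max_eq_right hl0] at this
  have hNK : ∀ᵐ ω ∂P, ∀ t, 0 ≤ t → t ≤ (fun ω => min (min (R₁ ω) (R₂ ω)) (τ ω)) ω →
      |N t ω - N 0 ω| ≤ K ∧ A₁ t ω ≤ K ∧ A₂ t ω ≤ K ∧
      L t ω ≤ K ∧ |N t ω + A₁ t ω - A₂ t ω - p (L t ω)| ≤ 2 * ε := by
    filter_upwards [h] with ω hω
    intro t ht htR
    have htS : t ≤ min (R₁ ω) (R₂ ω) := htR.trans (min_le_left _ _)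
    have b1 := nlem_bd _ (hZ1.cont ω) K (R₁ ω) (by
      show max (|N 0 ω - N 0 ω|) (max (A₁ 0 ω) (max (A₂ 0 ω) (L 0 ω))) ≤ K
      rw [sub_self, abs_zero, hA₁.zero, hA₂.zero, hL.zero]
      simpa using hK) (hR1lt ω) t ht (htS.trans (min_le_left _ _))
    have b2 := nlem_bd _ (hZ2.cont ω) (2 * ε) (R₂ ω) (by
      show |N 0 ω + A₁ 0 ω - A₂ 0 ω - p (L 0 ω)| ≤ 2 * ε
      rw [hω 0 le_rfl, hL.zero]
      have := hcl 0 le_rfl hΛ
      linarith) (hR2lt ω) t ht (htS.trans (min_le_right _ _))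
    have b1' : max (|N t ω - N 0 ω|) (max (A₁ t ω) (max (A₂ t ω) (L t ω))) ≤ K := b1
    rw [max_le_iff, max_le_iff, max_le_iff] at b1'
    exact ⟨b1'.1, b1'.2.1, b1'.2.2.1, b1'.2.2.2, b2⟩
  have hen := energy hF N A₁ A₂ L hN hA₁ hA₂ hL φ Λ hΛ hφ h m ε hm hε p p1 hp hp1 hpe hpo hpc
    _ hR t0 K ht0 hRT hNK hMR'
  refine ⟨fun ω => N ((fun ω => min (min (R₁ ω) (R₂ ω)) (τ ω)) ω) ω - N 0 ω, ?_, ?_, hen, ?_⟩
  · have h1 := (stopped_adp (P := P) hF N hN _ hR).adap t0 ht0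
    have h2 : Measurable[F t0] (fun ω => N (min t0 ((fun ω => min (min (R₁ ω) (R₂ ω)) (τ ω)) ω)) ω -
      N 0 ω) := h1.sub (hN0 t0 ht0)
    have h3 := h2.mono (hF.le t0 ht0) le_rfl
    have e : (fun ω => N ((fun ω => min (min (R₁ ω) (R₂ ω)) (τ ω)) ω) ω - N 0 ω) =
      (fun ω => N (min t0 ((fun ω => min (min (R₁ ω) (R₂ ω)) (τ ω)) ω)) ω - N 0 ω) := by
      funext ω
      rw [min_eq_right (hRT ω)]
    rw [e]
    exact h3
  · filter_upwards [hNK] with ω hω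
    exact (hω _ (hR.nonneg ω) le_rfl).1
  · filter_upwards [h] with ω hω
    rintro ⟨hL1, hτ1, hZ⟩
    have hReq : (fun ω => min (min (R₁ ω) (R₂ ω)) (τ ω)) ω = t0 := by
      refine le_antisymm (hRT ω) (le_min (le_min (hR1E ω t0 ht0 le_rfl hZ) ?_) hτ1)
      refine hR2E ω t0 ht0 le_rfl fun s hs hst => ?_
      show |N s ω + A₁ s ω - A₂ s ω - p (L s ω)| < 2 * ε
      rw [hω s hs]
      have hL0 : 0 ≤ L s ω := by
        have := hL.mono ω 0 s le_rfl hs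
        rwa [hL.zero] at this
      have := hcl (L s ω) hL0 ((hL.mono ω s t0 hs hst).trans hL1)
      linarith
    show N ((fun ω => min (min (R₁ ω) (R₂ ω)) (τ ω)) ω) ω - N 0 ω = _
    rw [hReq]

theorem nlem_E (hF : IsFilt P F) (N A₁ A₂ L : ℝ → Ω → ℝ) (hN : IsCA F N)
    (hA₁ : IsIncr F A₁) (hA₂ : IsIncr F A₂) (hL : IsIncr F L) (φ : ℝ → ℝ) (Λ : ℝ) (hΛ : 0 ≤ Λ)
    (hφ : ContinuousOn φ (Icc 0 Λ))
    (h : ∀ᵐ ω ∂P, ∀ t, 0 ≤ t → N t ω + A₁ t ω - A₂ t ω = φ (L t ω))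
    (τ : Ω → ℝ) (hτ : IsStop F τ) (hM : IsMart P F (fun t ω => N (min t (τ ω)) ω - N 0 ω))
    (t0 K : ℝ) (ht0 : 0 ≤ t0) (hK : 0 ≤ K) :
    ∀ᵐ ω ∂P, (L t0 ω ≤ Λ ∧ t0 ≤ τ ω ∧ ∀ s, 0 ≤ s → s ≤ t0 →
        max (|N s ω - N 0 ω|) (max (A₁ s ω) (max (A₂ s ω) (L s ω))) < K) →
          N t0 ω = N 0 ω := by
  have key : ∀ n : ℕ, ∀ᵐ ω ∂P, ¬ ((L t0 ω ≤ Λ ∧ t0 ≤ τ ω ∧ ∀ s, 0 ≤ s → s ≤ t0 →
        max (|N s ω - N 0 ω|) (max (A₁ s ω) (max (A₂ s ω) (L s ω))) < K) ∧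
          1 / ((n : ℝ) + 1) ≤ |N t0 ω - N 0 ω|) := by
    intro n
    obtain ⟨δ, hδ⟩ : ∃ δ : ℝ, δ = 1 / ((n : ℝ) + 1) := ⟨_, rfl⟩
    have hδ0 : 0 < δ := by rw [hδ]; positivity
    rw [← hδ]
    rw [ae_iff]
    obtain ⟨W, hW⟩ : ∃ W : Set Ω, W = {ω | ¬¬((L t0 ω ≤ Λ ∧ t0 ≤ τ ω ∧ ∀ s, 0 ≤ s → s ≤ t0 →
        max (|N s ω - N 0 ω|) (max (A₁ s ω) (max (A₂ s ω) (L s ω))) < K) ∧
          δ ≤ |N t0 ω - N 0 ω|)} := ⟨_, rfl⟩
    rw [← hW]
    have hb : ∀ ε : ℝ, 0 < ε → δ ^ 2 * P.real W ≤ 4 * ε ^ 2 + 8 * ε * K := by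
      intro ε hε
      obtain ⟨Y, hYm, hYb, hYi, hYE⟩ := nlem_Y hF N A₁ A₂ L hN hA₁ hA₂ hL φ Λ hΛ hφ h τ hτ hM t0 K
        ht0 hK ε hε
      have hint : Integrable (fun ω => (Y ω) ^ 2) P := by
        refine Integrable.of_bound (C := K ^ 2) (hYm.pow_const 2).aestronglyMeasurable ?_
        filter_upwards [hYb] with ω hω
        rw [Real.norm_eq_abs, abs_of_nonneg (sq_nonneg _), ← sq_abs]
        exact pow_le_pow_left₀ (abs_nonneg _) hω 2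
      have h1 := mul_meas_ge_le_integral_of_nonneg (μ := P) (f := fun ω => (Y ω) ^ 2)
        (Filter.Eventually.of_forall fun ω => sq_nonneg _) hint (δ ^ 2)
      have h2 : P W ≤ P {x | δ ^ 2 ≤ (Y x) ^ 2} := by
        refine measure_mono_ae ?_
        filter_upwards [hYE] with ω hω
        intro hωW
        have hωW' : ω ∈ W := hωW
        rw [hW, mem_setOf_eq, not_not] at hωW'
        have h3 := hω hωW'.1
        show δ ^ 2 ≤ (Y ω) ^ 2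
        rw [h3, ← sq_abs (N t0 ω - N 0 ω)]
        exact pow_le_pow_left₀ hδ0.le hωW'.2 2
      have h3 : P.real W ≤ P.real {x | δ ^ 2 ≤ (Y x) ^ 2} :=
        ENNReal.toReal_mono (measure_ne_top _ _) h2
      calc δ ^ 2 * P.real W ≤ δ ^ 2 * P.real {x | δ ^ 2 ≤ (Y x) ^ 2} :=
            mul_le_mul_of_nonneg_left h3 (sq_nonneg _)
        _ ≤ _ := h1.trans hYi
    have h0 : P.real W = 0 := by
      by_contra hne
      have hpos : 0 < P.real W := lt_of_le_of_ne measureReal_nonneg (Ne.symm hne)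
      obtain ⟨y, hy⟩ : ∃ y, y = δ ^ 2 * P.real W := ⟨_, rfl⟩
      have hy0 : 0 < y := by rw [hy]; positivity
      have hK' : 0 < 2 * (4 + 8 * K) := by positivity
      have he0 : 0 < min 1 (y / (2 * (4 + 8 * K))) := lt_min one_pos (div_pos hy0 hK')
      have h1 := hb _ he0
      rw [← hy] at h1
      obtain ⟨e, he⟩ : ∃ e, e = min 1 (y / (2 * (4 + 8 * K))) := ⟨_, rfl⟩
      rw [← he] at h1 he0
      have he1 : e ≤ 1 := by rw [he]; exact min_le_left _ _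
      have he2 : e ≤ y / (2 * (4 + 8 * K)) := by rw [he]; exact min_le_right _ _
      rw [le_div_iff₀ hK'] at he2
      nlinarith
    have := (measureReal_eq_zero_iff (μ := P) (s := W)).1 h0
    exact this
  have key' := ae_all_iff.2 key
  filter_upwards [key'] with ω hω hE
  by_contra hne
  have hpos : 0 < |N t0 ω - N 0 ω| := abs_pos.2 (sub_ne_zero.2 hne)
  obtain ⟨n, hn⟩ := exists_nat_one_div_lt hpos
  exact hω n ⟨hE, hn.le⟩

theorem nlem (hF : IsFilt P F) (N A₁ A₂ L : ℝ → Ω → ℝ) (hN : IsLocMart P F N)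
    (hA₁ : IsIncr F A₁) (hA₂ : IsIncr F A₂) (hL : IsIncr F L) (φ : ℝ → ℝ) (Λ : ℝ) (hΛ : 0 ≤ Λ)
    (hφ : ContinuousOn φ (Icc 0 Λ))
    (h : ∀ᵐ ω ∂P, ∀ t, 0 ≤ t → N t ω + A₁ t ω - A₂ t ω = φ (L t ω)) :
    ∀ᵐ ω ∂P, ∀ t, 0 ≤ t → L t ω ≤ Λ → N t ω = N 0 ω := by
  obtain ⟨τ, hτ, -, hτlim, hτM⟩ := hN.loc
  have hNca := hN.ca
  have h1 : ∀ q : ℚ, ∀ k : ℕ, ∀ᵐ ω ∂P, 0 ≤ (q : ℝ) →
      (L q ω ≤ Λ ∧ (q : ℝ) ≤ τ k ω ∧ ∀ s, 0 ≤ s → s ≤ (q : ℝ) →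
        max (|N s ω - N 0 ω|) (max (A₁ s ω) (max (A₂ s ω) (L s ω))) < (k : ℝ)) →
          N q ω = N 0 ω := by
    intro q k
    by_cases hq : 0 ≤ (q : ℝ)
    · filter_upwards [nlem_E hF N A₁ A₂ L hNca hA₁ hA₂ hL φ Λ hΛ hφ h (τ k) (hτ k) (hτM k) q k hq
        (Nat.cast_nonneg k)] with ω hω _ hE
      exact hω hE
    · exact Filter.Eventually.of_forall fun ω hq' => absurd hq' hq
  have h2 := ae_all_iff.2 fun q => ae_all_iff.2 (h1 q)
  filter_upwards [h2, hτlim] with ω hω hlim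
  have hrat : ∀ q : ℚ, 0 ≤ (q : ℝ) → L q ω ≤ Λ → N q ω = N 0 ω := by
    intro q hq hLq
    have hcont : ContinuousOn (fun s => max (|N s ω - N 0 ω|) (max (A₁ s ω) (max (A₂ s ω) (L s ω))))
        (Icc 0 (q : ℝ)) := by
      have c1 := hNca.cont ω
      have c2 := hA₁.ca.cont ω
      have c3 := hA₂.ca.cont ω
      have c4 := hL.ca.cont ω
      exact (ContinuousOn.sup ((c1.sub continuousOn_const).abs) (ContinuousOn.sup c2 (ContinuousOn.sup c3 c4))).mono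
        (fun x hx => hx.1)
    obtain ⟨C, hC⟩ := isCompact_Icc.exists_bound_of_continuousOn hcont
    have e1 : ∀ᶠ k : ℕ in atTop, (q : ℝ) ≤ τ k ω := hlim.eventually_ge_atTop _
    have e2 : ∀ᶠ k : ℕ in atTop, C < (k : ℝ) := tendsto_natCast_atTop_atTop.eventually_gt_atTop C
    obtain ⟨k, hk1, hk2⟩ := (e1.and e2).exists
    refine hω q k hq ⟨hLq, hk1, fun s hs hsq => ?_⟩
    have := hC s ⟨hs, hsq⟩
    exact lt_of_le_of_lt ((le_abs_self _).trans this) hk2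
  intro t ht hLt
  rcases ht.eq_or_lt with h3 | h3
  · rw [← h3]
  · by_contra hne
    have hc := hNca.cont ω t ht
    rw [Metric.continuousWithinAt_iff] at hc
    obtain ⟨δ, hδ, hd⟩ := hc (|N t ω - N 0 ω|) (abs_pos.2 (sub_ne_zero.2 hne))
    have hst : max 0 (t - δ) < t := max_lt h3 (by linarith)
    obtain ⟨q, hq1, hq2⟩ := exists_rat_btwn hst
    have hq0 : 0 ≤ (q : ℝ) := (le_max_left _ _).trans hq1.le
    have hqd := (le_max_right 0 (t - δ)).trans_lt hq1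
    have h4 := hd (x := (q : ℝ)) hq0 (by
      rw [Real.dist_eq, abs_sub_comm, abs_of_pos (by linarith)]
      linarith)
    rw [hrat q hq0 ((hL.mono ω q t hq0 hq2.le).trans hLt), Real.dist_eq, abs_sub_comm] at h4
    exact lt_irrefl _ h4

end stopping

end Pool.Agent.Helper41.SK
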