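import Pool.Agent.Helper41.SK.Defs
import Pool.Agent.Helper41.SK.MainDefs
import Pool.Agent.Helper41.SK.SB01
import Pool.Agent.Helper41.SK.SB03
import Pool.Agent.Helper41.SK.SB06

set_option autoImplicit false

open scoped ENNReal NNReal Topology
open MeasureTheory ProbabilityTheory Set Filter

namespace Pool.Agent.Helper41.SK

/-! Processes are indexed by t. -/


/-! ## TARGETS: prove these (statements must not be changed; helper lemmas are welcome) -/

section stopping

variable {Ω : Type*} [mΩ : MeasurableSpace Ω] {P : Measure Ω} [IsProbabilityMeasure P]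
  {F : ℝ → MeasurableSpace Ω} {B : ℝ → Ω → ℝ}

theorem nlem_all_cont (L V : ℝ → ℝ) (φ : ℝ → ℝ) (hL : ContinuousOn L (Ici 0))
    (hV : ContinuousOn V (Ici 0)) (hL0 : L 0 = 0) (hLm : ∀ s t, 0 ≤ s → s ≤ t → L s ≤ L t)
    (h : ∀ t, 0 ≤ t → V t = φ (L t)) (t : ℝ) (ht : 0 ≤ t) : ContinuousOn φ (Icc 0 (L t)) := by
  have hsub : Icc 0 t ⊆ Ici (0:ℝ) := Icc_subset_Ici_self
  have hmaps : ∀ s : Icc (0:ℝ) t, L s ∈ Icc 0 (L t) := fun s =>
    ⟨by have h1 := hLm 0 s le_rfl s.2.1; linarith, hLm s t s.2.1 s.2.2⟩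
  let f : Icc (0:ℝ) t → Icc (0:ℝ) (L t) := fun s => ⟨L s, hmaps s⟩
  have hLc : Continuous (fun s : Icc (0:ℝ) t => L s) :=
    continuousOn_iff_continuous_domRestrict.1 (hL.mono hsub)
  have hVc : Continuous (fun s : Icc (0:ℝ) t => V s) :=
    continuousOn_iff_continuous_domRestrict.1 (hV.mono hsub)
  have hf : Continuous f := Continuous.subtype_mk hLc _
  have hsurj : Function.Surjective f := by
    rintro ⟨y, hy⟩
    have h1 := intermediate_value_Icc ht (hL.mono hsub)
    rw [hL0] at h1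
    obtain ⟨s, hs, hsy⟩ := h1 hy
    exact ⟨⟨s, hs⟩, Subtype.ext hsy⟩
  have hq : Topology.IsQuotientMap f := hf.isClosedMap.isQuotientMap hf hsurj
  rw [continuousOn_iff_continuous_domRestrict, hq.continuous_iff]
  have h2 : (Icc 0 (L t)).domRestrict φ ∘ f = fun s : Icc (0:ℝ) t => V s := by
    funext s
    exact (h s s.2.1).symm
  rw [h2]
  exact hVc

theorem nlem_all (hF : IsFilt P F) (N A₁ A₂ L : ℝ → Ω → ℝ) (hN : IsLocMart P F N)
    (hA₁ : IsIncr F A₁) (hA₂ : IsIncr F A₂) (hL : IsIncr F L) (φ : ℝ → ℝ)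
    (h : ∀ᵐ ω ∂P, ∀ t, 0 ≤ t → N t ω + A₁ t ω - A₂ t ω = φ (L t ω)) :
    ∀ᵐ ω ∂P, ∀ t, 0 ≤ t → N t ω = N 0 ω := by
  have hS : ∀ᵐ ω ∂P, ∀ t, 0 ≤ t → ContinuousOn φ (Icc 0 (L t ω)) := by
    filter_upwards [h] with ω hω t ht
    exact nlem_all_cont (fun s => L s ω) (fun s => N s ω + A₁ s ω - A₂ s ω) φ (hL.ca.cont ω)
      (((hN.ca.cont ω).add (hA₁.ca.cont ω)).sub (hA₂.ca.cont ω)) (hL.zero ω)
      (fun s t => hL.mono ω s t) hω t ht
  have hL0 : ∀ ω t, 0 ≤ t → 0 ≤ L t ω := fun ω t ht => by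
    have := hL.mono ω 0 t le_rfl ht
    rwa [hL.zero] at this
  by_cases hmax : ∃ Λ : ℝ, 0 ≤ Λ ∧ ContinuousOn φ (Icc 0 Λ) ∧
      ∀ Λ' : ℝ, 0 ≤ Λ' → ContinuousOn φ (Icc 0 Λ') → Λ' ≤ Λ
  · obtain ⟨Λ, h0, hc, hm⟩ := hmax
    filter_upwards [nlem hF N A₁ A₂ L hN hA₁ hA₂ hL φ Λ h0 hc h, hS] with ω h1 h2 t ht
    exact h1 t ht (hm _ (hL0 ω t ht) (h2 t ht))
  · push Not at hmax
    have hr : ∀ᵐ ω ∂P, ∀ r : ℚ, (0 ≤ (r : ℝ) ∧ ContinuousOn φ (Icc 0 (r : ℝ))) →
        ∀ t, 0 ≤ t → L t ω ≤ (r : ℝ) → N t ω = N 0 ω := by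
      rw [ae_all_iff]
      intro r
      by_cases hr : 0 ≤ (r : ℝ) ∧ ContinuousOn φ (Icc 0 (r : ℝ))
      · filter_upwards [nlem hF N A₁ A₂ L hN hA₁ hA₂ hL φ r hr.1 hr.2 h] with ω h1 _
        exact h1
      · exact Filter.Eventually.of_forall fun ω h => absurd h hr
    filter_upwards [hr, hS] with ω h1 h2 t ht
    obtain ⟨Λ', h3, h4, h5⟩ := hmax (L t ω) (hL0 ω t ht) (h2 t ht)
    obtain ⟨r, hr1, hr2⟩ := exists_rat_btwn h5
    exact h1 r ⟨(hL0 ω t ht).trans hr1.le, h4.mono (Icc_subset_Icc_right hr2.le)⟩ t ht hr1.le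

theorem q_eq (hB : IsBM P F B) (M q : ℝ → Ω → ℝ) (c : ℝ) (hq : IsIncr F q)
    (hM : ∀ᵐ ω ∂P, ∀ t, 0 ≤ t → M t ω = c + B t ω)
    (hMq : IsLocMart P F (fun t ω => (M t ω) ^ 2 - q t ω)) :
    ∀ᵐ ω ∂P, ∀ t, 0 ≤ t → q t ω = t := by
  have hF := hB.filt
  obtain ⟨hb1, hb2⟩ := bm_mart hB
  have hca2 : IsCA F (fun t ω => (B t ω) ^ 2 - t) := by
    refine ⟨fun t ht => ?_, fun ω => ?_⟩
    · exact ((hB.ca.adap t ht).pow_const 2).sub_const t
    · exact ((hB.ca.cont ω).pow 2).sub continuousOn_id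
  have l2 := mart_locmart hF _ hb2 hca2
  have l3 := mart_locmart hF _ hb1 hB.ca
  have l4 := locmart_lin hF _ _ hMq l2 1 (-1)
  have l5 := locmart_lin hF _ _ l4 l3 1 (-(2 * c))
  have hca : IsCA F (fun t ω => c ^ 2 + t - q t ω) := by
    refine ⟨fun t ht => ?_, fun ω => ?_⟩
    · exact (hq.ca.adap t ht).const_sub (c ^ 2 + t)
    · exact (continuousOn_const.add continuousOn_id).sub (hq.ca.cont ω)
  have l6 : IsLocMart P F (fun t ω => c ^ 2 + t - q t ω) := by
    refine locmart_congr hF _ _ l5 hca ?_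
    filter_upwards [hM] with ω hω t ht
    rw [hω t ht]
    ring
  have hid : IsIncr F (fun (t : ℝ) (_ : Ω) => t) := by
    refine ⟨⟨fun t ht => measurable_const, fun ω => continuousOn_id⟩, fun ω => rfl,
      fun ω s t _ hst => hst⟩
  have hzero : IsIncr F (fun (_ : ℝ) (_ : Ω) => (0 : ℝ)) := by
    refine ⟨⟨fun t ht => measurable_const, fun ω => continuousOn_const⟩, fun ω => rfl,
      fun ω s t _ hst => le_rfl⟩
  have l7 := nlem_all hF _ q _ _ l6 hq hid hzero (fun _ => c ^ 2)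
    (Filter.Eventually.of_forall fun ω t ht => by ring)
  filter_upwards [l7] with ω hω t ht
  have h1 := hω t ht
  simp only [hq.zero] at h1
  linarith

theorem dmeas_id (q : ℝ → ℝ) (hq : ∀ t, 0 ≤ t → q t = t) :
    dmeas q = volume.restrict (Ici 0) := by
  have hfun : (fun s => q (max s 0)) = fun s : ℝ => max s 0 := by
    funext s
    exact hq _ (le_max_right _ _)
  have hmono : Monotone (fun s => q (max s 0)) := by
    rw [hfun]
    exact fun a b hab => max_le_max hab le_rfl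
  unfold dmeas
  rw [dif_pos hmono]
  apply Measure.ext_of_Ioc
  intro a b hab
  rw [StieltjesFunction.measure_Ioc, Monotone.stieltjesFunction_eq, Monotone.stieltjesFunction_eq]
  have hc : Continuous (fun s => q (max s 0)) := by
    rw [hfun]
    fun_prop
  have hr : ∀ y, Function.rightLim (fun s => q (max s 0)) y = max y 0 := by
    intro y
    rw [hc.continuousAt.continuousWithinAt.rightLim_eq]
    exact congrFun hfun y
  rw [hr, hr, Measure.restrict_apply measurableSet_Ioc]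
  rcases le_or_gt 0 a with ha | ha
  · have hsub : Ioc a b ⊆ Ici 0 := fun x hx => ha.trans hx.1.le
    rw [max_eq_left ha, max_eq_left (ha.trans hab.le),
      inter_eq_self_of_subset_left hsub, Real.volume_Ioc]
  · rw [max_eq_right ha.le]
    rcases le_or_gt 0 b with hb | hb
    · have : Ioc a b ∩ Ici 0 = Icc 0 b := by
        ext x
        simp only [mem_inter_iff, mem_Ioc, mem_Ici, mem_Icc]
        constructor
        · rintro ⟨⟨_, h2⟩, h3⟩
          exact ⟨h3, h2⟩
        · rintro ⟨h1, h2⟩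
          exact ⟨⟨by linarith, h2⟩, h1⟩
      rw [this, Real.volume_Icc, max_eq_left hb]
    · have : Ioc a b ∩ Ici 0 = ∅ := by
        ext x
        simp only [mem_inter_iff, mem_Ioc, mem_Ici, mem_empty_iff_false, iff_false, not_and,
          not_le, and_imp]
        intro _ h2
        linarith
      rw [this, max_eq_right hb.le]
      simp

theorem kap_lim_cl0 (z : ℝ) (h : z ≤ 0) : cl z = 0 := by
  unfold cl
  rw [max_eq_left]
  exact (min_le_right _ _).trans h

theorem kap_lim_cl1 (z : ℝ) (h : 1 ≤ z) : cl z = 1 := by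
  unfold cl
  rw [min_eq_left h]
  exact max_eq_right zero_le_one

theorem kap_lim_clm (z : ℝ) (h0 : 0 ≤ z) (h : z ≤ 1) : cl z = z := by
  unfold cl
  rw [min_eq_right h]
  exact max_eq_right h0

theorem kap_lim_chi0 (z : ℝ) (h : z ≤ 0) : chi z = 0 := by
  unfold chi
  rw [kap_lim_cl0 z h]
  ring

theorem kap_lim_chi1 (z : ℝ) (h : 1 ≤ z) : chi z = 0 := by
  unfold chi
  rw [kap_lim_cl1 z h]
  ring

theorem kap_lim_kap (e y : ℝ) (he : 0 < e) : kap e y = (1 / (2 * e)) * chi (|y| / e) := by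
  unfold kap kp
  rcases le_or_gt 0 y with hy | hy
  · rw [kap_lim_chi0 (-y / e) (div_nonpos_of_nonpos_of_nonneg (by linarith) he.le),
      abs_of_nonneg hy]
    field_simp
    ring
  · rw [kap_lim_chi0 (y / e) (div_nonpos_of_nonpos_of_nonneg hy.le he.le), abs_of_neg hy]
    field_simp
    ring

theorem kap_lim_cc (e : ℝ) : Continuous (kap e) := by
  unfold kap kp chi cl
  fun_prop

theorem kap_lim_prim (z : ℝ) : (∫ r in z..1, (12 * r - 6)) = 6 * z * (1 - z) := by
  have h1 : ∀ r ∈ uIcc z 1, HasDerivAt (fun r : ℝ => 6 * r ^ 2 - 6 * r) (12 * r - 6) r := by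
    intro r _
    have h2 := ((hasDerivAt_pow 2 r).const_mul 6).sub ((hasDerivAt_id r).const_mul 6)
    exact h2.congr_deriv (by norm_num; ring)
  rw [intervalIntegral.integral_eq_sub_of_hasDerivAt h1]
  · ring
  · apply Continuous.intervalIntegrable
    fun_prop

theorem kap_lim_chi (z : ℝ) (hz : 0 ≤ z) :
    chi z = ∫ r in Ioc (0:ℝ) 1, (Ioi z).indicator (fun r => 12 * r - 6) r := by
  rw [setIntegral_indicator measurableSet_Ioi]
  rcases le_or_gt z 1 with h | h
  · have h1 : Ioc (0:ℝ) 1 ∩ Ioi z = Ioc z 1 := by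
      ext r
      simp only [mem_inter_iff, mem_Ioc, mem_Ioi]
      constructor
      · rintro ⟨⟨_, h2⟩, h3⟩
        exact ⟨h3, h2⟩
      · rintro ⟨h2, h3⟩
        exact ⟨⟨by linarith, h3⟩, h2⟩
    rw [h1, ← intervalIntegral.integral_of_le h, kap_lim_prim]
    unfold chi
    rw [kap_lim_clm z hz h]
  · have h1 : Ioc (0:ℝ) 1 ∩ Ioi z = ∅ := by
      ext r
      simp only [mem_inter_iff, mem_Ioc, mem_Ioi, mem_empty_iff_false, iff_false, not_and,
        not_lt, and_imp]
      intro _ h2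
      linarith
    rw [h1, kap_lim_chi1 z h.le]
    simp

theorem kap_lim_fub (x : ℝ → ℝ) (hx : Continuous x) (t ε : ℝ) (hε : 0 < ε) :
    (∫ s in Ioc 0 t, kap ε (x s)) = ∫ r in Ioc (0:ℝ) 1, (12 * r - 6) *
      ((1 / (2 * ε)) * (volume.restrict (Ioc 0 t)).real {s | |x s| < ε * r}) := by
  have hset : MeasurableSet {p : ℝ × ℝ | |x p.1| < ε * p.2} := by
    apply IsOpen.measurableSet
    exact isOpen_lt (by fun_prop) (by fun_prop)
  have h1 : ∀ s, kap ε (x s) = ∫ r in Ioc (0:ℝ) 1, (1 / (2 * ε)) *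
      {p : ℝ × ℝ | |x p.1| < ε * p.2}.indicator (fun p => 12 * p.2 - 6) (s, r) := by
    intro s
    rw [kap_lim_kap ε (x s) hε, kap_lim_chi _ (by positivity), ← integral_const_mul]
    congr 1
    funext r
    congr 1
    by_cases hr : |x s| / ε < r
    · have h2 : |x s| < ε * r := by
        rw [div_lt_iff₀ hε] at hr
        linarith
      rw [indicator_of_mem (show r ∈ Ioi (|x s| / ε) from hr),
        indicator_of_mem (show (s, r) ∈ {p : ℝ × ℝ | |x p.1| < ε * p.2} from h2)]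
    · have h2 : ¬ |x s| < ε * r := by
        rw [div_lt_iff₀ hε] at hr
        linarith
      rw [indicator_of_notMem (show r ∉ Ioi (|x s| / ε) from hr),
        indicator_of_notMem (show (s, r) ∉ {p : ℝ × ℝ | |x p.1| < ε * p.2} from h2)]
  have h2 : Integrable (Function.uncurry fun s r => (1 / (2 * ε)) *
      {p : ℝ × ℝ | |x p.1| < ε * p.2}.indicator (fun p => 12 * p.2 - 6) (s, r))
      ((volume.restrict (Ioc 0 t)).prod (volume.restrict (Ioc (0:ℝ) 1))) := by
    rw [Measure.prod_restrict]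
    have : IsFiniteMeasure ((volume.prod volume).restrict (Ioc 0 t ×ˢ Ioc (0:ℝ) 1) :
        Measure (ℝ × ℝ)) := by
      rw [← Measure.prod_restrict]
      infer_instance
    have h3 : Measurable (Function.uncurry fun s r => (1 / (2 * ε)) *
      {p : ℝ × ℝ | |x p.1| < ε * p.2}.indicator (fun p => 12 * p.2 - 6) (s, r)) := by
      have h4 : Measurable (fun p : ℝ × ℝ => (1 / (2 * ε)) *
        {p : ℝ × ℝ | |x p.1| < ε * p.2}.indicator (fun p => 12 * p.2 - 6) p) := by
        apply Measurable.const_mul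
        apply Measurable.indicator _ hset
        fun_prop
      exact h4
    refine Integrable.of_bound h3.aestronglyMeasurable ((1 / (2 * ε)) * 6) ?_
    refine ae_restrict_of_forall_mem (measurableSet_Ioc.prod measurableSet_Ioc) ?_
    rintro ⟨s, r⟩ ⟨_, hr⟩
    simp only [Function.uncurry]
    rw [norm_mul, Real.norm_eq_abs, abs_of_pos (by positivity)]
    apply mul_le_mul_of_nonneg_left _ (by positivity)
    refine (norm_indicator_le_norm_self _ _).trans ?_
    rw [Real.norm_eq_abs, abs_le]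
    simp only
    have hr1 := hr.1
    have hr2 := hr.2
    simp only at hr1 hr2
    constructor <;> linarith
  calc (∫ s in Ioc 0 t, kap ε (x s)) = ∫ s in Ioc 0 t, ∫ r in Ioc (0:ℝ) 1, (1 / (2 * ε)) *
      {p : ℝ × ℝ | |x p.1| < ε * p.2}.indicator (fun p => 12 * p.2 - 6) (s, r) := by
        congr 1
        funext s
        exact h1 s
    _ = ∫ r in Ioc (0:ℝ) 1, ∫ s in Ioc 0 t, (1 / (2 * ε)) *
      {p : ℝ × ℝ | |x p.1| < ε * p.2}.indicator (fun p => 12 * p.2 - 6) (s, r) :=
        integral_integral_swap h2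
    _ = _ := by
        congr 1
        funext r
        rw [integral_const_mul]
        have h5 : (fun s => {p : ℝ × ℝ | |x p.1| < ε * p.2}.indicator
            (fun p => 12 * p.2 - 6) (s, r)) =
            {s | |x s| < ε * r}.indicator (fun _ => 12 * r - 6) := by
          funext s
          rfl
        rw [h5, integral_indicator_const]
        · rw [smul_eq_mul]
          ring
        · apply IsOpen.measurableSet
          exact isOpen_lt (by fun_prop) (by fun_prop)

theorem kap_lim_cont (x : ℝ → ℝ) (t l : ℝ) (hx : Continuous x)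
    (h : Tendsto (fun ε : ℝ => 1 / (2 * ε) *
      (volume.restrict (Ioc 0 t)).real {s | |x s| < ε}) (𝓝[>] 0) (𝓝 l)) :
    Tendsto (fun ε : ℝ => ∫ s in Ioc 0 t, kap ε (x s)) (𝓝[>] 0) (𝓝 l) := by
  have hpos : ∀ᶠ ε : ℝ in 𝓝[>] 0, 0 < ε := eventually_mem_nhdsWithin
  have hbd : ∀ᶠ ε : ℝ in 𝓝[>] 0, |1 / (2 * ε) *
      (volume.restrict (Ioc 0 t)).real {s | |x s| < ε}| ≤ |l| + 1 := by
    have h1 := (Metric.tendsto_nhds.1 h) 1 one_pos
    filter_upwards [h1] with ε hε
    rw [Real.dist_eq] at hε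
    have h2 := abs_sub_abs_le_abs_sub (1 / (2 * ε) *
      (volume.restrict (Ioc 0 t)).real {s | |x s| < ε}) l
    linarith
  obtain ⟨δ, hδ, hbd'⟩ : ∃ δ > 0, ∀ ε : ℝ, 0 < ε → ε < δ → |1 / (2 * ε) *
      (volume.restrict (Ioc 0 t)).real {s | |x s| < ε}| ≤ |l| + 1 := by
    rw [eventually_nhdsWithin_iff, Metric.eventually_nhds_iff] at hbd
    obtain ⟨δ, hδ, H⟩ := hbd
    refine ⟨δ, hδ, fun ε h0 h1 => H ?_ h0⟩
    rw [Real.dist_eq, sub_zero, abs_of_pos h0]
    exact h1
  have hlt : ∀ᶠ ε : ℝ in 𝓝[>] 0, ε < δ := nhdsWithin_le_nhds (gt_mem_nhds hδ)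
  have hmm : Monotone (fun δ : ℝ => (volume.restrict (Ioc 0 t)).real {s | |x s| < δ}) := by
    intro a b hab
    exact measureReal_mono (fun s hs => lt_of_lt_of_le hs hab) (measure_ne_top _ _)
  have key : Tendsto (fun ε : ℝ => ∫ r in Ioc (0:ℝ) 1, (12 * r - 6) *
      ((1 / (2 * ε)) * (volume.restrict (Ioc 0 t)).real {s | |x s| < ε * r})) (𝓝[>] 0)
      (𝓝 (∫ r in Ioc (0:ℝ) 1, (12 * r - 6) * (r * l))) := by
    apply tendsto_integral_filter_of_dominated_convergence (fun _ => 6 * (|l| + 1))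
    · filter_upwards with ε
      apply Measurable.aestronglyMeasurable
      apply Measurable.mul (by fun_prop)
      apply Measurable.const_mul
      exact hmm.measurable.comp (measurable_const_mul ε)
    · filter_upwards [hpos, hlt] with ε h0 h1
      refine ae_restrict_of_forall_mem measurableSet_Ioc ?_
      intro r hr
      have hr0 := hr.1
      have hr1 := hr.2
      have h2 := hbd' (ε * r) (mul_pos h0 hr0) (by nlinarith)
      have h3 : (12 * r - 6) * ((1 / (2 * ε)) *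
          (volume.restrict (Ioc 0 t)).real {s | |x s| < ε * r}) =
          ((12 * r - 6) * r) * ((1 / (2 * (ε * r))) *
          (volume.restrict (Ioc 0 t)).real {s | |x s| < ε * r}) := by
        field_simp
      rw [h3, norm_mul, Real.norm_eq_abs, Real.norm_eq_abs]
      apply mul_le_mul _ h2 (abs_nonneg _) (by norm_num)
      rw [abs_le]
      constructor <;> nlinarith
    · exact integrable_const _
    · refine ae_restrict_of_forall_mem measurableSet_Ioc ?_
      intro r hr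
      have hr0 := hr.1
      apply Tendsto.const_mul
      have h4 : Tendsto (fun ε : ℝ => ε * r) (𝓝[>] 0) (𝓝[>] 0) := by
        apply tendsto_nhdsWithin_of_tendsto_nhds_of_eventually_within
        · have h5 : Tendsto (fun ε : ℝ => ε * r) (𝓝 0) (𝓝 (0 * r)) :=
            (continuous_mul_const r).tendsto 0
          rw [zero_mul] at h5
          exact h5.mono_left nhdsWithin_le_nhds
        · filter_upwards [hpos] with ε h0
          exact mul_pos h0 hr0
      have h6 := (h.comp h4).const_mul r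
      refine h6.congr' ?_
      filter_upwards [hpos] with ε h0
      simp only [Function.comp]
      field_simp
  have hval : (∫ r in Ioc (0:ℝ) 1, (12 * r - 6) * (r * l)) = l := by
    rw [← intervalIntegral.integral_of_le zero_le_one]
    have h1 : ∀ r ∈ uIcc (0:ℝ) 1, HasDerivAt (fun r : ℝ => (4 * r ^ 3 - 3 * r ^ 2) * l)
        ((12 * r - 6) * (r * l)) r := by
      intro r _
      have h2 := (((hasDerivAt_pow 3 r).const_mul 4).sub
        ((hasDerivAt_pow 2 r).const_mul 3)).mul_const l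
      exact h2.congr_deriv (by norm_num; ring)
    rw [intervalIntegral.integral_eq_sub_of_hasDerivAt h1]
    · ring
    · apply Continuous.intervalIntegrable
      fun_prop
  rw [hval] at key
  refine key.congr' ?_
  filter_upwards [hpos] with ε h0
  exact (kap_lim_fub x hx t ε h0).symm

theorem kap_lim (x : ℝ → ℝ) (t l : ℝ) (hx : ContinuousOn x (Ici 0)) (ht : 0 ≤ t)
    (h : Tendsto (fun ε : ℝ => 1 / (2 * ε) *
      (volume.restrict (Ici (0:ℝ))).real {s | 0 ≤ s ∧ s ≤ t ∧ |x s| < ε}) (𝓝[>] 0) (𝓝 l)) :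
    Tendsto (fun ε : ℝ => ∫ s in (0:ℝ)..t, kap ε (x s)) (𝓝[>] 0) (𝓝 l) := by
  have hy : Continuous (fun s : ℝ => x (max s 0)) := by
    exact hx.comp_continuous (continuous_id.max continuous_const) (fun s => le_max_right s 0)
  have h1 : ∀ ε : ℝ, (volume.restrict (Ici (0:ℝ))).real {s | 0 ≤ s ∧ s ≤ t ∧ |x s| < ε} =
      (volume.restrict (Ioc 0 t)).real {s | |x (max s 0)| < ε} := by
    intro ε
    have hm : MeasurableSet {s | |x (max s 0)| < ε} := by
      apply IsOpen.measurableSet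
      exact isOpen_lt hy.abs continuous_const
    have h2 : {s | 0 ≤ s ∧ s ≤ t ∧ |x s| < ε} = {s | |x (max s 0)| < ε} ∩ Icc 0 t := by
      ext s
      simp only [mem_inter_iff, mem_Icc, Set.mem_ofPred_eq]
      constructor
      · rintro ⟨h3, h4, h5⟩
        rw [max_eq_left h3]
        exact ⟨h5, h3, h4⟩
      · rintro ⟨h5, h3, h4⟩
        rw [max_eq_left h3] at h5
        exact ⟨h3, h4, h5⟩
    have h3 : (volume.restrict (Ici (0:ℝ))) {s | 0 ≤ s ∧ s ≤ t ∧ |x s| < ε} =
        (volume.restrict (Ioc 0 t)) {s | |x (max s 0)| < ε} := by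
      rw [restrict_Ioc_eq_restrict_Icc, Measure.restrict_apply hm, h2,
        Measure.restrict_apply (hm.inter measurableSet_Icc)]
      congr 1
      apply inter_eq_self_of_subset_left
      intro s hs
      exact hs.2.1
    unfold Measure.real
    rw [h3]
  have h4 : ∀ ε : ℝ, (∫ s in (0:ℝ)..t, kap ε (x s)) = ∫ s in Ioc 0 t, kap ε (x (max s 0)) := by
    intro ε
    rw [intervalIntegral.integral_of_le ht]
    apply setIntegral_congr_fun measurableSet_Ioc
    intro s hs
    simp only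
    rw [max_eq_left hs.1.le]
  simp only [h4]
  simp only [h1] at h
  exact kap_lim_cont _ t l hy h

theorem flat_lim (x l : ℝ → ℝ) (hx : ContinuousOn x (Ici 0))
    (h : ∀ t, 0 ≤ t → Tendsto (fun ε : ℝ => ∫ s in (0:ℝ)..t, kap ε (x s)) (𝓝[>] 0) (𝓝 (l t))) :
    ∀ s t, 0 ≤ s → s ≤ t → (∀ r ∈ Icc s t, x r ≠ 0) → l s = l t := by
  intro s t hs hst hne
  have hsub : Icc s t ⊆ Ici (0:ℝ) := fun r hr => hs.trans hr.1
  obtain ⟨r0, hr0, hmin⟩ := isCompact_Icc.exists_isMinOn (nonempty_Icc.2 hst)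
    ((hx.mono hsub).abs)
  have hm : 0 < |x r0| := abs_pos.2 (hne r0 hr0)
  refine tendsto_nhds_unique (h s hs) ((h t (hs.trans hst)).congr' ?_)
  have hpos : ∀ᶠ ε : ℝ in 𝓝[>] 0, 0 < ε := eventually_mem_nhdsWithin
  have hlt : ∀ᶠ ε : ℝ in 𝓝[>] 0, ε < |x r0| := nhdsWithin_le_nhds (gt_mem_nhds hm)
  filter_upwards [hpos, hlt] with ε h0 h1
  have hi1 : IntervalIntegrable (fun s => kap ε (x s)) volume 0 s := by
    apply ContinuousOn.intervalIntegrable
    rw [uIcc_of_le hs]
    exact (kap_lim_cc ε).comp_continuousOn (hx.mono (fun r hr => hr.1))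
  have hi2 : IntervalIntegrable (fun s => kap ε (x s)) volume s t := by
    apply ContinuousOn.intervalIntegrable
    rw [uIcc_of_le hst]
    exact (kap_lim_cc ε).comp_continuousOn (hx.mono hsub)
  rw [← intervalIntegral.integral_add_adjacent_intervals hi1 hi2]
  have h2 : (∫ r in s..t, kap ε (x r)) = ∫ r in s..t, (0 : ℝ) := by
    apply intervalIntegral.integral_congr
    intro r hr
    rw [uIcc_of_le hst] at hr
    have h3 : |x r0| ≤ |x r| := hmin hr
    simp only
    rw [kap_lim_kap ε (x r) h0, kap_lim_chi1 _ ((one_le_div h0).2 (by linarith)), mul_zero]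
  rw [h2]
  simp

end stopping

end Pool.Agent.Helper41.SK
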