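import Pool.Agent.Helper41.SK.Defs
import Pool.Agent.Helper41.SK.MainDefs


set_option autoImplicit false

open scoped ENNReal NNReal Topology
open MeasureTheory ProbabilityTheory Set Filter

namespace Pool.Agent.Helper41.SK

/-! ## TARGETS: prove these (statements must not be changed; helper lemmas are welcome) -/

section gaussaux

theorem gder (v : ℝ) (p q : ℝ → ℝ) (hp : ∀ t, HasDerivAt p (q t - v * t * p t) t) :
    deriv (fun t : ℝ => p t * Real.exp (v * t ^ 2 / 2)) =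
      fun t => q t * Real.exp (v * t ^ 2 / 2) := by
  funext t
  have h1 : HasDerivAt (fun t : ℝ => v * t ^ 2 / 2) (v * t) t := by
    have := ((hasDerivAt_id t).pow 2).const_mul (v / 2)
    refine (this.congr_deriv ?_).congr_of_eventuallyEq ?_
    · simp; ring
    · exact Filter.Eventually.of_forall fun x => by simp; ring
  have h2 := (hp t).mul h1.exp
  have h3 := h2.deriv
  have h4 : (p * fun t : ℝ => Real.exp (v * t ^ 2 / 2)) =
      (fun t : ℝ => p t * Real.exp (v * t ^ 2 / 2)) := rfl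
  rw [h4] at h3
  rw [h3]
  ring

theorem gmom (v : ℝ≥0) : ∫ x, x ^ 2 ∂(gaussianReal 0 v) = v ∧
    ∫ x, x ^ 4 ∂(gaussianReal 0 v) = 3 * (v : ℝ) ^ 2 ∧
    ∫ x, x ^ 6 ∂(gaussianReal 0 v) = 15 * (v : ℝ) ^ 3 := by
  have key : ∀ n : ℕ, ∫ x, x ^ n ∂(gaussianReal 0 v) =
      iteratedDeriv n (fun t : ℝ => Real.exp ((v : ℝ) * t ^ 2 / 2)) 0 := by
    intro n
    have h := iteratedDeriv_mgf_zero (X := fun x : ℝ => x) (μ := gaussianReal 0 v) (by simp) n
    rw [mgf_fun_id_gaussianReal] at h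
    simp only [zero_mul, zero_add] at h
    rw [h]
    rfl
  have e1 : deriv (fun t : ℝ => Real.exp ((v : ℝ) * t ^ 2 / 2)) =
      fun t => ((v : ℝ) * t) * Real.exp ((v : ℝ) * t ^ 2 / 2) := by
    have := gder (v : ℝ) (fun _ => 1) (fun t => (v : ℝ) * t) (by
      intro t
      simpa using hasDerivAt_const t (1 : ℝ))
    simpa using this
  have e2 : deriv (fun t : ℝ => ((v : ℝ) * t) * Real.exp ((v : ℝ) * t ^ 2 / 2)) =
      fun t => ((v : ℝ) + (v : ℝ) ^ 2 * t ^ 2) * Real.exp ((v : ℝ) * t ^ 2 / 2) := by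
    refine gder (v : ℝ) _ _ ?_
    intro t
    have := (hasDerivAt_id t).const_mul (v : ℝ)
    refine this.congr_deriv ?_
    ring
  have hpow : ∀ (n : ℕ) (c t : ℝ), HasDerivAt (fun t : ℝ => c * t ^ (n + 1))
      (c * ((n + 1 : ℕ) * t ^ n)) t := by
    intro n c t
    exact (hasDerivAt_pow (n + 1) t).const_mul c
  have e3 : deriv (fun t : ℝ => ((v : ℝ) + (v : ℝ) ^ 2 * t ^ 2) *
      Real.exp ((v : ℝ) * t ^ 2 / 2)) =
      fun t => (3 * (v : ℝ) ^ 2 * t + (v : ℝ) ^ 3 * t ^ 3) *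
        Real.exp ((v : ℝ) * t ^ 2 / 2) := by
    refine gder (v : ℝ) _ _ ?_
    intro t
    have := (hpow 1 ((v : ℝ) ^ 2) t).const_add (v : ℝ)
    refine this.congr_deriv ?_
    push_cast
    ring
  have e4 : deriv (fun t : ℝ => (3 * (v : ℝ) ^ 2 * t + (v : ℝ) ^ 3 * t ^ 3) *
      Real.exp ((v : ℝ) * t ^ 2 / 2)) =
      fun t => (3 * (v : ℝ) ^ 2 + 6 * (v : ℝ) ^ 3 * t ^ 2 + (v : ℝ) ^ 4 * t ^ 4) *
        Real.exp ((v : ℝ) * t ^ 2 / 2) := by
    refine gder (v : ℝ) _ _ ?_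
    intro t
    have := ((hasDerivAt_id t).const_mul (3 * (v : ℝ) ^ 2)).add (hpow 2 ((v : ℝ) ^ 3) t)
    refine this.congr_deriv ?_
    push_cast
    ring
  have e5 : deriv (fun t : ℝ => (3 * (v : ℝ) ^ 2 + 6 * (v : ℝ) ^ 3 * t ^ 2 +
      (v : ℝ) ^ 4 * t ^ 4) * Real.exp ((v : ℝ) * t ^ 2 / 2)) =
      fun t => (15 * (v : ℝ) ^ 3 * t + 10 * (v : ℝ) ^ 4 * t ^ 3 + (v : ℝ) ^ 5 * t ^ 5) *
        Real.exp ((v : ℝ) * t ^ 2 / 2) := by
    refine gder (v : ℝ) _ _ ?_
    intro t
    have := ((hpow 1 (6 * (v : ℝ) ^ 3) t).const_add (3 * (v : ℝ) ^ 2)).add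
      (hpow 3 ((v : ℝ) ^ 4) t)
    refine this.congr_deriv ?_
    push_cast
    ring
  have e6 : deriv (fun t : ℝ => (15 * (v : ℝ) ^ 3 * t + 10 * (v : ℝ) ^ 4 * t ^ 3 +
      (v : ℝ) ^ 5 * t ^ 5) * Real.exp ((v : ℝ) * t ^ 2 / 2)) =
      fun t => (15 * (v : ℝ) ^ 3 + 45 * (v : ℝ) ^ 4 * t ^ 2 + 15 * (v : ℝ) ^ 5 * t ^ 4 +
        (v : ℝ) ^ 6 * t ^ 6) *
        Real.exp ((v : ℝ) * t ^ 2 / 2) := by
    refine gder (v : ℝ) _ _ ?_
    intro t
    have := (((hasDerivAt_id t).const_mul (15 * (v : ℝ) ^ 3)).add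
      (hpow 2 (10 * (v : ℝ) ^ 4) t)).add (hpow 4 ((v : ℝ) ^ 5) t)
    refine this.congr_deriv ?_
    push_cast
    ring
  refine ⟨?_, ?_, ?_⟩
  · rw [key, iteratedDeriv_succ, iteratedDeriv_one, e1, e2]
    simp
  · rw [key, iteratedDeriv_succ, iteratedDeriv_succ, iteratedDeriv_succ, iteratedDeriv_one,
      e1, e2, e3, e4]
    simp
  · rw [key, iteratedDeriv_succ, iteratedDeriv_succ, iteratedDeriv_succ, iteratedDeriv_succ,
      iteratedDeriv_succ, iteratedDeriv_one, e1, e2, e3, e4, e5, e6]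
    simp

end gaussaux

section base

variable {Ω : Type*} [mΩ : MeasurableSpace Ω] {P : Measure Ω} [IsProbabilityMeasure P]
  {F : ℝ → MeasurableSpace Ω} {B : ℝ → Ω → ℝ}

theorem gp_facts (a b : ℝ) (hab : a ≤ b) (n : ℕ) (hn : 0 < n) :
    gp a b n 0 = a ∧ gp a b n n = b ∧ (∀ i, gp a b n i ≤ gp a b n (i + 1)) ∧
    (∀ i, gp a b n (i + 1) - gp a b n i = (b - a) / n) ∧
    (∀ i, a ≤ gp a b n i) ∧ (∀ i, i ≤ n → gp a b n i ≤ b) ∧ Monotone (gp a b n) := by
  have hn' : (0 : ℝ) < n := by exact_mod_cast hn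
  have hba : 0 ≤ b - a := by linarith
  have hdiff : ∀ i, gp a b n (i + 1) - gp a b n i = (b - a) / n := by
    intro i
    unfold gp
    push_cast
    ring
  have hstep : ∀ i, gp a b n i ≤ gp a b n (i + 1) := by
    intro i
    have h1 := hdiff i
    have h2 : 0 ≤ (b - a) / n := by positivity
    linarith
  have hmono : Monotone (gp a b n) := monotone_nat_of_le_succ hstep
  have h0 : gp a b n 0 = a := by
    unfold gp
    simp
  have hnn : gp a b n n = b := by
    unfold gp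
    rw [mul_div_assoc, div_self hn'.ne']
    ring
  refine ⟨h0, hnn, hstep, hdiff, ?_, ?_, hmono⟩
  · intro i
    have := hmono (Nat.zero_le i)
    rwa [h0] at this
  · intro i hi
    have := hmono hi
    rwa [hnn] at this

theorem inc_meas (hB : BMF P F B) (s t : ℝ) (hs : 0 ≤ s) (hst : s ≤ t) :
    Measurable (fun ω => B t ω - B s ω) :=
  ((hB.adap t (hs.trans hst)).mono (hB.le t) le_rfl).sub
    ((hB.adap s hs).mono (hB.le s) le_rfl)

theorem inc_integral (hB : BMF P F B) (s t : ℝ) (hs : 0 ≤ s) (hst : s ≤ t) {g : ℝ → ℝ}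
    (hg : Measurable g) :
    ∫ ω, g (B t ω - B s ω) ∂P = ∫ x, g x ∂(gaussianReal 0 (t - s).toNNReal) := by
  rw [← hB.law s t hs hst, integral_map (inc_meas hB s t hs hst).aemeasurable
    hg.aestronglyMeasurable]

theorem inc_int (hB : BMF P F B) (s t : ℝ) (hs : 0 ≤ s) (hst : s ≤ t) (k : ℕ) :
    Integrable (fun ω => |B t ω - B s ω| ^ k) P := by
  have h1 : Integrable (fun x : ℝ => |x| ^ k) (gaussianReal 0 (t - s).toNNReal) := by
    have h2 : MemLp id (k : ℝ≥0∞) (gaussianReal 0 (t - s).toNNReal) :=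
      memLp_id_gaussianReal' (k : ℝ≥0∞) (ENNReal.natCast_ne_top k)
    have h3 := h2.integrable_norm_pow'
    exact h3
  rw [← hB.law s t hs hst] at h1
  exact h1.comp_measurable (inc_meas hB s t hs hst)

theorem inc_mom (hB : BMF P F B) (s t : ℝ) (hs : 0 ≤ s) (hst : s ≤ t) :
    ∫ ω, (B t ω - B s ω) ∂P = 0 ∧ ∫ ω, (B t ω - B s ω) ^ 2 ∂P = t - s ∧
    ∫ ω, |B t ω - B s ω| ∂P ≤ √(t - s) ∧
    ∫ ω, |B t ω - B s ω| ^ 3 ∂P ≤ 2 * (t - s) * √(t - s) ∧
    ∫ ω, (B t ω - B s ω) ^ 4 ∂P = 3 * (t - s) ^ 2 := by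
  have hts : 0 ≤ t - s := by linarith
  have hv : (((t - s).toNNReal : ℝ≥0) : ℝ) = t - s := Real.coe_toNNReal _ hts
  obtain ⟨g2, g4, -⟩ := gmom (t - s).toNNReal
  have m1 : ∫ ω, (B t ω - B s ω) ∂P = 0 := by
    have := inc_integral hB s t hs hst (g := fun x => x) measurable_id
    rw [this, integral_id_gaussianReal]
  have m2 : ∫ ω, (B t ω - B s ω) ^ 2 ∂P = t - s := by
    have := inc_integral hB s t hs hst (g := fun x => x ^ 2) (by fun_prop)
    rw [this, g2, hv]
  have m4 : ∫ ω, (B t ω - B s ω) ^ 4 ∂P = 3 * (t - s) ^ 2 := by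
    have := inc_integral hB s t hs hst (g := fun x => x ^ 4) (by fun_prop)
    rw [this, g4, hv]
  refine ⟨m1, m2, ?_, ?_, m4⟩
  · rcases eq_or_lt_of_le hst with h | h
    · subst h
      simp
    · have hpos : 0 < t - s := by linarith
      set c := √(t - s) with hc
      have hcpos : 0 < c := Real.sqrt_pos.mpr hpos
      have hc2 : c ^ 2 = t - s := Real.sq_sqrt hts
      have i1 := inc_int hB s t hs hst 1
      simp only [pow_one] at i1
      have i2 := inc_int hB s t hs hst 2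
      simp only [sq_abs] at i2
      have hle : ∫ ω, |B t ω - B s ω| ∂P ≤
          ∫ ω, ((2 * c)⁻¹ * (B t ω - B s ω) ^ 2 + c / 2) ∂P := by
        refine integral_mono i1 ((i2.const_mul _).add (integrable_const _)) ?_
        intro ω
        simp only
        have h1 : 0 ≤ (|B t ω - B s ω| - c) ^ 2 := sq_nonneg _
        have h2 : |B t ω - B s ω| ^ 2 = (B t ω - B s ω) ^ 2 := sq_abs _
        rw [inv_mul_eq_div, div_add_div _ _ (by positivity) (by norm_num),
          le_div_iff₀ (by positivity)]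
        nlinarith
      refine hle.trans (le_of_eq ?_)
      rw [integral_add (i2.const_mul _) (integrable_const _), integral_const_mul, m2,
        integral_const, ← hc2]
      simp only [probReal_univ, smul_eq_mul, one_mul]
      field_simp
      ring
  · rcases eq_or_lt_of_le hst with h | h
    · subst h
      simp
    · have hpos : 0 < t - s := by linarith
      set c := √(t - s) with hc
      have hcpos : 0 < c := Real.sqrt_pos.mpr hpos
      have hc2 : c ^ 2 = t - s := Real.sq_sqrt hts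
      have i3 := inc_int hB s t hs hst 3
      have i2 := inc_int hB s t hs hst 2
      simp only [sq_abs] at i2
      have i4 : Integrable (fun ω => (B t ω - B s ω) ^ 4) P := by
        have h4 := inc_int hB s t hs hst 4
        refine h4.congr (Filter.Eventually.of_forall fun ω => ?_)
        have : |B t ω - B s ω| ^ 4 = (|B t ω - B s ω| ^ 2) ^ 2 := by ring
        simp only
        rw [this, sq_abs]
        ring
      have hle : ∫ ω, |B t ω - B s ω| ^ 3 ∂P ≤
          ∫ ω, ((2 * c)⁻¹ * (B t ω - B s ω) ^ 4 + (c / 2) * (B t ω - B s ω) ^ 2) ∂P := by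
        refine integral_mono i3 ((i4.const_mul _).add (i2.const_mul _)) ?_
        intro ω
        simp only
        have h2 : (B t ω - B s ω) ^ 2 = |B t ω - B s ω| ^ 2 := (sq_abs _).symm
        have h3 : (B t ω - B s ω) ^ 4 = |B t ω - B s ω| ^ 4 := by
          have e1 : (B t ω - B s ω) ^ 4 = ((B t ω - B s ω) ^ 2) ^ 2 := by ring
          rw [e1, h2]
          ring
        rw [h2, h3]
        set a := |B t ω - B s ω| with ha
        have ha0 : 0 ≤ a := abs_nonneg _
        have h5 : (2 * c)⁻¹ * a ^ 4 + (c / 2) * a ^ 2 - a ^ 3 = a ^ 2 * (a - c) ^ 2 / (2 * c) := by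
          field_simp
          ring
        have h6 : 0 ≤ a ^ 2 * (a - c) ^ 2 / (2 * c) := by positivity
        linarith
      refine hle.trans (le_of_eq ?_)
      rw [integral_add (i4.const_mul _) (i2.const_mul _), integral_const_mul,
        integral_const_mul, m2, m4, ← hc2]
      field_simp
      ring

theorem inc_mom6 (hB : BMF P F B) : ∃ K : ℝ, 0 ≤ K ∧ ∀ s t : ℝ, 0 ≤ s → s ≤ t →
    ∫ ω, (B t ω - B s ω) ^ 6 ∂P ≤ K * (t - s) ^ 3 := by
  refine ⟨15, by norm_num, ?_⟩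
  intro s t hs hst
  have hts : 0 ≤ t - s := by linarith
  have hv : (((t - s).toNNReal : ℝ≥0) : ℝ) = t - s := Real.coe_toNNReal _ hts
  have := inc_integral hB s t hs hst (g := fun x => x ^ 6) (by fun_prop)
  rw [this, (gmom (t - s).toNNReal).2.2, hv]

end base

end Pool.Agent.Helper41.SK
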