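import Pool.Agent.Helper41.SK.Defs
import Pool.Agent.Helper41.SK.MainDefs


set_option autoImplicit false

open scoped ENNReal NNReal Topology
open MeasureTheory ProbabilityTheory Set Filter

namespace Pool.Agent.Helper41.SK

/-! ## TARGETS: prove these (statements must not be changed; helper lemmas are welcome) -/

section kernels

variable {Ω : Type*}

theorem cl_nonneg (z : ℝ) : 0 ≤ cl z := le_max_left _ _

theorem cl_le_one (z : ℝ) : cl z ≤ 1 := max_le zero_le_one (min_le_left _ _)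

theorem cl_of_nonpos {z : ℝ} (h : z ≤ 0) : cl z = 0 := by
  unfold cl; rw [min_eq_right (h.trans zero_le_one), max_eq_left h]

theorem cl_of_one_le {z : ℝ} (h : 1 ≤ z) : cl z = 1 := by
  unfold cl; rw [min_eq_left h, max_eq_right zero_le_one]

theorem cl_of_mem {z : ℝ} (h0 : 0 ≤ z) (h1 : z ≤ 1) : cl z = z := by
  unfold cl; rw [min_eq_right h1, max_eq_right h0]

theorem cl_lip (z w : ℝ) : |cl z - cl w| ≤ |z - w| := by
  unfold cl
  calc |max 0 (min 1 z) - max 0 (min 1 w)| ≤ max |(0:ℝ) - 0| |min 1 z - min 1 w| :=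
        abs_max_sub_max_le_max _ _ _ _
    _ = |min 1 z - min 1 w| := by rw [sub_self, abs_zero, max_eq_right (abs_nonneg _)]
    _ ≤ max |(1:ℝ) - 1| |z - w| := abs_min_sub_min_le_max _ _ _ _
    _ = |z - w| := by rw [sub_self, abs_zero, max_eq_right (abs_nonneg _)]

theorem chi_cont : Continuous chi := by
  unfold chi cl
  fun_prop

/-- gluing of three differentiable pieces -/
theorem glue3 {f p q r D : ℝ → ℝ} (h0 : ∀ z, z ≤ 0 → f z = p z)
    (h1 : ∀ z, 0 ≤ z → z ≤ 1 → f z = q z) (h2 : ∀ z, 1 ≤ z → f z = r z)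
    (dp : ∀ z, z ≤ 0 → HasDerivAt p (D z) z)
    (dq : ∀ z, 0 ≤ z → z ≤ 1 → HasDerivAt q (D z) z)
    (dr : ∀ z, 1 ≤ z → HasDerivAt r (D z) z) (z : ℝ) : HasDerivAt f (D z) z := by
  rcases lt_trichotomy z 0 with hz | hz | hz
  · refine (dp z hz.le).congr_of_eventuallyEq ?_
    filter_upwards [Iio_mem_nhds hz] with x hx
    exact h0 x (le_of_lt hx)
  · subst hz
    have a1 : HasDerivWithinAt f (D 0) (Iic 0) 0 :=
      (dp 0 le_rfl).hasDerivWithinAt.congr (fun x hx => h0 x hx) (h0 0 le_rfl)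
    have a2 : HasDerivWithinAt f (D 0) (Ici 0) 0 := by
      refine (dq 0 le_rfl zero_le_one).hasDerivWithinAt.congr_of_eventuallyEq ?_
        (h1 0 le_rfl zero_le_one)
      filter_upwards [Icc_mem_nhdsGE (zero_lt_one (α := ℝ))] with x hx
      exact h1 x hx.1 hx.2
    have a3 := a1.union a2
    rw [Iic_union_Ici] at a3
    exact hasDerivWithinAt_univ.1 a3
  · rcases lt_trichotomy z 1 with hz1 | hz1 | hz1
    · refine (dq z hz.le hz1.le).congr_of_eventuallyEq ?_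
      filter_upwards [Ioo_mem_nhds hz hz1] with x hx
      exact h1 x hx.1.le hx.2.le
    · subst hz1
      have a1 : HasDerivWithinAt f (D 1) (Iic 1) 1 := by
        refine (dq 1 zero_le_one le_rfl).hasDerivWithinAt.congr_of_eventuallyEq ?_
          (h1 1 zero_le_one le_rfl)
        filter_upwards [Icc_mem_nhdsLE (zero_lt_one (α := ℝ))] with x hx
        exact h1 x hx.1 hx.2
      have a2 : HasDerivWithinAt f (D 1) (Ici 1) 1 :=
        (dr 1 le_rfl).hasDerivWithinAt.congr (fun x hx => h2 x hx) (h2 1 le_rfl)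
      have a3 := a1.union a2
      rw [Iic_union_Ici] at a3
      exact hasDerivWithinAt_univ.1 a3
    · refine (dr z hz1.le).congr_of_eventuallyEq ?_
      filter_upwards [Ioi_mem_nhds hz1] with x hx
      exact h2 x (le_of_lt hx)

theorem chi_of_nonpos {z : ℝ} (h : z ≤ 0) : chi z = 0 := by
  unfold chi; rw [cl_of_nonpos h]; ring

theorem chi_of_one_le {z : ℝ} (h : 1 ≤ z) : chi z = 0 := by
  unfold chi; rw [cl_of_one_le h]; ring

theorem chi_of_mem {z : ℝ} (h0 : 0 ≤ z) (h1 : z ≤ 1) : chi z = 6 * z * (1 - z) := by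
  unfold chi; rw [cl_of_mem h0 h1]

theorem I1_of_nonpos {z : ℝ} (h : z ≤ 0) : I1 z = 0 := by
  unfold I1; rw [cl_of_nonpos h]; ring

theorem I1_of_one_le {z : ℝ} (h : 1 ≤ z) : I1 z = 1 := by
  unfold I1; rw [cl_of_one_le h]; ring

theorem I1_of_mem {z : ℝ} (h0 : 0 ≤ z) (h1 : z ≤ 1) : I1 z = 3 * z ^ 2 - 2 * z ^ 3 := by
  unfold I1; rw [cl_of_mem h0 h1]

theorem J1_of_nonpos {z : ℝ} (h : z ≤ 0) : J1 z = 0 := by
  unfold J1; rw [cl_of_nonpos h, max_eq_right (by linarith)]; ring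

theorem J1_of_one_le {z : ℝ} (h : 1 ≤ z) : J1 z = z - 1 / 2 := by
  unfold J1; rw [cl_of_one_le h, max_eq_left (by linarith)]; ring

theorem J1_of_mem {z : ℝ} (h0 : 0 ≤ z) (h1 : z ≤ 1) : J1 z = z ^ 3 - z ^ 4 / 2 := by
  unfold J1; rw [cl_of_mem h0 h1, max_eq_right (by linarith)]; ring

theorem I1_deriv (z : ℝ) : HasDerivAt I1 (chi z) z := by
  refine glue3 (p := fun _ => 0) (q := fun z => 3 * z ^ 2 - 2 * z ^ 3) (r := fun _ => 1)
    (fun z hz => I1_of_nonpos hz) (fun z h0 h1 => I1_of_mem h0 h1) (fun z hz => I1_of_one_le hz)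
    ?_ ?_ ?_ z
  · intro z hz
    rw [chi_of_nonpos hz]
    exact hasDerivAt_const _ _
  · intro z h0 h1
    rw [chi_of_mem h0 h1]
    have h := ((hasDerivAt_pow 2 z).const_mul 3).sub ((hasDerivAt_pow 3 z).const_mul 2)
    refine h.congr_deriv ?_
    norm_num
    ring
  · intro z hz
    rw [chi_of_one_le hz]
    exact hasDerivAt_const _ _

theorem J1_deriv (z : ℝ) : HasDerivAt J1 (I1 z) z := by
  refine glue3 (p := fun _ => 0) (q := fun z => z ^ 3 - z ^ 4 / 2) (r := fun z => z - 1 / 2)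
    (fun z hz => J1_of_nonpos hz) (fun z h0 h1 => J1_of_mem h0 h1) (fun z hz => J1_of_one_le hz)
    ?_ ?_ ?_ z
  · intro z hz
    rw [I1_of_nonpos hz]
    exact hasDerivAt_const _ _
  · intro z h0 h1
    rw [I1_of_mem h0 h1]
    have h := (hasDerivAt_pow 3 z).sub ((hasDerivAt_pow 4 z).div_const 2)
    refine h.congr_deriv ?_
    norm_num
    ring
  · intro z hz
    rw [I1_of_one_le hz]
    exact (hasDerivAt_id z).sub_const _

theorem chi_facts : (∀ z, 0 ≤ chi z) ∧ (∀ z, chi z ≤ 3 / 2) ∧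
    (∀ z w, |chi z - chi w| ≤ 6 * |z - w|) ∧ (∀ z, z ≤ 0 → chi z = 0) ∧
    (∀ z, 1 ≤ z → chi z = 0) ∧ ∫ z in (0:ℝ)..1, chi z = 1 := by
  refine ⟨fun z => ?_, fun z => ?_, fun z w => ?_, fun z hz => chi_of_nonpos hz,
    fun z hz => chi_of_one_le hz, ?_⟩
  · have h0 := cl_nonneg z
    have h1 := cl_le_one z
    unfold chi
    have : 0 ≤ 1 - cl z := by linarith
    positivity
  · unfold chi
    nlinarith [sq_nonneg (cl z - 1 / 2)]
  · have hz0 := cl_nonneg z
    have hz1 := cl_le_one z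
    have hw0 := cl_nonneg w
    have hw1 := cl_le_one w
    have h1 : chi z - chi w = 6 * ((cl z - cl w) * (1 - cl z - cl w)) := by
      unfold chi; ring
    rw [h1, abs_mul, abs_mul, abs_of_pos (by norm_num : (0:ℝ) < 6)]
    have h2 : |1 - cl z - cl w| ≤ 1 := by rw [abs_le]; constructor <;> linarith
    have h3 := cl_lip z w
    have h4 : |cl z - cl w| * |1 - cl z - cl w| ≤ |z - w| * 1 :=
      mul_le_mul h3 h2 (abs_nonneg _) (abs_nonneg _)
    linarith
  · rw [intervalIntegral.integral_eq_sub_of_hasDerivAt (fun z _ => I1_deriv z)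
      (chi_cont.intervalIntegrable 0 1), I1_of_one_le le_rfl, I1_of_nonpos le_rfl]
    norm_num

theorem I1_facts : (∀ z, HasDerivAt I1 (chi z) z) ∧ (∀ z, 0 ≤ I1 z) ∧ (∀ z, I1 z ≤ 1) ∧
    (∀ z, z ≤ 0 → I1 z = 0) ∧ (∀ z, 1 ≤ z → I1 z = 1) ∧
    (∀ z w, |I1 z - I1 w| ≤ 3 / 2 * |z - w|) := by
  refine ⟨I1_deriv, fun z => ?_, fun z => ?_, fun z hz => I1_of_nonpos hz,
    fun z hz => I1_of_one_le hz, fun z w => ?_⟩
  · have h0 := cl_nonneg z
    have h1 := cl_le_one z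
    have h2 : I1 z = (cl z) ^ 2 * (3 - 2 * cl z) := by unfold I1; ring
    rw [h2]
    have : 0 ≤ 3 - 2 * cl z := by linarith
    positivity
  · have h0 := cl_nonneg z
    have h2 : 1 - I1 z = (1 - cl z) ^ 2 * (1 + 2 * cl z) := by unfold I1; ring
    have h3 : 0 ≤ (1 - cl z) ^ 2 * (1 + 2 * cl z) := by positivity
    linarith
  · have hz0 := cl_nonneg z
    have hz1 := cl_le_one z
    have hw0 := cl_nonneg w
    have hw1 := cl_le_one w
    set u := cl z with hu
    set v := cl w with hv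
    have h1 : I1 z - I1 w = (u - v) * (3 * (u + v) - 2 * (u ^ 2 + u * v + v ^ 2)) := by
      unfold I1; rw [← hu, ← hv]; ring
    have h2 : |3 * (u + v) - 2 * (u ^ 2 + u * v + v ^ 2)| ≤ 3 / 2 := by
      rw [abs_le]
      constructor
      · nlinarith [mul_nonneg hz0 (sub_nonneg.2 hz1), mul_nonneg hw0 (sub_nonneg.2 hw1),
          mul_nonneg hz0 (sub_nonneg.2 hw1), mul_nonneg hw0 (sub_nonneg.2 hz1)]
      · nlinarith [sq_nonneg (u - v), sq_nonneg (u + v - 1)]
    rw [h1, abs_mul]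
    have h3 : |u - v| ≤ |z - w| := cl_lip z w
    have h4 : |u - v| * |3 * (u + v) - 2 * (u ^ 2 + u * v + v ^ 2)| ≤ |z - w| * (3 / 2) :=
      mul_le_mul h3 h2 (abs_nonneg _) (abs_nonneg _)
    linarith

theorem J1_facts : (∀ z, HasDerivAt J1 (I1 z) z) ∧ (∀ z, z ≤ 0 → J1 z = 0) ∧
    (∀ z, 1 ≤ z → J1 z = z - 1 / 2) ∧ (∀ z, 0 ≤ max z 0 - J1 z) ∧
    (∀ z, max z 0 - J1 z ≤ 1 / 2) := by
  refine ⟨J1_deriv, fun z hz => J1_of_nonpos hz, fun z hz => J1_of_one_le hz, fun z => ?_,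
    fun z => ?_⟩
  · rcases le_total z 0 with h | h
    · rw [J1_of_nonpos h, max_eq_right h, sub_zero]
    · rcases le_total z 1 with h1 | h1
      · rw [J1_of_mem h h1, max_eq_left h]
        have e : z - (z ^ 3 - z ^ 4 / 2) = z * ((1 - z) * (1 + z) + z ^ 3 / 2) := by ring
        rw [e]
        have : 0 ≤ 1 - z := by linarith
        positivity
      · rw [J1_of_one_le h1, max_eq_left h]
        linarith
  · rcases le_total z 0 with h | h
    · rw [J1_of_nonpos h, max_eq_right h]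
      norm_num
    · rcases le_total z 1 with h1 | h1
      · rw [J1_of_mem h h1, max_eq_left h]
        have e : 1 / 2 - (z - (z ^ 3 - z ^ 4 / 2)) = (1 - z) ^ 3 * (1 + z) / 2 := by ring
        have h2 : 0 ≤ 1 - z := by linarith
        have h3 : 0 ≤ (1 - z) ^ 3 * (1 + z) / 2 := by positivity
        linarith
      · rw [J1_of_one_le h1, max_eq_left h]
        linarith

theorem Fp_near (e x : ℝ) (he : 0 < e) : |max x 0 - Fp e x| ≤ e / 2 := by
  have h1 : max x 0 = e * max (x / e) 0 := by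
    rw [mul_max_of_nonneg _ _ he.le, mul_zero, mul_div_cancel₀ _ he.ne']
  have h2 := J1_facts.2.2.2.1 (x / e)
  have h3 := J1_facts.2.2.2.2 (x / e)
  unfold Fp
  rw [h1, ← mul_sub, abs_mul, abs_of_pos he, abs_of_nonneg h2]
  have := mul_le_mul_of_nonneg_left h3 he.le
  linarith

theorem Fp_tf (e : ℝ) (he : 0 < e) (he1 : e ≤ 1) :
    TF (Fp e) (fun x => I1 (x / e)) (kp e) (6 / e ^ 2) := by
  have hd : ∀ x : ℝ, HasDerivAt (fun x : ℝ => x / e) (1 / e) x := fun x =>
    (hasDerivAt_id x).div_const e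
  have he2 : e ^ 2 ≤ 1 := by nlinarith
  have he3 : e ^ 2 ≤ e := by nlinarith
  refine ⟨fun x => ?_, fun x => ?_, ?_, fun x => ?_, fun x => ?_, fun x y => ?_⟩
  · have h := ((J1_deriv (x / e)).comp x (hd x)).const_mul e
    refine h.congr_deriv ?_
    field_simp
  · have h := (I1_deriv (x / e)).comp x (hd x)
    refine h.congr_deriv ?_
    unfold kp
    ring
  · change I1 (0 / e) = 0
    rw [zero_div, I1_of_nonpos le_rfl]
  · change |I1 (x / e)| ≤ 6 / e ^ 2
    rw [abs_of_nonneg (I1_facts.2.1 _), le_div_iff₀ (by positivity)]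
    have h1 := I1_facts.2.2.1 (x / e)
    have h0 := I1_facts.2.1 (x / e)
    nlinarith
  · unfold kp
    rw [abs_of_nonneg (div_nonneg (chi_facts.1 _) he.le), div_le_div_iff₀ he (by positivity)]
    have h1 := chi_facts.2.1 (x / e)
    have h0 := chi_facts.1 (x / e)
    nlinarith [mul_le_mul h1 he3 (sq_nonneg e) (by norm_num)]
  · unfold kp
    rw [← sub_div, abs_div, abs_of_pos he, div_le_iff₀ he]
    have h1 := chi_facts.2.2.1 (x / e) (y / e)
    rw [← sub_div, abs_div, abs_of_pos he] at h1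
    refine h1.trans (le_of_eq ?_)
    field_simp

theorem TF_neg {f f1 f2 : ℝ → ℝ} {C : ℝ} (h : TF f f1 f2 C) :
    (∀ x, HasDerivAt (fun x => f (-x)) (-f1 (-x)) x) ∧
    (∀ x, HasDerivAt (fun x => f1 (-x)) (-f2 (-x)) x) := by
  constructor
  · intro x
    have h1 := (h.h1 (-x)).comp x (hasDerivAt_neg x)
    exact h1.congr_deriv (by ring)
  · intro x
    have h1 := (h.h2 (-x)).comp x (hasDerivAt_neg x)
    exact h1.congr_deriv (by ring)

theorem TF_sum {f f1 f2 : ℝ → ℝ} {C : ℝ} (h : TF f f1 f2 C) :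
    TF (fun x => f x + f (-x)) (fun x => f1 x - f1 (-x)) (fun x => f2 x + f2 (-x)) (C + C) := by
  obtain ⟨n1, n2⟩ := TF_neg h
  refine ⟨fun x => ?_, fun x => ?_, ?_, fun x => ?_, fun x => ?_, fun x y => ?_⟩
  · exact ((h.h1 x).add (n1 x)).congr_deriv (by ring)
  · exact ((h.h2 x).sub (n2 x)).congr_deriv (by ring)
  · change f1 0 - f1 (-0) = 0
    rw [neg_zero, sub_self]
  · exact (abs_sub _ _).trans (add_le_add (h.b1 _) (h.b1 _))
  · exact (abs_add_le _ _).trans (add_le_add (h.b2 _) (h.b2 _))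
  · have a1 := h.lip x y
    have a2 := h.lip (-x) (-y)
    rw [show -x - -y = -(x - y) by ring, abs_neg] at a2
    have e : f2 x + f2 (-x) - (f2 y + f2 (-y)) = (f2 x - f2 y) + (f2 (-x) - f2 (-y)) := by ring
    change |f2 x + f2 (-x) - (f2 y + f2 (-y))| ≤ (C + C) * |x - y|
    rw [e, add_mul]
    exact (abs_add_le _ _).trans (add_le_add a1 a2)

theorem TF_diff {f f1 f2 : ℝ → ℝ} {C : ℝ} (h : TF f f1 f2 C) :
    TF (fun x => f x - f (-x)) (fun x => f1 x + f1 (-x)) (fun x => f2 x - f2 (-x)) (C + C) := by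
  obtain ⟨n1, n2⟩ := TF_neg h
  refine ⟨fun x => ?_, fun x => ?_, ?_, fun x => ?_, fun x => ?_, fun x y => ?_⟩
  · exact ((h.h1 x).sub (n1 x)).congr_deriv (by ring)
  · exact ((h.h2 x).add (n2 x)).congr_deriv (by ring)
  · change f1 0 + f1 (-0) = 0
    rw [neg_zero, h.z, add_zero]
  · exact (abs_add_le _ _).trans (add_le_add (h.b1 _) (h.b1 _))
  · exact (abs_sub _ _).trans (add_le_add (h.b2 _) (h.b2 _))
  · have a1 := h.lip x y
    have a2 := h.lip (-x) (-y)
    rw [show -x - -y = -(x - y) by ring, abs_neg] at a2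
    have e : f2 x - f2 (-x) - (f2 y - f2 (-y)) = (f2 x - f2 y) - (f2 (-x) - f2 (-y)) := by ring
    change |f2 x - f2 (-x) - (f2 y - f2 (-y))| ≤ (C + C) * |x - y|
    rw [e, add_mul]
    exact (abs_sub _ _).trans (add_le_add a1 a2)

theorem Fs_tf (e : ℝ) (he : 0 < e) (he1 : e ≤ 1) :
    TF (fun x => Fp e x + Fp e (-x)) (fun x => I1 (x / e) - I1 (-x / e))
      (fun x => 2 * kap e x) (12 / e ^ 2) := by
  have h := TF_sum (Fp_tf e he he1)
  have e1 : (fun x => 2 * kap e x) = fun x => kp e x + kp e (-x) := by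
    funext x; unfold kap; ring
  have e2 : (12 / e ^ 2 : ℝ) = 6 / e ^ 2 + 6 / e ^ 2 := by ring
  rw [e1, e2]
  exact h

theorem Fd_tf (e : ℝ) (he : 0 < e) (he1 : e ≤ 1) :
    TF (fun x => Fp e x - Fp e (-x)) (fun x => I1 (x / e) + I1 (-x / e))
      (fun x => kp e x - kp e (-x)) (12 / e ^ 2) := by
  have h := TF_diff (Fp_tf e he he1)
  have e2 : (12 / e ^ 2 : ℝ) = 6 / e ^ 2 + 6 / e ^ 2 := by ring
  rw [e2]
  exact h

theorem sq_one_le (x : ℝ) : 1 ≤ √(1 + x ^ 2) := by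
  rw [Real.one_le_sqrt]
  nlinarith [sq_nonneg x]

theorem sq_abs_le (x : ℝ) : |x| ≤ √(1 + x ^ 2) := by
  rw [← Real.sqrt_sq_eq_abs]
  exact Real.sqrt_le_sqrt (by linarith)

theorem sq_sqr (x : ℝ) : √(1 + x ^ 2) ^ 2 = 1 + x ^ 2 := Real.sq_sqrt (by positivity)

theorem sq_tf : TF (fun x => √(1 + x ^ 2)) (fun x => x / √(1 + x ^ 2))
    (fun x => 1 / (√(1 + x ^ 2)) ^ 3) 3 := by
  have hd : ∀ x : ℝ, HasDerivAt (fun x : ℝ => √(1 + x ^ 2)) (x / √(1 + x ^ 2)) x := by
    intro x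
    have h1 : HasDerivAt (fun x : ℝ => 1 + x ^ 2) (2 * x) x := by
      have := (hasDerivAt_pow 2 x).const_add 1
      refine this.congr_deriv ?_
      norm_num
    have h2 := h1.sqrt (by positivity)
    refine h2.congr_deriv ?_
    rw [mul_div_mul_left _ _ two_ne_zero]
  refine ⟨hd, fun x => ?_, ?_, fun x => ?_, fun x => ?_, fun x y => ?_⟩
  · have hpos : 0 < √(1 + x ^ 2) := lt_of_lt_of_le one_pos (sq_one_le x)
    have h1 := (hasDerivAt_id x).div (hd x) hpos.ne'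
    refine h1.congr_deriv ?_
    have h2 := sq_sqr x
    simp only [id]
    field_simp
    rw [h2]
    ring
  · change (0:ℝ) / √(1 + 0 ^ 2) = 0
    rw [zero_div]
  · have hpos : 0 < √(1 + x ^ 2) := lt_of_lt_of_le one_pos (sq_one_le x)
    change |x / √(1 + x ^ 2)| ≤ 3
    rw [abs_div, abs_of_pos hpos, div_le_iff₀ hpos]
    have := sq_abs_le x
    linarith
  · have hpos : 0 < √(1 + x ^ 2) := lt_of_lt_of_le one_pos (sq_one_le x)
    change |1 / √(1 + x ^ 2) ^ 3| ≤ 3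
    rw [abs_of_pos (by positivity), div_le_iff₀ (by positivity)]
    have := one_le_pow₀ (sq_one_le x) (n := 3)
    linarith
  · change |1 / √(1 + x ^ 2) ^ 3 - 1 / √(1 + y ^ 2) ^ 3| ≤ 3 * |x - y|
    have a1 := sq_one_le x
    have b1 := sq_one_le y
    have a2 := sq_abs_le x
    have b2 := sq_abs_le y
    have a3 := sq_sqr x
    have b3 := sq_sqr y
    set a := √(1 + x ^ 2) with ha
    set b := √(1 + y ^ 2) with hb
    have a0 : 0 < a := by linarith
    have b0 : 0 < b := by linarith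
    have h1 : |b - a| ≤ |x - y| := by
      have h2 : |b - a| * (a + b) = |x - y| * |x + y| := by
        rw [← abs_of_pos (by linarith : 0 < a + b), ← abs_mul, ← abs_mul, ← abs_neg]
        congr 1
        nlinarith
      have h3 : |x + y| ≤ a + b := (abs_add_le _ _).trans (add_le_add a2 b2)
      have h4 : |b - a| * (a + b) ≤ |x - y| * (a + b) := by
        rw [h2]; exact mul_le_mul_of_nonneg_left h3 (abs_nonneg _)
      exact le_of_mul_le_mul_right h4 (by linarith)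
    have h5 : 1 / a ^ 3 - 1 / b ^ 3 = (b - a) * ((a ^ 2 + a * b + b ^ 2) / (a ^ 3 * b ^ 3)) := by
      field_simp
      ring
    have h6 : (a ^ 2 + a * b + b ^ 2) / (a ^ 3 * b ^ 3) ≤ 3 := by
      rw [div_le_iff₀ (by positivity)]
      have ha2 : 1 ≤ a ^ 2 := one_le_pow₀ a1
      have hb2 : 1 ≤ b ^ 2 := one_le_pow₀ b1
      have ha3 : a ^ 2 ≤ a ^ 3 := pow_le_pow_right₀ a1 (by norm_num)
      have hb3 : b ^ 2 ≤ b ^ 3 := pow_le_pow_right₀ b1 (by norm_num)
      have ha3' : a ≤ a ^ 3 := le_self_pow₀ a1 (by norm_num)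
      have hb3' : b ≤ b ^ 3 := le_self_pow₀ b1 (by norm_num)
      have c1 : a ^ 2 ≤ a ^ 3 * b ^ 3 := by nlinarith [one_le_pow₀ b1 (n := 3)]
      have c2 : b ^ 2 ≤ a ^ 3 * b ^ 3 := by nlinarith [one_le_pow₀ a1 (n := 3)]
      have c3 : a * b ≤ a ^ 3 * b ^ 3 := mul_le_mul ha3' hb3' b0.le (by positivity)
      linarith
    have h7 : 0 ≤ (a ^ 2 + a * b + b ^ 2) / (a ^ 3 * b ^ 3) := by positivity
    rw [h5, abs_mul, abs_of_nonneg h7]
    calc |b - a| * ((a ^ 2 + a * b + b ^ 2) / (a ^ 3 * b ^ 3)) ≤ |x - y| * 3 :=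
          mul_le_mul h1 h6 h7 (abs_nonneg _)
      _ = 3 * |x - y| := mul_comm _ _

end kernels

end Pool.Agent.Helper41.SK
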