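import Pool.Agent.Helper41.SK.Defs
import Pool.Agent.Helper41.SK.MainDefs


set_option autoImplicit false

open scoped ENNReal NNReal Topology
open MeasureTheory ProbabilityTheory Set Filter

namespace Pool.Agent.Helper41.SK

/-! ## TARGETS: prove these (statements must not be changed; helper lemmas are welcome) -/

section base

variable {Ω : Type*} [mΩ : MeasurableSpace Ω] {P : Measure Ω} [IsProbabilityMeasure P]
  {F : ℝ → MeasurableSpace Ω} {B : ℝ → Ω → ℝ}

theorem mod_gen (Z : ℝ → Ω → ℝ) (hm : ∀ t, 0 ≤ t → Measurable (Z t))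
    (hc : ∀ ω, Continuous (fun t => Z t ω)) (T : ℝ) (hT : 0 < T) :
    ∃ W : ℕ → Ω → ℝ, (∀ n, Measurable (W n)) ∧ (∀ n ω, 0 ≤ W n ω) ∧
      (∀ n : ℕ, 0 < n → ∀ ω s t, 0 ≤ s → s ≤ T → 0 ≤ t → t ≤ T → |s - t| ≤ T / n →
        |Z s ω - Z t ω| ≤ W n ω) ∧
      (∀ ω, Tendsto (fun n => W n ω) atTop (𝓝 0)) ∧
      (∀ S : Ω → ℝ, (∀ ω t, 0 ≤ t → t ≤ T → |Z t ω| ≤ S ω) → ∀ n ω, W n ω ≤ 2 * S ω) := by
  classical
  have hne : Nonempty (Icc (0:ℝ) T) := ⟨⟨0, le_refl _, hT.le⟩⟩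
  set u : ℕ → Icc (0:ℝ) T := TopologicalSpace.denseSeq (Icc (0:ℝ) T) with hu
  have hud : DenseRange u := TopologicalSpace.denseRange_denseSeq _
  set G : ℕ → ℕ × ℕ → Ω → ℝ := fun n k ω =>
    if |((u k.1 : ℝ)) - (u k.2 : ℝ)| ≤ 2 * T / n then |Z (u k.1) ω - Z (u k.2) ω| else 0 with hG
  have hG0 : ∀ n k ω, 0 ≤ G n k ω := by
    intro n k ω
    simp only [hG]
    split_ifs
    · exact abs_nonneg _
    · exact le_refl _
  have hbound : ∀ ω, ∃ C : ℝ, ∀ t, 0 ≤ t → t ≤ T → |Z t ω| ≤ C := by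
    intro ω
    obtain ⟨C, hC⟩ := (isCompact_Icc (a := (0:ℝ)) (b := T)).exists_bound_of_continuousOn
      (hc ω).continuousOn
    exact ⟨C, fun t h0 h1 => hC t ⟨h0, h1⟩⟩
  have hGle : ∀ n k ω (C : ℝ), (∀ t, 0 ≤ t → t ≤ T → |Z t ω| ≤ C) → G n k ω ≤ 2 * C := by
    intro n k ω C hC
    have h0 : 0 ≤ C := (abs_nonneg _).trans (hC 0 (le_refl _) hT.le)
    simp only [hG]
    split_ifs
    · have h1 := hC (u k.1) (u k.1).2.1 (u k.1).2.2
      have h2 := hC (u k.2) (u k.2).2.1 (u k.2).2.2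
      have h3 := abs_sub (Z (u k.1) ω) (Z (u k.2) ω)
      linarith
    · linarith
  have hbdd : ∀ n ω, BddAbove (range fun k => G n k ω) := by
    intro n ω
    obtain ⟨C, hC⟩ := hbound ω
    refine ⟨2 * C, ?_⟩
    rintro _ ⟨k, rfl⟩
    exact hGle n k ω C hC
  refine ⟨fun n ω => ⨆ k, G n k ω, ?_, ?_, ?_, ?_, ?_⟩
  · intro n
    refine Measurable.iSup fun k => ?_
    simp only [hG]
    split_ifs
    · exact ((hm _ (u k.1).2.1).sub (hm _ (u k.2).2.1)).abs
    · exact measurable_const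
  · intro n ω
    exact (hG0 n (0, 0) ω).trans (le_ciSup (hbdd n ω) (0, 0))
  · intro n hn ω s t hs0 hsT ht0 htT hst
    have hn' : (0:ℝ) < n := by exact_mod_cast hn
    have hpos : 0 < T / n := by positivity
    let A : Set (Icc (0:ℝ) T × Icc (0:ℝ) T) := {x | |(x.1 : ℝ) - (x.2 : ℝ)| < 2 * T / n}
    let C : Set (Icc (0:ℝ) T × Icc (0:ℝ) T) := {x | |Z x.1 ω - Z x.2 ω| ≤ ⨆ k, G n k ω}
    have hA : IsOpen A := by
      have : Continuous (fun x : Icc (0:ℝ) T × Icc (0:ℝ) T => |(x.1 : ℝ) - (x.2 : ℝ)|) := by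
        fun_prop
      exact isOpen_lt this continuous_const
    have hC : IsClosed C := by
      have h1 : Continuous (fun x : Icc (0:ℝ) T × Icc (0:ℝ) T => Z x.1 ω) :=
        (hc ω).comp (continuous_subtype_val.comp continuous_fst)
      have h2 : Continuous (fun x : Icc (0:ℝ) T × Icc (0:ℝ) T => Z x.2 ω) :=
        (hc ω).comp (continuous_subtype_val.comp continuous_snd)
      exact isClosed_le ((h1.sub h2).abs) continuous_const
    have hD : Dense (range (Prod.map u u)) := hud.prodMap hud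
    have hsub : A ∩ range (Prod.map u u) ⊆ C := by
      rintro _ ⟨hx, ⟨k, rfl⟩⟩
      have hx' : |(u k.1 : ℝ) - (u k.2 : ℝ)| < 2 * T / n := hx
      have h1 := le_ciSup (hbdd n ω) k
      have h2 : G n k ω = |Z (u k.1) ω - Z (u k.2) ω| := if_pos hx'.le
      change |Z (u k.1) ω - Z (u k.2) ω| ≤ ⨆ k, G n k ω
      rw [← h2]
      exact h1
    have hAC : A ⊆ C :=
      (hD.open_subset_closure_inter hA).trans (closure_minimal hsub hC)
    have hmem : ((⟨s, hs0, hsT⟩, ⟨t, ht0, htT⟩) : Icc (0:ℝ) T × Icc (0:ℝ) T) ∈ A := by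
      change |s - t| < 2 * T / n
      have h1 : 2 * T / n = T / n + T / n := by ring
      rw [h1]
      linarith
    exact hAC hmem
  · intro ω
    have huc := (isCompact_Icc (a := (0:ℝ)) (b := T)).uniformContinuousOn_of_continuous
      (hc ω).continuousOn
    rw [Metric.uniformContinuousOn_iff] at huc
    rw [Metric.tendsto_atTop]
    intro ε hε
    obtain ⟨δ, hδ, hδ2⟩ := huc (ε / 2) (by positivity)
    obtain ⟨N, hN⟩ := exists_nat_gt (2 * T / δ)
    refine ⟨N + 1, fun n hn => ?_⟩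
    have hn0 : (0:ℝ) < n := by
      have : 0 < n := by omega
      exact_mod_cast this
    have hNn : (N:ℝ) ≤ n := by
      have : N ≤ n := by omega
      exact_mod_cast this
    have h1 : 2 * T / n < δ := by
      rw [div_lt_iff₀ hn0]
      rw [div_lt_iff₀ hδ] at hN
      have : (N:ℝ) * δ ≤ n * δ := mul_le_mul_of_nonneg_right hNn hδ.le
      linarith
    have h2 : (⨆ k, G n k ω) ≤ ε / 2 := by
      refine ciSup_le fun k => ?_
      simp only [hG]
      split_ifs with hk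
      · have h3 := hδ2 (u k.1) (u k.1).2 (u k.2) (u k.2).2 (by
          rw [Real.dist_eq]
          exact lt_of_le_of_lt hk h1)
        rw [Real.dist_eq] at h3
        exact h3.le
      · positivity
    have h3 : 0 ≤ ⨆ k, G n k ω := (hG0 n (0, 0) ω).trans (le_ciSup (hbdd n ω) (0, 0))
    rw [Real.dist_eq, sub_zero, abs_of_nonneg h3]
    linarith
  · intro S hS n ω
    exact ciSup_le fun k => hGle n k ω (S ω) (hS ω)

end base

end Pool.Agent.Helper41.SK
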