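import Pool.Agent.Helper41.SK.Defs
import Pool.Agent.Helper41.SK.MainDefs
import Pool.Agent.Helper41.SK.SA01

set_option autoImplicit false

open scoped ENNReal NNReal Topology
open MeasureTheory ProbabilityTheory Set Filter

namespace Pool.Agent.Helper41.SK


/-! ## TARGETS: prove these (statements must not be changed; helper lemmas are welcome) -/

section base

variable {Ω : Type*} [mΩ : MeasurableSpace Ω] {P : Measure Ω} [IsProbabilityMeasure P]
  {F : ℝ → MeasurableSpace Ω} {B : ℝ → Ω → ℝ}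

/-- fourth power of the increments over the dyadic grid of level `j` -/
noncomputable def Qd (B : ℝ → Ω → ℝ) (T : ℝ) (j : ℕ) (ω : Ω) : ℝ :=
  ∑ i ∈ Finset.range (2 ^ j), (B (T * (i + 1) / 2 ^ j) ω - B (T * i / 2 ^ j) ω) ^ 4

theorem Qd_nonneg (B : ℝ → Ω → ℝ) (T : ℝ) (j : ℕ) (ω : Ω) : 0 ≤ Qd B T j ω :=
  Finset.sum_nonneg fun _ _ => by positivity

/-- bound of the increments over the dyadic grid of level `j` -/
noncomputable def ad (B : ℝ → Ω → ℝ) (T : ℝ) (j : ℕ) (ω : Ω) : ℝ := √(√(Qd B T j ω))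

theorem ad_nonneg (B : ℝ → Ω → ℝ) (T : ℝ) (j : ℕ) (ω : Ω) : 0 ≤ ad B T j ω := Real.sqrt_nonneg _

theorem ad_pow (B : ℝ → Ω → ℝ) (T : ℝ) (j : ℕ) (ω : Ω) : (ad B T j ω) ^ 4 = Qd B T j ω := by
  have h1 : (ad B T j ω) ^ 2 = √(Qd B T j ω) := Real.sq_sqrt (Real.sqrt_nonneg _)
  have h2 : (√(Qd B T j ω)) ^ 2 = Qd B T j ω := Real.sq_sqrt (Qd_nonneg _ _ _ _)
  calc (ad B T j ω) ^ 4 = ((ad B T j ω) ^ 2) ^ 2 := by ring
    _ = _ := by rw [h1, h2]

theorem ad_inc (B : ℝ → Ω → ℝ) (T : ℝ) (j : ℕ) (ω : Ω) (i : ℕ) (hi : i < 2 ^ j) :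
    |B (T * (i + 1) / 2 ^ j) ω - B (T * i / 2 ^ j) ω| ≤ ad B T j ω := by
  have h1 : (B (T * (i + 1) / 2 ^ j) ω - B (T * i / 2 ^ j) ω) ^ 4 ≤ Qd B T j ω :=
    Finset.single_le_sum (f := fun i : ℕ =>
      (B (T * (i + 1) / 2 ^ j) ω - B (T * i / 2 ^ j) ω) ^ 4)
      (fun _ _ => by positivity) (Finset.mem_range.2 hi)
  rw [← ad_pow] at h1
  refine (pow_le_pow_iff_left₀ (abs_nonneg _) (ad_nonneg _ _ _ _) (by norm_num : (4:ℕ) ≠ 0)).1 ?_
  rw [Even.pow_abs (by decide)]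
  exact h1

theorem chain (B : ℝ → Ω → ℝ) (T : ℝ) (ω : Ω) (h0 : B 0 ω = 0) (m : ℕ) :
    ∀ k : ℕ, k ≤ 2 ^ m → |B (T * k / 2 ^ m) ω| ≤ ∑ j ∈ Finset.range (m + 1), ad B T j ω := by
  induction m with
  | zero =>
    intro k hk
    have h1 := ad_inc B T 0 ω 0 (by norm_num)
    have h2 := ad_nonneg B T 0 ω
    have hk' : k = 0 ∨ k = 1 := by
      have : k ≤ 1 := by simpa using hk
      omega
    rcases hk' with rfl | rfl
    · simp [h0, h2]
    · simpa [h0] using h1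
  | succ m ih =>
    intro k hk
    rw [Finset.sum_range_succ]
    have h2 := ad_nonneg B T (m + 1) ω
    rcases Nat.even_or_odd' k with ⟨l, rfl | rfl⟩
    · have hl : l ≤ 2 ^ m := by
        rw [pow_succ] at hk
        omega
      have h3 : T * ((2 * l : ℕ) : ℝ) / 2 ^ (m + 1) = T * l / 2 ^ m := by
        push_cast
        rw [pow_succ]
        field_simp
      rw [h3]
      have h4 := ih l hl
      linarith
    · have hl : l ≤ 2 ^ m := by
        rw [pow_succ] at hk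
        omega
      have h3 : T * ((2 * l : ℕ) : ℝ) / 2 ^ (m + 1) = T * l / 2 ^ m := by
        push_cast
        rw [pow_succ]
        field_simp
      have h4 := ih l hl
      have h5 := ad_inc B T (m + 1) ω (2 * l) (by omega)
      rw [h3] at h5
      have h6 : T * ((2 * l + 1 : ℕ) : ℝ) / 2 ^ (m + 1) = T * (((2 * l : ℕ) : ℝ) + 1) / 2 ^ (m + 1) := by
        push_cast
        rfl
      rw [h6]
      have h7 : B (T * (((2 * l : ℕ) : ℝ) + 1) / 2 ^ (m + 1)) ω =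
          B (T * l / 2 ^ m) ω + (B (T * (((2 * l : ℕ) : ℝ) + 1) / 2 ^ (m + 1)) ω
            - B (T * l / 2 ^ m) ω) := by ring
      rw [h7]
      exact (abs_add_le _ _).trans (add_le_add h4 h5)

/-- the summands of the majorant -/
noncomputable def gd (B : ℝ → Ω → ℝ) (T : ℝ) (j : ℕ) (ω : Ω) : ℝ :=
  5 * ((15 / 16) ^ j + (5 / 3) ^ j * Qd B T j ω)

theorem gd_nonneg (B : ℝ → Ω → ℝ) (T : ℝ) (j : ℕ) (ω : Ω) : 0 ≤ gd B T j ω := by
  have := Qd_nonneg B T j ω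
  unfold gd
  positivity

theorem sum_ad_sq (B : ℝ → Ω → ℝ) (T : ℝ) (m : ℕ) (ω : Ω) :
    (∑ j ∈ Finset.range m, ad B T j ω) ^ 2 ≤ ∑ j ∈ Finset.range m, gd B T j ω := by
  have h1 : (∑ j ∈ Finset.range m, ad B T j ω) ^ 2 ≤
      (∑ j ∈ Finset.range m, ((4:ℝ) / 5) ^ j) *
        ∑ j ∈ Finset.range m, ((5:ℝ) / 4) ^ j * (ad B T j ω) ^ 2 := by
    refine Finset.sum_sq_le_sum_mul_sum_of_sq_eq_mul _ (fun i _ => by positivity)
      (fun i _ => by positivity) (fun i _ => ?_)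
    rw [← mul_assoc, ← mul_pow]
    norm_num
  have h2 : (∑ j ∈ Finset.range m, ((4:ℝ) / 5) ^ j) ≤ 5 := by
    rw [geom_sum_eq (by norm_num)]
    have : (0:ℝ) ≤ ((4:ℝ) / 5) ^ m := by positivity
    rw [div_le_iff_of_neg (by norm_num)]
    linarith
  have h3 : ∀ j, ((5:ℝ) / 4) ^ j * (ad B T j ω) ^ 2 ≤
      (15 / 16) ^ j + (5 / 3) ^ j * Qd B T j ω := by
    intro j
    rw [← ad_pow]
    set a := ad B T j ω
    have h4 : a ^ 2 ≤ (3/4 : ℝ) ^ j + (4/3 : ℝ) ^ j * a ^ 4 := by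
      have h5 : (3/4 : ℝ) ^ j * (4/3 : ℝ) ^ j = 1 := by
        rw [← mul_pow]
        norm_num
      have h6 : (0:ℝ) < (3/4 : ℝ) ^ j := by positivity
      have h7 : (0:ℝ) < (4/3 : ℝ) ^ j := by positivity
      have h8 : 0 ≤ (4/3 : ℝ) ^ j * (a ^ 2 - (3/4 : ℝ) ^ j) ^ 2 := by positivity
      have h9 : (4/3 : ℝ) ^ j * (a ^ 2 - (3/4 : ℝ) ^ j) ^ 2 =
          (4/3 : ℝ) ^ j * a ^ 4 - 2 * ((3/4 : ℝ) ^ j * (4/3 : ℝ) ^ j) * a ^ 2
            + (3/4 : ℝ) ^ j * ((3/4 : ℝ) ^ j * (4/3 : ℝ) ^ j) := by ring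
      rw [h9, h5] at h8
      nlinarith [sq_nonneg a]
    have h10 : (15/16 : ℝ) ^ j = (5/4 : ℝ) ^ j * (3/4 : ℝ) ^ j := by
      rw [← mul_pow]
      norm_num
    have h11 : (5/3 : ℝ) ^ j = (5/4 : ℝ) ^ j * (4/3 : ℝ) ^ j := by
      rw [← mul_pow]
      norm_num
    rw [h10, h11, mul_assoc, ← mul_add]
    exact mul_le_mul_of_nonneg_left h4 (by positivity)
  calc (∑ j ∈ Finset.range m, ad B T j ω) ^ 2 ≤ _ := h1
    _ ≤ 5 * ∑ j ∈ Finset.range m, ((5:ℝ) / 4) ^ j * (ad B T j ω) ^ 2 :=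
        mul_le_mul_of_nonneg_right h2 (Finset.sum_nonneg fun _ _ => by positivity)
    _ ≤ 5 * ∑ j ∈ Finset.range m, ((15 / 16) ^ j + (5 / 3) ^ j * Qd B T j ω) :=
        mul_le_mul_of_nonneg_left (Finset.sum_le_sum fun j _ => h3 j) (by norm_num)
    _ = _ := by
        rw [Finset.mul_sum]
        rfl

theorem Qd_int (hB : BMF P F B) (T : ℝ) (hT : 0 ≤ T) (j : ℕ) :
    Integrable (Qd B T j) P ∧ ∫ ω, Qd B T j ω ∂P = 3 * T ^ 2 / 2 ^ j := by
  have hle : ∀ i : ℕ, 0 ≤ T * i / 2 ^ j ∧ T * i / 2 ^ j ≤ T * (i + 1) / 2 ^ j := by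
    intro i
    constructor
    · positivity
    · gcongr
      linarith
  have hi : ∀ i : ℕ, Integrable (fun ω =>
      (B (T * (i + 1) / 2 ^ j) ω - B (T * i / 2 ^ j) ω) ^ 4) P := by
    intro i
    have h1 := inc_int hB _ _ (hle i).1 (hle i).2 4
    refine h1.congr (Eventually.of_forall fun ω => ?_)
    exact Even.pow_abs (by decide) _
  constructor
  · exact integrable_finsetSum _ fun i _ => hi i
  · have h1 : ∫ ω, Qd B T j ω ∂P = ∑ i ∈ Finset.range (2 ^ j),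
        ∫ ω, (B (T * (i + 1) / 2 ^ j) ω - B (T * i / 2 ^ j) ω) ^ 4 ∂P :=
      integral_finsetSum _ fun i _ => hi i
    rw [h1]
    have h2 : ∀ i : ℕ, ∫ ω, (B (T * (i + 1) / 2 ^ j) ω - B (T * i / 2 ^ j) ω) ^ 4 ∂P
        = 3 * (T / 2 ^ j) ^ 2 := by
      intro i
      rw [(inc_mom hB _ _ (hle i).1 (hle i).2).2.2.2.2]
      congr 2
      ring
    rw [Finset.sum_congr rfl fun i _ => h2 i, Finset.sum_const, Finset.card_range, nsmul_eq_mul]
    push_cast
    field_simp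

theorem sup_b (hB : BMF P F B) (T : ℝ) (hT : 0 ≤ T) :
    ∃ S : Ω → ℝ, Measurable S ∧ MemLp S 2 P ∧ ∀ ω t, 0 ≤ t → t ≤ T → |B t ω| ≤ S ω := by
  rcases hT.eq_or_lt with hT0 | hTpos
  · refine ⟨fun _ => 0, measurable_const, MemLp.zero', ?_⟩
    intro ω t h0 h1
    have : t = 0 := le_antisymm (h1.trans hT0.symm.le) h0
    rw [this, hB.zero]
    simp
  set d : ℕ × ℕ → ℝ := fun p => T * ((min p.2 (2 ^ p.1) : ℕ) : ℝ) / 2 ^ p.1 with hd
  have hd0 : ∀ p, 0 ≤ d p := by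
    intro p
    simp only [hd]
    positivity
  have hdT : ∀ p, d p ≤ T := by
    intro p
    simp only [hd]
    rw [div_le_iff₀ (by positivity)]
    apply mul_le_mul_of_nonneg_left _ hT
    have : min p.2 (2 ^ p.1) ≤ 2 ^ p.1 := min_le_right _ _
    exact_mod_cast this
  have hbdd : ∀ ω, BddAbove (range fun p => |B (d p) ω|) := by
    intro ω
    obtain ⟨C, hC⟩ := (isCompact_Icc (a := (0:ℝ)) (b := T)).exists_bound_of_continuousOn
      (hB.cont ω).continuousOn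
    refine ⟨C, ?_⟩
    rintro _ ⟨p, rfl⟩
    exact hC (d p) ⟨hd0 p, hdT p⟩
  set S : Ω → ℝ := fun ω => ⨆ p, |B (d p) ω| with hS
  have hSm : Measurable S := by
    refine Measurable.iSup fun p => ?_
    exact ((hB.adap _ (hd0 p)).mono (hB.le _) le_rfl).abs
  have hS0 : ∀ ω, 0 ≤ S ω := fun ω => (abs_nonneg _).trans (le_ciSup (hbdd ω) (0, 0))
  have hbnd : ∀ ω t, 0 ≤ t → t ≤ T → |B t ω| ≤ S ω := by
    intro ω t h0 h1
    -- approximating dyadic points
    let x : ℕ → ℝ := fun m => d (m, ⌊t * 2 ^ m / T⌋₊)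
    have hfl : ∀ m : ℕ, ⌊t * 2 ^ m / T⌋₊ ≤ 2 ^ m := by
      intro m
      have h2 : t * 2 ^ m / T ≤ ((2 ^ m : ℕ) : ℝ) := by
        rw [div_le_iff₀ hTpos]
        push_cast
        nlinarith [pow_pos (two_pos : (0:ℝ) < 2) m]
      exact Nat.floor_le_of_le h2
    have hx : ∀ m, |x m - t| ≤ T * (1 / 2) ^ m := by
      intro m
      have hxm : x m = T * (⌊t * 2 ^ m / T⌋₊ : ℝ) / 2 ^ m := by
        simp only [x, hd]
        rw [min_eq_left (hfl m)]
      have hp : (0:ℝ) < 2 ^ m := by positivity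
      have h2 : (⌊t * 2 ^ m / T⌋₊ : ℝ) ≤ t * 2 ^ m / T := Nat.floor_le (by positivity)
      have h3 : t * 2 ^ m / T < (⌊t * 2 ^ m / T⌋₊ : ℝ) + 1 := Nat.lt_floor_add_one _
      have h4 : T * (⌊t * 2 ^ m / T⌋₊ : ℝ) / 2 ^ m ≤ t := by
        rw [div_le_iff₀ hp]
        rw [le_div_iff₀ hTpos] at h2
        linarith
      have h5 : t ≤ T * (⌊t * 2 ^ m / T⌋₊ : ℝ) / 2 ^ m + T * (1 / 2) ^ m := by
        rw [div_lt_iff₀ hTpos] at h3
        have h6 : T * (1 / 2 : ℝ) ^ m = T / 2 ^ m := by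
          rw [one_div, inv_pow]
          rfl
        rw [h6, ← add_div, le_div_iff₀ hp]
        linarith
      rw [hxm, abs_le]
      constructor <;> linarith [mul_nonneg hT (by positivity : (0:ℝ) ≤ (1/2 : ℝ) ^ m)]
    have hlim : Tendsto x atTop (𝓝 t) := by
      rw [tendsto_iff_dist_tendsto_zero]
      have h2 : Tendsto (fun m : ℕ => T * (1 / 2 : ℝ) ^ m) atTop (𝓝 0) := by
        have := (tendsto_pow_atTop_nhds_zero_of_lt_one (r := (1/2 : ℝ)) (by norm_num)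
          (by norm_num)).const_mul T
        simpa using this
      exact squeeze_zero (fun _ => dist_nonneg) (fun m => by rw [Real.dist_eq]; exact hx m) h2
    have hlim2 : Tendsto (fun m => |B (x m) ω|) atTop (𝓝 |B t ω|) :=
      (((hB.cont ω).tendsto t).comp hlim).abs
    exact le_of_tendsto' hlim2 fun m => le_ciSup (hbdd ω) _
  refine ⟨S, hSm, ?_, hbnd⟩
  rw [memLp_two_iff_integrable_sq hSm.aestronglyMeasurable]
  refine ⟨(hSm.pow_const 2).aestronglyMeasurable, ?_⟩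
  rw [hasFiniteIntegral_iff_ofReal (Eventually.of_forall fun ω => sq_nonneg _)]
  have hpt : ∀ ω, ENNReal.ofReal (S ω ^ 2) ≤ ∑' j, ENNReal.ofReal (gd B T j ω) := by
    intro ω
    by_cases hR : ∑' j, ENNReal.ofReal (gd B T j ω) = ⊤
    · rw [hR]
      exact le_top
    set r := (∑' j, ENNReal.ofReal (gd B T j ω)).toReal with hr
    have hr0 : 0 ≤ r := ENNReal.toReal_nonneg
    have hsum : ∀ m, ∑ j ∈ Finset.range m, gd B T j ω ≤ r := by
      intro m
      have h1 : ENNReal.ofReal (∑ j ∈ Finset.range m, gd B T j ω) ≤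
          ∑' j, ENNReal.ofReal (gd B T j ω) := by
        rw [ENNReal.ofReal_sum_of_nonneg fun j _ => gd_nonneg B T j ω]
        exact ENNReal.sum_le_tsum _
      exact (ENNReal.ofReal_le_iff_le_toReal hR).1 h1
    have hSle : S ω ≤ √r := by
      refine ciSup_le fun p => ?_
      refine Real.le_sqrt_of_sq_le ?_
      rw [sq_abs]
      have h1 := chain B T ω (hB.zero ω) p.1 (min p.2 (2 ^ p.1)) (min_le_right _ _)
      have h2 := sum_ad_sq B T (p.1 + 1) ω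
      calc B (d p) ω ^ 2 = |B (d p) ω| ^ 2 := (sq_abs _).symm
        _ ≤ (∑ j ∈ Finset.range (p.1 + 1), ad B T j ω) ^ 2 :=
            pow_le_pow_left₀ (abs_nonneg _) h1 2
        _ ≤ _ := h2
        _ ≤ r := hsum _
    have h3 : S ω ^ 2 ≤ r := by
      calc S ω ^ 2 ≤ (√r) ^ 2 := pow_le_pow_left₀ (hS0 ω) hSle 2
        _ = r := Real.sq_sqrt hr0
    calc ENNReal.ofReal (S ω ^ 2) ≤ ENNReal.ofReal r := ENNReal.ofReal_le_ofReal h3
      _ = _ := ENNReal.ofReal_toReal hR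
  have hgint : ∀ j, Integrable (gd B T j) P ∧
      ∫ ω, gd B T j ω ∂P = 5 * (15 / 16) ^ j + 15 * T ^ 2 * (5 / 6) ^ j := by
    intro j
    obtain ⟨h1, h2⟩ := Qd_int (P := P) hB T hT j
    have h3 : Integrable (fun ω => (15 / 16 : ℝ) ^ j + (5 / 3) ^ j * Qd B T j ω) P :=
      (integrable_const _).add (h1.const_mul _)
    refine ⟨h3.const_mul 5, ?_⟩
    have h4 : ∫ ω, gd B T j ω ∂P =
        5 * ∫ ω, ((15 / 16 : ℝ) ^ j + (5 / 3) ^ j * Qd B T j ω) ∂P := integral_const_mul _ _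
    rw [h4, integral_add (integrable_const _) (h1.const_mul _), integral_const_mul, h2,
      integral_const]
    simp only [probReal_univ, smul_eq_mul, one_mul]
    have h5 : (5/6 : ℝ) ^ j = (5/3 : ℝ) ^ j / 2 ^ j := by
      rw [← div_pow]
      norm_num
    rw [h5]
    ring
  have hgm : ∀ j, AEMeasurable (fun ω => ENNReal.ofReal (gd B T j ω)) P := fun j =>
    (hgint j).1.aemeasurable.ennreal_ofReal
  calc ∫⁻ ω, ENNReal.ofReal (S ω ^ 2) ∂P
      ≤ ∫⁻ ω, ∑' j, ENNReal.ofReal (gd B T j ω) ∂P := lintegral_mono hpt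
    _ = ∑' j, ∫⁻ ω, ENNReal.ofReal (gd B T j ω) ∂P := lintegral_tsum hgm
    _ = ∑' j, ENNReal.ofReal (5 * (15 / 16) ^ j + 15 * T ^ 2 * (5 / 6) ^ j) := by
        refine tsum_congr fun j => ?_
        rw [← (hgint j).2, ofReal_integral_eq_lintegral_ofReal (hgint j).1
          (Eventually.of_forall fun ω => gd_nonneg B T j ω)]
    _ < ⊤ := by
        have h1 : Summable fun j : ℕ => (5:ℝ) * (15 / 16) ^ j + 15 * T ^ 2 * (5 / 6) ^ j :=
          ((summable_geometric_of_lt_one (by norm_num) (by norm_num)).mul_left _).add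
            ((summable_geometric_of_lt_one (by norm_num) (by norm_num)).mul_left _)
        exact lt_top_iff_ne_top.2 h1.tsum_ofReal_ne_top

end base

end Pool.Agent.Helper41.SK
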