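import Pool.Agent.Helper41.SK.Defs
import Pool.Agent.Helper41.SK.MainDefs
import Pool.Agent.Helper41.SK.SA02
import Pool.Agent.Helper41.SK.SA03

set_option autoImplicit false

open scoped ENNReal NNReal Topology
open MeasureTheory ProbabilityTheory Set Filter

namespace Pool.Agent.Helper41.SK


/-! ## TARGETS: prove these (statements must not be changed; helper lemmas are welcome) -/

section base

variable {Ω : Type*} [mΩ : MeasurableSpace Ω] {P : Measure Ω} [IsProbabilityMeasure P]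
  {F : ℝ → MeasurableSpace Ω} {B : ℝ → Ω → ℝ}

theorem mod_b (hB : BMF P F B) (T : ℝ) (hT : 0 < T) :
    ∃ W : ℕ → Ω → ℝ, (∀ n, Measurable (W n)) ∧ (∀ n ω, 0 ≤ W n ω) ∧
      (∀ n : ℕ, 0 < n → ∀ ω s t, 0 ≤ s → s ≤ T → 0 ≤ t → t ≤ T → |s - t| ≤ T / n →
        |B s ω - B t ω| ≤ W n ω) ∧
      (∀ ω, Tendsto (fun n => W n ω) atTop (𝓝 0)) ∧
      (∀ n, MemLp (W n) 2 P) ∧ Tendsto (fun n => ∫ ω, (W n ω) ^ 2 ∂P) atTop (𝓝 0) := by
  obtain ⟨S, hSm, hSL, hS⟩ := sup_b hB T hT.le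
  obtain ⟨W, hWm, hW0, hWb, hWt, hWS⟩ := mod_gen B (fun t ht => (hB.adap t ht).mono (hB.le t) le_rfl)
    hB.cont T hT
  have hb : ∀ n ω, W n ω ≤ 2 * S ω := hWS S (fun ω t h0 h1 => hS ω t h0 h1)
  have h2S : MemLp (fun ω => 2 * S ω) 2 P := hSL.const_mul 2
  have hWL : ∀ n, MemLp (W n) 2 P := by
    intro n
    refine h2S.mono (hWm n).aestronglyMeasurable (Filter.Eventually.of_forall fun ω => ?_)
    rw [Real.norm_eq_abs, Real.norm_eq_abs, abs_of_nonneg (hW0 n ω)]
    exact (hb n ω).trans (le_abs_self _)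
  refine ⟨W, hWm, hW0, hWb, hWt, hWL, ?_⟩
  have hlim : Tendsto (fun n => ∫ ω, (W n ω) ^ 2 ∂P) atTop (𝓝 (∫ _ω, (0:ℝ) ∂P)) := by
    refine tendsto_integral_of_dominated_convergence (fun ω => (2 * S ω) ^ 2) ?_ ?_ ?_ ?_
    · intro n
      exact ((hWm n).pow_const 2).aestronglyMeasurable
    · exact h2S.integrable_sq
    · intro n
      refine Filter.Eventually.of_forall fun ω => ?_
      rw [Real.norm_eq_abs, abs_of_nonneg (sq_nonneg _)]
      exact pow_le_pow_left₀ (hW0 n ω) (hb n ω) 2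
    · refine Filter.Eventually.of_forall fun ω => ?_
      have := (hWt ω).pow 2
      rw [zero_pow two_ne_zero] at this
      exact this
  rw [integral_zero] at hlim
  exact hlim

end base

end Pool.Agent.Helper41.SK
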