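import Pool.Agent.Helper41.SK.Defs
import Pool.Agent.Helper41.SK.MainDefs
import Pool.Agent.Helper41.SK.SA01

set_option autoImplicit false

open scoped ENNReal NNReal Topology
open MeasureTheory ProbabilityTheory Set Filter

namespace Pool.Agent.Helper41.SK


/-! ## TARGETS: prove these (statements must not be changed; helper lemmas are welcome) -/

section base

variable {Ω : Type*} [mΩ : MeasurableSpace Ω] {P : Measure Ω} [IsProbabilityMeasure P]
  {F : ℝ → MeasurableSpace Ω} {B : ℝ → Ω → ℝ}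

theorem sum66_prod0 (Y Z : Ω → ℝ) (hY : Measurable Y) (hZ : Measurable Z)
    (h : IndepFun Y Z P) :
    ∫ ω, Z ω * Y ω ∂P = (∫ ω, Z ω ∂P) * ∫ ω, Y ω ∂P :=
  h.symm.integral_fun_mul_eq_mul_integral hZ.aestronglyMeasurable hY.aestronglyMeasurable

theorem sum66_prod (m : MeasurableSpace Ω) (hm : m ≤ mΩ) (Y Z : Ω → ℝ)
    (hY : Measurable[mΩ] Y) (hZ : Measurable[m] Z)
    (hind : Indep (MeasurableSpace.comap Y inferInstance) m P) :
    ∫ ω, Z ω * Y ω ∂P = (∫ ω, Z ω ∂P) * ∫ ω, Y ω ∂P := by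
  have h1 : IndepFun Y Z P := by
    rw [IndepFun_iff_Indep]
    exact indep_of_indep_of_le_right hind hZ.comap_le
  have hZ' : Measurable[mΩ] Z := hZ.mono hm le_rfl
  exact sum66_prod0 (mΩ := mΩ) (P := P) Y Z hY hZ' h1

theorem sum66_main (m : ℕ → MeasurableSpace Ω) (hm : ∀ i, m i ≤ mΩ) (hmono : Monotone m)
    (Y : ℕ → Ω → ℝ) (n : ℕ) (hYad : ∀ i, i < n → Measurable[m (i + 1)] (Y i))
    (hind : ∀ i, i < n → Indep (MeasurableSpace.comap (Y i) inferInstance) (m i) P)
    (hY2 : ∀ i, i < n → MemLp (Y i) 2 P) (hY0 : ∀ i, i < n → ∫ ω, Y i ω ∂P = 0)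
    (c : ℕ → Ω → ℝ) (C : ℝ) (hc : ∀ i, i < n → Measurable[m i] (c i))
    (hb : ∀ i, i < n → ∀ ω, |c i ω| ≤ C) (j : ℕ) (hj : j ≤ n) :
    Measurable[m j] (fun ω => ∑ i ∈ Finset.range j, c i ω * Y i ω) ∧
    MemLp (fun ω => ∑ i ∈ Finset.range j, c i ω * Y i ω) 2 P ∧
    ∫ ω, (∑ i ∈ Finset.range j, c i ω * Y i ω) ^ 2 ∂P =
      ∑ i ∈ Finset.range j, (∫ ω, (c i ω) ^ 2 ∂P) * (∫ ω, (Y i ω) ^ 2 ∂P) ∧
    ∀ G, MeasurableSet[m 0] G → ∫ ω in G, (∑ i ∈ Finset.range j, c i ω * Y i ω) ∂P = 0 := by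
  induction j with
  | zero =>
    refine ⟨?_, ?_, ?_, ?_⟩
    · simp only [Finset.range_zero, Finset.sum_empty]
      exact measurable_const
    · simp
    · simp
    · intro G hG
      simp
  | succ j ih =>
    have hjn : j < n := hj
    obtain ⟨ih1, ih2, ih3, ih4⟩ := ih hjn.le
    have hcj := hc j hjn
    have hYj := hYad j hjn
    have hcj' : Measurable (c j) := hcj.mono (hm j) le_rfl
    have hYj' : Measurable (Y j) := hYj.mono (hm (j + 1)) le_rfl
    have hmle : m j ≤ m (j + 1) := hmono (Nat.le_succ j)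
    have hcY : MemLp (fun ω => c j ω * Y j ω) 2 P := by
      refine MemLp.of_le_mul (hY2 j hjn) (hcj'.mul hYj').aestronglyMeasurable
        (c := C) (Eventually.of_forall fun ω => ?_)
      rw [norm_mul]
      exact mul_le_mul_of_nonneg_right (hb j hjn ω) (norm_nonneg _)
    have hSY : Integrable (fun ω => (∑ i ∈ Finset.range j, c i ω * Y i ω) * (c j ω * Y j ω)) P :=
      ih2.integrable_mul hcY
    have hS2 : Integrable (fun ω => (∑ i ∈ Finset.range j, c i ω * Y i ω) ^ 2) P :=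
      ih2.integrable_sq
    have hcY2 : Integrable (fun ω => (c j ω * Y j ω) ^ 2) P := hcY.integrable_sq
    refine ⟨?_, ?_, ?_, ?_⟩
    · simp only [Finset.sum_range_succ]
      exact (ih1.mono hmle le_rfl).add ((hcj.mono hmle le_rfl).mul hYj)
    · simp only [Finset.sum_range_succ]
      exact ih2.add hcY
    · simp only [Finset.sum_range_succ]
      rw [← ih3]
      have e1 : ∀ ω, (∑ i ∈ Finset.range j, c i ω * Y i ω + c j ω * Y j ω) ^ 2
          = (∑ i ∈ Finset.range j, c i ω * Y i ω) ^ 2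
            + (2 * ((∑ i ∈ Finset.range j, c i ω * Y i ω) * (c j ω * Y j ω))
              + (c j ω * Y j ω) ^ 2) := by
        intro ω; ring
      simp_rw [e1]
      have hadd1 : Integrable (fun ω => 2 * ((∑ i ∈ Finset.range j, c i ω * Y i ω)
          * (c j ω * Y j ω))) P := hSY.const_mul 2
      have hadd2 : Integrable (fun ω => 2 * ((∑ i ∈ Finset.range j, c i ω * Y i ω)
          * (c j ω * Y j ω)) + (c j ω * Y j ω) ^ 2) P := hadd1.add hcY2
      rw [integral_add hS2 hadd2, integral_add hadd1 hcY2, integral_const_mul]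
      have e2 : ∫ ω, (∑ i ∈ Finset.range j, c i ω * Y i ω) * (c j ω * Y j ω) ∂P = 0 := by
        have h := sum66_prod (P := P) (m j) (hm j) (Y j)
          (fun ω => (∑ i ∈ Finset.range j, c i ω * Y i ω) * c j ω) hYj' (ih1.mul hcj)
          (hind j hjn)
        rw [hY0 j hjn, mul_zero] at h
        rw [← h]
        congr 1
        funext ω
        ring
      have e3 : ∫ ω, (c j ω * Y j ω) ^ 2 ∂P
          = (∫ ω, (c j ω) ^ 2 ∂P) * ∫ ω, (Y j ω) ^ 2 ∂P := by
        have hind2 : Indep (MeasurableSpace.comap (fun ω => (Y j ω) ^ 2) inferInstance) (m j) P := by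
          refine indep_of_indep_of_le_left (hind j hjn) ?_
          have : Measurable[MeasurableSpace.comap (Y j) inferInstance] (fun ω => (Y j ω) ^ 2) :=
            (comap_measurable (Y j)).pow_const 2
          exact this.comap_le
        have h := sum66_prod (P := P) (m j) (hm j) (fun ω => (Y j ω) ^ 2)
          (fun ω => (c j ω) ^ 2) (hYj'.pow_const 2) (hcj.pow_const 2) hind2
        rw [← h]
        congr 1
        funext ω
        ring
      rw [e2, e3]
      ring
    · intro G hG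
      simp only [Finset.sum_range_succ]
      have hG' : MeasurableSet G := hm 0 G hG
      have hi1 : Integrable (fun ω => ∑ i ∈ Finset.range j, c i ω * Y i ω) P :=
        ih2.integrable one_le_two
      have hi2 : Integrable (fun ω => c j ω * Y j ω) P := hcY.integrable one_le_two
      rw [integral_add hi1.integrableOn hi2.integrableOn, ih4 G hG, zero_add,
        ← integral_indicator hG']
      have hGj : MeasurableSet[m j] G := hmono (Nat.zero_le j) G hG
      have h := sum66_prod (P := P) (m j) (hm j) (Y j) (G.indicator (c j)) hYj'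
        (hcj.indicator hGj) (hind j hjn)
      rw [hY0 j hjn, mul_zero] at h
      rw [← h]
      congr 1
      funext ω
      by_cases hω : ω ∈ G
      · simp [hω]
      · simp [hω]

theorem sum66_inc_meas (hB : BMF P F B) (s t : ℝ) (hs : 0 ≤ s) (hst : s ≤ t) :
    Measurable[F t] (fun ω => B t ω - B s ω) :=
  (hB.adap t (hs.trans hst)).sub ((hB.adap s hs).mono (hB.mono hst) le_rfl)

theorem iso_sum (hB : BMF P F B) (a b : ℝ) (ha : 0 ≤ a) (hab : a ≤ b) (n : ℕ) (hn : 0 < n)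
    (c : ℕ → Ω → ℝ) (C : ℝ) (hc : ∀ i, i < n → Measurable[F (gp a b n i)] (c i))
    (hb : ∀ i, i < n → ∀ ω, |c i ω| ≤ C) (j : ℕ) (hj : j ≤ n) :
    MemLp (fun ω => ∑ i ∈ Finset.range j,
      c i ω * (B (gp a b n (i + 1)) ω - B (gp a b n i) ω)) 2 P ∧
    ∫ ω, (∑ i ∈ Finset.range j,
      c i ω * (B (gp a b n (i + 1)) ω - B (gp a b n i) ω)) ^ 2 ∂P =
      ∑ i ∈ Finset.range j, (∫ ω, (c i ω) ^ 2 ∂P) * ((b - a) / n) ∧
    ∀ G, MeasurableSet[F a] G → ∫ ω in G, (∑ i ∈ Finset.range j,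
      c i ω * (B (gp a b n (i + 1)) ω - B (gp a b n i) ω)) ∂P = 0 := by
  obtain ⟨g0, -, g2, g3, g4, -, g6⟩ := gp_facts a b hab n hn
  have hpos : ∀ i, 0 ≤ gp a b n i := fun i => ha.trans (g4 i)
  have hmeas : ∀ i, Measurable (fun ω => B (gp a b n (i + 1)) ω - B (gp a b n i) ω) := fun i =>
    (sum66_inc_meas hB _ _ (hpos i) (g2 i)).mono (hB.le _) le_rfl
  have main := sum66_main (P := P) (fun i => F (gp a b n i)) (fun i => hB.le _)
    (fun i k hik => hB.mono (g6 hik))
    (fun i ω => B (gp a b n (i + 1)) ω - B (gp a b n i) ω) n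
    (fun i _ => sum66_inc_meas hB _ _ (hpos i) (g2 i))
    (fun i _ => hB.indep _ _ (hpos i) (g2 i))
    (fun i _ => (memLp_two_iff_integrable_sq (hmeas i).aestronglyMeasurable).2 (by
      have := inc_int hB _ _ (hpos i) (g2 i) 2
      simpa [sq_abs] using this))
    (fun i _ => (inc_mom hB _ _ (hpos i) (g2 i)).1) c C hc hb j hj
  obtain ⟨-, m2, m3, m4⟩ := main
  refine ⟨m2, ?_, ?_⟩
  · rw [m3]
    refine Finset.sum_congr rfl fun i _ => ?_
    rw [(inc_mom hB _ _ (hpos i) (g2 i)).2.1, g3]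
  · intro G hG
    apply m4
    show MeasurableSet[F (gp a b n 0)] G
    rw [g0]
    exact hG

theorem quad_sum (hB : BMF P F B) (a b : ℝ) (ha : 0 ≤ a) (hab : a ≤ b) (n : ℕ) (hn : 0 < n)
    (c : ℕ → Ω → ℝ) (C : ℝ) (hc : ∀ i, i < n → Measurable[F (gp a b n i)] (c i))
    (hb : ∀ i, i < n → ∀ ω, |c i ω| ≤ C) (j : ℕ) (hj : j ≤ n) :
    MemLp (fun ω => ∑ i ∈ Finset.range j,
      c i ω * ((B (gp a b n (i + 1)) ω - B (gp a b n i) ω) ^ 2 - (b - a) / n)) 2 P ∧
    ∫ ω, (∑ i ∈ Finset.range j,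
      c i ω * ((B (gp a b n (i + 1)) ω - B (gp a b n i) ω) ^ 2 - (b - a) / n)) ^ 2 ∂P ≤
      C ^ 2 * (2 * (b - a) ^ 2 / n) := by
  obtain ⟨g0, -, g2, g3, g4, -, g6⟩ := gp_facts a b hab n hn
  have hpos : ∀ i, 0 ≤ gp a b n i := fun i => ha.trans (g4 i)
  have hmeas : ∀ i, Measurable (fun ω => B (gp a b n (i + 1)) ω - B (gp a b n i) ω) := fun i =>
    (sum66_inc_meas hB _ _ (hpos i) (g2 i)).mono (hB.le _) le_rfl
  have hi2 : ∀ i, Integrable (fun ω => (B (gp a b n (i + 1)) ω - B (gp a b n i) ω) ^ 2) P := by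
    intro i
    have := inc_int hB _ _ (hpos i) (g2 i) 2
    simpa [sq_abs] using this
  have hi4 : ∀ i, Integrable (fun ω => (B (gp a b n (i + 1)) ω - B (gp a b n i) ω) ^ 4) P := by
    intro i
    have := inc_int hB _ _ (hpos i) (g2 i) 4
    refine this.congr (Eventually.of_forall fun ω => ?_)
    exact Even.pow_abs (by decide) _
  have e1 : ∀ i ω, ((B (gp a b n (i + 1)) ω - B (gp a b n i) ω) ^ 2 - (b - a) / n) ^ 2
      = (B (gp a b n (i + 1)) ω - B (gp a b n i) ω) ^ 4
        - (2 * ((b - a) / n)) * (B (gp a b n (i + 1)) ω - B (gp a b n i) ω) ^ 2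
        + ((b - a) / n) ^ 2 := by
    intro i ω; ring
  have hiQ : ∀ i, Integrable (fun ω =>
      ((B (gp a b n (i + 1)) ω - B (gp a b n i) ω) ^ 2 - (b - a) / n) ^ 2) P := by
    intro i
    simp_rw [e1]
    exact ((hi4 i).sub ((hi2 i).const_mul _)).add (integrable_const _)
  have hQ2 : ∀ i, ∫ ω, ((B (gp a b n (i + 1)) ω - B (gp a b n i) ω) ^ 2 - (b - a) / n) ^ 2 ∂P
      = 2 * ((b - a) / n) ^ 2 := by
    intro i
    have h4 := (inc_mom hB _ _ (hpos i) (g2 i)).2.2.2.2
    have h2 := (inc_mom hB _ _ (hpos i) (g2 i)).2.1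
    rw [g3] at h4 h2
    simp_rw [e1]
    have a1 : Integrable (fun ω => (2 * ((b - a) / n)) *
        (B (gp a b n (i + 1)) ω - B (gp a b n i) ω) ^ 2) P := (hi2 i).const_mul _
    have a2 : Integrable (fun ω => (B (gp a b n (i + 1)) ω - B (gp a b n i) ω) ^ 4
        - (2 * ((b - a) / n)) * (B (gp a b n (i + 1)) ω - B (gp a b n i) ω) ^ 2) P :=
      (hi4 i).sub a1
    rw [integral_add a2 (integrable_const _), integral_sub (hi4 i) a1, integral_const_mul,
      h4, h2]
    simp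
    ring
  have main := sum66_main (P := P) (fun i => F (gp a b n i)) (fun i => hB.le _)
    (fun i k hik => hB.mono (g6 hik))
    (fun i ω => (B (gp a b n (i + 1)) ω - B (gp a b n i) ω) ^ 2 - (b - a) / n) n
    (fun i _ => ((sum66_inc_meas hB _ _ (hpos i) (g2 i)).pow_const 2).sub_const _)
    (fun i _ => by
      refine indep_of_indep_of_le_left (hB.indep _ _ (hpos i) (g2 i)) ?_
      have : Measurable[MeasurableSpace.comap
          (fun ω => B (gp a b n (i + 1)) ω - B (gp a b n i) ω) inferInstance]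
          (fun ω => (B (gp a b n (i + 1)) ω - B (gp a b n i) ω) ^ 2 - (b - a) / n) :=
        ((comap_measurable _).pow_const 2).sub_const _
      exact this.comap_le)
    (fun i _ => (memLp_two_iff_integrable_sq
      (((hmeas i).pow_const 2).sub_const _).aestronglyMeasurable).2 (hiQ i))
    (fun i _ => by
      show ∫ ω, ((B (gp a b n (i + 1)) ω - B (gp a b n i) ω) ^ 2 - (b - a) / n) ∂P = 0
      rw [integral_sub (hi2 i) (integrable_const _), (inc_mom hB _ _ (hpos i) (g2 i)).2.1, g3]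
      simp) c C hc hb j hj
  obtain ⟨-, m2, m3, -⟩ := main
  refine ⟨m2, ?_⟩
  rw [m3]
  have hC : 0 ≤ C := by
    haveI : Nonempty Ω := nonempty_of_isProbabilityMeasure P
    exact (abs_nonneg _).trans (hb 0 hn (Classical.arbitrary Ω))
  have hterm : ∀ i ∈ Finset.range j, (∫ ω, (c i ω) ^ 2 ∂P) *
      (∫ ω, ((B (gp a b n (i + 1)) ω - B (gp a b n i) ω) ^ 2 - (b - a) / n) ^ 2 ∂P)
      ≤ C ^ 2 * (2 * ((b - a) / n) ^ 2) := by
    intro i hi
    have hin : i < n := (Finset.mem_range.1 hi).trans_le hj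
    rw [hQ2]
    refine mul_le_mul_of_nonneg_right ?_ (by positivity)
    have hci : Measurable (c i) := (hc i hin).mono (hB.le _) le_rfl
    have h1 : ∀ ω, (c i ω) ^ 2 ≤ C ^ 2 := by
      intro ω
      rw [← sq_abs]
      exact pow_le_pow_left₀ (abs_nonneg _) (hb i hin ω) 2
    have h2 : ∫ ω, (c i ω) ^ 2 ∂P ≤ ∫ _, C ^ 2 ∂P := by
      refine integral_mono_of_nonneg (Eventually.of_forall fun ω => sq_nonneg _)
        (integrable_const _) (Eventually.of_forall h1)
    simpa using h2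
  refine (Finset.sum_le_sum hterm).trans ?_
  rw [Finset.sum_const, Finset.card_range, nsmul_eq_mul]
  have hn' : (0 : ℝ) < n := by exact_mod_cast hn
  have hjn : (j : ℝ) ≤ n := by exact_mod_cast hj
  have h1 : C ^ 2 * (2 * (b - a) ^ 2 / n) = n * (C ^ 2 * (2 * ((b - a) / n) ^ 2)) := by
    field_simp
  rw [h1]
  exact mul_le_mul_of_nonneg_right hjn (by positivity)

end base

end Pool.Agent.Helper41.SK
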