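import Pool.Agent.Helper41.SK.Defs
import Pool.Agent.Helper41.SK.MainDefs
import Pool.Agent.Helper41.SK.SA01
import Pool.Agent.Helper41.SK.SA03
import Pool.Agent.Helper41.SK.SA04
import Pool.Agent.Helper41.SK.SA05

set_option autoImplicit false

open scoped ENNReal NNReal Topology
open MeasureTheory ProbabilityTheory Set Filter

namespace Pool.Agent.Helper41.SK


/-! ## TARGETS: prove these (statements must not be changed; helper lemmas are welcome) -/

section det
variable {f f1 f2 : ℝ → ℝ} {C : ℝ}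

theorem TF.C0 (hf : TF f f1 f2 C) : 0 ≤ C := (abs_nonneg _).trans (hf.b1 0)

theorem TF.c2 (hf : TF f f1 f2 C) : Continuous f2 := by
  have : LipschitzWith (Real.toNNReal C) f2 := by
    apply LipschitzWith.of_dist_le_mul
    intro x y
    rw [Real.coe_toNNReal _ hf.C0, Real.dist_eq, Real.dist_eq]
    exact hf.lip x y
  exact this.continuous

theorem TF.c1 (hf : TF f f1 f2 C) : Continuous f1 :=
  continuous_iff_continuousAt.mpr fun x => (hf.h2 x).continuousAt

theorem TF.c0 (hf : TF f f1 f2 C) : Continuous f :=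
  continuous_iff_continuousAt.mpr fun x => (hf.h1 x).continuousAt

theorem mvt {g g' : ℝ → ℝ} (h : ∀ x, HasDerivAt g (g' x) x) {K : ℝ} {s : Set ℝ}
    (hs : Convex ℝ s) (hb : ∀ x ∈ s, |g' x| ≤ K) {x y : ℝ} (hx : x ∈ s) (hy : y ∈ s) :
    |g y - g x| ≤ K * |y - x| :=
  Convex.norm_image_sub_le_of_norm_hasDerivWithin_le (fun z _ => (h z).hasDerivWithinAt)
    hb hs hx hy

theorem TF.f1_bd (hf : TF f f1 f2 C) (x : ℝ) : |f1 x| ≤ C * |x| := by
  have := mvt hf.h2 convex_univ (fun z _ => hf.b2 z) (mem_univ 0) (mem_univ x)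
  simpa [hf.z] using this

theorem TF.f_lip (hf : TF f f1 f2 C) (x y : ℝ) : |f x - f y| ≤ C * |x - y| :=
  mvt hf.h1 convex_univ (fun z _ => hf.b1 z) (mem_univ y) (mem_univ x)

theorem TF.f_near (hf : TF f f1 f2 C) {m x y : ℝ} (hx : |x| ≤ m) (hy : |y| ≤ m) :
    |f x - f y| ≤ C * min 1 m * |x - y| := by
  refine mvt (s := Icc (-m) m) hf.h1 (convex_Icc _ _) (fun z hz => ?_) (abs_le.mp hy)
    (abs_le.mp hx)
  have hz' : |z| ≤ m := abs_le.mpr hz
  have h1 := hf.b1 z
  have h2 := hf.f1_bd z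
  rcases le_total 1 m with h | h
  · rw [min_eq_left h]; linarith
  · rw [min_eq_right h]
    exact h2.trans (mul_le_mul_of_nonneg_left hz' hf.C0)

theorem TF.taylor (hf : TF f f1 f2 C) (x h : ℝ) :
    |f (x + h) - f x - f1 x * h - f2 x / 2 * h ^ 2| ≤ C * |h| ^ 3 := by
  have key : ∀ s ∈ Icc (-|h|) |h|, |f1 (x + s) - f1 x - f2 x * s| ≤ C * |h| ^ 2 := by
    intro s hs
    have h1 : ∀ t, HasDerivAt (fun t => f1 (x + t) - f2 x * t) (f2 (x + t) - f2 x) t := by
      intro t
      have h2 := (hf.h2 (x + t)).comp_const_add x t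
      have h3 := (hasDerivAt_id t).const_mul (f2 x)
      exact (h2.sub h3).congr_deriv (by simp)
    have h4 := mvt h1 (convex_Icc (-|h|) |h|) (K := C * |h|) (fun t ht => by
      have h5 := hf.lip (x + t) x
      rw [add_sub_cancel_left] at h5
      exact h5.trans (mul_le_mul_of_nonneg_left (abs_le.mpr ht) hf.C0))
      (show (0 : ℝ) ∈ Icc (-|h|) |h| from ⟨by simp, by simp⟩) hs
    simp only [add_zero, mul_zero, sub_zero] at h4
    have h6 : f1 (x + s) - f1 x - f2 x * s = f1 (x + s) - f2 x * s - f1 x := by ring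
    rw [h6]
    refine h4.trans ?_
    have h7 : |s| ≤ |h| := abs_le.mpr hs
    calc C * |h| * |s| ≤ C * |h| * |h| :=
          mul_le_mul_of_nonneg_left h7 (mul_nonneg hf.C0 (abs_nonneg _))
      _ = C * |h| ^ 2 := by ring
  have h1 : ∀ t, HasDerivAt (fun t => f (x + t) - f1 x * t - f2 x / 2 * t ^ 2)
      (f1 (x + t) - f1 x - f2 x * t) t := by
    intro t
    have h2 := (hf.h1 (x + t)).comp_const_add x t
    have h3 := (hasDerivAt_id t).const_mul (f1 x)
    have h4 := ((hasDerivAt_id t).pow 2).const_mul (f2 x / 2)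
    refine ((h2.sub h3).sub h4).congr_deriv ?_
    simp
    ring
  have h5 := mvt h1 (convex_Icc (-|h|) |h|) (K := C * |h| ^ 2) key
    (show (0 : ℝ) ∈ Icc (-|h|) |h| from ⟨by simp, by simp⟩)
    (show h ∈ Icc (-|h|) |h| from ⟨neg_abs_le h, le_abs_self h⟩)
  simp only [add_zero, mul_zero, sub_zero, ne_eq, OfNat.ofNat_ne_zero, not_false_eq_true,
    zero_pow] at h5
  have h6 : f (x + h) - f x - f1 x * h - f2 x / 2 * h ^ 2 =
    f (x + h) - f1 x * h - f2 x / 2 * h ^ 2 - f x := by ring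
  rw [h6]
  refine h5.trans (le_of_eq ?_)
  ring

theorem TF.f2_near (hf : TF f f1 f2 C) {m x y : ℝ} (h : |x - y| ≤ m) :
    |f2 x - f2 y| ≤ 2 * C * min 1 m := by
  have h1 : |f2 x - f2 y| ≤ 2 * C := by
    have := abs_sub (f2 x) (f2 y)
    have := hf.b2 x
    have := hf.b2 y
    linarith
  have h2 := hf.lip x y
  have h3 := mul_le_mul_of_nonneg_left h hf.C0
  have h4 : 0 ≤ C * m := (mul_nonneg hf.C0 (abs_nonneg _)).trans h3
  rcases le_total 1 m with h' | h'
  · rw [min_eq_left h']; linarith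
  · rw [min_eq_right h']; linarith

/-- assumptions on one path -/
structure PathH (x v jj : ℝ → ℝ) (T R : ℝ) (d W W' : ℝ) : Prop where
  xc : Continuous x
  vc : Continuous v
  R0 : 0 ≤ R
  RT : R ≤ T
  dom : ∀ s t, 0 ≤ s → s ≤ t → |v t - v s| ≤ jj t - jj s
  stop : ∀ t, R ≤ t → v t = v R
  flat : ∀ s t, 0 ≤ s → s ≤ t → t ≤ R → (∀ r ∈ Icc s t, x r + v r ≠ 0) → v s = v t
  W0 : 0 ≤ W
  W0' : 0 ≤ W'
  mW : ∀ s t, 0 ≤ s → s ≤ T → 0 ≤ t → t ≤ T → |s - t| ≤ d → |x s - x t| ≤ W
  mW' : ∀ s t, 0 ≤ s → s ≤ T → 0 ≤ t → t ≤ T → |s - t| ≤ d → |jj s - jj t| ≤ W'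

variable {x v jj : ℝ → ℝ} {T R d W W' : ℝ}

theorem PathH.mono (h : PathH x v jj T R d W W') {s t : ℝ} (hs : 0 ≤ s) (hst : s ≤ t) :
    jj s ≤ jj t := by
  have := h.dom s t hs hst
  have := abs_nonneg (v t - v s)
  linarith

theorem PathH.dv (h : PathH x v jj T R d W W') {s t : ℝ} (hs : 0 ≤ s) (hst : s ≤ t) (ht : t ≤ T)
    (hd : t - s ≤ d) : |v t - v s| ≤ W' := by
  have h1 := h.dom s t hs hst
  have h2 := h.mW' t s (hs.trans hst) ht hs (hst.trans ht) (by
    rwa [abs_of_nonneg (by linarith)])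
  have h3 := le_abs_self (jj t - jj s)
  linarith

theorem cell (hf : TF f f1 f2 C) (h : PathH x v jj T R d W W') {p q : ℝ} (hp : 0 ≤ p)
    (hpq : p ≤ q) (hq : q ≤ T) (hd : q - p ≤ d) :
    |f (x (min q R) + v (min q R)) - f (x (min p R) + v (min p R))
      - (∫ s in (min p R)..(min q R), f2 (x s + v s)) / 2
      - (if p < R then f1 (x p + v p) * (x q - x p) else 0)
      - (if p < R then f2 (x p + v p) / 2 else 0) * ((x q - x p) ^ 2 - (q - p))| ≤
    (if p < R ∧ R < q then C * W + C * (q - p) / 2 else 0) + C * min 1 (W + W') * (jj q - jj p)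
      + C * min 1 (W + W') * (q - p) + C * |x q - x p| ^ 3 := by
  have hC := hf.C0
  have hM : 0 ≤ min 1 (W + W') := le_min zero_le_one (add_nonneg h.W0 h.W0')
  have hJ : 0 ≤ jj q - jj p := sub_nonneg.mpr (h.mono hp hpq)
  have hqp : 0 ≤ q - p := sub_nonneg.mpr hpq
  have n1 : 0 ≤ C * min 1 (W + W') * (jj q - jj p) := mul_nonneg (mul_nonneg hC hM) hJ
  have n2 : 0 ≤ C * min 1 (W + W') * (q - p) := mul_nonneg (mul_nonneg hC hM) hqp
  have n3 : 0 ≤ C * |x q - x p| ^ 3 := mul_nonneg hC (by positivity)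
  have n4 : 0 ≤ C * W := mul_nonneg hC h.W0
  have n5 : 0 ≤ C * (q - p) / 2 := by positivity
  by_cases hpR : p < R
  swap
  · have hRp : R ≤ p := not_lt.mp hpR
    rw [min_eq_right hRp, min_eq_right (hRp.trans hpq), if_neg hpR, if_neg hpR,
      if_neg (fun hh => hpR hh.1)]
    simp only [sub_self, intervalIntegral.integral_same, zero_div, zero_mul, abs_zero]
    linarith
  rw [if_pos hpR, if_pos hpR, min_eq_left hpR.le]
  -- the stopping point
  have hτp : p ≤ min q R := le_min hpq hpR.le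
  have hτq : min q R ≤ q := min_le_left _ _
  have hτR : min q R ≤ R := min_le_right _ _
  have hvτ : v (min q R) = v q := by
    rcases le_total q R with h1 | h1
    · rw [min_eq_left h1]
    · rw [min_eq_right h1, h.stop q h1]
  set τ := min q R with hτ
  rw [hvτ]
  -- first
  have e1 : |f (x τ + v q) - f (x q + v q)| ≤ if p < R ∧ R < q then C * W else 0 := by
    by_cases hRq : R < q
    · rw [if_pos ⟨hpR, hRq⟩]
      have h1 := hf.f_lip (x τ + v q) (x q + v q)
      rw [add_sub_add_right_eq_sub] at h1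
      refine h1.trans (mul_le_mul_of_nonneg_left ?_ hC)
      refine h.mW τ q (hp.trans hτp) (hτq.trans hq) (hp.trans hpq) hq ?_
      rw [abs_sub_comm, abs_of_nonneg (by linarith)]
      linarith
    · rw [if_neg (fun hh => hRq hh.2)]
      have : τ = q := by rw [hτ]; exact min_eq_left (not_lt.mp hRq)
      rw [this]; simp
  -- second
  have e2 : |f (x q + v q) - f (x q + v p)| ≤ C * min 1 (W + W') * (jj q - jj p) := by
    by_cases hv : v p = v q
    · rw [hv, sub_self, abs_zero]; exact n1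
    · have hex : ∃ r ∈ Icc p τ, x r + v r = 0 := by
        by_contra hcon
        push Not at hcon
        apply hv
        rw [h.flat p τ hp hτp hτR hcon, hvτ]
      obtain ⟨r, ⟨hr1, hr2⟩, hr0⟩ := hex
      have hr0' : 0 ≤ r := hp.trans hr1
      have hrq : r ≤ q := hr2.trans hτq
      have a1 : |x q - x r| ≤ W := by
        refine h.mW q r (hp.trans hpq) hq hr0' (hrq.trans hq) ?_
        rw [abs_of_nonneg (by linarith)]
        linarith
      have a2 : |v q - v r| ≤ W' := h.dv hr0' hrq hq (by linarith)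
      have a3 : |v r - v p| ≤ W' := h.dv hp hr1 (hrq.trans hq) (by linarith)
      have b1 : |x q + v q| ≤ W + W' := by
        have : x q + v q = (x q - x r) + (v q - v r) := by linarith
        rw [this]
        exact (abs_add_le _ _).trans (add_le_add a1 a2)
      have b2 : |x q + v p| ≤ W + W' := by
        have : x q + v p = (x q - x r) + -(v r - v p) := by linarith
        rw [this]
        refine (abs_add_le _ _).trans (add_le_add a1 ?_)
        rw [abs_neg]; exact a3
      have h1 := hf.f_near b1 b2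
      rw [add_sub_add_left_eq_sub] at h1
      refine h1.trans (mul_le_mul_of_nonneg_left (h.dom p q hp hpq) (mul_nonneg hC hM))
  -- third
  have e3 : |f (x q + v p) - f (x p + v p) - f1 (x p + v p) * (x q - x p)
      - f2 (x p + v p) / 2 * (x q - x p) ^ 2| ≤ C * |x q - x p| ^ 3 := by
    have := hf.taylor (x p + v p) (x q - x p)
    have h1 : x p + v p + (x q - x p) = x q + v p := by ring
    rwa [h1] at this
  -- integral
  have hcont : Continuous fun s => f2 (x s + v s) := hf.c2.comp (h.xc.add h.vc)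
  have e4 : |f2 (x p + v p) / 2 * (q - p) - (∫ s in p..τ, f2 (x s + v s)) / 2| ≤
      C * min 1 (W + W') * (q - p) + if p < R ∧ R < q then C * (q - p) / 2 else 0 := by
    have h1 : |∫ s in p..τ, (f2 (x p + v p) - f2 (x s + v s))| ≤
        2 * C * min 1 (W + W') * |τ - p| := by
      rw [← Real.norm_eq_abs]
      apply intervalIntegral.norm_integral_le_of_norm_le_const
      intro s hs
      rw [uIoc_of_le hτp] at hs
      apply hf.f2_near
      have hs0 : 0 ≤ s := hp.trans hs.1.le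
      have hsT : s ≤ T := hs.2.trans (hτq.trans hq)
      have a1 : |x p - x s| ≤ W := by
        refine h.mW p s hp (hpq.trans hq) hs0 hsT ?_
        rw [abs_sub_comm, abs_of_nonneg (by linarith [hs.1])]
        linarith [hs.2]
      have a2 : |v s - v p| ≤ W' := h.dv hp hs.1.le hsT (by linarith [hs.2])
      have : x p + v p - (x s + v s) = (x p - x s) + -(v s - v p) := by ring
      rw [this]
      refine (abs_add_le _ _).trans (add_le_add a1 ?_)
      rw [abs_neg]; exact a2
    have h2 : (∫ s in p..τ, (f2 (x p + v p) - f2 (x s + v s))) =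
        (τ - p) * f2 (x p + v p) - ∫ s in p..τ, f2 (x s + v s) := by
      rw [intervalIntegral.integral_sub (by simp) (hcont.intervalIntegrable _ _)]
      simp
    rw [h2, abs_of_nonneg (sub_nonneg.mpr hτp)] at h1
    have h3 : f2 (x p + v p) / 2 * (q - p) - (∫ s in p..τ, f2 (x s + v s)) / 2 =
        ((τ - p) * f2 (x p + v p) - ∫ s in p..τ, f2 (x s + v s)) / 2 +
        f2 (x p + v p) * (q - τ) / 2 := by ring
    rw [h3]
    refine (abs_add_le _ _).trans (add_le_add ?_ ?_)
    · rw [abs_div, abs_two]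
      have h4 : 2 * C * min 1 (W + W') * (τ - p) ≤ 2 * C * min 1 (W + W') * (q - p) :=
        mul_le_mul_of_nonneg_left (by linarith) (by positivity)
      linarith
    · rw [abs_div, abs_two, abs_mul]
      by_cases hRq : R < q
      · rw [if_pos ⟨hpR, hRq⟩]
        have h5 : |q - τ| ≤ q - p := by
          rw [abs_of_nonneg (by linarith)]; linarith
        have h6 := mul_le_mul (hf.b2 (x p + v p)) h5 (abs_nonneg _) hC
        linarith
      · rw [if_neg (fun hh => hRq hh.2)]
        have : τ = q := by rw [hτ]; exact min_eq_left (not_lt.mp hRq)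
        rw [this]; simp
  have split : f (x τ + v q) - f (x p + v p) - (∫ s in p..τ, f2 (x s + v s)) / 2
      - f1 (x p + v p) * (x q - x p) - f2 (x p + v p) / 2 * ((x q - x p) ^ 2 - (q - p)) =
      (f (x τ + v q) - f (x q + v q)) + (f (x q + v q) - f (x q + v p)) +
      (f (x q + v p) - f (x p + v p) - f1 (x p + v p) * (x q - x p)
      - f2 (x p + v p) / 2 * (x q - x p) ^ 2) +
      (f2 (x p + v p) / 2 * (q - p) - (∫ s in p..τ, f2 (x s + v s)) / 2) := by ring
  rw [split]
  have tri := (abs_add_le ((f (x τ + v q) - f (x q + v q)) + (f (x q + v q) - f (x q + v p)) +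
      (f (x q + v p) - f (x p + v p) - f1 (x p + v p) * (x q - x p)
      - f2 (x p + v p) / 2 * (x q - x p) ^ 2))
      (f2 (x p + v p) / 2 * (q - p) - (∫ s in p..τ, f2 (x s + v s)) / 2))
  have tri2 := abs_add_le ((f (x τ + v q) - f (x q + v q)) + (f (x q + v q) - f (x q + v p)))
      (f (x q + v p) - f (x p + v p) - f1 (x p + v p) * (x q - x p)
      - f2 (x p + v p) / 2 * (x q - x p) ^ 2)
  have tri3 := abs_add_le (f (x τ + v q) - f (x q + v q)) (f (x q + v q) - f (x q + v p))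
  split_ifs at e1 e4 ⊢ <;> linarith

/-- deterministic remainder -/
noncomputable def RemD (x v : ℝ → ℝ) (R : ℝ) (f f1 f2 : ℝ → ℝ) (a b : ℝ) (n j : ℕ) : ℝ :=
  f (x (min (gp a b n j) R) + v (min (gp a b n j) R))
    - f (x (min a R) + v (min a R))
    - (∫ s in (min a R)..(min (gp a b n j) R), f2 (x s + v s)) / 2
    - ∑ i ∈ Finset.range j, if gp a b n i < R then
        f1 (x (gp a b n i) + v (gp a b n i)) * (x (gp a b n (i + 1)) - x (gp a b n i))
      else 0

/-- the quadratic part -/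
noncomputable def QD (x v : ℝ → ℝ) (R : ℝ) (f2 : ℝ → ℝ) (a b : ℝ) (n j : ℕ) : ℝ :=
  ∑ i ∈ Finset.range j, (if gp a b n i < R then f2 (x (gp a b n i) + v (gp a b n i)) / 2 else 0) *
    ((x (gp a b n (i + 1)) - x (gp a b n i)) ^ 2 - (b - a) / n)

theorem path_aux (hf : TF f f1 f2 C) (h : PathH x v jj T R d W W') (a b : ℝ) (ha : 0 ≤ a)
    (hab : a ≤ b) (hb : b ≤ T) (n : ℕ) (hn : 0 < n) (hd : (b - a) / n ≤ d) :
    ∀ j, j ≤ n → |RemD x v R f f1 f2 a b n j - QD x v R f2 a b n j| ≤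
      (if R < gp a b n j then C * W + C * ((b - a) / n) / 2 else 0)
      + C * min 1 (W + W') * (jj (gp a b n j) - jj a)
      + C * min 1 (W + W') * (gp a b n j - a)
      + C * ∑ i ∈ Finset.range j, |x (gp a b n (i + 1)) - x (gp a b n i)| ^ 3 := by
  obtain ⟨g0, gn, gle, gd, ga, gb, gm⟩ := gp_facts a b hab n hn
  have hC := hf.C0
  have hδ : 0 ≤ (b - a) / n := div_nonneg (by linarith) (by positivity)
  have hK : 0 ≤ C * W + C * ((b - a) / n) / 2 := by
    have := mul_nonneg hC h.W0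
    positivity
  intro j
  induction j with
  | zero =>
    intro _
    unfold RemD QD
    rw [g0]
    simp only [sub_self, intervalIntegral.integral_same, zero_div, Finset.range_zero,
      Finset.sum_empty, abs_zero, mul_zero, add_zero]
    split_ifs
    · exact hK
    · exact le_rfl
  | succ j ih =>
    intro hj
    have ih := ih (by omega)
    have hc := cell hf h (p := gp a b n j) (q := gp a b n (j + 1)) (ha.trans (ga j)) (gle j)
      ((gb (j + 1) hj).trans hb) (by rw [gd]; exact hd)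
    have hcont : Continuous fun s => f2 (x s + v s) := hf.c2.comp (h.xc.add h.vc)
    have hadd : (∫ s in (min a R)..(min (gp a b n (j + 1)) R), f2 (x s + v s)) =
        (∫ s in (min a R)..(min (gp a b n j) R), f2 (x s + v s)) +
        ∫ s in (min (gp a b n j) R)..(min (gp a b n (j + 1)) R), f2 (x s + v s) :=
      (intervalIntegral.integral_add_adjacent_intervals (hcont.intervalIntegrable _ _)
        (hcont.intervalIntegrable _ _)).symm
    rw [gd j] at hc
    have hsplit : RemD x v R f f1 f2 a b n (j + 1) - QD x v R f2 a b n (j + 1) =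
        (RemD x v R f f1 f2 a b n j - QD x v R f2 a b n j) +
        (f (x (min (gp a b n (j + 1)) R) + v (min (gp a b n (j + 1)) R))
          - f (x (min (gp a b n j) R) + v (min (gp a b n j) R))
          - (∫ s in (min (gp a b n j) R)..(min (gp a b n (j + 1)) R), f2 (x s + v s)) / 2
          - (if gp a b n j < R then
              f1 (x (gp a b n j) + v (gp a b n j)) * (x (gp a b n (j + 1)) - x (gp a b n j))
              else 0)
          - (if gp a b n j < R then f2 (x (gp a b n j) + v (gp a b n j)) / 2 else 0) *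
            ((x (gp a b n (j + 1)) - x (gp a b n j)) ^ 2 - (b - a) / n)) := by
      unfold RemD QD
      rw [hadd, Finset.sum_range_succ, Finset.sum_range_succ]
      ring
    rw [hsplit, Finset.sum_range_succ, mul_add]
    refine (abs_add_le _ _).trans ?_
    have hgj := gle j
    have hif : (if R < gp a b n j then C * W + C * ((b - a) / n) / 2 else 0) +
        (if gp a b n j < R ∧ R < gp a b n (j + 1) then C * W + C * ((b - a) / n) / 2 else 0) ≤
        (if R < gp a b n (j + 1) then C * W + C * ((b - a) / n) / 2 else 0) := by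
      by_cases c1 : R < gp a b n j
      · have c2 : ¬ (gp a b n j < R ∧ R < gp a b n (j + 1)) := fun hh => lt_asymm c1 hh.1
        rw [if_pos c1, if_neg c2, if_pos (c1.trans_le hgj), add_zero]
      · by_cases c2 : gp a b n j < R ∧ R < gp a b n (j + 1)
        · rw [if_neg c1, if_pos c2, if_pos c2.2, zero_add]
        · rw [if_neg c1, if_neg c2, zero_add]
          split_ifs
          · exact hK
          · exact le_rfl
    have hg2 : gp a b n (j + 1) - a = (gp a b n j - a) + (b - a) / n := by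
      rw [← gd j]; ring
    rw [hg2]
    have hJ2 : C * min 1 (W + W') * (jj (gp a b n (j + 1)) - jj a) =
        C * min 1 (W + W') * (jj (gp a b n j) - jj a) +
        C * min 1 (W + W') * (jj (gp a b n (j + 1)) - jj (gp a b n j)) := by ring
    rw [hJ2, mul_add]
    linarith

theorem path_bound (hf : TF f f1 f2 C) (h : PathH x v jj T R d W W') (hj0 : jj 0 = 0) (a b : ℝ)
    (ha : 0 ≤ a) (hab : a ≤ b) (hb : b ≤ T) (n : ℕ) (hn : 0 < n) (hd : (b - a) / n ≤ d) (j : ℕ)
    (hj : j ≤ n) : |RemD x v R f f1 f2 a b n j| ≤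
      C * (W + min 1 (W + W') * (|jj T| + (b - a)) + (b - a) / n +
        ∑ i ∈ Finset.range n, |x (gp a b n (i + 1)) - x (gp a b n i)| ^ 3)
      + |QD x v R f2 a b n j| := by
  obtain ⟨g0, gn, gle, gd, ga, gb, gm⟩ := gp_facts a b hab n hn
  have hC := hf.C0
  have hδ : 0 ≤ (b - a) / n := div_nonneg (by linarith) (by positivity)
  have hM : 0 ≤ min 1 (W + W') := le_min zero_le_one (add_nonneg h.W0 h.W0')
  have h1 := path_aux hf h a b ha hab hb n hn hd j hj
  have h2 : (if R < gp a b n j then C * W + C * ((b - a) / n) / 2 else 0) ≤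
      C * W + C * ((b - a) / n) := by
    have := mul_nonneg hC h.W0
    have := mul_nonneg hC hδ
    split_ifs <;> linarith
  have h3 : jj (gp a b n j) - jj a ≤ |jj T| := by
    have e1 := h.mono (ha.trans (ga j)) ((gb j hj).trans hb)
    have e2 := h.mono le_rfl ha
    have e3 := le_abs_self (jj T)
    linarith
  have h4 : gp a b n j - a ≤ b - a := by linarith [gb j hj]
  have h5 : ∑ i ∈ Finset.range j, |x (gp a b n (i + 1)) - x (gp a b n i)| ^ 3 ≤
      ∑ i ∈ Finset.range n, |x (gp a b n (i + 1)) - x (gp a b n i)| ^ 3 :=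
    Finset.sum_le_sum_of_subset_of_nonneg (Finset.range_mono hj) (fun _ _ _ => by positivity)
  have h6 := mul_le_mul_of_nonneg_left h3 (mul_nonneg hC hM)
  have h7 := mul_le_mul_of_nonneg_left h4 (mul_nonneg hC hM)
  have h8 := mul_le_mul_of_nonneg_left h5 hC
  have h9 : |RemD x v R f f1 f2 a b n j| ≤ |RemD x v R f f1 f2 a b n j - QD x v R f2 a b n j| +
      |QD x v R f2 a b n j| := by
    have := abs_add_le (RemD x v R f f1 f2 a b n j - QD x v R f2 a b n j) (QD x v R f2 a b n j)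
    rwa [sub_add_cancel] at this
  have h10 : C * (W + min 1 (W + W') * (|jj T| + (b - a)) + (b - a) / n +
        ∑ i ∈ Finset.range n, |x (gp a b n (i + 1)) - x (gp a b n i)| ^ 3) =
      (C * W + C * ((b - a) / n)) + C * min 1 (W + W') * |jj T| + C * min 1 (W + W') * (b - a) +
      C * ∑ i ∈ Finset.range n, |x (gp a b n (i + 1)) - x (gp a b n i)| ^ 3 := by ring
  rw [h10]
  linarith

end det

section ito

variable {Ω : Type*} [mΩ : MeasurableSpace Ω] {P : Measure Ω} [IsProbabilityMeasure P]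
  {F : ℝ → MeasurableSpace Ω} {B : ℝ → Ω → ℝ} {c T : ℝ} {V J : ℝ → Ω → ℝ} {R : Ω → ℝ}
  {f f1 f2 : ℝ → ℝ} {C : ℝ}

omit [IsProbabilityMeasure P] in
theorem meas_at (Z : ℝ → Ω → ℝ) (hm : ∀ t, 0 ≤ t → Measurable (Z t))
    (hc : ∀ ω, Continuous (fun t => Z t ω)) (τ : Ω → ℝ) (hτ : Measurable τ) (hτ0 : ∀ ω, 0 ≤ τ ω) :
    Measurable (fun ω => Z (τ ω) ω) := by
  have h1 : Measurable (Function.uncurry fun (t : ℝ) (ω : Ω) => Z (max t 0) ω) := by
    apply measurable_uncurry_of_continuous_of_measurable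
    · intro ω
      exact (hc ω).comp (continuous_id.max continuous_const)
    · intro t
      exact hm _ (le_max_right _ _)
  have h2 := h1.comp (hτ.prodMk measurable_id)
  have h3 : (fun ω => Z (τ ω) ω) =
      (Function.uncurry fun (t : ℝ) (ω : Ω) => Z (max t 0) ω) ∘ fun ω => (τ ω, id ω) := by
    funext ω
    simp [Function.uncurry, max_eq_left (hτ0 ω)]
  rw [h3]
  exact h2

omit [IsProbabilityMeasure P] in
theorem R_meas (hZ : ZP P F B c T V J R) : Measurable R := by
  apply measurable_of_Ioi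
  intro t
  rcases le_or_gt 0 t with h | h
  · exact hZ.bm.le t _ (hZ.Rst t h)
  · have : R ⁻¹' Ioi t = univ := by
      ext ω
      simp only [mem_preimage, mem_Ioi, mem_univ, iff_true]
      exact h.trans_le (hZ.R0 ω)
    rw [this]
    exact MeasurableSet.univ

omit [IsProbabilityMeasure P] in
theorem B_meas (hZ : ZP P F B c T V J R) (t : ℝ) (ht : 0 ≤ t) : Measurable (B t) :=
  (hZ.bm.adap t ht).mono (hZ.bm.le t) le_rfl

omit [IsProbabilityMeasure P] in
theorem V_meas (hZ : ZP P F B c T V J R) (t : ℝ) (ht : 0 ≤ t) : Measurable (V t) :=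
  (hZ.Vad t ht).mono (hZ.bm.le t) le_rfl

omit [IsProbabilityMeasure P] in
theorem J_meas (hZ : ZP P F B c T V J R) (t : ℝ) (ht : 0 ≤ t) : Measurable (J t) :=
  (hZ.Jad t ht).mono (hZ.bm.le t) le_rfl

theorem int_meas (hZ : ZP P F B c T V J R) (hf : TF f f1 f2 C) (τ : Ω → ℝ) (hτ : Measurable τ)
    (hτ0 : ∀ ω, 0 ≤ τ ω) :
    Measurable (fun ω => ∫ s in (0:ℝ)..(τ ω), f2 (B s ω + V s ω)) := by
  apply meas_at (fun t ω => ∫ s in (0:ℝ)..t, f2 (B s ω + V s ω)) ?_ ?_ τ hτ hτ0
  · intro t ht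
    have h1 : (fun ω => ∫ s in (0:ℝ)..t, f2 (B s ω + V s ω)) =
        fun ω => ∫ s in Ioc 0 t, f2 (B (max s 0) ω + V (max s 0) ω) := by
      funext ω
      rw [intervalIntegral.integral_of_le ht]
      apply setIntegral_congr_fun measurableSet_Ioc
      intro s hs
      simp [max_eq_left hs.1.le]
    rw [h1]
    have h2 : Measurable (Function.uncurry fun (t : ℝ) (ω : Ω) =>
        B (max t 0) ω + V (max t 0) ω) := by
      apply measurable_uncurry_of_continuous_of_measurable
      · intro ω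
        exact ((hZ.bm.cont ω).add (hZ.Vc ω)).comp (continuous_id.max continuous_const)
      · intro t
        exact (B_meas hZ _ (le_max_right _ _)).add (V_meas hZ _ (le_max_right _ _))
    have h3 : Measurable (Function.uncurry fun (ω : Ω) (t : ℝ) =>
        f2 (B (max t 0) ω + V (max t 0) ω)) :=
      hf.c2.measurable.comp (h2.comp measurable_swap)
    exact (h3.stronglyMeasurable.integral_prod_right (ν := volume.restrict (Ioc 0 t))).measurable
  · intro ω
    have hcont : Continuous fun s => f2 (B s ω + V s ω) :=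
      hf.c2.comp ((hZ.bm.cont ω).add (hZ.Vc ω))
    exact intervalIntegral.continuous_primitive (fun _ _ => hcont.intervalIntegrable _ _) 0

theorem Rem_meas (hZ : ZP P F B c T V J R) (hf : TF f f1 f2 C) (a b : ℝ) (ha : 0 ≤ a)
    (hab : a ≤ b) (n : ℕ) (hn : 0 < n) (j : ℕ) : Measurable (Rem B V R f f1 f2 a b n j) := by
  obtain ⟨g0, gn, gle, gd, ga, gb, gm⟩ := gp_facts a b hab n hn
  have hR := R_meas hZ
  have m1 : ∀ p : ℝ, 0 ≤ p → Measurable fun ω => min p (R ω) := fun p _ => measurable_const.min hR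
  have m2 : ∀ p : ℝ, 0 ≤ p → Measurable fun ω =>
      f (B (min p (R ω)) ω + V (min p (R ω)) ω) := by
    intro p hp
    exact hf.c0.measurable.comp ((meas_at B (B_meas hZ) hZ.bm.cont _ (m1 p hp)
      (fun ω => le_min hp (hZ.R0 ω))).add (meas_at V (V_meas hZ) hZ.Vc _ (m1 p hp)
      (fun ω => le_min hp (hZ.R0 ω))))
  have m3 : Measurable fun ω =>
      ∫ s in (min a (R ω))..(min (gp a b n j) (R ω)), f2 (B s ω + V s ω) := by
    have h1 : (fun ω => ∫ s in (min a (R ω))..(min (gp a b n j) (R ω)), f2 (B s ω + V s ω)) =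
        fun ω => (∫ s in (0:ℝ)..(min (gp a b n j) (R ω)), f2 (B s ω + V s ω)) -
          ∫ s in (0:ℝ)..(min a (R ω)), f2 (B s ω + V s ω) := by
      funext ω
      have hcont : Continuous fun s => f2 (B s ω + V s ω) :=
        hf.c2.comp ((hZ.bm.cont ω).add (hZ.Vc ω))
      rw [intervalIntegral.integral_interval_sub_left (hcont.intervalIntegrable _ _)
        (hcont.intervalIntegrable _ _)]
    rw [h1]
    exact (int_meas hZ hf _ (m1 _ (ha.trans (ga j)))
      (fun ω => le_min (ha.trans (ga j)) (hZ.R0 ω))).sub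
      (int_meas hZ hf _ (m1 _ ha) (fun ω => le_min ha (hZ.R0 ω)))
  unfold Rem
  refine ((((m2 _ (ha.trans (ga j))).sub (m2 _ ha)).sub (m3.div_const 2))).sub ?_
  refine Finset.measurable_fun_sum _ fun i _ => ?_
  have hi := ha.trans (ga i)
  have hi1 := ha.trans (ga (i + 1))
  refine Measurable.ite (hZ.bm.le _ _ (hZ.Rst _ hi)) ?_ measurable_const
  exact (hf.c1.measurable.comp ((B_meas hZ _ hi).add (V_meas hZ _ hi))).mul
    ((B_meas hZ _ hi1).sub (B_meas hZ _ hi))

/-- sum of the third powers of the increments -/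
noncomputable def S3 (B : ℝ → Ω → ℝ) (a b : ℝ) (n : ℕ) (ω : Ω) : ℝ :=
  ∑ i ∈ Finset.range n, |B (gp a b n (i + 1)) ω - B (gp a b n i) ω| ^ 3

theorem S3_memLp (hZ : ZP P F B c T V J R) (a b : ℝ) (ha : 0 ≤ a) (hab : a ≤ b) (n : ℕ)
    (hn : 0 < n) : MemLp (S3 B a b n) 2 P := by
  obtain ⟨g0, gn, gle, gd, ga, gb, gm⟩ := gp_facts a b hab n hn
  unfold S3
  refine memLp_finsetSum _ fun i _ => ?_
  have hi := ha.trans (ga i)
  have hi1 := ha.trans (ga (i + 1))
  have hm : Measurable fun ω => |B (gp a b n (i + 1)) ω - B (gp a b n i) ω| ^ 3 :=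
    (((B_meas hZ _ hi1).sub (B_meas hZ _ hi)).abs).pow_const 3
  rw [memLp_two_iff_integrable_sq hm.aestronglyMeasurable]
  have h1 := inc_int hZ.bm (gp a b n i) (gp a b n (i + 1)) hi (gle i) 6
  refine h1.congr (Filter.Eventually.of_forall fun ω => ?_)
  show _ = (|B (gp a b n (i + 1)) ω - B (gp a b n i) ω| ^ 3) ^ 2
  rw [← pow_mul]

theorem S3_sq (hZ : ZP P F B c T V J R) (a b : ℝ) (ha : 0 ≤ a) (hab : a ≤ b) (n : ℕ)
    (hn : 0 < n) (K : ℝ) (hK : ∀ s t : ℝ, 0 ≤ s → s ≤ t →
    ∫ ω, (B t ω - B s ω) ^ 6 ∂P ≤ K * (t - s) ^ 3) :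
    ∫ ω, (S3 B a b n ω) ^ 2 ∂P ≤ K * (b - a) ^ 3 / n := by
  obtain ⟨g0, gn, gle, gd, ga, gb, gm⟩ := gp_facts a b hab n hn
  have h1 : ∀ ω, (S3 B a b n ω) ^ 2 ≤
      n * ∑ i ∈ Finset.range n, (B (gp a b n (i + 1)) ω - B (gp a b n i) ω) ^ 6 := by
    intro ω
    have h2 := sq_sum_le_card_mul_sum_sq (s := Finset.range n)
      (f := fun i => |B (gp a b n (i + 1)) ω - B (gp a b n i) ω| ^ 3)
    rw [Finset.card_range] at h2
    refine h2.trans (le_of_eq ?_)
    congr 1
    refine Finset.sum_congr rfl fun i _ => ?_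
    rw [← pow_mul]
    exact Even.pow_abs (by decide) _
  have hint : ∀ i, Integrable (fun ω => (B (gp a b n (i + 1)) ω - B (gp a b n i) ω) ^ 6) P := by
    intro i
    have h3 := inc_int hZ.bm (gp a b n i) (gp a b n (i + 1)) (ha.trans (ga i)) (gle i) 6
    refine h3.congr (Filter.Eventually.of_forall fun ω => ?_)
    exact Even.pow_abs (by decide) _
  have h4 : ∫ ω, (S3 B a b n ω) ^ 2 ∂P ≤
      ∫ ω, n * ∑ i ∈ Finset.range n, (B (gp a b n (i + 1)) ω - B (gp a b n i) ω) ^ 6 ∂P := by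
    apply integral_mono (S3_memLp hZ a b ha hab n hn).integrable_sq
      ((integrable_finsetSum _ fun i _ => hint i).const_mul _) h1
  refine h4.trans ?_
  rw [integral_const_mul, integral_finsetSum _ fun i _ => hint i]
  have h5 : ∑ i ∈ Finset.range n, ∫ ω, (B (gp a b n (i + 1)) ω - B (gp a b n i) ω) ^ 6 ∂P ≤
      ∑ i ∈ Finset.range n, K * ((b - a) / n) ^ 3 := by
    refine Finset.sum_le_sum fun i _ => ?_
    have := hK (gp a b n i) (gp a b n (i + 1)) (ha.trans (ga i)) (gle i)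
    rwa [gd i] at this
  have hn' : (0 : ℝ) < n := by exact_mod_cast hn
  refine (mul_le_mul_of_nonneg_left h5 hn'.le).trans (le_of_eq ?_)
  rw [Finset.sum_const, Finset.card_range, nsmul_eq_mul]
  field_simp

theorem ito2 (hZ : ZP P F B c T V J R) (hf : TF f f1 f2 C) (a b : ℝ) (ha : 0 ≤ a) (hab : a ≤ b)
    (hb : b ≤ T) :
    ∃ e : ℕ → ℝ, Tendsto e atTop (𝓝 0) ∧ ∀ n, 0 < n → ∀ j, j ≤ n →
      MemLp (Rem B V R f f1 f2 a b n j) 2 P ∧
      ∫ ω, (Rem B V R f f1 f2 a b n j ω) ^ 2 ∂P ≤ e n := by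
  have hC := hf.C0
  have hT := hZ.T0
  obtain ⟨W, Wm, W0, Wmod, Wlim, WLp, Wsq⟩ := mod_b hZ.bm T hT
  obtain ⟨W', Wm', W0', Wmod', Wlim', -⟩ := mod_gen J (J_meas hZ) hZ.Jc T hT
  obtain ⟨K, hK0, hK⟩ := inc_mom6 hZ.bm
  set M : ℕ → Ω → ℝ := fun n ω => min 1 (W n ω + W' n ω) * (|J T ω| + (b - a)) with hM
  have hba : 0 ≤ b - a := by linarith
  have hmin0 : ∀ n ω, 0 ≤ min 1 (W n ω + W' n ω) := fun n ω =>
    le_min zero_le_one (add_nonneg (W0 n ω) (W0' n ω))
  have hMm : ∀ n, Measurable (M n) := fun n =>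
    (measurable_const.min ((Wm n).add (Wm' n))).mul ((J_meas hZ T hT.le).abs.add_const _)
  have hJL : MemLp (fun ω => |J T ω| + (b - a)) 2 P := hZ.Jsq.norm.add (memLp_const _)
  have hMb : ∀ n ω, |M n ω| ≤ |J T ω| + (b - a) := by
    intro n ω
    have h1 : 0 ≤ |J T ω| + (b - a) := add_nonneg (abs_nonneg _) hba
    rw [hM]
    simp only
    rw [abs_of_nonneg (mul_nonneg (hmin0 n ω) h1)]
    exact mul_le_of_le_one_left h1 (min_le_left _ _)
  have hML : ∀ n, MemLp (M n) 2 P := fun n =>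
    hJL.mono' (hMm n).aestronglyMeasurable (Filter.Eventually.of_forall fun ω => hMb n ω)
  have hMlim : Tendsto (fun n => ∫ ω, (M n ω) ^ 2 ∂P) atTop (𝓝 0) := by
    have h0 : (0 : ℝ) = ∫ ω, (0 : ℝ) ∂P := by simp
    rw [h0]
    apply tendsto_integral_of_dominated_convergence (fun ω => (|J T ω| + (b - a)) ^ 2)
      (fun n => ((hMm n).pow_const 2).aestronglyMeasurable) hJL.integrable_sq
    · intro n
      refine Filter.Eventually.of_forall fun ω => ?_
      rw [Real.norm_eq_abs, abs_pow]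
      exact pow_le_pow_left₀ (abs_nonneg _) (hMb n ω) 2
    · refine Filter.Eventually.of_forall fun ω => ?_
      have h1 : Tendsto (fun n => min 1 (W n ω + W' n ω)) atTop (𝓝 (min 1 (0 + 0))) :=
        tendsto_const_nhds.min ((Wlim ω).add (Wlim' ω))
      have h2 := (h1.mul_const (|J T ω| + (b - a))).pow 2
      simpa using h2
  refine ⟨fun n => 8 * C ^ 2 * ((∫ ω, (W n ω) ^ 2 ∂P) + (∫ ω, (M n ω) ^ 2 ∂P) +
    ((b - a) / n) ^ 2 + K * (b - a) ^ 3 / n) + 2 * ((C / 2) ^ 2 * (2 * (b - a) ^ 2 / n)), ?_, ?_⟩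
  · have l1 : Tendsto (fun n : ℕ => ((b - a) / (n : ℝ)) ^ 2) atTop (𝓝 0) := by
      simpa using (tendsto_const_div_atTop_nhds_zero_nat (b - a)).pow 2
    have l2 := tendsto_const_div_atTop_nhds_zero_nat (K * (b - a) ^ 3)
    have l3 := tendsto_const_div_atTop_nhds_zero_nat (2 * (b - a) ^ 2)
    have l4 := (((Wsq.add hMlim).add l1).add l2).const_mul (8 * C ^ 2)
    have l5 := (l3.const_mul ((C / 2) ^ 2)).const_mul 2
    simpa using l4.add l5
  intro n hn j hj
  obtain ⟨g0, gn, gle, gd, ga, gb, gm⟩ := gp_facts a b hab n hn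
  have hn' : (0 : ℝ) < n := by exact_mod_cast hn
  -- the quadratic part
  have hq := quad_sum hZ.bm a b ha hab n hn
    (fun i ω => if gp a b n i < R ω then
      f2 (B (gp a b n i) ω + V (gp a b n i) ω) / 2 else 0) (C / 2)
    (fun i _ => by
      have hi := ha.trans (ga i)
      refine Measurable.ite (hZ.Rst _ hi) ?_ measurable_const
      exact (hf.c2.measurable.comp ((hZ.bm.adap _ hi).add (hZ.Vad _ hi))).div_const 2)
    (fun i _ ω => by
      split_ifs
      · rw [abs_div, abs_two]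
        have := hf.b2 (B (gp a b n i) ω + V (gp a b n i) ω)
        linarith
      · rw [abs_zero]; positivity) j hj
  set Q : Ω → ℝ := fun ω => QD (fun t => B t ω) (fun t => V t ω) (R ω) f2 a b n j with hQ
  have hQL : MemLp Q 2 P := hq.1
  have hQ2 : ∫ ω, (Q ω) ^ 2 ∂P ≤ (C / 2) ^ 2 * (2 * (b - a) ^ 2 / n) := hq.2
  have hSL := S3_memLp hZ a b ha hab n hn
  have hS2 := S3_sq hZ a b ha hab n hn K hK
  -- pathwise bound
  have hpath : ∀ᵐ ω ∂P, |Rem B V R f f1 f2 a b n j ω| ≤
      C * (W n ω + M n ω + (b - a) / n + S3 B a b n ω) + |Q ω| := by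
    filter_upwards [hZ.dom, hZ.stop, hZ.flat, hZ.J0] with ω h1 h2 h3 h4
    have hP : PathH (fun t => B t ω) (fun t => V t ω) (fun t => J t ω) T (R ω) (T / n)
        (W n ω) (W' n ω) :=
      { xc := hZ.bm.cont ω
        vc := hZ.Vc ω
        R0 := hZ.R0 ω
        RT := hZ.RT ω
        dom := h1
        stop := h2
        flat := h3
        W0 := W0 n ω
        W0' := W0' n ω
        mW := Wmod n hn ω
        mW' := Wmod' n hn ω }
    exact path_bound hf hP h4 a b ha hab hb n hn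
      (div_le_div_of_nonneg_right (by linarith) hn'.le) j hj
  have hGL : MemLp (fun ω => C * (W n ω + M n ω + (b - a) / n + S3 B a b n ω) + |Q ω|) 2 P :=
    ((((((WLp n).add (hML n)).add (memLp_const _)).add hSL).const_mul C)).add hQL.norm
  have hRL : MemLp (Rem B V R f f1 f2 a b n j) 2 P :=
    hGL.mono' (Rem_meas hZ hf a b ha hab n hn j).aestronglyMeasurable hpath
  refine ⟨hRL, ?_⟩
  have hint : Integrable (fun ω => 8 * C ^ 2 * ((W n ω) ^ 2 + (M n ω) ^ 2 + ((b - a) / n) ^ 2 +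
      (S3 B a b n ω) ^ 2) + 2 * (Q ω) ^ 2) P :=
    ((((((WLp n).integrable_sq).add (hML n).integrable_sq).add (integrable_const _)).add
      hSL.integrable_sq).const_mul _).add (hQL.integrable_sq.const_mul _)
  have h5 : ∫ ω, (Rem B V R f f1 f2 a b n j ω) ^ 2 ∂P ≤
      ∫ ω, (8 * C ^ 2 * ((W n ω) ^ 2 + (M n ω) ^ 2 + ((b - a) / n) ^ 2 +
      (S3 B a b n ω) ^ 2) + 2 * (Q ω) ^ 2) ∂P := by
    apply integral_mono_ae hRL.integrable_sq hint
    filter_upwards [hpath] with ω hω
    have h6 : (Rem B V R f f1 f2 a b n j ω) ^ 2 ≤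
        (C * (W n ω + M n ω + (b - a) / n + S3 B a b n ω) + |Q ω|) ^ 2 := by
      rw [← sq_abs]
      exact pow_le_pow_left₀ (abs_nonneg _) hω 2
    refine h6.trans ?_
    have h7 : |Q ω| ^ 2 = (Q ω) ^ 2 := sq_abs _
    have h8 : (C * (W n ω + M n ω + (b - a) / n + S3 B a b n ω) + |Q ω|) ^ 2 ≤
        2 * (C * (W n ω + M n ω + (b - a) / n + S3 B a b n ω)) ^ 2 + 2 * |Q ω| ^ 2 := by
      nlinarith [sq_nonneg (C * (W n ω + M n ω + (b - a) / n + S3 B a b n ω) - |Q ω|)]
    have h9 : (W n ω + M n ω + (b - a) / n + S3 B a b n ω) ^ 2 ≤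
        4 * ((W n ω) ^ 2 + (M n ω) ^ 2 + ((b - a) / n) ^ 2 + (S3 B a b n ω) ^ 2) := by
      nlinarith [sq_nonneg (W n ω - M n ω), sq_nonneg (W n ω - (b - a) / n),
        sq_nonneg (W n ω - S3 B a b n ω), sq_nonneg (M n ω - (b - a) / n),
        sq_nonneg (M n ω - S3 B a b n ω), sq_nonneg ((b - a) / n - S3 B a b n ω)]
    have h10 := mul_le_mul_of_nonneg_left h9 (sq_nonneg C)
    rw [h7] at h8
    refine h8.trans ?_
    rw [mul_pow]
    linarith
  refine h5.trans ?_
  have i1 : ∫ ω, (8 * C ^ 2 * ((W n ω) ^ 2 + (M n ω) ^ 2 + ((b - a) / n) ^ 2 +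
      (S3 B a b n ω) ^ 2) + 2 * (Q ω) ^ 2) ∂P =
      8 * C ^ 2 * ((∫ ω, (W n ω) ^ 2 ∂P) + (∫ ω, (M n ω) ^ 2 ∂P) +
    ((b - a) / n) ^ 2 + ∫ ω, (S3 B a b n ω) ^ 2 ∂P) + 2 * ∫ ω, (Q ω) ^ 2 ∂P := by
    rw [integral_add, integral_const_mul, integral_const_mul, integral_add, integral_add,
      integral_add]
    · simp
    · exact (WLp n).integrable_sq
    · exact (hML n).integrable_sq
    · exact ((WLp n).integrable_sq).add (hML n).integrable_sq
    · exact integrable_const _
    · exact (((WLp n).integrable_sq).add (hML n).integrable_sq).add (integrable_const _)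
    · exact hSL.integrable_sq
    · exact ((((((WLp n).integrable_sq).add (hML n).integrable_sq).add (integrable_const _)).add
        hSL.integrable_sq).const_mul _)
    · exact (hQL.integrable_sq.const_mul _)
  rw [i1]
  have h11 : 8 * C ^ 2 * ((∫ ω, (W n ω) ^ 2 ∂P) + (∫ ω, (M n ω) ^ 2 ∂P) +
    ((b - a) / n) ^ 2 + ∫ ω, (S3 B a b n ω) ^ 2 ∂P) ≤
    8 * C ^ 2 * ((∫ ω, (W n ω) ^ 2 ∂P) + (∫ ω, (M n ω) ^ 2 ∂P) +
    ((b - a) / n) ^ 2 + K * (b - a) ^ 3 / n) :=
    mul_le_mul_of_nonneg_left (by linarith) (by positivity)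
  linarith

end ito

end Pool.Agent.Helper41.SK
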