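import Pool.Agent.Helper41.SK.Defs
import Pool.Agent.Helper41.SK.MainDefs
import Pool.Agent.Helper41.SK.SA01
import Pool.Agent.Helper41.SK.SA03
import Pool.Agent.Helper41.SK.SA04
import Pool.Agent.Helper41.SK.SA05
import Pool.Agent.Helper41.SK.SA06

set_option autoImplicit false

open scoped ENNReal NNReal Topology
open MeasureTheory ProbabilityTheory Set Filter

namespace Pool.Agent.Helper41.SK


/-! ### auxiliary lemmas for the targets -/

section aux

theorem gp_k (T R : ℝ) (hT : 0 < T) (hR0 : 0 ≤ R) (hRT : R ≤ T) (n : ℕ) (hn : 0 < n) :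
    ∃ k : ℕ, k ≤ n ∧ (∀ i : ℕ, gp 0 T n i < R ↔ i < k) ∧ R ≤ gp 0 T n k ∧
      gp 0 T n k ≤ R + T / n ∧ 0 ≤ gp 0 T n k ∧ gp 0 T n k ≤ T := by
  have hn' : (0:ℝ) < n := by exact_mod_cast hn
  have hge : ∀ i : ℕ, gp 0 T n i = T * i / n := by
    intro i; unfold gp; ring
  have h1 : ∀ x : ℝ, T * x / n < R ↔ x < R * n / T := by
    intro x
    rw [div_lt_iff₀ hn', lt_div_iff₀ hT, mul_comm T x]
  have h2 : ∀ x : ℝ, R ≤ T * x / n ↔ R * n / T ≤ x := by
    intro x
    rw [le_div_iff₀ hn', div_le_iff₀ hT, mul_comm T x]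
  have hpos : 0 ≤ R * n / T := by positivity
  refine ⟨⌈R * n / T⌉₊, ?_, ?_, ?_, ?_, ?_, ?_⟩
  · rw [Nat.ceil_le, div_le_iff₀ hT]
    nlinarith
  · intro i
    rw [hge, h1, Nat.lt_ceil]
  · rw [hge, h2]
    exact Nat.le_ceil _
  · rw [hge]
    have := (Nat.ceil_lt_add_one hpos).le
    have h3 : T * (⌈R * n / T⌉₊ : ℝ) ≤ T * (R * n / T + 1) := mul_le_mul_of_nonneg_left this hT.le
    have h4 : T * (R * n / T + 1) = (R + T / n) * n := by field_simp
    rw [div_le_iff₀ hn', ← h4]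
    exact h3
  · rw [hge]; positivity
  · rw [hge, div_le_iff₀ hn']
    have : (⌈R * n / T⌉₊ : ℝ) ≤ n := by
      have : ⌈R * n / T⌉₊ ≤ n := by
        rw [Nat.ceil_le, div_le_iff₀ hT]
        nlinarith
      exact_mod_cast this
    nlinarith

theorem gp_sum (T R : ℝ) (n k : ℕ) (hk : k ≤ n) (h : ∀ i : ℕ, gp 0 T n i < R ↔ i < k)
    (g : ℕ → ℝ) :
    ∑ i ∈ Finset.range n, (if gp 0 T n i < R then g i else 0) = ∑ i ∈ Finset.range k, g i := by
  rw [← Finset.sum_filter]
  congr 1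
  ext i
  simp only [Finset.mem_filter, Finset.mem_range, h]
  omega

/-- the discrete version of `B R` -/
theorem gp_inc (T R : ℝ) (hT : 0 < T) (hR0 : 0 ≤ R) (hRT : R ≤ T) (n : ℕ) (hn : 0 < n)
    (b : ℝ → ℝ) (w : ℝ) (hw : ∀ s t, 0 ≤ s → s ≤ T → 0 ≤ t → t ≤ T → |s - t| ≤ T / n →
      |b s - b t| ≤ w) :
    |∑ i ∈ Finset.range n, (if gp 0 T n i < R then (b (gp 0 T n (i + 1)) - b (gp 0 T n i)) else 0)
      - (b R - b 0)| ≤ w := by
  obtain ⟨k, hk, hi, h1, h2, h3, h4⟩ := gp_k T R hT hR0 hRT n hn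
  rw [gp_sum T R n k hk hi (fun i => b (gp 0 T n (i + 1)) - b (gp 0 T n i)),
    Finset.sum_range_sub (fun i => b (gp 0 T n i))]
  have h0 : gp 0 T n 0 = 0 := by unfold gp; simp
  rw [h0]
  have : b (gp 0 T n k) - b 0 - (b R - b 0) = b (gp 0 T n k) - b R := by ring
  rw [this]
  apply hw _ _ h3 h4 hR0 hRT
  rw [abs_of_nonneg (by linarith)]
  linarith

/-- Riemann sums up to `R` -/
theorem gp_riem (T R : ℝ) (hT : 0 < T) (hR0 : 0 ≤ R) (hRT : R ≤ T) (n : ℕ) (hn : 0 < n)
    (Z : ℝ → ℝ) (hZ : Continuous Z) (w H : ℝ)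
    (hw : ∀ s t, 0 ≤ s → s ≤ T → 0 ≤ t → t ≤ T → |s - t| ≤ T / n → |Z s - Z t| ≤ w)
    (hH : ∀ s, |Z s| ≤ H) :
    |∑ i ∈ Finset.range n, (if gp 0 T n i < R then Z (gp 0 T n i) else 0) * (T / n)
      - ∫ s in (0:ℝ)..R, Z s| ≤ T * w + H * (T / n) := by
  obtain ⟨k, hk, hi, h1, h2, h3, h4⟩ := gp_k T R hT hR0 hRT n hn
  have hn' : (0:ℝ) < n := by exact_mod_cast hn
  have hw0 : 0 ≤ w := by
    have := hw 0 0 le_rfl hT.le le_rfl hT.le (by simp; positivity)
    exact le_trans (abs_nonneg _) this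
  have hH0 : 0 ≤ H := le_trans (abs_nonneg _) (hH 0)
  obtain ⟨g0, gn, gm, gd, ga, gb, gmo⟩ := gp_facts 0 T hT.le n hn
  rw [← Finset.sum_mul, gp_sum T R n k hk hi (fun i => Z (gp 0 T n i)), Finset.sum_mul]
  have hint : ∀ x y : ℝ, IntervalIntegrable Z volume x y := fun x y => hZ.intervalIntegrable x y
  have e1 : ∑ i ∈ Finset.range k, ∫ s in (gp 0 T n i)..(gp 0 T n (i + 1)), Z s
      = ∫ s in (0:ℝ)..(gp 0 T n k), Z s := by
    rw [intervalIntegral.sum_integral_adjacent_intervals (fun i _ => hint _ _), g0]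
  have e2 : ∫ s in (0:ℝ)..(gp 0 T n k), Z s
      = (∫ s in (0:ℝ)..R, Z s) + ∫ s in R..(gp 0 T n k), Z s :=
    (intervalIntegral.integral_add_adjacent_intervals (hint _ _) (hint _ _)).symm
  have e3 : |∫ s in R..(gp 0 T n k), Z s| ≤ H * (T / n) := by
    have := intervalIntegral.norm_integral_le_of_norm_le_const (a := R) (b := gp 0 T n k)
      (f := Z) (C := H) (fun x _ => hH x)
    rw [Real.norm_eq_abs] at this
    refine this.trans ?_
    apply mul_le_mul_of_nonneg_left _ hH0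
    rw [abs_of_nonneg (by linarith)]
    linarith
  have e4 : |∑ i ∈ Finset.range k, (Z (gp 0 T n i) * (T / n)
      - ∫ s in (gp 0 T n i)..(gp 0 T n (i + 1)), Z s)| ≤ T * w := by
    refine (Finset.abs_sum_le_sum_abs _ _).trans ?_
    have : ∀ i ∈ Finset.range k, |Z (gp 0 T n i) * (T / n)
      - ∫ s in (gp 0 T n i)..(gp 0 T n (i + 1)), Z s| ≤ w * (T / n) := by
      intro i hik
      have hik' : i < k := Finset.mem_range.mp hik
      have hdn : gp 0 T n (i + 1) - gp 0 T n i = T / n := by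
        rw [gd i]; simp
      have e5 : Z (gp 0 T n i) * (T / n) - ∫ s in (gp 0 T n i)..(gp 0 T n (i + 1)), Z s
          = ∫ s in (gp 0 T n i)..(gp 0 T n (i + 1)), (Z (gp 0 T n i) - Z s) := by
        rw [intervalIntegral.integral_sub (by simp) (hint _ _), intervalIntegral.integral_const,
          hdn, smul_eq_mul]
        ring
      rw [e5]
      have := intervalIntegral.norm_integral_le_of_norm_le_const (a := gp 0 T n i)
        (b := gp 0 T n (i + 1)) (f := fun s => Z (gp 0 T n i) - Z s) (C := w) (by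
          intro x hx
          rw [Set.uIoc_of_le (gm i)] at hx
          rw [Real.norm_eq_abs]
          have hb1 : gp 0 T n (i + 1) ≤ T := gb (i + 1) (by omega)
          have ha1 : 0 ≤ gp 0 T n i := ga i
          have hb0 : gp 0 T n i ≤ T := gb i (by omega)
          apply hw _ _ ha1 hb0 (by linarith [hx.1]) (by linarith [hx.2])
          rw [abs_sub_comm, abs_of_nonneg (by linarith [hx.1])]
          linarith [hx.2])
      rw [Real.norm_eq_abs, hdn, abs_of_nonneg (by positivity : 0 ≤ T / n)] at this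
      exact this
    refine (Finset.sum_le_sum this).trans ?_
    rw [Finset.sum_const, Finset.card_range, nsmul_eq_mul]
    have hkn : (k : ℝ) ≤ n := by exact_mod_cast hk
    calc (k : ℝ) * (w * (T / n)) ≤ n * (w * (T / n)) :=
          mul_le_mul_of_nonneg_right hkn (by positivity)
      _ = T * w := by field_simp
  rw [Finset.sum_sub_distrib, e1, e2] at e4
  have : ∑ i ∈ Finset.range k, Z (gp 0 T n i) * (T / n) - ∫ s in (0:ℝ)..R, Z s
      = (∑ i ∈ Finset.range k, Z (gp 0 T n i) * (T / n)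
        - ((∫ s in (0:ℝ)..R, Z s) + ∫ s in R..(gp 0 T n k), Z s))
        + ∫ s in R..(gp 0 T n k), Z s := by ring
  rw [this]
  exact (abs_add_le _ _).trans (add_le_add e4 e3)

end aux

section aux

variable {Ω : Type*} [mΩ : MeasurableSpace Ω] {P : Measure Ω} [IsProbabilityMeasure P]
  {F : ℝ → MeasurableSpace Ω} {B : ℝ → Ω → ℝ} {c T : ℝ} {V J : ℝ → Ω → ℝ} {R : Ω → ℝ}
  {f f1 f2 : ℝ → ℝ} {C : ℝ}

theorem sq_int_le (g : Ω → ℝ) (hg : MemLp g 2 P) :
    (∫ ω, |g ω| ∂P) ^ 2 ≤ ∫ ω, (g ω) ^ 2 ∂P := by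
  set m := ∫ ω, |g ω| ∂P with hm
  have h1 : Integrable (fun ω => |g ω|) P := (hg.integrable (by norm_num)).abs
  have h2 : Integrable (fun ω => (g ω) ^ 2) P := hg.integrable_sq
  have h3 : 0 ≤ ∫ ω, (|g ω| - m) ^ 2 ∂P := integral_nonneg (fun ω => sq_nonneg _)
  have h4 : ∫ ω, (|g ω| - m) ^ 2 ∂P = ∫ ω, ((g ω) ^ 2 - 2 * m * |g ω| + m ^ 2) ∂P := by
    congr 1; ext ω
    have := sq_abs (g ω)
    nlinarith
  have i1 : Integrable (fun ω => 2 * m * |g ω|) P := h1.const_mul _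
  have i2 : Integrable (fun ω => (g ω) ^ 2 - 2 * m * |g ω|) P := h2.sub i1
  rw [h4, integral_add i2 (integrable_const _),
    integral_sub h2 i1, integral_const_mul, integral_const, ← hm] at h3
  simp at h3
  nlinarith

theorem abs_int_le (g : Ω → ℝ) (hg : MemLp g 2 P) (G : Set Ω) (e : ℝ)
    (he : ∫ ω, (g ω) ^ 2 ∂P ≤ e) : |∫ ω in G, g ω ∂P| ≤ √e := by
  have h1 : Integrable (fun ω => |g ω|) P := (hg.integrable (by norm_num)).abs
  have h2 : |∫ ω in G, g ω ∂P| ≤ ∫ ω in G, |g ω| ∂P := abs_integral_le_integral_abs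
  have h3 : ∫ ω in G, |g ω| ∂P ≤ ∫ ω, |g ω| ∂P :=
    setIntegral_le_integral h1 (Filter.Eventually.of_forall (fun ω => abs_nonneg _))
  refine Real.le_sqrt_of_sq_le ?_
  have h4 := sq_int_le g hg
  have h5 : |∫ ω in G, g ω ∂P| ^ 2 ≤ (∫ ω, |g ω| ∂P) ^ 2 :=
    pow_le_pow_left₀ (abs_nonneg _) (h2.trans h3) 2
  linarith

omit [IsProbabilityMeasure P] in
theorem ci_meas (hZ : ZP P F B c T V J R) (g : ℝ → ℝ) (hg : Continuous g) (t : ℝ) (ht : 0 ≤ t) :
    Measurable[F t] (fun ω => if t < R ω then g (B t ω + V t ω) else 0) := by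
  have hm : Measurable[F t] (fun ω => g (B t ω + V t ω)) :=
    hg.measurable.comp ((hZ.bm.adap t ht).add (hZ.Vad t ht))
  exact Measurable.ite (hZ.Rst t ht) hm measurable_const

theorem tf_cont1 (hf : TF f f1 f2 C) : Continuous f1 := by
  rw [continuous_iff_continuousAt]
  exact fun x => (hf.h2 x).continuousAt

theorem tf_C (hf : TF f f1 f2 C) : 0 ≤ C := le_trans (abs_nonneg _) (hf.b1 0)

theorem gen_mean (hZ : ZP P F B c T V J R) (hf : TF f f1 f2 C) (a b : ℝ) (ha : 0 ≤ a)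
    (hab : a ≤ b) (hb : b ≤ T) (G : Set Ω) (hG : MeasurableSet[F a] G) :
    ∫ ω in G, (f (B (min b (R ω)) ω + V (min b (R ω)) ω)
      - f (B (min a (R ω)) ω + V (min a (R ω)) ω)
      - (∫ s in (min a (R ω))..(min b (R ω)), f2 (B s ω + V s ω)) / 2) ∂P = 0 := by
  obtain ⟨e, he, hrem⟩ := ito2 hZ hf a b ha hab hb
  have hC := tf_C hf
  have key : ∀ n : ℕ, 0 < n → |∫ ω in G, (f (B (min b (R ω)) ω + V (min b (R ω)) ω)
      - f (B (min a (R ω)) ω + V (min a (R ω)) ω)
      - (∫ s in (min a (R ω))..(min b (R ω)), f2 (B s ω + V s ω)) / 2) ∂P| ≤ √(e n) := by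
    intro n hn
    obtain ⟨g0, gn, gm, gd, ga, gb, gmo⟩ := gp_facts a b hab n hn
    obtain ⟨hr1, hr2⟩ := hrem n hn n le_rfl
    obtain ⟨hs1, -, hs3⟩ := iso_sum hZ.bm a b ha hab n hn
      (fun i ω => if gp a b n i < R ω then f1 (B (gp a b n i) ω + V (gp a b n i) ω) else 0) C
      (fun i _ => ci_meas hZ f1 (tf_cont1 hf) _ (ha.trans (ga i)))
      (fun i _ ω => by
        split_ifs
        · exact hf.b1 _
        · simpa using hC) n le_rfl
    have e1 : ∀ ω, (f (B (min b (R ω)) ω + V (min b (R ω)) ω)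
      - f (B (min a (R ω)) ω + V (min a (R ω)) ω)
      - (∫ s in (min a (R ω))..(min b (R ω)), f2 (B s ω + V s ω)) / 2) =
      Rem B V R f f1 f2 a b n n ω + ∑ i ∈ Finset.range n,
        (if gp a b n i < R ω then f1 (B (gp a b n i) ω + V (gp a b n i) ω) else 0)
          * (B (gp a b n (i + 1)) ω - B (gp a b n i) ω) := by
      intro ω
      unfold Rem
      rw [gn]
      simp only [ite_mul, zero_mul]
      ring
    simp only [e1]
    have i1 := hr1.integrable (q := 2) (by norm_num)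
    have i2 := hs1.integrable (q := 2) (by norm_num)
    rw [integral_add i1.integrableOn i2.integrableOn, hs3 G hG, add_zero]
    exact abs_int_le _ hr1 G (e n) hr2
  have hlim : Tendsto (fun n => √(e n)) atTop (𝓝 0) := by
    have := (Real.continuous_sqrt.tendsto 0).comp he
    simpa [Function.comp_def] using this
  have h0 : |∫ ω in G, (f (B (min b (R ω)) ω + V (min b (R ω)) ω)
      - f (B (min a (R ω)) ω + V (min a (R ω)) ω)
      - (∫ s in (min a (R ω))..(min b (R ω)), f2 (B s ω + V s ω)) / 2) ∂P| ≤ 0 := by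
    apply ge_of_tendsto hlim
    filter_upwards [eventually_gt_atTop 0] with n hn
    exact key n hn
  exact abs_nonpos_iff.mp h0

end aux

section ito

variable {Ω : Type*} [mΩ : MeasurableSpace Ω] {P : Measure Ω} [IsProbabilityMeasure P]
  {F : ℝ → MeasurableSpace Ω} {B : ℝ → Ω → ℝ} {c T : ℝ} {V J : ℝ → Ω → ℝ} {R : Ω → ℝ}
  {f f1 f2 : ℝ → ℝ} {C : ℝ}

theorem iso_ito (hZ : ZP P F B c T V J R) (hf : TF f f1 f2 C) (κ : ℝ) :
    MemLp (fun ω => f (B (R ω) ω + V (R ω) ω) - f c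
      - (∫ s in (0:ℝ)..(R ω), f2 (B s ω + V s ω)) / 2 - κ * B (R ω) ω) 2 P ∧
    ∫ ω, (f (B (R ω) ω + V (R ω) ω) - f c
      - (∫ s in (0:ℝ)..(R ω), f2 (B s ω + V s ω)) / 2 - κ * B (R ω) ω) ^ 2 ∂P ≤
      ∫ ω, (∫ s in (0:ℝ)..(R ω), (f1 (B s ω + V s ω) - κ) ^ 2) ∂P := by
  have hT := hZ.T0
  have hC := tf_C hf
  have hc1 := tf_cont1 hf
  set M : Ω → ℝ := fun ω => f (B (R ω) ω + V (R ω) ω) - f c
      - (∫ s in (0:ℝ)..(R ω), f2 (B s ω + V s ω)) / 2 - κ * B (R ω) ω with hM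
  obtain ⟨e, he, hrem⟩ := ito2 hZ hf 0 T le_rfl hT.le le_rfl
  obtain ⟨W, hWm, hW0, hWmod, hWlim, hW2, hWint⟩ := mod_b hZ.bm T hT
  set Z : ℝ → Ω → ℝ := fun t ω => (f1 (B t ω + V t ω) - κ) ^ 2 with hZdef
  set H := (C + |κ|) ^ 2 with hH
  have hB_m : ∀ t, 0 ≤ t → Measurable (B t) := fun t ht => (hZ.bm.adap t ht).mono (hZ.bm.le t) le_rfl
  have hV_m : ∀ t, 0 ≤ t → Measurable (V t) := fun t ht => (hZ.Vad t ht).mono (hZ.bm.le t) le_rfl
  have hR_m : ∀ t, 0 ≤ t → MeasurableSet {ω | t < R ω} := fun t ht => hZ.bm.le t _ (hZ.Rst t ht)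
  have hZm : ∀ t, 0 ≤ t → Measurable (Z t) := by
    intro t ht
    exact ((hc1.measurable.comp ((hB_m t ht).add (hV_m t ht))).sub_const κ).pow_const 2
  have hZc : ∀ ω, Continuous (fun t => Z t ω) := by
    intro ω
    exact ((hc1.comp ((hZ.bm.cont ω).add (hZ.Vc ω))).sub continuous_const).pow 2
  have hZH : ∀ ω t, |Z t ω| ≤ H := by
    intro ω t
    rw [hZdef, hH]
    dsimp only
    rw [abs_of_nonneg (sq_nonneg _), ← sq_abs]
    apply pow_le_pow_left₀ (abs_nonneg _)
    exact (abs_sub _ _).trans (add_le_add (hf.b1 _) le_rfl)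
  have hH0 : 0 ≤ H := sq_nonneg _
  obtain ⟨U, hUm, hU0, hUmod, hUlim, hUb⟩ := mod_gen Z hZm hZc T hT
  have hUH : ∀ n ω, U n ω ≤ 2 * H := hUb (fun _ => H) (fun ω t _ _ => hZH ω t)
  have gf := fun (n : ℕ) (hn : 0 < n) => gp_facts 0 T hT.le n hn
  have hlimn : Tendsto (fun n : ℕ => H * (T / n)) atTop (𝓝 0) := by
    have := (tendsto_const_div_atTop_nhds_zero_nat T).const_mul H
    simpa using this
  -- the discrete version of `B R`
  set D : ℕ → Ω → ℝ := fun n ω => ∑ i ∈ Finset.range n,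
    (if gp 0 T n i < R ω then (B (gp 0 T n (i + 1)) ω - B (gp 0 T n i) ω) else 0) with hDdef
  have hD : ∀ n, 0 < n → ∀ ω, |D n ω - B (R ω) ω| ≤ W n ω := by
    intro n hn ω
    have := gp_inc T (R ω) hT (hZ.R0 ω) (hZ.RT ω) n hn (fun t => B t ω) (W n ω)
      (fun s t h1 h2 h3 h4 h5 => hWmod n hn ω s t h1 h2 h3 h4 h5)
    rw [hZ.bm.zero ω, sub_zero] at this
    exact this
  have hDm : ∀ n, 0 < n → Measurable (D n) := by
    intro n hn
    obtain ⟨g0, gn, gm, gd, ga, gb, gmo⟩ := gf n hn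
    apply Finset.measurable_sum
    intro i _
    exact Measurable.ite (hR_m _ (ga i)) ((hB_m _ (ga (i + 1))).sub (hB_m _ (ga i)))
      measurable_const
  have hBR : Measurable (fun ω => B (R ω) ω) := by
    refine measurable_of_tendsto_metrizable (f := fun n => D (n + 1))
      (fun n => hDm (n + 1) (Nat.succ_pos n)) ?_
    rw [tendsto_pi_nhds]
    intro ω
    rw [tendsto_iff_dist_tendsto_zero]
    refine squeeze_zero (fun n => dist_nonneg) (fun n => ?_)
      ((hWlim ω).comp (tendsto_add_atTop_nat 1))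
    rw [Real.dist_eq]
    exact hD (n + 1) (Nat.succ_pos n) ω
  -- Riemann sums
  set I : Ω → ℝ := fun ω => ∫ s in (0:ℝ)..(R ω), Z s ω with hIdef
  set Ri : ℕ → Ω → ℝ := fun n ω => ∑ i ∈ Finset.range n,
    (if gp 0 T n i < R ω then Z (gp 0 T n i) ω else 0) * (T / n) with hRidef
  have hRi : ∀ n, 0 < n → ∀ ω, |Ri n ω - I ω| ≤ T * U n ω + H * (T / n) := by
    intro n hn ω
    exact gp_riem T (R ω) hT (hZ.R0 ω) (hZ.RT ω) n hn (fun t => Z t ω) (hZc ω) (U n ω) H
      (fun s t h1 h2 h3 h4 h5 => hUmod n hn ω s t h1 h2 h3 h4 h5) (hZH ω)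
  have hRim : ∀ n, 0 < n → Measurable (Ri n) := by
    intro n hn
    obtain ⟨g0, gn, gm, gd, ga, gb, gmo⟩ := gf n hn
    apply Finset.measurable_sum
    intro i _
    exact (Measurable.ite (hR_m _ (ga i)) (hZm _ (ga i)) measurable_const).mul_const _
  have hIm : Measurable I := by
    refine measurable_of_tendsto_metrizable (f := fun n => Ri (n + 1))
      (fun n => hRim (n + 1) (Nat.succ_pos n)) ?_
    rw [tendsto_pi_nhds]
    intro ω
    rw [tendsto_iff_dist_tendsto_zero]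
    have hl : Tendsto (fun n : ℕ => T * U n ω + H * (T / n)) atTop (𝓝 0) := by
      have := ((hUlim ω).const_mul T).add hlimn
      simpa using this
    refine squeeze_zero (fun n => dist_nonneg) (fun n => ?_)
      (hl.comp (tendsto_add_atTop_nat 1))
    rw [Real.dist_eq]
    exact hRi (n + 1) (Nat.succ_pos n) ω
  have hIb : ∀ ω, |I ω| ≤ H * T := by
    intro ω
    have := intervalIntegral.norm_integral_le_of_norm_le_const (a := 0) (b := R ω)
      (f := fun s => Z s ω) (C := H) (fun x _ => hZH ω x)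
    rw [Real.norm_eq_abs, sub_zero, abs_of_nonneg (hZ.R0 ω)] at this
    exact this.trans (mul_le_mul_of_nonneg_left (hZ.RT ω) hH0)
  have hIi : Integrable I P := by
    refine (integrable_const (H * T)).mono' hIm.aestronglyMeasurable ?_
    exact Filter.Eventually.of_forall (fun ω => hIb ω)
  have hI0 : 0 ≤ ∫ ω, I ω ∂P := by
    apply integral_nonneg
    intro ω
    exact intervalIntegral.integral_nonneg (hZ.R0 ω) (fun s _ => sq_nonneg _)
  have hUi : ∀ n, Integrable (U n) P := by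
    intro n
    refine (integrable_const (2 * H)).mono' (hUm n).aestronglyMeasurable ?_
    refine Filter.Eventually.of_forall (fun ω => ?_)
    rw [Real.norm_eq_abs, abs_of_nonneg (hU0 n ω)]
    exact hUH n ω
  have hUil : Tendsto (fun n => ∫ ω, U n ω ∂P) atTop (𝓝 0) := by
    have := tendsto_integral_of_dominated_convergence (μ := P) (F := U) (f := fun _ => (0:ℝ))
      (fun _ => 2 * H) (fun n => (hUm n).aestronglyMeasurable) (integrable_const _)
      (fun n => Filter.Eventually.of_forall (fun ω => by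
        rw [Real.norm_eq_abs, abs_of_nonneg (hU0 n ω)]
        exact hUH n ω))
      (Filter.Eventually.of_forall (fun ω => hUlim ω))
    simpa using this
  -- the martingale part
  set A : ℕ → Ω → ℝ := fun n ω => ∑ i ∈ Finset.range n,
    (if gp 0 T n i < R ω then (f1 (B (gp 0 T n i) ω + V (gp 0 T n i) ω) - κ) else 0)
      * (B (gp 0 T n (i + 1)) ω - B (gp 0 T n i) ω) with hAdef
  have hA : ∀ n, 0 < n → MemLp (A n) 2 P ∧
      ∫ ω, (A n ω) ^ 2 ∂P ≤ ∫ ω, I ω ∂P + (T * ∫ ω, U n ω ∂P + H * (T / n)) := by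
    intro n hn
    obtain ⟨g0, gn, gm, gd, ga, gb, gmo⟩ := gf n hn
    obtain ⟨hs1, hs2, -⟩ := iso_sum hZ.bm 0 T le_rfl hT.le n hn
      (fun i ω => if gp 0 T n i < R ω then
        (f1 (B (gp 0 T n i) ω + V (gp 0 T n i) ω) - κ) else 0) (C + |κ|)
      (fun i _ => ci_meas hZ (fun x => f1 x - κ) (hc1.sub continuous_const) _ (ga i))
      (fun i _ ω => by
        split_ifs
        · exact (abs_sub _ _).trans (add_le_add (hf.b1 _) le_rfl)
        · rw [abs_zero]; positivity) n le_rfl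
    refine ⟨hs1, ?_⟩
    have e1 : ∫ ω, (A n ω) ^ 2 ∂P = ∫ ω, Ri n ω ∂P := by
      rw [hAdef]
      dsimp only
      rw [hs2, hRidef]
      dsimp only
      rw [integral_finsetSum]
      · apply Finset.sum_congr rfl
        intro i _
        rw [integral_mul_const, sub_zero]
        congr 2
        ext ω
        rw [hZdef]
        dsimp only
        split_ifs
        · rfl
        · norm_num
      · intro i _
        apply Integrable.mul_const
        refine (integrable_const H).mono' (Measurable.ite (hR_m _ (ga i)) (hZm _ (ga i))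
          measurable_const).aestronglyMeasurable ?_
        refine Filter.Eventually.of_forall (fun ω => ?_)
        rw [Real.norm_eq_abs]
        split_ifs
        · exact hZH ω _
        · simpa using hH0
    rw [e1]
    have hj : Integrable (fun ω => T * U n ω + H * (T / n)) P :=
      ((hUi n).const_mul T).add (integrable_const _)
    have e2 : ∫ ω, I ω ∂P + (T * ∫ ω, U n ω ∂P + H * (T / n))
        = ∫ ω, (I ω + (T * U n ω + H * (T / n))) ∂P := by
      rw [integral_add hIi hj, integral_add ((hUi n).const_mul T) (integrable_const _),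
        integral_const_mul, integral_const]
      simp
    rw [e2]
    apply integral_mono_of_nonneg
    · refine Filter.Eventually.of_forall (fun ω => ?_)
      apply Finset.sum_nonneg
      intro i _
      apply mul_nonneg
      · split_ifs
        · exact sq_nonneg _
        · exact le_rfl
      · positivity
    · exact hIi.add hj
    · refine Filter.Eventually.of_forall (fun ω => ?_)
      have := (abs_le.mp (hRi n hn ω)).2
      dsimp only
      linarith
  -- decomposition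
  have hMA : ∀ n, 0 < n → ∀ᵐ ω ∂P,
      M ω = (Rem B V R f f1 f2 0 T n n ω + κ * (D n ω - B (R ω) ω)) + A n ω := by
    intro n hn
    obtain ⟨g0, gn, gm, gd, ga, gb, gmo⟩ := gf n hn
    filter_upwards [hZ.V0] with ω hω
    have e3 : ∑ i ∈ Finset.range n, (if gp 0 T n i < R ω then
        f1 (B (gp 0 T n i) ω + V (gp 0 T n i) ω) * (B (gp 0 T n (i + 1)) ω - B (gp 0 T n i) ω)
        else 0) = κ * D n ω + A n ω := by
      rw [hDdef, hAdef]
      dsimp only
      rw [Finset.mul_sum, ← Finset.sum_add_distrib]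
      apply Finset.sum_congr rfl
      intro i _
      split_ifs
      · ring
      · ring
    rw [hM]
    unfold Rem
    dsimp only
    rw [gn, min_eq_right (hZ.RT ω), min_eq_left (hZ.R0 ω), hZ.bm.zero ω, hω, zero_add, e3]
    ring
  have hx : ∀ n, 0 < n → MemLp (fun ω => D n ω - B (R ω) ω) 2 P := by
    intro n hn
    refine (hW2 n).mono ((hDm n hn).sub hBR).aestronglyMeasurable ?_
    refine Filter.Eventually.of_forall (fun ω => ?_)
    rw [Real.norm_eq_abs, Real.norm_eq_abs, abs_of_nonneg (hW0 n ω)]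
    exact hD n hn ω
  have hx2 : ∀ n, 0 < n → MemLp (fun ω => Rem B V R f f1 f2 0 T n n ω
      + κ * (D n ω - B (R ω) ω)) 2 P := by
    intro n hn
    exact (hrem n hn n le_rfl).1.add ((hx n hn).const_mul κ)
  have hx3 : ∀ n, 0 < n → ∫ ω, (Rem B V R f f1 f2 0 T n n ω
      + κ * (D n ω - B (R ω) ω)) ^ 2 ∂P ≤ 2 * e n + 2 * κ ^ 2 * ∫ ω, (W n ω) ^ 2 ∂P := by
    intro n hn
    obtain ⟨hr1, hr2⟩ := hrem n hn n le_rfl
    have j1 : Integrable (fun ω => 2 * (Rem B V R f f1 f2 0 T n n ω) ^ 2) P :=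
      hr1.integrable_sq.const_mul 2
    have j2 : Integrable (fun ω => 2 * κ ^ 2 * (W n ω) ^ 2) P :=
      (hW2 n).integrable_sq.const_mul (2 * κ ^ 2)
    calc ∫ ω, (Rem B V R f f1 f2 0 T n n ω + κ * (D n ω - B (R ω) ω)) ^ 2 ∂P
        ≤ ∫ ω, (2 * (Rem B V R f f1 f2 0 T n n ω) ^ 2 + 2 * κ ^ 2 * (W n ω) ^ 2) ∂P := by
          apply integral_mono_of_nonneg (Filter.Eventually.of_forall (fun ω => sq_nonneg _))
            (j1.add j2)
          refine Filter.Eventually.of_forall (fun ω => ?_)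
          dsimp only [Pi.add_apply]
          have h1 : (D n ω - B (R ω) ω) ^ 2 ≤ (W n ω) ^ 2 := by
            rw [← sq_abs (D n ω - B (R ω) ω)]
            exact pow_le_pow_left₀ (abs_nonneg _) (hD n hn ω) 2
          have h2 : κ ^ 2 * (D n ω - B (R ω) ω) ^ 2 ≤ κ ^ 2 * (W n ω) ^ 2 :=
            mul_le_mul_of_nonneg_left h1 (sq_nonneg _)
          nlinarith [sq_nonneg (Rem B V R f f1 f2 0 T n n ω - κ * (D n ω - B (R ω) ω))]
      _ = 2 * ∫ ω, (Rem B V R f f1 f2 0 T n n ω) ^ 2 ∂P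
          + 2 * κ ^ 2 * ∫ ω, (W n ω) ^ 2 ∂P := by
          rw [integral_add j1 j2, integral_const_mul, integral_const_mul]
      _ ≤ 2 * e n + 2 * κ ^ 2 * ∫ ω, (W n ω) ^ 2 ∂P := by linarith
  have hMm : MemLp M 2 P := by
    refine MemLp.ae_eq ?_ ((hx2 1 one_pos).add (hA 1 one_pos).1)
    filter_upwards [hMA 1 one_pos] with ω hω
    rw [Pi.add_apply, hω]
  refine ⟨hMm, ?_⟩
  have hfin : ∀ δ : ℝ, 0 < δ → ∫ ω, (M ω) ^ 2 ∂P ≤ (1 + δ) * ∫ ω, I ω ∂P := by
    intro δ hδ
    have hb : ∀ n, 0 < n → ∫ ω, (M ω) ^ 2 ∂P ≤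
        (1 + 1 / δ) * (2 * e n + 2 * κ ^ 2 * ∫ ω, (W n ω) ^ 2 ∂P)
        + (1 + δ) * (∫ ω, I ω ∂P + (T * ∫ ω, U n ω ∂P + H * (T / n))) := by
      intro n hn
      set x : Ω → ℝ := fun ω => Rem B V R f f1 f2 0 T n n ω + κ * (D n ω - B (R ω) ω) with hxdef
      have j1 : Integrable (fun ω => (1 + 1 / δ) * (x ω) ^ 2) P :=
        (hx2 n hn).integrable_sq.const_mul _
      have j2 : Integrable (fun ω => (1 + δ) * (A n ω) ^ 2) P :=
        (hA n hn).1.integrable_sq.const_mul _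
      calc ∫ ω, (M ω) ^ 2 ∂P ≤ ∫ ω, ((1 + 1 / δ) * (x ω) ^ 2 + (1 + δ) * (A n ω) ^ 2) ∂P := by
            apply integral_mono_of_nonneg (Filter.Eventually.of_forall (fun ω => sq_nonneg _))
              (j1.add j2)
            filter_upwards [hMA n hn] with ω hω
            rw [hω]
            dsimp only [Pi.add_apply]
            have h1 : (x ω + A n ω) ^ 2 + (1 / δ) * (x ω - δ * A n ω) ^ 2
                = (1 + 1 / δ) * (x ω) ^ 2 + (1 + δ) * (A n ω) ^ 2 := by
              field_simp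
              ring
            have h2 : 0 ≤ (1 / δ) * (x ω - δ * A n ω) ^ 2 := by positivity
            rw [← h1]
            have h3 : (Rem B V R f f1 f2 0 T n n ω + κ * (D n ω - B (R ω) ω) + A n ω) ^ 2
                = (x ω + A n ω) ^ 2 := rfl
            rw [h3]
            linarith
        _ = (1 + 1 / δ) * ∫ ω, (x ω) ^ 2 ∂P + (1 + δ) * ∫ ω, (A n ω) ^ 2 ∂P := by
            rw [integral_add j1 j2, integral_const_mul, integral_const_mul]
        _ ≤ _ := by
            apply add_le_add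
            · exact mul_le_mul_of_nonneg_left (hx3 n hn) (by positivity)
            · exact mul_le_mul_of_nonneg_left (hA n hn).2 (by positivity)
    have hl : Tendsto (fun n : ℕ => (1 + 1 / δ) * (2 * e n + 2 * κ ^ 2 * ∫ ω, (W n ω) ^ 2 ∂P)
        + (1 + δ) * (∫ ω, I ω ∂P + (T * ∫ ω, U n ω ∂P + H * (T / n)))) atTop
        (𝓝 ((1 + 1 / δ) * (2 * 0 + 2 * κ ^ 2 * 0)
          + (1 + δ) * (∫ ω, I ω ∂P + (T * 0 + 0)))) := by
      exact (((he.const_mul 2).add (hWint.const_mul (2 * κ ^ 2))).const_mul (1 + 1 / δ)).add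
        ((((hUil.const_mul T).add hlimn).const_add (∫ ω, I ω ∂P)).const_mul (1 + δ))
    have := ge_of_tendsto hl (by
      filter_upwards [eventually_gt_atTop 0] with n hn
      exact hb n hn)
    simpa using this
  apply le_of_forall_pos_le_add
  intro ε hε
  have h1 := hfin (ε / (∫ ω, I ω ∂P + 1)) (by positivity)
  refine h1.trans ?_
  have h2 : ε / (∫ ω, I ω ∂P + 1) * ∫ ω, I ω ∂P ≤ ε := by
    rw [div_mul_eq_mul_div, div_le_iff₀ (by positivity)]
    nlinarith
  rw [add_mul, one_mul]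
  linarith

end ito

/-! ## TARGETS: prove these (statements must not be changed; helper lemmas are welcome) -/

section ito

variable {Ω : Type*} [mΩ : MeasurableSpace Ω] {P : Measure Ω} [IsProbabilityMeasure P]
  {F : ℝ → MeasurableSpace Ω} {B : ℝ → Ω → ℝ} {c T : ℝ} {V J : ℝ → Ω → ℝ} {R : Ω → ℝ}
  {f f1 f2 : ℝ → ℝ} {C : ℝ}

theorem mean_ito (hZ : ZP P F B c T V J R) (hf : TF f f1 f2 C) :
    ∫ ω, (f (B (R ω) ω + V (R ω) ω) - f c
      - (∫ s in (0:ℝ)..(R ω), f2 (B s ω + V s ω)) / 2) ∂P = 0 := by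
  have h := gen_mean hZ hf 0 T le_rfl hZ.T0.le le_rfl Set.univ MeasurableSet.univ
  rw [Measure.restrict_univ] at h
  refine Eq.trans ?_ h
  apply integral_congr_ae
  filter_upwards [hZ.V0] with ω hω
  rw [min_eq_right (hZ.RT ω), min_eq_left (hZ.R0 ω), hZ.bm.zero ω, hω, zero_add]

theorem mg_ito (hZ : ZP P F B c T V J (fun _ => T)) (hf : TF f f1 f2 C) (a b : ℝ) (ha : 0 ≤ a)
    (hab : a ≤ b) (hb : b ≤ T) (G : Set Ω) (hG : MeasurableSet[F a] G) :
    ∫ ω in G, (f (B b ω + V b ω) - f (B a ω + V a ω)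
      - (∫ s in a..b, f2 (B s ω + V s ω)) / 2) ∂P = 0 := by
  have h := gen_mean hZ hf a b ha hab hb G hG
  simp only [min_eq_left hb, min_eq_left (hab.trans hb)] at h
  exact h

end ito

end Pool.Agent.Helper41.SK
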