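import Pool.Agent.Helper41.SK.Defs
import Pool.Agent.Helper41.SK.MainDefs
import Pool.Agent.Helper41.SK.SA01
import Pool.Agent.Helper41.SK.SA03
import Pool.Agent.Helper41.SK.SA04
import Pool.Agent.Helper41.SK.SA05
import Pool.Agent.Helper41.SK.SA07
import Pool.Agent.Helper41.SK.SA08

set_option autoImplicit false

open scoped ENNReal NNReal Topology
open MeasureTheory ProbabilityTheory Set Filter

namespace Pool.Agent.Helper41.SK


/-! ## TARGETS: prove these (statements must not be changed; helper lemmas are welcome) -/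

section ito

variable {Ω : Type*} [mΩ : MeasurableSpace Ω] {P : Measure Ω} [IsProbabilityMeasure P]
  {F : ℝ → MeasurableSpace Ω} {B : ℝ → Ω → ℝ} {c T : ℝ} {V J : ℝ → Ω → ℝ} {R : Ω → ℝ}
  {f f1 f2 : ℝ → ℝ} {C : ℝ}

omit [IsProbabilityMeasure P] in
theorem o_Rmeas (hZ : ZP P F B c T V J R) : Measurable R := by
  apply measurable_of_Ioi
  intro x
  by_cases hx : 0 ≤ x
  · exact hZ.bm.le x _ (hZ.Rst x hx)
  · have : R ⁻¹' Ioi x = univ := by
      ext ω
      simp only [mem_preimage, mem_Ioi, mem_univ, iff_true]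
      exact lt_of_lt_of_le (not_le.1 hx) (hZ.R0 ω)
    rw [this]; exact MeasurableSet.univ

omit [IsProbabilityMeasure P] in
theorem o_joint (hZ : ZP P F B c T V J R) :
    Measurable (Function.uncurry (fun (s : ℝ) (ω : Ω) => B (max s 0) ω + V (max s 0) ω)) := by
  apply measurable_uncurry_of_continuous_of_measurable
  · intro ω
    exact ((hZ.bm.cont ω).comp (continuous_id.max continuous_const)).add
      ((hZ.Vc ω).comp (continuous_id.max continuous_const))
  · intro s
    exact ((hZ.bm.adap _ (le_max_right s 0)).mono (hZ.bm.le _) le_rfl).add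
      ((hZ.Vad _ (le_max_right s 0)).mono (hZ.bm.le _) le_rfl)

omit [IsProbabilityMeasure P] in
theorem o_meas (hZ : ZP P F B c T V J R) (g : ℝ → ℝ) (hg : Measurable g) :
    Measurable (fun ω => ∫ s in (0:ℝ)..(R ω), g (B s ω + V s ω)) := by
  have h1 : (fun ω => ∫ s in (0:ℝ)..(R ω), g (B s ω + V s ω)) =
      fun ω => ∫ s : ℝ, (fun q : Ω × ℝ => if 0 < q.2 ∧ q.2 ≤ R q.1 then
        g (B (max q.2 0) q.1 + V (max q.2 0) q.1) else 0) (ω, s) := by
    funext ω
    rw [intervalIntegral.integral_of_le (hZ.R0 ω), ← integral_indicator measurableSet_Ioc]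
    congr 1
    funext s
    by_cases hs : s ∈ Ioc 0 (R ω)
    · rw [indicator_of_mem hs]
      show _ = if 0 < s ∧ s ≤ R ω then g (B (max s 0) ω + V (max s 0) ω) else 0
      rw [if_pos ⟨hs.1, hs.2⟩, max_eq_left hs.1.le]
    · rw [indicator_of_notMem hs]
      show _ = if 0 < s ∧ s ≤ R ω then g (B (max s 0) ω + V (max s 0) ω) else 0
      rw [if_neg (fun h => hs ⟨h.1, h.2⟩)]
  rw [h1]
  have h2 : Measurable (fun q : Ω × ℝ => if 0 < q.2 ∧ q.2 ≤ R q.1 then
        g (B (max q.2 0) q.1 + V (max q.2 0) q.1) else 0) := by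
    apply Measurable.ite
    · apply MeasurableSet.inter
      · exact measurableSet_lt measurable_const measurable_snd
      · exact measurableSet_le measurable_snd ((o_Rmeas hZ).comp measurable_fst)
    · exact hg.comp ((o_joint hZ).comp (measurable_snd.prodMk measurable_fst))
    · exact measurable_const
  exact (StronglyMeasurable.integral_prod_right' (ν := (volume : Measure ℝ))
    h2.stronglyMeasurable).measurable

omit [IsProbabilityMeasure P] in
theorem o_XR (hZ : ZP P F B c T V J R) : Measurable (fun ω => B (R ω) ω + V (R ω) ω) := by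
  have h1 := (o_joint hZ).comp ((o_Rmeas hZ).prodMk measurable_id)
  have h2 : (fun ω => B (R ω) ω + V (R ω) ω) =
      (Function.uncurry (fun (s : ℝ) (ω : Ω) => B (max s 0) ω + V (max s 0) ω)) ∘
        (fun a => (R a, id a)) := by
    funext ω
    show _ = B (max (R ω) 0) ω + V (max (R ω) 0) ω
    rw [max_eq_left (hZ.R0 ω)]
  rw [h2]; exact h1

theorem occ_meas (hZ : ZP P F B c T V J R) (e : ℝ) :
    Measurable (fun ω => ∫ s in (0:ℝ)..(R ω), if |B s ω + V s ω| ≤ e then (1:ℝ) else 0) := by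
  apply o_meas hZ (fun x => if |x| ≤ e then (1:ℝ) else 0)
  exact Measurable.ite (measurableSet_le (by fun_prop) measurable_const) measurable_const
    measurable_const

/-- bounds for the integral of a function with values in `[0,1]` -/
theorem o_bd (hZ : ZP P F B c T V J R) (g : ℝ → ℝ) (hg : Continuous g)
    (h0 : ∀ x, 0 ≤ g x) (h1 : ∀ x, g x ≤ 1) (ω : Ω) :
    0 ≤ (∫ s in (0:ℝ)..(R ω), g (B s ω + V s ω)) ∧
      (∫ s in (0:ℝ)..(R ω), g (B s ω + V s ω)) ≤ T := by
  have hc : Continuous (fun s => g (B s ω + V s ω)) :=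
    hg.comp ((hZ.bm.cont ω).add (hZ.Vc ω))
  constructor
  · exact intervalIntegral.integral_nonneg (hZ.R0 ω) (fun s _ => h0 _)
  · have h2 := intervalIntegral.integral_mono_on (hZ.R0 ω) (hc.intervalIntegrable 0 (R ω))
      (continuous_const.intervalIntegrable (μ := volume) 0 (R ω)) (fun s _ => h1 (B s ω + V s ω))
    refine h2.trans ?_
    rw [intervalIntegral.integral_const, smul_eq_mul, mul_one, sub_zero]
    exact hZ.RT ω

theorem xr_l2 (hZ : ZP P F B c T V J R) :
    MemLp (fun ω => B (R ω) ω + V (R ω) ω) 2 P ∧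
    ∫ ω, (B (R ω) ω + V (R ω) ω) ^ 2 ∂P ≤ 4 * (1 + |c| + T) ^ 2 ∧
    ∫ ω, |B (R ω) ω + V (R ω) ω| ∂P ≤ 1 + |c| + T := by
  have hT := hZ.T0
  have hsq : ∀ x : ℝ, 1 ≤ √(1 + x ^ 2) := fun x => by
    rw [Real.one_le_sqrt]; nlinarith [sq_nonneg x]
  have hg2c : Continuous (fun x : ℝ => 1 / (√(1 + x ^ 2)) ^ 3) := by
    apply Continuous.div continuous_const (by fun_prop)
    intro x
    have := hsq x
    positivity
  have hg20 : ∀ x : ℝ, 0 ≤ 1 / (√(1 + x ^ 2)) ^ 3 := fun x => by positivity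
  have hg21 : ∀ x : ℝ, 1 / (√(1 + x ^ 2)) ^ 3 ≤ 1 := fun x => by
    have h := hsq x
    rw [div_le_one (by positivity)]
    exact one_le_pow₀ h
  obtain ⟨A, hA⟩ : ∃ A : Ω → ℝ, A = fun ω => ∫ s in (0:ℝ)..(R ω),
      (fun x : ℝ => 1 / (√(1 + x ^ 2)) ^ 3) (B s ω + V s ω) := ⟨_, rfl⟩
  have hAm : Measurable A := by rw [hA]; exact o_meas hZ _ hg2c.measurable
  have hAb : ∀ ω, 0 ≤ A ω ∧ A ω ≤ T := fun ω => by
    rw [hA]; exact o_bd hZ _ hg2c hg20 hg21 ω
  obtain ⟨X, hX⟩ : ∃ X : Ω → ℝ, X = fun ω => B (R ω) ω + V (R ω) ω := ⟨_, rfl⟩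
  have hXm : Measurable X := by rw [hX]; exact o_XR hZ
  obtain ⟨M, hM⟩ : ∃ M : Ω → ℝ, M = fun ω => √(1 + X ω ^ 2) - √(1 + c ^ 2) - A ω / 2 := ⟨_, rfl⟩
  have hiso := iso_ito hZ sq_tf 0
  have hMeq : (fun ω => √(1 + (B (R ω) ω + V (R ω) ω) ^ 2) - √(1 + c ^ 2)
      - (∫ s in (0:ℝ)..(R ω), 1 / (√(1 + (B s ω + V s ω) ^ 2)) ^ 3) / 2 - 0 * B (R ω) ω) = M := by
    rw [hM, hX, hA]; funext ω; simp
  have hML : MemLp M 2 P := by rw [← hMeq]; exact hiso.1
  have hM2 : ∫ ω, M ω ^ 2 ∂P ≤ T := by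
    have h1 : ∫ ω, M ω ^ 2 ∂P = ∫ ω, (√(1 + (B (R ω) ω + V (R ω) ω) ^ 2) - √(1 + c ^ 2)
      - (∫ s in (0:ℝ)..(R ω), 1 / (√(1 + (B s ω + V s ω) ^ 2)) ^ 3) / 2 - 0 * B (R ω) ω) ^ 2 ∂P := by
      rw [← hMeq]
    rw [h1]
    refine hiso.2.trans ?_
    have hg1c : Continuous (fun x : ℝ => (x / √(1 + x ^ 2) - 0) ^ 2) := by
      have : Continuous (fun x : ℝ => x / √(1 + x ^ 2)) := by
        apply Continuous.div continuous_id (by fun_prop)
        intro x
        have := hsq x
        positivity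
      fun_prop
    have hg10 : ∀ x : ℝ, 0 ≤ (x / √(1 + x ^ 2) - 0) ^ 2 := fun x => sq_nonneg _
    have hg11 : ∀ x : ℝ, (x / √(1 + x ^ 2) - 0) ^ 2 ≤ 1 := fun x => by
      rw [sub_zero, div_pow, Real.sq_sqrt (by positivity), div_le_one (by positivity)]
      linarith
    have h2 : ∀ ω, (∫ s in (0:ℝ)..(R ω), ((B s ω + V s ω) / √(1 + (B s ω + V s ω) ^ 2) - 0) ^ 2) ≤ T :=
      fun ω => (o_bd hZ _ hg1c hg10 hg11 ω).2
    calc ∫ ω, (∫ s in (0:ℝ)..(R ω), ((B s ω + V s ω) / √(1 + (B s ω + V s ω) ^ 2) - 0) ^ 2) ∂P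
        ≤ ∫ _ω : Ω, T ∂P := by
          apply integral_mono_of_nonneg
          · exact Filter.Eventually.of_forall fun ω => (o_bd hZ _ hg1c hg10 hg11 ω).1
          · exact integrable_const _
          · exact Filter.Eventually.of_forall h2
      _ = T := by simp
  have hMi : Integrable M P := hML.integrable (by norm_num)
  have hM0 : ∫ ω, M ω ∂P = 0 := by
    have h := mean_ito hZ sq_tf
    rw [← h]
    congr 1
    rw [hM, hX, hA]
  have hAi : Integrable A P := by
    refine Integrable.of_bound hAm.aestronglyMeasurable T ?_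
    exact Filter.Eventually.of_forall fun ω => by
      rw [Real.norm_eq_abs, abs_of_nonneg (hAb ω).1]; exact (hAb ω).2
  have hfX : ∀ ω, √(1 + X ω ^ 2) = √(1 + c ^ 2) + A ω / 2 + M ω := fun ω => by
    rw [hM]; ring
  have habs : ∀ x : ℝ, |x| ≤ √(1 + x ^ 2) := fun x => by
    apply Real.le_sqrt_of_sq_le
    rw [sq_abs]; linarith
  have hfc : √(1 + c ^ 2) ≤ 1 + |c| := by
    rw [Real.sqrt_le_left (by positivity)]
    nlinarith [abs_nonneg c, sq_abs c]
  have hAL : MemLp (fun ω => √(1 + c ^ 2) + A ω / 2) 2 P := by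
    refine MemLp.of_bound (by fun_prop) (1 + |c| + T) ?_
    refine Filter.Eventually.of_forall fun ω => ?_
    have h1 := hAb ω
    have h2 := Real.sqrt_nonneg (1 + c ^ 2)
    rw [Real.norm_eq_abs, abs_of_nonneg (by linarith)]
    linarith
  have hfL : MemLp (fun ω => √(1 + X ω ^ 2)) 2 P := by
    have := hAL.add hML
    refine this.ae_eq (Filter.Eventually.of_forall fun ω => ?_)
    exact (hfX ω).symm
  have hXL : MemLp X 2 P := by
    refine hfL.mono hXm.aestronglyMeasurable (Filter.Eventually.of_forall fun ω => ?_)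
    rw [Real.norm_eq_abs, Real.norm_eq_abs, abs_of_nonneg (Real.sqrt_nonneg _)]
    exact habs _
  have g1 : ∫ ω, X ω ^ 2 ∂P ≤ 4 * (1 + |c| + T) ^ 2 := by
    have hb : ∀ ω, X ω ^ 2 ≤ 2 * (1 + |c| + T) ^ 2 + 2 * M ω ^ 2 := by
      intro ω
      have h1 := hAb ω
      have h2 := habs (X ω)
      rw [hfX ω] at h2
      have h3 : |X ω| ≤ (1 + |c| + T) + |M ω| := by
        have := le_abs_self (M ω)
        linarith
      have h4 : X ω ^ 2 ≤ ((1 + |c| + T) + |M ω|) ^ 2 := by
        rw [← sq_abs (X ω)]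
        exact pow_le_pow_left₀ (abs_nonneg _) h3 2
      have h5 := sq_abs (M ω)
      nlinarith [sq_nonneg ((1 + |c| + T) - |M ω|)]
    have hi2 : Integrable (fun ω => M ω ^ 2) P := hML.integrable_sq
    calc ∫ ω, X ω ^ 2 ∂P ≤ ∫ ω, (2 * (1 + |c| + T) ^ 2 + 2 * M ω ^ 2) ∂P :=
          integral_mono hXL.integrable_sq ((integrable_const _).add (hi2.const_mul 2)) hb
      _ = 2 * (1 + |c| + T) ^ 2 + 2 * ∫ ω, M ω ^ 2 ∂P := by
          have k1 : ∫ ω, 2 * M ω ^ 2 ∂P = 2 * ∫ ω, M ω ^ 2 ∂P := integral_const_mul _ _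
          rw [integral_add (integrable_const _) (hi2.const_mul 2), k1,
            integral_const, probReal_univ, one_smul]
      _ ≤ 2 * (1 + |c| + T) ^ 2 + 2 * T := by linarith
      _ ≤ 4 * (1 + |c| + T) ^ 2 := by
          have := abs_nonneg c
          nlinarith
  have g2 : ∫ ω, |X ω| ∂P ≤ 1 + |c| + T := by
    calc ∫ ω, |X ω| ∂P ≤ ∫ ω, √(1 + X ω ^ 2) ∂P :=
          integral_mono (hXL.integrable (by norm_num)).abs (hfL.integrable (by norm_num))
            (fun ω => habs _)
      _ = ∫ ω, ((√(1 + c ^ 2) + A ω / 2) + M ω) ∂P := by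
          congr 1; funext ω; exact hfX ω
      _ = √(1 + c ^ 2) + (∫ ω, A ω ∂P) / 2 := by
          have k1 : ∫ ω, ((√(1 + c ^ 2) + A ω / 2) + M ω) ∂P =
              (∫ ω, (√(1 + c ^ 2) + A ω / 2) ∂P) + ∫ ω, M ω ∂P :=
            integral_add (hAL.integrable (by norm_num)) hMi
          rw [k1, hM0, add_zero, integral_add (integrable_const _) (hAi.div_const 2), integral_div,
            integral_const, probReal_univ, one_smul]
      _ ≤ (1 + |c|) + T / 2 := by
          have h3 : ∫ ω, A ω ∂P ≤ T := by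
            calc ∫ ω, A ω ∂P ≤ ∫ _ω : Ω, T ∂P :=
                  integral_mono hAi (integrable_const _) (fun ω => (hAb ω).2)
              _ = T := by simp
          linarith
      _ ≤ 1 + |c| + T := by linarith
  rw [hX] at hXL g1 g2
  exact ⟨hXL, g1, g2⟩

/-- cutoff kernel -/
noncomputable def okk (e x : ℝ) : ℝ := max 0 (min 1 (3 - 2 * (|x| / e)))

theorem okk_facts (e : ℝ) (he : 0 < e) : Continuous (okk e) ∧ (∀ x, 0 ≤ okk e x) ∧
    (∀ x, okk e x ≤ 1) ∧ (∀ x, |x| ≤ e → okk e x = 1) ∧ (∀ x, 3 / 2 * e ≤ |x| → okk e x = 0) ∧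
    (∀ x y, |okk e x - okk e y| ≤ 2 / e * |x - y|) := by
  refine ⟨by unfold okk; fun_prop, fun x => le_max_left _ _, fun x => ?_, fun x hx => ?_,
    fun x hx => ?_, fun x y => ?_⟩
  · unfold okk; exact max_le zero_le_one (min_le_left _ _)
  · unfold okk
    have : |x| / e ≤ 1 := by rw [div_le_one he]; exact hx
    rw [min_eq_left (by linarith), max_eq_right zero_le_one]
  · unfold okk
    have : 3 / 2 ≤ |x| / e := by rw [le_div_iff₀ he]; exact hx
    rw [max_eq_left]
    exact (min_le_right _ _).trans (by linarith)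
  · unfold okk
    refine (abs_max_sub_max_le_max _ _ _ _).trans ?_
    rw [sub_self, abs_zero, max_eq_right (abs_nonneg _)]
    refine (abs_min_sub_min_le_max _ _ _ _).trans ?_
    rw [sub_self, abs_zero, max_eq_right (abs_nonneg _)]
    have h1 : 3 - 2 * (|x| / e) - (3 - 2 * (|y| / e)) = 2 / e * (|y| - |x|) := by
      field_simp; ring
    rw [h1, abs_mul, abs_of_pos (by positivity), abs_sub_comm x y]
    exact mul_le_mul_of_nonneg_left (abs_abs_sub_abs_le y x) (by positivity)

/-- first primitive -/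
noncomputable def ok1 (e x : ℝ) : ℝ := ∫ y in (0:ℝ)..x, okk e y

/-- second primitive -/
noncomputable def ok0 (e x : ℝ) : ℝ := ∫ y in (0:ℝ)..x, ok1 e y

theorem ok1_facts (e : ℝ) (he : 0 < e) : (∀ x, HasDerivAt (ok1 e) (okk e x) x) ∧
    (∀ x, 0 ≤ x → 0 ≤ ok1 e x) ∧ (∀ x, x ≤ 0 → ok1 e x ≤ 0) ∧ (∀ x, |ok1 e x| ≤ 3 / 2 * e) := by
  obtain ⟨hc, h0, h1, -, h3, -⟩ := okk_facts e he
  refine ⟨fun x => ?_, fun x hx => ?_, fun x hx => ?_, fun x => ?_⟩
  · exact intervalIntegral.integral_hasDerivAt_right (hc.intervalIntegrable _ _)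
      (hc.stronglyMeasurableAtFilter _ _) hc.continuousAt
  · exact intervalIntegral.integral_nonneg hx (fun y _ => h0 y)
  · unfold ok1
    rw [intervalIntegral.integral_symm]
    have := intervalIntegral.integral_nonneg hx (fun y _ => h0 y) (μ := volume)
    linarith
  · -- reduce to the window
    have key : ∀ a b : ℝ, |a| ≤ 3 / 2 * e → (∀ y ∈ uIoc a b, okk e y = 0) → |∫ y in (0:ℝ)..b, okk e y| ≤ 3 / 2 * e := by
      intro a b ha hab
      rw [← intervalIntegral.integral_add_adjacent_intervals (hc.intervalIntegrable 0 a)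
        (hc.intervalIntegrable a b)]
      have hz : ∫ y in a..b, okk e y = 0 := by
        rw [← intervalIntegral.integral_zero (a := a) (b := b) (μ := volume) (E := ℝ)]
        apply intervalIntegral.integral_congr_ae
        exact Filter.Eventually.of_forall fun y hy => hab y hy
      rw [hz, add_zero, ← Real.norm_eq_abs]
      have := intervalIntegral.norm_integral_le_of_norm_le_const (a := 0) (b := a) (C := 1)
        (f := okk e) (fun y _ => by rw [Real.norm_eq_abs, abs_of_nonneg (h0 y)]; exact h1 y)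
      rw [one_mul, sub_zero] at this
      exact this.trans ha
    unfold ok1
    by_cases hx : |x| ≤ 3 / 2 * e
    · exact key x x hx (by simp)
    · rw [not_le] at hx
      rcases le_or_gt 0 x with h | h
      · rw [abs_of_nonneg h] at hx
        apply key (3 / 2 * e) x
        · rw [abs_of_pos (by positivity)]
        · intro y hy
          rw [uIoc_of_le hx.le] at hy
          apply h3
          rw [abs_of_pos (by linarith [hy.1])]
          exact hy.1.le
      · rw [abs_of_neg h] at hx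
        apply key (-(3 / 2 * e)) x
        · rw [abs_neg, abs_of_pos (by positivity)]
        · intro y hy
          rw [uIoc_comm, uIoc_of_le (by linarith)] at hy
          apply h3
          rw [abs_of_nonpos (by linarith [hy.2])]
          linarith [hy.2]

theorem ok_tf (e : ℝ) (he : 0 < e) (he1 : e ≤ 1) : TF (ok0 e) (ok1 e) (okk e) (2 / e + 2) := by
  obtain ⟨hc, h0, h1, -, h3, hl⟩ := okk_facts e he
  obtain ⟨g1, -, -, g4⟩ := ok1_facts e he
  have hc1 : Continuous (ok1 e) := continuous_iff_continuousAt.2 fun x => (g1 x).continuousAt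
  have hpos : 0 < 2 / e := by positivity
  refine ⟨fun x => ?_, g1, ?_, fun x => ?_, fun x => ?_, fun x y => ?_⟩
  · exact intervalIntegral.integral_hasDerivAt_right (hc1.intervalIntegrable _ _)
      (hc1.stronglyMeasurableAtFilter _ _) hc1.continuousAt
  · unfold ok1; simp
  · exact (g4 x).trans (by linarith)
  · rw [abs_of_nonneg (h0 x)]; exact (h1 x).trans (by linarith)
  · refine (hl x y).trans ?_
    exact mul_le_mul_of_nonneg_right (by linarith) (abs_nonneg _)

theorem ok0_facts (e : ℝ) (he : 0 < e) : (∀ x, 0 ≤ ok0 e x) ∧ ∀ x, |ok0 e x| ≤ 3 / 2 * e * |x| := by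
  obtain ⟨g1, g2, g3, g4⟩ := ok1_facts e he
  refine ⟨fun x => ?_, fun x => ?_⟩
  · rcases le_total 0 x with h | h
    · exact intervalIntegral.integral_nonneg h (fun y hy => g2 y hy.1)
    · unfold ok0
      rw [intervalIntegral.integral_symm, ← intervalIntegral.integral_neg]
      exact intervalIntegral.integral_nonneg h (fun y hy => by linarith [g3 y hy.2])
  · have := intervalIntegral.norm_integral_le_of_norm_le_const (a := 0) (b := x) (C := 3 / 2 * e)
        (f := ok1 e) (fun y _ => by rw [Real.norm_eq_abs]; exact g4 y)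
    rw [sub_zero, Real.norm_eq_abs] at this
    exact this

theorem occ (hZ : ZP P F B c T V J R) (e : ℝ) (he : 0 < e) (he1 : e ≤ 1) :
    ∫ ω, (∫ s in (0:ℝ)..(R ω), if |B s ω + V s ω| ≤ e then (1:ℝ) else 0) ∂P ≤
      3 * e * (1 + |c| + T) := by
  obtain ⟨hc, h0, h1, h2, -, -⟩ := okk_facts e he
  obtain ⟨p0, p1⟩ := ok0_facts e he
  obtain ⟨x1, -, x3⟩ := xr_l2 hZ
  have htf := ok_tf e he he1
  have hmean := mean_ito hZ htf
  have hf0c : Continuous (ok0 e) := continuous_iff_continuousAt.2 fun x => (htf.h1 x).continuousAt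
  have hAm : Measurable (fun ω => ∫ s in (0:ℝ)..(R ω), okk e (B s ω + V s ω)) :=
    o_meas hZ _ hc.measurable
  have hAi : Integrable (fun ω => ∫ s in (0:ℝ)..(R ω), okk e (B s ω + V s ω)) P := by
    refine Integrable.of_bound hAm.aestronglyMeasurable T ?_
    exact Filter.Eventually.of_forall fun ω => by
      rw [Real.norm_eq_abs, abs_of_nonneg (o_bd hZ _ hc h0 h1 ω).1]
      exact (o_bd hZ _ hc h0 h1 ω).2
  have hXi : Integrable (fun ω => B (R ω) ω + V (R ω) ω) P := x1.integrable (by norm_num)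
  have hfi : Integrable (fun ω => ok0 e (B (R ω) ω + V (R ω) ω)) P := by
    refine (hXi.abs.const_mul (3 / 2 * e)).mono' (hf0c.measurable.comp (o_XR hZ)).aestronglyMeasurable ?_
    exact Filter.Eventually.of_forall fun ω => by rw [Real.norm_eq_abs]; exact p1 _
  have e1 : ∫ ω, (∫ s in (0:ℝ)..(R ω), okk e (B s ω + V s ω)) ∂P =
      2 * ((∫ ω, ok0 e (B (R ω) ω + V (R ω) ω) ∂P) - ok0 e c) := by
    have h3 : ∫ ω, (ok0 e (B (R ω) ω + V (R ω) ω) - ok0 e c
      - (∫ s in (0:ℝ)..(R ω), okk e (B s ω + V s ω)) / 2) ∂P =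
      (∫ ω, ok0 e (B (R ω) ω + V (R ω) ω) ∂P) - ok0 e c -
        (∫ ω, (∫ s in (0:ℝ)..(R ω), okk e (B s ω + V s ω)) ∂P) / 2 := by
      have k1 : Integrable (fun ω => ok0 e (B (R ω) ω + V (R ω) ω) - ok0 e c) P :=
        hfi.sub (integrable_const _)
      rw [integral_sub k1 (hAi.div_const 2),
        integral_sub hfi (integrable_const _), integral_div, integral_const, probReal_univ, one_smul]
    rw [h3] at hmean
    linarith
  have e2 : ∫ ω, ok0 e (B (R ω) ω + V (R ω) ω) ∂P ≤ 3 / 2 * e * (1 + |c| + T) := by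
    calc ∫ ω, ok0 e (B (R ω) ω + V (R ω) ω) ∂P
        ≤ ∫ ω, 3 / 2 * e * |B (R ω) ω + V (R ω) ω| ∂P :=
          integral_mono hfi (hXi.abs.const_mul _) (fun ω => (le_abs_self _).trans (p1 _))
      _ = 3 / 2 * e * ∫ ω, |B (R ω) ω + V (R ω) ω| ∂P := integral_const_mul _ _
      _ ≤ _ := mul_le_mul_of_nonneg_left x3 (by positivity)
  calc ∫ ω, (∫ s in (0:ℝ)..(R ω), if |B s ω + V s ω| ≤ e then (1:ℝ) else 0) ∂P
      ≤ ∫ ω, (∫ s in (0:ℝ)..(R ω), okk e (B s ω + V s ω)) ∂P := by
        apply integral_mono_of_nonneg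
        · refine Filter.Eventually.of_forall fun ω => ?_
          apply intervalIntegral.integral_nonneg (hZ.R0 ω)
          intro s _
          split_ifs <;> norm_num
        · exact hAi
        · refine Filter.Eventually.of_forall fun ω => ?_
          have hcX : Continuous (fun s => B s ω + V s ω) := (hZ.bm.cont ω).add (hZ.Vc ω)
          apply intervalIntegral.integral_mono_on (hZ.R0 ω)
          · rw [intervalIntegrable_iff_integrableOn_Ioc_of_le (hZ.R0 ω)]
            refine Integrable.of_bound ?_ 1 ?_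
            · apply Measurable.aestronglyMeasurable
              exact Measurable.ite (measurableSet_le hcX.measurable.abs measurable_const)
                measurable_const measurable_const
            · refine Filter.Eventually.of_forall fun s => ?_
              split_ifs <;> simp
          · exact (hc.comp hcX).intervalIntegrable 0 (R ω)
          · intro s _
            show (if |B s ω + V s ω| ≤ e then (1:ℝ) else 0) ≤ okk e (B s ω + V s ω)
            split_ifs with h
            · rw [h2 _ h]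
            · exact h0 _
    _ ≤ 3 * e * (1 + |c| + T) := by
        rw [e1]
        have := p0 c
        nlinarith

end ito

end Pool.Agent.Helper41.SK
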