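import Pool.Agent.Helper41.SK.Defs
import Pool.Agent.Helper41.SK.MainDefs
import Pool.Agent.Helper41.SK.SA01
import Pool.Agent.Helper41.SK.SA03
import Pool.Agent.Helper41.SK.SA04
import Pool.Agent.Helper41.SK.SA05
import Pool.Agent.Helper41.SK.SA07
import Pool.Agent.Helper41.SK.SA08
import Pool.Agent.Helper41.SK.SA09

set_option autoImplicit false

open scoped ENNReal NNReal Topology
open MeasureTheory ProbabilityTheory Set Filter

namespace Pool.Agent.Helper41.SK


/-! ## TARGETS: prove these (statements must not be changed; helper lemmas are welcome) -/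

section ito

variable {Ω : Type*} [mΩ : MeasurableSpace Ω] {P : Measure Ω} [IsProbabilityMeasure P]
  {F : ℝ → MeasurableSpace Ω} {B : ℝ → Ω → ℝ} {c T : ℝ} {V J : ℝ → Ω → ℝ} {R : Ω → ℝ}
  {f f1 f2 : ℝ → ℝ} {C : ℝ}

theorem kc_path (hZ : ZP P F B c T V J R) (ω : Ω) : Continuous (fun s => B s ω + V s ω) :=
  (hZ.bm.cont ω).add (hZ.Vc ω)

theorem kc_ind (hZ : ZP P F B c T V J R) (d : ℝ) (ω : Ω) (a b : ℝ) :
    IntervalIntegrable (fun s => if |B s ω + V s ω| ≤ d then (1:ℝ) else 0) volume a b := by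
  have hg : IntervalIntegrable (fun _ : ℝ => (1:ℝ)) volume a b := intervalIntegrable_const
  refine hg.mono_fun' ?_ ?_
  · apply Measurable.aestronglyMeasurable
    refine Measurable.ite ?_ measurable_const measurable_const
    exact (isClosed_le (kc_path hZ ω).abs continuous_const).measurableSet
  · apply ae_of_all
    intro s
    dsimp only
    split_ifs <;> simp

theorem kc_occ_int (hZ : ZP P F B c T V J R) (d : ℝ) :
    Integrable (fun ω => ∫ s in (0:ℝ)..(R ω), if |B s ω + V s ω| ≤ d then (1:ℝ) else 0) P := by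
  refine Integrable.of_bound (occ_meas hZ d).aestronglyMeasurable T (ae_of_all _ ?_)
  intro ω
  have h1 := intervalIntegral.norm_integral_le_of_norm_le_const (a := 0) (b := R ω) (C := 1)
    (f := fun s => if |B s ω + V s ω| ≤ d then (1:ℝ) else 0) (by
      intro x _
      split_ifs <;> simp)
  have h2 := hZ.R0 ω
  have h3 := hZ.RT ω
  rw [sub_zero, abs_of_nonneg h2, one_mul] at h1
  exact h1.trans h3

theorem kc_occ (hZ : ZP P F B c T V J R) (d : ℝ) (hd : 0 < d) (hd1 : d ≤ 1) (h : ℝ → ℝ)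
    (hc : Continuous h) (hb : ∀ x, h x ^ 2 ≤ if |x| ≤ d then (1:ℝ) else 0) :
    ∫ ω, (∫ s in (0:ℝ)..(R ω), (h (B s ω + V s ω)) ^ 2) ∂P ≤ 3 * d * (1 + |c| + T) := by
  refine le_trans (integral_mono_of_nonneg (ae_of_all _ ?_) (kc_occ_int hZ d) (ae_of_all _ ?_))
    (occ hZ d hd hd1)
  · intro ω
    exact intervalIntegral.integral_nonneg (hZ.R0 ω) (fun _ _ => sq_nonneg _)
  · intro ω
    refine intervalIntegral.integral_mono_on (hZ.R0 ω) ?_ (kc_ind hZ d ω _ _) ?_
    · exact ((hc.comp (kc_path hZ ω)).pow 2).intervalIntegrable _ _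
    · intro s _
      exact hb _

theorem kc_Fp_nonpos (e y : ℝ) (he : 0 < e) (hy : y ≤ 0) : Fp e y = 0 := by
  unfold Fp
  rw [J1_facts.2.1 (y / e) (div_nonpos_of_nonpos_of_nonneg hy he.le), mul_zero]

theorem kc_Fs (e x : ℝ) (he : 0 < e) : abs (Fp e x + Fp e (-x) - abs x) ≤ e / 2 := by
  rcases le_total 0 x with hx | hx
  · have h1 := Fp_near e x he
    rw [max_eq_left hx] at h1
    rw [kc_Fp_nonpos e (-x) he (by linarith), abs_of_nonneg hx, add_zero, abs_sub_comm]
    exact h1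
  · have h1 := Fp_near e (-x) he
    rw [max_eq_left (by linarith : 0 ≤ -x)] at h1
    rw [kc_Fp_nonpos e x he hx, abs_of_nonpos hx, zero_add, abs_sub_comm]
    exact h1

theorem kc_Fd (e x : ℝ) (he : 0 < e) : |Fp e x - Fp e (-x) - x| ≤ e / 2 := by
  rcases le_total 0 x with hx | hx
  · have h1 := Fp_near e x he
    rw [max_eq_left hx] at h1
    rw [kc_Fp_nonpos e (-x) he (by linarith), sub_zero, abs_sub_comm]
    exact h1
  · have h1 := Fp_near e (-x) he
    rw [max_eq_left (by linarith : 0 ≤ -x)] at h1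
    rw [kc_Fp_nonpos e x he hx, zero_sub]
    have : -Fp e (-x) - x = -x - Fp e (-x) := by ring
    rw [this]
    exact h1

theorem kc_I1c : Continuous I1 := by
  rw [continuous_iff_continuousAt]
  intro z
  exact (I1_facts.1 z).continuousAt

theorem kc_chic : Continuous chi := by
  unfold chi cl
  fun_prop

theorem kc_kapc (e : ℝ) : Continuous (kap e) := by
  unfold kap kp
  have := kc_chic
  fun_prop

theorem kc_g (x e : ℝ) (he : 0 < e) :
    (0 ≤ x → I1 (-x / e) = 0) ∧ (x ≤ 0 → I1 (x / e) = 0) ∧ (e ≤ x → I1 (x / e) = 1) ∧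
      (x ≤ -e → I1 (-x / e) = 1) := by
  obtain ⟨_, _, _, h0, h1, _⟩ := I1_facts
  refine ⟨fun h => h0 _ (div_nonpos_of_nonpos_of_nonneg (by linarith) he.le),
    fun h => h0 _ (div_nonpos_of_nonpos_of_nonneg h he.le), fun h => h1 _ ?_, fun h => h1 _ ?_⟩
  · rw [le_div_iff₀ he]; linarith
  · rw [le_div_iff₀ he]; linarith

theorem kc_b1 (x e e' : ℝ) (he : 0 < e) (he' : 0 < e') :
    ((I1 (x / e) - I1 (-x / e)) - (I1 (x / e') - I1 (-x / e'))) ^ 2 ≤
      if |x| ≤ max e e' then (1:ℝ) else 0 := by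
  obtain ⟨a1, a2, a3, a4⟩ := kc_g x e he
  obtain ⟨b1, b2, b3, b4⟩ := kc_g x e' he'
  have n0 := I1_facts.2.1
  have n1 := I1_facts.2.2.1
  rcases le_total 0 x with hx | hx
  · rw [a1 hx, b1 hx]
    split_ifs with h
    · have := n0 (x / e); have := n1 (x / e); have := n0 (x / e'); have := n1 (x / e')
      nlinarith
    · rw [not_le, abs_of_nonneg hx, max_lt_iff] at h
      rw [a3 h.1.le, b3 h.2.le]; norm_num
  · rw [a2 hx, b2 hx]
    split_ifs with h
    · have := n0 (-x / e); have := n1 (-x / e); have := n0 (-x / e'); have := n1 (-x / e')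
      nlinarith
    · rw [not_le, abs_of_nonpos hx, max_lt_iff] at h
      rw [a4 (by linarith [h.1]), b4 (by linarith [h.2])]; norm_num

theorem kc_b2 (x e : ℝ) (he : 0 < e) :
    ((I1 (x / e) + I1 (-x / e)) - 1) ^ 2 ≤ if |x| ≤ e then (1:ℝ) else 0 := by
  obtain ⟨a1, a2, a3, a4⟩ := kc_g x e he
  have n0 := I1_facts.2.1
  have n1 := I1_facts.2.2.1
  rcases le_total 0 x with hx | hx
  · rw [a1 hx]
    split_ifs with h
    · have := n0 (x / e); have := n1 (x / e)
      nlinarith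
    · rw [not_le, abs_of_nonneg hx] at h
      rw [a3 h.le]; norm_num
  · rw [a2 hx]
    split_ifs with h
    · have := n0 (-x / e); have := n1 (-x / e)
      nlinarith
    · rw [not_le, abs_of_nonpos hx] at h
      rw [a4 (by linarith)]; norm_num

theorem kc_b3 (x e : ℝ) (he : 0 < e) : (I1 (x / e) - I1 (-x / e)) ^ 2 ≤ 1 := by
  obtain ⟨a1, a2, a3, a4⟩ := kc_g x e he
  have n0 := I1_facts.2.1
  have n1 := I1_facts.2.2.1
  rcases le_total 0 x with hx | hx
  · rw [a1 hx]
    have := n0 (x / e); have := n1 (x / e)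
    nlinarith
  · rw [a2 hx]
    have := n0 (-x / e); have := n1 (-x / e)
    nlinarith

/-- final step: `G = a - D` with `|a|` bounded -/
theorem kc_fin (G a D : Ω → ℝ) (K L : ℝ) (hG : ∀ ω, G ω = a ω - D ω) (ha : ∀ ω, |a ω| ≤ K)
    (hD : MemLp D 2 P) (hL : ∫ ω, (D ω) ^ 2 ∂P ≤ L) :
    ∫ ω, (G ω) ^ 2 ∂P ≤ 2 * K ^ 2 + 2 * L := by
  have hi : Integrable (fun ω => 2 * K ^ 2 + 2 * (D ω) ^ 2) P :=
    (integrable_const _).add (hD.integrable_sq.const_mul 2)
  calc ∫ ω, (G ω) ^ 2 ∂P ≤ ∫ ω, (2 * K ^ 2 + 2 * (D ω) ^ 2) ∂P := by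
        refine integral_mono_of_nonneg (ae_of_all _ fun ω => sq_nonneg _) hi (ae_of_all _ ?_)
        intro ω
        dsimp only
        rw [hG ω]
        have h1 : (a ω) ^ 2 ≤ K ^ 2 := by
          have := ha ω
          exact sq_le_sq' (by linarith [(abs_le.1 this).1]) (abs_le.1 this).2
        nlinarith [sq_nonneg (a ω + D ω)]
    _ = 2 * K ^ 2 + 2 * ∫ ω, (D ω) ^ 2 ∂P := by
        rw [integral_add (integrable_const _) (hD.integrable_sq.const_mul 2)]
        simp [integral_const_mul]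
    _ ≤ _ := by linarith

theorem kap_cauchy (hZ : ZP P F B c T V J R) (e e' : ℝ) (he : 0 < e) (he1 : e ≤ 1)
    (he' : 0 < e') (he1' : e' ≤ 1) :
    ∫ ω, ((∫ s in (0:ℝ)..(R ω), kap e (B s ω + V s ω))
      - ∫ s in (0:ℝ)..(R ω), kap e' (B s ω + V s ω)) ^ 2 ∂P ≤
      20 * (1 + |c| + T) * max e e' := by
  have t1 := Fs_tf e he he1
  have t2 := Fs_tf e' he' he1'
  have hf : TF (fun x => (Fp e x + Fp e (-x)) - (Fp e' x + Fp e' (-x)))
      (fun x => (I1 (x / e) - I1 (-x / e)) - (I1 (x / e') - I1 (-x / e')))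
      (fun x => 2 * kap e x - 2 * kap e' x) (12 / e ^ 2 + 12 / e' ^ 2) := by
    refine ⟨fun x => (t1.h1 x).sub (t2.h1 x), fun x => (t1.h2 x).sub (t2.h2 x), ?_, ?_, ?_, ?_⟩
    · have z1 : I1 (0 / e) - I1 (-0 / e) = 0 := t1.z
      have z2 : I1 (0 / e') - I1 (-0 / e') = 0 := t2.z
      show I1 (0 / e) - I1 (-0 / e) - (I1 (0 / e') - I1 (-0 / e')) = 0
      rw [z1, z2, sub_zero]
    · intro x
      exact (abs_sub _ _).trans (add_le_add (t1.b1 x) (t2.b1 x))
    · intro x
      exact (abs_sub _ _).trans (add_le_add (t1.b2 x) (t2.b2 x))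
    · intro x y
      have e0 : 2 * kap e x - 2 * kap e' x - (2 * kap e y - 2 * kap e' y) =
          (2 * kap e x - 2 * kap e y) - (2 * kap e' x - 2 * kap e' y) := by ring
      rw [e0, add_mul]
      exact (abs_sub _ _).trans (add_le_add (t1.lip x y) (t2.lip x y))
  obtain ⟨hM, hE⟩ := iso_ito hZ hf 0
  set d := max e e' with hd
  have hd0 : 0 < d := lt_max_of_lt_left he
  have hd1 : d ≤ 1 := max_le he1 he1'
  have hT := hZ.T0
  have hm : 1 ≤ 1 + |c| + T := by have := abs_nonneg c; linarith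
  have hocc := kc_occ hZ d hd0 hd1
    (fun x => (I1 (x / e) - I1 (-x / e)) - (I1 (x / e') - I1 (-x / e')) - 0)
    (by have := kc_I1c; fun_prop) (by
      intro x
      have := kc_b1 x e e' he he'
      rw [sub_zero]
      exact this)
  have hL := hE.trans hocc
  have hfin := kc_fin (P := P)
    (fun ω => (∫ s in (0:ℝ)..(R ω), kap e (B s ω + V s ω))
      - ∫ s in (0:ℝ)..(R ω), kap e' (B s ω + V s ω))
    (fun ω => ((Fp e (B (R ω) ω + V (R ω) ω) + Fp e (-(B (R ω) ω + V (R ω) ω)))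
        - (Fp e' (B (R ω) ω + V (R ω) ω) + Fp e' (-(B (R ω) ω + V (R ω) ω))))
      - ((Fp e c + Fp e (-c)) - (Fp e' c + Fp e' (-c)))) _ (2 * d) _ (by
        intro ω
        have i1 : IntervalIntegrable (fun s => 2 * kap e (B s ω + V s ω)) volume 0 (R ω) :=
          (continuous_const.mul ((kc_kapc e).comp (kc_path hZ ω))).intervalIntegrable _ _
        have i2 : IntervalIntegrable (fun s => 2 * kap e' (B s ω + V s ω)) volume 0 (R ω) :=
          (continuous_const.mul ((kc_kapc e').comp (kc_path hZ ω))).intervalIntegrable _ _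
        have e3 : ∫ s in (0:ℝ)..(R ω), (2 * kap e (B s ω + V s ω) - 2 * kap e' (B s ω + V s ω)) =
            2 * (∫ s in (0:ℝ)..(R ω), kap e (B s ω + V s ω))
              - 2 * ∫ s in (0:ℝ)..(R ω), kap e' (B s ω + V s ω) := by
          rw [intervalIntegral.integral_sub i1 i2, intervalIntegral.integral_const_mul,
            intervalIntegral.integral_const_mul]
        rw [e3]
        ring) (by
        intro ω
        set x := B (R ω) ω + V (R ω) ω
        have a1 := abs_le.1 (kc_Fs e x he)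
        have a2 := abs_le.1 (kc_Fs e' x he')
        have a3 := abs_le.1 (kc_Fs e c he)
        have a4 := abs_le.1 (kc_Fs e' c he')
        have b1 : e ≤ d := le_max_left _ _
        have b2 : e' ≤ d := le_max_right _ _
        rw [abs_le]
        constructor <;> linarith [a1.1, a1.2, a2.1, a2.2, a3.1, a3.2, a4.1, a4.2]) hM hL
  refine hfin.trans ?_
  have : d * d ≤ d * (1 + |c| + T) := mul_le_mul_of_nonneg_left (hd1.trans hm) hd0.le
  nlinarith

theorem kap_l2 (hZ : ZP P F B c T V J R) (e : ℝ) (he : 0 < e) (he1 : e ≤ 1) :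
    ∫ ω, (∫ s in (0:ℝ)..(R ω), kap e (B s ω + V s ω)) ^ 2 ∂P ≤ 40 * (1 + |c| + T) ^ 2 := by
  obtain ⟨hM, hE⟩ := iso_ito hZ (Fs_tf e he he1) 0
  obtain ⟨hX, hX2, _⟩ := xr_l2 hZ
  have hT := hZ.T0
  have hER : ∫ ω, (∫ s in (0:ℝ)..(R ω),
      ((I1 ((B s ω + V s ω) / e) - I1 (-(B s ω + V s ω) / e)) - 0) ^ 2) ∂P ≤ T := by
    calc _ ≤ ∫ ω, T ∂P := by
          refine integral_mono_of_nonneg (ae_of_all _ ?_) (integrable_const _) (ae_of_all _ ?_)
          · intro ω
            exact intervalIntegral.integral_nonneg (hZ.R0 ω) (fun _ _ => sq_nonneg _)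
          · intro ω
            dsimp only
            have hc : Continuous (fun x : ℝ => ((I1 (x / e) - I1 (-x / e)) - 0) ^ 2) := by
              have := kc_I1c
              fun_prop
            have h1 : ∫ s in (0:ℝ)..(R ω),
                ((I1 ((B s ω + V s ω) / e) - I1 (-(B s ω + V s ω) / e)) - 0) ^ 2 ≤
                ∫ s in (0:ℝ)..(R ω), (1:ℝ) := by
              refine intervalIntegral.integral_mono_on (hZ.R0 ω) ?_ intervalIntegrable_const ?_
              · exact (hc.comp (kc_path hZ ω)).intervalIntegrable _ _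
              · intro s _
                rw [sub_zero]
                exact kc_b3 _ e he
            have h2 := hZ.RT ω
            have h3 : ∫ s in (0:ℝ)..(R ω), (1:ℝ) = R ω := by simp
            rw [h3] at h1
            exact h1.trans h2
      _ = T := by simp
  have hL := hE.trans hER
  set D : Ω → ℝ := fun ω => (fun x => Fp e x + Fp e (-x)) (B (R ω) ω + V (R ω) ω)
      - (fun x => Fp e x + Fp e (-x)) c
      - (∫ s in (0:ℝ)..(R ω), (fun x => 2 * kap e x) (B s ω + V s ω)) / 2 - 0 * B (R ω) ω with hD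
  have hi : Integrable (fun ω => 3 * (2 * (B (R ω) ω + V (R ω) ω) ^ 2 + 1 / 2)
      + (3 * (2 * c ^ 2 + 1 / 2) + 3 * (D ω) ^ 2)) P := by
    refine Integrable.add ?_ (Integrable.add (integrable_const _) (hM.integrable_sq.const_mul 3))
    exact ((hX.integrable_sq.const_mul 2).add (integrable_const _)).const_mul 3
  have hsq : ∀ y : ℝ, (Fp e y + Fp e (-y)) ^ 2 ≤ 2 * y ^ 2 + 1 / 2 := by
    intro y
    have h1 := abs_le.1 (kc_Fs e y he)
    have h2 : |Fp e y + Fp e (-y)| ≤ |y| + 1 / 2 := by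
      have := abs_nonneg y
      rw [abs_le]
      constructor <;> linarith [h1.1, h1.2]
    have h3 : (Fp e y + Fp e (-y)) ^ 2 ≤ (|y| + 1 / 2) ^ 2 := by
      rw [← sq_abs (Fp e y + Fp e (-y))]
      exact pow_le_pow_left₀ (abs_nonneg _) h2 2
    nlinarith [sq_nonneg (|y| - 1 / 2), sq_abs y]
  calc ∫ ω, (∫ s in (0:ℝ)..(R ω), kap e (B s ω + V s ω)) ^ 2 ∂P ≤
      ∫ ω, (3 * (2 * (B (R ω) ω + V (R ω) ω) ^ 2 + 1 / 2)
      + (3 * (2 * c ^ 2 + 1 / 2) + 3 * (D ω) ^ 2)) ∂P := by
        refine integral_mono_of_nonneg (ae_of_all _ fun ω => sq_nonneg _) hi (ae_of_all _ ?_)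
        intro ω
        dsimp only
        have e1 : ∫ s in (0:ℝ)..(R ω), kap e (B s ω + V s ω) =
            (Fp e (B (R ω) ω + V (R ω) ω) + Fp e (-(B (R ω) ω + V (R ω) ω)))
              - (Fp e c + Fp e (-c)) - D ω := by
          simp only [hD]
          rw [intervalIntegral.integral_const_mul]
          ring
        rw [e1]
        have s1 := hsq (B (R ω) ω + V (R ω) ω)
        have s2 := hsq c
        set p := Fp e (B (R ω) ω + V (R ω) ω) + Fp e (-(B (R ω) ω + V (R ω) ω))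
        set q := Fp e c + Fp e (-c)
        nlinarith [sq_nonneg (p + q), sq_nonneg (p + D ω), sq_nonneg (q - D ω)]
    _ = 3 * (2 * (∫ ω, (B (R ω) ω + V (R ω) ω) ^ 2 ∂P) + 1 / 2)
      + (3 * (2 * c ^ 2 + 1 / 2) + 3 * ∫ ω, (D ω) ^ 2 ∂P) := by
        have q1 : Integrable (fun ω => 2 * (B (R ω) ω + V (R ω) ω) ^ 2) P :=
          hX.integrable_sq.const_mul 2
        have q2 : Integrable (fun ω => 3 * (D ω) ^ 2) P := hM.integrable_sq.const_mul 3
        have q3 : Integrable (fun ω => 3 * (2 * (B (R ω) ω + V (R ω) ω) ^ 2 + 1 / 2)) P :=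
          (q1.add (integrable_const _)).const_mul 3
        have q4 : Integrable (fun ω => 3 * (2 * c ^ 2 + 1 / 2) + 3 * (D ω) ^ 2) P :=
          (integrable_const _).add q2
        have q5 : ∫ ω, 3 * (2 * (B (R ω) ω + V (R ω) ω) ^ 2 + 1 / 2) ∂P =
            3 * (2 * (∫ ω, (B (R ω) ω + V (R ω) ω) ^ 2 ∂P) + 1 / 2) := by
          rw [integral_const_mul, integral_add q1 (integrable_const _), integral_const_mul]
          simp
        have q6 : ∫ ω, (3 * (2 * c ^ 2 + 1 / 2) + 3 * (D ω) ^ 2) ∂P =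
            3 * (2 * c ^ 2 + 1 / 2) + 3 * ∫ ω, (D ω) ^ 2 ∂P := by
          rw [integral_add (integrable_const _) q2]
          simp [integral_const_mul]
        rw [integral_add q3 q4, q5, q6]
    _ ≤ _ := by
        have h5 : ∫ ω, (D ω) ^ 2 ∂P ≤ T := hL
        have h6 := abs_nonneg c
        have h7 := sq_abs c
        nlinarith [mul_nonneg h6 hT.le]

theorem diff_kernel (hZ : ZP P F B c T V J R) (e : ℝ) (he : 0 < e) (he1 : e ≤ 1) :
    ∫ ω, ((∫ s in (0:ℝ)..(R ω), (kp e (B s ω + V s ω) - kp e (-(B s ω + V s ω)))) / 2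
      - (V (R ω) ω - c)) ^ 2 ∂P ≤ 8 * (1 + |c| + T) * e := by
  obtain ⟨hM, hE⟩ := iso_ito hZ (Fd_tf e he he1) 1
  have hT := hZ.T0
  have hm : 1 ≤ 1 + |c| + T := by have := abs_nonneg c; linarith
  have hocc := kc_occ hZ e he he1
    (fun x => (I1 (x / e) + I1 (-x / e)) - 1)
    (by have := kc_I1c; fun_prop) (by
      intro x
      exact kc_b2 x e he)
  have hL := hE.trans hocc
  have hfin := kc_fin (P := P)
    (fun ω => (∫ s in (0:ℝ)..(R ω), (kp e (B s ω + V s ω) - kp e (-(B s ω + V s ω)))) / 2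
      - (V (R ω) ω - c))
    (fun ω => ((Fp e (B (R ω) ω + V (R ω) ω) - Fp e (-(B (R ω) ω + V (R ω) ω)))
        - (B (R ω) ω + V (R ω) ω)) - ((Fp e c - Fp e (-c)) - c)) _ e _ (by
        intro ω
        ring) (by
        intro ω
        set x := B (R ω) ω + V (R ω) ω
        have a1 := abs_le.1 (kc_Fd e x he)
        have a3 := abs_le.1 (kc_Fd e c he)
        rw [abs_le]
        constructor <;> linarith [a1.1, a1.2, a3.1, a3.2]) hM hL
  refine hfin.trans ?_
  have : e * e ≤ e * (1 + |c| + T) := mul_le_mul_of_nonneg_left (he1.trans hm) he.le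
  nlinarith

end ito

end Pool.Agent.Helper41.SK
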