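import Pool.Agent.Helper41.SK.Defs
import Pool.Agent.Helper41.SK.MainDefs
import Pool.Agent.Helper41.SK.SB01

set_option autoImplicit false

open scoped ENNReal NNReal Topology
open MeasureTheory ProbabilityTheory Set Filter

namespace Pool.Agent.Helper41.SK

/-! Processes are indexed by t. -/


/-! ## TARGETS: prove these (statements must not be changed; helper lemmas are welcome) -/

section preb

variable {Ω : Type*} [mΩ : MeasurableSpace Ω] {P : Measure Ω} [IsProbabilityMeasure P]
  {F : ℝ → MeasurableSpace Ω} {B : ℝ → Ω → ℝ} {c : ℝ} {V J L : ℝ → Ω → ℝ}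

theorem pre_zp (h : Pre P F B c V J L) (T : ℝ) (hT : 0 < T) :
    ∃ R : ℕ → Ω → ℝ, (∀ ω, Tendsto (fun n => R n ω) atTop (𝓝 T)) ∧
      (∀ ω, ∃ n, ∀ k, n ≤ k → R k ω = T) ∧ (∀ n ω, R n ω ≤ T) ∧ (∀ n ω, R n ω ≤ R (n + 1) ω) ∧
      ∀ n t, 0 ≤ t → t ≤ T →
        ZP P F B c T (fun s ω => V (min s (min t (R n ω))) ω)
          (fun s ω => J (min s (min t (R n ω))) ω) (fun ω => min t (R n ω)) := by
  have hF : IsFilt P F := ⟨fun t _ => h.bm.le t, fun s t _ hst => h.bm.mono hst, h.bm.null⟩
  have hJ : IsCA F J := ⟨h.Jad, fun ω => (h.Jc ω).continuousOn⟩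
  have hV : IsCA F V := ⟨h.Vad, fun ω => (h.Vc ω).continuousOn⟩
  choose R hRs hRT hRlt hRge hRlast using fun n : ℕ => hit_stop hF J hJ (n : ℝ) T hT.le
  have hmono : ∀ n ω, R n ω ≤ R (n + 1) ω := by
    intro n ω
    by_contra hcon
    push Not at hcon
    have h0 : 0 ≤ R (n + 1) ω := (hRs (n + 1)).nonneg ω
    have h1 : (R (n + 1) ω + R n ω) / 2 < R n ω := by linarith
    have h2 : R (n + 1) ω < (R (n + 1) ω + R n ω) / 2 := by linarith
    have h3 : (R (n + 1) ω + R n ω) / 2 ≤ R (n + 1) ω := by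
      apply hRlast (n + 1) ω _ (by linarith) (by linarith [hRT n ω])
      intro s hs hst
      have := hRlt n ω s hs (lt_of_le_of_lt hst h1)
      push_cast
      linarith
    linarith
  have hconst : ∀ ω, ∃ n, ∀ k, n ≤ k → R k ω = T := by
    intro ω
    obtain ⟨n, hn⟩ := exists_nat_gt (J T ω)
    refine ⟨n, fun k hk => le_antisymm (hRT k ω) ?_⟩
    apply hRlast k ω T hT.le le_rfl
    intro s hs hsT
    have h1 := h.Jmono ω s T hs hsT
    have h2 : (n : ℝ) ≤ k := by exact_mod_cast hk
    linarith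
  have hbound : ∀ n ω u, 0 ≤ u → u ≤ R n ω → J u ω ≤ n := by
    intro n ω u hu hu2
    rcases (hRs n |>.nonneg ω).eq_or_lt with h0 | h0
    · have : u = 0 := le_antisymm (by rw [← h0] at hu2; exact hu2) hu
      rw [this, h.J0 ω]
      positivity
    · have hcl : IsClosed {t : ℝ | J t ω ≤ n} := isClosed_le (h.Jc ω) continuous_const
      have hsub : Ico 0 (R n ω) ⊆ {t : ℝ | J t ω ≤ n} := fun t ht =>
        (hRlt n ω t ht.1 ht.2).le
      have h2 : closure (Ico 0 (R n ω)) ⊆ {t : ℝ | J t ω ≤ n} :=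
        hcl.closure_subset_iff.mpr hsub
      rw [closure_Ico h0.ne] at h2
      exact h2 ⟨hu, hu2⟩
  refine ⟨R, ?_, hconst, hRT, hmono, ?_⟩
  · intro ω
    obtain ⟨n, hn⟩ := hconst ω
    apply tendsto_const_nhds.congr'
    filter_upwards [eventually_ge_atTop n] with k hk
    exact (hn k hk).symm
  intro n t ht htT
  have hst : IsStop F (fun _ : Ω => t) := ⟨fun _ => ht, fun s _ => MeasurableSet.const _⟩
  have hρ : IsStop F (fun ω => min t (R n ω)) := stop_min hF _ _ hst (hRs n)
  have hρ0 : ∀ ω, 0 ≤ min t (R n ω) := hρ.nonneg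
  have hVs := stopped_adp hF V hV _ hρ
  have hJs := stopped_adp hF J hJ _ hρ
  refine
    { bm := h.bm
      T0 := hT
      Vad := hVs.adap
      Vc := fun ω => (h.Vc ω).comp (continuous_id.min continuous_const)
      V0 := ?_
      Jad := hJs.adap
      Jc := fun ω => (h.Jc ω).comp (continuous_id.min continuous_const)
      J0 := ?_
      dom := ?_
      Jsq := ?_
      R0 := hρ0
      RT := fun ω => le_trans (min_le_left _ _) htT
      Rst := fun s hs => (stop_lt hF _ hρ s hs).1
      stop := ?_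
      flat := ?_ }
  · filter_upwards [h.V0] with ω hω
    rw [min_eq_left (hρ0 ω)]
    exact hω
  · refine Eventually.of_forall fun ω => ?_
    change J (min 0 (min t (R n ω))) ω = 0
    rw [min_eq_left (hρ0 ω)]
    exact h.J0 ω
  · filter_upwards [h.dom] with ω hω
    intro s u hs hsu
    exact hω _ _ (le_min hs (hρ0 ω)) (min_le_min_right _ hsu)
  · refine MemLp.of_bound ((hJs.adap T hT.le).mono (h.bm.le T) le_rfl).aestronglyMeasurable
      (n : ℝ) (Eventually.of_forall fun ω => ?_)
    have hu0 : 0 ≤ min T (min t (R n ω)) := le_min hT.le (hρ0 ω)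
    have h1 : 0 ≤ J (min T (min t (R n ω))) ω := by
      have := h.Jmono ω 0 _ le_rfl hu0
      rwa [h.J0 ω] at this
    rw [Real.norm_eq_abs, abs_of_nonneg h1]
    exact hbound n ω _ hu0 (le_trans (min_le_right _ _) (min_le_right _ _))
  · refine Eventually.of_forall fun ω u hu => ?_
    change V (min u (min t (R n ω))) ω = V (min (min t (R n ω)) (min t (R n ω))) ω
    rw [min_eq_right hu, min_self]
  · filter_upwards [h.flat] with ω hω
    intro s u hs hsu hu hr
    have hs' : s ≤ min t (R n ω) := hsu.trans hu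
    rw [min_eq_left hs', min_eq_left hu]
    refine (hω s u hs hsu fun r hrI => ?_).1
    have h2 := hr r hrI
    rwa [min_eq_left (hrI.2.trans hu)] at h2

end preb

end Pool.Agent.Helper41.SK
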