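import Pool.Agent.Helper41.SK.Defs
import Pool.Agent.Helper41.SK.MainDefs
import Pool.Agent.Helper41.SK.SA01
import Pool.Agent.Helper41.SK.SA07
import Pool.Agent.Helper41.SK.SA08
import Pool.Agent.Helper41.SK.SA09
import Pool.Agent.Helper41.SK.SA10
import Pool.Agent.Helper41.SK.SB08

set_option autoImplicit false

open scoped ENNReal NNReal Topology
open MeasureTheory ProbabilityTheory Set Filter

namespace Pool.Agent.Helper41.SK

/-! Processes are indexed by t. -/


/-! ## TARGETS: prove these (statements must not be changed; helper lemmas are welcome) -/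

section preb

variable {Ω : Type*} [mΩ : MeasurableSpace Ω] {P : Measure Ω} [IsProbabilityMeasure P]
  {F : ℝ → MeasurableSpace Ω} {B : ℝ → Ω → ℝ} {c : ℝ} {V J L : ℝ → Ω → ℝ}

theorem pl_jm {Ω : Type*} [MeasurableSpace Ω] {V : ℝ → Ω → ℝ}
    (hm : ∀ t, 0 ≤ t → Measurable (V t)) (hc : ∀ ω, Continuous (fun t => V t ω)) :
    Measurable (fun p : ℝ × Ω => V (max p.1 0) p.2) :=
  measurable_uncurry_of_continuous_of_measurable (u := fun t ω => V (max t 0) ω)
    (fun ω => (hc ω).comp (continuous_id.max continuous_const))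
    (fun _ => hm _ (le_max_right _ _))

theorem pl_jmR {Ω : Type*} [MeasurableSpace Ω] {V : ℝ → Ω → ℝ}
    (hm : ∀ t, 0 ≤ t → Measurable (V t)) (hc : ∀ ω, Continuous (fun t => V t ω)) {R : Ω → ℝ}
    (hR : Measurable R) (h0 : ∀ ω, 0 ≤ R ω) : Measurable (fun ω => V (R ω) ω) := by
  have h1 := (pl_jm hm hc).comp (hR.prodMk measurable_id)
  have e : (fun ω => V (R ω) ω) =
      (fun p : ℝ × Ω => V (max p.1 0) p.2) ∘ (fun ω => (R ω, id ω)) := by
    funext ω
    change V (R ω) ω = V (max (R ω) 0) ω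
    rw [max_eq_left (h0 ω)]
  rw [e]
  exact h1

theorem pl_Rm {T : ℝ} {R : Ω → ℝ} (hZ : ZP P F B c T V J R) : Measurable R := by
  refine measurable_of_Ioi (fun t => ?_)
  by_cases ht : 0 ≤ t
  · exact hZ.bm.le t _ (hZ.Rst t ht)
  · have : R ⁻¹' Ioi t = univ := by
      ext ω
      simp only [mem_preimage, mem_Ioi, mem_univ, iff_true]
      linarith [hZ.R0 ω]
    rw [this]
    exact MeasurableSet.univ

theorem pl_intm {T : ℝ} {R : Ω → ℝ} (hZ : ZP P F B c T V J R) (g : ℝ → ℝ) (hg : Continuous g) :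
    Measurable (fun ω => ∫ s in (0:ℝ)..(R ω), g (B s ω + V s ω)) := by
  have hBm : ∀ t, 0 ≤ t → Measurable (B t) := fun t ht =>
    (hZ.bm.adap t ht).mono (hZ.bm.le t) le_rfl
  have hVm : ∀ t, 0 ≤ t → Measurable (V t) := fun t ht =>
    (hZ.Vad t ht).mono (hZ.bm.le t) le_rfl
  have hX : Measurable (fun p : ℝ × Ω => g (B (max p.1 0) p.2 + V (max p.1 0) p.2)) :=
    hg.measurable.comp ((pl_jm hBm hZ.bm.cont).add (pl_jm hVm hZ.Vc))
  have hXc : ∀ ω, Continuous (fun s => g (B (max s 0) ω + V (max s 0) ω)) := by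
    intro ω
    exact hg.comp (((hZ.bm.cont ω).comp (continuous_id.max continuous_const)).add
      ((hZ.Vc ω).comp (continuous_id.max continuous_const)))
  have hI1 : ∀ ω, Continuous (fun t => ∫ s in (0:ℝ)..t, g (B (max s 0) ω + V (max s 0) ω)) :=
    fun ω => intervalIntegral.continuous_primitive (fun a b => (hXc ω).intervalIntegrable a b) 0
  have hI2 : ∀ t : ℝ, Measurable (fun ω => ∫ s in (0:ℝ)..t,
      g (B (max s 0) ω + V (max s 0) ω)) := by
    intro t
    have hS : StronglyMeasurable (Function.uncurry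
        (fun (s : ℝ) (ω : Ω) => g (B (max s 0) ω + V (max s 0) ω))) := hX.stronglyMeasurable
    unfold intervalIntegral
    exact (hS.integral_prod_left (μ := volume.restrict (Ioc 0 t))).measurable.sub
      (hS.integral_prod_left (μ := volume.restrict (Ioc t 0))).measurable
  have h1 := (measurable_uncurry_of_continuous_of_measurable
    (u := fun (t : ℝ) (ω : Ω) => ∫ s in (0:ℝ)..t, g (B (max s 0) ω + V (max s 0) ω))
    hI1 hI2).comp ((pl_Rm hZ).prodMk measurable_id)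
  have e : (fun ω => ∫ s in (0:ℝ)..(R ω), g (B s ω + V s ω)) =
      (Function.uncurry (fun (t : ℝ) (ω : Ω) => ∫ s in (0:ℝ)..t,
        g (B (max s 0) ω + V (max s 0) ω))) ∘ (fun ω => (R ω, id ω)) := by
    funext ω
    change _ = ∫ s in (0:ℝ)..(R ω), g (B (max s 0) ω + V (max s 0) ω)
    apply intervalIntegral.integral_congr
    intro s hs
    rw [uIcc_of_le (hZ.R0 ω)] at hs
    change g (B s ω + V s ω) = g (B (max s 0) ω + V (max s 0) ω)
    rw [max_eq_left hs.1]
  rw [e]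
  exact h1

theorem pl_chi_cont : Continuous chi := by
  unfold chi cl
  fun_prop

theorem pl_kp_cont (e : ℝ) : Continuous (kp e) := by
  unfold kp
  exact (pl_chi_cont.comp (continuous_id.div_const e)).div_const e

theorem pl_kp_nonneg {e : ℝ} (he : 0 < e) (x : ℝ) : 0 ≤ kp e x :=
  div_nonneg (chi_facts.1 _) he.le

theorem pl_kp_le {e : ℝ} (he : 0 < e) (x : ℝ) : kp e x ≤ 3 / 2 / e :=
  div_le_div_of_nonneg_right (chi_facts.2.1 _) he.le

theorem pl_kap_cont (e : ℝ) : Continuous (kap e) := by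
  unfold kap
  exact ((pl_kp_cont e).add ((pl_kp_cont e).comp continuous_neg)).div_const 2

theorem pl_bc {f : ℕ → Ω → ℝ} (hf : ∀ k, Integrable (fun ω => f k ω ^ 2) P) (K : ℝ)
    (hb : ∀ k, ∫ ω, f k ω ^ 2 ∂P ≤ K * (1 / 2) ^ k) :
    ∀ᵐ ω ∂P, Tendsto (fun k => f k ω) atTop (𝓝 0) := by
  have hm : ∀ k, AEMeasurable (fun ω => ENNReal.ofReal (f k ω ^ 2)) P := fun k =>
    (hf k).aestronglyMeasurable.aemeasurable.ennreal_ofReal
  have h1 : ∫⁻ ω, ∑' k, ENNReal.ofReal (f k ω ^ 2) ∂P ≠ ⊤ := by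
    rw [lintegral_tsum hm]
    have hs : Summable (fun k : ℕ => |K| * (1 / 2 : ℝ) ^ k) :=
      (summable_geometric_two).mul_left |K|
    have h2 : ∑' k : ℕ, ENNReal.ofReal (|K| * (1 / 2 : ℝ) ^ k) ≠ ⊤ := by
      rw [← ENNReal.ofReal_tsum_of_nonneg (fun k => by positivity) hs]
      exact ENNReal.ofReal_ne_top
    refine ne_top_of_le_ne_top h2 (ENNReal.tsum_le_tsum fun k => ?_)
    rw [← ofReal_integral_eq_lintegral_ofReal (hf k) (Eventually.of_forall fun ω => sq_nonneg _)]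
    apply ENNReal.ofReal_le_ofReal
    refine (hb k).trans ?_
    exact mul_le_mul_of_nonneg_right (le_abs_self K) (by positivity)
  have h3 : ∀ᵐ ω ∂P, ∑' k, ENNReal.ofReal (f k ω ^ 2) < ⊤ :=
    ae_lt_top' (AEMeasurable.ennreal_tsum hm) h1
  filter_upwards [h3] with ω hω
  have h4 := ENNReal.tendsto_atTop_zero_of_tsum_ne_top hω.ne
  have h5 := (ENNReal.tendsto_toReal ENNReal.zero_ne_top).comp h4
  have h6 : Tendsto (fun k => f k ω ^ 2) atTop (𝓝 0) := by
    refine h5.congr ?_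
    intro k
    change (ENNReal.ofReal (f k ω ^ 2)).toReal = _
    rw [ENNReal.toReal_ofReal (sq_nonneg _)]
  have h7 := (Real.continuous_sqrt.tendsto 0).comp h6
  rw [Real.sqrt_zero] at h7
  rw [tendsto_zero_iff_abs_tendsto_zero]
  refine h7.congr ?_
  intro k
  exact Real.sqrt_sq_eq_abs _

theorem pl_int_bound {ρ K : ℝ} (h0 : 0 ≤ ρ) {u : ℝ → ℝ} (hu : ∀ s, |u s| ≤ K) :
    |∫ s in (0:ℝ)..ρ, u s| ≤ K * ρ := by
  have := intervalIntegral.norm_integral_le_of_norm_le_const (a := (0:ℝ)) (b := ρ) (f := u)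
    (C := K) (fun s _ => by rw [Real.norm_eq_abs]; exact hu s)
  rwa [Real.norm_eq_abs, sub_zero, abs_of_nonneg h0] at this

theorem pl_conv {T : ℝ} {R : Ω → ℝ} (hZ : ZP P F B c T V J R) :
    ∀ᵐ ω ∂P, Tendsto (fun k : ℕ => (∫ s in (0:ℝ)..(R ω),
      (kp ((1 / 2) ^ k) (B s ω + V s ω) - kp ((1 / 2) ^ k) (-(B s ω + V s ω)))) / 2) atTop
      (𝓝 (V (R ω) ω - c)) := by
  have hVm : ∀ t, 0 ≤ t → Measurable (V t) := fun t ht =>
    (hZ.Vad t ht).mono (hZ.bm.le t) le_rfl
  have he : ∀ k : ℕ, (0 : ℝ) < (1 / 2) ^ k := fun k => by positivity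
  have he1 : ∀ k : ℕ, ((1 : ℝ) / 2) ^ k ≤ 1 := fun k => pow_le_one₀ (by norm_num) (by norm_num)
  have hVR : MemLp (fun ω => V (R ω) ω - c) 2 P := by
    refine hZ.Jsq.of_le ?_ ?_
    · exact ((pl_jmR hVm hZ.Vc (pl_Rm hZ) hZ.R0).sub_const c).aestronglyMeasurable
    · filter_upwards [hZ.V0, hZ.J0, hZ.dom] with ω h1 h2 h3
      have h4 := h3 0 (R ω) le_rfl (hZ.R0 ω)
      have h5 := h3 (R ω) T (hZ.R0 ω) (hZ.RT ω)
      have h6 := (abs_nonneg _).trans h5
      rw [h1, h2] at h4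
      rw [Real.norm_eq_abs, Real.norm_eq_abs]
      calc |V (R ω) ω - c| ≤ J T ω := by linarith
        _ ≤ |J T ω| := le_abs_self _
  have hD : ∀ k : ℕ, MemLp (fun ω => (∫ s in (0:ℝ)..(R ω),
      (kp ((1 / 2) ^ k) (B s ω + V s ω) - kp ((1 / 2) ^ k) (-(B s ω + V s ω)))) / 2) 2 P := by
    intro k
    have hgc : Continuous (fun x => kp ((1 / 2) ^ k) x - kp ((1 / 2) ^ k) (-x)) :=
      (pl_kp_cont _).sub ((pl_kp_cont _).comp continuous_neg)
    have hm := (pl_intm hZ _ hgc).div_const 2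
    refine MemLp.of_bound hm.aestronglyMeasurable (3 / 2 / (1 / 2) ^ k * T / 2)
      (Eventually.of_forall fun ω => ?_)
    have hb : ∀ s, |kp ((1 / 2) ^ k) (B s ω + V s ω) - kp ((1 / 2) ^ k) (-(B s ω + V s ω))|
        ≤ 3 / 2 / (1 / 2) ^ k := by
      intro s
      rw [abs_le]
      have a1 := pl_kp_nonneg (he k) (B s ω + V s ω)
      have a2 := pl_kp_nonneg (he k) (-(B s ω + V s ω))
      have a3 := pl_kp_le (he k) (B s ω + V s ω)
      have a4 := pl_kp_le (he k) (-(B s ω + V s ω))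
      constructor <;> linarith
    have h1 := pl_int_bound (hZ.R0 ω) hb
    rw [Real.norm_eq_abs, abs_div, abs_of_pos (by norm_num : (0:ℝ) < 2)]
    apply div_le_div_of_nonneg_right _ (by norm_num)
    refine h1.trans ?_
    exact mul_le_mul_of_nonneg_left (hZ.RT ω) (by positivity)
  have key := pl_bc (P := P) (f := fun k ω => (∫ s in (0:ℝ)..(R ω),
      (kp ((1 / 2) ^ k) (B s ω + V s ω) - kp ((1 / 2) ^ k) (-(B s ω + V s ω)))) / 2
      - (V (R ω) ω - c)) (fun k => ((hD k).sub hVR).integrable_sq) (8 * (1 + |c| + T))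
    (fun k => diff_kernel hZ _ (he k) (he1 k))
  filter_upwards [key] with ω hω
  have := hω.add_const (V (R ω) ω - c)
  rw [zero_add] at this
  refine this.congr ?_
  intro k
  ring

theorem pl_e_tendsto : Tendsto (fun k : ℕ => ((1 : ℝ) / 2) ^ k) atTop (𝓝[>] 0) := by
  rw [tendsto_nhdsWithin_iff]
  refine ⟨tendsto_pow_atTop_nhds_zero_of_lt_one (by norm_num) (by norm_num), ?_⟩
  exact Eventually.of_forall fun k => by
    change (0:ℝ) < (1 / 2) ^ k
    positivity

theorem pre_lip (h : Pre P F B c V J L) :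
    ∀ᵐ ω ∂P, ∀ s t, 0 ≤ s → s ≤ t → |V t ω - V s ω| ≤ L t ω - L s ω := by
  choose R hR1 hR2 hR3 hR4 hR5 using fun N : ℕ => pre_zp h ((N : ℝ) + 1) (by positivity)
  have hconv : ∀ᵐ ω ∂P, ∀ N n : ℕ, ∀ q : ℚ, max (q : ℝ) 0 ≤ (N : ℝ) + 1 →
      Tendsto (fun k : ℕ => (∫ s in (0:ℝ)..(min (max (q : ℝ) 0) (R N n ω)),
        (kp ((1 / 2) ^ k) (B s ω + V s ω) - kp ((1 / 2) ^ k) (-(B s ω + V s ω)))) / 2) atTop
        (𝓝 (V (min (max (q : ℝ) 0) (R N n ω)) ω - c)) := by
    rw [ae_all_iff]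
    intro N
    rw [ae_all_iff]
    intro n
    rw [ae_all_iff]
    intro q
    by_cases hq : max (q : ℝ) 0 ≤ (N : ℝ) + 1
    · have hZ := hR5 N n (max (q : ℝ) 0) (le_max_right _ _) hq
      filter_upwards [pl_conv hZ] with ω hω _
      simp only [min_self] at hω
      refine hω.congr ?_
      intro k
      congr 1
      apply intervalIntegral.integral_congr
      intro s hs
      have h0 := hZ.R0 ω
      rw [uIcc_of_le h0] at hs
      have h1 : min s (min (max (q : ℝ) 0) (R N n ω)) = s := min_eq_left hs.2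
      simp only [h1]
    · exact Eventually.of_forall fun ω hh => absurd hh hq
  filter_upwards [hconv, h.lim] with ω hω hlim
  have hrat : ∀ q1 q2 : ℚ, q1 ≤ q2 → |V (max (q2 : ℝ) 0) ω - V (max (q1 : ℝ) 0) ω| ≤
      L (max (q2 : ℝ) 0) ω - L (max (q1 : ℝ) 0) ω := by
    intro q1 q2 hq
    have hq' : max (q1 : ℝ) 0 ≤ max (q2 : ℝ) 0 := max_le_max_right 0 (by exact_mod_cast hq)
    have h01 : (0 : ℝ) ≤ max (q1 : ℝ) 0 := le_max_right _ _
    have h02 : (0 : ℝ) ≤ max (q2 : ℝ) 0 := le_max_right _ _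
    obtain ⟨N, hN⟩ := exists_nat_ge (max (q2 : ℝ) 0)
    have hN2 : max (q2 : ℝ) 0 ≤ (N : ℝ) + 1 := by linarith
    have hN1 : max (q1 : ℝ) 0 ≤ (N : ℝ) + 1 := hq'.trans hN2
    obtain ⟨n, hn⟩ := hR2 N ω
    have hn' := hn n le_rfl
    have a1 := hω N n q1 hN1
    have a2 := hω N n q2 hN2
    rw [hn', min_eq_left hN1] at a1
    rw [hn', min_eq_left hN2] at a2
    have b1 := (hlim _ h01).comp pl_e_tendsto
    have b2 := (hlim _ h02).comp pl_e_tendsto
    have c1 := (a2.sub a1).abs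
    have c2 := b2.sub b1
    have e1 : V (max (q2 : ℝ) 0) ω - c - (V (max (q1 : ℝ) 0) ω - c) =
        V (max (q2 : ℝ) 0) ω - V (max (q1 : ℝ) 0) ω := by ring
    rw [e1] at c1
    refine le_of_tendsto_of_tendsto' c1 c2 (fun k => ?_)
    have he : (0 : ℝ) < (1 / 2) ^ k := by positivity
    have hXc : Continuous (fun s => B s ω + V s ω) := (h.bm.cont ω).add (h.Vc ω)
    have hu : Continuous (fun s => kp ((1 / 2) ^ k) (B s ω + V s ω) -
        kp ((1 / 2) ^ k) (-(B s ω + V s ω))) :=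
      ((pl_kp_cont _).comp hXc).sub ((pl_kp_cont _).comp hXc.neg)
    have hk : Continuous (fun s => kap ((1 / 2) ^ k) (B s ω + V s ω)) :=
      (pl_kap_cont _).comp hXc
    change |(∫ s in (0:ℝ)..(max (q2 : ℝ) 0), (kp ((1 / 2) ^ k) (B s ω + V s ω) -
        kp ((1 / 2) ^ k) (-(B s ω + V s ω)))) / 2 -
      (∫ s in (0:ℝ)..(max (q1 : ℝ) 0), (kp ((1 / 2) ^ k) (B s ω + V s ω) -
        kp ((1 / 2) ^ k) (-(B s ω + V s ω)))) / 2| ≤
      (∫ s in (0:ℝ)..(max (q2 : ℝ) 0), kap ((1 / 2) ^ k) (B s ω + V s ω)) -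
        ∫ s in (0:ℝ)..(max (q1 : ℝ) 0), kap ((1 / 2) ^ k) (B s ω + V s ω)
    rw [← sub_div, intervalIntegral.integral_interval_sub_left (hu.intervalIntegrable _ _)
      (hu.intervalIntegrable _ _), intervalIntegral.integral_interval_sub_left
      (hk.intervalIntegrable _ _) (hk.intervalIntegrable _ _), ← intervalIntegral.integral_div,
      ← Real.norm_eq_abs]
    apply intervalIntegral.norm_integral_le_of_norm_le hq'
    · refine Eventually.of_forall fun s _ => ?_
      have p1 := pl_kp_nonneg he (B s ω + V s ω)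
      have p2 := pl_kp_nonneg he (-(B s ω + V s ω))
      rw [Real.norm_eq_abs, abs_div, abs_of_pos (by norm_num : (0:ℝ) < 2)]
      unfold kap
      apply div_le_div_of_nonneg_right _ (by norm_num)
      rw [abs_le]
      constructor <;> linarith
    · exact hk.intervalIntegrable _ _
  -- all real numbers
  have hS : IsClosed {p : ℝ × ℝ | |V (max p.2 0) ω - V (max p.1 0) ω| ≤
      L (max p.2 0) ω - L (max p.1 0) ω} := by
    have v2 : Continuous (fun p : ℝ × ℝ => V (max p.2 0) ω) :=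
      (h.Vc ω).comp (continuous_snd.max continuous_const)
    have v1 : Continuous (fun p : ℝ × ℝ => V (max p.1 0) ω) :=
      (h.Vc ω).comp (continuous_fst.max continuous_const)
    have l2 : Continuous (fun p : ℝ × ℝ => L (max p.2 0) ω) :=
      (h.Lc ω).comp (continuous_snd.max continuous_const)
    have l1 : Continuous (fun p : ℝ × ℝ => L (max p.1 0) ω) :=
      (h.Lc ω).comp (continuous_fst.max continuous_const)
    exact isClosed_le (v2.sub v1).abs (l2.sub l1)
  have hU : IsOpen {p : ℝ × ℝ | p.1 < p.2} := isOpen_lt continuous_fst continuous_snd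
  have hdense : Dense (Set.range (Prod.map ((↑) : ℚ → ℝ) ((↑) : ℚ → ℝ))) :=
    (Rat.denseRange_cast (𝕜 := ℝ)).prodMap (Rat.denseRange_cast (𝕜 := ℝ))
  have hsub := hdense.open_subset_closure_inter hU
  intro s t hs hst
  rcases hst.eq_or_lt with rfl | hlt
  · simp
  · have h1 : (s, t) ∈ closure ({p : ℝ × ℝ | p.1 < p.2} ∩
        Set.range (Prod.map ((↑) : ℚ → ℝ) ((↑) : ℚ → ℝ))) := hsub hlt
    have h2 : closure ({p : ℝ × ℝ | p.1 < p.2} ∩
        Set.range (Prod.map ((↑) : ℚ → ℝ) ((↑) : ℚ → ℝ))) ⊆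
        {p : ℝ × ℝ | |V (max p.2 0) ω - V (max p.1 0) ω| ≤
          L (max p.2 0) ω - L (max p.1 0) ω} := by
      apply closure_minimal _ hS
      rintro _ ⟨hlt', ⟨q1, q2⟩, rfl⟩
      have : (q1 : ℝ) < q2 := hlt'
      exact hrat q1 q2 (by exact_mod_cast this.le)
    have h3 := h2 h1
    simp only [mem_setOf_eq] at h3
    rwa [max_eq_left hs, max_eq_left (hs.trans hst)] at h3

theorem pre_l2 (h : Pre P F B c V J L) (T : ℝ) (hT : 0 ≤ T) : MemLp (L T) 2 P := by
  rcases hT.eq_or_lt with rfl | hT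
  · have : L 0 = fun _ => (0 : ℝ) := funext h.L0
    rw [this]
    exact MemLp.zero'
  obtain ⟨R, hR1, hR2, hR3, hR4, hR5⟩ := pre_zp h T hT
  have hLm : ∀ t, 0 ≤ t → Measurable (L t) := fun t ht =>
    (h.Lad t ht).mono (h.bm.le t) le_rfl
  have he : ∀ k : ℕ, (0 : ℝ) < (1 / 2) ^ k := fun k => by positivity
  have he1 : ∀ k : ℕ, ((1 : ℝ) / 2) ^ k ≤ 1 := fun k => pow_le_one₀ (by norm_num) (by norm_num)
  have hliminf : ∀ (u : ℕ → ℝ≥0∞) (K : ℝ≥0∞), (∀ k, u k ≤ K) → liminf u atTop ≤ K := by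
    intro u K hu
    calc liminf u atTop ≤ liminf (fun _ : ℕ => K) atTop :=
          liminf_le_liminf (Eventually.of_forall hu)
      _ = K := liminf_const _
  have step1 : ∀ n, ∫⁻ ω, ENNReal.ofReal (L (min T (R n ω)) ω ^ 2) ∂P ≤
      ENNReal.ofReal (40 * (1 + |c| + T) ^ 2) := by
    intro n
    have hZ := hR5 n T hT.le le_rfl
    have hfm : ∀ k : ℕ, Measurable (fun ω => ∫ s in (0:ℝ)..(min T (R n ω)),
        kap ((1 / 2) ^ k) (B s ω + V (min s (min T (R n ω))) ω)) := fun k =>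
      pl_intm hZ _ (pl_kap_cont _)
    have hfb := fun k : ℕ => kap_l2 hZ _ (he k) (he1 k)
    have hfi : ∀ k : ℕ, Integrable (fun ω => (∫ s in (0:ℝ)..(min T (R n ω)),
        kap ((1 / 2) ^ k) (B s ω + V (min s (min T (R n ω))) ω)) ^ 2) P := by
      intro k
      refine MemLp.integrable_sq (MemLp.of_bound (hfm k).aestronglyMeasurable
        (3 / 2 / (1 / 2) ^ k * T) (Eventually.of_forall fun ω => ?_))
      have hb : ∀ s, |kap ((1 / 2) ^ k) (B s ω + V (min s (min T (R n ω))) ω)|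
          ≤ 3 / 2 / (1 / 2) ^ k := by
        intro s
        have a1 := pl_kp_nonneg (he k) (B s ω + V (min s (min T (R n ω))) ω)
        have a2 := pl_kp_nonneg (he k) (-(B s ω + V (min s (min T (R n ω))) ω))
        have a3 := pl_kp_le (he k) (B s ω + V (min s (min T (R n ω))) ω)
        have a4 := pl_kp_le (he k) (-(B s ω + V (min s (min T (R n ω))) ω))
        unfold kap
        rw [abs_le]
        constructor <;> linarith
      have h1 := pl_int_bound (hZ.R0 ω) hb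
      rw [Real.norm_eq_abs]
      refine h1.trans ?_
      exact mul_le_mul_of_nonneg_left (hZ.RT ω) (by positivity)
    have hlim : ∀ᵐ ω ∂P, Tendsto (fun k : ℕ => ∫ s in (0:ℝ)..(min T (R n ω)),
        kap ((1 / 2) ^ k) (B s ω + V (min s (min T (R n ω))) ω)) atTop
        (𝓝 (L (min T (R n ω)) ω)) := by
      filter_upwards [h.lim] with ω hω
      have h1 := (hω _ (hZ.R0 ω)).comp pl_e_tendsto
      refine h1.congr ?_
      intro k
      apply intervalIntegral.integral_congr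
      intro s hs
      rw [uIcc_of_le (hZ.R0 ω)] at hs
      have h2 : min s (min T (R n ω)) = s := min_eq_left hs.2
      simp only [h2]
    calc ∫⁻ ω, ENNReal.ofReal (L (min T (R n ω)) ω ^ 2) ∂P
        = ∫⁻ ω, liminf (fun k : ℕ => ENNReal.ofReal ((∫ s in (0:ℝ)..(min T (R n ω)),
          kap ((1 / 2) ^ k) (B s ω + V (min s (min T (R n ω))) ω)) ^ 2)) atTop ∂P := by
          apply lintegral_congr_ae
          filter_upwards [hlim] with ω hω
          exact ((ENNReal.continuous_ofReal.tendsto _).comp (hω.pow 2)).liminf_eq.symm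
      _ ≤ liminf (fun k : ℕ => ∫⁻ ω, ENNReal.ofReal ((∫ s in (0:ℝ)..(min T (R n ω)),
          kap ((1 / 2) ^ k) (B s ω + V (min s (min T (R n ω))) ω)) ^ 2) ∂P) atTop :=
          lintegral_liminf_le (fun k => ((hfm k).pow_const 2).ennreal_ofReal)
      _ ≤ ENNReal.ofReal (40 * (1 + |c| + T) ^ 2) := by
          apply hliminf
          intro k
          rw [← ofReal_integral_eq_lintegral_ofReal (hfi k)
            (Eventually.of_forall fun ω => sq_nonneg _)]
          exact ENNReal.ofReal_le_ofReal (hfb k)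
  have hLR : ∀ n, Measurable (fun ω => L (min T (R n ω)) ω) := by
    intro n
    have hZ := hR5 n T hT.le le_rfl
    exact pl_jmR hLm h.Lc (pl_Rm hZ) hZ.R0
  have step2 : ∫⁻ ω, ENNReal.ofReal (L T ω ^ 2) ∂P ≤ ENNReal.ofReal (40 * (1 + |c| + T) ^ 2) := by
    calc ∫⁻ ω, ENNReal.ofReal (L T ω ^ 2) ∂P
        = ∫⁻ ω, liminf (fun n : ℕ => ENNReal.ofReal (L (min T (R n ω)) ω ^ 2)) atTop ∂P := by
          apply lintegral_congr
          intro ω
          have h1 : Tendsto (fun n => min T (R n ω)) atTop (𝓝 T) := by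
            have := (hR1 ω)
            have h2 := (tendsto_const_nhds (x := T)).min this
            rwa [min_self] at h2
          have h3 := ((h.Lc ω).tendsto T).comp h1
          exact ((ENNReal.continuous_ofReal.tendsto _).comp (h3.pow 2)).liminf_eq.symm
      _ ≤ liminf (fun n : ℕ => ∫⁻ ω, ENNReal.ofReal (L (min T (R n ω)) ω ^ 2) ∂P) atTop :=
          lintegral_liminf_le (fun n => ((hLR n).pow_const 2).ennreal_ofReal)
      _ ≤ ENNReal.ofReal (40 * (1 + |c| + T) ^ 2) := hliminf _ _ step1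
  rw [memLp_two_iff_integrable_sq (hLm T hT.le).aestronglyMeasurable]
  refine ⟨((hLm T hT.le).pow_const 2).aestronglyMeasurable, ?_⟩
  rw [hasFiniteIntegral_iff_ofReal (Eventually.of_forall fun ω => sq_nonneg _)]
  exact lt_of_le_of_lt step2 ENNReal.ofReal_lt_top

end preb

end Pool.Agent.Helper41.SK
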