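import Pool.Agent.Helper41.SK.Defs
import Pool.Agent.Helper41.SK.MainDefs
import Pool.Agent.Helper41.SK.SA01
import Pool.Agent.Helper41.SK.SA07
import Pool.Agent.Helper41.SK.SA08
import Pool.Agent.Helper41.SK.SA09
import Pool.Agent.Helper41.SK.SA10
import Pool.Agent.Helper41.SK.SB09

set_option autoImplicit false

open scoped ENNReal NNReal Topology
open MeasureTheory ProbabilityTheory Set Filter

namespace Pool.Agent.Helper41.SK

/-! Processes are indexed by t. -/


/-! ## TARGETS: prove these (statements must not be changed; helper lemmas are welcome) -/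

section preb

variable {Ω : Type*} [mΩ : MeasurableSpace Ω] {P : Measure Ω} [IsProbabilityMeasure P]
  {F : ℝ → MeasurableSpace Ω} {B : ℝ → Ω → ℝ} {c : ℝ} {V J L : ℝ → Ω → ℝ}

theorem pre_zp2 (h : Pre P F B c V J L) (T : ℝ) (hT : 0 < T) :
    ZP P F B c T (fun s ω => V (min s T) ω) L (fun _ => T) := by
  refine ⟨h.bm, hT, ?_, ?_, ?_, h.Lad, h.Lc, ?_, ?_, pre_l2 h T hT.le, fun _ => hT.le,
    fun _ => le_rfl, ?_, ?_, ?_⟩
  · intro t ht
    exact (h.Vad (min t T) (le_min ht hT.le)).mono (h.bm.mono (min_le_left _ _)) le_rfl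
  · intro ω
    exact (h.Vc ω).comp (continuous_id.min continuous_const)
  · filter_upwards [h.V0] with ω hω
    rw [min_eq_left hT.le, hω]
  · exact Filter.Eventually.of_forall h.L0
  · filter_upwards [pre_lip h] with ω hω s t hs hst
    refine (hω (min s T) (min t T) (le_min hs hT.le) (min_le_min_right _ hst)).trans ?_
    rcases le_total t T with htT | htT
    · rw [min_eq_left htT, min_eq_left (hst.trans htT)]
    · rw [min_eq_right htT]
      rcases le_total s T with hsT | hsT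
      · rw [min_eq_left hsT]
        linarith [h.Lmono ω T t hT.le htT]
      · rw [min_eq_right hsT]
        linarith [h.Lmono ω s t hs hst]
  · intro t _
    exact MeasurableSet.const _
  · refine Filter.Eventually.of_forall fun ω t ht => ?_
    show V (min t T) ω = V (min T T) ω
    rw [min_eq_right ht, min_self]
  · filter_upwards [h.flat] with ω hω s t hs hst htT hne
    show V (min s T) ω = V (min t T) ω
    rw [min_eq_left htT, min_eq_left (hst.trans htT)]
    refine (hω s t hs hst fun r hr => ?_).1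
    have := hne r hr
    rwa [min_eq_left (hr.2.trans htT)] at this

theorem h916_kap_cont (e : ℝ) : Continuous (kap e) := by
  unfold kap kp chi cl
  fun_prop

theorem h916_kap_bd (e x : ℝ) (he : 0 < e) : ‖kap e x‖ ≤ 3 / (2 * e) := by
  obtain ⟨h0, h1, -⟩ := chi_facts
  have h2 : 0 ≤ kp e x := div_nonneg (h0 _) he.le
  have h3 : 0 ≤ kp e (-x) := div_nonneg (h0 _) he.le
  have h4 : kp e x ≤ 3 / (2 * e) := by
    unfold kp
    rw [div_le_div_iff₀ he (by positivity)]
    nlinarith [h1 (x / e)]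
  have h5 : kp e (-x) ≤ 3 / (2 * e) := by
    unfold kp
    rw [div_le_div_iff₀ he (by positivity)]
    nlinarith [h1 (-x / e)]
  rw [Real.norm_eq_abs, abs_of_nonneg (by unfold kap; linarith)]
  unfold kap
  linarith

theorem h916_kapI_meas (h : Pre P F B c V J L) (T e : ℝ) (hT : 0 ≤ T) :
    Measurable (fun ω => ∫ s in (0:ℝ)..T, kap e (B s ω + V s ω)) := by
  have h1 : Measurable (Function.uncurry fun (s : ℝ) (ω : Ω) =>
      kap e (B (max s 0) ω + V (max s 0) ω)) := by
    refine measurable_uncurry_of_continuous_of_measurable ?_ ?_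
    · intro ω
      exact (h916_kap_cont e).comp
        (((h.bm.cont ω).comp (continuous_id.max continuous_const)).add
          ((h.Vc ω).comp (continuous_id.max continuous_const)))
    · intro s
      have hb : Measurable (B (max s 0)) :=
        (h.bm.adap (max s 0) (le_max_right _ _)).mono (h.bm.le _) le_rfl
      have hv : Measurable (V (max s 0)) :=
        (h.Vad (max s 0) (le_max_right _ _)).mono (h.bm.le _) le_rfl
      exact (h916_kap_cont e).measurable.comp (hb.add hv)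
  have h2 := h1.stronglyMeasurable.integral_prod_left
    (μ := (volume : Measure ℝ).restrict (Ioc 0 T))
  have h3 : (fun ω => ∫ s in (0:ℝ)..T, kap e (B s ω + V s ω)) = fun ω =>
      ∫ s in Ioc 0 T, kap e (B (max s 0) ω + V (max s 0) ω) := by
    funext ω
    rw [intervalIntegral.integral_of_le hT]
    refine setIntegral_congr_fun measurableSet_Ioc fun s hs => ?_
    show kap e (B s ω + V s ω) = kap e (B (max s 0) ω + V (max s 0) ω)
    rw [max_eq_left hs.1.le]
  rw [h3]
  exact h2.measurable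

theorem h916_kapI_bd (h : Pre P F B c V J L) (T e : ℝ) (hT : 0 ≤ T) (he : 0 < e) (ω : Ω) :
    ‖∫ s in (0:ℝ)..T, kap e (B s ω + V s ω)‖ ≤ 3 / (2 * e) * T := by
  have h1 := intervalIntegral.norm_integral_le_of_norm_le_const (a := 0) (b := T)
    (f := fun s => kap e (B s ω + V s ω)) (C := 3 / (2 * e)) fun s _ => h916_kap_bd e _ he
  rwa [sub_zero, abs_of_nonneg hT] at h1

theorem h916_kapI_l2 (h : Pre P F B c V J L) (T e : ℝ) (hT : 0 ≤ T) (he : 0 < e) :
    MemLp (fun ω => ∫ s in (0:ℝ)..T, kap e (B s ω + V s ω)) 2 P :=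
  MemLp.of_bound (h916_kapI_meas h T e hT).aestronglyMeasurable (3 / (2 * e) * T)
    (Filter.Eventually.of_forall fun ω => h916_kapI_bd h T e hT he ω)

theorem h916_kapI_min (T e : ℝ) (hT : 0 ≤ T) (ω : Ω) :
    ∫ s in (0:ℝ)..T, kap e (B s ω + V (min s T) ω) = ∫ s in (0:ℝ)..T, kap e (B s ω + V s ω) := by
  refine intervalIntegral.integral_congr fun s hs => ?_
  rw [Set.uIcc_of_le hT] at hs
  show kap e (B s ω + V (min s T) ω) = kap e (B s ω + V s ω)
  rw [min_eq_left hs.2]

theorem pre_loc (h : Pre P F B c V J L) (T e : ℝ) (hT : 0 ≤ T) (he : 0 < e) (he1 : e ≤ 1) :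
    ∫ ω, ((∫ s in (0:ℝ)..T, kap e (B s ω + V s ω)) - L T ω) ^ 2 ∂P ≤ 20 * (1 + |c| + T) * e := by
  rcases hT.eq_or_lt with hT0 | hT0
  · subst hT0
    have h1 : ∀ ω, ((∫ s in (0:ℝ)..0, kap e (B s ω + V s ω)) - L 0 ω) ^ 2 = 0 := by
      intro ω
      rw [intervalIntegral.integral_same, h.L0]
      norm_num
    simp only [h1, integral_zero]
    positivity
  have hZ := pre_zp2 h T hT0
  have hC0 : 0 ≤ 20 * (1 + |c| + T) * e := by positivity
  set ek : ℕ → ℝ := fun k => e / (k + 1) with hek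
  have hek0 : ∀ k, 0 < ek k := fun k => by positivity
  have heke : ∀ k, ek k ≤ e := fun k => by
    rw [hek]
    refine div_le_self he.le ?_
    have : (0:ℝ) ≤ k := Nat.cast_nonneg k
    linarith
  have hlim0 : Tendsto ek atTop (𝓝[>] 0) := by
    rw [tendsto_nhdsWithin_iff]
    refine ⟨?_, Filter.Eventually.of_forall hek0⟩
    have := (tendsto_one_div_add_atTop_nhds_zero_nat (𝕜 := ℝ)).const_mul e
    rw [mul_zero] at this
    refine this.congr fun k => ?_
    rw [hek]
    show e * (1 / ((k:ℝ) + 1)) = e / (k + 1)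
    ring
  set Ie : ℝ → Ω → ℝ := fun e ω => ∫ s in (0:ℝ)..T, kap e (B s ω + V s ω) with hIe
  have hb : ∀ k, ∫ ω, (Ie e ω - Ie (ek k) ω) ^ 2 ∂P ≤ 20 * (1 + |c| + T) * e := by
    intro k
    have h1 := kap_cauchy hZ e (ek k) he he1 (hek0 k) ((heke k).trans he1)
    rw [max_eq_left (heke k)] at h1
    refine le_trans (le_of_eq ?_) h1
    refine integral_congr_ae (Filter.Eventually.of_forall fun ω => ?_)
    show (Ie e ω - Ie (ek k) ω) ^ 2 =
      ((∫ s in (0:ℝ)..T, kap e (B s ω + V (min s T) ω)) -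
        ∫ s in (0:ℝ)..T, kap (ek k) (B s ω + V (min s T) ω)) ^ 2
    rw [h916_kapI_min T e hT ω, h916_kapI_min T (ek k) hT ω]
  have hint : ∀ k, Integrable (fun ω => (Ie e ω - Ie (ek k) ω) ^ 2) P := fun k =>
    ((h916_kapI_l2 h T e hT he).sub (h916_kapI_l2 h T (ek k) hT (hek0 k))).integrable_sq
  have hint2 : Integrable (fun ω => (Ie e ω - L T ω) ^ 2) P :=
    ((h916_kapI_l2 h T e hT he).sub (pre_l2 h T hT)).integrable_sq
  have hl : ∫⁻ ω, ENNReal.ofReal ((Ie e ω - L T ω) ^ 2) ∂P ≤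
      ENNReal.ofReal (20 * (1 + |c| + T) * e) := by
    have h1 : ∫⁻ ω, ENNReal.ofReal ((Ie e ω - L T ω) ^ 2) ∂P =
        ∫⁻ ω, Filter.liminf (fun k => ENNReal.ofReal ((Ie e ω - Ie (ek k) ω) ^ 2)) atTop ∂P := by
      refine lintegral_congr_ae ?_
      filter_upwards [h.lim] with ω hω
      have h2 := (hω T hT).comp hlim0
      have h3 : Tendsto (fun k => ENNReal.ofReal ((Ie e ω - Ie (ek k) ω) ^ 2)) atTop
          (𝓝 (ENNReal.ofReal ((Ie e ω - L T ω) ^ 2))) :=
        ENNReal.tendsto_ofReal ((tendsto_const_nhds.sub h2).pow 2)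
      exact h3.liminf_eq.symm
    rw [h1]
    refine (lintegral_liminf_le' fun k => (hint k).aestronglyMeasurable.aemeasurable.ennreal_ofReal).trans ?_
    refine Filter.liminf_le_of_frequently_le' (Filter.Frequently.of_forall fun k => ?_)
    rw [← ofReal_integral_eq_lintegral_ofReal (hint k)
      (Filter.Eventually.of_forall fun ω => sq_nonneg _)]
    exact ENNReal.ofReal_le_ofReal (hb k)
  rw [← ofReal_integral_eq_lintegral_ofReal hint2
    (Filter.Eventually.of_forall fun ω => sq_nonneg _)] at hl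
  exact (ENNReal.ofReal_le_ofReal_iff hC0).1 hl

theorem pre_unb (h : Pre P F B c V J L) (l : ℝ) :
    ∃ t : ℝ, 0 ≤ t ∧ 0 < P {ω | l < L t ω} := by
  by_contra hcon
  push Not at hcon
  have hle : ∀ t : ℝ, 0 ≤ t → ∀ᵐ ω ∂P, L t ω ≤ l := by
    intro t ht
    have h1 := le_zero_iff.1 (hcon t ht)
    rw [ae_iff]
    simpa only [not_le] using h1
  have hl0 : 0 ≤ l := by
    obtain ⟨ω, hω⟩ := (hle 0 le_rfl).exists
    rwa [h.L0] at hω
  have hLn : ∀ t : ℝ, 0 ≤ t → ∀ ω, 0 ≤ L t ω := by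
    intro t ht ω
    have := h.Lmono ω 0 t le_rfl ht
    rwa [h.L0] at this
  obtain ⟨S, hS⟩ : ∃ S : ℝ, S = 4 * (|c| + l) + 4 := ⟨_, rfl⟩
  have hSp : 0 < S := by rw [hS]; positivity
  set T : ℝ := S ^ 2 with hTd
  have hT : 0 < T := by positivity
  have hZ := pre_zp2 h T hT
  obtain ⟨K, hK⟩ : ∃ K : ℝ, K = 20 * (1 + |c| + T) := ⟨_, rfl⟩
  have hKp : 0 < K := by rw [hK]; positivity
  obtain ⟨η, hη⟩ : ∃ η : ℝ, η = 1 / (3 + K) := ⟨_, rfl⟩
  have hηp : 0 < η := by rw [hη]; positivity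
  have hη1 : η ≤ 1 := by
    rw [hη, div_le_one (by positivity)]
    linarith
  obtain ⟨e, hed⟩ : ∃ e : ℝ, e = η ^ 2 := ⟨_, rfl⟩
  have he : 0 < e := by rw [hed]; positivity
  have he1 : e ≤ 1 := by rw [hed]; nlinarith
  obtain ⟨Ie, hIe⟩ : ∃ Ie : Ω → ℝ, Ie = fun ω => ∫ s in (0:ℝ)..T, kap e (B s ω + V s ω) := ⟨_, rfl⟩
  have hloc := pre_loc h T e hT.le he he1
  have hIl : MemLp (fun ω => Ie ω - L T ω) 2 P := by
    rw [hIe]
    exact (h916_kapI_l2 h T e hT.le he).sub (pre_l2 h T hT.le)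
  obtain ⟨G, hG⟩ : ∃ G : Ω → ℝ, G = fun ω => (Fp e (B T ω + V T ω) + Fp e (-(B T ω + V T ω)))
    - (Fp e c + Fp e (-c)) - Ie ω := ⟨_, rfl⟩
  have hGeq : ∀ ω, G ω = (fun x => Fp e x + Fp e (-x)) (B T ω + V (min T T) ω)
      - (fun x => Fp e x + Fp e (-x)) c
      - (∫ s in (0:ℝ)..T, (fun x => 2 * kap e x) (B s ω + V (min s T) ω)) / 2 := by
    intro ω
    rw [hG, hIe]
    show _ = (Fp e (B T ω + V (min T T) ω) + Fp e (-(B T ω + V (min T T) ω)))
      - (Fp e c + Fp e (-c)) - (∫ s in (0:ℝ)..T, 2 * kap e (B s ω + V (min s T) ω)) / 2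
    rw [intervalIntegral.integral_const_mul, h916_kapI_min T e hT.le ω, min_self]
    ring
  have hG0 : ∫ ω, G ω ∂P = 0 := by
    have h1 := mean_ito hZ (Fs_tf e he he1)
    rw [← h1]
    exact integral_congr_ae (Filter.Eventually.of_forall hGeq)
  have hGi : Integrable G P := by
    have h1 := (iso_ito hZ (Fs_tf e he he1) 0).1
    have h2 : G = (fun ω => (fun x => Fp e x + Fp e (-x)) (B T ω + V (min T T) ω)
      - (fun x => Fp e x + Fp e (-x)) c
      - (∫ s in (0:ℝ)..T, (fun x => 2 * kap e x) (B s ω + V (min s T) ω)) / 2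
      - 0 * B T ω) := by
      funext ω
      rw [zero_mul, sub_zero, hGeq ω]
    rw [h2]
    exact h1.integrable (by norm_num)
  have hXi : Integrable (fun ω => |B T ω + V T ω|) P := by
    have h1 := (xr_l2 hZ).1
    simp only [min_self] at h1
    exact (h1.integrable (by norm_num)).abs
  have hFs : ∀ x : ℝ, |(Fp e x + Fp e (-x)) - (|x|)| ≤ e := by
    intro x
    have h1 := Fp_near e x he
    have h2 := Fp_near e (-x) he
    have h3 : |x| = max x 0 + max (-x) 0 := by
      rcases le_total 0 x with hx | hx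
      · rw [abs_of_nonneg hx, max_eq_left hx, max_eq_right (by linarith)]
        ring
      · rw [abs_of_nonpos hx, max_eq_right hx, max_eq_left (by linarith)]
        ring
    rw [h3, abs_le]
    rw [abs_le] at h1 h2
    constructor <;> linarith [h1.1, h1.2, h2.1, h2.2]
  -- pointwise bound
  have hpt : ∀ ω, |B T ω + V T ω| ≤ |c| + L T ω + G ω + 2 * e + η + (Ie ω - L T ω) ^ 2 / η := by
    intro ω
    have h1 := hFs (B T ω + V T ω)
    have h2 := hFs c
    rw [abs_le] at h1 h2
    have h3 : Ie ω - L T ω ≤ η + (Ie ω - L T ω) ^ 2 / η := by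
      have h4 : (Ie ω - L T ω) * η ≤ η * η + (Ie ω - L T ω) ^ 2 := by
        nlinarith [sq_nonneg (Ie ω - L T ω - η), sq_nonneg (Ie ω - L T ω), sq_nonneg η]
      have h5 : η + (Ie ω - L T ω) ^ 2 / η = (η * η + (Ie ω - L T ω) ^ 2) / η := by
        field_simp
      rw [h5, le_div_iff₀ hηp]
      exact h4
    have h6 : G ω = (Fp e (B T ω + V T ω) + Fp e (-(B T ω + V T ω)))
      - (Fp e c + Fp e (-c)) - Ie ω := by rw [hG]
    linarith [h1.1, h1.2, h2.1, h2.2]
  have hLi : Integrable (L T) P := (pre_l2 h T hT.le).integrable (by norm_num)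
  have hsqi : Integrable (fun ω => (Ie ω - L T ω) ^ 2) P := hIl.integrable_sq
  have hEX : ∫ ω, |B T ω + V T ω| ∂P ≤ |c| + l + 1 := by
    have h1 : ∫ ω, |B T ω + V T ω| ∂P ≤
        ∫ ω, ((|c| + 2 * e + η) + L T ω + G ω + (1 / η) * (Ie ω - L T ω) ^ 2) ∂P := by
      refine integral_mono hXi
        ((((integrable_const _).add hLi).add hGi).add (hsqi.const_mul _)) fun ω => ?_
      refine (hpt ω).trans (le_of_eq ?_)
      show _ = (|c| + 2 * e + η) + L T ω + G ω + (1 / η) * (Ie ω - L T ω) ^ 2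
      ring
    have h2 : ∫ ω, ((|c| + 2 * e + η) + L T ω + G ω + (1 / η) * (Ie ω - L T ω) ^ 2) ∂P =
        (|c| + 2 * e + η) + ∫ ω, L T ω ∂P + 0 + (1 / η) * ∫ ω, (Ie ω - L T ω) ^ 2 ∂P := by
      have i1 : Integrable (fun ω => (|c| + 2 * e + η) + L T ω) P := (integrable_const _).add hLi
      have i2 : Integrable (fun ω => (|c| + 2 * e + η) + L T ω + G ω) P := i1.add hGi
      rw [integral_add i2 (hsqi.const_mul _), integral_add i1 hGi, hG0,
        integral_add (integrable_const _) hLi, integral_const_mul, integral_const]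
      simp
    have h3 : ∫ ω, L T ω ∂P ≤ l := by
      have := integral_mono_ae hLi (integrable_const l) (hle T hT.le)
      rwa [integral_const, probReal_univ, one_smul] at this
    have h4 : ∫ ω, (Ie ω - L T ω) ^ 2 ∂P ≤ K * e := by
      rw [hIe, hK]
      exact hloc
    have h5 : (1 / η) * ∫ ω, (Ie ω - L T ω) ^ 2 ∂P ≤ K * η := by
      have : (1 / η) * ∫ ω, (Ie ω - L T ω) ^ 2 ∂P ≤ (1 / η) * (K * e) :=
        mul_le_mul_of_nonneg_left h4 (by positivity)
      refine this.trans (le_of_eq ?_)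
      rw [hed]
      field_simp
    have h6 : 2 * e ≤ 2 * η := by
      rw [hed]
      nlinarith
    have h7 : (3 + K) * η = 1 := by
      rw [hη]
      field_simp
    rw [h2] at h1
    nlinarith
  have hVb : ∀ᵐ ω ∂P, |B T ω| ≤ |B T ω + V T ω| + |c| + l := by
    filter_upwards [pre_lip h, h.V0, hle T hT.le] with ω h1 h2 h3
    have h4 := h1 0 T le_rfl hT.le
    rw [h2, h.L0] at h4
    have h5 : |B T ω| ≤ |B T ω + V T ω| + |V T ω - c| + |c| := by
      have e1 : B T ω = (B T ω + V T ω) - (V T ω - c) - c := by ring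
      calc |B T ω| = |(B T ω + V T ω) - (V T ω - c) - c| := by rw [← e1]
        _ ≤ |(B T ω + V T ω) - (V T ω - c)| + |c| := abs_sub _ _
        _ ≤ |B T ω + V T ω| + |V T ω - c| + |c| := by
            linarith [abs_sub (B T ω + V T ω) (V T ω - c)]
    linarith
  have hBi : ∀ k : ℕ, Integrable (fun ω => |B T ω| ^ k) P := by
    intro k
    have := inc_int h.bm 0 T le_rfl hT.le k
    simpa only [h.bm.zero, sub_zero] using this
  have hB1 : Integrable (fun ω => |B T ω|) P := by simpa using hBi 1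
  have hB2 : Integrable (fun ω => (B T ω) ^ 2) P := by
    have := hBi 2
    simpa only [sq_abs] using this
  have hB4 : Integrable (fun ω => (B T ω) ^ 4) P := by
    have := hBi 4
    refine this.congr (Filter.Eventually.of_forall fun ω => ?_)
    show |B T ω| ^ 4 = (B T ω) ^ 4
    rw [show (4:ℕ) = 2 * 2 from rfl, pow_mul, sq_abs, ← pow_mul]
  obtain ⟨-, hm2, -, -, hm4⟩ := inc_mom h.bm 0 T le_rfl hT.le
  simp only [h.bm.zero, sub_zero] at hm2 hm4
  have hlow : (9 / 16) * S ≤ ∫ ω, |B T ω| ∂P := by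
    have h1 : ∫ ω, ((3 / (4 * S)) * (B T ω) ^ 2 - (1 / (16 * S ^ 3)) * (B T ω) ^ 4) ∂P ≤
        ∫ ω, |B T ω| ∂P := by
      refine integral_mono ((hB2.const_mul _).sub (hB4.const_mul _)) hB1 fun ω => ?_
      show (3 / (4 * S)) * (B T ω) ^ 2 - (1 / (16 * S ^ 3)) * (B T ω) ^ 4 ≤ |B T ω|
      have hy : 0 ≤ |B T ω| := abs_nonneg _
      have h2 : (B T ω) ^ 2 = |B T ω| ^ 2 := (sq_abs _).symm
      have h3 : (B T ω) ^ 4 = |B T ω| ^ 4 := by
        rw [show (4:ℕ) = 2 * 2 from rfl, pow_mul, h2, ← pow_mul]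
      rw [h2, h3]
      generalize |B T ω| = y at hy
      have h4 : y - ((3 / (4 * S)) * y ^ 2 - (1 / (16 * S ^ 3)) * y ^ 4) =
          y * (y - 2 * S) ^ 2 * (y + 4 * S) / (16 * S ^ 3) := by
        field_simp
        ring
      have h5 : 0 ≤ y * (y - 2 * S) ^ 2 * (y + 4 * S) / (16 * S ^ 3) := by positivity
      linarith
    rw [integral_sub (hB2.const_mul _) (hB4.const_mul _), integral_const_mul, integral_const_mul,
      hm2, hm4, hTd] at h1
    refine le_trans (le_of_eq ?_) h1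
    field_simp
    ring
  have hup : ∫ ω, |B T ω| ∂P ≤ (|c| + l + 1) + |c| + l := by
    have h1 : ∫ ω, |B T ω| ∂P ≤ ∫ ω, (|B T ω + V T ω| + (|c| + l)) ∂P := by
      refine integral_mono_ae hB1 (hXi.add (integrable_const _)) ?_
      filter_upwards [hVb] with ω hω
      show |B T ω| ≤ |B T ω + V T ω| + (|c| + l)
      linarith
    rw [integral_add hXi (integrable_const _), integral_const, probReal_univ, one_smul] at h1
    linarith
  rw [hS] at hlow
  nlinarith [abs_nonneg c]

end preb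

end Pool.Agent.Helper41.SK
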