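import Pool.Agent.Helper41.SK.Defs
import Pool.Agent.Helper41.SK.MainDefs
import Pool.Agent.Helper41.SK.SB03
import Pool.Agent.Helper41.SK.SB07
import Pool.Agent.Helper41.SK.SB09
import Pool.Agent.Helper41.SK.SB10

set_option autoImplicit false

open scoped ENNReal NNReal Topology
open MeasureTheory ProbabilityTheory Set Filter

namespace Pool.Agent.Helper41.SK

/-! Processes are indexed by t. -/


/-! ## TARGETS: prove these (statements must not be changed; helper lemmas are welcome) -/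

section preb

variable {Ω : Type*} [mΩ : MeasurableSpace Ω] {P : Measure Ω} [IsProbabilityMeasure P]
  {F : ℝ → MeasurableSpace Ω} {B : ℝ → Ω → ℝ} {c : ℝ} {V J L : ℝ → Ω → ℝ}

theorem sp_cont (f : ℝ → ℝ) (hf : ContinuousOn f (Ici 0)) : Continuous (fun t => f (max t 0)) :=
  hf.comp_continuous (by fun_prop) (fun t => Set.mem_Ici.mpr (le_max_right t 0))

theorem sp_exists {S : Set Ω} (hS : 0 < P S) {p : Ω → Prop} (hp : ∀ᵐ ω ∂P, p ω) :
    ∃ ω ∈ S, p ω := by
  by_contra hcon
  push Not at hcon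
  have h1 : S ⊆ {ω | ¬ p ω} := fun ω hω => hcon ω hω
  have h2 : P S = 0 := measure_mono_null h1 (ae_iff.mp hp)
  exact hS.ne' h2

theorem sol_pre (φ : ℝ → ℝ) (hB : IsBM P F B) (X : ℝ → Ω → ℝ) (hX : IsSol P F B φ X) :
    ∃ J L : ℝ → Ω → ℝ, Pre P (fun t => F (max t 0)) (fun t ω => B (max t 0) ω) (φ 0)
      (fun t ω => X (max t 0) ω - B (max t 0) ω) J L ∧
      ∀ᵐ ω ∂P, ∀ t, 0 ≤ t → X t ω = B t ω + φ (L t ω) := by
  obtain ⟨q, L, ⟨hXca, M, A₁, A₂, hM, hA₁, hA₂, hdec, hq, hMq⟩, ⟨hL, hLlim⟩, heq⟩ := hX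
  have hBloc : IsLocMart P F B := mart_locmart hB.filt B (bm_mart hB).1 hB.ca
  have hN := locmart_lin hB.filt M B hM hBloc 1 (-1)
  have hNeq : ∀ᵐ ω ∂P, ∀ t, 0 ≤ t → (1 * M t ω + (-1) * B t ω) + A₁ t ω - A₂ t ω = φ (L t ω) := by
    filter_upwards [hdec, heq] with ω h1 h2 t ht
    have a1 := h1 t ht
    have a2 := h2 t ht
    linarith
  have hNc := nlem_all hB.filt _ A₁ A₂ L hN hA₁ hA₂ hL φ hNeq
  have hMB : ∀ᵐ ω ∂P, ∀ t, 0 ≤ t → M t ω = φ 0 + B t ω := by
    filter_upwards [hdec, heq, hNc] with ω h1 h2 h3 t ht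
    have a1 := h1 0 le_rfl
    have a2 := h2 0 le_rfl
    have a3 := h3 t ht
    rw [hA₁.zero, hA₂.zero] at a1
    rw [hB.zero, hL.zero] at a2
    rw [hB.zero] at a3
    linarith
  have hqe := q_eq hB M q (φ 0) hq hMB hMq
  have hlim : ∀ᵐ ω ∂P, ∀ t, 0 ≤ t →
      Tendsto (fun ε : ℝ => ∫ s in (0:ℝ)..t, kap ε (X s ω)) (𝓝[>] 0) (𝓝 (L t ω)) := by
    filter_upwards [hqe, hLlim] with ω h1 h2 t ht
    have h3 := h2 t ht
    rw [dmeas_id (fun s => q s ω) h1] at h3
    exact kap_lim (fun s => X s ω) t (L t ω) (hXca.cont ω) ht h3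
  have hVeq : ∀ᵐ ω ∂P, ∀ t, 0 ≤ t → X t ω - B t ω = φ 0 + A₁ t ω - A₂ t ω := by
    filter_upwards [hdec, hMB] with ω h1 h2 t ht
    rw [h1 t ht, h2 t ht]
    ring
  have hmax : ∀ t : ℝ, 0 ≤ max t 0 := fun t => le_max_right t 0
  have hmm : ∀ s t : ℝ, s ≤ t → max s 0 ≤ max t 0 := fun s t h => max_le_max_right 0 h
  refine ⟨fun t ω => A₁ (max t 0) ω + A₂ (max t 0) ω, fun t ω => L (max t 0) ω, ?_, ?_⟩
  · refine
      { bm :=
          { le := fun t => hB.filt.le _ (hmax t)
            mono := fun s t hst => hB.filt.mono _ _ (hmax s) (hmm s t hst)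
            null := ?_
            adap := fun t _ => hB.ca.adap _ (hmax t)
            cont := fun ω => sp_cont _ (hB.ca.cont ω)
            zero := ?_
            law := ?_
            indep := ?_ }
        Vad := fun t _ => (hXca.adap _ (hmax t)).sub (hB.ca.adap _ (hmax t))
        Vc := fun ω => (sp_cont _ (hXca.cont ω)).sub (sp_cont _ (hB.ca.cont ω))
        V0 := ?_
        Jad := fun t _ => (hA₁.ca.adap _ (hmax t)).add (hA₂.ca.adap _ (hmax t))
        Jc := fun ω => (sp_cont _ (hA₁.ca.cont ω)).add (sp_cont _ (hA₂.ca.cont ω))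
        J0 := ?_
        Jmono := ?_
        dom := ?_
        Lad := fun t _ => hL.ca.adap _ (hmax t)
        Lc := fun ω => sp_cont _ (hL.ca.cont ω)
        L0 := ?_
        Lmono := fun ω s t hs hst => hL.mono ω _ _ (hmax s) (hmm s t hst)
        lim := ?_
        flat := ?_ }
    · intro A hA
      show MeasurableSet[F (max 0 0)] A
      rw [max_self]
      exact hB.filt.null A hA
    · intro ω
      show B (max 0 0) ω = 0
      rw [max_self, hB.zero]
    · intro s t hs hst
      show P.map (fun ω => B (max t 0) ω - B (max s 0) ω) = _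
      rw [max_eq_left hs, max_eq_left (hs.trans hst)]
      exact hB.law s t hs hst
    · intro s t hs hst
      show Indep (MeasurableSpace.comap (fun ω => B (max t 0) ω - B (max s 0) ω) inferInstance)
        (F (max s 0)) P
      rw [max_eq_left hs, max_eq_left (hs.trans hst)]
      exact hB.indep s t hs hst
    · filter_upwards [hVeq] with ω h1
      show X (max 0 0) ω - B (max 0 0) ω = φ 0
      rw [max_self, h1 0 le_rfl, hA₁.zero, hA₂.zero]
      ring
    · intro ω
      show A₁ (max 0 0) ω + A₂ (max 0 0) ω = 0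
      rw [max_self, hA₁.zero, hA₂.zero, add_zero]
    · intro ω s t hs hst
      exact add_le_add (hA₁.mono ω _ _ (hmax s) (hmm s t hst)) (hA₂.mono ω _ _ (hmax s) (hmm s t hst))
    · filter_upwards [hVeq] with ω h1 s t hs hst
      show |(X (max t 0) ω - B (max t 0) ω) - (X (max s 0) ω - B (max s 0) ω)| ≤
        (A₁ (max t 0) ω + A₂ (max t 0) ω) - (A₁ (max s 0) ω + A₂ (max s 0) ω)
      rw [h1 _ (hmax t), h1 _ (hmax s)]
      have b1 := hA₁.mono ω _ _ (hmax s) (hmm s t hst)
      have b2 := hA₂.mono ω _ _ (hmax s) (hmm s t hst)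
      rw [abs_le]
      constructor <;> linarith
    · intro ω
      show L (max 0 0) ω = 0
      rw [max_self, hL.zero]
    · filter_upwards [hlim] with ω h1 t ht
      have h2 := h1 t ht
      show Tendsto (fun ε : ℝ => ∫ s in (0:ℝ)..t,
        kap ε (B (max s 0) ω + (X (max s 0) ω - B (max s 0) ω))) (𝓝[>] 0) (𝓝 (L (max t 0) ω))
      rw [max_eq_left ht]
      refine h2.congr fun ε => ?_
      apply intervalIntegral.integral_congr
      intro s hs
      rw [uIcc_of_le ht] at hs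
      show kap ε (X s ω) = kap ε (B (max s 0) ω + (X (max s 0) ω - B (max s 0) ω))
      rw [max_eq_left hs.1, add_sub_cancel]
    · filter_upwards [hlim, heq] with ω h1 h2 s t hs hst hne
      have h3 := flat_lim (fun s => X s ω) (fun t => L t ω) (hXca.cont ω) h1 s t hs hst (by
        intro r hr
        have h4 := hne r hr
        have h5 : 0 ≤ r := hs.trans hr.1
        rw [max_eq_left h5, add_sub_cancel] at h4
        exact h4)
      have h3' : L s ω = L t ω := h3
      have ht : 0 ≤ t := hs.trans hst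
      show X (max s 0) ω - B (max s 0) ω = X (max t 0) ω - B (max t 0) ω ∧
        L (max s 0) ω = L (max t 0) ω
      rw [max_eq_left hs, max_eq_left ht]
      refine ⟨?_, h3'⟩
      rw [h2 s hs, h2 t ht, h3']
      ring
  · filter_upwards [heq] with ω h1 t ht
    show X t ω = B t ω + φ (L (max t 0) ω)
    rw [max_eq_left ht]
    exact h1 t ht

theorem necessity (φ : ℝ → ℝ) (hB : IsBM P F B) (X : ℝ → Ω → ℝ) (hX : IsSol P F B φ X) :
    (∀ s t, 0 ≤ s → 0 ≤ t → |φ s - φ t| ≤ |s - t|) ∧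
    ∃ L : ℝ → Ω → ℝ, SolC P (fun t => F (max t 0)) (fun t ω => B (max t 0) ω) (φ 0) φ
      (fun t ω => X (max t 0) ω) L := by
  obtain ⟨J, L, hpre, heq⟩ := sol_pre φ hB X hX
  have hXca : IsCA F X := by
    obtain ⟨q, L, ⟨hXca, _⟩, _⟩ := hX
    exact hXca
  have hmax : ∀ t : ℝ, 0 ≤ max t 0 := fun t => le_max_right t 0
  have hlip1 : ∀ s t, 0 ≤ s → s ≤ t → |φ t - φ s| ≤ t - s := by
    intro s t hs hst
    obtain ⟨T, hT, hpos⟩ := pre_unb hpre t
    obtain ⟨ω, hω, h1, h2⟩ := sp_exists hpos ((pre_lip hpre).and heq)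
    have hω' : t < L T ω := hω
    have hLc : ContinuousOn (fun r => L r ω) (Icc 0 T) := (hpre.Lc ω).continuousOn
    obtain ⟨r₁, hr₁, he₁⟩ := intermediate_value_Icc hT hLc
      (show s ∈ Icc (L 0 ω) (L T ω) from ⟨by rw [hpre.L0]; exact hs, hst.trans hω'.le⟩)
    have he₁' : L r₁ ω = s := he₁
    obtain ⟨r₂, hr₂, he₂⟩ := intermediate_value_Icc hr₁.2 ((hpre.Lc ω).continuousOn)
      (show t ∈ Icc (L r₁ ω) (L T ω) from ⟨by rw [he₁']; exact hst, hω'.le⟩)
    have he₂' : L r₂ ω = t := he₂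
    have h3 := h1 r₁ r₂ hr₁.1 hr₂.1
    have hr20 : 0 ≤ r₂ := hr₁.1.trans hr₂.1
    simp only [max_eq_left hr₁.1, max_eq_left hr20] at h3
    rw [h2 r₂ hr20, h2 r₁ hr₁.1, he₁', he₂'] at h3
    calc |φ t - φ s| = |B r₂ ω + φ t - B r₂ ω - (B r₁ ω + φ s - B r₁ ω)| := by
          congr 1
          ring
      _ ≤ t - s := h3
  have hlip : ∀ s t, 0 ≤ s → 0 ≤ t → |φ s - φ t| ≤ |s - t| := by
    intro s t hs ht
    rcases le_total s t with h | h
    · rw [abs_sub_comm (φ s), abs_sub_comm s, abs_of_nonneg (sub_nonneg.mpr h)]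
      exact hlip1 s t hs h
    · rw [abs_of_nonneg (sub_nonneg.mpr h)]
      exact hlip1 t s ht h
  refine ⟨hlip, L, ?_⟩
  exact
    { bm := hpre.bm
      lip := hlip
      c0 := rfl
      Xad := fun t _ => hXca.adap _ (hmax t)
      Xc := fun ω => sp_cont _ (hXca.cont ω)
      Lad := hpre.Lad
      Lc := hpre.Lc
      L0 := hpre.L0
      Lmono := hpre.Lmono
      eq := by
        filter_upwards [heq] with ω h1 t ht
        rw [max_eq_left ht]
        exact h1 t ht
      Lsq := fun t ht => pre_l2 hpre t ht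
      flat := by
        filter_upwards [hpre.flat] with ω h1 s t hs hst hne
        refine (h1 s t hs hst fun r hr => ?_).2
        rw [add_sub_cancel]
        exact hne r hr
      loc := fun T e hT he he1 => by
        have h1 := pre_loc hpre T e hT he he1
        simp only [add_sub_cancel] at h1
        exact h1 }

end preb

end Pool.Agent.Helper41.SK
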