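import Pool.Agent.Helper41.SK.Defs
import Pool.Agent.Helper41.SK.MainDefs


set_option autoImplicit false

open scoped ENNReal NNReal Topology
open MeasureTheory ProbabilityTheory Set Filter

namespace Pool.Agent.Helper41.SK

/-! ## TARGETS: prove these (statements must not be changed; helper lemmas are welcome) -/

section calcs

variable {Ω : Type*}

theorem hr_log_nonneg (r x : ℝ) (hr0 : 0 < r) : 0 ≤ Real.log (1 + |x| / r) := by
  apply Real.log_nonneg
  have : 0 ≤ |x| / r := by positivity
  linarith

theorem hr_log_le (r x : ℝ) (hr0 : 0 < r) : Real.log (1 + |x| / r) ≤ |x| / r := by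
  have h1 : 0 < 1 + |x| / r := by positivity
  have := Real.log_le_sub_one_of_pos h1
  linarith

theorem hr_log_ge (r x : ℝ) (hr0 : 0 < r) : |x| / r / (1 + |x| / r) ≤ Real.log (1 + |x| / r) := by
  have h1 : 0 < 1 + |x| / r := by positivity
  have := Real.one_sub_inv_le_log_of_pos h1
  have e : |x| / r / (1 + |x| / r) = 1 - (1 + |x| / r)⁻¹ := by
    field_simp
    ring
  rw [e]
  exact this

theorem hr_nn (r x : ℝ) (hr0 : 0 < r) : 0 ≤ hr r x := by
  unfold hr
  have h := hr_log_ge r x hr0
  have h1 : 0 < |x| + r := by positivity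
  have h2 := mul_le_mul_of_nonneg_left h h1.le
  have e : (|x| + r) * (|x| / r / (1 + |x| / r)) = |x| := by
    have : 0 < 1 + |x| / r := by positivity
    field_simp
    ring
  rw [e] at h2
  linarith

theorem hr_up (r x : ℝ) (hr0 : 0 < r) : hr r x ≤ x ^ 2 / r := by
  unfold hr
  have h := hr_log_le r x hr0
  have h1 : 0 < |x| + r := by positivity
  have h2 := mul_le_mul_of_nonneg_left h h1.le
  have e : (|x| + r) * (|x| / r) - |x| = x ^ 2 / r := by
    rw [← sq_abs x]
    field_simp
    ring
  linarith

theorem hr_d1 (r x : ℝ) (hr0 : 0 < r) : HasDerivAt (hr r) (hr1 r x) x := by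
  rcases lt_trichotomy x 0 with hx | hx | hx
  · have h1 : HasDerivAt (fun y : ℝ => (-y + r) * Real.log (1 + -y / r) - -y)
        (-1 * Real.log (1 + -x / r) + (-x + r) * ((-1 / r) / (1 + -x / r)) - -1) x := by
      have a1 : HasDerivAt (fun y : ℝ => -y + r) (-1) x := (hasDerivAt_neg x).add_const r
      have a2 : HasDerivAt (fun y : ℝ => 1 + -y / r) (-1 / r) x :=
        ((hasDerivAt_neg x).div_const r).const_add 1
      have pos : 1 + -x / r ≠ 0 := by
        have : 0 < -x / r := div_pos (by linarith) hr0
        linarith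
      exact (a1.mul (a2.log pos)).sub (hasDerivAt_neg x)
    have h2 : (-1 * Real.log (1 + -x / r) + (-x + r) * ((-1 / r) / (1 + -x / r)) - -1) = hr1 r x := by
      unfold hr1
      rw [sign_neg hx, abs_of_neg hx]
      have pos : 0 < r + -x := by linarith
      have e : (-x + r) * ((-1 / r) / (1 + -x / r)) = -1 := by
        have : 1 + -x / r = (r + -x) / r := by field_simp
        rw [this]
        field_simp
        ring
      rw [e]
      simp
    rw [← h2]
    refine h1.congr_of_eventuallyEq ?_
    filter_upwards [eventually_lt_nhds hx] with y hy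
    unfold hr
    rw [abs_of_neg hy]
  · subst hx
    have h1 : hr1 r 0 = 0 := by simp [hr1]
    rw [h1, hasDerivAt_iff_isLittleO_nhds_zero]
    have h2 : (fun h : ℝ => hr r (0 + h) - hr r 0 - h • (0 : ℝ)) =O[𝓝 0] fun h : ℝ => h ^ 2 := by
      refine Asymptotics.IsBigO.of_bound (1 / r) (Eventually.of_forall fun h => ?_)
      have e : hr r (0 + h) - hr r 0 - h • (0 : ℝ) = hr r h := by simp [hr]
      rw [e, Real.norm_of_nonneg (hr_nn r h hr0), Real.norm_of_nonneg (sq_nonneg h)]
      have := hr_up r h hr0
      calc hr r h ≤ h ^ 2 / r := this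
        _ = 1 / r * h ^ 2 := by ring
    exact h2.trans_isLittleO (Asymptotics.isLittleO_pow_id one_lt_two)
  · have h1 : HasDerivAt (fun y : ℝ => (y + r) * Real.log (1 + y / r) - y)
        (1 * Real.log (1 + x / r) + (x + r) * ((1 / r) / (1 + x / r)) - 1) x := by
      have a1 : HasDerivAt (fun y : ℝ => y + r) 1 x := (hasDerivAt_id' x).add_const r
      have a2 : HasDerivAt (fun y : ℝ => 1 + y / r) (1 / r) x :=
        ((hasDerivAt_id' x).div_const r).const_add 1
      have pos : 1 + x / r ≠ 0 := by
        have : 0 < x / r := div_pos hx hr0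
        linarith
      exact (a1.mul (a2.log pos)).sub (hasDerivAt_id' x)
    have h2 : (1 * Real.log (1 + x / r) + (x + r) * ((1 / r) / (1 + x / r)) - 1) = hr1 r x := by
      unfold hr1
      rw [sign_pos hx, abs_of_pos hx]
      have pos : 0 < r + x := by linarith
      have e : (x + r) * ((1 / r) / (1 + x / r)) = 1 := by
        have : 1 + x / r = (r + x) / r := by field_simp
        rw [this]
        field_simp
        ring
      rw [e]
      simp
    rw [← h2]
    refine h1.congr_of_eventuallyEq ?_
    filter_upwards [eventually_gt_nhds hx] with y hy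
    unfold hr
    rw [abs_of_pos hy]

theorem hr_d2 (r x : ℝ) (hr0 : 0 < r) : HasDerivAt (hr1 r) (hr2 r x) x := by
  rcases lt_trichotomy x 0 with hx | hx | hx
  · have h1 : HasDerivAt (fun y : ℝ => -Real.log (1 + -y / r)) (-((-1 / r) / (1 + -x / r))) x := by
      have a2 : HasDerivAt (fun y : ℝ => 1 + -y / r) (-1 / r) x :=
        ((hasDerivAt_neg x).div_const r).const_add 1
      have pos : 1 + -x / r ≠ 0 := by
        have : 0 < -x / r := div_pos (by linarith) hr0
        linarith
      exact (a2.log pos).neg
    have h2 : (-((-1 / r) / (1 + -x / r))) = hr2 r x := by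
      unfold hr2
      rw [abs_of_neg hx]
      have pos : 0 < r + -x := by linarith
      have pos' : 0 < -x + r := by linarith
      have : 1 + -x / r = (-x + r) / r := by
        field_simp
        ring
      rw [this]
      field_simp
    rw [← h2]
    refine h1.congr_of_eventuallyEq ?_
    filter_upwards [eventually_lt_nhds hx] with y hy
    unfold hr1
    rw [abs_of_neg hy, sign_neg hy]
    simp
  · subst hx
    have h1 : hr2 r 0 = 1 / r := by simp [hr2]
    rw [h1, hasDerivAt_iff_isLittleO_nhds_zero]
    have h2 : (fun h : ℝ => hr1 r (0 + h) - hr1 r 0 - h • (1 / r)) =O[𝓝 0] fun h : ℝ => h ^ 2 := by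
      refine Asymptotics.IsBigO.of_bound (1 / r ^ 2) (Eventually.of_forall fun h => ?_)
      have e : hr1 r (0 + h) - hr1 r 0 - h • (1 / r) =
          SignType.sign h * (Real.log (1 + |h| / r) - |h| / r) := by
        have : (SignType.sign h : ℝ) * |h| = h := sign_mul_abs h
        simp only [hr1, zero_add, abs_zero, zero_div, add_zero, Real.log_one, mul_zero, sub_zero,
          smul_eq_mul]
        conv_lhs => rw [show h * (1 / r) = ((SignType.sign h : ℝ) * |h|) * (1 / r) by rw [this]]
        ring
      have hs : |(SignType.sign h : ℝ)| ≤ 1 := by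
        rcases lt_trichotomy h 0 with h0 | h0 | h0
        · rw [sign_neg h0]; simp
        · rw [h0]; simp
        · rw [sign_pos h0]; simp
      rw [e, Real.norm_of_nonneg (sq_nonneg h), Real.norm_eq_abs, abs_mul]
      have a1 := hr_log_le r h hr0
      have a2 := hr_log_ge r h hr0
      have a3 : |Real.log (1 + |h| / r) - |h| / r| ≤ 1 / r ^ 2 * h ^ 2 := by
        rw [abs_of_nonpos (by linarith)]
        have a4 : |h| / r - |h| / r / (1 + |h| / r) ≤ 1 / r ^ 2 * h ^ 2 := by
          have hu : 0 ≤ |h| / r := by positivity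
          have e2 : 1 / r ^ 2 * h ^ 2 = (|h| / r) ^ 2 := by
            rw [div_pow, sq_abs]
            ring
          rw [e2]
          generalize |h| / r = u at *
          have : u - u / (1 + u) = u ^ 2 / (1 + u) := by
            have : 0 < 1 + u := by linarith
            field_simp
            ring
          rw [this]
          exact div_le_self (sq_nonneg u) (by linarith)
        linarith
      calc _ ≤ 1 * |Real.log (1 + |h| / r) - |h| / r| :=
            mul_le_mul_of_nonneg_right hs (abs_nonneg _)
        _ ≤ _ := by rw [one_mul]; exact a3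
    exact h2.trans_isLittleO (Asymptotics.isLittleO_pow_id one_lt_two)
  · have h1 : HasDerivAt (fun y : ℝ => Real.log (1 + y / r)) ((1 / r) / (1 + x / r)) x := by
      have a2 : HasDerivAt (fun y : ℝ => 1 + y / r) (1 / r) x :=
        ((hasDerivAt_id' x).div_const r).const_add 1
      have pos : 1 + x / r ≠ 0 := by
        have : 0 < x / r := div_pos hx hr0
        linarith
      exact a2.log pos
    have h2 : ((1 / r) / (1 + x / r)) = hr2 r x := by
      unfold hr2
      rw [abs_of_pos hx]
      have pos : 0 < x + r := by linarith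
      have : 1 + x / r = (x + r) / r := by
        field_simp
        ring
      rw [this]
      field_simp
    rw [← h2]
    refine h1.congr_of_eventuallyEq ?_
    filter_upwards [eventually_gt_nhds hx] with y hy
    unfold hr1
    rw [abs_of_pos hy, sign_pos hy]
    simp

theorem hr_mono (r x y : ℝ) (hr0 : 0 < r) (hxy : |x| ≤ |y|) : hr r x ≤ hr r y := by
  unfold hr
  have hx : 0 ≤ |x| := abs_nonneg x
  generalize |x| = u at *
  generalize |y| = v at *
  have a0 : 0 < 1 + u / r := by positivity
  have hv : 0 ≤ v := hx.trans hxy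
  have b0 : 0 < 1 + v / r := by positivity
  have h1 : 0 ≤ Real.log (1 + u / r) := by
    apply Real.log_nonneg
    have : 0 ≤ u / r := by positivity
    linarith
  have h2 : 1 - (1 + u / r) / (1 + v / r) ≤ Real.log (1 + v / r) - Real.log (1 + u / r) := by
    have := Real.one_sub_inv_le_log_of_pos (div_pos b0 a0)
    rw [inv_div, Real.log_div b0.ne' a0.ne'] at this
    exact this
  have h3 : (v + r) * (1 - (1 + u / r) / (1 + v / r)) = v - u := by
    have : 0 < v + r := by linarith
    have e : 1 + v / r = (v + r) / r := by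
      field_simp
      ring
    have e' : 1 + u / r = (u + r) / r := by
      field_simp
      ring
    rw [e, e']
    field_simp
    ring
  have h4 : (v + r) * (1 - (1 + u / r) / (1 + v / r)) ≤
      (v + r) * (Real.log (1 + v / r) - Real.log (1 + u / r)) :=
    mul_le_mul_of_nonneg_left h2 (by linarith)
  have h5 : (u + r) * Real.log (1 + u / r) ≤ (v + r) * Real.log (1 + u / r) :=
    mul_le_mul_of_nonneg_right (by linarith) h1
  nlinarith

theorem hr_facts (r : ℝ) (hr0 : 0 < r) : (∀ x, HasDerivAt (hr r) (hr1 r x) x) ∧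
    (∀ x, HasDerivAt (hr1 r) (hr2 r x) x) ∧ (∀ x, 0 < hr2 r x) ∧ (∀ x, hr2 r x ≤ 1 / r) ∧
    (∀ x y, |hr2 r x - hr2 r y| ≤ 1 / r ^ 2 * |x - y|) ∧ (∀ x, 0 ≤ hr r x) ∧
    (∀ x, hr r x ≤ x ^ 2 / r) ∧ (∀ x y, |x| ≤ |y| → hr r x ≤ hr r y) ∧
    (∀ x, |hr1 r x| ≤ |x| / r) ∧ (∀ x, x ≠ 0 → 0 < hr r x) := by
  refine ⟨fun x => hr_d1 r x hr0, fun x => hr_d2 r x hr0, ?_, ?_, ?_, fun x => hr_nn r x hr0,
    fun x => hr_up r x hr0, fun x y h => hr_mono r x y hr0 h, ?_, ?_⟩
  · intro x
    unfold hr2
    positivity
  · intro x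
    unfold hr2
    apply one_div_le_one_div_of_le hr0
    have := abs_nonneg x
    linarith
  · intro x y
    unfold hr2
    have hx : 0 < |x| + r := by positivity
    have hy : 0 < |y| + r := by positivity
    have e : 1 / (|x| + r) - 1 / (|y| + r) = (|y| - |x|) / ((|x| + r) * (|y| + r)) := by
      field_simp
      ring
    rw [e, abs_div, abs_of_pos (mul_pos hx hy), div_le_iff₀ (mul_pos hx hy)]
    have h1 : |(|y| - |x|)| ≤ |x - y| := by
      rw [abs_sub_comm x y]
      exact abs_abs_sub_abs_le y x
    have h2 : r ^ 2 ≤ (|x| + r) * (|y| + r) := by nlinarith [abs_nonneg x, abs_nonneg y]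
    calc |(|y| - |x|)| ≤ |x - y| := h1
      _ = 1 / r ^ 2 * |x - y| * r ^ 2 := by field_simp
      _ ≤ 1 / r ^ 2 * |x - y| * ((|x| + r) * (|y| + r)) := by
          apply mul_le_mul_of_nonneg_left h2
          positivity
  · intro x
    unfold hr1
    have hs : |(SignType.sign x : ℝ)| ≤ 1 := by
      rcases lt_trichotomy x 0 with h0 | h0 | h0
      · rw [sign_neg h0]; simp
      · rw [h0]; simp
      · rw [sign_pos h0]; simp
    rw [abs_mul, abs_of_nonneg (hr_log_nonneg r x hr0)]
    calc _ ≤ 1 * Real.log (1 + |x| / r) := mul_le_mul_of_nonneg_right hs (hr_log_nonneg r x hr0)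
      _ ≤ _ := by rw [one_mul]; exact hr_log_le r x hr0
  · intro x hx
    unfold hr
    have hx' : 0 < |x| := abs_pos.2 hx
    generalize |x| = u at *
    have b0 : 0 < 1 + u / r := by positivity
    have hu : 0 < u / r := div_pos hx' hr0
    have h1 := Real.log_lt_sub_one_of_pos (inv_pos.2 b0) (by
      intro h
      have := inv_eq_one.1 h
      linarith)
    rw [Real.log_inv] at h1
    have h2 : (u + r) * (1 - (1 + u / r)⁻¹) < (u + r) * Real.log (1 + u / r) :=
      mul_lt_mul_of_pos_left (by linarith) (by linarith)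
    have e : (u + r) * (1 - (1 + u / r)⁻¹) = u := by
      have e' : 1 + u / r = (u + r) / r := by
        field_simp
        ring
      have : 0 < u + r := by linarith
      rw [e']
      field_simp
      ring
    linarith

theorem hr_large (lam A : ℝ) (hl : 0 < lam) :
    ∃ r0 : ℝ, 0 < r0 ∧ ∀ r, 0 < r → r ≤ r0 → A ≤ hr r lam := by
  refine ⟨lam / Real.exp (1 + |A| / lam), by positivity, ?_⟩
  intro r hr0 hr1
  have h1 : Real.exp (1 + |A| / lam) ≤ lam / r := by
    rw [le_div_iff₀ hr0]
    rw [le_div_iff₀ (Real.exp_pos _)] at hr1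
    linarith
  have h2 : 1 + |A| / lam ≤ Real.log (1 + lam / r) := by
    rw [Real.le_log_iff_exp_le (by positivity)]
    linarith
  unfold hr
  rw [abs_of_pos hl]
  have h3 : 0 ≤ |A| / lam := by positivity
  have h4 : lam * (1 + |A| / lam) ≤ (lam + r) * Real.log (1 + lam / r) := by
    calc lam * (1 + |A| / lam) ≤ lam * Real.log (1 + lam / r) := mul_le_mul_of_nonneg_left h2 hl.le
      _ ≤ (lam + r) * Real.log (1 + lam / r) := mul_le_mul_of_nonneg_right (by linarith) (by linarith)
  have h5 : lam * (1 + |A| / lam) = lam + |A| := by field_simp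
  have := le_abs_self A
  linarith

end calcs

end Pool.Agent.Helper41.SK
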