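import Pool.Agent.Helper41.SK.Defs
import Pool.Agent.Helper41.SK.MainDefs
import Pool.Agent.Helper41.SK.SA01
import Pool.Agent.Helper41.SK.SA06
import Pool.Agent.Helper41.SK.SA07
import Pool.Agent.Helper41.SK.SA08
import Pool.Agent.Helper41.SK.SA09
import Pool.Agent.Helper41.SK.SA10

set_option autoImplicit false

open scoped ENNReal NNReal Topology
open MeasureTheory ProbabilityTheory Set Filter

namespace Pool.Agent.Helper41.SK


/-! ## TARGETS: prove these (statements must not be changed; helper lemmas are welcome) -/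

section solc

variable {Ω : Type*} [mΩ : MeasurableSpace Ω] {P : Measure Ω} [IsProbabilityMeasure P]
  {F : ℝ → MeasurableSpace Ω} {B : ℝ → Ω → ℝ} {c : ℝ} {φ : ℝ → ℝ} {X L : ℝ → Ω → ℝ}
  {f f1 f2 : ℝ → ℝ} {C : ℝ}

theorem sol_aux_V (T s : ℝ) (ω : Ω) (hs : s ≤ T) :
    B s ω + (X (min s T) ω - B (min s T) ω) = X s ω := by
  rw [min_eq_left hs]; ring

theorem sol_zp (h : SolC P F B c φ X L) (T : ℝ) (hT : 0 < T) :
    ZP P F B c T (fun t ω => X (min t T) ω - B (min t T) ω) L (fun _ => T) := by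
  have hmin0 : ∀ t, 0 ≤ t → 0 ≤ min t T := fun t ht => le_min ht hT.le
  have hLnn : ∀ ω t, 0 ≤ t → 0 ≤ L t ω := by
    intro ω t ht
    have := h.Lmono ω 0 t le_rfl ht
    rwa [h.L0 ω] at this
  have hφ : ∀ᵐ ω ∂P, ∀ t, 0 ≤ t → X (min t T) ω - B (min t T) ω = φ (L (min t T) ω) := by
    filter_upwards [h.eq] with ω hω t ht
    rw [hω _ (hmin0 t ht)]
    ring
  refine ⟨h.bm, hT, ?_, ?_, ?_, h.Lad, h.Lc, ?_, ?_, h.Lsq T hT.le, fun _ => hT.le,
    fun _ => le_rfl, ?_, ?_, ?_⟩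
  · intro t ht
    have h1 : Measurable[F t] (X (min t T)) :=
      (h.Xad _ (hmin0 t ht)).mono (h.bm.mono (min_le_left t T)) le_rfl
    have h2 : Measurable[F t] (B (min t T)) :=
      (h.bm.adap _ (hmin0 t ht)).mono (h.bm.mono (min_le_left t T)) le_rfl
    exact h1.sub h2
  · intro ω
    have hc : Continuous (fun t : ℝ => min t T) := continuous_id.min continuous_const
    exact ((h.Xc ω).comp hc).sub ((h.bm.cont ω).comp hc)
  · filter_upwards [hφ] with ω hω
    rw [hω 0 le_rfl, min_eq_left hT.le, h.L0 ω, h.c0]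
  · exact Eventually.of_forall h.L0
  · filter_upwards [hφ] with ω hω s t hs hst
    have ht : 0 ≤ t := hs.trans hst
    show |(X (min t T) ω - B (min t T) ω) - (X (min s T) ω - B (min s T) ω)| ≤ _
    rw [hω t ht, hω s hs]
    have h1 := h.lip (L (min t T) ω) (L (min s T) ω) (hLnn ω _ (hmin0 t ht)) (hLnn ω _ (hmin0 s hs))
    have h2 : L (min s T) ω ≤ L (min t T) ω :=
      h.Lmono ω _ _ (hmin0 s hs) (min_le_min_right T hst)
    rw [abs_of_nonneg (sub_nonneg.mpr h2)] at h1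
    refine h1.trans ?_
    rcases le_total t T with htT | htT
    · rw [min_eq_left htT, min_eq_left (hst.trans htT)]
    · rw [min_eq_right htT]
      rcases le_total s T with hsT | hsT
      · rw [min_eq_left hsT]
        have := h.Lmono ω T t hT.le htT
        linarith
      · rw [min_eq_right hsT]
        have := h.Lmono ω s t hs hst
        linarith
  · intro t _
    exact MeasurableSet.const _
  · refine Eventually.of_forall fun ω t ht => ?_
    show X (min t T) ω - B (min t T) ω = X (min T T) ω - B (min T T) ω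
    have ht' : T ≤ t := ht
    rw [min_eq_right ht', min_self]
  · filter_upwards [hφ, h.flat] with ω hω hfl s t hs hst htT hne
    have ht : 0 ≤ t := hs.trans hst
    show X (min s T) ω - B (min s T) ω = X (min t T) ω - B (min t T) ω
    have htT' : t ≤ T := htT
    have h1 : L s ω = L t ω := by
      apply hfl s t hs hst
      intro r hr
      have := hne r hr
      rwa [sol_aux_V T r ω (hr.2.trans htT')] at this
    rw [hω s hs, hω t ht, min_eq_left (hst.trans htT'), min_eq_left htT', h1]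

theorem sol_mean (h : SolC P F B c φ X L) (hf : TF f f1 f2 C) (a b : ℝ) (ha : 0 ≤ a)
    (hab : a ≤ b) (G : Set Ω) (hG : MeasurableSet[F a] G) :
    ∫ ω in G, (f (X b ω) - f (X a ω) - (∫ s in a..b, f2 (X s ω)) / 2) ∂P = 0 := by
  have hz := sol_zp h (b + 1) (by linarith)
  have key := mg_ito hz hf a b ha hab (by linarith) G hG
  refine (integral_congr_ae (Eventually.of_forall fun ω => ?_)).trans key
  show f (X b ω) - f (X a ω) - (∫ s in a..b, f2 (X s ω)) / 2 =
    f (B b ω + (X (min b (b + 1)) ω - B (min b (b + 1)) ω)) -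
    f (B a ω + (X (min a (b + 1)) ω - B (min a (b + 1)) ω)) -
    (∫ s in a..b, f2 (B s ω + (X (min s (b + 1)) ω - B (min s (b + 1)) ω))) / 2
  rw [sol_aux_V _ _ ω (by linarith), sol_aux_V _ _ ω (by linarith)]
  have e : ∫ s in a..b, f2 (B s ω + (X (min s (b + 1)) ω - B (min s (b + 1)) ω)) =
      ∫ s in a..b, f2 (X s ω) := by
    apply intervalIntegral.integral_congr
    intro s hs
    rw [Set.uIcc_of_le hab] at hs
    show f2 (B s ω + (X (min s (b + 1)) ω - B (min s (b + 1)) ω)) = f2 (X s ω)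
    rw [sol_aux_V _ _ ω (by linarith [hs.2])]
  rw [e]

theorem sol_ito (h : SolC P F B c φ X L) (hf : TF f f1 f2 C) (T : ℝ) (hT : 0 < T) :
    ∃ w : ℕ → ℝ, Tendsto w atTop (𝓝 0) ∧ ∀ n, 0 < n → ∀ j, j ≤ n →
      MemLp (fun ω => f (X (gp 0 T n j) ω) - f (X 0 ω) - (∫ s in (0:ℝ)..(gp 0 T n j), f2 (X s ω)) / 2
        - ∑ i ∈ Finset.range j,
          f1 (X (gp 0 T n i) ω) * (B (gp 0 T n (i + 1)) ω - B (gp 0 T n i) ω)) 2 P ∧
      ∫ ω, (f (X (gp 0 T n j) ω) - f (X 0 ω) - (∫ s in (0:ℝ)..(gp 0 T n j), f2 (X s ω)) / 2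
        - ∑ i ∈ Finset.range j,
          f1 (X (gp 0 T n i) ω) * (B (gp 0 T n (i + 1)) ω - B (gp 0 T n i) ω)) ^ 2 ∂P ≤ w n := by
  obtain ⟨w, hw, h2⟩ := ito2 (sol_zp h T hT) hf 0 T le_rfl hT.le le_rfl
  refine ⟨w, hw, fun n hn j hj => ?_⟩
  have key := h2 n hn j hj
  obtain ⟨g0, g1, g2, g3, g4, g5, g6⟩ := gp_facts 0 T hT.le n hn
  have hnR : (0 : ℝ) < n := by exact_mod_cast hn
  have eq : Rem B (fun t ω => X (min t T) ω - B (min t T) ω) (fun _ => T) f f1 f2 0 T n j =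
      fun ω => f (X (gp 0 T n j) ω) - f (X 0 ω) - (∫ s in (0:ℝ)..(gp 0 T n j), f2 (X s ω)) / 2
        - ∑ i ∈ Finset.range j,
          f1 (X (gp 0 T n i) ω) * (B (gp 0 T n (i + 1)) ω - B (gp 0 T n i) ω) := by
    funext ω
    unfold Rem
    simp only []
    rw [min_eq_left (g5 j hj), min_eq_left hT.le]
    rw [sol_aux_V T _ ω (g5 j hj), sol_aux_V T _ ω hT.le]
    have e1 : ∫ s in (0:ℝ)..(gp 0 T n j), f2 (B s ω + (X (min s T) ω - B (min s T) ω)) =
        ∫ s in (0:ℝ)..(gp 0 T n j), f2 (X s ω) := by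
      apply intervalIntegral.integral_congr
      intro s hs
      rw [Set.uIcc_of_le (g4 j)] at hs
      show f2 (B s ω + (X (min s T) ω - B (min s T) ω)) = f2 (X s ω)
      rw [sol_aux_V T _ ω (hs.2.trans (g5 j hj))]
    rw [e1]
    congr 1
    apply Finset.sum_congr rfl
    intro i hi
    have hij : i < j := Finset.mem_range.mp hi
    have hin : i ≤ n := by omega
    have hlt : gp 0 T n i < T := by
      unfold gp
      rw [zero_add, sub_zero, div_lt_iff₀ hnR]
      apply mul_lt_mul_of_pos_left _ hT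
      exact_mod_cast (by omega : i < n)
    rw [if_pos hlt, sol_aux_V T _ ω (g5 i hin)]
  rw [eq] at key
  exact key

theorem sol_occ (h : SolC P F B c φ X L) (T e : ℝ) (hT : 0 < T) (he : 0 < e) (he1 : e ≤ 1) :
    ∫ ω, (∫ s in (0:ℝ)..T, if |X s ω| ≤ e then (1:ℝ) else 0) ∂P ≤ 3 * e * (1 + |c| + T) := by
  have key := occ (sol_zp h T hT) e he he1
  refine le_trans (le_of_eq ?_) key
  congr 1
  funext ω
  apply intervalIntegral.integral_congr
  intro s hs
  rw [Set.uIcc_of_le hT.le] at hs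
  show (if |X s ω| ≤ e then (1:ℝ) else 0) =
    if |B s ω + (X (min s T) ω - B (min s T) ω)| ≤ e then (1:ℝ) else 0
  rw [sol_aux_V T _ ω hs.2]

theorem sol_aux_occm (h : SolC P F B c φ X L) (T e : ℝ) (hT : 0 < T) :
    Measurable (fun ω => ∫ s in (0:ℝ)..T, if |X s ω| ≤ e then (1:ℝ) else 0) := by
  have key := occ_meas (sol_zp h T hT) e
  have e1 : (fun ω => ∫ s in (0:ℝ)..T, if |X s ω| ≤ e then (1:ℝ) else 0) = fun ω =>
      ∫ s in (0:ℝ)..T, if |B s ω + (X (min s T) ω - B (min s T) ω)| ≤ e then (1:ℝ) else 0 := by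
    funext ω
    apply intervalIntegral.integral_congr
    intro s hs
    rw [Set.uIcc_of_le hT.le] at hs
    show (if |X s ω| ≤ e then (1:ℝ) else 0) =
      if |B s ω + (X (min s T) ω - B (min s T) ω)| ≤ e then (1:ℝ) else 0
    rw [sol_aux_V T _ ω hs.2]
  rw [e1]
  exact key

theorem sol_aux_occr (h : SolC P F B c φ X L) (T e : ℝ) (hT : 0 < T) (ω : Ω) :
    ∫ s in (0:ℝ)..T, (if |X s ω| ≤ e then (1:ℝ) else 0) =
      (volume.restrict (Ioc 0 T)).real {s | |X s ω| ≤ e} := by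
  have hm : MeasurableSet {s | |X s ω| ≤ e} :=
    (isClosed_le (continuous_abs.comp (h.Xc ω)) continuous_const).measurableSet
  rw [intervalIntegral.integral_of_le hT.le, ← integral_indicator_one hm]
  congr 1

theorem sol_zero (h : SolC P F B c φ X L) (T : ℝ) (hT : 0 < T) :
    ∀ᵐ ω ∂P, ∀ᵐ s ∂(volume.restrict (Icc (0:ℝ) T)), X s ω ≠ 0 := by
  obtain ⟨A, hA⟩ : ∃ A : ℕ → Ω → ℝ, A = fun (n : ℕ) ω =>
    ∫ s in (0:ℝ)..T, if |X s ω| ≤ 1 / ((n : ℝ) + 1) then (1:ℝ) else 0 := ⟨_, rfl⟩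
  have hAm : ∀ n, Measurable (A n) := by
    intro n; rw [hA]; exact sol_aux_occm h T _ hT
  have hAr : ∀ n ω, A n ω = (volume.restrict (Ioc 0 T)).real {s | |X s ω| ≤ 1 / ((n : ℝ) + 1)} := by
    intro n ω; rw [hA]; exact sol_aux_occr h T _ hT ω
  have hA0 : ∀ n ω, 0 ≤ A n ω := by
    intro n ω; rw [hAr]; exact measureReal_nonneg
  have hAT : ∀ n ω, A n ω ≤ T := by
    intro n ω
    rw [hAr]
    calc (volume.restrict (Ioc 0 T)).real {s | |X s ω| ≤ 1 / ((n : ℝ) + 1)} ≤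
          (volume.restrict (Ioc 0 T)).real univ := measureReal_mono (subset_univ _)
      _ = T := by simp [Measure.real, hT.le]
  have hAint : ∀ n, Integrable (A n) P := by
    intro n
    apply Integrable.of_bound (hAm n).aestronglyMeasurable T
    exact Eventually.of_forall fun ω => by
      rw [Real.norm_eq_abs, abs_of_nonneg (hA0 n ω)]; exact hAT n ω
  have hAb : ∀ n : ℕ, ∫ ω, A n ω ∂P ≤ 3 * (1 / ((n : ℝ) + 1)) * (1 + |c| + T) := by
    intro n
    rw [hA]
    apply sol_occ h T _ hT (by positivity)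
    rw [div_le_one (by positivity)]
    have : (0 : ℝ) ≤ n := Nat.cast_nonneg n
    linarith
  have hlin : ∫⁻ ω, ⨅ n, ENNReal.ofReal (A n ω) ∂P = 0 := by
    apply le_antisymm _ zero_le
    have ht : Tendsto (fun n : ℕ => ENNReal.ofReal (3 * (1 / ((n : ℝ) + 1)) * (1 + |c| + T))) atTop
        (𝓝 0) := by
      have h1 : Tendsto (fun n : ℕ => 3 * (1 / ((n : ℝ) + 1)) * (1 + |c| + T)) atTop (𝓝 0) := by
        have h2 := (tendsto_one_div_add_atTop_nhds_zero_nat (𝕜 := ℝ)).const_mul 3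
        have h3 := h2.mul_const (1 + |c| + T)
        simpa using h3
      have h4 := (ENNReal.continuous_ofReal.tendsto 0).comp h1
      rw [ENNReal.ofReal_zero] at h4
      exact h4
    apply ge_of_tendsto' ht
    intro n
    calc ∫⁻ ω, ⨅ n, ENNReal.ofReal (A n ω) ∂P ≤ ∫⁻ ω, ENNReal.ofReal (A n ω) ∂P :=
          lintegral_mono fun ω => iInf_le _ n
      _ = ENNReal.ofReal (∫ ω, A n ω ∂P) :=
          (ofReal_integral_eq_lintegral_ofReal (hAint n) (Eventually.of_forall (hA0 n))).symm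
      _ ≤ _ := ENNReal.ofReal_le_ofReal (hAb n)
  rw [lintegral_eq_zero_iff (Measurable.iInf fun n => (hAm n).ennreal_ofReal)] at hlin
  filter_upwards [hlin] with ω hω
  rw [ae_iff]
  apply le_antisymm _ zero_le
  have hω' : ⨅ n, ENNReal.ofReal (A n ω) = 0 := hω
  rw [← hω']
  apply le_iInf
  intro n
  rw [hAr]
  have e1 : (volume.restrict (Icc (0:ℝ) T)) = volume.restrict (Ioc 0 T) :=
    Measure.restrict_congr_set Ioc_ae_eq_Icc.symm
  rw [e1]
  have e2 : ENNReal.ofReal ((volume.restrict (Ioc 0 T)).real {s | |X s ω| ≤ 1 / ((n : ℝ) + 1)}) =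
      (volume.restrict (Ioc 0 T)) {s | |X s ω| ≤ 1 / ((n : ℝ) + 1)} := by
    rw [ofReal_measureReal]
  rw [e2]
  apply measure_mono
  intro s hs
  have hs' : X s ω = 0 := not_not.mp hs
  show |X s ω| ≤ 1 / ((n : ℝ) + 1)
  rw [hs', abs_zero]
  positivity

theorem sol_aux_kap : Continuous (kap 1) ∧ (∀ x, 0 ≤ kap 1 x) ∧ ∀ x, kap 1 x ≤ 3 / 2 := by
  obtain ⟨c1, c2, _⟩ := chi_facts
  refine ⟨?_, ?_, ?_⟩
  · unfold kap kp chi cl
    fun_prop
  · intro x
    unfold kap kp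
    have h1 := c1 (x / 1)
    have h2 := c1 (-x / 1)
    simp only [div_one] at *
    linarith
  · intro x
    unfold kap kp
    have h1 := c2 (x / 1)
    have h2 := c2 (-x / 1)
    simp only [div_one] at *
    linarith

theorem sol_aux_Km (h : SolC P F B c φ X L) (T : ℝ) (hT : 0 < T) :
    AEStronglyMeasurable (fun ω => ∫ s in (0:ℝ)..T, kap 1 (X s ω)) P := by
  have hle : ∀ t, 0 ≤ t → Measurable (X t) := fun t ht => (h.Xad t ht).mono (h.bm.le t) le_rfl
  have h1 : Measurable (Function.uncurry (fun (s : ℝ) (ω : Ω) => X (max s 0) ω)) := by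
    apply measurable_uncurry_of_continuous_of_measurable
    · intro ω
      exact (h.Xc ω).comp (continuous_id.max continuous_const)
    · intro s
      exact hle _ (le_max_right _ _)
  have h2 : StronglyMeasurable (Function.uncurry (fun (ω : Ω) (s : ℝ) => kap 1 (X (max s 0) ω))) := by
    have h3 : Measurable (fun p : Ω × ℝ => X (max p.2 0) p.1) := h1.comp measurable_swap
    exact (sol_aux_kap.1.measurable.comp h3).stronglyMeasurable
  have h4 := h2.integral_prod_right (ν := volume.restrict (Ioc 0 T))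
  have e : (fun ω => ∫ s in (0:ℝ)..T, kap 1 (X s ω)) = fun ω =>
      ∫ s, kap 1 (X (max s 0) ω) ∂(volume.restrict (Ioc 0 T)) := by
    funext ω
    rw [intervalIntegral.integral_of_le hT.le]
    apply setIntegral_congr_fun measurableSet_Ioc
    intro s hs
    show kap 1 (X s ω) = kap 1 (X (max s 0) ω)
    rw [max_eq_left hs.1.le]
  rw [e]
  exact h4.aestronglyMeasurable

theorem sol_aux_Kb (h : SolC P F B c φ X L) (T : ℝ) (hT : 0 < T) (ω : Ω) :
    0 ≤ ∫ s in (0:ℝ)..T, kap 1 (X s ω) ∧ ∫ s in (0:ℝ)..T, kap 1 (X s ω) ≤ 3 / 2 * T := by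
  obtain ⟨k1, k2, k3⟩ := sol_aux_kap
  constructor
  · exact intervalIntegral.integral_nonneg hT.le fun s _ => k2 _
  · have h1 : ∫ s in (0:ℝ)..T, kap 1 (X s ω) ≤ ∫ _s in (0:ℝ)..T, (3 / 2 : ℝ) := by
      apply intervalIntegral.integral_mono_on hT.le
      · exact (k1.comp (h.Xc ω)).intervalIntegrable _ _
      · exact intervalIntegrable_const
      · intro s _; exact k3 _
    refine h1.trans (le_of_eq ?_)
    rw [intervalIntegral.integral_const]
    simp [mul_comm]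

theorem sol_aux_L2 (h : SolC P F B c φ X L) (T : ℝ) (hT : 0 < T) :
    ∫ ω, (L T ω) ^ 2 ∂P ≤ 100 * (1 + |c| + T) ^ 2 := by
  have hloc := h.loc T 1 hT.le one_pos le_rfl
  have hKm := sol_aux_Km h T hT
  obtain ⟨K, hK⟩ : ∃ K : Ω → ℝ, K = fun ω => ∫ s in (0:ℝ)..T, kap 1 (X s ω) := ⟨_, rfl⟩
  have hK0 : ∀ ω, 0 ≤ K ω := by intro ω; rw [hK]; exact (sol_aux_Kb h T hT ω).1
  have hK1 : ∀ ω, K ω ≤ 3 / 2 * T := by intro ω; rw [hK]; exact (sol_aux_Kb h T hT ω).2
  rw [← hK] at hKm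
  have hloc' : ∫ ω, (K ω - L T ω) ^ 2 ∂P ≤ 20 * (1 + |c| + T) * 1 := by rw [hK]; exact hloc
  have hKL : MemLp K 2 P := by
    apply MemLp.of_bound hKm (3 / 2 * T)
    exact Eventually.of_forall fun ω => by
      rw [Real.norm_eq_abs, abs_of_nonneg (hK0 ω)]; exact hK1 ω
  have hL := h.Lsq T hT.le
  have hKL2 : MemLp (fun ω => K ω - L T ω) 2 P := hKL.sub hL
  have i1 : Integrable (fun ω => (L T ω) ^ 2) P := hL.integrable_sq
  have i2 : Integrable (fun ω => (K ω) ^ 2) P := hKL.integrable_sq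
  have i3 : Integrable (fun ω => (K ω - L T ω) ^ 2) P := hKL2.integrable_sq
  have h1 : ∫ ω, (L T ω) ^ 2 ∂P ≤ ∫ ω, (2 * (K ω) ^ 2 + 2 * (K ω - L T ω) ^ 2) ∂P := by
    apply integral_mono i1 ((i2.const_mul 2).add (i3.const_mul 2))
    intro ω
    show (L T ω) ^ 2 ≤ 2 * (K ω) ^ 2 + 2 * (K ω - L T ω) ^ 2
    nlinarith [sq_nonneg (2 * K ω - L T ω)]
  have h2 : ∫ ω, (2 * (K ω) ^ 2 + 2 * (K ω - L T ω) ^ 2) ∂P =
      2 * ∫ ω, (K ω) ^ 2 ∂P + 2 * ∫ ω, (K ω - L T ω) ^ 2 ∂P := by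
    rw [integral_add (i2.const_mul 2) (i3.const_mul 2), integral_const_mul, integral_const_mul]
  have h3 : ∫ ω, (K ω) ^ 2 ∂P ≤ (3 / 2 * T) ^ 2 := by
    have h4 : ∫ ω, (K ω) ^ 2 ∂P ≤ ∫ _ω, (3 / 2 * T) ^ 2 ∂P := by
      apply integral_mono i2 (integrable_const _)
      intro ω
      exact pow_le_pow_left₀ (hK0 ω) (hK1 ω) 2
    simpa using h4
  have hc := abs_nonneg c
  have hS : 1 ≤ 1 + |c| + T := by linarith
  nlinarith [mul_nonneg hc hT.le, sq_nonneg (|c|), sq_nonneg T]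

theorem sol_l2 (h : SolC P F B c φ X L) (T : ℝ) (hT : 0 ≤ T) :
    MemLp (X T) 2 P ∧ ∫ ω, (X T ω) ^ 2 ∂P ≤ 4 * (1 + |c| + T) ^ 2 ∧
    ∫ ω, (L T ω) ^ 2 ∂P ≤ 100 * (1 + |c| + T) ^ 2 ∧ ∫ ω, L T ω ∂P ≤ 10 * (1 + |c| + T) := by
  have hc := abs_nonneg c
  rcases hT.eq_or_lt with hT0 | hT0
  · subst hT0
    have hX : X 0 =ᵐ[P] fun _ => c := by
      filter_upwards [h.eq] with ω hω
      rw [hω 0 le_rfl, h.bm.zero ω, h.L0 ω, h.c0, zero_add]
    have hL : L 0 = fun _ => 0 := funext h.L0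
    refine ⟨(memLp_const c).ae_eq hX.symm, ?_, ?_, ?_⟩
    · have h1 : ∫ ω, (X 0 ω) ^ 2 ∂P = ∫ _ω, c ^ 2 ∂P := by
        apply integral_congr_ae
        filter_upwards [hX] with ω hω
        rw [hω]
      rw [h1]
      simp only [integral_const, probReal_univ, one_smul]
      rw [← sq_abs c]
      nlinarith
    · rw [hL]
      simp
      positivity
    · rw [hL]
      simp
      positivity
  · have hx := xr_l2 (sol_zp h T hT0)
    have e : (fun ω => B T ω + (X (min T T) ω - B (min T T) ω)) = X T := by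
      funext ω; exact sol_aux_V T T ω le_rfl
    have hx1 : MemLp (fun ω => B T ω + (X (min T T) ω - B (min T T) ω)) 2 P := hx.1
    have hx2 : ∫ ω, (B T ω + (X (min T T) ω - B (min T T) ω)) ^ 2 ∂P ≤ 4 * (1 + |c| + T) ^ 2 :=
      hx.2.1
    rw [e] at hx1
    have e2 : ∀ ω, B T ω + (X (min T T) ω - B (min T T) ω) = X T ω := fun ω =>
      sol_aux_V T T ω le_rfl
    simp only [e2] at hx2
    have hL2 := sol_aux_L2 h T hT0
    refine ⟨hx1, hx2, hL2, ?_⟩
    have hL := h.Lsq T hT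
    have i1 : Integrable (fun ω => (L T ω) ^ 2) P := hL.integrable_sq
    have i2 : Integrable (L T) P := hL.integrable one_le_two
    have hS : 1 ≤ 1 + |c| + T := by linarith
    obtain ⟨S, hSd⟩ : ∃ S, S = 1 + |c| + T := ⟨_, rfl⟩
    rw [← hSd] at hL2 hS ⊢
    have hS0 : 0 < S := by linarith
    have h1 : ∫ ω, L T ω ∂P ≤ ∫ ω, ((1 / (20 * S)) * (L T ω) ^ 2 + 5 * S) ∂P := by
      apply integral_mono i2 ((i1.const_mul _).add (integrable_const _))
      intro ω
      show L T ω ≤ (1 / (20 * S)) * (L T ω) ^ 2 + 5 * S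
      have h3 : (1 / (20 * S)) * (L T ω) ^ 2 + 5 * S - L T ω =
          (1 / (20 * S)) * (L T ω - 10 * S) ^ 2 := by
        field_simp
        ring
      have h4 : 0 ≤ (1 / (20 * S)) * (L T ω - 10 * S) ^ 2 := by positivity
      linarith
    have h2 : ∫ ω, ((1 / (20 * S)) * (L T ω) ^ 2 + 5 * S) ∂P =
        (1 / (20 * S)) * ∫ ω, (L T ω) ^ 2 ∂P + 5 * S := by
      rw [integral_add (i1.const_mul _) (integrable_const _), integral_const_mul]
      simp
    have h3 : (1 / (20 * S)) * ∫ ω, (L T ω) ^ 2 ∂P ≤ (1 / (20 * S)) * (100 * S ^ 2) :=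
      mul_le_mul_of_nonneg_left hL2 (by positivity)
    have h4 : (1 / (20 * S)) * (100 * S ^ 2) = 5 * S := by
      field_simp
      ring
    linarith

end solc

end Pool.Agent.Helper41.SK
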