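import Pool.Agent.Helper41.SK.Defs
import Pool.Agent.Helper41.SK.MainDefs
import Pool.Agent.Helper41.SK.SA06
import Pool.Agent.Helper41.SK.SA07
import Pool.Agent.Helper41.SK.SA08
import Pool.Agent.Helper41.SK.SA09
import Pool.Agent.Helper41.SK.SA10
import Pool.Agent.Helper41.SK.SC01

set_option autoImplicit false

open scoped ENNReal NNReal Topology
open MeasureTheory ProbabilityTheory Set Filter

namespace Pool.Agent.Helper41.SK


/-! ## TARGETS: prove these (statements must not be changed; helper lemmas are welcome) -/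

section solc

variable {Ω : Type*} [mΩ : MeasurableSpace Ω] {P : Measure Ω} [IsProbabilityMeasure P]
  {F : ℝ → MeasurableSpace Ω} {B : ℝ → Ω → ℝ} {c : ℝ} {φ : ℝ → ℝ} {X L : ℝ → Ω → ℝ}
  {f f1 f2 : ℝ → ℝ} {C : ℝ}

theorem os_Lnn (h : SolC P F B c φ X L) (t : ℝ) (ht : 0 ≤ t) (ω : Ω) : 0 ≤ L t ω := by
  have := h.Lmono ω 0 t le_rfl ht
  rwa [h.L0] at this

theorem os_phic (h : SolC P F B c φ X L) : Continuous (fun s => φ (max s 0)) := by
  have : LipschitzWith 1 (fun s => φ (max s 0)) := by
    apply LipschitzWith.of_dist_le_mul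
    intro s t
    rw [Real.dist_eq, Real.dist_eq, NNReal.coe_one, one_mul]
    exact (h.lip _ _ (le_max_right _ _) (le_max_right _ _)).trans (abs_max_sub_max_le_abs s t 0)
  exact this.continuous

theorem os_phiL (h : SolC P F B c φ X L) (t : ℝ) (ht : 0 ≤ t) :
    Measurable[F t] (fun ω => φ (L t ω)) := by
  have h1 : (fun ω => φ (L t ω)) = (fun s => φ (max s 0)) ∘ (L t) := by
    funext ω; simp only [Function.comp, max_eq_left (os_Lnn h t ht ω)]
  rw [h1]
  exact (os_phic h).measurable.comp (h.Lad t ht)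

theorem os_memLp (h : SolC P F B c φ X L) (q : ℝ → ℝ) (hq : Continuous q) (M : ℝ)
    (hM : ∀ x, |q x| ≤ M) (T : ℝ) (hT : 0 ≤ T) :
    MemLp (fun ω => ∫ s in (0:ℝ)..T, q (X s ω)) 2 P := by
  have hjm : Measurable (Function.uncurry fun (s : ℝ) (ω : Ω) => q (X (max s 0) ω)) := by
    apply measurable_uncurry_of_continuous_of_measurable
    · intro ω
      exact hq.comp ((h.Xc ω).comp (continuous_id.max continuous_const))
    · intro s
      exact hq.measurable.comp ((h.Xad (max s 0) (le_max_right _ _)).mono (h.bm.le _) le_rfl)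
  have hm : Measurable (fun ω => ∫ s in (0:ℝ)..T, q (X s ω)) := by
    have h1 : (fun ω => ∫ s in (0:ℝ)..T, q (X s ω)) =
        fun ω => ∫ s in Ioc 0 T, q (X (max s 0) ω) := by
      funext ω
      rw [intervalIntegral.integral_of_le hT]
      apply setIntegral_congr_fun measurableSet_Ioc
      intro s hs
      simp only [max_eq_left hs.1.le]
    rw [h1]
    exact (hjm.stronglyMeasurable.integral_prod_left (μ := volume.restrict (Ioc 0 T))).measurable
  refine MemLp.of_bound hm.aestronglyMeasurable (M * |T - 0|) (Eventually.of_forall fun ω => ?_)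
  exact intervalIntegral.norm_integral_le_of_norm_le_const fun s _ => by
    rw [Real.norm_eq_abs]; exact hM _

omit [IsProbabilityMeasure P] mΩ in
theorem os_kpc (e : ℝ) : Continuous (kp e) := by
  unfold kp chi cl
  fun_prop

theorem os_kp_abs (e x : ℝ) (he : 0 < e) : |kp e x| ≤ 3 / 2 / e := by
  unfold kp
  rw [abs_div, abs_of_pos he, abs_of_nonneg (chi_facts.1 _)]
  exact div_le_div_of_nonneg_right (chi_facts.2.1 _) he.le

theorem os_add_sq {u v : Ω → ℝ} (hu : MemLp u 2 P) (hv : MemLp v 2 P) :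
    ∫ ω, (u ω + v ω) ^ 2 ∂P ≤ 2 * ∫ ω, u ω ^ 2 ∂P + 2 * ∫ ω, v ω ^ 2 ∂P := by
  rw [← integral_const_mul, ← integral_const_mul,
    ← integral_add (hu.integrable_sq.const_mul 2) (hv.integrable_sq.const_mul 2)]
  apply integral_mono_of_nonneg (Eventually.of_forall fun ω => sq_nonneg _)
  · exact (hu.integrable_sq.const_mul 2).add (hv.integrable_sq.const_mul 2)
  · exact Eventually.of_forall fun ω => by
      change (u ω + v ω) ^ 2 ≤ 2 * u ω ^ 2 + 2 * v ω ^ 2
      nlinarith [sq_nonneg (u ω - v ω)]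

theorem os_abs {u : Ω → ℝ} (hu : MemLp u 2 P) (d : ℝ) (hd : 0 < d) :
    ∫ ω, |u ω| ∂P ≤ ((∫ ω, u ω ^ 2 ∂P) / d + d) / 2 := by
  have h1 : Integrable (fun ω => u ω ^ 2 / d) P := hu.integrable_sq.div_const d
  have h2 : ∫ ω, |u ω| ∂P ≤ ∫ ω, (u ω ^ 2 / d + d) / 2 ∂P := by
    apply integral_mono (hu.integrable one_le_two).abs ((h1.add (integrable_const d)).div_const 2)
    intro ω
    change |u ω| ≤ (u ω ^ 2 / d + d) / 2
    have h3 : u ω ^ 2 / d + d = (u ω ^ 2 + d ^ 2) / d := by field_simp
    rw [h3, div_div, le_div_iff₀ (by positivity)]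
    nlinarith [sq_nonneg (|u ω| - d), sq_abs (u ω)]
  refine h2.trans (le_of_eq ?_)
  rw [integral_div, integral_add h1 (integrable_const d), integral_div]
  simp

theorem os_phi_memLp (h : SolC P F B c φ X L) (t : ℝ) (ht : 0 ≤ t) :
    MemLp (fun ω => φ (L t ω) - φ 0) 2 P := by
  refine (h.Lsq t ht).of_le (((os_phiL h t ht).mono (h.bm.le _) le_rfl).sub_const
    (φ 0)).aestronglyMeasurable (Eventually.of_forall fun ω => ?_)
  rw [Real.norm_eq_abs, Real.norm_eq_abs]
  have := h.lip (L t ω) 0 (os_Lnn h t ht ω) le_rfl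
  rwa [sub_zero] at this

theorem os_U_memLp (h : SolC P F B c φ X L) (T e : ℝ) (hT : 0 ≤ T) (he : 0 < e) :
    MemLp (fun ω => (∫ s in (0:ℝ)..T, kp e (X s ω)) - (L T ω + φ (L T ω) - φ 0)) 2 P := by
  have h1 := os_memLp h (kp e) (os_kpc e) (3 / 2 / e) (fun x => os_kp_abs e x he) T hT
  have h2 := (h.Lsq T hT).add (os_phi_memLp h T hT)
  refine (h1.sub h2).congr_norm ?_ ?_
  · refine (h1.sub h2).aestronglyMeasurable.congr (Eventually.of_forall fun ω => ?_)
    simp only [Pi.sub_apply, Pi.add_apply]; ring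
  · refine Eventually.of_forall fun ω => ?_
    simp only [Pi.sub_apply, Pi.add_apply]
    congr 1; ring

theorem one_sided (h : SolC P F B c φ X L) (T e : ℝ) (hT : 0 ≤ T) (he : 0 < e) (he1 : e ≤ 1) :
    ∫ ω, ((∫ s in (0:ℝ)..T, kp e (X s ω)) - (L T ω + φ (L T ω) - φ 0)) ^ 2 ∂P ≤
      56 * (1 + |c| + T) * e := by
  rcases eq_or_lt_of_le hT with hT0 | hT0
  · subst hT0
    have h0 : ∀ ω, ((∫ s in (0:ℝ)..0, kp e (X s ω)) - (L 0 ω + φ (L 0 ω) - φ 0)) ^ 2 = 0 := by
      intro ω
      rw [h.L0 ω, intervalIntegral.integral_same]; ring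
    simp only [h0, integral_zero]
    positivity
  · have hu := diff_kernel (sol_zp h T hT0) e he he1
    have hv := h.loc T e hT he he1
    have hkp2 : Continuous (fun x => kp e (-x)) := (os_kpc e).comp continuous_neg
    have hi1 : ∀ ω, IntervalIntegrable (fun s => kp e (X s ω)) volume 0 T := fun ω =>
      ((os_kpc e).comp (h.Xc ω)).intervalIntegrable _ _
    have hi2 : ∀ ω, IntervalIntegrable (fun s => kp e (-(X s ω))) volume 0 T := fun ω =>
      (hkp2.comp (h.Xc ω)).intervalIntegrable _ _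
    have hV : ∀ᵐ ω ∂P, X T ω - B T ω = φ (L T ω) := by
      filter_upwards [h.eq] with ω hω
      have := hω T hT
      linarith
    let I1 : Ω → ℝ := fun ω => ∫ s in (0:ℝ)..T, kp e (X s ω)
    let I2 : Ω → ℝ := fun ω => ∫ s in (0:ℝ)..T, kp e (-(X s ω))
    have hI1 : MemLp I1 2 P :=
      os_memLp h (kp e) (os_kpc e) (3 / 2 / e) (fun x => os_kp_abs e x he) T hT
    have hI2 : MemLp I2 2 P :=
      os_memLp h (fun x => kp e (-x)) hkp2 (3 / 2 / e) (fun x => os_kp_abs e _ he) T hT
    have hu' : ∫ ω, ((I1 ω - I2 ω) / 2 - (φ (L T ω) - φ 0)) ^ 2 ∂P ≤ 8 * (1 + |c| + T) * e := by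
      refine le_trans (le_of_eq ?_) hu
      apply integral_congr_ae
      filter_upwards [hV] with ω hω
      simp only [min_self, hω]
      have h1 : I1 ω - I2 ω =
          ∫ s in (0:ℝ)..T, (kp e (B s ω + (X (min s T) ω - B (min s T) ω)) -
            kp e (-(B s ω + (X (min s T) ω - B (min s T) ω)))) := by
        simp only [I1, I2]
        rw [← intervalIntegral.integral_sub (hi1 ω) (hi2 ω)]
        apply intervalIntegral.integral_congr
        intro s hs
        rw [uIcc_of_le hT] at hs
        simp only [min_eq_left hs.2, add_sub_cancel]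
      rw [h1, h.c0]
    have hv' : ∫ ω, ((I1 ω + I2 ω) / 2 - L T ω) ^ 2 ∂P ≤ 20 * (1 + |c| + T) * e := by
      refine le_trans (le_of_eq ?_) hv
      apply integral_congr_ae
      refine Eventually.of_forall fun ω => ?_
      simp only [I1, I2, kap]
      rw [intervalIntegral.integral_div, intervalIntegral.integral_add (hi1 ω) (hi2 ω)]
    have hmu : MemLp (fun ω => (I1 ω - I2 ω) / 2 - (φ (L T ω) - φ 0)) 2 P := by
      have h1 := ((hI1.sub hI2).const_mul (1 / 2)).sub (os_phi_memLp h T hT)
      refine h1.congr_norm ?_ ?_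
      · refine h1.aestronglyMeasurable.congr (Eventually.of_forall fun ω => ?_)
        simp only [Pi.sub_apply]; ring
      · refine Eventually.of_forall fun ω => ?_
        simp only [Pi.sub_apply]
        congr 1; ring
    have hmv : MemLp (fun ω => (I1 ω + I2 ω) / 2 - L T ω) 2 P := by
      have h1 := ((hI1.add hI2).const_mul (1 / 2)).sub (h.Lsq T hT)
      refine h1.congr_norm ?_ ?_
      · refine h1.aestronglyMeasurable.congr (Eventually.of_forall fun ω => ?_)
        simp only [Pi.sub_apply, Pi.add_apply]; ring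
      · refine Eventually.of_forall fun ω => ?_
        simp only [Pi.sub_apply, Pi.add_apply]
        congr 1; ring
    have h3 := os_add_sq hmu hmv
    have h4 : ∫ ω, ((∫ s in (0:ℝ)..T, kp e (X s ω)) - (L T ω + φ (L T ω) - φ 0)) ^ 2 ∂P =
        ∫ ω, (((I1 ω - I2 ω) / 2 - (φ (L T ω) - φ 0)) + ((I1 ω + I2 ω) / 2 - L T ω)) ^ 2 ∂P := by
      apply integral_congr_ae
      refine Eventually.of_forall fun ω => ?_
      simp only [I1]
      ring
    rw [h4]
    linarith

theorem np_l2 (h : SolC P F B c φ X L) (t : ℝ) (ht : 0 ≤ t) :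
    Measurable[F t] (Np φ X L t) ∧ MemLp (Np φ X L t) 2 P := by
  have hm : Measurable[F t] (Np φ X L t) := by
    have h1 : Measurable[F t] (fun ω => max (X t ω) 0) := (h.Xad t ht).max measurable_const
    have h2 : Measurable[F t] (fun ω => (L t ω + φ (L t ω) - φ 0) / 2) :=
      (((h.Lad t ht).add (os_phiL h t ht)).sub_const _).div_const _
    exact h1.sub h2
  refine ⟨hm, ?_⟩
  have hX := (sol_l2 h t ht).1
  have h1 : MemLp (fun ω => max (X t ω) 0) 2 P := by
    refine hX.of_le (((h.Xad t ht).mono (h.bm.le _) le_rfl).max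
      measurable_const).aestronglyMeasurable (Eventually.of_forall fun ω => ?_)
    rw [Real.norm_eq_abs, Real.norm_eq_abs, abs_of_nonneg (le_max_right _ _)]
    exact max_le (le_abs_self _) (abs_nonneg _)
  have h2 := ((h.Lsq t ht).add (os_phi_memLp h t ht)).const_mul (1 / 2)
  refine (h1.sub h2).congr_norm (hm.mono (h.bm.le _) le_rfl).aestronglyMeasurable ?_
  refine Eventually.of_forall fun ω => ?_
  simp only [Pi.sub_apply, Pi.add_apply, Np]
  congr 1; ring

theorem np_mart (h : SolC P F B c φ X L) (a b : ℝ) (ha : 0 ≤ a) (hab : a ≤ b) (G : Set Ω)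
    (hG : MeasurableSet[F a] G) :
    ∫ ω in G, Np φ X L b ω ∂P = ∫ ω in G, Np φ X L a ω ∂P := by
  have hb : 0 ≤ b := ha.trans hab
  have hNa := (np_l2 h a ha).2.integrable one_le_two
  have hNb := (np_l2 h b hb).2.integrable one_le_two
  rw [← sub_eq_zero, ← integral_sub hNb.integrableOn hNa.integrableOn]
  set A := ∫ ω in G, (Np φ X L b ω - Np φ X L a ω) ∂P with hA
  set K := 56 * (1 + |c| + b) + 1 with hK
  have hK0 : 0 < K := by positivity
  have key : ∀ d : ℝ, 0 < d → d ≤ 1 → |A| ≤ (1 + K) * d := by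
    intro d hd hd1
    have he : 0 < d ^ 2 := by positivity
    have he1 : d ^ 2 ≤ 1 := pow_le_one₀ hd.le hd1
    set e := d ^ 2 with hedef
    let U : ℝ → Ω → ℝ := fun t ω => (∫ s in (0:ℝ)..t, kp e (X s ω)) - (L t ω + φ (L t ω) - φ 0)
    have hU : ∀ t, 0 ≤ t → MemLp (U t) 2 P := fun t ht => os_U_memLp h t e ht he
    have hUb : ∀ t, 0 ≤ t → t ≤ b → ∫ ω, |U t ω| ∂P ≤ K * d / 2 := by
      intro t ht htb
      have h1 := os_abs (hU t ht) d hd
      have h2 := one_sided h t e ht he he1
      have h3 : (∫ ω, U t ω ^ 2 ∂P) / d ≤ 56 * (1 + |c| + b) * d := by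
        rw [div_le_iff₀ hd]
        calc ∫ ω, U t ω ^ 2 ∂P ≤ 56 * (1 + |c| + t) * e := h2
          _ ≤ 56 * (1 + |c| + b) * e := by gcongr
          _ = 56 * (1 + |c| + b) * d * d := by rw [hedef]; ring
      calc ∫ ω, |U t ω| ∂P ≤ ((∫ ω, U t ω ^ 2 ∂P) / d + d) / 2 := h1
        _ ≤ (56 * (1 + |c| + b) * d + d) / 2 := by gcongr
        _ = K * d / 2 := by rw [hK]; ring
    have hFc : Continuous (Fp e) :=
      continuous_iff_continuousAt.2 fun x => ((Fp_tf e he he1).h1 x).continuousAt
    have hFi : ∀ t, 0 ≤ t → Integrable (fun ω => Fp e (X t ω)) P := by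
      intro t ht
      have h1 : Integrable (fun ω => |X t ω| + e / 2) P :=
        ((sol_l2 h t ht).1.integrable one_le_two).abs.add (integrable_const _)
      refine h1.mono' (hFc.measurable.comp
        ((h.Xad t ht).mono (h.bm.le _) le_rfl)).aestronglyMeasurable
        (Eventually.of_forall fun ω => ?_)
      rw [Real.norm_eq_abs]
      have h2 := abs_le.1 (Fp_near e (X t ω) he)
      have h3 : max (X t ω) 0 ≤ |X t ω| := max_le (le_abs_self _) (abs_nonneg _)
      have h4 : 0 ≤ max (X t ω) 0 := le_max_right _ _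
      rw [abs_le]
      constructor
      · have := abs_nonneg (X t ω); linarith [h2.2]
      · linarith [h2.1]
    have hIi : ∀ t, 0 ≤ t → Integrable (fun ω => ∫ s in (0:ℝ)..t, kp e (X s ω)) P := fun t ht =>
      (os_memLp h (kp e) (os_kpc e) (3 / 2 / e) (fun x => os_kp_abs e x he) t ht).integrable
        one_le_two
    have hsplit : ∀ ω, ∫ s in a..b, kp e (X s ω) =
        (∫ s in (0:ℝ)..b, kp e (X s ω)) - ∫ s in (0:ℝ)..a, kp e (X s ω) := by
      intro ω
      have hc : Continuous fun s => kp e (X s ω) := (os_kpc e).comp (h.Xc ω)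
      rw [intervalIntegral.integral_interval_sub_left (hc.intervalIntegrable _ _)
        (hc.intervalIntegrable _ _)]
    let g : Ω → ℝ := fun ω => Fp e (X b ω) - Fp e (X a ω) - (∫ s in a..b, kp e (X s ω)) / 2
    have hgi : Integrable g P := by
      have h1 : g = fun ω => Fp e (X b ω) - Fp e (X a ω) -
          ((∫ s in (0:ℝ)..b, kp e (X s ω)) - ∫ s in (0:ℝ)..a, kp e (X s ω)) / 2 := by
        funext ω; simp only [g, hsplit]
      rw [h1]
      exact ((hFi b hb).sub (hFi a ha)).sub (((hIi b hb).sub (hIi a ha)).div_const 2)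
    have hg0 : ∫ ω in G, g ω ∂P = 0 := sol_mean h (Fp_tf e he he1) a b ha hab G hG
    have hA1 : A = ∫ ω in G, ((Np φ X L b ω - Np φ X L a ω) - g ω) ∂P := by
      have hd1 : IntegrableOn (fun ω => Np φ X L b ω - Np φ X L a ω) G P :=
        (hNb.sub hNa).integrableOn
      rw [integral_sub hd1 hgi.integrableOn, hg0, sub_zero]
    have hbound : ∀ ω, |(Np φ X L b ω - Np φ X L a ω) - g ω| ≤ e + (|U b ω| + |U a ω|) / 2 := by
      intro ω
      have h1 : (Np φ X L b ω - Np φ X L a ω) - g ω =
          (max (X b ω) 0 - Fp e (X b ω)) - (max (X a ω) 0 - Fp e (X a ω)) +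
            (U b ω - U a ω) / 2 := by
        simp only [Np, g, U, hsplit]; ring
      rw [h1]
      have h2 := abs_le.1 (Fp_near e (X b ω) he)
      have h3 := abs_le.1 (Fp_near e (X a ω) he)
      have h4 := abs_le.1 (le_refl |U b ω|)
      have h5 := abs_le.1 (le_refl |U a ω|)
      rw [abs_le]
      constructor
      · linarith [h2.1, h2.2, h3.1, h3.2, h4.1, h4.2, h5.1, h5.2]
      · linarith [h2.1, h2.2, h3.1, h3.2, h4.1, h4.2, h5.1, h5.2]
    have hUi : ∀ t, 0 ≤ t → Integrable (fun ω => |U t ω|) P := fun t ht =>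
      ((hU t ht).integrable one_le_two).abs
    have hRi : Integrable (fun ω => e + (|U b ω| + |U a ω|) / 2) P :=
      (integrable_const e).add (((hUi b hb).add (hUi a ha)).div_const 2)
    calc |A| = |∫ ω in G, ((Np φ X L b ω - Np φ X L a ω) - g ω) ∂P| := by rw [hA1]
      _ ≤ ∫ ω in G, |(Np φ X L b ω - Np φ X L a ω) - g ω| ∂P := abs_integral_le_integral_abs
      _ ≤ ∫ ω in G, (e + (|U b ω| + |U a ω|) / 2) ∂P := by
          apply integral_mono ((hNb.sub hNa).sub hgi).abs.integrableOn hRi.integrableOn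
          intro ω
          exact hbound ω
      _ ≤ ∫ ω, (e + (|U b ω| + |U a ω|) / 2) ∂P := by
          apply setIntegral_le_integral hRi
          exact Eventually.of_forall fun ω => by
            change 0 ≤ e + (|U b ω| + |U a ω|) / 2
            positivity
      _ = e + ((∫ ω, |U b ω| ∂P) + ∫ ω, |U a ω| ∂P) / 2 := by
          have hd2 : Integrable (fun ω => (|U b ω| + |U a ω|) / 2) P :=
            ((hUi b hb).add (hUi a ha)).div_const 2
          rw [integral_add (integrable_const e) hd2,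
            integral_div, integral_add (hUi b hb) (hUi a ha)]
          simp
      _ ≤ e + (K * d / 2 + K * d / 2) / 2 := by
          have h1 := hUb b hb le_rfl
          have h2 := hUb a ha hab
          linarith
      _ ≤ (1 + K) * d := by
          have h1 : e ≤ d := by rw [hedef]; nlinarith
          nlinarith
  by_contra hne
  have hpos : 0 < |A| := abs_pos.2 hne
  have h1 : 0 < |A| / (2 * (1 + K)) := by positivity
  have h2 := key (min 1 (|A| / (2 * (1 + K)))) (lt_min one_pos h1) (min_le_left _ _)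
  have h3 : (1 + K) * min 1 (|A| / (2 * (1 + K))) ≤ (1 + K) * (|A| / (2 * (1 + K))) := by
    gcongr
    exact min_le_right _ _
  have h4 : (1 + K) * (|A| / (2 * (1 + K))) = |A| / 2 := by field_simp
  linarith

theorem os_sol_neg (h : SolC P F B c φ X L) :
    SolC P F (fun t ω => -B t ω) (-c) (fun s => -φ s) (fun t ω => -X t ω) L where
  bm :=
    { le := h.bm.le
      mono := h.bm.mono
      null := h.bm.null
      adap := fun t ht => (h.bm.adap t ht).neg
      cont := fun ω => (h.bm.cont ω).neg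
      zero := fun ω => by simp only [h.bm.zero ω, neg_zero]
      law := by
        intro s t hs hst
        have hm : Measurable (fun ω => B t ω - B s ω) :=
          ((h.bm.adap t (hs.trans hst)).mono (h.bm.le _) le_rfl).sub
            ((h.bm.adap s hs).mono (h.bm.le _) le_rfl)
        have h1 : (fun ω => -B t ω - -B s ω) = (fun x : ℝ => -x) ∘ (fun ω => B t ω - B s ω) := by
          funext ω; simp only [Function.comp]; ring
        rw [h1, ← Measure.map_map measurable_neg hm, h.bm.law s t hs hst, gaussianReal_map_neg,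
          neg_zero]
      indep := by
        intro s t hs hst
        refine indep_of_indep_of_le_left (h.bm.indep s t hs hst) ?_
        have h1 : (fun ω => -B t ω - -B s ω) = (fun x : ℝ => -x) ∘ (fun ω => B t ω - B s ω) := by
          funext ω; simp only [Function.comp]; ring
        rw [h1, ← MeasurableSpace.comap_comp]
        exact MeasurableSpace.comap_mono (measurable_iff_comap_le.1 measurable_neg) }
  lip := fun s t hs ht => by
    have := h.lip s t hs ht
    rw [← abs_neg]
    convert this using 2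
    ring
  c0 := by simp only [h.c0]
  Xad := fun t ht => (h.Xad t ht).neg
  Xc := fun ω => (h.Xc ω).neg
  Lad := h.Lad
  Lc := h.Lc
  L0 := h.L0
  Lmono := h.Lmono
  eq := by
    filter_upwards [h.eq] with ω hω t ht
    rw [hω t ht]; ring
  Lsq := h.Lsq
  flat := by
    filter_upwards [h.flat] with ω hω s t hs hst hr
    exact hω s t hs hst fun r hr' h0 => hr r hr' (by simp only [h0, neg_zero])
  loc := by
    intro T e hT he he1
    have h1 := h.loc T e hT he he1
    have h2 : ∀ x, kap e (-x) = kap e x := fun x => by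
      simp only [kap, neg_neg]; ring
    simp only [h2, abs_neg]
    exact h1

theorem nm_mart (h : SolC P F B c φ X L) (a b : ℝ) (ha : 0 ≤ a) (hab : a ≤ b) (G : Set Ω)
    (hG : MeasurableSet[F a] G) :
    ∫ ω in G, (max (-X b ω) 0 - (L b ω - φ (L b ω)) / 2) ∂P =
      ∫ ω in G, (max (-X a ω) 0 - (L a ω - φ (L a ω)) / 2) ∂P := by
  have hn := os_sol_neg h
  have hb : 0 ≤ b := ha.trans hab
  have h1 := np_mart hn a b ha hab G hG
  have h2 : ∀ t, 0 ≤ t → ∫ ω in G, (max (-X t ω) 0 - (L t ω - φ (L t ω)) / 2) ∂P =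
      (∫ ω in G, Np (fun s => -φ s) (fun t ω => -X t ω) L t ω ∂P) + ∫ ω in G, φ 0 / 2 ∂P := by
    intro t ht
    rw [← integral_add ((np_l2 hn t ht).2.integrable one_le_two).integrableOn
      (integrable_const _).integrableOn]
    congr 1
    funext ω
    simp only [Np]
    ring
  rw [h2 b hb, h2 a ha, h1]

theorem sol_neg (h : SolC P F B c φ X L) :
    SolC P F (fun t ω => -B t ω) (-c) (fun s => -φ s) (fun t ω => -X t ω) L := by
  exact os_sol_neg h

end solc

end Pool.Agent.Helper41.SK
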