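import Pool.Agent.Helper41.SK.Defs
import Pool.Agent.Helper41.SK.MainDefs


set_option autoImplicit false

open scoped ENNReal NNReal Topology
open MeasureTheory ProbabilityTheory Set Filter

namespace Pool.Agent.Helper41.SK

/-! ## TARGETS: prove these (statements must not be changed; helper lemmas are welcome) -/

section calcs

variable {Ω : Type*}

theorem skoro_aux (l m x y : ℝ → ℝ) (T lam : ℝ) (hl : 0 ≤ lam)
    (hlc : Continuous l) (hmc : Continuous m)
    (hmm : ∀ s t, 0 ≤ s → s ≤ t → m s ≤ m t)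
    (hl0 : l 0 = 0) (hm0 : m 0 = 0)
    (hlf : ∀ s t, 0 ≤ s → s ≤ t → (∀ r ∈ Icc s t, x r ≠ 0) → l s = l t)
    (hK : ∀ t, 0 ≤ t → t ≤ T → |(|x t| - |y t| - (l t - m t))| ≤ 2 * lam) :
    ∀ t, 0 ≤ t → t ≤ T → l t - m t ≤ 2 * lam := by
  intro t ht0 htT
  by_contra hcon
  push Not at hcon
  set S : Set ℝ := Icc 0 t ∩ {s | l s - m s ≤ 2 * lam} with hS
  have hScl : IsClosed S :=
    isClosed_Icc.inter (isClosed_le (hlc.sub hmc) continuous_const)
  have hSne : S.Nonempty := by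
    refine ⟨0, ⟨le_refl _, ht0⟩, ?_⟩
    change l 0 - m 0 ≤ 2 * lam
    rw [hl0, hm0]
    linarith
  have hSbd : BddAbove S := ⟨t, fun s hs => hs.1.2⟩
  have hsS := hScl.csSup_mem hSne hSbd
  set s := sSup S with hs
  have hs0 : 0 ≤ s := hsS.1.1
  have hst' : s ≤ t := hsS.1.2
  have hsl : l s - m s ≤ 2 * lam := hsS.2
  have hst : s < t := by
    rcases lt_or_eq_of_le hst' with h | h
    · exact h
    · rw [h] at hsl
      linarith
  have hx : ∀ r, s < r → r ≤ t → x r ≠ 0 := by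
    intro r hr1 hr2 hxr
    have h1 : 2 * lam < l r - m r := by
      by_contra h
      push Not at h
      have h2 : r ∈ S := ⟨⟨hs0.trans hr1.le, hr2⟩, h⟩
      have h3 := le_csSup hSbd h2
      linarith
    have h2 := (abs_le.mp (hK r (hs0.trans hr1.le) (hr2.trans htT))).1
    rw [hxr, abs_zero] at h2
    have h3 := abs_nonneg (y r)
    linarith
  have hconst : ∀ r, s < r → r ≤ t → l r = l t := by
    intro r hr1 hr2
    apply hlf r t (hs0.trans hr1.le) hr2
    intro r' hr'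
    exact hx r' (lt_of_lt_of_le hr1 hr'.1) hr'.2
  have hls : l s = l t := by
    have h1 : Tendsto l (𝓝[>] s) (𝓝 (l s)) := (hlc.tendsto s).mono_left nhdsWithin_le_nhds
    have h2 : Tendsto l (𝓝[>] s) (𝓝 (l t)) := by
      apply tendsto_const_nhds.congr'
      filter_upwards [Ioc_mem_nhdsGT hst] with r hr
      exact (hconst r hr.1 hr.2).symm
    exact tendsto_nhds_unique h1 h2
  have h1 := hmm s t hs0 hst'
  linarith

theorem skoro (l m x y : ℝ → ℝ) (T lam : ℝ) (hT : 0 ≤ T) (hl : 0 ≤ lam)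
    (hlc : Continuous l) (hmc : Continuous m) (hxc : Continuous x) (hyc : Continuous y)
    (hlm : ∀ s t, 0 ≤ s → s ≤ t → l s ≤ l t) (hmm : ∀ s t, 0 ≤ s → s ≤ t → m s ≤ m t)
    (hl0 : l 0 = 0) (hm0 : m 0 = 0)
    (hlf : ∀ s t, 0 ≤ s → s ≤ t → (∀ r ∈ Icc s t, x r ≠ 0) → l s = l t)
    (hmf : ∀ s t, 0 ≤ s → s ≤ t → (∀ r ∈ Icc s t, y r ≠ 0) → m s = m t)
    (hK : ∀ t, 0 ≤ t → t ≤ T → |(|x t| - |y t| - (l t - m t))| ≤ 2 * lam) :
    ∀ t, 0 ≤ t → t ≤ T → |l t - m t| ≤ 2 * lam := by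
  intro t ht0 htT
  rw [abs_le]
  have h1 := skoro_aux l m x y T lam hl hlc hmc hmm hl0 hm0 hlf hK t ht0 htT
  have h2 := skoro_aux m l y x T lam hl hmc hlc hlm hm0 hl0 hmf (by
    intro r hr0 hrT
    have h3 := hK r hr0 hrT
    rw [← abs_neg] at h3
    have h4 : -(|x r| - |y r| - (l r - m r)) = |y r| - |x r| - (m r - l r) := by ring
    rwa [h4] at h3) t ht0 htT
  constructor <;> linarith

end calcs

end Pool.Agent.Helper41.SK
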