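import Pool.Agent.Helper41.SK.Defs
import Pool.Agent.Helper41.SK.MainDefs
import Pool.Agent.Helper41.SK.SA01
import Pool.Agent.Helper41.SK.SA07
import Pool.Agent.Helper41.SK.SC01
import Pool.Agent.Helper41.SK.SC02

set_option autoImplicit false

open scoped ENNReal NNReal Topology
open MeasureTheory ProbabilityTheory Set Filter

namespace Pool.Agent.Helper41.SK


/-! ## TARGETS: prove these (statements must not be changed; helper lemmas are welcome) -/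

section solc

variable {Ω : Type*} [mΩ : MeasurableSpace Ω] {P : Measure Ω} [IsProbabilityMeasure P]
  {F : ℝ → MeasurableSpace Ω} {B : ℝ → Ω → ℝ} {c : ℝ} {φ : ℝ → ℝ} {X L : ℝ → Ω → ℝ}
  {f f1 f2 : ℝ → ℝ} {C : ℝ}

omit [IsProbabilityMeasure P] in
theorem np_disc_aux {a b d : Ω → ℝ} (ha : MemLp a 2 P) (hb : MemLp b 2 P) (hd : MemLp d 2 P) :
    ∫ ω, (a ω + b ω + d ω) ^ 2 ∂P ≤ 3 * (∫ ω, a ω ^ 2 ∂P) + 3 * (∫ ω, b ω ^ 2 ∂P) +
      3 * (∫ ω, d ω ^ 2 ∂P) := by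
  have hia := ha.integrable_sq
  have hib := hb.integrable_sq
  have hid := hd.integrable_sq
  have hs := ((ha.add hb).add hd).integrable_sq
  have h1 : ∫ ω, (a ω + b ω + d ω) ^ 2 ∂P ≤ ∫ ω, ((3 * a ω ^ 2 + 3 * b ω ^ 2) + 3 * d ω ^ 2) ∂P := by
    refine integral_mono hs (((hia.const_mul 3).add (hib.const_mul 3)).add (hid.const_mul 3))
      fun ω => ?_
    show (a ω + b ω + d ω) ^ 2 ≤ (3 * a ω ^ 2 + 3 * b ω ^ 2) + 3 * d ω ^ 2
    nlinarith [sq_nonneg (a ω - b ω), sq_nonneg (b ω - d ω), sq_nonneg (a ω - d ω)]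
  refine h1.trans (le_of_eq ?_)
  have e1 : ∫ ω, ((3 * a ω ^ 2 + 3 * b ω ^ 2) + 3 * d ω ^ 2) ∂P =
      (∫ ω, (3 * a ω ^ 2 + 3 * b ω ^ 2) ∂P) + ∫ ω, 3 * d ω ^ 2 ∂P :=
    integral_add ((hia.const_mul 3).add (hib.const_mul 3)) (hid.const_mul 3)
  have e2 : ∫ ω, (3 * a ω ^ 2 + 3 * b ω ^ 2) ∂P = (∫ ω, 3 * a ω ^ 2 ∂P) + ∫ ω, 3 * b ω ^ 2 ∂P :=
    integral_add (hia.const_mul 3) (hib.const_mul 3)
  rw [e1, e2, integral_const_mul, integral_const_mul, integral_const_mul]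

theorem np_disc (h : SolC P F B c φ X L) (T e : ℝ) (hT : 0 < T) (he : 0 < e) (he1 : e ≤ 1) :
    ∃ w : ℕ → ℝ, Tendsto w atTop (𝓝 0) ∧ ∀ n, 0 < n → ∀ j, j ≤ n →
      MemLp (fun ω => Np φ X L (gp 0 T n j) ω - Np φ X L 0 ω - ∑ i ∈ Finset.range j,
        I1 (X (gp 0 T n i) ω / e) * (B (gp 0 T n (i + 1)) ω - B (gp 0 T n i) ω)) 2 P ∧
      ∫ ω, (Np φ X L (gp 0 T n j) ω - Np φ X L 0 ω - ∑ i ∈ Finset.range j,
        I1 (X (gp 0 T n i) ω / e) * (B (gp 0 T n (i + 1)) ω - B (gp 0 T n i) ω)) ^ 2 ∂P ≤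
        50 * (1 + |c| + T) * e + w n := by
  obtain ⟨w, hw, hA⟩ := sol_ito h (Fp_tf e he he1) T hT
  refine ⟨fun n => 3 * w n, by simpa using hw.const_mul 3, ?_⟩
  intro n hn j hj
  obtain ⟨hA1, hA2⟩ := hA n hn j hj
  obtain ⟨g0, gn, gmono, gdiff, gge, gle, gM⟩ := gp_facts 0 T hT.le n hn
  have ht0 : 0 ≤ gp 0 T n j := gge j
  have htT : gp 0 T n j ≤ T := gle j hj
  have hXm : ∀ t, 0 ≤ t → Measurable (X t) := fun t ht => (h.Xad t ht).mono (h.bm.le t) le_rfl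
  have hBm : ∀ t, 0 ≤ t → Measurable (B t) := fun t ht => (h.bm.adap t ht).mono (h.bm.le t) le_rfl
  have hI1c : Continuous I1 := by
    rw [continuous_iff_continuousAt]
    exact fun z => (I1_facts.1 z).continuousAt
  have hFpc : Continuous (Fp e) := by
    rw [continuous_iff_continuousAt]
    exact fun z => ((Fp_tf e he he1).h1 z).continuousAt
  have hterm : ∀ i, MemLp (fun ω => I1 (X (gp 0 T n i) ω / e) *
      (B (gp 0 T n (i + 1)) ω - B (gp 0 T n i) ω)) 2 P := by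
    intro i
    have hB2 : MemLp (fun ω => B (gp 0 T n (i + 1)) ω - B (gp 0 T n i) ω) 2 P := by
      have hmeas : Measurable (fun ω => B (gp 0 T n (i + 1)) ω - B (gp 0 T n i) ω) :=
        (hBm _ (gge _)).sub (hBm _ (gge _))
      have h1 : MemLp (id : ℝ → ℝ) 2 (P.map (fun ω => B (gp 0 T n (i + 1)) ω - B (gp 0 T n i) ω)) := by
        rw [h.bm.law _ _ (gge i) (gmono i)]
        exact memLp_id_gaussianReal 2
      rw [memLp_map_measure_iff aestronglyMeasurable_id hmeas.aemeasurable] at h1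
      exact h1
    refine hB2.mono ?_ ?_
    · have h1 : Measurable (fun ω => I1 (X (gp 0 T n i) ω / e)) :=
        hI1c.measurable.comp ((hXm _ (gge i)).div_const e)
      exact (h1.mul ((hBm _ (gge _)).sub (hBm _ (gge _)))).aestronglyMeasurable
    · refine Filter.Eventually.of_forall fun ω => ?_
      rw [norm_mul]
      have h1 : ‖I1 (X (gp 0 T n i) ω / e)‖ ≤ 1 := by
        rw [Real.norm_eq_abs, abs_of_nonneg (I1_facts.2.1 _)]
        exact I1_facts.2.2.1 _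
      exact (mul_le_mul_of_nonneg_right h1 (norm_nonneg _)).trans (by rw [one_mul])
  have hsum : MemLp (fun ω => ∑ i ∈ Finset.range j, I1 (X (gp 0 T n i) ω / e) *
      (B (gp 0 T n (i + 1)) ω - B (gp 0 T n i) ω)) 2 P :=
    memLp_finsetSum _ (fun i _ => hterm i)
  have hD : MemLp (fun ω => Np φ X L (gp 0 T n j) ω - Np φ X L 0 ω - ∑ i ∈ Finset.range j,
        I1 (X (gp 0 T n i) ω / e) * (B (gp 0 T n (i + 1)) ω - B (gp 0 T n i) ω)) 2 P :=
    ((np_l2 h _ ht0).2.sub (np_l2 h 0 le_rfl).2).sub hsum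
  refine ⟨hD, ?_⟩
  have hB : MemLp (fun ω => (max (X (gp 0 T n j) ω) 0 - Fp e (X (gp 0 T n j) ω)) -
      (max (X 0 ω) 0 - Fp e (X 0 ω))) 2 P := by
    refine MemLp.of_bound ?_ e (Filter.Eventually.of_forall fun ω => ?_)
    · have m1 := hXm _ ht0
      have m2 := hXm 0 le_rfl
      exact (((m1.max measurable_const).sub (hFpc.measurable.comp m1)).sub
        ((m2.max measurable_const).sub (hFpc.measurable.comp m2))).aestronglyMeasurable
    · rw [Real.norm_eq_abs]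
      have h1 := Fp_near e (X (gp 0 T n j) ω) he
      have h2 := Fp_near e (X 0 ω) he
      have h3 := abs_sub (max (X (gp 0 T n j) ω) 0 - Fp e (X (gp 0 T n j) ω)) (max (X 0 ω) 0 - Fp e (X 0 ω))
      linarith
  have hdec : ∀ ω, Np φ X L (gp 0 T n j) ω - Np φ X L 0 ω - ∑ i ∈ Finset.range j,
        I1 (X (gp 0 T n i) ω / e) * (B (gp 0 T n (i + 1)) ω - B (gp 0 T n i) ω) =
      (Fp e (X (gp 0 T n j) ω) - Fp e (X 0 ω) - (∫ s in (0:ℝ)..(gp 0 T n j), kp e (X s ω)) / 2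
        - ∑ i ∈ Finset.range j,
          I1 (X (gp 0 T n i) ω / e) * (B (gp 0 T n (i + 1)) ω - B (gp 0 T n i) ω)) +
      ((max (X (gp 0 T n j) ω) 0 - Fp e (X (gp 0 T n j) ω)) - (max (X 0 ω) 0 - Fp e (X 0 ω))) +
      ((∫ s in (0:ℝ)..(gp 0 T n j), kp e (X s ω)) -
        (L (gp 0 T n j) ω + φ (L (gp 0 T n j) ω) - φ 0)) / 2 := by
    intro ω
    unfold Np
    rw [h.L0 ω]
    ring
  have hC : MemLp (fun ω => ((∫ s in (0:ℝ)..(gp 0 T n j), kp e (X s ω)) -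
        (L (gp 0 T n j) ω + φ (L (gp 0 T n j) ω) - φ 0)) / 2) 2 P := by
    have h1 := (hD.sub hA1).sub hB
    refine h1.ae_eq (Filter.Eventually.of_forall fun ω => ?_)
    simp only [Pi.sub_apply]
    rw [hdec ω]
    ring
  have hone := one_sided h (gp 0 T n j) e ht0 he he1
  have hiA := hA1.integrable_sq
  have hiB := hB.integrable_sq
  have hiC := hC.integrable_sq
  have hiD := hD.integrable_sq
  have hCint : ∫ ω, (((∫ s in (0:ℝ)..(gp 0 T n j), kp e (X s ω)) -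
        (L (gp 0 T n j) ω + φ (L (gp 0 T n j) ω) - φ 0)) / 2) ^ 2 ∂P ≤ 14 * (1 + |c| + T) * e := by
    have h1 : ∀ ω, (((∫ s in (0:ℝ)..(gp 0 T n j), kp e (X s ω)) -
        (L (gp 0 T n j) ω + φ (L (gp 0 T n j) ω) - φ 0)) / 2) ^ 2 =
        (1 / 4) * ((∫ s in (0:ℝ)..(gp 0 T n j), kp e (X s ω)) -
        (L (gp 0 T n j) ω + φ (L (gp 0 T n j) ω) - φ 0)) ^ 2 := by
      intro ω
      ring
    simp only [h1]
    rw [integral_const_mul]
    have h2 : 56 * (1 + |c| + gp 0 T n j) * e ≤ 56 * (1 + |c| + T) * e := by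
      have : 1 + |c| + gp 0 T n j ≤ 1 + |c| + T := by linarith
      nlinarith
    linarith
  have hBint : ∫ ω, ((max (X (gp 0 T n j) ω) 0 - Fp e (X (gp 0 T n j) ω)) -
      (max (X 0 ω) 0 - Fp e (X 0 ω))) ^ 2 ∂P ≤ e := by
    have h1 : ∫ ω, ((max (X (gp 0 T n j) ω) 0 - Fp e (X (gp 0 T n j) ω)) -
      (max (X 0 ω) 0 - Fp e (X 0 ω))) ^ 2 ∂P ≤ ∫ _ω, e ∂P := by
      refine integral_mono hiB (integrable_const e) fun ω => ?_
      have h1 := Fp_near e (X (gp 0 T n j) ω) he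
      have h2 := Fp_near e (X 0 ω) he
      have h3 := abs_sub (max (X (gp 0 T n j) ω) 0 - Fp e (X (gp 0 T n j) ω)) (max (X 0 ω) 0 - Fp e (X 0 ω))
      have h4 : |(max (X (gp 0 T n j) ω) 0 - Fp e (X (gp 0 T n j) ω)) -
        (max (X 0 ω) 0 - Fp e (X 0 ω))| ≤ e := by linarith
      have h5 := sq_le_sq' (by linarith [neg_abs_le ((max (X (gp 0 T n j) ω) 0 - Fp e (X (gp 0 T n j) ω)) -
        (max (X 0 ω) 0 - Fp e (X 0 ω)))]) ((le_abs_self _).trans h4)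
      show ((max (X (gp 0 T n j) ω) 0 - Fp e (X (gp 0 T n j) ω)) -
        (max (X 0 ω) 0 - Fp e (X 0 ω))) ^ 2 ≤ e
      nlinarith
    simpa using h1
  have hmain := np_disc_aux hA1 hB hC
  simp only [← hdec] at hmain
  refine hmain.trans ?_
  have hc : 0 ≤ |c| := abs_nonneg c
  have h3 : 3 * e ≤ 8 * (1 + |c| + T) * e := by nlinarith
  show _ ≤ 50 * (1 + |c| + T) * e + 3 * w n
  nlinarith [hCint, hBint, hA2, h3]

end solc

end Pool.Agent.Helper41.SK
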