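import Pool.Agent.Helper41.SK.Defs
import Pool.Agent.Helper41.SK.MainDefs
import Pool.Agent.Helper41.SK.SA01
import Pool.Agent.Helper41.SK.SA05
import Pool.Agent.Helper41.SK.SA07
import Pool.Agent.Helper41.SK.SC01
import Pool.Agent.Helper41.SK.SC02
import Pool.Agent.Helper41.SK.SC03
import Pool.Agent.Helper41.SK.SC04

set_option autoImplicit false

open scoped ENNReal NNReal Topology
open MeasureTheory ProbabilityTheory Set Filter

namespace Pool.Agent.Helper41.SK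


/-! ## TARGETS: prove these (statements must not be changed; helper lemmas are welcome) -/

theorem hK_riemann (g : ℝ → ℝ) (T : ℝ) (hT : 0 < T) (hg : ContinuousOn g (Icc 0 T)) :
    Tendsto (fun n : ℕ => ∑ i ∈ Finset.range n, g (gp 0 T n i) * (T / n)) atTop
      (𝓝 (∫ s in (0:ℝ)..T, g s)) := by
  have huc := isCompact_Icc.uniformContinuousOn_of_continuous hg
  rw [Metric.uniformContinuousOn_iff] at huc
  rw [Metric.tendsto_atTop]
  intro ε hε
  obtain ⟨d, hd, hdg⟩ := huc (ε / (2 * T)) (by positivity)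
  obtain ⟨N, hN⟩ := exists_nat_gt (T / d)
  refine ⟨N + 1, fun n hn => ?_⟩
  have hn0 : 0 < n := by omega
  have hnr : (0:ℝ) < n := by exact_mod_cast hn0
  have hδ : T / n < d := by
    rw [div_lt_iff₀ hnr]
    have h1 : (N : ℝ) < n := by exact_mod_cast (by omega : N < n)
    rw [div_lt_iff₀ hd] at hN
    nlinarith
  obtain ⟨g0, gn, gmono, gdiff, gle, gub, gm⟩ := gp_facts 0 T hT.le n hn0
  rw [sub_zero] at gdiff
  have hint : ∀ i < n, IntervalIntegrable g volume (gp 0 T n i) (gp 0 T n (i+1)) := by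
    intro i hi
    apply ContinuousOn.intervalIntegrable
    rw [uIcc_of_le (gmono i)]
    exact hg.mono (Icc_subset_Icc (gle i) (gub (i+1) (by omega)))
  have hsum := intervalIntegral.sum_integral_adjacent_intervals (a := gp 0 T n) (f := g)
    (μ := volume) (n := n) hint
  rw [g0, gn] at hsum
  rw [← hsum, dist_eq_norm, ← Finset.sum_sub_distrib]
  have hterm : ∀ i ∈ Finset.range n, ‖g (gp 0 T n i) * (T / n) -
      ∫ x in (gp 0 T n i)..(gp 0 T n (i+1)), g x‖ ≤ (ε / (2 * T)) * (T / n) := by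
    intro i hi
    have hi' := Finset.mem_range.1 hi
    have e1 : g (gp 0 T n i) * (T / n) = ∫ x in (gp 0 T n i)..(gp 0 T n (i+1)), g (gp 0 T n i) := by
      rw [intervalIntegral.integral_const, gdiff, smul_eq_mul, mul_comm]
    rw [e1, ← intervalIntegral.integral_sub _root_.intervalIntegrable_const
      (hint i hi')]
    have e2 := intervalIntegral.norm_integral_le_of_norm_le_const (a := gp 0 T n i)
      (b := gp 0 T n (i+1)) (C := ε / (2 * T)) (f := fun x => g (gp 0 T n i) - g x) (by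
        intro x hx
        rw [uIoc_of_le (gmono i)] at hx
        rw [← dist_eq_norm]
        apply (hdg _ _ _ _ _).le
        · exact ⟨gle i, gub i hi'.le⟩
        · exact ⟨(gle i).trans hx.1.le, hx.2.trans (gub (i+1) (by omega))⟩
        · rw [dist_comm, Real.dist_eq, abs_of_nonneg (by linarith [hx.1])]
          have h3 := gdiff i
          linarith [hx.2])
    rw [gdiff, abs_of_nonneg (by positivity)] at e2
    exact e2
  calc _ ≤ ∑ i ∈ Finset.range n, ‖g (gp 0 T n i) * (T / n) -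
      ∫ x in (gp 0 T n i)..(gp 0 T n (i+1)), g x‖ := norm_sum_le _ _
    _ ≤ ∑ i ∈ Finset.range n, (ε / (2 * T)) * (T / n) := Finset.sum_le_sum hterm
    _ = ε / 2 := by
      rw [Finset.sum_const, Finset.card_range, nsmul_eq_mul]
      field_simp
    _ < ε := by linarith

theorem hK_taylor (r : ℝ) (hr0 : 0 < r) (s h : ℝ) :
    hr r (s + h) ≤ hr r s + hr1 r s * h + hr2 r s * h ^ 2 / 2 + |h| ^ 3 / r ^ 2 := by
  obtain ⟨d1, d2, -, -, lip, -⟩ := hr_facts r hr0
  have hsh : ∀ x, HasDerivAt (fun x : ℝ => s + x) 1 x := fun x => by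
    simpa using (hasDerivAt_id x).const_add s
  have e1 : ∀ k, |hr1 r (s + k) - hr1 r s - hr2 r s * k| ≤ k ^ 2 / r ^ 2 := by
    intro k
    have hG : ∀ x, HasDerivAt (fun x => hr1 r (s + x) - hr2 r s * x)
        (hr2 r (s + x) - hr2 r s) x := by
      intro x
      have h1 := (d2 (s + x)).comp x (hsh x)
      rw [mul_one] at h1
      have h2 := (hasDerivAt_id x).const_mul (hr2 r s)
      rw [mul_one] at h2
      exact h1.sub h2
    have h3 := Convex.norm_image_sub_le_of_norm_hasDerivWithin_le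
      (f := fun x => hr1 r (s + x) - hr2 r s * x) (C := |k| / r ^ 2) (s := uIcc 0 k)
      (fun x _ => (hG x).hasDerivWithinAt) (by
        intro x hx
        have h4 := lip (s + x) s
        have h5 := abs_sub_left_of_mem_uIcc hx
        rw [sub_zero, sub_zero] at h5
        rw [add_sub_cancel_left] at h4
        rw [Real.norm_eq_abs]
        refine h4.trans ?_
        rw [one_div, div_eq_inv_mul]
        exact mul_le_mul_of_nonneg_left h5 (by positivity)) (convex_uIcc 0 k) left_mem_uIcc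
      right_mem_uIcc
    simp only [Real.norm_eq_abs, add_zero, mul_zero, sub_zero] at h3
    have e2 : hr1 r (s + k) - hr1 r s - hr2 r s * k = hr1 r (s + k) - hr2 r s * k - hr1 r s := by
      ring
    rw [e2]
    refine h3.trans (le_of_eq ?_)
    rw [div_mul_eq_mul_div, ← pow_two, sq_abs]
  have hG2 : ∀ x, HasDerivAt (fun x => hr r (s + x) - hr1 r s * x - hr2 r s * x ^ 2 / 2)
      (hr1 r (s + x) - hr1 r s - hr2 r s * x) x := by
    intro x
    have h1 := (d1 (s + x)).comp x (hsh x)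
    rw [mul_one] at h1
    have h2 := (hasDerivAt_id x).const_mul (hr1 r s)
    rw [mul_one] at h2
    have h3 := ((hasDerivAt_pow 2 x).const_mul (hr2 r s)).div_const 2
    have h4 := (h1.sub h2).sub h3
    have e3 : hr1 r (s + x) - hr1 r s - hr2 r s * (((2 : ℕ) : ℝ) * x ^ (2 - 1)) / 2 =
        hr1 r (s + x) - hr1 r s - hr2 r s * x := by
      norm_num
      ring
    rw [e3] at h4
    exact h4
  have h3 := Convex.norm_image_sub_le_of_norm_hasDerivWithin_le
    (f := fun x => hr r (s + x) - hr1 r s * x - hr2 r s * x ^ 2 / 2) (C := h ^ 2 / r ^ 2)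
    (s := uIcc 0 h)
    (fun x _ => (hG2 x).hasDerivWithinAt) (by
      intro x hx
      have h5 := abs_sub_left_of_mem_uIcc hx
      rw [sub_zero, sub_zero] at h5
      rw [Real.norm_eq_abs]
      refine (e1 x).trans ?_
      apply div_le_div_of_nonneg_right _ (by positivity)
      exact sq_le_sq.2 h5) (convex_uIcc 0 h) left_mem_uIcc
    right_mem_uIcc
  simp only [Real.norm_eq_abs, add_zero, mul_zero, sub_zero] at h3
  have h6 := (le_abs_self _).trans h3
  have h7 : h ^ 2 / r ^ 2 * |h| = |h| ^ 3 / r ^ 2 := by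
    rw [← sq_abs h]
    ring
  rw [h7] at h6
  norm_num at h6
  linarith

theorem hK_hrdiff (r : ℝ) (hr0 : 0 < r) (x y : ℝ) :
    |hr r x - hr r y| ≤ (|x| + |y|) * |x - y| / r := by
  obtain ⟨d1, -, -, -, -, -, -, -, b1, -⟩ := hr_facts r hr0
  have h3 := Convex.norm_image_sub_le_of_norm_hasDerivWithin_le
    (f := hr r) (C := (|x| + |y|) / r) (s := uIcc y x)
    (fun x _ => (d1 x).hasDerivWithinAt) (by
      intro z hz
      rw [Real.norm_eq_abs]
      refine (b1 z).trans ?_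
      apply div_le_div_of_nonneg_right _ hr0.le
      rw [uIcc, mem_Icc] at hz
      rw [abs_le]
      constructor
      · have h4 : -(|x| + |y|) ≤ y ⊓ x := by
          apply le_inf
          · linarith [neg_abs_le y, abs_nonneg x]
          · linarith [neg_abs_le x, abs_nonneg y]
        exact h4.trans hz.1
      · have h4 : y ⊔ x ≤ |x| + |y| := by
          apply sup_le
          · linarith [le_abs_self y, abs_nonneg x]
          · linarith [le_abs_self x, abs_nonneg y]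
        exact hz.2.trans h4) (convex_uIcc y x) left_mem_uIcc right_mem_uIcc
  rw [Real.norm_eq_abs, Real.norm_eq_abs] at h3
  refine h3.trans (le_of_eq ?_)
  ring

section hKs

variable {Ω : Type*} [mΩ : MeasurableSpace Ω] {P : Measure Ω} [IsProbabilityMeasure P]
  {F : ℝ → MeasurableSpace Ω} {B : ℝ → Ω → ℝ}

theorem hK_hrmeas (r : ℝ) (hr0 : 0 < r) : Measurable (hr r) ∧ Measurable (hr1 r) ∧
    Measurable (hr2 r) := by
  obtain ⟨d1, d2, -, -, lip, -⟩ := hr_facts r hr0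
  refine ⟨?_, ?_, ?_⟩
  · have h1 : Continuous (hr r) := continuous_iff_continuousAt.2 fun x => (d1 x).continuousAt
    exact h1.measurable
  · have h1 : Continuous (hr1 r) := continuous_iff_continuousAt.2 fun x => (d2 x).continuousAt
    exact h1.measurable
  · have h1 : Continuous (hr2 r) := by
      unfold hr2
      apply Continuous.div continuous_const (continuous_abs.add continuous_const)
      intro x
      have h2 : 0 < |x| + r := by linarith [abs_nonneg x]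
      exact h2.ne'
    exact h1.measurable

omit [IsProbabilityMeasure P] in
theorem hK_hrint (r : ℝ) (hr0 : 0 < r) {A : Ω → ℝ} (hA : MemLp A 2 P) :
    Integrable (fun ω => hr r (A ω)) P := by
  obtain ⟨-, -, -, -, -, p0, p1, -⟩ := hr_facts r hr0
  have h1 : Integrable (fun ω => A ω ^ 2 / r) P := hA.integrable_sq.div_const r
  refine h1.mono ((hK_hrmeas r hr0).1.comp_aemeasurable
    hA.aestronglyMeasurable.aemeasurable).aestronglyMeasurable ?_
  filter_upwards with ω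
  rw [Real.norm_eq_abs, Real.norm_eq_abs, abs_of_nonneg (p0 _)]
  exact (p1 _).trans (le_abs_self _)

theorem hK_step (hB : BMF P F B) (r : ℝ) (hr0 : 0 < r) (s t : ℝ) (hs : 0 ≤ s) (hst : s ≤ t)
    (A θ : Ω → ℝ) (hA : Measurable[F s] A) (hA2 : MemLp A 2 P) (hθ : Measurable[F s] θ)
    (hθ1 : ∀ ω, |θ ω| ≤ 1) :
    ∫ ω, hr r (A ω + θ ω * (B t ω - B s ω)) ∂P ≤ ∫ ω, hr r (A ω) ∂P +
      (∫ ω, hr2 r (A ω) * θ ω ^ 2 ∂P) * (t - s) / 2 + 2 * (t - s) * √(t - s) / r ^ 2 := by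
  obtain ⟨d1, d2, p2, b2, lip, p0, p1, -, b1, -⟩ := hr_facts r hr0
  obtain ⟨m0, m1, m2⟩ := hK_hrmeas r hr0
  obtain ⟨i1, i2, -, i3, -⟩ := inc_mom hB s t hs hst
  have hle : F s ≤ mΩ := hB.le s
  obtain ⟨D, hD⟩ : ∃ D : Ω → ℝ, D = fun ω => B t ω - B s ω := ⟨_, rfl⟩
  have hBt : Measurable (B t) := (hB.adap t (hs.trans hst)).mono (hB.le t) le_rfl
  have hBs : Measurable (B s) := (hB.adap s hs).mono (hB.le s) le_rfl
  have hDm : Measurable D := by rw [hD]; exact hBt.sub hBs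
  have hAm : Measurable A := hA.mono hle le_rfl
  have hθm : Measurable θ := hθ.mono hle le_rfl
  have hD2 : MemLp D 2 P := by
    rw [memLp_two_iff_integrable_sq hDm.aestronglyMeasurable]
    have h1 := inc_int hB s t hs hst 2
    simp only [sq_abs] at h1
    rw [hD]
    exact h1
  have hD3 : Integrable (fun ω => |D ω| ^ 3) P := by rw [hD]; exact inc_int hB s t hs hst 3
  have hind : Indep (MeasurableSpace.comap D inferInstance) (F s) P := by
    rw [hD]; exact hB.indep s t hs hst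
  have hif : ∀ f : Ω → ℝ, Measurable[F s] f → IndepFun f D P := by
    intro f hf
    rw [IndepFun_iff_Indep]
    exact (indep_of_indep_of_le_right hind hf.comap_le).symm
  have hf1 : Measurable[F s] (fun ω => hr1 r (A ω) * θ ω) := (m1.comp hA).mul hθ
  have hf2 : Measurable[F s] (fun ω => hr2 r (A ω) * θ ω ^ 2) := (m2.comp hA).mul (hθ.pow_const 2)
  have hf1L : MemLp (fun ω => hr1 r (A ω) * θ ω) 2 P := by
    refine (hA2.const_mul r⁻¹).mono (hf1.mono hle le_rfl).aestronglyMeasurable ?_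
    filter_upwards with ω
    rw [norm_mul, norm_mul, Real.norm_eq_abs, Real.norm_eq_abs, Real.norm_eq_abs,
      Real.norm_eq_abs, abs_of_pos (inv_pos.2 hr0)]
    have h1 := b1 (A ω)
    rw [div_eq_inv_mul] at h1
    calc |hr1 r (A ω)| * |θ ω| ≤ |hr1 r (A ω)| * 1 :=
          mul_le_mul_of_nonneg_left (hθ1 ω) (abs_nonneg _)
      _ ≤ r⁻¹ * |A ω| := by rw [mul_one]; exact h1
  have hf2b : ∀ ω, ‖hr2 r (A ω) * θ ω ^ 2‖ ≤ 1 / r := by
    intro ω
    rw [norm_mul, Real.norm_eq_abs, Real.norm_eq_abs, abs_of_pos (p2 _), abs_of_nonneg (sq_nonneg _)]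
    have h1 : θ ω ^ 2 ≤ 1 := by
      rw [← sq_abs]
      have h2 := hθ1 ω
      have h3 := abs_nonneg (θ ω)
      nlinarith
    calc hr2 r (A ω) * θ ω ^ 2 ≤ (1 / r) * 1 :=
          mul_le_mul (b2 _) h1 (sq_nonneg _) (by positivity)
      _ = 1 / r := mul_one _
  have I1 : Integrable (fun ω => hr r (A ω)) P := hK_hrint r hr0 hA2
  have I2 : Integrable (fun ω => (hr1 r (A ω) * θ ω) * D ω) P := hf1L.integrable_mul hD2
  have I3 : Integrable (fun ω => (hr2 r (A ω) * θ ω ^ 2) * D ω ^ 2) P :=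
    hD2.integrable_sq.bdd_mul (hf2.mono hle le_rfl).aestronglyMeasurable
      (Filter.Eventually.of_forall hf2b)
  have E2 : ∫ ω, (hr1 r (A ω) * θ ω) * D ω ∂P = 0 := by
    rw [(hif _ hf1).integral_fun_mul_eq_mul_integral (hf1.mono hle le_rfl).aestronglyMeasurable
      hDm.aestronglyMeasurable, hD, i1, mul_zero]
  have E3 : ∫ ω, (hr2 r (A ω) * θ ω ^ 2) * D ω ^ 2 ∂P =
      (∫ ω, hr2 r (A ω) * θ ω ^ 2 ∂P) * (t - s) := by
    have h1 := (hif _ hf2).comp measurable_id (measurable_id.pow_const 2)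
    have h2 := h1.integral_fun_mul_eq_mul_integral (hf2.mono hle le_rfl).aestronglyMeasurable
      (hDm.pow_const 2).aestronglyMeasurable
    simp only [Function.comp, id_eq] at h2
    rw [h2, ← i2, hD]
  have hθD : MemLp (fun ω => θ ω * D ω) 2 P := by
    refine hD2.mono (hθm.mul hDm).aestronglyMeasurable ?_
    filter_upwards with ω
    rw [norm_mul, Real.norm_eq_abs, Real.norm_eq_abs]
    calc |θ ω| * |D ω| ≤ 1 * |D ω| := mul_le_mul_of_nonneg_right (hθ1 ω) (abs_nonneg _)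
      _ = |D ω| := one_mul _
  have hLint : Integrable (fun ω => hr r (A ω + θ ω * D ω)) P := hK_hrint r hr0 (hA2.add hθD)
  have hpt : ∀ ω, hr r (A ω + θ ω * D ω) ≤ ((hr r (A ω) + (hr1 r (A ω) * θ ω) * D ω) +
      ((hr2 r (A ω) * θ ω ^ 2) * D ω ^ 2) / 2) + |D ω| ^ 3 / r ^ 2 := by
    intro ω
    have h1 := hK_taylor r hr0 (A ω) (θ ω * D ω)
    have h2 : |θ ω * D ω| ^ 3 / r ^ 2 ≤ |D ω| ^ 3 / r ^ 2 := by
      apply div_le_div_of_nonneg_right _ (by positivity)
      apply pow_le_pow_left₀ (abs_nonneg _)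
      rw [abs_mul]
      calc |θ ω| * |D ω| ≤ 1 * |D ω| := mul_le_mul_of_nonneg_right (hθ1 ω) (abs_nonneg _)
        _ = |D ω| := one_mul _
    have h3 : hr1 r (A ω) * (θ ω * D ω) = (hr1 r (A ω) * θ ω) * D ω := by ring
    have h4 : hr2 r (A ω) * (θ ω * D ω) ^ 2 / 2 = ((hr2 r (A ω) * θ ω ^ 2) * D ω ^ 2) / 2 := by
      ring
    rw [h3, h4] at h1
    linarith
  have hmono := integral_mono hLint (((I1.add I2).add (I3.div_const 2)).add
    (hD3.div_const (r ^ 2))) hpt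
  have e0 : (fun ω => hr r (A ω + θ ω * (B t ω - B s ω))) = fun ω => hr r (A ω + θ ω * D ω) := by
    rw [hD]
  rw [e0]
  refine hmono.trans ?_
  have e1 := integral_add ((I1.add I2).add (I3.div_const 2)) (hD3.div_const (r ^ 2))
  have e2 := integral_add (I1.add I2) (I3.div_const 2)
  have e3 := integral_add I1 I2
  simp only [Pi.add_apply] at e1 e2 e3 ⊢
  rw [e1, e2, e3, E2, integral_div, integral_div, E3]
  have e4 : (∫ ω, |D ω| ^ 3 ∂P) / r ^ 2 ≤ 2 * (t - s) * √(t - s) / r ^ 2 := by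
    apply div_le_div_of_nonneg_right _ (by positivity)
    rw [hD]
    exact i3
  linarith

end hKs

/-- the difference of the kernels -/
noncomputable def hKth {Ω : Type*} (X Y : ℝ → Ω → ℝ) (e t : ℝ) (ω : Ω) : ℝ :=
  I1 (X t ω / e) - I1 (Y t ω / e)

/-- the discrete stochastic integral -/
noncomputable def hKS {Ω : Type*} (B X Y : ℝ → Ω → ℝ) (e T : ℝ) (n j : ℕ) (ω : Ω) : ℝ :=
  ∑ i ∈ Finset.range j, hKth X Y e (gp 0 T n i) ω *
    (B (gp 0 T n (i + 1)) ω - B (gp 0 T n i) ω)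

/-- the integrand -/
noncomputable def hKg {Ω : Type*} (φ ψ : ℝ → ℝ) (X L Y M : ℝ → Ω → ℝ) (r e t : ℝ) (ω : Ω) : ℝ :=
  hr2 r (Np φ X L t ω - Np ψ Y M t ω) * (hKth X Y e t ω) ^ 2

theorem hKth_le {Ω : Type*} (X Y : ℝ → Ω → ℝ) (e t : ℝ) (ω : Ω) : |hKth X Y e t ω| ≤ 1 := by
  obtain ⟨-, p0, p1, -⟩ := I1_facts
  unfold hKth
  rw [abs_le]
  constructor
  · linarith [p0 (X t ω / e), p1 (Y t ω / e)]
  · linarith [p1 (X t ω / e), p0 (Y t ω / e)]

theorem hK_I1c : Continuous I1 :=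
  continuous_iff_continuousAt.2 fun x => (I1_facts.1 x).continuousAt

section pair

variable {Ω : Type*} [mΩ : MeasurableSpace Ω] {P : Measure Ω} [IsProbabilityMeasure P]
  {F : ℝ → MeasurableSpace Ω} {B : ℝ → Ω → ℝ} {c : ℝ} {φ ψ : ℝ → ℝ} {X L Y M : ℝ → Ω → ℝ}

omit [IsProbabilityMeasure P] in
theorem hK_thm (h : SolC P F B c φ X L) (h' : SolC P F B c ψ Y M) (e t : ℝ) (ht : 0 ≤ t) :
    Measurable[F t] (hKth X Y e t) := by
  have h1 : Measurable[F t] (fun ω => I1 (X t ω / e)) :=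
    hK_I1c.measurable.comp ((h.Xad t ht).div_const e)
  have h2 : Measurable[F t] (fun ω => I1 (Y t ω / e)) :=
    hK_I1c.measurable.comp ((h'.Xad t ht).div_const e)
  exact h1.sub h2

theorem hK_S (h : SolC P F B c φ X L) (h' : SolC P F B c ψ Y M) (e T : ℝ) (hT : 0 < T) (n : ℕ)
    (hn : 0 < n) (j : ℕ) (hj : j ≤ n) :
    Measurable[F (gp 0 T n j)] (hKS B X Y e T n j) ∧ MemLp (hKS B X Y e T n j) 2 P ∧
    ∫ ω, (hKS B X Y e T n j ω) ^ 2 ∂P ≤ T := by
  obtain ⟨g0, gn, gmono, gdiff, gle, gub, gm⟩ := gp_facts 0 T hT.le n hn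
  have hnr : (0:ℝ) < n := by exact_mod_cast hn
  have hth : ∀ i, Measurable[F (gp 0 T n i)] (hKth X Y e (gp 0 T n i)) := fun i =>
    hK_thm h h' e _ (gle i)
  obtain ⟨s1, s2, -⟩ := iso_sum h.bm 0 T le_rfl hT.le n hn
    (fun i => hKth X Y e (gp 0 T n i)) 1 (fun i _ => hth i)
    (fun i _ ω => hKth_le X Y e _ ω) j hj
  refine ⟨?_, s1, ?_⟩
  · clear s1 s2
    induction j with
    | zero =>
      have e1 : hKS B X Y e T n 0 = fun _ => 0 := by
        funext ω
        simp [hKS]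
      rw [e1]
      exact measurable_const
    | succ j ih =>
      have e1 : hKS B X Y e T n (j + 1) = fun ω => hKS B X Y e T n j ω +
          hKth X Y e (gp 0 T n j) ω * (B (gp 0 T n (j + 1)) ω - B (gp 0 T n j) ω) := by
        funext ω
        unfold hKS
        rw [Finset.sum_range_succ]
      rw [e1]
      have hFm : F (gp 0 T n j) ≤ F (gp 0 T n (j + 1)) := h.bm.mono (gmono j)
      have m1 := (ih (by omega)).mono hFm le_rfl
      have m2 := (hth j).mono hFm le_rfl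
      have m3 := (h.bm.adap _ (gle j)).mono hFm le_rfl
      have m4 := h.bm.adap _ (gle (j + 1))
      exact m1.add (m2.mul (m4.sub m3))
  · have e1 : (fun ω => (hKS B X Y e T n j ω) ^ 2) = fun ω => (∑ i ∈ Finset.range j,
        (fun i => hKth X Y e (gp 0 T n i)) i ω *
        (B (gp 0 T n (i + 1)) ω - B (gp 0 T n i) ω)) ^ 2 := rfl
    rw [e1, s2, sub_zero]
    have h1 : ∀ i ∈ Finset.range j, (∫ ω, (hKth X Y e (gp 0 T n i) ω) ^ 2 ∂P) * (T / n) ≤
        T / n := by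
      intro i _
      have h2 : ∫ ω, (hKth X Y e (gp 0 T n i) ω) ^ 2 ∂P ≤ ∫ ω, (1 : ℝ) ∂P := by
        apply integral_mono_of_nonneg (Filter.Eventually.of_forall fun ω => sq_nonneg _)
          (integrable_const _)
        filter_upwards with ω
        rw [← sq_abs]
        have h3 := hKth_le X Y e (gp 0 T n i) ω
        have h4 := abs_nonneg (hKth X Y e (gp 0 T n i) ω)
        nlinarith
      rw [integral_const, smul_eq_mul, mul_one, probReal_univ] at h2
      calc _ ≤ 1 * (T / n) := mul_le_mul_of_nonneg_right h2 (by positivity)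
        _ = T / n := one_mul _
    refine (Finset.sum_le_sum h1).trans ?_
    rw [Finset.sum_const, Finset.card_range, nsmul_eq_mul]
    have h5 : (j : ℝ) ≤ n := by exact_mod_cast hj
    calc (j : ℝ) * (T / n) ≤ n * (T / n) := mul_le_mul_of_nonneg_right h5 (by positivity)
      _ = T := by field_simp

theorem hK_K (h : SolC P F B c φ X L) (h' : SolC P F B c ψ Y M) (t : ℝ) (ht : 0 ≤ t) :
    Measurable[F t] (fun ω => Np φ X L t ω - Np ψ Y M t ω) ∧
    MemLp (fun ω => Np φ X L t ω - Np ψ Y M t ω) 2 P := by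
  obtain ⟨a1, a2⟩ := np_l2 h t ht
  obtain ⟨b1, b2⟩ := np_l2 h' t ht
  exact ⟨a1.sub b1, a2.sub b2⟩

omit [IsProbabilityMeasure P] in
theorem hK_zero (h : SolC P F B c φ X L) : ∀ᵐ ω ∂P, Np φ X L 0 ω = max c 0 := by
  filter_upwards [h.eq] with ω hω
  have h1 := hω 0 le_rfl
  unfold Np
  rw [h1, h.L0, h.bm.zero, h.c0]
  ring_nf

theorem hK_disc (h : SolC P F B c φ X L) (h' : SolC P F B c ψ Y M) (T e : ℝ) (hT : 0 < T)
    (he : 0 < e) (he1 : e ≤ 1) :
    ∃ w : ℕ → ℝ, Tendsto w atTop (𝓝 0) ∧ ∀ n, 0 < n → ∀ j, j ≤ n →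
      MemLp (fun ω => (Np φ X L (gp 0 T n j) ω - Np ψ Y M (gp 0 T n j) ω) -
        hKS B X Y e T n j ω) 2 P ∧
      ∫ ω, ((Np φ X L (gp 0 T n j) ω - Np ψ Y M (gp 0 T n j) ω) -
        hKS B X Y e T n j ω) ^ 2 ∂P ≤ 200 * (1 + |c| + T) * e + w n := by
  obtain ⟨w, hw, hd⟩ := np_disc h T e hT he he1
  obtain ⟨w', hw', hd'⟩ := np_disc h' T e hT he he1
  refine ⟨fun n => 2 * (w n + w' n), ?_, ?_⟩
  · have h1 := (hw.add hw').const_mul 2
    simpa using h1
  intro n hn j hj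
  obtain ⟨a1, a2⟩ := hd n hn j hj
  obtain ⟨b1, b2⟩ := hd' n hn j hj
  obtain ⟨DX, hDX⟩ : ∃ DX : Ω → ℝ, DX = fun ω => Np φ X L (gp 0 T n j) ω - Np φ X L 0 ω -
    ∑ i ∈ Finset.range j,
        I1 (X (gp 0 T n i) ω / e) * (B (gp 0 T n (i + 1)) ω - B (gp 0 T n i) ω) := ⟨_, rfl⟩
  obtain ⟨DY, hDY⟩ : ∃ DY : Ω → ℝ, DY = fun ω => Np ψ Y M (gp 0 T n j) ω - Np ψ Y M 0 ω -
    ∑ i ∈ Finset.range j,
        I1 (Y (gp 0 T n i) ω / e) * (B (gp 0 T n (i + 1)) ω - B (gp 0 T n i) ω) := ⟨_, rfl⟩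
  have a2' : ∫ ω, (DX ω) ^ 2 ∂P ≤ 50 * (1 + |c| + T) * e + w n := by rw [hDX]; exact a2
  have b2' : ∫ ω, (DY ω) ^ 2 ∂P ≤ 50 * (1 + |c| + T) * e + w' n := by rw [hDY]; exact b2
  rw [← hDX] at a1
  rw [← hDY] at b1
  have hae : (fun ω => (Np φ X L (gp 0 T n j) ω - Np ψ Y M (gp 0 T n j) ω) -
        hKS B X Y e T n j ω) =ᵐ[P] fun ω => DX ω - DY ω := by
    filter_upwards [hK_zero h, hK_zero h'] with ω h1 h2
    rw [hDX, hDY]
    simp only
    rw [h1, h2]
    have e1 : hKS B X Y e T n j ω = (∑ i ∈ Finset.range j,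
        I1 (X (gp 0 T n i) ω / e) * (B (gp 0 T n (i + 1)) ω - B (gp 0 T n i) ω)) -
        ∑ i ∈ Finset.range j,
        I1 (Y (gp 0 T n i) ω / e) * (B (gp 0 T n (i + 1)) ω - B (gp 0 T n i) ω) := by
      rw [← Finset.sum_sub_distrib]
      unfold hKS hKth
      apply Finset.sum_congr rfl
      intro i _
      ring
    rw [e1]
    ring
  refine ⟨(a1.sub b1).ae_eq hae.symm, ?_⟩
  have e2 : ∫ ω, ((Np φ X L (gp 0 T n j) ω - Np ψ Y M (gp 0 T n j) ω) -
        hKS B X Y e T n j ω) ^ 2 ∂P = ∫ ω, (DX ω - DY ω) ^ 2 ∂P := by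
    apply integral_congr_ae
    filter_upwards [hae] with ω h1
    rw [h1]
  rw [e2]
  have e3 : ∫ ω, (DX ω - DY ω) ^ 2 ∂P ≤ ∫ ω, (2 * DX ω ^ 2 + 2 * DY ω ^ 2) ∂P := by
    apply integral_mono (a1.sub b1).integrable_sq
      ((a1.integrable_sq.const_mul 2).add (b1.integrable_sq.const_mul 2))
    intro ω
    simp only [Pi.add_apply, Pi.sub_apply]
    nlinarith [sq_nonneg (DX ω + DY ω)]
  rw [integral_add (a1.integrable_sq.const_mul 2) (b1.integrable_sq.const_mul 2),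
    integral_const_mul, integral_const_mul] at e3
  simp only
  linarith

theorem hK_ito (h : SolC P F B c φ X L) (h' : SolC P F B c ψ Y M) (r : ℝ) (hr0 : 0 < r)
    (T e : ℝ) (hT : 0 < T) (n : ℕ) (hn : 0 < n) (j : ℕ) (hj : j ≤ n) :
    ∫ ω, hr r (hKS B X Y e T n j ω) ∂P ≤ ∑ i ∈ Finset.range j,
      ((∫ ω, hr2 r (hKS B X Y e T n i ω) * hKth X Y e (gp 0 T n i) ω ^ 2 ∂P) * (T / n) / 2 +
        2 * (T / n) * √(T / n) / r ^ 2) := by
  obtain ⟨g0, gn, gmono, gdiff, gle, gub, gm⟩ := gp_facts 0 T hT.le n hn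
  rw [sub_zero] at gdiff
  induction j with
  | zero =>
    obtain ⟨-, -, -, -, -, p0, p1, -⟩ := hr_facts r hr0
    have h0 : hr r 0 = 0 := le_antisymm (by simpa using p1 0) (p0 0)
    have e1 : (fun ω => hr r (hKS B X Y e T n 0 ω)) = fun _ => 0 := by
      funext ω
      rw [← h0]
      congr 1
    rw [e1]
    simp
  | succ j ih =>
    obtain ⟨s1, s2, -⟩ := hK_S h h' e T hT n hn j (by omega)
    have h1 := hK_step h.bm r hr0 (gp 0 T n j) (gp 0 T n (j + 1)) (gle j) (gmono j)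
      (hKS B X Y e T n j) (hKth X Y e (gp 0 T n j)) s1 s2 (hK_thm h h' e _ (gle j))
      (hKth_le X Y e _)
    rw [gdiff] at h1
    have e1 : (fun ω => hr r (hKS B X Y e T n (j + 1) ω)) = fun ω => hr r (hKS B X Y e T n j ω +
          hKth X Y e (gp 0 T n j) ω * (B (gp 0 T n (j + 1)) ω - B (gp 0 T n j) ω)) := by
      funext ω
      unfold hKS
      rw [Finset.sum_range_succ]
    rw [e1, Finset.sum_range_succ]
    have h2 := ih (by omega)
    linarith

omit [IsProbabilityMeasure P] in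
theorem hK_npc (h : SolC P F B c φ X L) (ω : Ω) :
    ContinuousOn (fun t => Np φ X L t ω) (Ici 0) := by
  have hL0 : ∀ t, 0 ≤ t → 0 ≤ L t ω := by
    intro t ht
    have h1 := h.Lmono ω 0 t le_rfl ht
    rw [h.L0] at h1
    exact h1
  have hφ : ContinuousOn φ (Ici 0) := by
    rw [Metric.continuousOn_iff]
    intro b hb ε hε
    refine ⟨ε, hε, fun a ha hab => ?_⟩
    rw [Real.dist_eq] at hab ⊢
    exact (h.lip a b ha hb).trans_lt hab
  have h1 : ContinuousOn (fun t => φ (L t ω)) (Ici 0) :=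
    hφ.comp (h.Lc ω).continuousOn (fun t ht => hL0 t ht)
  unfold Np
  exact (((h.Xc ω).max continuous_const).continuousOn).sub
    ((((h.Lc ω).continuousOn.add h1).sub continuousOn_const).div_const 2)

theorem hK_hr2c (r : ℝ) (hr0 : 0 < r) : Continuous (hr2 r) := by
  unfold hr2
  apply Continuous.div continuous_const (continuous_abs.add continuous_const)
  intro x
  have h2 : 0 < |x| + r := by linarith [abs_nonneg x]
  exact h2.ne'

omit [IsProbabilityMeasure P] in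
theorem hK_gc (h : SolC P F B c φ X L) (h' : SolC P F B c ψ Y M) (r : ℝ) (hr0 : 0 < r) (e : ℝ)
    (ω : Ω) : ContinuousOn (fun t => hKg φ ψ X L Y M r e t ω) (Ici 0) := by
  unfold hKg hKth
  apply ContinuousOn.mul
  · exact (hK_hr2c r hr0).comp_continuousOn ((hK_npc h ω).sub (hK_npc h' ω))
  · apply ContinuousOn.pow
    exact ((hK_I1c.comp ((h.Xc ω).div_const e)).sub
      (hK_I1c.comp ((h'.Xc ω).div_const e))).continuousOn

omit mΩ in
theorem hK_gb (r : ℝ) (hr0 : 0 < r) (e t : ℝ) (ω : Ω) :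
    0 ≤ hKg φ ψ X L Y M r e t ω ∧ hKg φ ψ X L Y M r e t ω ≤ 1 / r := by
  obtain ⟨-, -, p2, b2, -⟩ := hr_facts r hr0
  unfold hKg
  have h1 : hKth X Y e t ω ^ 2 ≤ 1 := by
    rw [← sq_abs]
    have h3 := hKth_le X Y e t ω
    have h4 := abs_nonneg (hKth X Y e t ω)
    nlinarith
  refine ⟨mul_nonneg (p2 _).le (sq_nonneg _), ?_⟩
  calc _ ≤ (1 / r) * 1 := mul_le_mul (b2 _) h1 (sq_nonneg _) (by positivity)
    _ = 1 / r := mul_one _

theorem hK_gm (h : SolC P F B c φ X L) (h' : SolC P F B c ψ Y M) (r : ℝ) (hr0 : 0 < r) (e t : ℝ)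
    (ht : 0 ≤ t) : Measurable (hKg φ ψ X L Y M r e t) := by
  have h1 := ((hK_K h h' t ht).1).mono (h.bm.le t) le_rfl
  have h2 := (hK_thm h h' e t ht).mono (h.bm.le t) le_rfl
  exact ((hK_hr2c r hr0).measurable.comp h1).mul (h2.pow_const 2)

end pair

theorem hK_amgm (α x y : ℝ) (hα : 0 < α) : x * y ≤ α / 2 * x ^ 2 + y ^ 2 / (2 * α) := by
  have h1 : α / 2 * x ^ 2 + y ^ 2 / (2 * α) - x * y = (α * x - y) ^ 2 / (2 * α) := by
    field_simp
    ring
  have h2 : 0 ≤ (α * x - y) ^ 2 / (2 * α) := by positivity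
  linarith

section pair

variable {Ω : Type*} [mΩ : MeasurableSpace Ω] {P : Measure Ω} [IsProbabilityMeasure P]
  {F : ℝ → MeasurableSpace Ω} {B : ℝ → Ω → ℝ} {c : ℝ} {φ ψ : ℝ → ℝ} {X L Y M : ℝ → Ω → ℝ}

theorem hK_gint (h : SolC P F B c φ X L) (h' : SolC P F B c ψ Y M) (r : ℝ) (hr0 : 0 < r)
    (e t : ℝ) (ht : 0 ≤ t) : Integrable (fun ω => hKg φ ψ X L Y M r e t ω) P := by
  apply Integrable.of_bound (hK_gm h h' r hr0 e t ht).aestronglyMeasurable (1 / r)
  filter_upwards with ω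
  obtain ⟨g0, g1⟩ := hK_gb (φ := φ) (ψ := ψ) (X := X) (L := L) (Y := Y) (M := M) r hr0 e t ω
  rw [Real.norm_eq_abs, abs_of_nonneg g0]
  exact g1

theorem hK_pern (h : SolC P F B c φ X L) (h' : SolC P F B c ψ Y M) (r : ℝ) (hr0 : 0 < r)
    (T e : ℝ) (hT : 0 < T) (n : ℕ) (hn : 0 < n) (η : ℝ)
    (hd : ∀ j, j ≤ n →
      MemLp (fun ω => (Np φ X L (gp 0 T n j) ω - Np ψ Y M (gp 0 T n j) ω) -
        hKS B X Y e T n j ω) 2 P ∧
      ∫ ω, ((Np φ X L (gp 0 T n j) ω - Np ψ Y M (gp 0 T n j) ω) -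
        hKS B X Y e T n j ω) ^ 2 ∂P ≤ η) (α : ℝ) (hα : 0 < α) :
    ∫ ω, hr r (Np φ X L T ω - Np ψ Y M T ω) ∂P ≤
      (∫ ω, ∑ i ∈ Finset.range n, hKg φ ψ X L Y M r e (gp 0 T n i) ω * (T / n) ∂P) / 2 +
      T / 2 * ((1 / r ^ 2) * (α / 2 + η / (2 * α))) + 2 * T * √(T / n) / r ^ 2 +
      (1 / r) * (α / 2 * (2 * (∫ ω, (Np φ X L T ω - Np ψ Y M T ω) ^ 2 ∂P) + 2 * T) +
        η / (2 * α)) := by
  obtain ⟨g0, gn, gmono, gdiff, gle, gub, gm⟩ := gp_facts 0 T hT.le n hn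
  obtain ⟨d1, d2, p2, b2, lip, p0, p1, -, b1, -⟩ := hr_facts r hr0
  have hnr : (0:ℝ) < n := by exact_mod_cast hn
  -- replacing the discrete integral by the martingale
  have hΔ : ∀ i ∈ Finset.range n,
      ∫ ω, hr2 r (hKS B X Y e T n i ω) * hKth X Y e (gp 0 T n i) ω ^ 2 ∂P ≤
      (∫ ω, hKg φ ψ X L Y M r e (gp 0 T n i) ω ∂P) +
        (1 / r ^ 2) * (α / 2 + η / (2 * α)) := by
    intro i hi
    have hi' := (Finset.mem_range.1 hi).le
    obtain ⟨q1, q2⟩ := hd i hi'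
    obtain ⟨Q, hQ⟩ : ∃ Q : Ω → ℝ, Q = fun ω => (Np φ X L (gp 0 T n i) ω -
      Np ψ Y M (gp 0 T n i) ω) - hKS B X Y e T n i ω := ⟨_, rfl⟩
    rw [← hQ] at q1
    have q2' : ∫ ω, (Q ω) ^ 2 ∂P ≤ η := by rw [hQ]; exact q2
    have hI1 : Integrable (fun ω => hKg φ ψ X L Y M r e (gp 0 T n i) ω) P :=
      hK_gint h h' r hr0 e _ (gle i)
    have hI2 : Integrable (fun ω => (1 / r ^ 2) * (α / 2 + Q ω ^ 2 / (2 * α))) P :=
      ((integrable_const _).add (q1.integrable_sq.div_const _)).const_mul _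
    have h1 : ∫ ω, hr2 r (hKS B X Y e T n i ω) * hKth X Y e (gp 0 T n i) ω ^ 2 ∂P ≤
        ∫ ω, (hKg φ ψ X L Y M r e (gp 0 T n i) ω +
          (1 / r ^ 2) * (α / 2 + Q ω ^ 2 / (2 * α))) ∂P := by
      apply integral_mono_of_nonneg (Filter.Eventually.of_forall fun ω =>
        mul_nonneg (p2 _).le (sq_nonneg _)) (hI1.add hI2)
      filter_upwards with ω
      have h2 : hKth X Y e (gp 0 T n i) ω ^ 2 ≤ 1 := by
        rw [← sq_abs]
        have h3 := hKth_le X Y e (gp 0 T n i) ω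
        have h4 := abs_nonneg (hKth X Y e (gp 0 T n i) ω)
        nlinarith
      have h3 := lip (hKS B X Y e T n i ω) (Np φ X L (gp 0 T n i) ω -
        Np ψ Y M (gp 0 T n i) ω)
      have h4 : |hKS B X Y e T n i ω - (Np φ X L (gp 0 T n i) ω - Np ψ Y M (gp 0 T n i) ω)| =
          |Q ω| := by
        rw [hQ, abs_sub_comm]
      rw [h4] at h3
      have h5 := hK_amgm α 1 |Q ω| hα
      rw [one_mul, sq_abs, one_pow, mul_one] at h5
      have h6 : hr2 r (hKS B X Y e T n i ω) ≤ hr2 r (Np φ X L (gp 0 T n i) ω -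
        Np ψ Y M (gp 0 T n i) ω) + (1 / r ^ 2) * (α / 2 + Q ω ^ 2 / (2 * α)) := by
        have h7 := (le_abs_self _).trans h3
        have h8 : (1 / r ^ 2) * |Q ω| ≤ (1 / r ^ 2) * (α / 2 + Q ω ^ 2 / (2 * α)) :=
          mul_le_mul_of_nonneg_left h5 (by positivity)
        linarith
      have h9 : 0 ≤ (1 / r ^ 2) * (α / 2 + Q ω ^ 2 / (2 * α)) := by positivity
      simp only [Pi.add_apply]
      unfold hKg
      calc _ ≤ (hr2 r (Np φ X L (gp 0 T n i) ω - Np ψ Y M (gp 0 T n i) ω) +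
            (1 / r ^ 2) * (α / 2 + Q ω ^ 2 / (2 * α))) * hKth X Y e (gp 0 T n i) ω ^ 2 :=
            mul_le_mul_of_nonneg_right h6 (sq_nonneg _)
        _ = hr2 r (Np φ X L (gp 0 T n i) ω - Np ψ Y M (gp 0 T n i) ω) *
            hKth X Y e (gp 0 T n i) ω ^ 2 +
            (1 / r ^ 2) * (α / 2 + Q ω ^ 2 / (2 * α)) * hKth X Y e (gp 0 T n i) ω ^ 2 := by ring
        _ ≤ _ := by
            have h10 := mul_le_mul_of_nonneg_left h2 h9
            rw [mul_one] at h10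
            linarith
    rw [integral_add hI1 hI2, integral_const_mul, integral_add (integrable_const _)
      (q1.integrable_sq.div_const _), integral_const, probReal_univ, one_smul, integral_div] at h1
    refine h1.trans ?_
    have h11 : (∫ ω, Q ω ^ 2 ∂P) / (2 * α) ≤ η / (2 * α) :=
      div_le_div_of_nonneg_right q2' (by positivity)
    have h12 : (1 / r ^ 2) * (α / 2 + (∫ ω, Q ω ^ 2 ∂P) / (2 * α)) ≤
        (1 / r ^ 2) * (α / 2 + η / (2 * α)) :=
      mul_le_mul_of_nonneg_left (by linarith) (by positivity)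
    linarith
  -- comparison at the final time
  have hE : ∫ ω, hr r (Np φ X L T ω - Np ψ Y M T ω) ∂P ≤
      ∫ ω, hr r (hKS B X Y e T n n ω) ∂P +
      (1 / r) * (α / 2 * (2 * (∫ ω, (Np φ X L T ω - Np ψ Y M T ω) ^ 2 ∂P) + 2 * T) +
        η / (2 * α)) := by
    obtain ⟨q1, q2⟩ := hd n le_rfl
    rw [gn] at q1 q2
    obtain ⟨s1, s2, s3⟩ := hK_S h h' e T hT n hn n le_rfl
    obtain ⟨k1, k2⟩ := hK_K h h' T hT.le
    obtain ⟨U, hU⟩ : ∃ U : Ω → ℝ, U = fun ω => Np φ X L T ω - Np ψ Y M T ω := ⟨_, rfl⟩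
    obtain ⟨S, hS⟩ : ∃ S : Ω → ℝ, S = hKS B X Y e T n n := ⟨_, rfl⟩
    rw [← hS] at s2
    rw [← hU] at k2
    have s3' : ∫ ω, S ω ^ 2 ∂P ≤ T := by rw [hS]; exact s3
    have q1' : MemLp (fun ω => U ω - S ω) 2 P := by rw [hU, hS]; exact q1
    have q2' : ∫ ω, (U ω - S ω) ^ 2 ∂P ≤ η := by rw [hU, hS]; exact q2
    have e1 : ∫ ω, hr r (Np φ X L T ω - Np ψ Y M T ω) ∂P = ∫ ω, hr r (U ω) ∂P := by rw [hU]
    have e2 : ∫ ω, hr r (hKS B X Y e T n n ω) ∂P = ∫ ω, hr r (S ω) ∂P := by rw [hS]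
    have e3 : ∫ ω, (Np φ X L T ω - Np ψ Y M T ω) ^ 2 ∂P = ∫ ω, (U ω) ^ 2 ∂P := by rw [hU]
    rw [e1, e2, e3]
    have hI0 : Integrable (fun ω => 2 * U ω ^ 2 + 2 * S ω ^ 2) P :=
      (k2.integrable_sq.const_mul 2).add (s2.integrable_sq.const_mul 2)
    have hI1 : Integrable (fun ω => (1 / r) * (α / 2 * (2 * U ω ^ 2 + 2 * S ω ^ 2) +
        (U ω - S ω) ^ 2 / (2 * α))) P :=
      ((hI0.const_mul _).add (q1'.integrable_sq.div_const _)).const_mul _
    have h1 : ∫ ω, hr r (U ω) ∂P ≤ ∫ ω, (hr r (S ω) +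
        (1 / r) * (α / 2 * (2 * U ω ^ 2 + 2 * S ω ^ 2) + (U ω - S ω) ^ 2 / (2 * α))) ∂P := by
      apply integral_mono (hK_hrint r hr0 k2) ((hK_hrint r hr0 s2).add hI1)
      intro ω
      simp only [Pi.add_apply]
      have h2 := (le_abs_self _).trans (hK_hrdiff r hr0 (U ω) (S ω))
      have h3 := hK_amgm α (|U ω| + |S ω|) |U ω - S ω| hα
      rw [sq_abs] at h3
      have h4 : (|U ω| + |S ω|) ^ 2 ≤ 2 * U ω ^ 2 + 2 * S ω ^ 2 := by
        have h5 := sq_abs (U ω)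
        have h6 := sq_abs (S ω)
        nlinarith [sq_nonneg (|U ω| - |S ω|)]
      have h5 : α / 2 * (|U ω| + |S ω|) ^ 2 ≤ α / 2 * (2 * U ω ^ 2 + 2 * S ω ^ 2) :=
        mul_le_mul_of_nonneg_left h4 (by positivity)
      have h6 : (|U ω| + |S ω|) * |U ω - S ω| / r ≤ (1 / r) *
          (α / 2 * (2 * U ω ^ 2 + 2 * S ω ^ 2) + (U ω - S ω) ^ 2 / (2 * α)) := by
        rw [div_eq_inv_mul, one_div]
        exact mul_le_mul_of_nonneg_left (by linarith) (by positivity)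
      linarith
    rw [integral_add (hK_hrint r hr0 s2) hI1, integral_const_mul, integral_add (hI0.const_mul _)
      (q1'.integrable_sq.div_const _), integral_const_mul, integral_div,
      integral_add (k2.integrable_sq.const_mul 2) (s2.integrable_sq.const_mul 2),
      integral_const_mul, integral_const_mul] at h1
    refine h1.trans ?_
    have h7 : (∫ ω, (U ω - S ω) ^ 2 ∂P) / (2 * α) ≤ η / (2 * α) :=
      div_le_div_of_nonneg_right q2' (by positivity)
    have h8 : α / 2 * (2 * (∫ ω, U ω ^ 2 ∂P) + 2 * ∫ ω, S ω ^ 2 ∂P) ≤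
        α / 2 * (2 * (∫ ω, U ω ^ 2 ∂P) + 2 * T) :=
      mul_le_mul_of_nonneg_left (by linarith) (by positivity)
    have h9 : (1 / r) * (α / 2 * (2 * (∫ ω, U ω ^ 2 ∂P) + 2 * ∫ ω, S ω ^ 2 ∂P) +
        (∫ ω, (U ω - S ω) ^ 2 ∂P) / (2 * α)) ≤
        (1 / r) * (α / 2 * (2 * (∫ ω, U ω ^ 2 ∂P) + 2 * T) + η / (2 * α)) :=
      mul_le_mul_of_nonneg_left (by linarith) (by positivity)
    linarith
  have hIto := hK_ito h h' r hr0 T e hT n hn n le_rfl
  have hsum : ∑ i ∈ Finset.range n,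
      ((∫ ω, hr2 r (hKS B X Y e T n i ω) * hKth X Y e (gp 0 T n i) ω ^ 2 ∂P) * (T / n) / 2 +
        2 * (T / n) * √(T / n) / r ^ 2) ≤
      (∫ ω, ∑ i ∈ Finset.range n, hKg φ ψ X L Y M r e (gp 0 T n i) ω * (T / n) ∂P) / 2 +
      T / 2 * ((1 / r ^ 2) * (α / 2 + η / (2 * α))) + 2 * T * √(T / n) / r ^ 2 := by
    rw [integral_finsetSum _ (fun i _ => (hK_gint h h' r hr0 e _ (gle i)).mul_const _)]
    have h1 : ∀ i ∈ Finset.range n,
        ((∫ ω, hr2 r (hKS B X Y e T n i ω) * hKth X Y e (gp 0 T n i) ω ^ 2 ∂P) * (T / n) / 2 +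
        2 * (T / n) * √(T / n) / r ^ 2) ≤
        (∫ ω, hKg φ ψ X L Y M r e (gp 0 T n i) ω * (T / n) ∂P) / 2 +
        ((T / n) / 2 * ((1 / r ^ 2) * (α / 2 + η / (2 * α))) +
          2 * (T / n) * √(T / n) / r ^ 2) := by
      intro i hi
      rw [integral_mul_const]
      have h2 := hΔ i hi
      have h3 := mul_le_mul_of_nonneg_right h2 (show 0 ≤ (T / n) / 2 by positivity)
      linarith
    refine (Finset.sum_le_sum h1).trans (le_of_eq ?_)
    rw [Finset.sum_add_distrib, Finset.sum_const, Finset.card_range, nsmul_eq_mul,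
      ← Finset.sum_div]
    generalize (∑ i ∈ Finset.range n,
      ∫ ω, hKg φ ψ X L Y M r e (gp 0 T n i) ω * (T / n) ∂P) = Z
    generalize √(T / n) = q
    generalize (1 / r ^ 2) * (α / 2 + η / (2 * α)) = W
    have e5 : (n : ℝ) * (T / n / 2 * W + 2 * (T / n) * q / r ^ 2) =
        T / 2 * W + 2 * T * q / r ^ 2 := by
      field_simp
    rw [e5]
    ring
  linarith

omit mΩ in
theorem hK_bdd (r : ℝ) (hr0 : 0 < r) (T e : ℝ) (hT : 0 < T) (n : ℕ) (ω : Ω) :
    ‖∑ i ∈ Finset.range n, hKg φ ψ X L Y M r e (gp 0 T n i) ω * (T / n)‖ ≤ T / r := by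
  rcases Nat.eq_zero_or_pos n with rfl | hn
  · simp
    positivity
  · have hnr : (0:ℝ) < n := by exact_mod_cast hn
    refine (norm_sum_le _ _).trans ?_
    have h1 : ∀ i ∈ Finset.range n, ‖hKg φ ψ X L Y M r e (gp 0 T n i) ω * (T / n)‖ ≤
        1 / r * (T / n) := by
      intro i _
      obtain ⟨g0, g1⟩ := hK_gb (φ := φ) (ψ := ψ) (X := X) (L := L) (Y := Y) (M := M) r hr0 e
        (gp 0 T n i) ω
      rw [norm_mul, Real.norm_eq_abs, Real.norm_eq_abs, abs_of_nonneg g0,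
        abs_of_nonneg (show 0 ≤ T / n by positivity)]
      exact mul_le_mul_of_nonneg_right g1 (by positivity)
    refine (Finset.sum_le_sum h1).trans (le_of_eq ?_)
    rw [Finset.sum_const, Finset.card_range, nsmul_eq_mul]
    field_simp

theorem hK_meas (h : SolC P F B c φ X L) (h' : SolC P F B c ψ Y M) (r : ℝ) (hr0 : 0 < r)
    (T e : ℝ) (hT : 0 < T) (n : ℕ) : AEStronglyMeasurable
    (fun ω => ∑ i ∈ Finset.range n, hKg φ ψ X L Y M r e (gp 0 T n i) ω * (T / n)) P := by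
  apply Finset.aestronglyMeasurable_fun_sum
  intro i hi
  have hn : 0 < n := by
    have h1 := Finset.mem_range.1 hi
    omega
  obtain ⟨g0, gn, gmono, gdiff, gle, gub, gm⟩ := gp_facts 0 T hT.le n hn
  exact ((hK_gm h h' r hr0 e _ (gle i)).mul_const _).aestronglyMeasurable

omit [IsProbabilityMeasure P] in
theorem hK_riem (h : SolC P F B c φ X L) (h' : SolC P F B c ψ Y M) (r : ℝ) (hr0 : 0 < r)
    (T e : ℝ) (hT : 0 < T) (ω : Ω) : Tendsto
    (fun n : ℕ => ∑ i ∈ Finset.range n, hKg φ ψ X L Y M r e (gp 0 T n i) ω * (T / n)) atTop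
    (𝓝 (∫ s in (0:ℝ)..T, hKg φ ψ X L Y M r e s ω)) :=
  hK_riemann (fun t => hKg φ ψ X L Y M r e t ω) T hT
    ((hK_gc h h' r hr0 e ω).mono Icc_subset_Ici_self)

theorem hK_lim1 (h : SolC P F B c φ X L) (h' : SolC P F B c ψ Y M) (r : ℝ) (hr0 : 0 < r)
    (T a : ℝ) (hT : 0 < T) (ha : 0 < a) (ha1 : a ≤ 1) :
    ∫ ω, hr r (Np φ X L T ω - Np ψ Y M T ω) ∂P ≤
      (∫ ω, (∫ s in (0:ℝ)..T, hKg φ ψ X L Y M r (a ^ 2) s ω) ∂P) / 2 +
      a * (T / 2 * ((1 / r ^ 2) * (1 / 2 + 100 * (1 + |c| + T))) +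
      (1 / r) * (1 / 2 * (2 * (∫ ω, (Np φ X L T ω - Np ψ Y M T ω) ^ 2 ∂P) + 2 * T) +
        100 * (1 + |c| + T))) := by
  obtain ⟨w, hw, hd⟩ := hK_disc h h' T (a ^ 2) hT (by positivity) (pow_le_one₀ ha.le ha1)
  have hA : Tendsto (fun n : ℕ => ∫ ω, ∑ i ∈ Finset.range n,
      hKg φ ψ X L Y M r (a ^ 2) (gp 0 T n i) ω * (T / n) ∂P) atTop
      (𝓝 (∫ ω, (∫ s in (0:ℝ)..T, hKg φ ψ X L Y M r (a ^ 2) s ω) ∂P)) := by
    apply tendsto_integral_of_dominated_convergence (fun _ => T / r)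
      (fun n => hK_meas h h' r hr0 T _ hT n) (integrable_const _)
    · intro n
      filter_upwards with ω
      exact hK_bdd r hr0 T _ hT n ω
    · filter_upwards with ω
      exact hK_riem h h' r hr0 T _ hT ω
  have hη : Tendsto (fun n => (200 * (1 + |c| + T) * a ^ 2 + w n) / (2 * a)) atTop
      (𝓝 ((200 * (1 + |c| + T) * a ^ 2 + 0) / (2 * a))) :=
    (tendsto_const_nhds.add hw).div_const _
  have hq : Tendsto (fun n : ℕ => √(T / n)) atTop (𝓝 0) := by
    have h1 : Tendsto (fun n : ℕ => T / (n : ℝ)) atTop (𝓝 0) :=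
      tendsto_const_div_atTop_nhds_zero_nat T
    have h2 := h1.sqrt
    rwa [Real.sqrt_zero] at h2
  have hlim := (((hA.div_const 2).add (((tendsto_const_nhds (x := a / 2)).add hη).const_mul
    (1 / r ^ 2) |>.const_mul (T / 2))).add ((hq.const_mul (2 * T)).div_const (r ^ 2))).add
    (((tendsto_const_nhds (x := a / 2 * (2 * (∫ ω, (Np φ X L T ω - Np ψ Y M T ω) ^ 2 ∂P) +
      2 * T))).add hη).const_mul (1 / r))
  have hge := ge_of_tendsto hlim (b := ∫ ω, hr r (Np φ X L T ω - Np ψ Y M T ω) ∂P) (by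
    filter_upwards [Filter.eventually_gt_atTop 0] with n hn
    exact hK_pern h h' r hr0 T (a ^ 2) hT n hn _ (hd n hn) a ha)
  refine hge.trans (le_of_eq ?_)
  have e1 : (200 * (1 + |c| + T) * a ^ 2 + 0) / (2 * a) = 100 * (1 + |c| + T) * a := by
    field_simp
    ring
  rw [e1]
  ring

end pair

section pair

variable {Ω : Type*} [mΩ : MeasurableSpace Ω] {P : Measure Ω} [IsProbabilityMeasure P]
  {F : ℝ → MeasurableSpace Ω} {B : ℝ → Ω → ℝ} {c : ℝ} {φ ψ : ℝ → ℝ} {X L Y M : ℝ → Ω → ℝ}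

theorem hK (h : SolC P F B c φ X L) (h' : SolC P F B c ψ Y M) (r T : ℝ) (hr0 : 0 < r)
    (hT : 0 < T) :
    Integrable (fun ω => hr r (Np φ X L T ω - Np ψ Y M T ω)) P ∧
    ∫ ω, hr r (Np φ X L T ω - Np ψ Y M T ω) ∂P ≤
      (∫ ω, (∫ s in (0:ℝ)..T, hr2 r (Np φ X L s ω - Np ψ Y M s ω) *
        ((if 0 < X s ω then (1:ℝ) else 0) - (if 0 < Y s ω then (1:ℝ) else 0)) ^ 2) ∂P) / 2 := by
  refine ⟨hK_hrint r hr0 (hK_K h h' T hT.le).2, ?_⟩
  obtain ⟨a, ha⟩ : ∃ a : ℕ → ℝ, a = fun k : ℕ => 1 / ((k : ℝ) + 1) := ⟨_, rfl⟩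
  have ha0 : ∀ k, 0 < a k := fun k => by rw [ha]; positivity
  have ha1 : ∀ k, a k ≤ 1 := fun k => by
    rw [ha]
    simp only
    rw [div_le_one (by positivity)]
    have h1 : (0:ℝ) ≤ k := Nat.cast_nonneg k
    linarith
  have hal : Tendsto a atTop (𝓝 0) := by
    rw [ha]
    exact tendsto_one_div_add_atTop_nhds_zero_nat
  have hI1z : ∀ z, z ≤ 0 → I1 z = 0 := I1_facts.2.2.2.1
  have hI1o : ∀ z, 1 ≤ z → I1 z = 1 := I1_facts.2.2.2.2.1
  have hker : ∀ x : ℝ, Tendsto (fun k => I1 (x / a k ^ 2)) atTop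
      (𝓝 (if 0 < x then (1:ℝ) else 0)) := by
    intro x
    by_cases hx : 0 < x
    · rw [if_pos hx]
      apply tendsto_const_nhds.congr'
      have h2 : Tendsto (fun k => a k ^ 2) atTop (𝓝 0) := by
        have h3 := hal.pow 2
        simpa using h3
      filter_upwards [h2.eventually_lt_const hx] with k hk
      rw [hI1o]
      rw [le_div_iff₀ (pow_pos (ha0 k) 2), one_mul]
      exact hk.le
    · rw [if_neg hx]
      apply tendsto_const_nhds.congr
      intro k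
      rw [hI1z]
      exact div_nonpos_of_nonpos_of_nonneg (not_lt.1 hx) (sq_nonneg _)
  have hlim : Tendsto (fun k => ∫ ω, (∫ s in (0:ℝ)..T, hKg φ ψ X L Y M r (a k ^ 2) s ω) ∂P) atTop
      (𝓝 (∫ ω, (∫ s in (0:ℝ)..T, hr2 r (Np φ X L s ω - Np ψ Y M s ω) *
        ((if 0 < X s ω then (1:ℝ) else 0) - (if 0 < Y s ω then (1:ℝ) else 0)) ^ 2) ∂P)) := by
    apply tendsto_integral_of_dominated_convergence (fun _ => 1 / r * |T - 0|)
    · intro k
      exact aestronglyMeasurable_of_tendsto_ae atTop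
        (fun n => hK_meas (P := P) h h' r hr0 T (a k ^ 2) hT n)
        (Filter.Eventually.of_forall fun ω => hK_riem h h' r hr0 T _ hT ω)
    · exact integrable_const _
    · intro k
      filter_upwards with ω
      apply intervalIntegral.norm_integral_le_of_norm_le_const
      intro s _
      obtain ⟨g0, g1⟩ := hK_gb (φ := φ) (ψ := ψ) (X := X) (L := L) (Y := Y) (M := M) r hr0
        (a k ^ 2) s ω
      rw [Real.norm_eq_abs, abs_of_nonneg g0]
      exact g1
    · filter_upwards with ω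
      apply intervalIntegral.tendsto_integral_filter_of_dominated_convergence (fun _ => 1 / r)
      · filter_upwards with k
        have h1 : ContinuousOn (fun s => hKg φ ψ X L Y M r (a k ^ 2) s ω) (uIoc 0 T) :=
          (hK_gc h h' r hr0 _ ω).mono (by
            rw [uIoc_of_le hT.le]
            intro s hs
            exact hs.1.le)
        exact h1.aestronglyMeasurable measurableSet_uIoc
      · filter_upwards with k
        filter_upwards with s _
        obtain ⟨g0, g1⟩ := hK_gb (φ := φ) (ψ := ψ) (X := X) (L := L) (Y := Y) (M := M) r hr0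
          (a k ^ 2) s ω
        rw [Real.norm_eq_abs, abs_of_nonneg g0]
        exact g1
      · exact _root_.intervalIntegrable_const
      · filter_upwards with s _
        exact (((hker (X s ω)).sub (hker (Y s ω))).pow 2).const_mul _
  obtain ⟨Z, hZ⟩ : ∃ Z, Z = (T / 2 * ((1 / r ^ 2) * (1 / 2 + 100 * (1 + |c| + T))) +
      (1 / r) * (1 / 2 * (2 * (∫ ω, (Np φ X L T ω - Np ψ Y M T ω) ^ 2 ∂P) + 2 * T) +
        100 * (1 + |c| + T))) := ⟨_, rfl⟩
  have hlim2 := (hlim.div_const 2).add (hal.mul_const Z)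
  rw [zero_mul, add_zero] at hlim2
  apply ge_of_tendsto' hlim2
  intro k
  rw [hZ]
  exact hK_lim1 h h' r hr0 T (a k) hT (ha0 k) (ha1 k)

end pair

end Pool.Agent.Helper41.SK
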