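import Pool.Agent.Helper41.SK.Defs
import Pool.Agent.Helper41.SK.MainDefs


set_option autoImplicit false

open scoped ENNReal NNReal Topology
open MeasureTheory ProbabilityTheory Set Filter

namespace Pool.Agent.Helper41.SK

/-! ## TARGETS: prove these (statements must not be changed; helper lemmas are welcome) -/

section calcs

variable {Ω : Type*}

theorem skk_cont (e d g : ℝ) (hg : 0 < g) : Continuous (wk e d g) := by
  unfold wk
  refine Continuous.div ?_ ?_ ?_
  · exact (((continuous_id.max continuous_const).div_const _).min continuous_const).mul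
      ((continuous_const.sub ((continuous_id.max continuous_const).div_const _)).max
        continuous_const)
  · exact continuous_const.add (continuous_id.max continuous_const)
  · intro z
    have := le_max_right z (0 : ℝ)
    have h2 : 0 < g + max z 0 := by linarith
    exact h2.ne'

/-- the cut-off -/
noncomputable def skq (d z : ℝ) : ℝ := max (1 - z / (2 * d)) 0

theorem skq_cont (d : ℝ) : Continuous (skq d) :=
  (continuous_const.sub (continuous_id.div_const _)).max continuous_const

theorem skq_nonneg (d z : ℝ) : 0 ≤ skq d z := le_max_right _ _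

theorem skq_le_one (d z : ℝ) (hd : 0 < d) (hz : 0 ≤ z) : skq d z ≤ 1 := by
  refine max_le ?_ zero_le_one
  have : 0 ≤ z / (2 * d) := by positivity
  linarith

theorem skq_zero (d z : ℝ) (hd : 0 < d) (hz : 2 * d ≤ z) : skq d z = 0 := by
  refine max_eq_right ?_
  have : 1 ≤ z / (2 * d) := by
    rw [le_div_iff₀ (by positivity)]; linarith
  linarith

theorem skq_mono (d d' z : ℝ) (hd : 0 < d) (hdd : d ≤ d') (hz : 0 ≤ z) : skq d z ≤ skq d' z := by
  refine max_le_max ?_ le_rfl
  have : z / (2 * d') ≤ z / (2 * d) := by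
    gcongr
  linarith

theorem skq_int (d D : ℝ) (hd : 0 < d) (hD : d ≤ D) : ∫ z in (0:ℝ)..(2 * D), skq d z = d := by
  rw [← intervalIntegral.integral_add_adjacent_intervals
    ((skq_cont d).intervalIntegrable 0 (2 * d)) ((skq_cont d).intervalIntegrable (2 * d) (2 * D))]
  have h1 : ∫ z in (2 * d)..(2 * D), skq d z = 0 := by
    rw [intervalIntegral.integral_congr (g := fun _ => (0 : ℝ))]
    · simp
    · intro z hz
      rw [uIcc_of_le (by linarith)] at hz
      exact skq_zero d z hd hz.1
  have h2 : ∫ z in (0:ℝ)..(2 * d), skq d z = ∫ z in (0:ℝ)..(2 * d), (1 - z / (2 * d)) := by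
    refine intervalIntegral.integral_congr fun z hz => ?_
    rw [uIcc_of_le (by linarith)] at hz
    refine max_eq_left ?_
    have : z / (2 * d) ≤ 1 := by
      rw [div_le_iff₀ (by positivity)]; linarith [hz.2]
    linarith
  have h3 : ∫ z in (0:ℝ)..(2 * d), (1 - z / (2 * d)) = d := by
    rw [intervalIntegral.integral_sub (by simp) (by
      exact (continuous_id.div_const _).intervalIntegrable _ _),
      intervalIntegral.integral_div, integral_id]
    simp only [intervalIntegral.integral_const, smul_eq_mul]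
    field_simp
    ring
  rw [h1, h2, h3, add_zero]

theorem skk_log (d g : ℝ) (hd : 0 < d) (hg : 0 < g) :
    ∫ z in (0:ℝ)..(2 * d), 1 / (g + z) = Real.log (1 + 2 * d / g) := by
  have h1 : ∫ z in (0:ℝ)..(2 * d), 1 / (g + z) = Real.log (g + 2 * d) - Real.log (g + 0) := by
    refine intervalIntegral.integral_eq_sub_of_hasDerivAt (f := fun z => Real.log (g + z)) ?_ ?_
    · intro z hz
      rw [uIcc_of_le (by linarith)] at hz
      have h2 : g + z ≠ 0 := by have := hz.1; positivity
      exact ((hasDerivAt_id z).const_add g).log h2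
    · refine ContinuousOn.intervalIntegrable ?_
      intro z hz
      rw [uIcc_of_le (by linarith)] at hz
      have h2 : g + z ≠ 0 := by have := hz.1; positivity
      exact (continuousAt_const.div (continuousAt_const.add continuousAt_id) h2).continuousWithinAt
  rw [h1, add_zero, ← Real.log_div (by positivity) (by positivity)]
  congr 1
  field_simp

theorem skk_int_inv (d g : ℝ) (hd : 0 < d) (hg : 0 < g) :
    IntervalIntegrable (fun z : ℝ => 1 / (g + z)) volume 0 (2 * d) := by
  refine ContinuousOn.intervalIntegrable ?_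
  intro z hz
  rw [uIcc_of_le (by linarith)] at hz
  have h2 : g + z ≠ 0 := by have := hz.1; positivity
  exact (continuousAt_const.div (continuousAt_const.add continuousAt_id) h2).continuousWithinAt

theorem skk_nonneg (e d g z : ℝ) (he : 0 < e) (hg : 0 < g) : 0 ≤ wk e d g z := by
  unfold wk
  have := le_max_right z (0 : ℝ)
  refine div_nonneg (mul_nonneg (le_min (by positivity) zero_le_one) (le_max_right _ _))
    (by linarith)

theorem skk_eq (e d g z : ℝ) (hz : 0 ≤ z) :
    wk e d g z = min (z / e) 1 * skq d z / (g + z) := by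
  unfold wk skq
  rw [max_eq_left hz]

theorem wk_facts (e d g ρ : ℝ) (he : 0 < e) (hρ : 0 < ρ) (hd : ρ ≤ d) (hg : ρ ≤ g) :
    (∀ z, 0 ≤ wk e d g z) ∧ (∀ z, wk e d g z ≤ 1 / (g + max z 0)) ∧ (∀ z, z ≤ 0 → wk e d g z = 0) ∧
    (∀ z, 2 * d ≤ z → wk e d g z = 0) ∧
    (∀ z z', |wk e d g z - wk e d g z'| ≤ (1 / (e * ρ) + 2 / ρ ^ 2) * |z - z'|) ∧
    0 ≤ Qk e d g ∧ Qk e d g ≤ Real.log (1 + 2 * d / g) := by
  have hg0 : 0 < g := hρ.trans_le hg
  have hd0 : 0 < d := hρ.trans_le hd
  have hnn : ∀ z, 0 ≤ wk e d g z := fun z => skk_nonneg e d g z he hg0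
  have hle : ∀ z, wk e d g z ≤ 1 / (g + max z 0) := by
    intro z
    have h0 := le_max_right z (0 : ℝ)
    unfold wk
    refine div_le_div_of_nonneg_right ?_ (by linarith)
    have h1 : min (max z 0 / e) 1 ≤ 1 := min_le_right _ _
    have h2 : 0 ≤ min (max z 0 / e) 1 := le_min (by positivity) zero_le_one
    have h3 : max (1 - max z 0 / (2 * d)) 0 ≤ 1 := by
      refine max_le ?_ zero_le_one
      have : 0 ≤ max z 0 / (2 * d) := by positivity
      linarith
    have h4 : 0 ≤ max (1 - max z 0 / (2 * d)) 0 := le_max_right _ _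
    nlinarith
  refine ⟨hnn, hle, ?_, ?_, ?_, ?_, ?_⟩
  · intro z hz
    unfold wk
    rw [max_eq_right hz, zero_div, min_eq_left zero_le_one, zero_mul, zero_div]
  · intro z hz
    rw [skk_eq e d g z (by linarith), skq_zero d z hd0 hz, mul_zero, zero_div]
  · intro z z'
    unfold wk
    have hmax : |max z 0 - max z' 0| ≤ |z - z'| := abs_max_sub_max_le_abs z z' 0
    have hz0 := le_max_right z (0 : ℝ)
    have hz0' := le_max_right z' (0 : ℝ)
    generalize max z 0 = x at hmax hz0
    generalize max z' 0 = x' at hmax hz0'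
    generalize |z - z'| = δ at hmax
    have hδ : 0 ≤ δ := (abs_nonneg _).trans hmax
    have m1 : |min (x / e) 1 - min (x' / e) 1| ≤ δ / e := by
      refine (abs_min_sub_min_le_max _ _ _ _).trans ?_
      rw [sub_self, abs_zero, ← sub_div, abs_div, abs_of_pos he, max_eq_left (by positivity)]
      gcongr
    have m0 : 0 ≤ min (x' / e) 1 := le_min (by positivity) zero_le_one
    have m2 : min (x' / e) 1 ≤ 1 := min_le_right _ _
    have k1 : |max (1 - x / (2 * d)) 0 - max (1 - x' / (2 * d)) 0| ≤ δ / ρ := by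
      refine (abs_max_sub_max_le_abs _ _ _).trans ?_
      have e1 : 1 - x / (2 * d) - (1 - x' / (2 * d)) = -((x - x') / (2 * d)) := by ring
      rw [e1, abs_neg, abs_div, abs_of_pos (by positivity : (0:ℝ) < 2 * d)]
      have : ρ ≤ 2 * d := by linarith
      gcongr
    have k0 : 0 ≤ max (1 - x / (2 * d)) 0 := le_max_right _ _
    have k0' : 0 ≤ max (1 - x' / (2 * d)) 0 := le_max_right _ _
    have k2 : max (1 - x / (2 * d)) 0 ≤ 1 := by
      refine max_le ?_ zero_le_one
      have : 0 ≤ x / (2 * d) := by positivity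
      linarith
    have k2' : max (1 - x' / (2 * d)) 0 ≤ 1 := by
      refine max_le ?_ zero_le_one
      have : 0 ≤ x' / (2 * d) := by positivity
      linarith
    have h1 : (g + x)⁻¹ ≤ ρ⁻¹ := by
      refine inv_anti₀ hρ (by linarith)
    have h0 : 0 ≤ (g + x)⁻¹ := by positivity
    have h2 : |(g + x)⁻¹ - (g + x')⁻¹| ≤ δ / ρ ^ 2 := by
      have hx : 0 < g + x := by linarith
      have hx' : 0 < g + x' := by linarith
      rw [inv_sub_inv hx.ne' hx'.ne', abs_div, abs_of_pos (mul_pos hx hx')]
      have e1 : g + x' - (g + x) = -(x - x') := by ring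
      rw [e1, abs_neg]
      have : ρ ^ 2 ≤ (g + x) * (g + x') := by nlinarith
      gcongr
    rw [div_eq_mul_inv (min (x / e) 1 * max (1 - x / (2 * d)) 0),
      div_eq_mul_inv (min (x' / e) 1 * max (1 - x' / (2 * d)) 0)]
    generalize min (x / e) 1 = m at m1
    generalize min (x' / e) 1 = m' at m1 m0 m2
    generalize max (1 - x / (2 * d)) 0 = k at k0 k1 k2
    generalize max (1 - x' / (2 * d)) 0 = k' at k0' k1 k2'
    generalize (g + x)⁻¹ = h at h0 h1 h2
    generalize (g + x')⁻¹ = h' at h2
    have e1 : m * k * h - m' * k' * h' = (m - m') * (k * h) + (k - k') * (m' * h) +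
        (h - h') * (m' * k') := by ring
    rw [e1]
    have a1 : |(m - m') * (k * h)| ≤ δ / e * ρ⁻¹ := by
      rw [abs_mul, abs_of_nonneg (mul_nonneg k0 h0)]
      have : k * h ≤ ρ⁻¹ := by nlinarith
      gcongr
    have a2 : |(k - k') * (m' * h)| ≤ δ / ρ * ρ⁻¹ := by
      rw [abs_mul, abs_of_nonneg (mul_nonneg m0 h0)]
      have : m' * h ≤ ρ⁻¹ := by nlinarith
      gcongr
    have a3 : |(h - h') * (m' * k')| ≤ δ / ρ ^ 2 * 1 := by
      rw [abs_mul, abs_of_nonneg (mul_nonneg m0 k0')]
      have : m' * k' ≤ 1 := by nlinarith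
      gcongr
    have e2 : (1 / (e * ρ) + 2 / ρ ^ 2) * δ = δ / e * ρ⁻¹ + δ / ρ * ρ⁻¹ + δ / ρ ^ 2 * 1 := by
      field_simp
      ring
    rw [e2]
    exact (abs_add_le _ _).trans (add_le_add ((abs_add_le _ _).trans (add_le_add a1 a2)) a3)
  · exact intervalIntegral.integral_nonneg (by linarith) fun z _ => hnn z
  · rw [← skk_log d g hd0 hg0]
    refine intervalIntegral.integral_mono_on (by linarith)
      ((skk_cont e d g hg0).intervalIntegrable _ _) (skk_int_inv d g hd0 hg0) fun z hz => ?_
    have := hle z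
    rwa [max_eq_left hz.1] at this

theorem skk_scont (e d g y : ℝ) (hg : 0 < g) :
    Continuous fun z => min (max (-y) 0) z * wk e d g z :=
  (continuous_const.min continuous_id).mul (skk_cont e d g hg)

theorem skk_ext (e d D g y : ℝ) (he : 0 < e) (hd : 0 < d) (hD : d ≤ D) (hg : 0 < g) :
    Sk e d g y = ∫ z in (0:ℝ)..(2 * D), min (max (-y) 0) z * wk e d g z := by
  rw [← intervalIntegral.integral_add_adjacent_intervals
    ((skk_scont e d g y hg).intervalIntegrable 0 (2 * d))
    ((skk_scont e d g y hg).intervalIntegrable (2 * d) (2 * D))]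
  have h1 : ∫ z in (2 * d)..(2 * D), min (max (-y) 0) z * wk e d g z = 0 := by
    rw [intervalIntegral.integral_congr (g := fun _ => (0 : ℝ))]
    · simp
    · intro z hz
      rw [uIcc_of_le (by linarith)] at hz
      show min (max (-y) 0) z * wk e d g z = 0
      rw [skk_eq e d g z (by linarith [hz.1]), skq_zero d z hd hz.1, mul_zero, zero_div, mul_zero]
  rw [h1, add_zero]
  rfl

theorem skk_coef (e g y z : ℝ) (he : 0 < e) (hg : 0 < g) (hz : 0 ≤ z) :
    0 ≤ min (max (-y) 0) z * (min (z / e) 1 / (g + z)) ∧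
      min (max (-y) 0) z * (min (z / e) 1 / (g + z)) ≤ 1 := by
  have h1 : 0 ≤ min (max (-y) 0) z := le_min (le_max_right _ _) hz
  have h2 : min (max (-y) 0) z ≤ z := min_le_right _ _
  have h3 : 0 ≤ min (z / e) 1 := le_min (by positivity) zero_le_one
  have h4 : min (z / e) 1 ≤ 1 := min_le_right _ _
  have h5 : 0 < g + z := by linarith
  refine ⟨by positivity, ?_⟩
  rw [← mul_div_assoc, div_le_one h5]
  nlinarith

theorem skk_dd (e d d' g y : ℝ) (he : 0 < e) (hd : 0 < d) (hdd : d ≤ d') (hg : 0 < g) :
    0 ≤ Sk e d' g y - Sk e d g y ∧ Sk e d' g y - Sk e d g y ≤ d' - d := by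
  have hd' : 0 < d' := hd.trans_le hdd
  rw [skk_ext e d d' g y he hd hdd hg, Sk,
    ← intervalIntegral.integral_sub ((skk_scont e d' g y hg).intervalIntegrable _ _)
      ((skk_scont e d g y hg).intervalIntegrable _ _)]
  have hkey : ∀ z, 0 ≤ z → 0 ≤ min (max (-y) 0) z * wk e d' g z - min (max (-y) 0) z * wk e d g z ∧
      min (max (-y) 0) z * wk e d' g z - min (max (-y) 0) z * wk e d g z ≤
        skq d' z - skq d z := by
    intro z hz
    rw [skk_eq e d g z hz, skk_eq e d' g z hz]
    obtain ⟨c0, c1⟩ := skk_coef e g y z he hg hz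
    have hm := skq_mono d d' z hd hdd hz
    have e1 : min (max (-y) 0) z * (min (z / e) 1 * skq d' z / (g + z)) -
        min (max (-y) 0) z * (min (z / e) 1 * skq d z / (g + z)) =
        (min (max (-y) 0) z * (min (z / e) 1 / (g + z))) * (skq d' z - skq d z) := by ring
    rw [e1]
    constructor
    · exact mul_nonneg c0 (by linarith)
    · nlinarith
  constructor
  · exact intervalIntegral.integral_nonneg (by linarith) fun z hz => (hkey z hz.1).1
  · have h1 : ∫ z in (0:ℝ)..(2 * d'), (skq d' z - skq d z) = d' - d := by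
      rw [intervalIntegral.integral_sub ((skq_cont d').intervalIntegrable _ _)
        ((skq_cont d).intervalIntegrable _ _), skq_int d' d' hd' le_rfl, skq_int d d' hd hdd]
    rw [← h1]
    refine intervalIntegral.integral_mono_on (by linarith)
      (((skk_scont e d' g y hg).sub (skk_scont e d g y hg)).intervalIntegrable _ _)
      (((skq_cont d').sub (skq_cont d)).intervalIntegrable _ _) fun z hz => (hkey z hz.1).2

theorem Sk_facts (e d d' g g' ρ : ℝ) (he : 0 < e) (hρ : 0 < ρ) (hd : ρ ≤ d) (hg : ρ ≤ g)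
    (hd' : ρ ≤ d') (hg' : ρ ≤ g') :
    (∀ y, 0 ≤ Sk e d g y) ∧ (∀ y, Sk e d g y ≤ d) ∧
    (∀ y, |Sk e d' g y - Sk e d g y| ≤ |d' - d|) ∧
    (∀ y, |Sk e d g' y - Sk e d g y| ≤ Real.log (1 + 2 * d / g) * |g' - g|) := by
  have hg0 : 0 < g := hρ.trans_le hg
  have hg0' : 0 < g' := hρ.trans_le hg'
  have hd0 : 0 < d := hρ.trans_le hd
  have hd0' : 0 < d' := hρ.trans_le hd'
  refine ⟨?_, ?_, ?_, ?_⟩
  · intro y
    refine intervalIntegral.integral_nonneg (by linarith) fun z hz => ?_
    exact mul_nonneg (le_min (le_max_right _ _) hz.1) (skk_nonneg e d g z he hg0)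
  · intro y
    have h1 := skq_int d d hd0 le_rfl
    calc Sk e d g y ≤ ∫ z in (0:ℝ)..(2 * d), skq d z := by
          refine intervalIntegral.integral_mono_on (by linarith)
            ((skk_scont e d g y hg0).intervalIntegrable _ _)
            ((skq_cont d).intervalIntegrable _ _) fun z hz => ?_
          rw [skk_eq e d g z hz.1]
          obtain ⟨c0, c1⟩ := skk_coef e g y z he hg0 hz.1
          have e1 : min (max (-y) 0) z * (min (z / e) 1 * skq d z / (g + z)) =
            (min (max (-y) 0) z * (min (z / e) 1 / (g + z))) * skq d z := by ring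
          rw [e1]
          have := skq_nonneg d z
          nlinarith
      _ = d := h1
  · intro y
    rcases le_total d d' with h | h
    · obtain ⟨h1, h2⟩ := skk_dd e d d' g y he hd0 h hg0
      rw [abs_of_nonneg h1, abs_of_nonneg (by linarith)]
      exact h2
    · obtain ⟨h1, h2⟩ := skk_dd e d' d g y he hd0' h hg0
      rw [abs_sub_comm, abs_of_nonneg h1, abs_sub_comm, abs_of_nonneg (by linarith)]
      exact h2
  · intro y
    rw [Sk, Sk, ← intervalIntegral.integral_sub ((skk_scont e d g' y hg0').intervalIntegrable _ _)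
      ((skk_scont e d g y hg0).intervalIntegrable _ _), ← skk_log d g hd0 hg0,
      ← intervalIntegral.integral_mul_const, ← Real.norm_eq_abs]
    refine intervalIntegral.norm_integral_le_of_norm_le (by linarith) ?_
      ((skk_int_inv d g hd0 hg0).mul_const _)
    refine Filter.Eventually.of_forall fun z hz => ?_
    have hz0 : 0 ≤ z := hz.1.le
    rw [skk_eq e d g z hz0, skk_eq e d g' z hz0, Real.norm_eq_abs]
    obtain ⟨c0, c1⟩ := skk_coef e g' y z he hg0' hz0
    have hx : 0 < g + z := by linarith
    have hx' : 0 < g' + z := by linarith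
    have q0 := skq_nonneg d z
    have q1 := skq_le_one d z hd0 hz0
    have e1 : min (max (-y) 0) z * (min (z / e) 1 * skq d z / (g' + z)) -
        min (max (-y) 0) z * (min (z / e) 1 * skq d z / (g + z)) =
        (min (max (-y) 0) z * (min (z / e) 1 / (g' + z))) * skq d z * (1 / (g + z)) *
          (g - g') := by
      field_simp
      ring
    rw [e1, abs_mul, abs_mul, abs_mul, abs_of_nonneg c0, abs_of_nonneg q0,
      abs_of_nonneg (by positivity : 0 ≤ 1 / (g + z)), abs_sub_comm g g']
    have h2 : (min (max (-y) 0) z * (min (z / e) 1 / (g' + z))) * skq d z ≤ 1 := by nlinarith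
    have h3 : 0 ≤ 1 / (g + z) := by positivity
    have h4 : (min (max (-y) 0) z * (min (z / e) 1 / (g' + z))) * skq d z * (1 / (g + z)) ≤
        1 / (g + z) := by nlinarith
    exact mul_le_mul_of_nonneg_right h4 (abs_nonneg _)

end calcs

end Pool.Agent.Helper41.SK
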