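import Pool.Agent.Helper41.SK.Defs
import Pool.Agent.Helper41.SK.MainDefs


set_option autoImplicit false

open scoped ENNReal NNReal Topology
open MeasureTheory ProbabilityTheory Set Filter

namespace Pool.Agent.Helper41.SK

/-! ## TARGETS: prove these (statements must not be changed; helper lemmas are welcome) -/

section calcs

variable {Ω : Type*}

/-- forward maximal function -/
noncomputable def rsP (a b : ℝ → ℝ) (Λ lam x : ℝ) : ℝ :=
  sSup ((fun v => a v - lam * (b v - b x)) '' Icc x Λ)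

theorem rsP_ge (a b : ℝ → ℝ) (Λ lam : ℝ) (hlam : 1 ≤ lam)
    (ha : ∀ s t, 0 ≤ s → s ≤ t → a s ≤ a t) (hb : ∀ s t, 0 ≤ s → s ≤ t → b s ≤ b t)
    (x v : ℝ) (hx : 0 ≤ x) (hxv : x ≤ v) (hv : v ≤ Λ) :
    a v - lam * (b v - b x) ≤ rsP a b Λ lam x := by
  unfold rsP
  refine le_csSup ?_ (Set.mem_image_of_mem (fun v => a v - lam * (b v - b x))
    (show v ∈ Icc x Λ from ⟨hxv, hv⟩))
  refine ⟨a Λ, ?_⟩
  rintro _ ⟨w, ⟨hw1, hw2⟩, rfl⟩
  have h1 := ha w Λ (hx.trans hw1) hw2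
  have h2 := hb x w hx hw1
  have h3 : 0 ≤ lam * (b w - b x) := mul_nonneg (by linarith) (by linarith)
  simp only
  linarith

theorem rsP_le (a b : ℝ → ℝ) (Λ lam x M : ℝ) (hxL : x ≤ Λ)
    (h : ∀ v, x ≤ v → v ≤ Λ → a v - lam * (b v - b x) ≤ M) : rsP a b Λ lam x ≤ M := by
  unfold rsP
  refine csSup_le (Set.Nonempty.image _ (show (Icc x Λ).Nonempty from ⟨x, le_rfl, hxL⟩)) ?_
  rintro _ ⟨w, ⟨hw1, hw2⟩, rfl⟩
  exact h w hw1 hw2

/-- backward minimal function -/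
noncomputable def rsQ (a b : ℝ → ℝ) (lam y : ℝ) : ℝ :=
  sInf ((fun v => a v + lam * (b y - b v)) '' Icc 0 y)

theorem rsQ_le (a b : ℝ → ℝ) (lam : ℝ) (hlam : 1 ≤ lam)
    (ha : ∀ s t, 0 ≤ s → s ≤ t → a s ≤ a t) (hb : ∀ s t, 0 ≤ s → s ≤ t → b s ≤ b t)
    (y v : ℝ) (hv : 0 ≤ v) (hvy : v ≤ y) : rsQ a b lam y ≤ a v + lam * (b y - b v) := by
  unfold rsQ
  refine csInf_le ?_ (Set.mem_image_of_mem (fun v => a v + lam * (b y - b v))
    (show v ∈ Icc 0 y from ⟨hv, hvy⟩))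
  refine ⟨a 0, ?_⟩
  rintro _ ⟨w, ⟨hw1, hw2⟩, rfl⟩
  have h1 := ha 0 w le_rfl hw1
  have h2 := hb w y hw1 hw2
  have h3 : 0 ≤ lam * (b y - b w) := mul_nonneg (by linarith) (by linarith)
  simp only
  linarith

theorem rsQ_ge (a b : ℝ → ℝ) (lam y M : ℝ) (hy : 0 ≤ y)
    (h : ∀ v, 0 ≤ v → v ≤ y → M ≤ a v + lam * (b y - b v)) : M ≤ rsQ a b lam y := by
  unfold rsQ
  refine le_csInf (Set.Nonempty.image _ (show (Icc 0 y).Nonempty from ⟨y, hy, le_rfl⟩)) ?_
  rintro _ ⟨w, ⟨hw1, hw2⟩, rfl⟩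
  exact h w hw1 hw2

theorem rs_right (a b : ℝ → ℝ) (Λ ρ lam : ℝ) (hΛ : 0 ≤ Λ) (hρ : 0 < ρ) (hlam : 1 ≤ lam)
    (ha : ∀ s t, 0 ≤ s → s ≤ t → a s ≤ a t ∧ a t - a s ≤ 2 * (t - s))
    (hb : ∀ s t, 0 ≤ s → s ≤ t → b s ≤ b t ∧ b t - b s ≤ 2 * (t - s))
    (x y : ℕ → ℝ) (n : ℕ) (hx : Monotone x) (hx0 : ∀ i, 0 ≤ x i) (hxL : ∀ i, i ≤ n → x i ≤ Λ)
    (hyL : ∀ i, i ≤ n → y i ≤ Λ) (hstep : ∀ i, i < n → x (i + 1) - x i ≤ ρ / 2) :
    lam * ∑ i ∈ Finset.range n,
      (if x i < y i ∧ lam * (b (y i) - b (x i) + ρ) < a (y i) - a (x i)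
        then b (x (i + 1)) - b (x i) else 0) ≤ a Λ - a 0 := by
  have ha' : ∀ s t, 0 ≤ s → s ≤ t → a s ≤ a t := fun s t h1 h2 => (ha s t h1 h2).1
  have hb' : ∀ s t, 0 ≤ s → s ≤ t → b s ≤ b t := fun s t h1 h2 => (hb s t h1 h2).1
  have hge := rsP_ge a b Λ lam hlam ha' hb'
  have hlam0 : 0 ≤ lam := by linarith
  have hstep' : ∀ i, i < n → lam *
      (if x i < y i ∧ lam * (b (y i) - b (x i) + ρ) < a (y i) - a (x i)
        then b (x (i + 1)) - b (x i) else 0) ≤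
      rsP a b Λ lam (x (i + 1)) - rsP a b Λ lam (x i) := by
    intro i hi
    have hxi := hx (Nat.le_succ i)
    have hxL1 := hxL (i + 1) hi
    have hbx := hb' (x i) (x (i + 1)) (hx0 i) hxi
    split_ifs with hbad
    · obtain ⟨hxy, hbd⟩ := hbad
      have hFv : ∀ v, x i ≤ v → v ≤ x (i + 1) → a v - lam * b v < a (y i) - lam * b (y i) := by
        intro v h1 h2
        have h3 := ha (x i) v (hx0 i) h1
        have h4 := hb' (x i) v (hx0 i) h1
        have h5 := hstep i hi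
        have h6 : lam * b (x i) ≤ lam * b v := mul_le_mul_of_nonneg_left h4 hlam0
        have h7 : ρ ≤ lam * ρ := le_mul_of_one_le_left hρ.le hlam
        linarith [h3.2]
      have hyx : x (i + 1) < y i := by
        by_contra h
        push Not at h
        exact lt_irrefl _ (hFv (y i) hxy.le h)
      have h8 : rsP a b Λ lam (x i) ≤ rsP a b Λ lam (x (i + 1)) -
          lam * (b (x (i + 1)) - b (x i)) := by
        refine rsP_le a b Λ lam (x i) _ (hxL i hi.le) fun v h1 h2 => ?_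
        rcases le_total v (x (i + 1)) with h | h
        · have h9 := hge (x (i + 1)) (y i) (hx0 _) hyx.le (hyL i hi.le)
          have h10 := hFv v h1 h
          linarith
        · have h9 := hge (x (i + 1)) v (hx0 _) h h2
          linarith
      linarith
    · rw [mul_zero, sub_nonneg]
      refine rsP_le a b Λ lam (x i) _ (hxL i hi.le) fun v h1 h2 => ?_
      rcases le_total v (x (i + 1)) with h | h
      · have h3 := hge (x (i + 1)) (x (i + 1)) (hx0 _) le_rfl hxL1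
        have h4 := ha' v (x (i + 1)) ((hx0 i).trans h1) h
        have h5 := hb' (x i) v (hx0 i) h1
        have h6 : 0 ≤ lam * (b v - b (x i)) := mul_nonneg hlam0 (by linarith)
        linarith
      · have h3 := hge (x (i + 1)) v (hx0 _) h h2
        have h4 : lam * b (x i) ≤ lam * b (x (i + 1)) := mul_le_mul_of_nonneg_left hbx hlam0
        linarith
  rw [Finset.mul_sum]
  have h1 := Finset.sum_le_sum fun i (hi : i ∈ Finset.range n) => hstep' i (Finset.mem_range.1 hi)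
  rw [Finset.sum_range_sub (fun i => rsP a b Λ lam (x i)) n] at h1
  have h2 : rsP a b Λ lam (x n) ≤ a Λ := by
    refine rsP_le a b Λ lam (x n) _ (hxL n le_rfl) fun v h1 h2 => ?_
    have h3 := ha' v Λ ((hx0 n).trans h1) h2
    have h4 := hb' (x n) v (hx0 n) h1
    have h5 : 0 ≤ lam * (b v - b (x n)) := mul_nonneg hlam0 (by linarith)
    linarith
  have h3 : a 0 ≤ rsP a b Λ lam (x 0) := by
    have h4 := hge (x 0) (x 0) (hx0 0) le_rfl (hxL 0 (Nat.zero_le _))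
    have h5 := ha' 0 (x 0) le_rfl (hx0 0)
    linarith
  linarith

theorem rs_left (a b : ℝ → ℝ) (Λ ρ lam : ℝ) (hΛ : 0 ≤ Λ) (hρ : 0 < ρ) (hlam : 1 ≤ lam)
    (ha : ∀ s t, 0 ≤ s → s ≤ t → a s ≤ a t ∧ a t - a s ≤ 2 * (t - s))
    (hb : ∀ s t, 0 ≤ s → s ≤ t → b s ≤ b t ∧ b t - b s ≤ 2 * (t - s))
    (x y : ℕ → ℝ) (n : ℕ) (hy : Monotone y) (hx0 : ∀ i, 0 ≤ x i) (hy0 : ∀ i, 0 ≤ y i)
    (hyL : ∀ i, i ≤ n → y i ≤ Λ) (hstep : ∀ i, i < n → y (i + 1) - y i ≤ ρ / 2) :
    lam * ∑ i ∈ Finset.range n,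
      (if x i < y i ∧ lam * (b (y i) - b (x i) + ρ) < a (y i) - a (x i)
        then b (y (i + 1)) - b (y i) else 0) ≤ a Λ - a 0 := by
  have ha' : ∀ s t, 0 ≤ s → s ≤ t → a s ≤ a t := fun s t h1 h2 => (ha s t h1 h2).1
  have hb' : ∀ s t, 0 ≤ s → s ≤ t → b s ≤ b t := fun s t h1 h2 => (hb s t h1 h2).1
  have hle := rsQ_le a b lam hlam ha' hb'
  have hlam0 : 0 ≤ lam := by linarith
  have hstep' : ∀ i, i < n → lam *
      (if x i < y i ∧ lam * (b (y i) - b (x i) + ρ) < a (y i) - a (x i)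
        then b (y (i + 1)) - b (y i) else 0) ≤
      rsQ a b lam (y (i + 1)) - rsQ a b lam (y i) := by
    intro i hi
    have hyi := hy (Nat.le_succ i)
    have hby := hb' (y i) (y (i + 1)) (hy0 i) hyi
    split_ifs with hbad
    · obtain ⟨hxy, hbd⟩ := hbad
      have h8 : rsQ a b lam (y i) + lam * (b (y (i + 1)) - b (y i)) ≤ rsQ a b lam (y (i + 1)) := by
        refine rsQ_ge a b lam (y (i + 1)) _ (hy0 _) fun v h1 h2 => ?_
        rcases le_total v (y i) with h | h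
        · have h9 := hle (y i) v h1 h
          linarith
        · have h9 := hle (y i) (x i) (hx0 i) hxy.le
          have h3 := ha' (y i) v (hy0 i) h
          have h4 := (hb (y i) v (hy0 i) h).2
          have h5 := hstep i hi
          have h6 : lam * (b v - b (y i)) ≤ lam * ρ :=
            mul_le_mul_of_nonneg_left (by linarith) hlam0
          linarith
      linarith
    · rw [mul_zero, sub_nonneg]
      refine rsQ_ge a b lam (y (i + 1)) _ (hy0 _) fun v h1 h2 => ?_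
      rcases le_total v (y i) with h | h
      · have h9 := hle (y i) v h1 h
        have h4 : lam * b (y i) ≤ lam * b (y (i + 1)) := mul_le_mul_of_nonneg_left hby hlam0
        linarith
      · have h9 := hle (y i) (y i) (hy0 i) le_rfl
        have h3 := ha' (y i) v (hy0 i) h
        have h4 := hb' v (y (i + 1)) h1 h2
        have h6 : 0 ≤ lam * (b (y (i + 1)) - b v) := mul_nonneg hlam0 (by linarith)
        linarith
  rw [Finset.mul_sum]
  have h1 := Finset.sum_le_sum fun i (hi : i ∈ Finset.range n) => hstep' i (Finset.mem_range.1 hi)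
  rw [Finset.sum_range_sub (fun i => rsQ a b lam (y i)) n] at h1
  have h2 : rsQ a b lam (y n) ≤ a Λ := by
    have h4 := hle (y n) (y n) (hy0 n) le_rfl
    have h5 := ha' (y n) Λ (hy0 n) (hyL n le_rfl)
    linarith
  have h3 : a 0 ≤ rsQ a b lam (y 0) := by
    refine rsQ_ge a b lam (y 0) _ (hy0 _) fun v h1 h2 => ?_
    have h3 := ha' 0 v le_rfl h1
    have h4 := hb' v (y 0) h1 h2
    have h5 : 0 ≤ lam * (b (y 0) - b v) := mul_nonneg hlam0 (by linarith)
    linarith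
  linarith

end calcs

end Pool.Agent.Helper41.SK
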