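import Pool.Agent.Helper41.SK.Defs
import Pool.Agent.Helper41.SK.MainDefs
import Pool.Agent.Helper41.SK.SC07

set_option autoImplicit false

open scoped ENNReal NNReal Topology
open MeasureTheory ProbabilityTheory Set Filter

namespace Pool.Agent.Helper41.SK


/-! ## TARGETS: prove these (statements must not be changed; helper lemmas are welcome) -/

section calcs

variable {Ω : Type*}

theorem log_max_log (m : ℕ) (r : ℝ) (hr : 0 ≤ r) (hm : r ≤ 2 ^ m) :
    Real.log (3 + 2 * r) ≤ 2 + ∑ k ∈ Finset.range m, (if (2:ℝ) ^ k < r then (1:ℝ) else 0) := by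
  have hl7 : Real.log 7 ≤ 2 := by
    rw [Real.log_le_iff_le_exp (by norm_num)]
    have h1 : (2.7182818283 : ℝ) < Real.exp 1 := Real.exp_one_gt_d9
    have h2 : Real.exp 2 = Real.exp 1 * Real.exp 1 := by
      rw [← Real.exp_add]; norm_num
    rw [h2]
    nlinarith
  induction m with
  | zero =>
    have h1 : r ≤ 1 := by simpa using hm
    have h2 : Real.log (3 + 2 * r) ≤ Real.log 7 := Real.log_le_log (by linarith) (by linarith)
    simp only [Finset.range_zero, Finset.sum_empty]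
    linarith
  | succ m ih =>
    by_cases h : r ≤ 2 ^ m
    · have := ih h
      rw [Finset.sum_range_succ, if_neg (not_lt.mpr h), add_zero]
      exact this
    · push Not at h
      have h1 : ∑ k ∈ Finset.range (m + 1), (if (2:ℝ) ^ k < r then (1:ℝ) else 0) = (m : ℝ) + 1 := by
        have : ∀ k ∈ Finset.range (m + 1), (if (2:ℝ) ^ k < r then (1:ℝ) else 0) = 1 := by
          intro k hk
          have hk' : k ≤ m := Nat.lt_succ_iff.mp (Finset.mem_range.mp hk)
          have : (2:ℝ) ^ k ≤ 2 ^ m := pow_le_pow_right₀ (by norm_num) hk'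
          rw [if_pos (this.trans_lt h)]
        rw [Finset.sum_congr rfl this]
        simp
      rw [h1]
      have h2 : (1:ℝ) ≤ 2 ^ m := one_le_pow₀ (by norm_num)
      have h3 : 3 + 2 * r ≤ 7 * 2 ^ m := by
        have : (2:ℝ) ^ (m + 1) = 2 * 2 ^ m := by ring
        rw [this] at hm
        linarith
      have h4 : Real.log (3 + 2 * r) ≤ Real.log (7 * 2 ^ m) :=
        Real.log_le_log (by linarith) h3
      rw [Real.log_mul (by norm_num) (by positivity), Real.log_pow] at h4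
      have h5 : Real.log 2 ≤ 1 := by
        have := Real.log_two_lt_d9
        linarith
      have h6 : (m : ℝ) * Real.log 2 ≤ m * 1 := mul_le_mul_of_nonneg_left h5 (Nat.cast_nonneg m)
      linarith

theorem log_max_tel (f : ℕ → ℝ) (n : ℕ) :
    ∑ i ∈ Finset.range n, (f (i + 1) - f i) = f n - f 0 := Finset.sum_range_sub f n

/-- the sum over the bad indices, from a bound of the `rs` type -/
theorem log_max_bad (n k : ℕ) (P Q : ℕ → Prop) [DecidablePred P] [DecidablePred Q] (B : ℕ → ℝ)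
    (hB : ∀ i, 0 ≤ B i) (hPQ : ∀ i, P i → Q i) (K : ℝ)
    (h : (2:ℝ) ^ k * ∑ i ∈ Finset.range n, (if Q i then B i else 0) ≤ K) :
    ∑ i ∈ Finset.range n, (if P i then B i else 0) ≤ K * (1 / (2:ℝ)) ^ k := by
  have h1 : ∑ i ∈ Finset.range n, (if P i then B i else 0) ≤
      ∑ i ∈ Finset.range n, (if Q i then B i else 0) := by
    apply Finset.sum_le_sum
    intro i _
    by_cases hp : P i
    · rw [if_pos hp, if_pos (hPQ i hp)]
    · rw [if_neg hp]
      split_ifs
      · exact hB i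
      · exact le_refl _
  have h2 : (2:ℝ) ^ k * ∑ i ∈ Finset.range n, (if P i then B i else 0) ≤ K :=
    (mul_le_mul_of_nonneg_left h1 (by positivity)).trans h
  rw [one_div, inv_pow, ← div_eq_mul_inv, le_div_iff₀ (by positivity)]
  linarith

/-- the pointwise bad-set inclusion -/
theorem log_max_incl (φ ψ : ℝ → ℝ) (hφ : ∀ s t, 0 ≤ s → 0 ≤ t → |φ s - φ t| ≤ |s - t|)
    (η ρ : ℝ)
    (hη : ∀ s, 0 ≤ s → |φ s - ψ s| ≤ η) (hρ : 0 < ρ) (hηρ : 2 * η ≤ ρ)
    (x y lam : ℝ) (hx : 0 ≤ x) (hy : 0 ≤ y) (hlam : 1 ≤ lam)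
    (h : lam < max (y + φ y - (x + ψ x)) 0 / (max (y - φ y - (x - ψ x)) 0 + 2 * ρ)) :
    (x < y ∧ lam * ((y - ψ y) - (x - ψ x) + ρ) < (y + ψ y) - (x + ψ x)) ∧
    (x < y ∧ lam * ((y - φ y) - (x - φ x) + ρ) < (y + φ y) - (x + φ x)) := by
  have hg0 : 0 ≤ max (y - φ y - (x - ψ x)) 0 := le_max_right _ _
  have hg1 : y - φ y - (x - ψ x) ≤ max (y - φ y - (x - ψ x)) 0 := le_max_left _ _
  have hpos : 0 < max (y - φ y - (x - ψ x)) 0 + 2 * ρ := by linarith
  rw [lt_div_iff₀ hpos] at h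
  have hη0 : 0 ≤ η := (abs_nonneg _).trans (hη 0 le_rfl)
  have h1 : lam * (max (y - φ y - (x - ψ x)) 0 + 2 * ρ) ≥
      1 * (max (y - φ y - (x - ψ x)) 0 + 2 * ρ) := mul_le_mul_of_nonneg_right hlam hpos.le
  have hα : 0 < y + φ y - (x + ψ x) := by
    by_contra hcon
    push Not at hcon
    rw [max_eq_right hcon] at h
    linarith
  rw [max_eq_left hα.le] at h
  have hxe := abs_le.mp (hη x hx)
  have hye := abs_le.mp (hη y hy)
  have hxy : x < y := by
    by_contra hcon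
    push Not at hcon
    have h2 := hφ y x hy hx
    rw [abs_of_nonpos (by linarith : y - x ≤ 0)] at h2
    have h3 := abs_le.mp h2
    linarith [h3.2]
  have h4 : lam * (y - φ y - (x - ψ x) + 2 * ρ) ≤
      lam * (max (y - φ y - (x - ψ x)) 0 + 2 * ρ) :=
    mul_le_mul_of_nonneg_left (by linarith) (by linarith)
  have h5 : 1 * (ρ - η) ≤ lam * (ρ - η) := mul_le_mul_of_nonneg_right hlam (by linarith)
  refine ⟨⟨hxy, ?_⟩, ⟨hxy, ?_⟩⟩
  · have h6 : lam * ((y - ψ y) - (x - ψ x) + ρ) ≤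
        lam * (y - φ y - (x - ψ x) + η + ρ) :=
      mul_le_mul_of_nonneg_left (by linarith [hye.1, hye.2]) (by linarith)
    nlinarith [hye.1, hye.2]
  · have h6 : lam * ((y - φ y) - (x - φ x) + ρ) ≤
        lam * (y - φ y - (x - ψ x) + η + ρ) :=
      mul_le_mul_of_nonneg_left (by linarith [hxe.1, hxe.2]) (by linarith)
    nlinarith [hxe.1, hxe.2]

theorem log_max_incr (φ : ℝ → ℝ) (hφ : ∀ s t, 0 ≤ s → 0 ≤ t → |φ s - φ t| ≤ |s - t|) :
    (∀ s t, 0 ≤ s → s ≤ t → s + φ s ≤ t + φ t ∧ (t + φ t) - (s + φ s) ≤ 2 * (t - s)) ∧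
    (∀ s t, 0 ≤ s → s ≤ t → s - φ s ≤ t - φ t ∧ (t - φ t) - (s - φ s) ≤ 2 * (t - s)) := by
  constructor
  · intro s t hs hst
    have h := hφ t s (hs.trans hst) hs
    rw [abs_of_nonneg (sub_nonneg.mpr hst)] at h
    have := abs_le.mp h
    constructor <;> linarith [this.1, this.2]
  · intro s t hs hst
    have h := hφ t s (hs.trans hst) hs
    rw [abs_of_nonneg (sub_nonneg.mpr hst)] at h
    have := abs_le.mp h
    constructor <;> linarith [this.1, this.2]

theorem log_max (φ ψ : ℝ → ℝ) (hφ : ∀ s t, 0 ≤ s → 0 ≤ t → |φ s - φ t| ≤ |s - t|)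
    (hψ : ∀ s t, 0 ≤ s → 0 ≤ t → |ψ s - ψ t| ≤ |s - t|) (h0 : φ 0 = ψ 0) (η ρ D : ℝ)
    (hη : ∀ s, 0 ≤ s → |φ s - ψ s| ≤ η) (hρ : 0 < ρ) (hηρ : 2 * η ≤ ρ) (hD : 0 ≤ D)
    (x y : ℕ → ℝ) (n : ℕ) (hx : Monotone x) (hy : Monotone y) (hx0 : x 0 = 0) (hy0 : y 0 = 0)
    (hsx : ∀ i, i < n → x (i + 1) - x i ≤ ρ / 2) (hsy : ∀ i, i < n → y (i + 1) - y i ≤ ρ / 2)
    (d g : ℕ → ℝ)
    (hd : ∀ i, d i = min (max (y i + φ (y i) - (x i + ψ (x i))) 0 / 2) D + ρ)
    (hg : ∀ i, g i = max (y i - φ (y i) - (x i - ψ (x i))) 0 / 2 + ρ) :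
    ∑ i ∈ Finset.range n, Real.log (1 + 2 * d i / g i) *
      ((x (i + 1) - ψ (x (i + 1)) - (x i - ψ (x i))) / 2 + |g (i + 1) - g i|) ≤
      10 * (x n + y n) := by
  classical
  obtain ⟨hai, hbi⟩ := log_max_incr φ hφ
  obtain ⟨hai', hbi'⟩ := log_max_incr ψ hψ
  have hxn : ∀ i, 0 ≤ x i := fun i => hx0 ▸ hx (Nat.zero_le i)
  have hyn : ∀ i, 0 ≤ y i := fun i => hy0 ▸ hy (Nat.zero_le i)
  set r : ℕ → ℝ := fun i => max (y i + φ (y i) - (x i + ψ (x i))) 0 /
    (max (y i - φ (y i) - (x i - ψ (x i))) 0 + 2 * ρ) with hr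
  have hr0 : ∀ i, 0 ≤ r i := by
    intro i
    have h1 : 0 ≤ max (y i - φ (y i) - (x i - ψ (x i))) 0 := le_max_right _ _
    exact div_nonneg (le_max_right _ _) (by linarith)
  obtain ⟨m, hm⟩ := pow_unbounded_of_one_lt (∑ i ∈ Finset.range n, r i) (one_lt_two)
  have hrm : ∀ i ∈ Finset.range n, r i ≤ 2 ^ m := fun i hi =>
    (Finset.single_le_sum (fun j _ => hr0 j) hi).trans hm.le
  set Λ : ℝ := max (x n) (y n) with hΛ
  have hΛ0 : 0 ≤ Λ := (hxn n).trans (le_max_left _ _)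
  have hxL : ∀ i, i ≤ n → x i ≤ Λ := fun i hi => (hx hi).trans (le_max_left _ _)
  have hyL : ∀ i, i ≤ n → y i ≤ Λ := fun i hi => (hy hi).trans (le_max_right _ _)
  set B : ℕ → ℝ := fun i => (x (i + 1) - ψ (x (i + 1))) - (x i - ψ (x i)) with hB
  set C : ℕ → ℝ := fun i => (y (i + 1) - φ (y (i + 1))) - (y i - φ (y i)) with hC
  have hB0 : ∀ i, 0 ≤ B i := fun i =>
    sub_nonneg.mpr (hbi' (x i) (x (i + 1)) (hxn i) (hx (Nat.le_succ i))).1
  have hC0 : ∀ i, 0 ≤ C i := fun i =>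
    sub_nonneg.mpr (hbi (y i) (y (i + 1)) (hyn i) (hy (Nat.le_succ i))).1
  -- the pointwise bound
  have hpt : ∀ i ∈ Finset.range n, Real.log (1 + 2 * d i / g i) *
      ((x (i + 1) - ψ (x (i + 1)) - (x i - ψ (x i))) / 2 + |g (i + 1) - g i|) ≤
      (2 + ∑ k ∈ Finset.range m, (if (2:ℝ) ^ k < r i then (1:ℝ) else 0)) * (B i + C i / 2) := by
    intro i hi
    have hgm : 0 ≤ max (y i - φ (y i) - (x i - ψ (x i))) 0 := le_max_right _ _
    have ham : 0 ≤ max (y i + φ (y i) - (x i + ψ (x i))) 0 := le_max_right _ _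
    have hgpos : 0 < g i := by rw [hg i]; linarith
    have hdpos : 0 ≤ d i := by
      rw [hd i]
      have : 0 ≤ min (max (y i + φ (y i) - (x i + ψ (x i))) 0 / 2) D :=
        le_min (by linarith) hD
      linarith
    have hdle : d i ≤ max (y i + φ (y i) - (x i + ψ (x i))) 0 / 2 + ρ := by
      rw [hd i]
      have := min_le_left (max (y i + φ (y i) - (x i + ψ (x i))) 0 / 2) D
      linarith
    have h1 : 2 * d i / g i ≤ 2 + 2 * r i := by
      rw [div_le_iff₀ hgpos]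
      have h2 : r i * (max (y i - φ (y i) - (x i - ψ (x i))) 0 + 2 * ρ) =
          max (y i + φ (y i) - (x i + ψ (x i))) 0 := by
        rw [hr]
        have hne : 0 < max (y i - φ (y i) - (x i - ψ (x i))) 0 + 2 * ρ := by linarith
        exact div_mul_cancel₀ _ hne.ne'
      have h3 : g i = (max (y i - φ (y i) - (x i - ψ (x i))) 0 + 2 * ρ) / 2 := by
        rw [hg i]; ring
      rw [h3]
      nlinarith
    have h4 : 0 ≤ 2 * d i / g i := by positivity
    have h5 : Real.log (1 + 2 * d i / g i) ≤ Real.log (3 + 2 * r i) :=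
      Real.log_le_log (by linarith) (by linarith)
    have h6 := h5.trans (log_max_log m (r i) (hr0 i) (hrm i hi))
    have h7 : 0 ≤ Real.log (1 + 2 * d i / g i) := Real.log_nonneg (by linarith)
    have h8 : |g (i + 1) - g i| ≤ (B i + C i) / 2 := by
      rw [hg (i + 1), hg i]
      have h9 := abs_max_sub_max_le_abs (y (i + 1) - φ (y (i + 1)) - (x (i + 1) - ψ (x (i + 1))))
        (y i - φ (y i) - (x i - ψ (x i))) 0
      have h10 : |y (i + 1) - φ (y (i + 1)) - (x (i + 1) - ψ (x (i + 1))) -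
          (y i - φ (y i) - (x i - ψ (x i)))| ≤ B i + C i := by
        have h11 : y (i + 1) - φ (y (i + 1)) - (x (i + 1) - ψ (x (i + 1))) -
          (y i - φ (y i) - (x i - ψ (x i))) = C i - B i := by
          rw [hB, hC]; ring
        rw [h11, abs_le]
        constructor <;> linarith [hB0 i, hC0 i]
      have h12 : max (y (i + 1) - φ (y (i + 1)) - (x (i + 1) - ψ (x (i + 1)))) 0 / 2 + ρ -
          (max (y i - φ (y i) - (x i - ψ (x i))) 0 / 2 + ρ) =
          (max (y (i + 1) - φ (y (i + 1)) - (x (i + 1) - ψ (x (i + 1)))) 0 -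
          max (y i - φ (y i) - (x i - ψ (x i))) 0) / 2 := by ring
      rw [h12, abs_div, abs_of_pos (by norm_num : (0:ℝ) < 2)]
      linarith
    have h13 : (x (i + 1) - ψ (x (i + 1)) - (x i - ψ (x i))) / 2 + |g (i + 1) - g i| ≤
        B i + C i / 2 := by
      have : (x (i + 1) - ψ (x (i + 1)) - (x i - ψ (x i))) = B i := rfl
      rw [this]
      linarith
    have h14 : 0 ≤ (x (i + 1) - ψ (x (i + 1)) - (x i - ψ (x i))) / 2 + |g (i + 1) - g i| := by
      have : (x (i + 1) - ψ (x (i + 1)) - (x i - ψ (x i))) = B i := rfl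
      rw [this]
      have := hB0 i
      positivity
    exact mul_le_mul h6 h13 h14 (h7.trans h6)
  have hbad : ∀ k, ∑ i ∈ Finset.range n, (if (2:ℝ) ^ k < r i then (B i + C i / 2) else 0) ≤
      3 * Λ * (1 / (2:ℝ)) ^ k := by
    intro k
    have hlam : (1:ℝ) ≤ 2 ^ k := one_le_pow₀ (by norm_num)
    have h1 := rs_right (fun l => l + ψ l) (fun l => l - ψ l) Λ ρ (2 ^ k) hΛ0 hρ hlam hai' hbi'
      x y n hx hxn hxL hyL hsx
    have h2 := rs_left (fun l => l + φ l) (fun l => l - φ l) Λ ρ (2 ^ k) hΛ0 hρ hlam hai hbi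
      x y n hy hxn hyn hyL hsy
    have h3 := (hai' 0 Λ le_rfl hΛ0).2
    have h4 := (hai 0 Λ le_rfl hΛ0).2
    have h5 := log_max_bad n k (fun i => (2:ℝ) ^ k < r i) _ B hB0
      (fun i hi => (log_max_incl φ ψ hφ η ρ hη hρ hηρ (x i) (y i) (2 ^ k) (hxn i) (hyn i)
        hlam hi).1) (2 * Λ) (h1.trans (by simpa using h3))
    have h6 := log_max_bad n k (fun i => (2:ℝ) ^ k < r i) _ C hC0
      (fun i hi => (log_max_incl φ ψ hφ η ρ hη hρ hηρ (x i) (y i) (2 ^ k) (hxn i) (hyn i)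
        hlam hi).2) (2 * Λ) (h2.trans (by simpa using h4))
    have h7 : ∑ i ∈ Finset.range n, (if (2:ℝ) ^ k < r i then (B i + C i / 2) else 0) =
        ∑ i ∈ Finset.range n, (if (2:ℝ) ^ k < r i then B i else 0) +
        (∑ i ∈ Finset.range n, (if (2:ℝ) ^ k < r i then C i else 0)) / 2 := by
      rw [Finset.sum_div, ← Finset.sum_add_distrib]
      apply Finset.sum_congr rfl
      intro i _
      split_ifs <;> simp
    rw [h7]
    linarith
  have hgeo : ∑ k ∈ Finset.range m, (1 / (2:ℝ)) ^ k ≤ 2 := sum_geometric_two_le m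
  have hΛle : Λ ≤ x n + y n := max_le (by linarith [hyn n]) (by linarith [hxn n])
  calc ∑ i ∈ Finset.range n, Real.log (1 + 2 * d i / g i) *
      ((x (i + 1) - ψ (x (i + 1)) - (x i - ψ (x i))) / 2 + |g (i + 1) - g i|)
      ≤ ∑ i ∈ Finset.range n,
        (2 + ∑ k ∈ Finset.range m, (if (2:ℝ) ^ k < r i then (1:ℝ) else 0)) * (B i + C i / 2) :=
        Finset.sum_le_sum hpt
    _ = 2 * ∑ i ∈ Finset.range n, B i + ∑ i ∈ Finset.range n, C i +
        ∑ k ∈ Finset.range m, ∑ i ∈ Finset.range n,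
          (if (2:ℝ) ^ k < r i then (B i + C i / 2) else 0) := by
        rw [Finset.sum_comm (s := Finset.range m), Finset.mul_sum, ← Finset.sum_add_distrib,
          ← Finset.sum_add_distrib]
        apply Finset.sum_congr rfl
        intro i _
        rw [add_mul, Finset.sum_mul]
        congr 1
        · ring
        · apply Finset.sum_congr rfl
          intro k _
          split_ifs <;> simp
    _ ≤ 2 * (2 * x n) + 2 * y n + ∑ k ∈ Finset.range m, 3 * Λ * (1 / (2:ℝ)) ^ k := by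
        have h1 : ∑ i ∈ Finset.range n, B i ≤ 2 * x n := by
          rw [hB, Finset.sum_range_sub (fun i => x i - ψ (x i)) n]
          have := (hbi' (x 0) (x n) (hxn 0) (hx (Nat.zero_le n))).2
          rw [hx0] at this ⊢
          linarith
        have h2 : ∑ i ∈ Finset.range n, C i ≤ 2 * y n := by
          rw [hC, Finset.sum_range_sub (fun i => y i - φ (y i)) n]
          have := (hbi (y 0) (y n) (hyn 0) (hy (Nat.zero_le n))).2
          rw [hy0] at this ⊢
          linarith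
        have h3 := Finset.sum_le_sum (fun k (_ : k ∈ Finset.range m) => hbad k)
        linarith
    _ ≤ 10 * (x n + y n) := by
        rw [← Finset.mul_sum]
        have h1 : 3 * Λ * ∑ k ∈ Finset.range m, (1 / (2:ℝ)) ^ k ≤ 3 * Λ * 2 :=
          mul_le_mul_of_nonneg_left hgeo (by positivity)
        linarith [hyn n, hxn n]

end calcs

end Pool.Agent.Helper41.SK
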