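import Pool.Agent.Helper41.SK.Defs
import Pool.Agent.Helper41.SK.MainDefs
import Pool.Agent.Helper41.SK.SC05

set_option autoImplicit false

open scoped ENNReal NNReal Topology
open MeasureTheory ProbabilityTheory Set Filter

namespace Pool.Agent.Helper41.SK


/-! ## TARGETS: prove these (statements must not be changed; helper lemmas are welcome) -/

section calcs

variable {Ω : Type*}

theorem int_vanish (f : ℝ → ℝ) (a b : ℝ) (h : ∀ z ∈ Set.uIcc a b, f z = 0) :
    ∫ z in a..b, f z = 0 := by
  rw [intervalIntegral.integral_congr (g := fun _ => (0 : ℝ)) (fun z hz => h z hz)]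
  simp

theorem Wk_tf (e d g ρ D : ℝ) (he : 0 < e) (hρ : 0 < ρ) (hd : ρ ≤ d) (hD : d ≤ D) (hg : ρ ≤ g) :
    TF (Wk e d g) (fun y => -∫ z in (0:ℝ)..(max (-y) 0), wk e d g z)
      (fun y => wk e d g (max (-y) 0)) (2 * D / ρ + 1 / ρ + 1 / (e * ρ) + 2 / ρ ^ 2) := by
  obtain ⟨w0, wle, wneg, wbig, wlip, Q0, Qle⟩ := wk_facts e d g ρ he hρ hd hg
  have hdpos : 0 < d := lt_of_lt_of_le hρ hd
  have hgpos : 0 < g := lt_of_lt_of_le hρ hg
  have hDpos : 0 < D := lt_of_lt_of_le hdpos hD
  have hK : 0 ≤ 1 / (e * ρ) + 2 / ρ ^ 2 := by positivity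
  have wcont : Continuous (wk e d g) := by
    have : LipschitzWith (Real.toNNReal (1 / (e * ρ) + 2 / ρ ^ 2)) (wk e d g) := by
      apply LipschitzWith.of_dist_le_mul
      intro x y
      rw [Real.coe_toNNReal _ hK, Real.dist_eq, Real.dist_eq]
      exact wlip x y
    exact this.continuous
  have zwcont : Continuous (fun z => z * wk e d g z) := continuous_id.mul wcont
  -- A and B
  have hA : ∀ u, HasDerivAt (fun u => ∫ z in (0:ℝ)..u, wk e d g z) (wk e d g u) u := fun u =>
    intervalIntegral.integral_hasDerivAt_right (wcont.intervalIntegrable _ _)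
      (wcont.stronglyMeasurableAtFilter _ _) wcont.continuousAt
  have hB : ∀ u, HasDerivAt (fun u => ∫ z in (0:ℝ)..u, z * wk e d g z) (u * wk e d g u) u := fun u =>
    intervalIntegral.integral_hasDerivAt_right (zwcont.intervalIntegrable _ _)
      (zwcont.stronglyMeasurableAtFilter _ _) zwcont.continuousAt
  -- the first formula
  have e1 : ∀ y : ℝ, ∫ z in (0:ℝ)..(max (-y) 0), wk e d g z = ∫ z in (0:ℝ)..(-y), wk e d g z := by
    intro y
    rcases le_total y 0 with h | h
    · rw [max_eq_left (by linarith)]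
    · rw [max_eq_right (by linarith), intervalIntegral.integral_same]
      symm
      apply int_vanish
      intro z hz
      rw [Set.uIcc_of_ge (by linarith)] at hz
      exact wneg z hz.2
  have e2 : ∀ y : ℝ, Wk e d g y = (-y) * (∫ z in (0:ℝ)..(-y), wk e d g z) -
      ∫ z in (0:ℝ)..(-y), z * wk e d g z := by
    intro y
    obtain ⟨u, hu⟩ : ∃ u, u = max (-y) 0 := ⟨_, rfl⟩
    have hu0 : 0 ≤ u := by rw [hu]; exact le_max_right _ _
    have mcont : Continuous (fun z => min u z * wk e d g z) :=
      (continuous_const.min continuous_id).mul wcont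
    have fcont : Continuous (fun z => (u - min u z) * wk e d g z) :=
      (continuous_const.sub (continuous_const.min continuous_id)).mul wcont
    have h1 : Wk e d g y = ∫ z in (0:ℝ)..(2 * d), (u - min u z) * wk e d g z := by
      unfold Wk Qk Sk
      rw [← hu, mul_comm, ← intervalIntegral.integral_const_mul,
        ← intervalIntegral.integral_sub ((wcont.intervalIntegrable _ _).const_mul _)
          (mcont.intervalIntegrable _ _)]
      apply intervalIntegral.integral_congr
      intro z _
      show u * wk e d g z - min u z * wk e d g z = (u - min u z) * wk e d g z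
      ring
    have h2 : ∫ z in u..(2 * d), (u - min u z) * wk e d g z = 0 := by
      apply int_vanish
      intro z hz
      rcases le_total u (2 * d) with h | h
      · rw [Set.uIcc_of_le h] at hz
        rw [min_eq_left hz.1, sub_self, zero_mul]
      · rw [Set.uIcc_of_ge h] at hz
        rw [wbig z hz.1, mul_zero]
    have h3 : ∫ z in (0:ℝ)..(2 * d), (u - min u z) * wk e d g z =
        ∫ z in (0:ℝ)..u, (u - min u z) * wk e d g z := by
      rw [← intervalIntegral.integral_add_adjacent_intervals (fcont.intervalIntegrable 0 u)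
        (fcont.intervalIntegrable u (2 * d)), h2, add_zero]
    have h4 : ∫ z in (0:ℝ)..u, (u - min u z) * wk e d g z =
        u * (∫ z in (0:ℝ)..u, wk e d g z) - ∫ z in (0:ℝ)..u, z * wk e d g z := by
      rw [← intervalIntegral.integral_const_mul,
        ← intervalIntegral.integral_sub ((wcont.intervalIntegrable _ _).const_mul _)
          (zwcont.intervalIntegrable _ _)]
      apply intervalIntegral.integral_congr
      intro z hz
      rw [Set.uIcc_of_le hu0] at hz
      show (u - min u z) * wk e d g z = u * wk e d g z - z * wk e d g z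
      rw [min_eq_right hz.2]
      ring
    rw [h1, h3, h4]
    rcases le_total y 0 with h | h
    · rw [hu, max_eq_left (by linarith)]
    · rw [hu, max_eq_right (by linarith), intervalIntegral.integral_same,
        intervalIntegral.integral_same]
      rw [int_vanish (fun z => wk e d g z) 0 (-y), int_vanish (fun z => z * wk e d g z) 0 (-y)]
      · simp
      · intro z hz
        rw [Set.uIcc_of_ge (by linarith)] at hz
        show z * wk e d g z = 0
        rw [wneg z hz.2, mul_zero]
      · intro z hz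
        rw [Set.uIcc_of_ge (by linarith)] at hz
        exact wneg z hz.2
  have e3 : ∀ z, wk e d g (max z 0) = wk e d g z := by
    intro z
    rcases le_total z 0 with h | h
    · rw [max_eq_right h, wneg z h, wneg 0 le_rfl]
    · rw [max_eq_left h]
  have hneg : ∀ y : ℝ, HasDerivAt (fun y : ℝ => -y) (-1) y := fun y => hasDerivAt_neg y
  have hA' : ∀ y : ℝ, HasDerivAt (fun y => ∫ z in (0:ℝ)..(-y), wk e d g z)
      (wk e d g (-y) * (-1)) y := fun y => (hA (-y)).comp y (hneg y)
  have hB' : ∀ y : ℝ, HasDerivAt (fun y => ∫ z in (0:ℝ)..(-y), z * wk e d g z)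
      ((-y) * wk e d g (-y) * (-1)) y := fun y => (hB (-y)).comp y (hneg y)
  have hmaxlip : ∀ x y : ℝ, |max (-x) 0 - max (-y) 0| ≤ |x - y| := by
    intro x y
    have := abs_max_sub_max_le_abs (-x) (-y) 0
    calc |max (-x) 0 - max (-y) 0| ≤ |-x - -y| := this
      _ = |x - y| := by rw [show -x - -y = -(x - y) by ring, abs_neg]
  have hint0 : ∀ u : ℝ, 0 ≤ u → 0 ≤ ∫ z in (0:ℝ)..u, wk e d g z := fun u hu =>
    intervalIntegral.integral_nonneg hu (fun z _ => w0 z)
  have hintQ : ∀ u : ℝ, 0 ≤ u → ∫ z in (0:ℝ)..u, wk e d g z ≤ Qk e d g := by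
    intro u _
    unfold Qk
    rw [← intervalIntegral.integral_add_adjacent_intervals (wcont.intervalIntegrable 0 u)
      (wcont.intervalIntegrable u (2 * d))]
    rcases le_total u (2 * d) with h | h
    · have := intervalIntegral.integral_nonneg (μ := volume) h (fun z _ => w0 z)
      linarith
    · rw [int_vanish (wk e d g) u (2 * d), add_zero]
      intro z hz
      rw [Set.uIcc_of_ge h] at hz
      exact wbig z hz.1
  have hQ2 : Qk e d g ≤ 2 * D / ρ := by
    have h1 : Real.log (1 + 2 * d / g) ≤ 2 * d / g := by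
      have h2 : 0 < 1 + 2 * d / g := by positivity
      have := Real.log_le_sub_one_of_pos h2
      linarith
    have h2 : 2 * d / g ≤ 2 * D / ρ := by
      apply div_le_div₀ (by positivity) (by linarith) hρ hg
    linarith
  have hp1 : 0 ≤ 2 * D / ρ := by positivity
  have hp2 : 0 ≤ 1 / ρ := by positivity
  refine ⟨?_, ?_, ?_, ?_, ?_, ?_⟩
  · intro y
    have h1 : HasDerivAt (fun y => (-y) * (∫ z in (0:ℝ)..(-y), wk e d g z) -
      ∫ z in (0:ℝ)..(-y), z * wk e d g z)
      (((-1) * (∫ z in (0:ℝ)..(-y), wk e d g z) + (-y) * (wk e d g (-y) * (-1))) -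
        ((-y) * wk e d g (-y) * (-1))) y := ((hneg y).mul (hA' y)).sub (hB' y)
    have h2 : Wk e d g = fun y => (-y) * (∫ z in (0:ℝ)..(-y), wk e d g z) -
      ∫ z in (0:ℝ)..(-y), z * wk e d g z := funext e2
    rw [h2]
    show HasDerivAt _ (-∫ z in (0:ℝ)..(max (-y) 0), wk e d g z) y
    rw [e1]
    convert h1 using 1
    ring
  · intro y
    show HasDerivAt (fun y => -∫ z in (0:ℝ)..(max (-y) 0), wk e d g z)
      (wk e d g (max (-y) 0)) y
    have h2 : (fun y : ℝ => -∫ z in (0:ℝ)..(max (-y) 0), wk e d g z) =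
        fun y => -∫ z in (0:ℝ)..(-y), wk e d g z := by
      funext y
      rw [e1]
    rw [h2, e3]
    have h1 : HasDerivAt (fun y => -∫ z in (0:ℝ)..(-y), wk e d g z)
      (-(wk e d g (-y) * (-1))) y := (hA' y).fun_neg
    have h3 : wk e d g (-y) = -(wk e d g (-y) * (-1)) := by ring
    rw [h3]
    exact h1
  · simp
  · intro y
    show |-∫ z in (0:ℝ)..(max (-y) 0), wk e d g z| ≤ _
    rw [abs_neg, abs_of_nonneg (hint0 _ (le_max_right _ _))]
    have := hintQ _ (le_max_right (-y) 0)
    linarith
  · intro y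
    show |wk e d g (max (-y) 0)| ≤ _
    rw [abs_of_nonneg (w0 _)]
    have h1 := wle (max (-y) 0)
    have h2 : 1 / (g + max (max (-y) 0) 0) ≤ 1 / ρ := by
      apply one_div_le_one_div_of_le hρ
      have := le_max_right (max (-y) 0) 0
      linarith
    linarith
  · intro x y
    show |wk e d g (max (-x) 0) - wk e d g (max (-y) 0)| ≤ _
    calc |wk e d g (max (-x) 0) - wk e d g (max (-y) 0)|
        ≤ (1 / (e * ρ) + 2 / ρ ^ 2) * |max (-x) 0 - max (-y) 0| := wlip _ _
      _ ≤ (1 / (e * ρ) + 2 / ρ ^ 2) * |x - y| := mul_le_mul_of_nonneg_left (hmaxlip x y) hK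
      _ ≤ (2 * D / ρ + 1 / ρ + 1 / (e * ρ) + 2 / ρ ^ 2) * |x - y| :=
          mul_le_mul_of_nonneg_right (by linarith) (abs_nonneg _)

theorem meas_int {α : Type} [MeasurableSpace α] (F : α → ℝ → ℝ)
    (hF : Measurable (Function.uncurry F)) (b : α → ℝ) (hb : Measurable b) :
    Measurable (fun a => ∫ z in (0:ℝ)..(b a), F a z) := by
  have h : (fun a => ∫ z in (0:ℝ)..(b a), F a z) = fun a =>
      (∫ z, (Set.Ioc 0 (b a)).indicator (F a) z) - ∫ z, (Set.Ioc (b a) 0).indicator (F a) z := by
    ext a
    rw [intervalIntegral, integral_indicator measurableSet_Ioc,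
      integral_indicator measurableSet_Ioc]
  rw [h]
  refine Measurable.sub ?_ ?_
  · refine (StronglyMeasurable.integral_prod_right
      (f := fun a z => (Set.Ioc 0 (b a)).indicator (F a) z)
      (Measurable.stronglyMeasurable ?_)).measurable
    have h2 : (Function.uncurry fun a z => (Set.Ioc 0 (b a)).indicator (F a) z) =
        Set.indicator {p : α × ℝ | 0 < p.2 ∧ p.2 ≤ b p.1} (Function.uncurry F) := by
      ext p
      rfl
    rw [h2]
    refine hF.indicator ?_
    exact (measurableSet_lt measurable_const measurable_snd).inter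
      (measurableSet_le measurable_snd (hb.comp measurable_fst))
  · refine (StronglyMeasurable.integral_prod_right
      (f := fun a z => (Set.Ioc (b a) 0).indicator (F a) z)
      (Measurable.stronglyMeasurable ?_)).measurable
    have h2 : (Function.uncurry fun a z => (Set.Ioc (b a) 0).indicator (F a) z) =
        Set.indicator {p : α × ℝ | b p.1 < p.2 ∧ p.2 ≤ 0} (Function.uncurry F) := by
      ext p
      rfl
    rw [h2]
    refine hF.indicator ?_
    exact (measurableSet_lt (hb.comp measurable_fst) measurable_snd).inter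
      (measurableSet_le measurable_snd measurable_const)

theorem wk_meas (e : ℝ) : Measurable (fun p : ℝ × ℝ × ℝ => wk e p.1 p.2.1 p.2.2) ∧
    Measurable (fun p : ℝ × ℝ => Qk e p.1 p.2) ∧
    Measurable (fun p : ℝ × ℝ × ℝ => Sk e p.1 p.2.1 p.2.2) := by
  have h1 : Measurable (fun p : ℝ × ℝ × ℝ => wk e p.1 p.2.1 p.2.2) := by
    unfold wk
    fun_prop
  refine ⟨h1, ?_, ?_⟩
  · unfold Qk
    refine meas_int (fun (p : ℝ × ℝ) z => wk e p.1 p.2 z) ?_ (fun p => 2 * p.1) (by fun_prop)
    exact h1.comp (f := fun q : (ℝ × ℝ) × ℝ => (q.1.1, q.1.2, q.2)) (by fun_prop)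
  · unfold Sk
    refine meas_int (fun (p : ℝ × ℝ × ℝ) z => min (max (-p.2.2) 0) z * wk e p.1 p.2.1 z) ?_
      (fun p => 2 * p.1) (by fun_prop)
    refine Measurable.mul ?_ ?_
    · show Measurable (fun q : (ℝ × ℝ × ℝ) × ℝ => min (max (-q.1.2.2) 0) q.2)
      fun_prop
    · exact h1.comp (f := fun q : (ℝ × ℝ × ℝ) × ℝ => (q.1.1, q.1.2.1, q.2)) (by fun_prop)

end calcs

end Pool.Agent.Helper41.SK
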