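import Pool.Agent.Helper41.SK.Defs
import Pool.Agent.Helper41.SK.MainDefs
import Pool.Agent.Helper41.SK.SA01
import Pool.Agent.Helper41.SK.SA03
import Pool.Agent.Helper41.SK.SA04
import Pool.Agent.Helper41.SK.SC01
import Pool.Agent.Helper41.SK.SC02
import Pool.Agent.Helper41.SK.SC05
import Pool.Agent.Helper41.SK.SC06

set_option autoImplicit false

open scoped ENNReal NNReal Topology
open MeasureTheory ProbabilityTheory Set Filter

namespace Pool.Agent.Helper41.SK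


/-! ## TARGETS: prove these (statements must not be changed; helper lemmas are welcome) -/

theorem sl_tf_nonneg {f f1 f2 : ℝ → ℝ} {C : ℝ} (hf : TF f f1 f2 C) : 0 ≤ C :=
  (abs_nonneg _).trans (hf.b1 0)

theorem sl_taylor {f f1 f2 : ℝ → ℝ} {C : ℝ} (hf : TF f f1 f2 C) (x h : ℝ) :
    |f (x + h) - f x - f1 x * h - f2 x * h ^ 2 / 2| ≤ C * |h| ^ 3 := by
  have hC := sl_tf_nonneg hf
  have hconv : Convex ℝ (Set.uIcc 0 h) := convex_uIcc 0 h
  have habs : ∀ t ∈ Set.uIcc 0 h, |t| ≤ |h| := by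
    intro t ht
    have := Set.abs_sub_left_of_mem_uIcc ht
    simpa using this
  have hd1 : ∀ t ∈ Set.uIcc 0 h, |f1 (x + t) - f1 x - f2 x * t| ≤ C * |h| * |h| := by
    intro t ht
    have h1 : ∀ u ∈ Set.uIcc 0 h, HasDerivWithinAt (fun u => f1 (x + u) - f1 x - f2 x * u)
        (f2 (x + u) - f2 x) (Set.uIcc 0 h) u := by
      intro u hu
      have a1 : HasDerivAt (fun u => f1 (x + u)) (f2 (x + u)) u := (hf.h2 (x + u)).comp_const_add x u
      have a2 : HasDerivAt (fun u => f2 x * u) (f2 x) u := by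
        simpa using (hasDerivAt_id u).const_mul (f2 x)
      exact ((a1.sub_const _).sub a2).hasDerivWithinAt
    have h2 : ∀ u ∈ Set.uIcc 0 h, ‖f2 (x + u) - f2 x‖ ≤ C * |h| := by
      intro u hu
      rw [Real.norm_eq_abs]
      refine (hf.lip _ _).trans ?_
      rw [add_sub_cancel_left]
      exact mul_le_mul_of_nonneg_left (habs u hu) hC
    have h3 := hconv.norm_image_sub_le_of_norm_hasDerivWithin_le h1 h2 Set.left_mem_uIcc ht
    have h4 : f1 (x + t) - f1 x - f2 x * t - (f1 (x + 0) - f1 x - f2 x * 0) =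
        f1 (x + t) - f1 x - f2 x * t := by rw [add_zero]; ring
    have h5 : ‖f1 (x + t) - f1 x - f2 x * t - (f1 (x + 0) - f1 x - f2 x * 0)‖ ≤
        C * |h| * ‖t - 0‖ := h3
    rw [h4, sub_zero, Real.norm_eq_abs, Real.norm_eq_abs] at h5
    exact h5.trans (mul_le_mul_of_nonneg_left (habs t ht) (by positivity))
  have h1 : ∀ u ∈ Set.uIcc 0 h,
      HasDerivWithinAt (fun u => f (x + u) - f x - f1 x * u - f2 x * u ^ 2 / 2)
      (f1 (x + u) - f1 x - f2 x * u) (Set.uIcc 0 h) u := by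
    intro u hu
    have a1 : HasDerivAt (fun u => f (x + u)) (f1 (x + u)) u := (hf.h1 (x + u)).comp_const_add x u
    have a2 : HasDerivAt (fun u => f1 x * u) (f1 x) u := by
      simpa using (hasDerivAt_id u).const_mul (f1 x)
    have a3 : HasDerivAt (fun u : ℝ => f2 x * u ^ 2 / 2) (f2 x * u) u := by
      have := ((hasDerivAt_pow 2 u).const_mul (f2 x)).div_const 2
      convert! this using 1
      norm_num
      ring
    exact (((a1.sub_const _).sub a2).sub a3).hasDerivWithinAt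
  have h3 := hconv.norm_image_sub_le_of_norm_hasDerivWithin_le h1 (C := C * |h| * |h|)
    (fun u hu => by rw [Real.norm_eq_abs]; exact hd1 u hu) Set.left_mem_uIcc Set.right_mem_uIcc
  have h4 : f (x + h) - f x - f1 x * h - f2 x * h ^ 2 / 2 -
      (f (x + 0) - f x - f1 x * 0 - f2 x * 0 ^ 2 / 2) =
      f (x + h) - f x - f1 x * h - f2 x * h ^ 2 / 2 := by rw [add_zero]; ring
  have h5 : ‖f (x + h) - f x - f1 x * h - f2 x * h ^ 2 / 2 -
      (f (x + 0) - f x - f1 x * 0 - f2 x * 0 ^ 2 / 2)‖ ≤ C * |h| * |h| * ‖h - 0‖ := h3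
  rw [h4, sub_zero, Real.norm_eq_abs, Real.norm_eq_abs] at h5
  calc _ ≤ _ := h5
    _ = C * |h| ^ 3 := by ring

theorem sl_mvt {f f1 f2 : ℝ → ℝ} {C : ℝ} (hf : TF f f1 f2 C) (x y r : ℝ) (hx : |x| ≤ r)
    (hy : |y| ≤ r) : |f y - f x| ≤ C * min 1 r * |y - x| := by
  have hC := sl_tf_nonneg hf
  have h1 : ∀ z, |z| ≤ r → ‖f1 z‖ ≤ C * min 1 r := by
    intro z hz
    rw [Real.norm_eq_abs]
    rcases le_total 1 r with h | h
    · rw [min_eq_left h, mul_one]; exact hf.b1 z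
    · rw [min_eq_right h]
      have h3 := Convex.norm_image_sub_le_of_norm_hasDerivWithin_le (f := f1) (f' := f2)
        (s := Set.univ) (C := C) (fun u _ => (hf.h2 u).hasDerivWithinAt) (fun u _ => hf.b2 u)
        convex_univ (Set.mem_univ 0) (Set.mem_univ z)
      rw [hf.z, sub_zero, sub_zero, Real.norm_eq_abs, Real.norm_eq_abs] at h3
      exact h3.trans (mul_le_mul_of_nonneg_left hz hC)
  exact Convex.norm_image_sub_le_of_norm_hasDerivWithin_le (f := f) (f' := f1)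
    (s := Set.Icc (-r) r) (C := C * min 1 r) (fun u _ => (hf.h1 u).hasDerivWithinAt)
    (fun u hu => h1 u (abs_le.2 hu)) (convex_Icc _ _) (abs_le.1 hx) (abs_le.1 hy)

/-- one step -/
theorem sl_step (e ρ D d d' g g' b b' v v' m m' r : ℝ) (he : 0 < e) (hρ : 0 < ρ) (hd : ρ ≤ d)
    (hdD : d ≤ D) (hd' : ρ ≤ d') (hg : ρ ≤ g) (hg' : ρ ≤ g') (hv : |v' - v| ≤ m' - m)
    (hr0 : 0 ≤ r) (hr : v ≠ v' → |b' + v'| ≤ r ∧ |b' + v| ≤ r) :
    Sk e d' g' (b' + v') - Sk e d g (b + v) ≤ |d' - d| + Real.log (1 + 2 * d / g) * |g' - g|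
      + Qk e d g * (max (-(b' + v')) 0 - max (-(b + v)) 0)
      - (-∫ z in (0:ℝ)..(max (-(b + v)) 0), wk e d g z) * (b' - b)
      - wk e d g (max (-(b + v)) 0) * (b' - b) ^ 2 / 2
      + (2 * D / ρ + 1 / ρ + 1 / (e * ρ) + 2 / ρ ^ 2) * |b' - b| ^ 3
      + (2 * D / ρ + 1 / ρ + 1 / (e * ρ) + 2 / ρ ^ 2) * min 1 r * (m' - m) := by
  have hT := Wk_tf e d g ρ D he hρ hd hdD hg
  set C := (2 * D / ρ + 1 / ρ + 1 / (e * ρ) + 2 / ρ ^ 2) with hCdef
  have hC := sl_tf_nonneg hT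
  have h1 : Sk e d' g' (b' + v') - Sk e d g' (b' + v') ≤ |d' - d| :=
    (le_abs_self _).trans ((Sk_facts e d d' g' g' ρ he hρ hd hg' hd' hg').2.2.1 (b' + v'))
  have h2 : Sk e d g' (b' + v') - Sk e d g (b' + v') ≤ Real.log (1 + 2 * d / g) * |g' - g| :=
    (le_abs_self _).trans ((Sk_facts e d d g g' ρ he hρ hd hg hd hg').2.2.2 (b' + v'))
  have h3 : Sk e d g (b' + v') - Sk e d g (b + v) =
      Qk e d g * (max (-(b' + v')) 0 - max (-(b + v)) 0) -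
        (Wk e d g (b' + v') - Wk e d g (b + v)) := by
    unfold Wk; ring
  have h4 := sl_taylor hT (b + v) (b' - b)
  have h4' := (abs_le.1 h4).1
  have h5 : b + v + (b' - b) = b' + v := by ring
  rw [h5] at h4'
  have h6 : -(C * min 1 r * (m' - m)) ≤ Wk e d g (b' + v') - Wk e d g (b' + v) := by
    by_cases hvv : v = v'
    · rw [hvv, sub_self]
      have : 0 ≤ m' - m := (abs_nonneg _).trans hv
      have h7 : 0 ≤ C * min 1 r * (m' - m) :=
        mul_nonneg (mul_nonneg hC (le_min zero_le_one hr0)) this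
      linarith
    · obtain ⟨ha, hb⟩ := hr hvv
      have h7 := sl_mvt hT (b' + v) (b' + v') r hb ha
      have h8 : b' + v' - (b' + v) = v' - v := by ring
      rw [h8] at h7
      have h9 : C * min 1 r * |v' - v| ≤ C * min 1 r * (m' - m) :=
        mul_le_mul_of_nonneg_left hv (mul_nonneg hC (le_min zero_le_one hr0))
      have := (abs_le.1 (h7.trans h9)).1
      exact this
  linarith

theorem sl_w1meas (e : ℝ) : Measurable (fun p : ℝ × ℝ × ℝ =>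
    -∫ z in (0:ℝ)..(max (-p.2.2) 0), wk e p.1 p.2.1 z) := by
  have h : (fun p : ℝ × ℝ × ℝ => -∫ z in (0:ℝ)..(max (-p.2.2) 0), wk e p.1 p.2.1 z) =
      fun p => -∫ z, ({q : (ℝ × ℝ × ℝ) × ℝ | 0 < q.2 ∧ q.2 ≤ max (-q.1.2.2) 0}.indicator
        (fun q => wk e q.1.1 q.1.2.1 q.2)) (p, z) := by
    funext p
    rw [intervalIntegral.integral_of_le (le_max_right _ _), ← integral_indicator measurableSet_Ioc]
    rfl
  rw [h]
  have hm : MeasurableSet {q : (ℝ × ℝ × ℝ) × ℝ | 0 < q.2 ∧ q.2 ≤ max (-q.1.2.2) 0} := by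
    apply MeasurableSet.inter
    · exact measurableSet_lt measurable_const measurable_snd
    · exact measurableSet_le measurable_snd (by fun_prop)
  have hm2 : Measurable (fun q : (ℝ × ℝ × ℝ) × ℝ => wk e q.1.1 q.1.2.1 q.2) :=
    (wk_meas e).1.comp (by fun_prop : Measurable (fun q : (ℝ × ℝ × ℝ) × ℝ => (q.1.1, q.1.2.1, q.2)))
  exact ((hm2.indicator hm).stronglyMeasurable.integral_prod_right').measurable.neg

/-- Riemann sums -/
theorem sl_riem (Z : ℝ → ℝ) (hZ : Continuous Z) (T w : ℝ) (hT : 0 < T) (n : ℕ) (hn : 0 < n)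
    (hw : ∀ s t, 0 ≤ s → s ≤ T → 0 ≤ t → t ≤ T → |s - t| ≤ T / n → |Z s - Z t| ≤ w) :
    |(∑ i ∈ Finset.range n, Z (gp 0 T n i) * (T / n)) - ∫ s in (0:ℝ)..T, Z s| ≤ T * w := by
  obtain ⟨g0, g1, g2, g3, g4, g5, g6⟩ := gp_facts 0 T hT.le n hn
  have h1 : ∫ s in (0:ℝ)..T, Z s =
      ∑ i ∈ Finset.range n, ∫ s in (gp 0 T n i)..(gp 0 T n (i + 1)), Z s := by
    rw [intervalIntegral.sum_integral_adjacent_intervals
      (fun k _ => hZ.intervalIntegrable _ _), g0, g1]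
  have hn' : (0 : ℝ) < n := by exact_mod_cast hn
  rw [h1, ← Finset.sum_sub_distrib]
  refine (Finset.abs_sum_le_sum_abs _ _).trans ?_
  have h2 : ∀ i ∈ Finset.range n,
      |Z (gp 0 T n i) * (T / n) - ∫ s in (gp 0 T n i)..(gp 0 T n (i + 1)), Z s| ≤ w * (T / n) := by
    intro i hi
    have hi' := Finset.mem_range.1 hi
    have h3 : Z (gp 0 T n i) * (T / n) = ∫ s in (gp 0 T n i)..(gp 0 T n (i + 1)), Z (gp 0 T n i) := by
      rw [intervalIntegral.integral_const, g3, smul_eq_mul, sub_zero]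
      ring
    rw [h3, ← intervalIntegral.integral_sub (by simp) (hZ.intervalIntegrable _ _)]
    have h4 := intervalIntegral.norm_integral_le_of_norm_le_const (a := gp 0 T n i)
      (b := gp 0 T n (i + 1)) (f := fun s => Z (gp 0 T n i) - Z s) (C := w) (by
        intro s hs
        rw [uIoc_of_le (g2 i)] at hs
        rw [Real.norm_eq_abs]
        have hb := g5 (i + 1) (by omega)
        refine hw _ _ (g4 i) (g5 i (by omega)) ((g4 i).trans hs.1.le) (hs.2.trans hb) ?_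
        have := g3 i
        rw [sub_zero] at this
        rw [abs_sub_comm, abs_of_nonneg (by linarith [hs.1])]
        linarith [hs.2])
    rw [Real.norm_eq_abs, g3, sub_zero, abs_of_nonneg (by positivity : (0 : ℝ) ≤ T / n)] at h4
    exact h4
  refine (Finset.sum_le_sum h2).trans ?_
  rw [Finset.sum_const, Finset.card_range, nsmul_eq_mul]
  apply le_of_eq
  field_simp

section prob

variable {Ω : Type*} [mΩ : MeasurableSpace Ω] {P : Measure Ω} [IsProbabilityMeasure P]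
  {F : ℝ → MeasurableSpace Ω} {B : ℝ → Ω → ℝ} {c : ℝ} {ψ : ℝ → ℝ} {Y M : ℝ → Ω → ℝ}

theorem sl_indep (hB : BMF P F B) (s t : ℝ) (hs : 0 ≤ s) (hst : s ≤ t) (Q : Ω → ℝ)
    (hQ : Measurable[F s] Q) :
    ∫ ω, Q ω * (B t ω - B s ω) ∂P = 0 ∧
    ∫ ω, Q ω * (B t ω - B s ω) ^ 2 ∂P = (t - s) * ∫ ω, Q ω ∂P := by
  have hBm : ∀ t, 0 ≤ t → Measurable (B t) := fun t ht => (hB.adap t ht).mono (hB.le t) le_rfl
  have hQm : Measurable Q := hQ.mono (hB.le s) le_rfl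
  have hD : Measurable (fun ω => B t ω - B s ω) := (hBm t (hs.trans hst)).sub (hBm s hs)
  have hI : IndepFun (fun ω => B t ω - B s ω) Q P := by
    rw [IndepFun_iff_Indep]
    exact indep_of_indep_of_le_right (hB.indep s t hs hst) hQ.comap_le
  have hm := inc_mom hB s t hs hst
  constructor
  · have h1 := hI.symm.integral_fun_mul_eq_mul_integral hQm.aestronglyMeasurable
      hD.aestronglyMeasurable
    rw [h1, hm.1, mul_zero]
  · have hI2 : IndepFun (fun ω => (B t ω - B s ω) ^ 2) Q P :=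
      hI.comp (φ := fun x : ℝ => x ^ 2) (ψ := id) (by fun_prop) measurable_id
    have h1 := hI2.symm.integral_fun_mul_eq_mul_integral hQm.aestronglyMeasurable
      (hD.pow_const 2).aestronglyMeasurable
    rw [h1, hm.2.1]
    ring

theorem sl_psi (h' : SolC P F B c ψ Y M) (t : ℝ) (ht : 0 ≤ t) :
    Measurable[F t] (fun ω => ψ (M t ω)) := by
  have h1 : Continuous (fun x : ℝ => ψ (max x 0)) := by
    refine (LipschitzWith.of_dist_le_mul (K := 1) fun x y => ?_).continuous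
    rw [Real.dist_eq, Real.dist_eq, NNReal.coe_one, one_mul]
    refine (h'.lip _ _ (le_max_right _ _) (le_max_right _ _)).trans ?_
    exact abs_max_sub_max_le_abs _ _ _
  have h2 : (fun ω => ψ (M t ω)) = (fun x : ℝ => ψ (max x 0)) ∘ M t := by
    funext ω
    have : 0 ≤ M t ω := by
      rw [← h'.L0 ω]
      exact h'.Lmono ω 0 t le_rfl ht
    show ψ (M t ω) = ψ (max (M t ω) 0)
    rw [max_eq_left this]
  rw [h2]
  exact h1.measurable.comp (h'.Lad t ht)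

theorem sl_M0 (h' : SolC P F B c ψ Y M) (t : ℝ) (ht : 0 ≤ t) (ω : Ω) : 0 ≤ M t ω := by
  rw [← h'.L0 ω]
  exact h'.Lmono ω 0 t le_rfl ht

theorem sl_Mint (h' : SolC P F B c ψ Y M) (t : ℝ) (ht : 0 ≤ t) :
    Integrable (M t) P ∧ Integrable (fun ω => ψ (M t ω)) P ∧
      Integrable (fun ω => max (-Y t ω) 0) P := by
  have h1 : Integrable (M t) P := (h'.Lsq t ht).integrable (by norm_num)
  refine ⟨h1, ?_, ?_⟩
  · refine Integrable.mono' ((integrable_const |c|).add h1)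
      ((sl_psi h' t ht).mono (h'.bm.le t) le_rfl).aestronglyMeasurable
      (Eventually.of_forall fun ω => ?_)
    have h2 := h'.lip (M t ω) 0 (sl_M0 h' t ht ω) le_rfl
    rw [h'.c0, sub_zero, abs_of_nonneg (sl_M0 h' t ht ω)] at h2
    rw [Real.norm_eq_abs]
    have h3 : |ψ (M t ω)| ≤ |ψ (M t ω) - c| + |c| := by
      have := abs_add_le (ψ (M t ω) - c) c
      rwa [sub_add_cancel] at this
    show |ψ (M t ω)| ≤ |c| + M t ω
    linarith
  · have h2 : Integrable (Y t) P := (sol_l2 h' t ht).1.integrable (by norm_num)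
    exact h2.neg.sup (integrable_zero _ _ _)

theorem sl_mart (h' : SolC P F B c ψ Y M) (a b : ℝ) (ha : 0 ≤ a) (hab : a ≤ b) (Q : Ω → ℝ) (K : ℝ)
    (hQ : Measurable[F a] Q) (hQb : ∀ ω, |Q ω| ≤ K) :
    ∫ ω, Q ω * (max (-Y b ω) 0 - max (-Y a ω) 0) ∂P =
      ∫ ω, Q ω * (((M b ω - ψ (M b ω)) - (M a ω - ψ (M a ω))) / 2) ∂P := by
  have hb := ha.trans hab
  set Z : ℝ → Ω → ℝ := fun t ω => max (-Y t ω) 0 - (M t ω - ψ (M t ω)) / 2 with hZ
  have hZint : ∀ t, 0 ≤ t → Integrable (Z t) P := fun t ht =>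
    (sl_Mint h' t ht).2.2.sub (((sl_Mint h' t ht).1.sub (sl_Mint h' t ht).2.1).div_const 2)
  have hZm : Measurable[F a] (Z a) := by
    have h1 := h'.Xad a ha
    have h2 := h'.Lad a ha
    have h3 := sl_psi h' a ha
    exact (h1.neg.max measurable_const).sub ((h2.sub h3).div_const 2)
  have hQm : Measurable Q := hQ.mono (h'.bm.le a) le_rfl
  have hce : Z a =ᵐ[P] P[Z b | F a] := by
    refine ae_eq_condExp_of_forall_setIntegral_eq (h'.bm.le a) (hZint b hb)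
      (fun s _ _ => (hZint a ha).integrableOn) (fun s hs _ => ?_)
      hZm.stronglyMeasurable.aestronglyMeasurable
    exact (nm_mart h' a b ha hab s hs).symm
  have hQZ : ∀ t, 0 ≤ t → Integrable (fun ω => Q ω * Z t ω) P := fun t ht =>
    (hZint t ht).bdd_mul (c := K) hQm.aestronglyMeasurable (Eventually.of_forall hQb)
  have h1 : ∫ ω, Q ω * Z b ω ∂P = ∫ ω, Q ω * Z a ω ∂P := by
    have h2 : P[Q * Z b | F a] =ᵐ[P] Q * P[Z b | F a] :=
      condExp_mul_of_stronglyMeasurable_left hQ.stronglyMeasurable (hQZ b hb) (hZint b hb)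
    have h3 : ∫ ω, (Q * Z b) ω ∂P = ∫ ω, (P[Q * Z b | F a]) ω ∂P :=
      (integral_condExp (h'.bm.le a)).symm
    show ∫ ω, (Q * Z b) ω ∂P = _
    rw [h3]
    refine integral_congr_ae ?_
    filter_upwards [h2, hce] with ω h4 h5
    rw [h4, Pi.mul_apply, h5]
  have hQY : ∀ t, 0 ≤ t → Integrable (fun ω => Q ω * max (-Y t ω) 0) P := fun t ht =>
    (sl_Mint h' t ht).2.2.bdd_mul (c := K) hQm.aestronglyMeasurable (Eventually.of_forall hQb)
  have hQM : ∀ t, 0 ≤ t → Integrable (fun ω => Q ω * ((M t ω - ψ (M t ω)) / 2)) P := fun t ht =>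
    (((sl_Mint h' t ht).1.sub (sl_Mint h' t ht).2.1).div_const 2).bdd_mul (c := K)
      hQm.aestronglyMeasurable (Eventually.of_forall hQb)
  have h6 : ∀ t, 0 ≤ t → ∫ ω, Q ω * Z t ω ∂P =
      (∫ ω, Q ω * max (-Y t ω) 0 ∂P) - ∫ ω, Q ω * ((M t ω - ψ (M t ω)) / 2) ∂P := by
    intro t ht
    rw [← integral_sub (hQY t ht) (hQM t ht)]
    refine integral_congr_ae (Eventually.of_forall fun ω => ?_)
    show Q ω * (max (-Y t ω) 0 - (M t ω - ψ (M t ω)) / 2) = _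
    ring
  rw [h6 b hb, h6 a ha] at h1
  have h7 : ∫ ω, Q ω * (max (-Y b ω) 0 - max (-Y a ω) 0) ∂P =
      (∫ ω, Q ω * max (-Y b ω) 0 ∂P) - ∫ ω, Q ω * max (-Y a ω) 0 ∂P := by
    rw [← integral_sub (hQY b hb) (hQY a ha)]
    refine integral_congr_ae (Eventually.of_forall fun ω => ?_)
    show Q ω * (max (-Y b ω) 0 - max (-Y a ω) 0) = Q ω * max (-Y b ω) 0 - Q ω * max (-Y a ω) 0
    ring
  have h8 : ∫ ω, Q ω * (((M b ω - ψ (M b ω)) - (M a ω - ψ (M a ω))) / 2) ∂P =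
      (∫ ω, Q ω * ((M b ω - ψ (M b ω)) / 2) ∂P) - ∫ ω, Q ω * ((M a ω - ψ (M a ω)) / 2) ∂P := by
    rw [← integral_sub (hQM b hb) (hQM a ha)]
    refine integral_congr_ae (Eventually.of_forall fun ω => ?_)
    show Q ω * (((M b ω - ψ (M b ω)) - (M a ω - ψ (M a ω))) / 2) =
      Q ω * ((M b ω - ψ (M b ω)) / 2) - Q ω * ((M a ω - ψ (M a ω)) / 2)
    ring
  rw [h7, h8]
  linarith

end prob

section prob2

variable {Ω : Type*} [mΩ : MeasurableSpace Ω] {P : Measure Ω} [IsProbabilityMeasure P]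
  {F : ℝ → MeasurableSpace Ω} {B : ℝ → Ω → ℝ} {c : ℝ} {ψ : ℝ → ℝ} {Y M : ℝ → Ω → ℝ}

theorem sl_point (h' : SolC P F B c ψ Y M) (T e ρ D : ℝ) (hT : 0 < T) (he : 0 < e) (hρ : 0 < ρ)
    (d g A : ℝ → Ω → ℝ) (hd1 : ∀ t ω, ρ ≤ d t ω) (hd2 : ∀ t ω, d t ω ≤ D)
    (hg1 : ∀ t ω, ρ ≤ g t ω) (hA0 : ∀ᵐ ω ∂P, A 0 ω = 0)
    (hA : ∀ᵐ ω ∂P, ∀ s t, 0 ≤ s → s ≤ t → t ≤ T → |d t ω - d s ω| ≤ A t ω - A s ω ∧
      |g t ω - g s ω| ≤ A t ω - A s ω) (n : ℕ) (hn : 0 < n) (WY WB : Ω → ℝ)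
    (hWY0 : ∀ ω, 0 ≤ WY ω) (hWB0 : ∀ ω, 0 ≤ WB ω)
    (hWY : ∀ ω s t, 0 ≤ s → s ≤ T → 0 ≤ t → t ≤ T → |s - t| ≤ T / n → |Y s ω - Y t ω| ≤ WY ω)
    (hWB : ∀ ω s t, 0 ≤ s → s ≤ T → 0 ≤ t → t ≤ T → |s - t| ≤ T / n → |B s ω - B t ω| ≤ WB ω) :
    ∀ᵐ ω ∂P, 0 ≤ d 0 ω + A T ω + (∑ i ∈ Finset.range n,
      (Real.log (1 + 2 * d (gp 0 T n i) ω / g (gp 0 T n i) ω) *
          |g (gp 0 T n (i + 1)) ω - g (gp 0 T n i) ω|
        + Qk e (d (gp 0 T n i) ω) (g (gp 0 T n i) ω) *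
          (max (-Y (gp 0 T n (i + 1)) ω) 0 - max (-Y (gp 0 T n i) ω) 0)
        - (-∫ z in (0:ℝ)..(max (-Y (gp 0 T n i) ω) 0), wk e (d (gp 0 T n i) ω) (g (gp 0 T n i) ω) z)
          * (B (gp 0 T n (i + 1)) ω - B (gp 0 T n i) ω)
        - wk e (d (gp 0 T n i) ω) (g (gp 0 T n i) ω) (max (-Y (gp 0 T n i) ω) 0) *
          (B (gp 0 T n (i + 1)) ω - B (gp 0 T n i) ω) ^ 2 / 2
        + (2 * D / ρ + 1 / ρ + 1 / (e * ρ) + 2 / ρ ^ 2) *
          |B (gp 0 T n (i + 1)) ω - B (gp 0 T n i) ω| ^ 3))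
      + (2 * D / ρ + 1 / ρ + 1 / (e * ρ) + 2 / ρ ^ 2) * (min 1 (WY ω + WB ω) * M T ω) := by
  obtain ⟨g0, g1, g2, g3, g4, g5, g6⟩ := gp_facts 0 T hT.le n hn
  filter_upwards [h'.eq, h'.flat, hA, hA0] with ω hY hflat hAω hA0ω
  set t : ℕ → ℝ := gp 0 T n with ht
  set C := (2 * D / ρ + 1 / ρ + 1 / (e * ρ) + 2 / ρ ^ 2) with hC
  let u : ℕ → ℝ := fun i => Sk e (d (t i) ω) (g (t i) ω) (Y (t i) ω)
  have tele : ∑ i ∈ Finset.range n, (u (i + 1) - u i) = u n - u 0 := Finset.sum_range_sub u n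
  have teleA : ∑ i ∈ Finset.range n, (A (t (i + 1)) ω - A (t i) ω) = A (t n) ω - A (t 0) ω :=
    Finset.sum_range_sub (fun i => A (t i) ω) n
  have teleM : ∑ i ∈ Finset.range n, (M (t (i + 1)) ω - M (t i) ω) = M (t n) ω - M (t 0) ω :=
    Finset.sum_range_sub (fun i => M (t i) ω) n
  rw [g0, g1, hA0ω, sub_zero] at teleA
  rw [g0, g1, h'.L0, sub_zero] at teleM
  have step : ∀ i ∈ Finset.range n, u (i + 1) - u i ≤
      (A (t (i + 1)) ω - A (t i) ω) +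
      (Real.log (1 + 2 * d (t i) ω / g (t i) ω) * |g (t (i + 1)) ω - g (t i) ω|
        + Qk e (d (t i) ω) (g (t i) ω) * (max (-Y (t (i + 1)) ω) 0 - max (-Y (t i) ω) 0)
        - (-∫ z in (0:ℝ)..(max (-Y (t i) ω) 0), wk e (d (t i) ω) (g (t i) ω) z)
          * (B (t (i + 1)) ω - B (t i) ω)
        - wk e (d (t i) ω) (g (t i) ω) (max (-Y (t i) ω) 0) *
          (B (t (i + 1)) ω - B (t i) ω) ^ 2 / 2
        + C * |B (t (i + 1)) ω - B (t i) ω| ^ 3)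
      + C * min 1 (WY ω + WB ω) * (M (t (i + 1)) ω - M (t i) ω) := by
    intro i hi
    have hi' := Finset.mem_range.1 hi
    have hti : 0 ≤ t i := g4 i
    have hti' : 0 ≤ t (i + 1) := g4 (i + 1)
    have htT : t (i + 1) ≤ T := g5 (i + 1) (by omega)
    have htT' : t i ≤ T := g5 i (by omega)
    have h3 : t (i + 1) - t i = T / n := by
      have := g3 i
      rwa [sub_zero] at this
    have hv : |ψ (M (t (i + 1)) ω) - ψ (M (t i) ω)| ≤ M (t (i + 1)) ω - M (t i) ω := by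
      refine (h'.lip _ _ (sl_M0 h' _ hti' ω) (sl_M0 h' _ hti ω)).trans ?_
      rw [abs_of_nonneg]
      exact sub_nonneg.2 (h'.Lmono ω _ _ hti (g2 i))
    have hr : ψ (M (t i) ω) ≠ ψ (M (t (i + 1)) ω) →
        |B (t (i + 1)) ω + ψ (M (t (i + 1)) ω)| ≤ WY ω + WB ω ∧
        |B (t (i + 1)) ω + ψ (M (t i) ω)| ≤ WY ω + WB ω := by
      intro hne
      have h4 : ∃ r ∈ Icc (t i) (t (i + 1)), Y r ω = 0 := by
        by_contra hcon
        push Not at hcon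
        exact hne (congrArg ψ (hflat _ _ hti (g2 i) hcon))
      obtain ⟨r, hr, hYr⟩ := h4
      have hr0 : 0 ≤ r := hti.trans hr.1
      have hrT : r ≤ T := hr.2.trans htT
      have h5 := hWY ω (t (i + 1)) r hti' htT hr0 hrT (by
        rw [abs_of_nonneg (by linarith [hr.2])]; linarith [hr.1])
      have h6 := hWY ω (t i) r hti htT' hr0 hrT (by
        rw [abs_sub_comm, abs_of_nonneg (by linarith [hr.1])]; linarith [hr.2])
      have h7 := hWB ω (t (i + 1)) (t i) hti' htT hti htT' (by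
        rw [h3, abs_of_nonneg (by positivity)])
      rw [hYr, sub_zero] at h5 h6
      constructor
      · rw [← hY _ hti']
        linarith [hWB0 ω]
      · have h8 : B (t (i + 1)) ω + ψ (M (t i) ω) = Y (t i) ω + (B (t (i + 1)) ω - B (t i) ω) := by
          rw [hY _ hti]; ring
        rw [h8]
        exact (abs_add_le _ _).trans (add_le_add h6 h7)
    have hs := sl_step e ρ D (d (t i) ω) (d (t (i + 1)) ω) (g (t i) ω) (g (t (i + 1)) ω)
      (B (t i) ω) (B (t (i + 1)) ω) (ψ (M (t i) ω)) (ψ (M (t (i + 1)) ω)) (M (t i) ω)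
      (M (t (i + 1)) ω) (WY ω + WB ω) he hρ (hd1 _ _) (hd2 _ _) (hd1 _ _) (hg1 _ _) (hg1 _ _) hv
      (add_nonneg (hWY0 ω) (hWB0 ω)) hr
    rw [← hY _ hti, ← hY _ hti', ← hC] at hs
    have hdA := (hAω (t i) (t (i + 1)) hti (g2 i) htT).1
    show Sk e (d (t (i + 1)) ω) (g (t (i + 1)) ω) (Y (t (i + 1)) ω) -
      Sk e (d (t i) ω) (g (t i) ω) (Y (t i) ω) ≤ _
    linarith
  have hsum := Finset.sum_le_sum step
  rw [tele, Finset.sum_add_distrib, Finset.sum_add_distrib, teleA, ← Finset.mul_sum, teleM] at hsum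
  have hun : 0 ≤ u n := (Sk_facts e (d (t n) ω) (d (t n) ω) (g (t n) ω) (g (t n) ω) ρ he hρ
    (hd1 _ _) (hg1 _ _) (hd1 _ _) (hg1 _ _)).1 _
  have hu0 : u 0 ≤ d (t 0) ω := (Sk_facts e (d (t 0) ω) (d (t 0) ω) (g (t 0) ω) (g (t 0) ω) ρ he hρ
    (hd1 _ _) (hg1 _ _) (hd1 _ _) (hg1 _ _)).2.1 _
  rw [g0] at hu0
  linarith

theorem sl_int5 (f1 f2 f3 f4 f5 : Ω → ℝ) (C : ℝ) (h1 : Integrable f1 P) (h2 : Integrable f2 P)
    (h3 : Integrable f3 P) (h4 : Integrable f4 P) (h5 : Integrable f5 P) :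
    ∫ ω, (f1 ω + f2 ω - f3 ω - f4 ω / 2 + C * f5 ω) ∂P = (∫ ω, f1 ω ∂P) + (∫ ω, f2 ω ∂P)
      - (∫ ω, f3 ω ∂P) - (∫ ω, f4 ω ∂P) / 2 + C * ∫ ω, f5 ω ∂P := by
  have a1 : ∫ ω, (f1 ω + f2 ω) ∂P = (∫ ω, f1 ω ∂P) + ∫ ω, f2 ω ∂P := integral_add h1 h2
  have a2 : ∫ ω, (f1 ω + f2 ω - f3 ω) ∂P = (∫ ω, (f1 ω + f2 ω) ∂P) - ∫ ω, f3 ω ∂P :=
    integral_sub (h1.add h2) h3
  have a3 : ∫ ω, (f1 ω + f2 ω - f3 ω - f4 ω / 2) ∂P =
      (∫ ω, (f1 ω + f2 ω - f3 ω) ∂P) - ∫ ω, f4 ω / 2 ∂P :=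
    integral_sub ((h1.add h2).sub h3) (h4.div_const 2)
  have a4 : ∫ ω, (f1 ω + f2 ω - f3 ω - f4 ω / 2 + C * f5 ω) ∂P =
      (∫ ω, (f1 ω + f2 ω - f3 ω - f4 ω / 2) ∂P) + ∫ ω, C * f5 ω ∂P :=
    integral_add (((h1.add h2).sub h3).sub (h4.div_const 2)) (h5.const_mul C)
  rw [a4, a3, a2, a1, integral_div, integral_const_mul]

theorem sl_int4 (f1 f2 f3 f4 : Ω → ℝ) (C : ℝ) (h1 : Integrable f1 P) (h2 : Integrable f2 P)
    (h3 : Integrable f3 P) (h4 : Integrable f4 P) :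
    ∫ ω, (f1 ω + f2 ω + f3 ω + C * f4 ω) ∂P = (∫ ω, f1 ω ∂P) + (∫ ω, f2 ω ∂P)
      + (∫ ω, f3 ω ∂P) + C * ∫ ω, f4 ω ∂P := by
  have a1 : ∫ ω, (f1 ω + f2 ω) ∂P = (∫ ω, f1 ω ∂P) + ∫ ω, f2 ω ∂P := integral_add h1 h2
  have a2 : ∫ ω, (f1 ω + f2 ω + f3 ω) ∂P = (∫ ω, (f1 ω + f2 ω) ∂P) + ∫ ω, f3 ω ∂P :=
    integral_add (h1.add h2) h3
  have a4 : ∫ ω, (f1 ω + f2 ω + f3 ω + C * f4 ω) ∂P =
      (∫ ω, (f1 ω + f2 ω + f3 ω) ∂P) + ∫ ω, C * f4 ω ∂P :=
    integral_add ((h1.add h2).add h3) (h4.const_mul C)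
  rw [a4, a2, a1, integral_const_mul]

theorem sl_log (d g ρ D : ℝ) (hρ : 0 < ρ) (hd : ρ ≤ d) (hD : d ≤ D) (hg : ρ ≤ g) :
    0 ≤ Real.log (1 + 2 * d / g) ∧ Real.log (1 + 2 * d / g) ≤ 2 * D / ρ := by
  have hg0 : 0 < g := hρ.trans_le hg
  have hd0 : 0 < d := hρ.trans_le hd
  constructor
  · apply Real.log_nonneg
    have : 0 ≤ 2 * d / g := by positivity
    linarith
  · have h1 := Real.log_le_sub_one_of_pos (show 0 < 1 + 2 * d / g by positivity)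
    have h2 : 2 * d / g ≤ 2 * D / ρ := by
      apply div_le_div₀ (by linarith) (by linarith) hρ hg
    linarith

theorem sl_main (h' : SolC P F B c ψ Y M) (T e ρ D : ℝ) (hT : 0 < T) (he : 0 < e) (hρ : 0 < ρ)
    (d g A : ℝ → Ω → ℝ) (hd : ∀ t, 0 ≤ t → Measurable[F t] (d t))
    (hg : ∀ t, 0 ≤ t → Measurable[F t] (g t))
    (hZc : ∀ ω, Continuous (fun t => wk e (d t ω) (g t ω) (max (-Y t ω) 0)))
    (hd1 : ∀ t ω, ρ ≤ d t ω) (hd2 : ∀ t ω, d t ω ≤ D)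
    (hg1 : ∀ t ω, ρ ≤ g t ω) (hA0 : ∀ᵐ ω ∂P, A 0 ω = 0)
    (hAi : Integrable (A T) P)
    (hA : ∀ᵐ ω ∂P, ∀ s t, 0 ≤ s → s ≤ t → t ≤ T → |d t ω - d s ω| ≤ A t ω - A s ω ∧
      |g t ω - g s ω| ≤ A t ω - A s ω) (n : ℕ) (hn : 0 < n) (WZ WY WB : Ω → ℝ)
    (hWZm : Measurable WZ) (hWYm : Measurable WY) (hWBm : Measurable WB)
    (hWZ0 : ∀ ω, 0 ≤ WZ ω) (hWY0 : ∀ ω, 0 ≤ WY ω) (hWB0 : ∀ ω, 0 ≤ WB ω)
    (hWZb : ∀ ω, WZ ω ≤ 2 * (1 / ρ))
    (hWZ : ∀ ω s t, 0 ≤ s → s ≤ T → 0 ≤ t → t ≤ T → |s - t| ≤ T / n →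
      |wk e (d s ω) (g s ω) (max (-Y s ω) 0) - wk e (d t ω) (g t ω) (max (-Y t ω) 0)| ≤ WZ ω)
    (hWY : ∀ ω s t, 0 ≤ s → s ≤ T → 0 ≤ t → t ≤ T → |s - t| ≤ T / n → |Y s ω - Y t ω| ≤ WY ω)
    (hWB : ∀ ω s t, 0 ≤ s → s ≤ T → 0 ≤ t → t ≤ T → |s - t| ≤ T / n → |B s ω - B t ω| ≤ WB ω)
    (hZI : Integrable (fun ω => ∫ s in (0:ℝ)..T, wk e (d s ω) (g s ω) (max (-Y s ω) 0)) P) :
    (∫ ω, (∫ s in (0:ℝ)..T, wk e (d s ω) (g s ω) (max (-Y s ω) 0)) ∂P) / 2 ≤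
        (∫ ω, d 0 ω ∂P) + (∫ ω, A T ω ∂P) +
        (∫ ω, (∑ i ∈ Finset.range n,
          Real.log (1 + 2 * d (gp 0 T n i) ω / g (gp 0 T n i) ω) *
          ((M (gp 0 T n (i + 1)) ω - ψ (M (gp 0 T n (i + 1)) ω)
            - (M (gp 0 T n i) ω - ψ (M (gp 0 T n i) ω))) / 2
            + |g (gp 0 T n (i + 1)) ω - g (gp 0 T n i) ω|)) ∂P) +
        (T / 2 * (∫ ω, WZ ω ∂P) +
          (2 * D / ρ + 1 / ρ + 1 / (e * ρ) + 2 / ρ ^ 2) * (2 * T * √(T / n)) +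
          (2 * D / ρ + 1 / ρ + 1 / (e * ρ) + 2 / ρ ^ 2) *
            ∫ ω, min 1 (WY ω + WB ω) * M T ω ∂P) := by
  obtain ⟨g0, g1, g2, g3, g4, g5, g6⟩ := gp_facts 0 T hT.le n hn
  have hpt := sl_point h' T e ρ D hT he hρ d g A hd1 hd2 hg1 hA0 hA n hn WY WB hWY0 hWB0 hWY hWB
  set t : ℕ → ℝ := gp 0 T n with ht
  set C := (2 * D / ρ + 1 / ρ + 1 / (e * ρ) + 2 / ρ ^ 2) with hCdef
  have hΩ : Nonempty Ω := nonempty_of_isProbabilityMeasure P
  obtain ⟨ω0⟩ := hΩ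
  have hC0 : 0 ≤ C := sl_tf_nonneg (Wk_tf e (d 0 ω0) (g 0 ω0) ρ D he hρ (hd1 _ _) (hd2 _ _) (hg1 _ _))
  have hn' : (0 : ℝ) < n := by exact_mod_cast hn
  have htn : ∀ i, t (i + 1) - t i = T / n := by
    intro i
    have := g3 i
    rwa [sub_zero] at this
  -- measurability
  have hle := h'.bm.le
  have hdm : ∀ s, 0 ≤ s → Measurable (d s) := fun s hs => (hd s hs).mono (hle s) le_rfl
  have hgm : ∀ s, 0 ≤ s → Measurable (g s) := fun s hs => (hg s hs).mono (hle s) le_rfl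
  have hYm : ∀ s, 0 ≤ s → Measurable (Y s) := fun s hs => (h'.Xad s hs).mono (hle s) le_rfl
  have hBm : ∀ s, 0 ≤ s → Measurable (B s) := fun s hs => (h'.bm.adap s hs).mono (hle s) le_rfl
  -- the functions
  let lg : ℕ → Ω → ℝ := fun i ω => Real.log (1 + 2 * d (t i) ω / g (t i) ω)
  let Q : ℕ → Ω → ℝ := fun i ω => Qk e (d (t i) ω) (g (t i) ω)
  let W1 : ℕ → Ω → ℝ := fun i ω =>
    -∫ z in (0:ℝ)..(max (-Y (t i) ω) 0), wk e (d (t i) ω) (g (t i) ω) z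
  let Z : ℕ → Ω → ℝ := fun i ω => wk e (d (t i) ω) (g (t i) ω) (max (-Y (t i) ω) 0)
  have hlg : ∀ i ω, 0 ≤ lg i ω ∧ lg i ω ≤ 2 * D / ρ := fun i ω =>
    sl_log _ _ ρ D hρ (hd1 _ _) (hd2 _ _) (hg1 _ _)
  have hlgm : ∀ i, Measurable (lg i) := fun i =>
    Real.measurable_log.comp (measurable_const.add (((hdm _ (g4 i)).const_mul 2).div (hgm _ (g4 i))))
  have hlgb : ∀ i, ∀ᵐ ω ∂P, ‖lg i ω‖ ≤ 2 * D / ρ := fun i => Eventually.of_forall fun ω => by
    rw [Real.norm_eq_abs, abs_of_nonneg (hlg i ω).1]; exact (hlg i ω).2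
  have hQmF : ∀ i, Measurable[F (t i)] (Q i) := fun i =>
    (wk_meas e).2.1.comp ((hd _ (g4 i)).prodMk (hg _ (g4 i)))
  have hQm : ∀ i, Measurable (Q i) := fun i => (hQmF i).mono (hle _) le_rfl
  have hQ : ∀ i ω, 0 ≤ Q i ω ∧ Q i ω ≤ lg i ω := fun i ω =>
    let h := wk_facts e (d (t i) ω) (g (t i) ω) ρ he hρ (hd1 _ _) (hg1 _ _)
    ⟨h.2.2.2.2.2.1, h.2.2.2.2.2.2⟩
  have hQb : ∀ i ω, |Q i ω| ≤ 2 * D / ρ := fun i ω => by
    rw [abs_of_nonneg (hQ i ω).1]; exact (hQ i ω).2.trans (hlg i ω).2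
  have hW1mF : ∀ i, Measurable[F (t i)] (W1 i) := fun i =>
    (sl_w1meas e).comp ((hd _ (g4 i)).prodMk ((hg _ (g4 i)).prodMk (h'.Xad _ (g4 i))))
  have hW1m : ∀ i, Measurable (W1 i) := fun i => (hW1mF i).mono (hle _) le_rfl
  have hW1b : ∀ i ω, |W1 i ω| ≤ C := fun i ω =>
    (Wk_tf e (d (t i) ω) (g (t i) ω) ρ D he hρ (hd1 _ _) (hd2 _ _) (hg1 _ _)).b1 _
  have hZmF : ∀ i, Measurable[F (t i)] (Z i) := fun i =>
    (wk_meas e).1.comp ((hd _ (g4 i)).prodMk ((hg _ (g4 i)).prodMk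
      ((h'.Xad _ (g4 i)).neg.max measurable_const)))
  have hZm : ∀ i, Measurable (Z i) := fun i => (hZmF i).mono (hle _) le_rfl
  have hZb : ∀ i ω, |Z i ω| ≤ C := fun i ω =>
    (Wk_tf e (d (t i) ω) (g (t i) ω) ρ D he hρ (hd1 _ _) (hd2 _ _) (hg1 _ _)).b2 (Y (t i) ω)
  have hBd : ∀ i, Measurable (fun ω => B (t (i + 1)) ω - B (t i) ω) := fun i =>
    (hBm _ (g4 _)).sub (hBm _ (g4 _))
  -- integrability
  have i1 : ∀ i ∈ Finset.range n,
      Integrable (fun ω => lg i ω * |g (t (i + 1)) ω - g (t i) ω|) P := by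
    intro i hi
    have hi' := Finset.mem_range.1 hi
    refine Integrable.bdd_mul (c := 2 * D / ρ) ?_ (hlgm i).aestronglyMeasurable (hlgb i)
    refine Integrable.mono' hAi ((hgm _ (g4 _)).sub (hgm _ (g4 _))).norm.aestronglyMeasurable ?_
    filter_upwards [hA, hA0] with ω hAω hA0ω
    have a1 := (hAω (t i) (t (i + 1)) (g4 i) (g2 i) (g5 (i + 1) (by omega))).2
    have a2 := (abs_nonneg _).trans (hAω 0 (t i) le_rfl (g4 i) (g5 i (by omega))).2
    have a3 := (abs_nonneg _).trans (hAω (t (i + 1)) T (g4 _) (g5 (i + 1) (by omega)) le_rfl).2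
    rw [hA0ω] at a2
    rw [Real.norm_eq_abs, abs_abs]
    linarith
  have i2 : ∀ i, Integrable (fun ω => Q i ω * (max (-Y (t (i + 1)) ω) 0 - max (-Y (t i) ω) 0)) P :=
    fun i => Integrable.bdd_mul (c := 2 * D / ρ)
      ((sl_Mint h' _ (g4 (i + 1))).2.2.sub (sl_Mint h' _ (g4 i)).2.2)
      (hQm i).aestronglyMeasurable (Eventually.of_forall (hQb i))
  have iB1 : ∀ i, Integrable (fun ω => B (t (i + 1)) ω - B (t i) ω) P := by
    intro i
    have := inc_int h'.bm (t i) (t (i + 1)) (g4 i) (g2 i) 1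
    refine Integrable.mono' this (hBd i).aestronglyMeasurable (Eventually.of_forall fun ω => ?_)
    rw [pow_one, Real.norm_eq_abs]
  have iB2 : ∀ i, Integrable (fun ω => (B (t (i + 1)) ω - B (t i) ω) ^ 2) P := by
    intro i
    have := inc_int h'.bm (t i) (t (i + 1)) (g4 i) (g2 i) 2
    refine Integrable.mono' this ((hBd i).pow_const 2).aestronglyMeasurable
      (Eventually.of_forall fun ω => ?_)
    rw [Real.norm_eq_abs, abs_pow]
  have i3 : ∀ i, Integrable (fun ω => W1 i ω * (B (t (i + 1)) ω - B (t i) ω)) P := fun i =>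
    Integrable.bdd_mul (c := C) (iB1 i) (hW1m i).aestronglyMeasurable
      (Eventually.of_forall (hW1b i))
  have i4 : ∀ i, Integrable (fun ω => Z i ω * (B (t (i + 1)) ω - B (t i) ω) ^ 2) P := fun i =>
    Integrable.bdd_mul (c := C) (iB2 i) (hZm i).aestronglyMeasurable
      (Eventually.of_forall (hZb i))
  have i5 : ∀ i, Integrable (fun ω => |B (t (i + 1)) ω - B (t i) ω| ^ 3) P := fun i =>
    inc_int h'.bm (t i) (t (i + 1)) (g4 i) (g2 i) 3
  have hMTi := (sl_Mint h' T hT.le).1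
  have i6 : Integrable (fun ω => min 1 (WY ω + WB ω) * M T ω) P := by
    refine Integrable.bdd_mul (c := 1) hMTi
      (measurable_const.min (hWYm.add hWBm)).aestronglyMeasurable (Eventually.of_forall fun ω => ?_)
    rw [Real.norm_eq_abs, abs_of_nonneg (le_min zero_le_one (add_nonneg (hWY0 ω) (hWB0 ω)))]
    exact min_le_left _ _
  have iMp : ∀ i, Integrable (fun ω => (M (t (i + 1)) ω - ψ (M (t (i + 1)) ω)
      - (M (t i) ω - ψ (M (t i) ω))) / 2) P := fun i =>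
    (((sl_Mint h' _ (g4 (i + 1))).1.sub (sl_Mint h' _ (g4 (i + 1))).2.1).sub
      ((sl_Mint h' _ (g4 i)).1.sub (sl_Mint h' _ (g4 i)).2.1)).div_const 2
  have i7 : ∀ i, Integrable (fun ω => lg i ω * ((M (t (i + 1)) ω - ψ (M (t (i + 1)) ω)
      - (M (t i) ω - ψ (M (t i) ω))) / 2)) P := fun i =>
    Integrable.bdd_mul (c := 2 * D / ρ) (iMp i) (hlgm i).aestronglyMeasurable (hlgb i)
  have i8 : ∀ i, Integrable (fun ω => Q i ω * ((M (t (i + 1)) ω - ψ (M (t (i + 1)) ω)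
      - (M (t i) ω - ψ (M (t i) ω))) / 2)) P := fun i =>
    Integrable.bdd_mul (c := 2 * D / ρ) (iMp i) (hQm i).aestronglyMeasurable
      (Eventually.of_forall (hQb i))
  have id0 : Integrable (d 0) P := by
    refine Integrable.mono' (integrable_const D) (hdm 0 le_rfl).aestronglyMeasurable
      (Eventually.of_forall fun ω => ?_)
    rw [Real.norm_eq_abs, abs_of_nonneg (hρ.le.trans (hd1 _ _))]
    exact hd2 _ _
  have iZ : ∀ i, Integrable (Z i) P := fun i =>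
    Integrable.mono' (integrable_const C) (hZm i).aestronglyMeasurable
      (Eventually.of_forall (hZb i))
  have iWZ : Integrable WZ P := by
    refine Integrable.mono' (integrable_const (2 * (1 / ρ))) hWZm.aestronglyMeasurable
      (Eventually.of_forall fun ω => ?_)
    rw [Real.norm_eq_abs, abs_of_nonneg (hWZ0 ω)]
    exact hWZb ω
  -- integrals
  let f : ℕ → Ω → ℝ := fun i ω => lg i ω * |g (t (i + 1)) ω - g (t i) ω|
        + Q i ω * (max (-Y (t (i + 1)) ω) 0 - max (-Y (t i) ω) 0)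
        - W1 i ω * (B (t (i + 1)) ω - B (t i) ω)
        - Z i ω * (B (t (i + 1)) ω - B (t i) ω) ^ 2 / 2
        + C * |B (t (i + 1)) ω - B (t i) ω| ^ 3
  have hfi : ∀ i ∈ Finset.range n, Integrable (f i) P := fun i hi =>
    ((((i1 i hi).add (i2 i)).sub (i3 i)).sub ((i4 i).div_const 2)).add ((i5 i).const_mul C)
  have hfI : ∀ i ∈ Finset.range n, ∫ ω, f i ω ∂P ≤
      (∫ ω, lg i ω * ((M (t (i + 1)) ω - ψ (M (t (i + 1)) ω) - (M (t i) ω - ψ (M (t i) ω))) / 2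
            + |g (t (i + 1)) ω - g (t i) ω|) ∂P)
      - (∫ ω, Z i ω * (T / n) ∂P) / 2 + C * (2 * (T / n) * √(T / n)) := by
    intro i hi
    have hi' := Finset.mem_range.1 hi
    have e0 : ∫ ω, f i ω ∂P = (∫ ω, lg i ω * |g (t (i + 1)) ω - g (t i) ω| ∂P)
        + (∫ ω, Q i ω * (max (-Y (t (i + 1)) ω) 0 - max (-Y (t i) ω) 0) ∂P)
        - (∫ ω, W1 i ω * (B (t (i + 1)) ω - B (t i) ω) ∂P)
        - (∫ ω, Z i ω * (B (t (i + 1)) ω - B (t i) ω) ^ 2 ∂P) / 2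
        + C * ∫ ω, |B (t (i + 1)) ω - B (t i) ω| ^ 3 ∂P := by
      exact sl_int5 _ _ _ _ _ C (i1 i hi) (i2 i) (i3 i) (i4 i) (i5 i)
    have e1 := sl_indep h'.bm (t i) (t (i + 1)) (g4 i) (g2 i) (W1 i) (hW1mF i)
    have e2 := sl_indep h'.bm (t i) (t (i + 1)) (g4 i) (g2 i) (Z i) (hZmF i)
    have e3 := (inc_mom h'.bm (t i) (t (i + 1)) (g4 i) (g2 i)).2.2.2.1
    have e4 := sl_mart h' (t i) (t (i + 1)) (g4 i) (g2 i) (Q i) (2 * D / ρ) (hQmF i) (hQb i)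
    have e5 : ∫ ω, Q i ω * ((M (t (i + 1)) ω - ψ (M (t (i + 1)) ω)
      - (M (t i) ω - ψ (M (t i) ω))) / 2) ∂P ≤ ∫ ω, lg i ω * ((M (t (i + 1)) ω
      - ψ (M (t (i + 1)) ω) - (M (t i) ω - ψ (M (t i) ω))) / 2) ∂P := by
      refine integral_mono (i8 i) (i7 i) fun ω => ?_
      refine mul_le_mul_of_nonneg_right (hQ i ω).2 ?_
      have a1 := h'.lip (M (t (i + 1)) ω) (M (t i) ω) (sl_M0 h' _ (g4 _) ω) (sl_M0 h' _ (g4 _) ω)
      have a2 : 0 ≤ M (t (i + 1)) ω - M (t i) ω := sub_nonneg.2 (h'.Lmono ω _ _ (g4 i) (g2 i))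
      rw [abs_of_nonneg a2] at a1
      have a3 := (le_abs_self _).trans a1
      linarith
    have e6 : ∫ ω, lg i ω * ((M (t (i + 1)) ω - ψ (M (t (i + 1)) ω) - (M (t i) ω - ψ (M (t i) ω))) / 2
            + |g (t (i + 1)) ω - g (t i) ω|) ∂P = (∫ ω, lg i ω * ((M (t (i + 1)) ω
      - ψ (M (t (i + 1)) ω) - (M (t i) ω - ψ (M (t i) ω))) / 2) ∂P) +
        ∫ ω, lg i ω * |g (t (i + 1)) ω - g (t i) ω| ∂P := by
      rw [← integral_add (i7 i) (i1 i hi)]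
      refine integral_congr_ae (Eventually.of_forall fun ω => ?_)
      show _ = _ + _
      ring
    have e7 : ∫ ω, Z i ω * (T / n) ∂P = (T / n) * ∫ ω, Z i ω ∂P := by
      rw [integral_mul_const, mul_comm]
    rw [htn i] at e2 e3
    have e8 := mul_le_mul_of_nonneg_left e3 hC0
    rw [e0, e1.1, e2.2, e4, e6, e7]
    linarith
  have htot : 0 ≤ (∫ ω, d 0 ω ∂P) + (∫ ω, A T ω ∂P) + (∑ i ∈ Finset.range n, ∫ ω, f i ω ∂P)
      + C * ∫ ω, min 1 (WY ω + WB ω) * M T ω ∂P := by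
    rw [← integral_finsetSum _ hfi]
    rw [← sl_int4 _ _ _ _ C id0 hAi (integrable_finsetSum _ hfi) i6]
    exact integral_nonneg_of_ae hpt
  have hsum := Finset.sum_le_sum hfI
  rw [Finset.sum_add_distrib, Finset.sum_sub_distrib, Finset.sum_const, Finset.card_range,
    nsmul_eq_mul, ← Finset.sum_div] at hsum
  have i9 : ∀ i ∈ Finset.range n, Integrable (fun ω => lg i ω * ((M (t (i + 1)) ω
      - ψ (M (t (i + 1)) ω) - (M (t i) ω - ψ (M (t i) ω))) / 2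
      + |g (t (i + 1)) ω - g (t i) ω|)) P := by
    intro i hi
    refine ((i7 i).add (i1 i hi)).congr (Eventually.of_forall fun ω => ?_)
    simp only [Pi.add_apply]
    ring
  rw [← integral_finsetSum _ i9, ← integral_finsetSum _ (fun i _ => (iZ i).mul_const (T / n))] at hsum
  have hR : (∫ ω, (∫ s in (0:ℝ)..T, wk e (d s ω) (g s ω) (max (-Y s ω) 0)) ∂P) - T * ∫ ω, WZ ω ∂P ≤
      ∫ ω, (∑ i ∈ Finset.range n, Z i ω * (T / n)) ∂P := by
    rw [← integral_const_mul, ← integral_sub hZI (iWZ.const_mul T)]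
    refine integral_mono (hZI.sub (iWZ.const_mul T))
      (integrable_finsetSum _ (fun i _ => (iZ i).mul_const (T / n))) fun ω => ?_
    have a1 := sl_riem (fun s => wk e (d s ω) (g s ω) (max (-Y s ω) 0)) (hZc ω) T (WZ ω) hT n hn
      (fun s t hs hsT ht htT hst => hWZ ω s t hs hsT ht htT hst)
    have a2 := (abs_le.1 a1).1
    show (∫ s in (0:ℝ)..T, wk e (d s ω) (g s ω) (max (-Y s ω) 0)) - T * WZ ω ≤
      ∑ i ∈ Finset.range n, wk e (d (gp 0 T n i) ω) (g (gp 0 T n i) ω)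
        (max (-Y (gp 0 T n i) ω) 0) * (T / n)
    linarith
  have hnn : (n : ℝ) * (C * (2 * (T / n) * √(T / n))) = C * (2 * T * √(T / n)) := by
    field_simp
  rw [hnn] at hsum
  show (∫ ω, (∫ s in (0:ℝ)..T, wk e (d s ω) (g s ω) (max (-Y s ω) 0)) ∂P) / 2 ≤
        (∫ ω, d 0 ω ∂P) + (∫ ω, A T ω ∂P) +
        (∫ ω, (∑ i ∈ Finset.range n, lg i ω *
          ((M (t (i + 1)) ω - ψ (M (t (i + 1)) ω) - (M (t i) ω - ψ (M (t i) ω))) / 2
            + |g (t (i + 1)) ω - g (t i) ω|)) ∂P) +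
        (T / 2 * (∫ ω, WZ ω ∂P) + C * (2 * T * √(T / n)) +
          C * ∫ ω, min 1 (WY ω + WB ω) * M T ω ∂P)
  linarith

end prob2

section pair

variable {Ω : Type*} [mΩ : MeasurableSpace Ω] {P : Measure Ω} [IsProbabilityMeasure P]
  {F : ℝ → MeasurableSpace Ω} {B : ℝ → Ω → ℝ} {c : ℝ} {φ ψ : ℝ → ℝ} {X L Y M : ℝ → Ω → ℝ}

theorem slem (h' : SolC P F B c ψ Y M) (T e ρ D : ℝ) (hT : 0 < T) (he : 0 < e) (hρ : 0 < ρ)
    (d g A : ℝ → Ω → ℝ) (hd : ∀ t, 0 ≤ t → Measurable[F t] (d t))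
    (hg : ∀ t, 0 ≤ t → Measurable[F t] (g t)) (hdc : ∀ ω, Continuous (fun t => d t ω))
    (hgc : ∀ ω, Continuous (fun t => g t ω)) (hd1 : ∀ t ω, ρ ≤ d t ω) (hd2 : ∀ t ω, d t ω ≤ D)
    (hg1 : ∀ t ω, ρ ≤ g t ω) (hAm : ∀ t, 0 ≤ t → Measurable (A t)) (hA0 : ∀ᵐ ω ∂P, A 0 ω = 0)
    (hAi : Integrable (A T) P)
    (hA : ∀ᵐ ω ∂P, ∀ s t, 0 ≤ s → s ≤ t → t ≤ T → |d t ω - d s ω| ≤ A t ω - A s ω ∧
      |g t ω - g s ω| ≤ A t ω - A s ω) (η : ℝ) (hη : 0 < η) :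
    ∃ n0 : ℕ, ∀ n, n0 ≤ n → 0 < n →
      (∫ ω, (∫ s in (0:ℝ)..T, wk e (d s ω) (g s ω) (max (-Y s ω) 0)) ∂P) / 2 ≤
        (∫ ω, d 0 ω ∂P) + (∫ ω, A T ω ∂P) +
        (∫ ω, (∑ i ∈ Finset.range n,
          Real.log (1 + 2 * d (gp 0 T n i) ω / g (gp 0 T n i) ω) *
          ((M (gp 0 T n (i + 1)) ω - ψ (M (gp 0 T n (i + 1)) ω)
            - (M (gp 0 T n i) ω - ψ (M (gp 0 T n i) ω))) / 2
            + |g (gp 0 T n (i + 1)) ω - g (gp 0 T n i) ω|)) ∂P) + η := by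
  have hle := h'.bm.le
  have hYm : ∀ s, 0 ≤ s → Measurable (Y s) := fun s hs => (h'.Xad s hs).mono (hle s) le_rfl
  have hBm : ∀ s, 0 ≤ s → Measurable (B s) := fun s hs => (h'.bm.adap s hs).mono (hle s) le_rfl
  have hZm : ∀ s, 0 ≤ s → Measurable (fun ω => wk e (d s ω) (g s ω) (max (-Y s ω) 0)) :=
    fun s hs => Measurable.mono ((wk_meas e).1.comp ((hd _ hs).prodMk ((hg _ hs).prodMk
      ((h'.Xad _ hs).neg.max measurable_const)))) (hle s) le_rfl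
  have hZc : ∀ ω, Continuous (fun t => wk e (d t ω) (g t ω) (max (-Y t ω) 0)) := by
    intro ω
    have hYc := h'.Xc ω
    have hdc' := hdc ω
    have hgc' := hgc ω
    have hz : Continuous (fun t => max (max (-Y t ω) 0) 0) := by fun_prop
    refine Continuous.div (Continuous.mul ?_ ?_) (hgc'.add hz) fun t => ?_
    · exact (hz.div_const e).min continuous_const
    · refine (continuous_const.sub (hz.div (hdc'.const_mul 2) fun t => ?_)).max continuous_const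
      have : 0 < d t ω := hρ.trans_le (hd1 t ω)
      positivity
    · have := hg1 t ω
      have h2 : 0 ≤ max (max (-Y t ω) 0) 0 := le_max_right _ _
      have : 0 < g t ω + max (max (-Y t ω) 0) 0 := by linarith
      exact this.ne'
  have hZb : ∀ t ω, |wk e (d t ω) (g t ω) (max (-Y t ω) 0)| ≤ 1 / ρ := by
    intro t ω
    have h := wk_facts e (d t ω) (g t ω) ρ he hρ (hd1 _ _) (hg1 _ _)
    rw [abs_of_nonneg (h.1 _)]
    refine (h.2.1 _).trans (one_div_le_one_div_of_le hρ ?_)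
    have h2 : 0 ≤ max (max (-Y t ω) 0) 0 := le_max_right _ _
    linarith [hg1 t ω]
  obtain ⟨WZ, wz1, wz2, wz3, wz4, wz5⟩ := mod_gen (fun s ω => wk e (d s ω) (g s ω) (max (-Y s ω) 0))
    hZm hZc T hT
  obtain ⟨WY, wy1, wy2, wy3, wy4, -⟩ := mod_gen Y hYm h'.Xc T hT
  obtain ⟨WB, wb1, wb2, wb3, wb4, -⟩ := mod_gen B hBm h'.bm.cont T hT
  have wz6 : ∀ n ω, WZ n ω ≤ 2 * (1 / ρ) := fun n ω =>
    wz5 (fun _ => 1 / ρ) (fun ω t _ _ => hZb t ω) n ω
  -- the Riemann sums converge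
  have hZIm : Measurable (fun ω => ∫ s in (0:ℝ)..T, wk e (d s ω) (g s ω) (max (-Y s ω) 0)) := by
    refine measurable_of_tendsto_metrizable (f := fun n ω => ∑ i ∈ Finset.range n,
      wk e (d (gp 0 T n i) ω) (g (gp 0 T n i) ω) (max (-Y (gp 0 T n i) ω) 0) * (T / n)) ?_ ?_
    · intro n
      rcases Nat.eq_zero_or_pos n with rfl | hn
      · simp
      · refine Finset.measurable_fun_sum _ fun i _ => (hZm _ ?_).mul_const _
        exact (gp_facts 0 T hT.le n hn).2.2.2.2.1 i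
    · rw [tendsto_pi_nhds]
      intro ω
      rw [tendsto_iff_norm_sub_tendsto_zero]
      have h1 : Tendsto (fun n => T * WZ n ω) atTop (𝓝 0) := by
        simpa using (wz4 ω).const_mul T
      refine squeeze_zero' (Eventually.of_forall fun n => norm_nonneg _) ?_ h1
      filter_upwards [eventually_gt_atTop 0] with n hn
      exact sl_riem (fun s => wk e (d s ω) (g s ω) (max (-Y s ω) 0)) (hZc ω) T (WZ n ω) hT n hn
        (fun s t hs hsT ht htT hst => wz3 n hn ω s t hs hsT ht htT hst)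
  have hZI : Integrable (fun ω => ∫ s in (0:ℝ)..T, wk e (d s ω) (g s ω) (max (-Y s ω) 0)) P := by
    refine Integrable.mono' (integrable_const (1 / ρ * |T - 0|)) hZIm.aestronglyMeasurable
      (Eventually.of_forall fun ω => ?_)
    exact intervalIntegral.norm_integral_le_of_norm_le_const fun s _ => hZb s ω
  -- the error terms
  have hMTi := (sl_Mint h' T hT.le).1
  have t1 : Tendsto (fun n => ∫ ω, WZ n ω ∂P) atTop (𝓝 0) := by
    have := tendsto_integral_of_dominated_convergence (μ := P) (F := WZ) (f := fun _ => (0 : ℝ))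
      (fun _ => 2 * (1 / ρ)) (fun n => (wz1 n).aestronglyMeasurable) (integrable_const _)
      (fun n => Eventually.of_forall fun ω => by
        rw [Real.norm_eq_abs, abs_of_nonneg (wz2 n ω)]; exact wz6 n ω)
      (Eventually.of_forall fun ω => wz4 ω)
    simpa using this
  have t2 : Tendsto (fun n => ∫ ω, min 1 (WY n ω + WB n ω) * M T ω ∂P) atTop (𝓝 0) := by
    have := tendsto_integral_of_dominated_convergence (μ := P)
      (F := fun n ω => min 1 (WY n ω + WB n ω) * M T ω) (f := fun _ => (0 : ℝ))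
      (M T) (fun n => ((measurable_const.min ((wy1 n).add (wb1 n))).aestronglyMeasurable.mul
        hMTi.aestronglyMeasurable)) hMTi
      (fun n => Eventually.of_forall fun ω => by
        have h0 := sl_M0 h' T hT.le ω
        have h1 : 0 ≤ min 1 (WY n ω + WB n ω) := le_min zero_le_one (add_nonneg (wy2 n ω) (wb2 n ω))
        rw [Real.norm_eq_abs, abs_of_nonneg (mul_nonneg h1 h0)]
        exact mul_le_of_le_one_left h0 (min_le_left _ _))
      (Eventually.of_forall fun ω => by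
        have h1 : Tendsto (fun n => min 1 (WY n ω + WB n ω) * M T ω) atTop
            (𝓝 (min 1 (0 + 0) * M T ω)) :=
          (tendsto_const_nhds.min ((wy4 ω).add (wb4 ω))).mul_const _
        simpa using h1)
    simpa using this
  have t3 : Tendsto (fun n : ℕ => √(T / n)) atTop (𝓝 0) := by
    have h1 : Tendsto (fun n : ℕ => T / (n : ℝ)) atTop (𝓝 0) := tendsto_const_div_atTop_nhds_zero_nat T
    have h2 := (Real.continuous_sqrt.tendsto 0).comp h1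
    rw [Real.sqrt_zero] at h2
    exact h2
  set C := (2 * D / ρ + 1 / ρ + 1 / (e * ρ) + 2 / ρ ^ 2) with hCdef
  have t4 : Tendsto (fun n : ℕ => T / 2 * (∫ ω, WZ n ω ∂P) + C * (2 * T * √(T / n)) +
      C * ∫ ω, min 1 (WY n ω + WB n ω) * M T ω ∂P) atTop (𝓝 0) := by
    have := ((t1.const_mul (T / 2)).add ((t3.const_mul (2 * T)).const_mul C)).add (t2.const_mul C)
    simpa using this
  obtain ⟨n0, hn0⟩ := eventually_atTop.1 (t4.eventually (gt_mem_nhds hη))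
  refine ⟨n0, fun n hn hn1 => ?_⟩
  have hmain := sl_main h' T e ρ D hT he hρ d g A hd hg hZc hd1 hd2 hg1 hA0 hAi hA n hn1 (WZ n)
    (WY n) (WB n) (wz1 n) (wy1 n) (wb1 n) (wz2 n) (wy2 n) (wb2 n) (wz6 n) (wz3 n hn1) (wy3 n hn1)
    (wb3 n hn1) hZI
  have := hn0 n hn
  linarith

end pair

end Pool.Agent.Helper41.SK
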