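import Pool.Agent.Helper41.SK.Defs
import Pool.Agent.Helper41.SK.MainDefs
import Pool.Agent.Helper41.SK.SA01
import Pool.Agent.Helper41.SK.SA03
import Pool.Agent.Helper41.SK.SC01
import Pool.Agent.Helper41.SK.SC04
import Pool.Agent.Helper41.SK.SC05
import Pool.Agent.Helper41.SK.SC08
import Pool.Agent.Helper41.SK.SC11

set_option autoImplicit false

open scoped ENNReal NNReal Topology
open MeasureTheory ProbabilityTheory Set Filter

namespace Pool.Agent.Helper41.SK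


section caseone

set_option linter.unusedSectionVars false

variable {Ω : Type*} [mΩ : MeasurableSpace Ω] {P : Measure Ω} [IsProbabilityMeasure P]
  {F : ℝ → MeasurableSpace Ω} {B : ℝ → Ω → ℝ} {c : ℝ} {φ ψ : ℝ → ℝ} {X L Y M : ℝ → Ω → ℝ}

omit [IsProbabilityMeasure P] in
theorem co_nn (h : SolC P F B c φ X L) (t : ℝ) (ht : 0 ≤ t) (ω : Ω) : 0 ≤ L t ω := by
  have := h.Lmono ω 0 t le_rfl ht
  rwa [h.L0] at this

omit [IsProbabilityMeasure P] in
/-- one may replace `φ` by `φ (max s 0)` and `X`, `L` by their values at `max t 0` -/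
theorem co_nice (h : SolC P F B c φ X L) :
    SolC P F B c (fun s => φ (max s 0)) (fun t => X (max t 0)) (fun t => L (max t 0)) where
  bm := h.bm
  lip := by
    intro s t hs ht
    simp only [max_eq_left hs, max_eq_left ht]
    exact h.lip s t hs ht
  c0 := by
    simp only [max_self]
    exact h.c0
  Xad := by
    intro t ht
    simp only [max_eq_left ht]
    exact h.Xad t ht
  Xc := fun ω => (h.Xc ω).comp (continuous_id.max continuous_const)
  Lad := by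
    intro t ht
    simp only [max_eq_left ht]
    exact h.Lad t ht
  Lc := fun ω => (h.Lc ω).comp (continuous_id.max continuous_const)
  L0 := by
    intro ω
    simp only [max_self]
    exact h.L0 ω
  Lmono := by
    intro ω s t hs hst
    simp only [max_eq_left hs, max_eq_left (hs.trans hst)]
    exact h.Lmono ω s t hs hst
  eq := by
    filter_upwards [h.eq] with ω hω t ht
    simp only [max_eq_left ht]
    rw [hω t ht, max_eq_left (co_nn h t ht ω)]
  Lsq := by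
    intro t ht
    simp only [max_eq_left ht]
    exact h.Lsq t ht
  flat := by
    filter_upwards [h.flat] with ω hω s t hs hst hr
    simp only [max_eq_left hs, max_eq_left (hs.trans hst)]
    refine hω s t hs hst fun r hr1 => ?_
    have := hr r hr1
    simp only [max_eq_left (hs.trans hr1.1)] at this
    exact this
  loc := by
    intro T e hT he he1
    have h1 := h.loc T e hT he he1
    have e1 : ∀ ω, ∫ s in (0:ℝ)..T, kap e (X (max s 0) ω) = ∫ s in (0:ℝ)..T, kap e (X s ω) := by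
      intro ω
      refine intervalIntegral.integral_congr fun s hs => ?_
      rw [uIcc_of_le hT] at hs
      simp only [max_eq_left hs.1]
    simp only [e1, max_eq_left hT]
    exact h1

/-- the width of the kernel -/
noncomputable def coD (φ ψ : ℝ → ℝ) (L M : ℝ → Ω → ℝ) (D ρ s : ℝ) (ω : Ω) : ℝ :=
  min (max (L s ω + φ (L s ω) - (M s ω + ψ (M s ω))) 0 / 2) D + ρ

/-- the shift of the kernel -/
noncomputable def coG (φ ψ : ℝ → ℝ) (L M : ℝ → Ω → ℝ) (ρ s : ℝ) (ω : Ω) : ℝ :=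
  max (L s ω - φ (L s ω) - (M s ω - ψ (M s ω))) 0 / 2 + ρ

theorem co_lip1 (a b D : ℝ) : |min (max a 0 / 2) D - min (max b 0 / 2) D| ≤ |a - b| / 2 := by
  have h1 := le_abs_self (a - b)
  have h2 := neg_abs_le (a - b)
  have h3 := abs_nonneg (a - b)
  rw [abs_le]
  constructor <;> (simp only [min_def, max_def]; split_ifs <;> linarith)

theorem co_lip2 (a b : ℝ) : |max a 0 / 2 - max b 0 / 2| ≤ |a - b| / 2 := by
  have h1 := le_abs_self (a - b)
  have h2 := neg_abs_le (a - b)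
  have h3 := abs_nonneg (a - b)
  rw [abs_le]
  constructor <;> (simp only [max_def]; split_ifs <;> linarith)

theorem co_d_ge (D ρ s : ℝ) (hD : 0 ≤ D) (ω : Ω) : ρ ≤ coD φ ψ L M D ρ s ω := by
  unfold coD
  have : 0 ≤ min (max (L s ω + φ (L s ω) - (M s ω + ψ (M s ω))) 0 / 2) D :=
    le_min (div_nonneg (le_max_right _ _) (by norm_num)) hD
  linarith

theorem co_d_le (D ρ s : ℝ) (ω : Ω) : coD φ ψ L M D ρ s ω ≤ D + ρ := by
  unfold coD
  have : min (max (L s ω + φ (L s ω) - (M s ω + ψ (M s ω))) 0 / 2) D ≤ D := min_le_right _ _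
  linarith

theorem co_g_ge (ρ s : ℝ) (ω : Ω) : ρ ≤ coG φ ψ L M ρ s ω := by
  unfold coG
  have : 0 ≤ max (L s ω - φ (L s ω) - (M s ω - ψ (M s ω))) 0 / 2 :=
    div_nonneg (le_max_right _ _) (by norm_num)
  linarith

theorem co_d_lip (hφ : ∀ s t, |φ s - φ t| ≤ |s - t|) (hψ : ∀ s t, |ψ s - ψ t| ≤ |s - t|)
    (D ρ s t : ℝ) (ω : Ω) (hL : L s ω ≤ L t ω) (hM : M s ω ≤ M t ω) :
    |coD φ ψ L M D ρ t ω - coD φ ψ L M D ρ s ω| ≤ (L t ω + M t ω) - (L s ω + M s ω) := by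
  unfold coD
  have h1 := co_lip1 (L t ω + φ (L t ω) - (M t ω + ψ (M t ω)))
    (L s ω + φ (L s ω) - (M s ω + ψ (M s ω))) D
  have h2 := abs_le.1 (hφ (L t ω) (L s ω))
  have h3 := abs_le.1 (hψ (M t ω) (M s ω))
  rw [abs_of_nonneg (sub_nonneg.2 hL)] at h2
  rw [abs_of_nonneg (sub_nonneg.2 hM)] at h3
  have h4 : |L t ω + φ (L t ω) - (M t ω + ψ (M t ω)) - (L s ω + φ (L s ω) - (M s ω + ψ (M s ω)))| ≤
      2 * ((L t ω + M t ω) - (L s ω + M s ω)) := by
    rw [abs_le]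
    constructor <;> linarith [h2.1, h2.2, h3.1, h3.2]
  rw [add_sub_add_right_eq_sub]
  linarith

theorem co_g_lip (hφ : ∀ s t, |φ s - φ t| ≤ |s - t|) (hψ : ∀ s t, |ψ s - ψ t| ≤ |s - t|)
    (ρ s t : ℝ) (ω : Ω) (hL : L s ω ≤ L t ω) (hM : M s ω ≤ M t ω) :
    |coG φ ψ L M ρ t ω - coG φ ψ L M ρ s ω| ≤ (L t ω + M t ω) - (L s ω + M s ω) := by
  unfold coG
  have h1 := co_lip2 (L t ω - φ (L t ω) - (M t ω - ψ (M t ω)))
    (L s ω - φ (L s ω) - (M s ω - ψ (M s ω)))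
  have h2 := abs_le.1 (hφ (L t ω) (L s ω))
  have h3 := abs_le.1 (hψ (M t ω) (M s ω))
  rw [abs_of_nonneg (sub_nonneg.2 hL)] at h2
  rw [abs_of_nonneg (sub_nonneg.2 hM)] at h3
  have h4 : |L t ω - φ (L t ω) - (M t ω - ψ (M t ω)) - (L s ω - φ (L s ω) - (M s ω - ψ (M s ω)))| ≤
      2 * ((L t ω + M t ω) - (L s ω + M s ω)) := by
    rw [abs_le]
    constructor <;> linarith [h2.1, h2.2, h3.1, h3.2]
  rw [add_sub_add_right_eq_sub]
  linarith

theorem co_cont (hφ : ∀ s t, |φ s - φ t| ≤ |s - t|) : Continuous φ := by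
  have : LipschitzWith 1 φ := LipschitzWith.of_dist_le_mul fun s t => by
    rw [Real.dist_eq, Real.dist_eq, NNReal.coe_one, one_mul]
    exact hφ s t
  exact this.continuous

theorem co_d_cont (hφ : Continuous φ) (hψ : Continuous ψ) (D ρ : ℝ) (ω : Ω)
    (hL : Continuous fun s => L s ω) (hM : Continuous fun s => M s ω) :
    Continuous fun s => coD φ ψ L M D ρ s ω := by
  unfold coD
  fun_prop

theorem co_g_cont (hφ : Continuous φ) (hψ : Continuous ψ) (ρ : ℝ) (ω : Ω)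
    (hL : Continuous fun s => L s ω) (hM : Continuous fun s => M s ω) :
    Continuous fun s => coG φ ψ L M ρ s ω := by
  unfold coG
  fun_prop

theorem co_d_meas {m0 : MeasurableSpace Ω} (hφ : Continuous φ) (hψ : Continuous ψ) (D ρ s : ℝ)
    (hL : Measurable[m0] (L s)) (hM : Measurable[m0] (M s)) :
    Measurable[m0] (coD φ ψ L M D ρ s) := by
  have hc : Continuous fun p : ℝ × ℝ => min (max (p.1 + φ p.1 - (p.2 + ψ p.2)) 0 / 2) D + ρ := by
    fun_prop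
  exact hc.measurable.comp (hL.prodMk hM)

theorem co_g_meas {m0 : MeasurableSpace Ω} (hφ : Continuous φ) (hψ : Continuous ψ) (ρ s : ℝ)
    (hL : Measurable[m0] (L s)) (hM : Measurable[m0] (M s)) :
    Measurable[m0] (coG φ ψ L M ρ s) := by
  have hc : Continuous fun p : ℝ × ℝ => max (p.1 - φ p.1 - (p.2 - ψ p.2)) 0 / 2 + ρ := by
    fun_prop
  exact hc.measurable.comp (hL.prodMk hM)

/-- the sum in the estimate -/
noncomputable def coS (φ ψ : ℝ → ℝ) (L M : ℝ → Ω → ℝ) (D ρ T : ℝ) (n : ℕ) (ω : Ω) : ℝ :=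
  ∑ i ∈ Finset.range n,
    Real.log (1 + 2 * coD φ ψ L M D ρ (gp 0 T n i) ω / coG φ ψ L M ρ (gp 0 T n i) ω) *
      ((M (gp 0 T n (i + 1)) ω - ψ (M (gp 0 T n (i + 1)) ω)
        - (M (gp 0 T n i) ω - ψ (M (gp 0 T n i) ω))) / 2
        + |coG φ ψ L M ρ (gp 0 T n (i + 1)) ω - coG φ ψ L M ρ (gp 0 T n i) ω|)

theorem co_log (d g D ρ : ℝ) (hρ : 0 < ρ) (hg : ρ ≤ g) (hd : ρ ≤ d) (hd2 : d ≤ D + ρ) :
    0 ≤ Real.log (1 + 2 * d / g) ∧ Real.log (1 + 2 * d / g) ≤ 2 * (D + ρ) / ρ := by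
  have hg0 : 0 < g := lt_of_lt_of_le hρ hg
  have hd0 : 0 < d := lt_of_lt_of_le hρ hd
  have h1 : 0 < 2 * d / g := by positivity
  constructor
  · exact Real.log_nonneg (by linarith)
  · have h2 := Real.log_le_sub_one_of_pos (show 0 < 1 + 2 * d / g by linarith)
    have h3 : 2 * d / g ≤ 2 * (D + ρ) / ρ := by
      rw [div_le_div_iff₀ hg0 hρ]
      nlinarith
    linarith

theorem co_sum (h : SolC P F B c φ X L) (h' : SolC P F B c ψ Y M)
    (hφ : ∀ s t, |φ s - φ t| ≤ |s - t|) (hψ : ∀ s t, |ψ s - ψ t| ≤ |s - t|)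
    (D ρ T : ℝ) (hD : 0 ≤ D) (hρ : 0 < ρ) (hT : 0 < T) (n : ℕ) (ω : Ω) :
    0 ≤ coS φ ψ L M D ρ T n ω ∧
      coS φ ψ L M D ρ T n ω ≤ (4 * (D + ρ) / ρ) * (L T ω + M T ω) := by
  have hLT := co_nn h T hT.le ω
  have hMT := co_nn h' T hT.le ω
  rcases Nat.eq_zero_or_pos n with h0 | hn
  · subst h0
    unfold coS
    rw [Finset.range_zero, Finset.sum_empty]
    exact ⟨le_rfl, by positivity⟩
  obtain ⟨g0, g1, g2, g3, g4, g5, g6⟩ := gp_facts 0 T hT.le n hn
  have hLi : ∀ i, L (gp 0 T n i) ω ≤ L (gp 0 T n (i + 1)) ω := fun i => h.Lmono ω _ _ (g4 i) (g2 i)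
  have hMi : ∀ i, M (gp 0 T n i) ω ≤ M (gp 0 T n (i + 1)) ω := fun i => h'.Lmono ω _ _ (g4 i) (g2 i)
  have hlog : ∀ i, 0 ≤ Real.log (1 + 2 * coD φ ψ L M D ρ (gp 0 T n i) ω /
      coG φ ψ L M ρ (gp 0 T n i) ω) ∧ Real.log (1 + 2 * coD φ ψ L M D ρ (gp 0 T n i) ω /
      coG φ ψ L M ρ (gp 0 T n i) ω) ≤ 2 * (D + ρ) / ρ := fun i =>
    co_log _ _ D ρ hρ (co_g_ge _ _ _) (co_d_ge _ _ _ hD _) (co_d_le _ _ _ _)
  have hterm : ∀ i, 0 ≤ (M (gp 0 T n (i + 1)) ω - ψ (M (gp 0 T n (i + 1)) ω)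
        - (M (gp 0 T n i) ω - ψ (M (gp 0 T n i) ω))) / 2
        + |coG φ ψ L M ρ (gp 0 T n (i + 1)) ω - coG φ ψ L M ρ (gp 0 T n i) ω| ∧
      (M (gp 0 T n (i + 1)) ω - ψ (M (gp 0 T n (i + 1)) ω)
        - (M (gp 0 T n i) ω - ψ (M (gp 0 T n i) ω))) / 2
        + |coG φ ψ L M ρ (gp 0 T n (i + 1)) ω - coG φ ψ L M ρ (gp 0 T n i) ω| ≤
      2 * ((L (gp 0 T n (i + 1)) ω + M (gp 0 T n (i + 1)) ω) -
        (L (gp 0 T n i) ω + M (gp 0 T n i) ω)) := by
    intro i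
    have e1 := co_g_lip hφ hψ ρ (gp 0 T n i) (gp 0 T n (i + 1)) ω (hLi i) (hMi i)
    have e2 := abs_nonneg (coG φ ψ L M ρ (gp 0 T n (i + 1)) ω - coG φ ψ L M ρ (gp 0 T n i) ω)
    have e3 := abs_le.1 (hψ (M (gp 0 T n (i + 1)) ω) (M (gp 0 T n i) ω))
    rw [abs_of_nonneg (sub_nonneg.2 (hMi i))] at e3
    have e4 := hLi i
    have e5 := hMi i
    constructor
    · linarith [e3.1, e3.2]
    · linarith [e3.1, e3.2]
  constructor
  · exact Finset.sum_nonneg fun i _ => mul_nonneg (hlog i).1 (hterm i).1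
  · have hKp : 0 ≤ 2 * (D + ρ) / ρ := by positivity
    have h1 : coS φ ψ L M D ρ T n ω ≤ ∑ i ∈ Finset.range n, (2 * (D + ρ) / ρ) *
        (2 * ((L (gp 0 T n (i + 1)) ω + M (gp 0 T n (i + 1)) ω) -
        (L (gp 0 T n i) ω + M (gp 0 T n i) ω))) :=
      Finset.sum_le_sum fun i _ => mul_le_mul (hlog i).2 (hterm i).2 (hterm i).1 hKp
    rw [← Finset.mul_sum, ← Finset.mul_sum,
      Finset.sum_range_sub (fun i => L (gp 0 T n i) ω + M (gp 0 T n i) ω), g0, g1, h.L0, h'.L0] at h1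
    refine h1.trans (le_of_eq ?_)
    ring

theorem co_sum_ev (h : SolC P F B c φ X L) (h' : SolC P F B c ψ Y M)
    (hLm : ∀ t, 0 ≤ t → Measurable (L t)) (hMm : ∀ t, 0 ≤ t → Measurable (M t))
    (η D ρ T : ℝ) (hη : ∀ s, 0 ≤ s → |φ s - ψ s| ≤ η) (hηρ : 2 * η ≤ ρ)
    (hD : 0 ≤ D) (hρ : 0 < ρ) (hT : 0 < T) (ω : Ω) :
    ∀ᶠ n in atTop, coS φ ψ L M D ρ T n ω ≤ 10 * (M T ω + L T ω) := by
  obtain ⟨W, -, -, hW1, hW2, -⟩ := mod_gen L hLm h.Lc T hT
  obtain ⟨W', -, -, hW1', hW2', -⟩ := mod_gen M hMm h'.Lc T hT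
  have hρ2 : 0 < ρ / 2 := by linarith
  filter_upwards [(hW2 ω).eventually (gt_mem_nhds hρ2), (hW2' ω).eventually (gt_mem_nhds hρ2),
    Filter.eventually_gt_atTop 0] with n hn1 hn2 hn
  obtain ⟨g0, g1, g2, g3, g4, g5, g6⟩ := gp_facts 0 T hT.le n hn
  have hdist : ∀ i, |gp 0 T n (i + 1) - gp 0 T n i| ≤ T / n := by
    intro i
    rw [g3, sub_zero, abs_of_nonneg (by positivity)]
  have key := log_max φ ψ h.lip h'.lip (h.c0.trans h'.c0.symm) η ρ D hη hρ hηρ hD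
    (fun i => M (gp 0 T n i) ω) (fun i => L (gp 0 T n i) ω) n
    (fun i j hij => h'.Lmono ω _ _ (g4 i) (g6 hij)) (fun i j hij => h.Lmono ω _ _ (g4 i) (g6 hij))
    (by show M (gp 0 T n 0) ω = 0; rw [g0]; exact h'.L0 ω)
    (by show L (gp 0 T n 0) ω = 0; rw [g0]; exact h.L0 ω)
    (by
      intro i hi
      have h1 := hW1' n hn ω (gp 0 T n (i + 1)) (gp 0 T n i) (g4 _) (g5 _ hi) (g4 _)
        (g5 _ hi.le) (hdist i)
      have h2 := le_abs_self (M (gp 0 T n (i + 1)) ω - M (gp 0 T n i) ω)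
      show M (gp 0 T n (i + 1)) ω - M (gp 0 T n i) ω ≤ ρ / 2
      linarith)
    (by
      intro i hi
      have h1 := hW1 n hn ω (gp 0 T n (i + 1)) (gp 0 T n i) (g4 _) (g5 _ hi) (g4 _)
        (g5 _ hi.le) (hdist i)
      have h2 := le_abs_self (L (gp 0 T n (i + 1)) ω - L (gp 0 T n i) ω)
      show L (gp 0 T n (i + 1)) ω - L (gp 0 T n i) ω ≤ ρ / 2
      linarith)
    (fun i => coD φ ψ L M D ρ (gp 0 T n i) ω) (fun i => coG φ ψ L M ρ (gp 0 T n i) ω)
    (fun i => rfl) (fun i => rfl)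
  simp only [g1] at key
  exact key

end caseone

section caseone2

set_option linter.unusedSectionVars false

variable {Ω : Type*} [mΩ : MeasurableSpace Ω] {P : Measure Ω} [IsProbabilityMeasure P]
  {F : ℝ → MeasurableSpace Ω} {B : ℝ → Ω → ℝ} {c : ℝ} {φ ψ : ℝ → ℝ} {X L Y M : ℝ → Ω → ℝ}

theorem co_bound (h : SolC P F B c φ X L) (h' : SolC P F B c ψ Y M)
    (hφ : ∀ s t, |φ s - φ t| ≤ |s - t|) (hψ : ∀ s t, |ψ s - ψ t| ≤ |s - t|) (η ρ T : ℝ)
    (hη : ∀ s, 0 ≤ s → |φ s - ψ s| ≤ η) (hηρ : 2 * η ≤ ρ) (hρ : 0 < ρ) (hρ1 : ρ ≤ 1)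
    (hT : 0 < T) (e D : ℝ) (he : 0 < e) (hD : 0 ≤ D) :
    ∫ ω, (∫ s in (0:ℝ)..T, wk e (coD φ ψ L M D ρ s ω) (coG φ ψ L M ρ s ω) (max (-Y s ω) 0)) ∂P ≤
      446 * (1 + |c| + T) := by
  have hφc := co_cont hφ
  have hψc := co_cont hψ
  have hLm : ∀ t, 0 ≤ t → Measurable (L t) := fun t ht => (h.Lad t ht).mono (h.bm.le t) le_rfl
  have hMm : ∀ t, 0 ≤ t → Measurable (M t) := fun t ht => (h'.Lad t ht).mono (h.bm.le t) le_rfl
  have hLi : Integrable (L T) P := (h.Lsq T hT.le).integrable (by norm_num)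
  have hMi : Integrable (M T) P := (h'.Lsq T hT.le).integrable (by norm_num)
  have hAi : Integrable (fun ω => L T ω + M T ω) P := hLi.add hMi
  obtain ⟨-, -, -, hL1⟩ := sol_l2 h T hT.le
  obtain ⟨-, -, -, hM1⟩ := sol_l2 h' T hT.le
  have hAE : ∫ ω, (L T ω + M T ω) ∂P ≤ 20 * (1 + |c| + T) := by
    rw [integral_add hLi hMi]
    linarith
  obtain ⟨n0, hn0⟩ := slem h' T e ρ (D + ρ) hT he hρ (coD φ ψ L M D ρ) (coG φ ψ L M ρ)
    (fun t ω => L t ω + M t ω) (fun t ht => co_d_meas hφc hψc D ρ t (h.Lad t ht) (h'.Lad t ht))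
    (fun t ht => co_g_meas hφc hψc ρ t (h.Lad t ht) (h'.Lad t ht))
    (fun ω => co_d_cont hφc hψc D ρ ω (h.Lc ω) (h'.Lc ω))
    (fun ω => co_g_cont hφc hψc ρ ω (h.Lc ω) (h'.Lc ω))
    (fun t ω => co_d_ge D ρ t hD ω) (fun t ω => co_d_le D ρ t ω) (fun t ω => co_g_ge ρ t ω)
    (fun t ht => (hLm t ht).add (hMm t ht))
    (Filter.Eventually.of_forall fun ω => by
      show L 0 ω + M 0 ω = 0
      rw [h.L0, h'.L0, add_zero]) hAi
    (Filter.Eventually.of_forall fun ω s t hs hst _ =>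
      ⟨co_d_lip hφ hψ D ρ s t ω (h.Lmono ω s t hs hst) (h'.Lmono ω s t hs hst),
        co_g_lip hφ hψ ρ s t ω (h.Lmono ω s t hs hst) (h'.Lmono ω s t hs hst)⟩) ρ hρ
  -- measurability of the sums
  have hSm : ∀ n : ℕ, 0 < n → Measurable (coS φ ψ L M D ρ T n) := by
    intro n hn
    obtain ⟨g0, g1, g2, g3, g4, g5, g6⟩ := gp_facts 0 T hT.le n hn
    unfold coS
    refine Finset.measurable_fun_sum _ fun i _ => ?_
    have m1 := co_d_meas (m0 := mΩ) hφc hψc D ρ (gp 0 T n i) (hLm _ (g4 i)) (hMm _ (g4 i))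
    have m2 := co_g_meas (m0 := mΩ) hφc hψc ρ (gp 0 T n i) (hLm _ (g4 i)) (hMm _ (g4 i))
    have m3 := co_g_meas (m0 := mΩ) hφc hψc ρ (gp 0 T n (i + 1)) (hLm _ (g4 _)) (hMm _ (g4 _))
    have m4 := hMm _ (g4 i)
    have m5 := hMm _ (g4 (i + 1))
    have m6 := hψc.measurable.comp m4
    have m7 := hψc.measurable.comp m5
    have m8 : Measurable fun ω => |coG φ ψ L M ρ (gp 0 T n (i + 1)) ω -
        coG φ ψ L M ρ (gp 0 T n i) ω| := (m3.sub m2).abs
    exact (Real.measurable_log.comp (((m1.const_mul 2).div m2).const_add 1)).mul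
      ((((m5.sub m7).sub (m4.sub m6)).div_const 2).add m8)
  have hK0 : 0 ≤ 4 * (D + ρ) / ρ := by positivity
  have hA0 : ∀ ω, 0 ≤ L T ω + M T ω := fun ω => add_nonneg (co_nn h T hT.le ω) (co_nn h' T hT.le ω)
  -- the excess tends to zero
  have hlim : Tendsto (fun n : ℕ => ∫ ω, max (coS φ ψ L M D ρ T (n + 1) ω -
      10 * (M T ω + L T ω)) 0 ∂P) atTop (𝓝 (∫ _ω, (0:ℝ) ∂P)) := by
    refine tendsto_integral_of_dominated_convergence
      (fun ω => (4 * (D + ρ) / ρ) * (L T ω + M T ω)) ?_ (hAi.const_mul _) ?_ ?_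
    · intro n
      exact (((hSm (n + 1) (Nat.succ_pos n)).sub (((hMm T hT.le).add (hLm T hT.le)).const_mul
        10)).max measurable_const).aestronglyMeasurable
    · intro n
      refine Filter.Eventually.of_forall fun ω => ?_
      have e1 := co_sum h h' hφ hψ D ρ T hD hρ hT (n + 1) ω
      have e2 := hA0 ω
      rw [Real.norm_eq_abs, abs_of_nonneg (le_max_right _ _)]
      refine max_le ?_ (mul_nonneg hK0 e2)
      linarith [e1.2]
    · refine Filter.Eventually.of_forall fun ω => ?_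
      have e1 := co_sum_ev h h' hLm hMm η D ρ T hη hηρ hD hρ hT ω
      have e2 := (tendsto_add_atTop_nat 1).eventually e1
      refine tendsto_const_nhds.congr' (e2.mono fun n hn => ?_)
      show (0:ℝ) = max (coS φ ψ L M D ρ T (n + 1) ω - 10 * (M T ω + L T ω)) 0
      exact (max_eq_right (by linarith)).symm
  rw [integral_zero] at hlim
  obtain ⟨n, hn1, hn2⟩ := ((hlim.eventually (gt_mem_nhds hρ)).and
    (Filter.eventually_ge_atTop n0)).exists
  have key := hn0 (n + 1) (by omega) (Nat.succ_pos n)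
  have hd0 : ∫ ω, coD φ ψ L M D ρ 0 ω ∂P = ρ := by
    have : ∀ ω, coD φ ψ L M D ρ 0 ω = ρ := by
      intro ω
      unfold coD
      rw [h.L0, h'.L0, h.c0, h'.c0, sub_self, max_self, zero_div, min_eq_left hD, zero_add]
    simp only [this]
    simp
  have hR : Integrable (fun ω => max (coS φ ψ L M D ρ T (n + 1) ω -
      10 * (M T ω + L T ω)) 0) P := by
    refine (hAi.const_mul (4 * (D + ρ) / ρ)).mono' (((hSm (n + 1) (Nat.succ_pos n)).sub
      (((hMm T hT.le).add (hLm T hT.le)).const_mul 10)).max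
      measurable_const).aestronglyMeasurable (Filter.Eventually.of_forall fun ω => ?_)
    have e1 := co_sum h h' hφ hψ D ρ T hD hρ hT (n + 1) ω
    have e2 := hA0 ω
    rw [Real.norm_eq_abs, abs_of_nonneg (le_max_right _ _)]
    refine max_le ?_ (mul_nonneg hK0 e2)
    linarith [e1.2]
  have hS : ∫ ω, coS φ ψ L M D ρ T (n + 1) ω ∂P ≤ 200 * (1 + |c| + T) + ρ := by
    have e1 : ∫ ω, coS φ ψ L M D ρ T (n + 1) ω ∂P ≤ ∫ ω, (10 * (L T ω + M T ω) +
        max (coS φ ψ L M D ρ T (n + 1) ω - 10 * (M T ω + L T ω)) 0) ∂P := by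
      refine integral_mono_of_nonneg (Filter.Eventually.of_forall fun ω =>
        (co_sum h h' hφ hψ D ρ T hD hρ hT (n + 1) ω).1) ((hAi.const_mul 10).add hR)
        (Filter.Eventually.of_forall fun ω => ?_)
      have e2 := le_max_left (coS φ ψ L M D ρ T (n + 1) ω - 10 * (M T ω + L T ω)) 0
      show coS φ ψ L M D ρ T (n + 1) ω ≤ 10 * (L T ω + M T ω) +
        max (coS φ ψ L M D ρ T (n + 1) ω - 10 * (M T ω + L T ω)) 0
      linarith
    rw [integral_add (hAi.const_mul 10) hR, integral_const_mul] at e1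
    linarith
  have hm : 1 ≤ 1 + |c| + T := by
    have := abs_nonneg c
    linarith
  have key2 : (∫ ω, (∫ s in (0:ℝ)..T, wk e (coD φ ψ L M D ρ s ω) (coG φ ψ L M ρ s ω)
      (max (-Y s ω) 0)) ∂P) / 2 ≤ (∫ ω, coD φ ψ L M D ρ 0 ω ∂P) +
      (∫ ω, (L T ω + M T ω) ∂P) + (∫ ω, coS φ ψ L M D ρ T (n + 1) ω ∂P) + ρ := key
  rw [hd0] at key2
  linarith

theorem co_point (hφ : ∀ s t, |φ s - φ t| ≤ |s - t|) (h0 : φ 0 = ψ 0) (η ρ : ℝ)
    (hη : ∀ s, 0 ≤ s → |φ s - ψ s| ≤ η) (hηρ : 2 * η ≤ ρ) (hρ : 0 < ρ) (x y l m b : ℝ)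
    (hm : 0 ≤ m) (hx : x = b + φ l) (hy : y = b + ψ m) (hx0 : 0 < x) (hy0 : y < 0)
    (hml : m ≤ l) (D e : ℝ) (he : 0 < e) (hey : e ≤ -y)
    (hD : max (l + φ l - (m + ψ m)) 0 / 2 ≤ D) :
    hr2 (2 * ρ) ((max x 0 - (l + φ l - φ 0) / 2) - (max y 0 - (m + ψ m - ψ 0) / 2)) ≤
      2 * wk e (min (max (l + φ l - (m + ψ m)) 0 / 2) D + ρ)
        (max (l - φ l - (m - ψ m)) 0 / 2 + ρ) (max (-y) 0) := by
  have e1 := abs_le.1 (hφ l m)
  rw [abs_of_nonneg (sub_nonneg.2 hml)] at e1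
  have e2 := abs_le.1 (hη m hm)
  have hη0 : 0 ≤ η := (abs_nonneg _).trans (hη m hm)
  have hy1 : 0 < -y := by linarith
  obtain ⟨a, ha⟩ : ∃ a, a = max (l + φ l - (m + ψ m)) 0 := ⟨_, rfl⟩
  obtain ⟨g, hg⟩ : ∃ g, g = max (l - φ l - (m - ψ m)) 0 := ⟨_, rfl⟩
  have ha0 : 0 ≤ a := ha ▸ le_max_right _ _
  have hg0 : 0 ≤ g := hg ▸ le_max_right _ _
  have ha1 : l + φ l - (m + ψ m) ≤ a := ha ▸ le_max_left _ _
  have hg1 : g ≤ l - φ l - (m - ψ m) + η := by
    rw [hg]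
    refine max_le (by linarith) (by linarith [e1.1, e1.2, e2.1, e2.2])
  rw [← ha] at hD
  rw [← ha, ← hg, min_eq_left hD, max_eq_left hx0.le, max_eq_right hy0.le, h0,
    max_eq_left hy1.le]
  unfold hr2 wk
  rw [max_eq_left hy1.le, min_eq_right (by rwa [le_div_iff₀ he, one_mul]), one_mul]
  have hd : 0 < a / 2 + ρ := by linarith
  have hz : -y ≤ a / 2 + ρ := by linarith [e1.1, e1.2, e2.1, e2.2]
  have hk : (1 / 2 : ℝ) ≤ max (1 - -y / (2 * (a / 2 + ρ))) 0 := by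
    refine le_trans ?_ (le_max_left _ _)
    have : -y / (2 * (a / 2 + ρ)) ≤ 1 / 2 := by
      rw [div_le_iff₀ (by linarith)]
      linarith
    linarith
  have hgy : 0 < g / 2 + ρ + -y := by linarith
  have hK : g / 2 + ρ + -y ≤ |x - (l + φ l - ψ 0) / 2 - (0 - (m + ψ m - ψ 0) / 2)| + 2 * ρ := by
    have := neg_abs_le (x - (l + φ l - ψ 0) / 2 - (0 - (m + ψ m - ψ 0) / 2))
    linarith
  calc 1 / (|x - (l + φ l - ψ 0) / 2 - (0 - (m + ψ m - ψ 0) / 2)| + 2 * ρ)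
      ≤ 1 / (g / 2 + ρ + -y) := one_div_le_one_div_of_le hgy hK
    _ = 2 * ((1 / 2) / (g / 2 + ρ + -y)) := by ring
    _ ≤ 2 * (max (1 - -y / (2 * (a / 2 + ρ))) 0 / (g / 2 + ρ + -y)) := by
        have := div_le_div_of_nonneg_right hk hgy.le
        linarith

theorem co_main (h : SolC P F B c φ X L) (h' : SolC P F B c ψ Y M)
    (hφ : ∀ s t, |φ s - φ t| ≤ |s - t|) (hψ : ∀ s t, |ψ s - ψ t| ≤ |s - t|)
    (hLn : ∀ s, L s = L (max s 0)) (hMn : ∀ s, M s = M (max s 0)) (hYn : ∀ s, Y s = Y (max s 0))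
    (η ρ T : ℝ) (hη : ∀ s, 0 ≤ s → |φ s - ψ s| ≤ η) (hηρ : 2 * η ≤ ρ) (hρ : 0 < ρ) (hρ1 : ρ ≤ 1)
    (hT : 0 < T) :
    ∫ ω, (∫ s in (0:ℝ)..T, if 0 < X s ω ∧ Y s ω < 0 ∧ M s ω ≤ L s ω then
      hr2 (2 * ρ) (Np φ X L s ω - Np ψ Y M s ω) else 0) ∂P ≤ 1000 * (1 + |c| + T) := by
  have hφc := co_cont hφ
  have hψc := co_cont hψ
  have hLm : ∀ t, Measurable (L t) := fun t => by
    rw [hLn]
    exact (h.Lad _ (le_max_right _ _)).mono (h.bm.le _) le_rfl
  have hMm : ∀ t, Measurable (M t) := fun t => by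
    rw [hMn]
    exact (h'.Lad _ (le_max_right _ _)).mono (h.bm.le _) le_rfl
  have hYm : ∀ t, Measurable (Y t) := fun t => by
    rw [hYn]
    exact (h'.Xad _ (le_max_right _ _)).mono (h.bm.le _) le_rfl
  have jL : Measurable (fun p : ℝ × Ω => L p.1 p.2) :=
    measurable_uncurry_of_continuous_of_measurable (u := L) h.Lc hLm
  have jM : Measurable (fun p : ℝ × Ω => M p.1 p.2) :=
    measurable_uncurry_of_continuous_of_measurable (u := M) h'.Lc hMm
  have jY : Measurable (fun p : ℝ × Ω => Y p.1 p.2) :=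
    measurable_uncurry_of_continuous_of_measurable (u := Y) h'.Xc hYm
  have jφ : Measurable (fun p : ℝ × Ω => φ (L p.1 p.2)) := hφc.measurable.comp jL
  have jψ : Measurable (fun p : ℝ × Ω => ψ (M p.1 p.2)) := hψc.measurable.comp jM
  let Fk : ℕ → ℝ → Ω → ℝ := fun k s ω =>
    wk (1 / ((k : ℝ) + 1)) (coD φ ψ L M k ρ s ω) (coG φ ψ L M ρ s ω) (max (-Y s ω) 0)
  have jF : ∀ k, Measurable (fun p : ℝ × Ω => Fk k p.1 p.2) := by
    intro k
    show Measurable (fun p : ℝ × Ω => wk (1 / ((k : ℝ) + 1)) (coD φ ψ L M k ρ p.1 p.2)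
      (coG φ ψ L M ρ p.1 p.2) (max (-Y p.1 p.2) 0))
    unfold wk coD coG
    fun_prop
  have hk1 : ∀ k : ℕ, (0 : ℝ) < 1 / ((k : ℝ) + 1) := fun k => Nat.one_div_pos_of_nat
  have hF0 : ∀ k s ω, 0 ≤ Fk k s ω := fun k s ω =>
    (wk_facts _ _ _ ρ (hk1 k) hρ (co_d_ge _ ρ s (Nat.cast_nonneg k) ω) (co_g_ge ρ s ω)).1 _
  have hF1 : ∀ k s ω, Fk k s ω ≤ 1 / ρ := by
    intro k s ω
    refine ((wk_facts _ _ _ ρ (hk1 k) hρ (co_d_ge _ ρ s (Nat.cast_nonneg k) ω)
      (co_g_ge ρ s ω)).2.1 _).trans ?_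
    refine one_div_le_one_div_of_le hρ ?_
    have e1 : ρ ≤ coG φ ψ L M ρ s ω := co_g_ge ρ s ω
    have e2 := le_max_right (max (-Y s ω) 0) 0
    linarith
  have hm : 1 ≤ 1 + |c| + T := by
    have := abs_nonneg c
    linarith
  -- the bound for each `k`
  have step1 : ∀ k : ℕ, ∫⁻ ω, (∫⁻ s in Ioc (0:ℝ) T, ENNReal.ofReal (2 * Fk k s ω)) ∂P ≤
      ENNReal.ofReal (892 * (1 + |c| + T)) := by
    intro k
    have hI1 : ∀ ω, Integrable (fun s => 2 * Fk k s ω) (volume.restrict (Ioc (0:ℝ) T)) := by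
      intro ω
      refine Integrable.of_bound (C := 2 * (1 / ρ)) ?_ (Filter.Eventually.of_forall fun s => ?_)
      · exact (((jF k).comp (measurable_id.prodMk measurable_const :
          Measurable fun s : ℝ => (s, ω))).const_mul 2).aestronglyMeasurable
      · rw [Real.norm_eq_abs, abs_of_nonneg (mul_nonneg (by norm_num) (hF0 k s ω))]
        exact mul_le_mul_of_nonneg_left (hF1 k s ω) (by norm_num)
    have e1 : ∀ ω, ∫⁻ s in Ioc (0:ℝ) T, ENNReal.ofReal (2 * Fk k s ω) =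
        ENNReal.ofReal (∫ s in Ioc (0:ℝ) T, 2 * Fk k s ω) := fun ω =>
      (ofReal_integral_eq_lintegral_ofReal (hI1 ω) (Filter.Eventually.of_forall fun s =>
        mul_nonneg (by norm_num) (hF0 k s ω))).symm
    have hsm : StronglyMeasurable (fun ω => ∫ s in Ioc (0:ℝ) T, 2 * Fk k s ω) := by
      refine StronglyMeasurable.integral_prod_left (f := fun s ω => 2 * Fk k s ω) ?_
      exact ((jF k).const_mul 2).stronglyMeasurable
    have hnn : ∀ ω, 0 ≤ ∫ s in Ioc (0:ℝ) T, 2 * Fk k s ω := fun ω =>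
      integral_nonneg fun s => mul_nonneg (by norm_num) (hF0 k s ω)
    have hI2 : Integrable (fun ω => ∫ s in Ioc (0:ℝ) T, 2 * Fk k s ω) P := by
      refine Integrable.of_bound (C := ∫ _s in Ioc (0:ℝ) T, (2 * (1 / ρ))) hsm.aestronglyMeasurable
        (Filter.Eventually.of_forall fun ω => ?_)
      rw [Real.norm_eq_abs, abs_of_nonneg (hnn ω)]
      refine integral_mono (hI1 ω) (integrable_const _) fun s => ?_
      exact mul_le_mul_of_nonneg_left (hF1 k s ω) (by norm_num)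
    simp only [e1]
    rw [← ofReal_integral_eq_lintegral_ofReal hI2 (Filter.Eventually.of_forall hnn)]
    refine ENNReal.ofReal_le_ofReal ?_
    have hb := co_bound h h' hφ hψ η ρ T hη hηρ hρ hρ1 hT (1 / ((k : ℝ) + 1)) k (hk1 k)
      (Nat.cast_nonneg k)
    have e2 : ∫ ω, (∫ s in Ioc (0:ℝ) T, 2 * Fk k s ω) ∂P =
        2 * ∫ ω, (∫ s in (0:ℝ)..T, Fk k s ω) ∂P := by
      rw [← integral_const_mul]
      refine integral_congr_ae (Filter.Eventually.of_forall fun ω => ?_)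
      show ∫ s in Ioc (0:ℝ) T, 2 * Fk k s ω = 2 * ∫ s in (0:ℝ)..T, Fk k s ω
      rw [integral_const_mul, intervalIntegral.integral_of_le hT.le]
    rw [e2]
    have hb' : ∫ ω, (∫ s in (0:ℝ)..T, Fk k s ω) ∂P ≤ 446 * (1 + |c| + T) := hb
    linarith
  -- Fatou
  let G : ℝ → Ω → ℝ := fun s ω => if 0 < X s ω ∧ Y s ω < 0 ∧ M s ω ≤ L s ω then
      hr2 (2 * ρ) (Np φ X L s ω - Np ψ Y M s ω) else 0
  have step2 : ∫⁻ ω, (∫⁻ s in Ioc (0:ℝ) T, ENNReal.ofReal ‖G s ω‖) ∂P ≤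
      ENNReal.ofReal (892 * (1 + |c| + T)) := by
    calc ∫⁻ ω, (∫⁻ s in Ioc (0:ℝ) T, ENNReal.ofReal ‖G s ω‖) ∂P
        ≤ ∫⁻ ω, (∫⁻ s in Ioc (0:ℝ) T,
            liminf (fun k => ENNReal.ofReal (2 * Fk k s ω)) atTop) ∂P := by
          refine lintegral_mono_ae ?_
          filter_upwards [h.eq, h'.eq] with ω hω hω'
          refine setLIntegral_mono' measurableSet_Ioc fun s hs => ?_
          by_cases hev : 0 < X s ω ∧ Y s ω < 0 ∧ M s ω ≤ L s ω
          · have hG : G s ω = hr2 (2 * ρ) (Np φ X L s ω - Np ψ Y M s ω) := if_pos hev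
            have hpos := (hr_facts (2 * ρ) (by linarith)).2.2.1 (Np φ X L s ω - Np ψ Y M s ω)
            rw [hG, Real.norm_eq_abs, abs_of_pos hpos]
            refine le_liminf_of_le (by isBoundedDefault) ?_
            have hy : 0 < -Y s ω := by linarith [hev.2.1]
            filter_upwards [(tendsto_one_div_add_atTop_nhds_zero_nat (𝕜 := ℝ)).eventually
              (ge_mem_nhds hy), (tendsto_natCast_atTop_atTop (R := ℝ)).eventually_ge_atTop
              (max (L s ω + φ (L s ω) - (M s ω + ψ (M s ω))) 0 / 2)] with k hk hk2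
            refine ENNReal.ofReal_le_ofReal ?_
            exact co_point hφ (h.c0.trans h'.c0.symm) η ρ hη hηρ hρ (X s ω) (Y s ω) (L s ω)
              (M s ω) (B s ω) (co_nn h' s hs.1.le ω) (hω s hs.1.le) (hω' s hs.1.le) hev.1 hev.2.1
              hev.2.2 k (1 / ((k : ℝ) + 1)) (hk1 k) hk hk2
          · have hG : G s ω = 0 := if_neg hev
            rw [hG, norm_zero, ENNReal.ofReal_zero]
            exact zero_le
      _ ≤ ∫⁻ ω, liminf (fun k => ∫⁻ s in Ioc (0:ℝ) T, ENNReal.ofReal (2 * Fk k s ω)) atTop ∂P :=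
          lintegral_mono fun ω => lintegral_liminf_le fun k =>
            (((jF k).comp (measurable_id.prodMk measurable_const :
              Measurable fun s : ℝ => (s, ω))).const_mul 2).ennreal_ofReal
      _ ≤ liminf (fun k => ∫⁻ ω, (∫⁻ s in Ioc (0:ℝ) T, ENNReal.ofReal (2 * Fk k s ω)) ∂P) atTop :=
          lintegral_liminf_le fun k => Measurable.lintegral_prod_left'
            (f := fun p : ℝ × Ω => ENNReal.ofReal (2 * Fk k p.1 p.2))
            ((jF k).const_mul 2).ennreal_ofReal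
      _ ≤ ENNReal.ofReal (892 * (1 + |c| + T)) :=
          liminf_le_of_frequently_le' (Filter.Frequently.of_forall step1)
  have step3 : ∀ ω, ENNReal.ofReal ‖∫ s in (0:ℝ)..T, G s ω‖ ≤
      ∫⁻ s in Ioc (0:ℝ) T, ENNReal.ofReal ‖G s ω‖ := by
    intro ω
    rw [intervalIntegral.integral_of_le hT.le]
    exact (ENNReal.ofReal_le_ofReal (norm_integral_le_lintegral_norm _)).trans
      ENNReal.ofReal_toReal_le
  have step4 : ‖∫ ω, (∫ s in (0:ℝ)..T, G s ω) ∂P‖ ≤ 892 * (1 + |c| + T) := by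
    refine (norm_integral_le_lintegral_norm _).trans ?_
    refine ENNReal.toReal_le_of_le_ofReal (by linarith) ?_
    exact (lintegral_mono step3).trans step2
  have step5 : ∫ ω, (∫ s in (0:ℝ)..T, G s ω) ∂P ≤ 892 * (1 + |c| + T) :=
    (Real.le_norm_self _).trans step4
  refine step5.trans ?_
  linarith

end caseone2

/-! ## TARGETS: prove these (statements must not be changed; helper lemmas are welcome) -/

section pair

variable {Ω : Type*} [mΩ : MeasurableSpace Ω] {P : Measure Ω} [IsProbabilityMeasure P]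
  {F : ℝ → MeasurableSpace Ω} {B : ℝ → Ω → ℝ} {c : ℝ} {φ ψ : ℝ → ℝ} {X L Y M : ℝ → Ω → ℝ}

theorem case_one (h : SolC P F B c φ X L) (h' : SolC P F B c ψ Y M) (η ρ T : ℝ)
    (hη : ∀ s, 0 ≤ s → |φ s - ψ s| ≤ η) (hηρ : 2 * η ≤ ρ) (hρ : 0 < ρ) (hρ1 : ρ ≤ 1)
    (hT : 0 < T) :
    ∫ ω, (∫ s in (0:ℝ)..T, if 0 < X s ω ∧ Y s ω < 0 ∧ M s ω ≤ L s ω then
      hr2 (2 * ρ) (Np φ X L s ω - Np ψ Y M s ω) else 0) ∂P ≤ 1000 * (1 + |c| + T) := by
  have key := co_main (co_nice h) (co_nice h')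
    (fun s t => (h.lip _ _ (le_max_right _ _) (le_max_right _ _)).trans
      (abs_max_sub_max_le_abs s t 0))
    (fun s t => (h'.lip _ _ (le_max_right _ _) (le_max_right _ _)).trans
      (abs_max_sub_max_le_abs s t 0))
    (fun s => by
      show L (max s 0) = L (max (max s 0) 0)
      rw [max_eq_left (le_max_right s 0)])
    (fun s => by
      show M (max s 0) = M (max (max s 0) 0)
      rw [max_eq_left (le_max_right s 0)])
    (fun s => by
      show Y (max s 0) = Y (max (max s 0) 0)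
      rw [max_eq_left (le_max_right s 0)])
    η ρ T (fun s hs => by
      simp only [max_eq_left hs]
      exact hη s hs) hηρ hρ hρ1 hT
  refine le_trans (le_of_eq ?_) key
  refine integral_congr_ae (Filter.Eventually.of_forall fun ω => ?_)
  refine intervalIntegral.integral_congr fun s hs => ?_
  rw [uIcc_of_le hT.le] at hs
  simp only [Np, max_eq_left hs.1, max_self, max_eq_left (co_nn h s hs.1 ω),
    max_eq_left (co_nn h' s hs.1 ω)]

end pair

end Pool.Agent.Helper41.SK
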