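import Pool.Agent.Helper41.SK.Defs
import Pool.Agent.Helper41.SK.MainDefs
import Pool.Agent.Helper41.SK.SC01
import Pool.Agent.Helper41.SK.SC02
import Pool.Agent.Helper41.SK.SC04
import Pool.Agent.Helper41.SK.SC12

set_option autoImplicit false

open scoped ENNReal NNReal Topology
open MeasureTheory ProbabilityTheory Set Filter

namespace Pool.Agent.Helper41.SK


/-! ## TARGETS: prove these (statements must not be changed; helper lemmas are welcome) -/

section pair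

variable {Ω : Type*} [mΩ : MeasurableSpace Ω] {P : Measure Ω} [IsProbabilityMeasure P]
  {F : ℝ → MeasurableSpace Ω} {B : ℝ → Ω → ℝ} {c : ℝ} {φ ψ : ℝ → ℝ} {X L Y M : ℝ → Ω → ℝ}

theorem meas_unc {Z : ℝ → Ω → ℝ} (hZc : ∀ ω, Continuous (fun t => Z t ω))
    (hZm : ∀ t, 0 ≤ t → Measurable (Z t)) :
    Measurable (fun q : Ω × ℝ => Z (max q.2 0) q.1) := by
  have h := measurable_uncurry_of_continuous_of_measurable
    (u := fun (t : ℝ) (ω : Ω) => Z (max t 0) ω)
    (fun ω => (hZc ω).comp (continuous_id.max continuous_const))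
    (fun t => hZm _ (le_max_right _ _))
  exact h.comp measurable_swap

theorem sol_measX (h : SolC P F B c φ X L) : ∀ t, 0 ≤ t → Measurable (X t) :=
  fun t ht => (h.Xad t ht).mono (h.bm.le t) le_rfl

theorem sol_measL (h : SolC P F B c φ X L) : ∀ t, 0 ≤ t → Measurable (L t) :=
  fun t ht => (h.Lad t ht).mono (h.bm.le t) le_rfl

theorem sol_Lnn (h : SolC P F B c φ X L) (ω : Ω) (t : ℝ) (ht : 0 ≤ t) : 0 ≤ L t ω := by
  have h1 := h.Lmono ω 0 t le_rfl ht
  rw [h.L0 ω] at h1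
  exact h1

theorem phi_cont (h : SolC P F B c φ X L) : Continuous (fun s => φ (max s 0)) := by
  have : LipschitzWith 1 (fun s => φ (max s 0)) := by
    refine LipschitzWith.of_dist_le_mul ?_
    intro x y
    rw [Real.dist_eq, Real.dist_eq, NNReal.coe_one, one_mul]
    refine (h.lip _ _ (le_max_right _ _) (le_max_right _ _)).trans ?_
    exact abs_max_sub_max_le_abs x y 0
  exact this.continuous

theorem Np_meas (h : SolC P F B c φ X L) :
    Measurable (fun q : Ω × ℝ => Np φ X L (max q.2 0) q.1) := by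
  have hX := meas_unc h.Xc (sol_measX h)
  have hL := meas_unc h.Lc (sol_measL h)
  have hφ : Measurable (fun q : Ω × ℝ => φ (L (max q.2 0) q.1)) := by
    have h1 := (phi_cont h).measurable.comp hL
    have e : (fun q : Ω × ℝ => φ (L (max q.2 0) q.1)) =
        (fun s => φ (max s 0)) ∘ (fun q : Ω × ℝ => L (max q.2 0) q.1) := by
      funext q
      show φ (L (max q.2 0) q.1) = φ (max (L (max q.2 0) q.1) 0)
      rw [max_eq_left (sol_Lnn h q.1 _ (le_max_right _ _))]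
    rw [e]
    exact h1
  unfold Np
  exact (hX.max measurable_const).sub (((hL.add hφ).sub measurable_const).div_const 2)

theorem hr2_meas (r : ℝ) : Measurable (hr2 r) := by
  unfold hr2
  fun_prop

/-- the case integrand -/
noncomputable def GG (ρ : ℝ) (φ ψ : ℝ → ℝ) (X L Y M : ℝ → Ω → ℝ) (ω : Ω) (s : ℝ) : ℝ :=
  if 0 < X s ω ∧ Y s ω < 0 ∧ M s ω ≤ L s ω then
      hr2 (2 * ρ) (Np φ X L s ω - Np ψ Y M s ω) else 0

theorem GG_meas (h : SolC P F B c φ X L) (h' : SolC P F B c ψ Y M) (ρ : ℝ) :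
    Measurable (fun q : Ω × ℝ => GG ρ φ ψ X L Y M q.1 (max q.2 0)) := by
  have hX := meas_unc h.Xc (sol_measX h)
  have hL := meas_unc h.Lc (sol_measL h)
  have hY := meas_unc h'.Xc (sol_measX h')
  have hM := meas_unc h'.Lc (sol_measL h')
  unfold GG
  refine Measurable.ite ?_ ?_ measurable_const
  · exact ((measurableSet_lt measurable_const hX).inter
      ((measurableSet_lt hY measurable_const).inter (measurableSet_le hM hL)))
  · exact (hr2_meas (2 * ρ)).comp ((Np_meas h).sub (Np_meas h'))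

theorem GG_bd (ρ : ℝ) (hρ : 0 < ρ) (ω : Ω) (s : ℝ) :
    0 ≤ GG ρ φ ψ X L Y M ω s ∧ GG ρ φ ψ X L Y M ω s ≤ 1 / (2 * ρ) := by
  obtain ⟨-, -, h3, h4, -⟩ := hr_facts (2 * ρ) (by positivity)
  unfold GG
  split_ifs
  · exact ⟨(h3 _).le, h4 _⟩
  · exact ⟨le_rfl, by positivity⟩

theorem GG_int (h : SolC P F B c φ X L) (h' : SolC P F B c ψ Y M) (ρ T : ℝ) (hρ : 0 < ρ) :
    Integrable (fun q : Ω × ℝ => GG ρ φ ψ X L Y M q.1 (max q.2 0))
      (P.prod (volume.restrict (Ioc (0:ℝ) T))) := by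
  refine Integrable.of_bound (GG_meas h h' ρ).aestronglyMeasurable (1 / (2 * ρ)) ?_
  refine Filter.Eventually.of_forall fun q => ?_
  have := GG_bd (φ := φ) (ψ := ψ) (X := X) (L := L) (Y := Y) (M := M) ρ hρ q.1 (max q.2 0)
  rw [Real.norm_eq_abs, abs_of_nonneg this.1]
  exact this.2

theorem GG_conv (ρ T : ℝ) (hT : 0 < T) (ω : Ω) :
    (∫ s in (0:ℝ)..T, GG ρ φ ψ X L Y M ω s) =
      ∫ s in Ioc (0:ℝ) T, GG ρ φ ψ X L Y M ω (max s 0) := by
  rw [intervalIntegral.integral_of_le hT.le]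
  refine setIntegral_congr_fun measurableSet_Ioc ?_
  intro s hs
  show GG ρ φ ψ X L Y M ω s = GG ρ φ ψ X L Y M ω (max s 0)
  rw [max_eq_left hs.1.le]

theorem GG_le (h : SolC P F B c φ X L) (h' : SolC P F B c ψ Y M) (η ρ T : ℝ)
    (hη : ∀ s, 0 ≤ s → |φ s - ψ s| ≤ η) (hηρ : 2 * η ≤ ρ) (hρ : 0 < ρ) (hρ1 : ρ ≤ 1)
    (hT : 0 < T) :
    ∫ ω, (∫ s in Ioc (0:ℝ) T, GG ρ φ ψ X L Y M ω (max s 0)) ∂P ≤ 1000 * (1 + |c| + T) := by
  have h1 := case_one h h' η ρ T hη hηρ hρ hρ1 hT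
  refine le_trans (le_of_eq ?_) h1
  refine integral_congr_ae (Filter.Eventually.of_forall fun ω => ?_)
  exact (GG_conv ρ T hT ω).symm

theorem hr2_neg (r x : ℝ) : hr2 r (-x) = hr2 r x := by
  unfold hr2
  rw [abs_neg]

theorem int_add4 {α : Type*} [MeasurableSpace α] (μ : Measure α) (f g u v : α → ℝ)
    (hf : Integrable f μ) (hg : Integrable g μ) (hu : Integrable u μ) (hv : Integrable v μ) :
    ∫ x, (f x + g x + u x + v x) ∂μ =
      (∫ x, f x ∂μ) + (∫ x, g x ∂μ) + (∫ x, u x ∂μ) + (∫ x, v x ∂μ) := by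
  have h1 : Integrable (fun x => f x + g x) μ := hf.add hg
  have h2 : Integrable (fun x => f x + g x + u x) μ := h1.add hu
  rw [integral_add h2 hv, integral_add h1 hu, integral_add hf hg]

theorem all_cases (h : SolC P F B c φ X L) (h' : SolC P F B c ψ Y M) (η ρ T : ℝ)
    (hη : ∀ s, 0 ≤ s → |φ s - ψ s| ≤ η) (hηρ : 2 * η ≤ ρ) (hρ : 0 < ρ) (hρ1 : ρ ≤ 1)
    (hT : 0 < T) :
    ∫ ω, (∫ s in (0:ℝ)..T, hr2 (2 * ρ) (Np φ X L s ω - Np ψ Y M s ω) *
        ((if 0 < X s ω then (1:ℝ) else 0) - (if 0 < Y s ω then (1:ℝ) else 0)) ^ 2) ∂P ≤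
      4000 * (1 + |c| + T) := by
  have hη' : ∀ s, 0 ≤ s → |ψ s - φ s| ≤ η := fun s hs => by
    rw [abs_sub_comm]; exact hη s hs
  have hn := sol_neg h
  have hn' := sol_neg h'
  have hηn : ∀ s, 0 ≤ s → |(fun s => -φ s) s - (fun s => -ψ s) s| ≤ η := fun s hs => by
    have := hη' s hs
    have e : (fun s => -φ s) s - (fun s => -ψ s) s = ψ s - φ s := by
      show -φ s - -ψ s = ψ s - φ s
      ring
    rw [e]; exact this
  have hηn' : ∀ s, 0 ≤ s → |(fun s => -ψ s) s - (fun s => -φ s) s| ≤ η := fun s hs => by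
    have := hη s hs
    have e : (fun s => -ψ s) s - (fun s => -φ s) s = φ s - ψ s := by
      show -ψ s - -φ s = φ s - ψ s
      ring
    rw [e]; exact this
  have b1 := GG_le h h' η ρ T hη hηρ hρ hρ1 hT
  have b2 := GG_le h' h η ρ T hη' hηρ hρ hρ1 hT
  have b3 := GG_le hn hn' η ρ T hηn hηρ hρ hρ1 hT
  have b4 := GG_le hn' hn η ρ T hηn' hηρ hρ hρ1 hT
  rw [abs_neg] at b3 b4
  have i1 := GG_int h h' ρ T hρ
  have i2 := GG_int h' h ρ T hρ
  have i3 := GG_int hn hn' ρ T hρ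
  have i4 := GG_int hn' hn ρ T hρ
  -- abbreviations
  obtain ⟨G1, hG1⟩ : ∃ G : Ω → ℝ → ℝ, G = fun ω s => GG ρ φ ψ X L Y M ω (max s 0) := ⟨_, rfl⟩
  obtain ⟨G2, hG2⟩ : ∃ G : Ω → ℝ → ℝ, G = fun ω s => GG ρ ψ φ Y M X L ω (max s 0) := ⟨_, rfl⟩
  obtain ⟨G3, hG3⟩ : ∃ G : Ω → ℝ → ℝ, G = fun ω s => GG ρ (fun s => -φ s) (fun s => -ψ s)
    (fun t ω => -X t ω) L (fun t ω => -Y t ω) M ω (max s 0) := ⟨_, rfl⟩
  obtain ⟨G4, hG4⟩ : ∃ G : Ω → ℝ → ℝ, G = fun ω s => GG ρ (fun s => -ψ s) (fun s => -φ s)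
    (fun t ω => -Y t ω) M (fun t ω => -X t ω) L ω (max s 0) := ⟨_, rfl⟩
  have i1' : Integrable (fun q : Ω × ℝ => G1 q.1 q.2)
      (P.prod (volume.restrict (Ioc (0:ℝ) T))) := by rw [hG1]; exact i1
  have i2' : Integrable (fun q : Ω × ℝ => G2 q.1 q.2)
      (P.prod (volume.restrict (Ioc (0:ℝ) T))) := by rw [hG2]; exact i2
  have i3' : Integrable (fun q : Ω × ℝ => G3 q.1 q.2)
      (P.prod (volume.restrict (Ioc (0:ℝ) T))) := by rw [hG3]; exact i3
  have i4' : Integrable (fun q : Ω × ℝ => G4 q.1 q.2)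
      (P.prod (volume.restrict (Ioc (0:ℝ) T))) := by rw [hG4]; exact i4
  have b1' : ∫ ω, (∫ s in Ioc (0:ℝ) T, G1 ω s) ∂P ≤ 1000 * (1 + |c| + T) := by
    rw [hG1]; exact b1
  have b2' : ∫ ω, (∫ s in Ioc (0:ℝ) T, G2 ω s) ∂P ≤ 1000 * (1 + |c| + T) := by
    rw [hG2]; exact b2
  have b3' : ∫ ω, (∫ s in Ioc (0:ℝ) T, G3 ω s) ∂P ≤ 1000 * (1 + |c| + T) := by
    rw [hG3]; exact b3
  have b4' : ∫ ω, (∫ s in Ioc (0:ℝ) T, G4 ω s) ∂P ≤ 1000 * (1 + |c| + T) := by
    rw [hG4]; exact b4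
  -- the pointwise bound
  have hpt : ∀ᵐ ω ∂P, ∀ᵐ s ∂(volume.restrict (Ioc (0:ℝ) T)),
      hr2 (2 * ρ) (Np φ X L s ω - Np ψ Y M s ω) *
        ((if 0 < X s ω then (1:ℝ) else 0) - (if 0 < Y s ω then (1:ℝ) else 0)) ^ 2
        ≤ G1 ω s + G2 ω s + G3 ω s + G4 ω s := by
    filter_upwards [sol_zero h T hT, sol_zero h' T hT, h.eq, h'.eq] with ω z1 z2 e1 e2
    have z1' := ae_restrict_of_ae_restrict_of_subset Ioc_subset_Icc_self z1
    have z2' := ae_restrict_of_ae_restrict_of_subset Ioc_subset_Icc_self z2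
    filter_upwards [z1', z2', ae_restrict_mem measurableSet_Ioc] with s x0 y0 hs
    have hs0 : (0:ℝ) ≤ s := hs.1.le
    have hm : max s 0 = s := max_eq_left hs0
    have g1 := (GG_bd (φ := φ) (ψ := ψ) (X := X) (L := L) (Y := Y) (M := M) ρ hρ ω s).1
    have g2 := (GG_bd (φ := ψ) (ψ := φ) (X := Y) (L := M) (Y := X) (M := L) ρ hρ ω s).1
    have g3 := (GG_bd (φ := fun s => -φ s) (ψ := fun s => -ψ s) (X := fun t ω => -X t ω) (L := L)
      (Y := fun t ω => -Y t ω) (M := M) ρ hρ ω s).1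
    have g4 := (GG_bd (φ := fun s => -ψ s) (ψ := fun s => -φ s) (X := fun t ω => -Y t ω) (L := M)
      (Y := fun t ω => -X t ω) (M := L) ρ hρ ω s).1
    have e1s := e1 s hs0
    have e2s := e2 s hs0
    rw [hG1, hG2, hG3, hG4]
    show _ ≤ GG ρ φ ψ X L Y M ω (max s 0) + GG ρ ψ φ Y M X L ω (max s 0)
      + GG ρ (fun s => -φ s) (fun s => -ψ s)
          (fun t ω => -X t ω) L (fun t ω => -Y t ω) M ω (max s 0)
      + GG ρ (fun s => -ψ s) (fun s => -φ s)
          (fun t ω => -Y t ω) M (fun t ω => -X t ω) L ω (max s 0)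
    rw [hm]
    have K1 : Np ψ Y M s ω - Np φ X L s ω = -(Np φ X L s ω - Np ψ Y M s ω) := by ring
    have K2 : Np (fun s => -φ s) (fun t ω => -X t ω) L s ω -
        Np (fun s => -ψ s) (fun t ω => -Y t ω) M s ω = Np φ X L s ω - Np ψ Y M s ω := by
      unfold Np
      have m1 : max (-X s ω) 0 = max (X s ω) 0 - X s ω := by
        rcases le_total (X s ω) 0 with h | h
        · rw [max_eq_left (by linarith), max_eq_right h]; ring
        · rw [max_eq_right (by linarith), max_eq_left h]; ring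
      have m2 : max (-Y s ω) 0 = max (Y s ω) 0 - Y s ω := by
        rcases le_total (Y s ω) 0 with h | h
        · rw [max_eq_left (by linarith), max_eq_right h]; ring
        · rw [max_eq_right (by linarith), max_eq_left h]; ring
      have c1 := h.c0
      have c2 := h'.c0
      show max (-X s ω) 0 - (L s ω + -φ (L s ω) - -φ 0) / 2 -
        (max (-Y s ω) 0 - (M s ω + -ψ (M s ω) - -ψ 0) / 2) = _
      rw [m1, m2]
      linarith
    have K3 : Np (fun s => -ψ s) (fun t ω => -Y t ω) M s ω -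
        Np (fun s => -φ s) (fun t ω => -X t ω) L s ω = -(Np φ X L s ω - Np ψ Y M s ω) := by
      rw [← K2]; ring
    rcases lt_or_gt_of_ne x0 with hx | hx
    · rcases lt_or_gt_of_ne y0 with hy | hy
      · rw [if_neg (not_lt.2 hx.le), if_neg (not_lt.2 hy.le)]
        norm_num
        positivity
      · rw [if_neg (not_lt.2 hx.le), if_pos hy]
        rcases le_total (L s ω) (M s ω) with hl | hl
        · have : GG ρ ψ φ Y M X L ω s = hr2 (2 * ρ) (Np φ X L s ω - Np ψ Y M s ω) := by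
            unfold GG
            rw [if_pos ⟨hy, hx, hl⟩, K1, hr2_neg]
          rw [this]
          norm_num
          linarith
        · have : GG ρ (fun s => -φ s) (fun s => -ψ s)
              (fun t ω => -X t ω) L (fun t ω => -Y t ω) M ω s =
              hr2 (2 * ρ) (Np φ X L s ω - Np ψ Y M s ω) := by
            unfold GG
            rw [if_pos ⟨by simpa using hx, by simpa using hy, hl⟩, K2]
          rw [this]
          norm_num
          linarith
    · rcases lt_or_gt_of_ne y0 with hy | hy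
      · rw [if_pos hx, if_neg (not_lt.2 hy.le)]
        rcases le_total (L s ω) (M s ω) with hl | hl
        · have : GG ρ (fun s => -ψ s) (fun s => -φ s)
              (fun t ω => -Y t ω) M (fun t ω => -X t ω) L ω s =
              hr2 (2 * ρ) (Np φ X L s ω - Np ψ Y M s ω) := by
            unfold GG
            rw [if_pos ⟨by simpa using hy, by simpa using hx, hl⟩, K3, hr2_neg]
          rw [this]
          norm_num
          linarith
        · have : GG ρ φ ψ X L Y M ω s = hr2 (2 * ρ) (Np φ X L s ω - Np ψ Y M s ω) := by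
            unfold GG
            rw [if_pos ⟨hx, hy, hl⟩]
          rw [this]
          norm_num
          linarith
      · rw [if_pos hx, if_pos hy]
        norm_num
        positivity
  have hnn : ∀ ω s, 0 ≤ hr2 (2 * ρ) (Np φ X L s ω - Np ψ Y M s ω) *
        ((if 0 < X s ω then (1:ℝ) else 0) - (if 0 < Y s ω then (1:ℝ) else 0)) ^ 2 := by
    intro ω s
    obtain ⟨-, -, h3, -⟩ := hr_facts (2 * ρ) (by positivity)
    exact mul_nonneg (h3 _).le (sq_nonneg _)
  have I1 := i1'.integral_prod_left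
  have I2 := i2'.integral_prod_left
  have I3 := i3'.integral_prod_left
  have I4 := i4'.integral_prod_left
  have J1 := i1'.prod_right_ae
  have J2 := i2'.prod_right_ae
  have J3 := i3'.prod_right_ae
  have J4 := i4'.prod_right_ae
  have hin : ∀ᵐ ω ∂P, (∫ s in (0:ℝ)..T, hr2 (2 * ρ) (Np φ X L s ω - Np ψ Y M s ω) *
        ((if 0 < X s ω then (1:ℝ) else 0) - (if 0 < Y s ω then (1:ℝ) else 0)) ^ 2) ≤
      (∫ s in Ioc (0:ℝ) T, G1 ω s) + (∫ s in Ioc (0:ℝ) T, G2 ω s) +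
        (∫ s in Ioc (0:ℝ) T, G3 ω s) + (∫ s in Ioc (0:ℝ) T, G4 ω s) := by
    filter_upwards [hpt, J1, J2, J3, J4] with ω hp j1 j2 j3 j4
    rw [intervalIntegral.integral_of_le hT.le]
    have e : (∫ s in Ioc (0:ℝ) T, G1 ω s) + (∫ s in Ioc (0:ℝ) T, G2 ω s) +
        (∫ s in Ioc (0:ℝ) T, G3 ω s) + (∫ s in Ioc (0:ℝ) T, G4 ω s) =
        ∫ s in Ioc (0:ℝ) T, (G1 ω s + G2 ω s + G3 ω s + G4 ω s) :=
      (int_add4 _ _ _ _ _ j1 j2 j3 j4).symm
    rw [e]
    exact integral_mono_of_nonneg (Filter.Eventually.of_forall fun s => hnn ω s)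
      (((j1.add j2).add j3).add j4) hp
  have hfin : ∫ ω, (∫ s in (0:ℝ)..T, hr2 (2 * ρ) (Np φ X L s ω - Np ψ Y M s ω) *
        ((if 0 < X s ω then (1:ℝ) else 0) - (if 0 < Y s ω then (1:ℝ) else 0)) ^ 2) ∂P ≤
      ∫ ω, ((∫ s in Ioc (0:ℝ) T, G1 ω s) + (∫ s in Ioc (0:ℝ) T, G2 ω s) +
        (∫ s in Ioc (0:ℝ) T, G3 ω s) + (∫ s in Ioc (0:ℝ) T, G4 ω s)) ∂P := by
    refine integral_mono_of_nonneg (Filter.Eventually.of_forall fun ω => ?_)
      (((I1.add I2).add I3).add I4) hin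
    exact intervalIntegral.integral_nonneg hT.le fun s _ => hnn ω s
  refine hfin.trans ?_
  rw [int_add4 _ _ _ _ _ I1 I2 I3 I4]
  linarith

end pair

end Pool.Agent.Helper41.SK
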