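import Pool.Agent.Helper41.SK.Defs
import Pool.Agent.Helper41.SK.MainDefs
import Pool.Agent.Helper41.SK.SA01
import Pool.Agent.Helper41.SK.SC02
import Pool.Agent.Helper41.SK.SC04
import Pool.Agent.Helper41.SK.SC09
import Pool.Agent.Helper41.SK.SC10
import Pool.Agent.Helper41.SK.SC13

set_option autoImplicit false

open scoped ENNReal NNReal Topology
open MeasureTheory ProbabilityTheory Set Filter

namespace Pool.Agent.Helper41.SK


/-! ## TARGETS: prove these (statements must not be changed; helper lemmas are welcome) -/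

/-- discrete maximal inequality -/
theorem sk_max {Ω : Type*} [mΩ : MeasurableSpace Ω] {P : Measure Ω} [IsProbabilityMeasure P]
    (G : Filtration ℕ mΩ) (K : ℕ → Ω → ℝ) (hKm : ∀ i, Measurable[G i] (K i))
    (hK2 : ∀ i, MemLp (K i) 2 P)
    (hKmart : ∀ i j, i ≤ j → ∀ A, MeasurableSet[G i] A →
      ∫ ω in A, K j ω ∂P = ∫ ω in A, K i ω ∂P) (r : ℝ) (hr0 : 0 < r) (n : ℕ) (lam : ℝ)
    (hl : 0 < lam) :
    P {ω | ∃ i ≤ n, lam < |K i ω|} ≤ ENNReal.ofReal ((∫ ω, hr r (K n ω) ∂P) / hr r lam) := by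
  obtain ⟨f1, f2, f3, f4, f5, f6, f7, f8, f9, f10⟩ := hr_facts r hr0
  have hcont : Continuous (hr r) := continuous_iff_continuousAt.2 fun x => (f1 x).continuousAt
  have hcont1 : Continuous (hr1 r) := continuous_iff_continuousAt.2 fun x => (f2 x).continuousAt
  have hmono1 : StrictMono (hr1 r) := strictMono_of_hasDerivAt_pos f2 f3
  have hconv : ∀ x y, hr r x + hr1 r x * (y - x) ≤ hr r y := by
    intro x y
    rcases lt_trichotomy x y with hxy | hxy | hxy
    · obtain ⟨ξ, ⟨h1, h2⟩, h3⟩ := exists_hasDerivAt_eq_slope (hr r) (hr1 r) hxy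
        hcont.continuousOn (fun z _ => f1 z)
      have h4 : hr1 r x ≤ hr1 r ξ := hmono1.monotone h1.le
      rw [h3, le_div_iff₀ (by linarith)] at h4
      linarith
    · rw [hxy]; simp
    · obtain ⟨ξ, ⟨h1, h2⟩, h3⟩ := exists_hasDerivAt_eq_slope (hr r) (hr1 r) hxy
        hcont.continuousOn (fun z _ => f1 z)
      have h4 : hr1 r ξ ≤ hr1 r x := hmono1.monotone h2.le
      rw [h3, div_le_iff₀ (by linarith)] at h4
      linarith
  have hKi : ∀ i, Integrable (K i) P := fun i => (hK2 i).integrable (by norm_num)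
  have hint : ∀ i, Integrable (fun ω => hr r (K i ω)) P := by
    intro i
    have h2 : Integrable (fun ω => (K i ω) ^ 2 / r) P := (hK2 i).integrable_sq.div_const r
    refine h2.mono' (hcont.comp_aestronglyMeasurable (hKi i).aestronglyMeasurable) ?_
    refine Eventually.of_forall fun ω => ?_
    rw [Real.norm_of_nonneg (f6 _)]
    exact f7 _
  have hsub : Submartingale (fun i ω => hr r (K i ω)) G P := by
    refine submartingale_of_setIntegral_le (fun i => ?_) hint ?_
    · exact (hcont.measurable.comp (hKm i)).stronglyMeasurable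
    · intro i j hij A hA
      have hmi : StronglyMeasurable[G i] (fun ω => hr1 r (K i ω)) :=
        (hcont1.measurable.comp (hKm i)).stronglyMeasurable
      have hmi2 : MemLp (fun ω => hr1 r (K i ω)) 2 P := by
        have h3 : MemLp (fun ω => (K i ω) / r) 2 P := by
          simpa [div_eq_inv_mul] using (hK2 i).const_mul r⁻¹
        refine h3.mono (hcont1.comp_aestronglyMeasurable (hKi i).aestronglyMeasurable) ?_
        refine Eventually.of_forall fun ω => ?_
        rw [Real.norm_eq_abs, Real.norm_eq_abs, abs_div, abs_of_pos hr0]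
        exact f9 _
      have hd2 : MemLp (fun ω => K j ω - K i ω) 2 P := (hK2 j).sub (hK2 i)
      have hdi : Integrable (fun ω => K j ω - K i ω) P := (hKi j).sub (hKi i)
      have hprod : Integrable ((fun ω => hr1 r (K i ω)) * (fun ω => K j ω - K i ω)) P :=
        hmi2.integrable_mul hd2
      have hce : (0 : Ω → ℝ) =ᵐ[P] P[fun ω => K j ω - K i ω | G i] := by
        refine ae_eq_condExp_of_forall_setIntegral_eq (G.le i) hdi (fun s _ _ => ?_)
          (fun s hs _ => ?_) ?_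
        · exact (integrable_zero _ _ _).integrableOn
        · rw [integral_sub (hKi j).integrableOn (hKi i).integrableOn, hKmart i j hij s hs]
          simp
        · exact aestronglyMeasurable_zero
      have hpull := condExp_mul_of_stronglyMeasurable_left (μ := P) (m := G i) hmi hprod hdi
      have hz : ∫ ω in A, hr1 r (K i ω) * (K j ω - K i ω) ∂P = 0 := by
        have e1 : ∫ ω in A, (P[(fun ω => hr1 r (K i ω)) * (fun ω => K j ω - K i ω) | G i]) ω ∂P =
            ∫ ω in A, hr1 r (K i ω) * (K j ω - K i ω) ∂P :=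
          setIntegral_condExp (G.le i) hprod hA
        rw [← e1]
        have e2 : ∀ᵐ ω ∂P, (P[(fun ω => hr1 r (K i ω)) * (fun ω => K j ω - K i ω) | G i]) ω = 0 := by
          filter_upwards [hpull, hce] with ω h4 h5
          rw [h4, Pi.mul_apply, ← h5]
          simp
        rw [integral_eq_zero_of_ae (ae_restrict_of_ae e2)]
      have hprod' : Integrable (fun ω => hr1 r (K i ω) * (K j ω - K i ω)) P := hprod
      calc ∫ ω in A, hr r (K i ω) ∂P
          = ∫ ω in A, (hr r (K i ω) + hr1 r (K i ω) * (K j ω - K i ω)) ∂P := by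
            rw [integral_add (hint i).integrableOn hprod'.integrableOn, hz, add_zero]
        _ ≤ ∫ ω in A, hr r (K j ω) ∂P :=
            setIntegral_mono ((hint i).add hprod').integrableOn (hint j).integrableOn
              fun ω => hconv _ _
  have hlam : 0 < hr r lam := f10 lam hl.ne'
  have hmax := maximal_ineq hsub (fun i ω => f6 _) (ε := ⟨hr r lam, hlam.le⟩) n
  set A := {ω | ((⟨hr r lam, hlam.le⟩ : ℝ≥0) : ℝ) ≤
    (Finset.range (n + 1)).sup' Finset.nonempty_range_add_one fun k => hr r (K k ω)} with hA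
  have hsubset : {ω | ∃ i ≤ n, lam < |K i ω|} ⊆ A := by
    rintro ω ⟨i, hi, hlt⟩
    show hr r lam ≤ _
    refine le_trans ?_ (Finset.le_sup' (fun k => hr r (K k ω)) (Finset.mem_range.2 (by omega : i < n + 1)))
    exact f8 _ _ (by rw [abs_of_pos hl]; exact hlt.le)
  have h6 : ∫ ω in A, hr r (K n ω) ∂P ≤ ∫ ω, hr r (K n ω) ∂P :=
    setIntegral_le_integral (hint n) (Eventually.of_forall fun ω => f6 _)
  have h7 : ENNReal.ofReal (hr r lam) * P A ≤ ENNReal.ofReal (∫ ω, hr r (K n ω) ∂P) := by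
    refine le_trans (le_of_eq ?_) (hmax.trans (ENNReal.ofReal_le_ofReal h6))
    congr 1
    rw [ENNReal.ofReal, Real.toNNReal_of_nonneg hlam.le]
    rfl
  calc P {ω | ∃ i ≤ n, lam < |K i ω|} ≤ P A := measure_mono hsubset
    _ ≤ ENNReal.ofReal (∫ ω, hr r (K n ω) ∂P) / ENNReal.ofReal (hr r lam) := by
        rw [ENNReal.le_div_iff_mul_le (Or.inl (by simpa using hlam)) (Or.inl ENNReal.ofReal_ne_top),
          mul_comm]
        exact h7
    _ = _ := (ENNReal.ofReal_div_of_pos hlam).symm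

section pair

variable {Ω : Type*} [mΩ : MeasurableSpace Ω] {P : Measure Ω} [IsProbabilityMeasure P]
  {F : ℝ → MeasurableSpace Ω} {B : ℝ → Ω → ℝ} {c : ℝ} {φ ψ : ℝ → ℝ} {X L Y M : ℝ → Ω → ℝ}

theorem sk_Kc (h : SolC P F B c φ X L) (ω : Ω) :
    ContinuousOn (fun t => Np φ X L t ω) (Ici 0) := by
  unfold Np
  have h1 : ContinuousOn (fun t => max (X t ω) 0) (Ici 0) :=
    ((h.Xc ω).max continuous_const).continuousOn
  have h2 : ContinuousOn φ (Ici 0) := by
    rw [Metric.continuousOn_iff]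
    intro b hb ε hε
    exact ⟨ε, hε, fun a ha hab => lt_of_le_of_lt (h.lip a b ha hb) hab⟩
  have h3 : MapsTo (fun t => L t ω) (Ici 0) (Ici 0) := fun t ht => by
    have := h.Lmono ω 0 t le_rfl ht
    rw [h.L0 ω] at this
    exact this
  have h4 : ContinuousOn (fun t => φ (L t ω)) (Ici 0) := h2.comp (h.Lc ω).continuousOn h3
  exact h1.sub ((((h.Lc ω).continuousOn.add h4).sub continuousOn_const).div_const 2)

theorem sup_K (h : SolC P F B c φ X L) (h' : SolC P F B c ψ Y M) (η ρ T lam : ℝ)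
    (hη : ∀ s, 0 ≤ s → |φ s - ψ s| ≤ η) (hηρ : 2 * η ≤ ρ) (hρ : 0 < ρ) (hρ1 : ρ ≤ 1)
    (hT : 0 < T) (hl : 0 < lam) :
    P {ω | ∃ t, 0 ≤ t ∧ t ≤ T ∧ lam < |Np φ X L t ω - Np ψ Y M t ω|} ≤
      ENNReal.ofReal (2000 * (1 + |c| + T) / hr (2 * ρ) lam) := by
  set K : ℝ → Ω → ℝ := fun t ω => Np φ X L t ω - Np ψ Y M t ω with hKdef
  have hKm : ∀ t, 0 ≤ t → Measurable[F t] (K t) := fun t ht =>
    (np_l2 h t ht).1.sub (np_l2 h' t ht).1
  have hK2 : ∀ t, 0 ≤ t → MemLp (K t) 2 P := fun t ht => (np_l2 h t ht).2.sub (np_l2 h' t ht).2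
  have hKmart : ∀ a b, 0 ≤ a → a ≤ b → ∀ G, MeasurableSet[F a] G →
      ∫ ω in G, K b ω ∂P = ∫ ω in G, K a ω ∂P := by
    intro a b ha hab G hG
    have hb := ha.trans hab
    have i1 : Integrable (Np φ X L b) P := (np_l2 h b hb).2.integrable (by norm_num)
    have i2 : Integrable (Np ψ Y M b) P := (np_l2 h' b hb).2.integrable (by norm_num)
    have i3 : Integrable (Np φ X L a) P := (np_l2 h a ha).2.integrable (by norm_num)
    have i4 : Integrable (Np ψ Y M a) P := (np_l2 h' a ha).2.integrable (by norm_num)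
    simp only [hKdef]
    rw [integral_sub i1.integrableOn i2.integrableOn, integral_sub i3.integrableOn
      i4.integrableOn, np_mart h a b ha hab G hG, np_mart h' a b ha hab G hG]
  have hr2 : (0:ℝ) < 2 * ρ := by linarith
  have hlam : 0 < hr (2 * ρ) lam := (hr_facts (2 * ρ) hr2).2.2.2.2.2.2.2.2.2 lam hl.ne'
  have hfin : ∫ ω, hr (2 * ρ) (K T ω) ∂P ≤ 2000 * (1 + |c| + T) := by
    have h1 := (hK h h' (2 * ρ) T hr2 hT).2
    have h2 := all_cases h h' η ρ T hη hηρ hρ hρ1 hT
    refine h1.trans ?_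
    linarith
  have hbound : ∀ n : ℕ, 0 < n → P {ω | ∃ i ≤ n, lam < |K (gp 0 T n i) ω|} ≤
      ENNReal.ofReal (2000 * (1 + |c| + T) / hr (2 * ρ) lam) := by
    intro n hn
    obtain ⟨g1, g2, g3, g4, g5, g6, g7⟩ := gp_facts 0 T hT.le n hn
    let G : Filtration ℕ mΩ :=
      { seq := fun i => F (gp 0 T n (min i n))
        mono' := fun i j hij => h.bm.mono (g7 (min_le_min_right n hij))
        le' := fun i => h.bm.le _ }
    have hmx := sk_max G (fun i => K (gp 0 T n (min i n))) (fun i => hKm _ (g5 _))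
      (fun i => hK2 _ (g5 _))
      (fun i j hij A hA => hKmart _ _ (g5 _) (g7 (min_le_min_right n hij)) A hA) (2 * ρ) hr2 n
      lam hl
    simp only [min_self, g2] at hmx
    refine (measure_mono ?_).trans (hmx.trans (ENNReal.ofReal_le_ofReal ?_))
    · rintro ω ⟨i, hi, hlt⟩
      refine ⟨i, hi, ?_⟩
      rw [min_eq_left hi]
      exact hlt
    · exact (div_le_div_iff_of_pos_right hlam).2 hfin
  let A : ℕ → Set Ω := fun N => {ω | ∀ n ≥ N, ∃ i ≤ n + 1, lam < |K (gp 0 T (n + 1) i) ω|}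
  have hAmono : Monotone A := fun N N' hN ω hω n hn => hω n (hN.trans hn)
  have hsub : {ω | ∃ t, 0 ≤ t ∧ t ≤ T ∧ lam < |Np φ X L t ω - Np ψ Y M t ω|} ⊆ ⋃ N, A N := by
    rintro ω ⟨t, ht0, htT, hlt⟩
    have hc : ContinuousOn (fun s => |K s ω|) (Ici 0) := ((sk_Kc h ω).sub (sk_Kc h' ω)).abs
    have hc' := hc t ht0
    have hev : ∀ᶠ s in 𝓝[Ici 0] t, lam < |K s ω| := hc'.eventually (lt_mem_nhds hlt)
    rw [Metric.nhdsWithin_basis_ball.eventually_iff] at hev
    obtain ⟨δ, hδ, hball⟩ := hev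
    obtain ⟨N, hN⟩ := exists_nat_gt (T / δ)
    refine mem_iUnion.2 ⟨N, fun n hn => ?_⟩
    have hn1 : (0:ℝ) < (n:ℝ) + 1 := by positivity
    have hnN : T / δ < (n:ℝ) + 1 := by
      have : (N:ℝ) ≤ n := by exact_mod_cast hn
      linarith
    have hTn : T / ((n:ℝ) + 1) < δ := by
      rw [div_lt_iff₀ hδ] at hnN
      rw [div_lt_iff₀ hn1]
      linarith
    have hx0 : 0 ≤ t * ((n:ℝ) + 1) / T := by positivity
    have hfl := Nat.floor_le hx0
    have hfl' := Nat.lt_floor_add_one (t * ((n:ℝ) + 1) / T)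
    set i := ⌊t * ((n:ℝ) + 1) / T⌋₊ with hi
    rw [le_div_iff₀ hT] at hfl
    rw [div_lt_iff₀ hT] at hfl'
    refine ⟨i, ?_, ?_⟩
    · have h1 : (i:ℝ) * T ≤ ((n:ℝ) + 1) * T := hfl.trans (by nlinarith)
      have h2 : (i:ℝ) ≤ (n:ℝ) + 1 := le_of_mul_le_mul_right h1 hT
      exact_mod_cast h2
    · apply hball
      have hgp : gp 0 T (n + 1) i = T * i / ((n:ℝ) + 1) := by
        unfold gp
        push_cast
        ring
      refine ⟨?_, ?_⟩
      · rw [Metric.mem_ball, Real.dist_eq, hgp, abs_lt]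
        have e1 : T * i / ((n:ℝ) + 1) ≤ t := by
          rw [div_le_iff₀ hn1]
          linarith
        have e2 : t - T / ((n:ℝ) + 1) < T * i / ((n:ℝ) + 1) := by
          rw [sub_lt_iff_lt_add, ← add_div, lt_div_iff₀ hn1]
          linarith
        constructor <;> linarith
      · rw [hgp, mem_Ici]
        positivity
  calc P {ω | ∃ t, 0 ≤ t ∧ t ≤ T ∧ lam < |Np φ X L t ω - Np ψ Y M t ω|}
      ≤ P (⋃ N, A N) := measure_mono hsub
    _ = ⨆ N, P (A N) := hAmono.measure_iUnion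
    _ ≤ _ := iSup_le fun N => by
        refine (measure_mono (t := {ω | ∃ i ≤ N + 1, lam < |K (gp 0 T (N + 1) i) ω|}) ?_).trans
          (hbound (N + 1) (Nat.succ_pos N))
        intro ω hω
        exact hω N le_rfl

theorem stab (h : SolC P F B c φ X L) (h' : SolC P F B c ψ Y M) (η ρ T lam : ℝ)
    (hη : ∀ s, 0 ≤ s → |φ s - ψ s| ≤ η) (hηρ : 2 * η ≤ ρ) (hρ : 0 < ρ) (hρ1 : ρ ≤ 1)
    (hT : 0 < T) (hl : 0 < lam) :
    P {ω | ∃ t, 0 ≤ t ∧ t ≤ T ∧ 2 * lam < |L t ω - M t ω|} ≤
      ENNReal.ofReal (2000 * (1 + |c| + T) / hr (2 * ρ) lam) := by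
  refine le_trans ?_ (sup_K h h' η ρ T lam hη hηρ hρ hρ1 hT hl)
  refine measure_mono_ae ?_
  filter_upwards [h.eq, h'.eq, h.flat, h'.flat] with ω e1 e2 f1 f2
  intro hω
  by_contra hcon
  obtain ⟨t, ht0, htT, hlt⟩ := hω
  have hcon' : ∀ s, 0 ≤ s → s ≤ T → |Np φ X L s ω - Np ψ Y M s ω| ≤ lam := by
    intro s hs hsT
    by_contra h3
    push Not at h3
    exact hcon ⟨s, hs, hsT, h3⟩
  have := skoro (fun s => L s ω) (fun s => M s ω) (fun s => X s ω) (fun s => Y s ω) T lam hT.le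
    hl.le (h.Lc ω) (h'.Lc ω) (h.Xc ω) (h'.Xc ω) (h.Lmono ω) (h'.Lmono ω) (h.L0 ω) (h'.L0 ω)
    f1 f2 (fun s hs hsT => by
      have h4 := hcon' s hs hsT
      have h5 : |X s ω| - |Y s ω| - (L s ω - M s ω) =
          2 * (Np φ X L s ω - Np ψ Y M s ω) := by
        unfold Np
        have h6 : ∀ x : ℝ, |x| = 2 * max x 0 - x := by
          intro x
          rcases le_total 0 x with h7 | h7
          · rw [abs_of_nonneg h7, max_eq_left h7]; ring
          · rw [abs_of_nonpos h7, max_eq_right h7]; ring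
        rw [h6, h6]
        have h8 := e1 s hs
        have h9 := e2 s hs
        have h10 := h.c0
        have h11 := h'.c0
        linarith
      rw [h5, abs_mul, abs_of_pos (by norm_num : (0:ℝ) < 2)]
      linarith) t ht0 htT
  exact absurd hlt (not_lt.2 this)

end pair

end Pool.Agent.Helper41.SK
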