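import Pool.Agent.Helper41.SK.Defs
import Pool.Agent.Helper41.SK.MainDefs
import Pool.Agent.Helper41.SK.SC04
import Pool.Agent.Helper41.SK.SC14

set_option autoImplicit false

open scoped ENNReal NNReal Topology
open MeasureTheory ProbabilityTheory Set Filter

namespace Pool.Agent.Helper41.SK


/-! ## TARGETS: prove these (statements must not be changed; helper lemmas are welcome) -/

section pair

variable {Ω : Type*} [mΩ : MeasurableSpace Ω] {P : Measure Ω} [IsProbabilityMeasure P]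
  {F : ℝ → MeasurableSpace Ω} {B : ℝ → Ω → ℝ} {c : ℝ} {φ ψ : ℝ → ℝ} {X L Y M : ℝ → Ω → ℝ}

theorem uniq_aux (h : SolC P F B c φ X L) (h' : SolC P F B c φ Y M) (T lam : ℝ)
    (hT : 0 < T) (hl : 0 < lam) :
    P {ω | ∃ t, 0 ≤ t ∧ t ≤ T ∧ 2 * lam < |L t ω - M t ω|} = 0 := by
  by_contra hne
  set S := {ω | ∃ t, 0 ≤ t ∧ t ≤ T ∧ 2 * lam < |L t ω - M t ω|} with hS
  have hfin : P S ≠ ⊤ := measure_ne_top P S
  have hpos : 0 < (P S).toReal := ENNReal.toReal_pos hne hfin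
  set a := (P S).toReal with ha
  have hm : 0 < 2000 * (1 + |c| + T) := by
    have := abs_nonneg c
    nlinarith
  obtain ⟨r0, hr0, hlarge⟩ := hr_large lam (2000 * (1 + |c| + T) / (a / 2)) hl
  have hρ : 0 < min (r0 / 2) 1 := lt_min (by linarith) one_pos
  have h1 := stab h h' 0 (min (r0 / 2) 1) T lam (fun s _ => by simp) (by linarith) hρ
    (min_le_right _ _) hT hl
  have h2 := hlarge (2 * min (r0 / 2) 1) (by linarith) (by
    have := min_le_left (r0 / 2) 1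
    linarith)
  have hA : 0 < 2000 * (1 + |c| + T) / (a / 2) := by positivity
  have hhr : 0 < hr (2 * min (r0 / 2) 1) lam := lt_of_lt_of_le hA h2
  have h3 : 2000 * (1 + |c| + T) / hr (2 * min (r0 / 2) 1) lam ≤ a / 2 := by
    rw [div_le_iff₀ (by positivity : (0:ℝ) < a / 2)] at h2
    rw [div_le_iff₀ hhr]
    linarith
  have h4 : (P S).toReal ≤ 2000 * (1 + |c| + T) / hr (2 * min (r0 / 2) 1) lam :=
    ENNReal.toReal_le_of_le_ofReal (by positivity) h1
  linarith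

theorem uniq (h : SolC P F B c φ X L) (h' : SolC P F B c φ Y M) :
    ∀ᵐ ω ∂P, ∀ t, 0 ≤ t → X t ω = Y t ω := by
  have h1 : ∀ k : ℕ, ∀ᵐ ω ∂P, ¬ ∃ t, 0 ≤ t ∧ t ≤ (k:ℝ) + 1 ∧
      2 * (1 / ((k:ℝ) + 1)) < |L t ω - M t ω| := by
    intro k
    rw [ae_iff]
    simp only [not_not]
    exact uniq_aux h h' ((k:ℝ) + 1) (1 / ((k:ℝ) + 1)) (by positivity) (by positivity)
  have h2 := ae_all_iff.2 h1
  filter_upwards [h2, h.eq, h'.eq] with ω hω hX hY
  intro t ht
  have hLM : L t ω = M t ω := by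
    by_contra hne
    have hpos : 0 < |L t ω - M t ω| := abs_pos.2 (sub_ne_zero.2 hne)
    obtain ⟨k1, hk1⟩ := exists_nat_ge t
    obtain ⟨k2, hk2⟩ := exists_nat_gt (2 / |L t ω - M t ω|)
    apply hω (max k1 k2)
    have e1 : ((max k1 k2 : ℕ) : ℝ) = max (k1:ℝ) (k2:ℝ) := by push_cast; rfl
    refine ⟨t, ht, ?_, ?_⟩
    · rw [e1]
      have := le_max_left (k1:ℝ) (k2:ℝ)
      linarith
    · rw [e1]
      have h3 := le_max_right (k1:ℝ) (k2:ℝ)
      have h4 : (0:ℝ) < max (k1:ℝ) (k2:ℝ) + 1 := by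
        have : (0:ℝ) ≤ k2 := Nat.cast_nonneg _
        linarith
      rw [div_lt_iff₀ hpos] at hk2
      rw [mul_one_div, div_lt_iff₀ h4]
      nlinarith
  rw [hX t ht, hY t ht, hLM]

end pair

end Pool.Agent.Helper41.SK
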