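import Pool.Agent.Helper41.SK.Defs
import Pool.Agent.Helper41.SK.MainDefs
import Pool.Agent.Helper41.SK.SA07
import Pool.Agent.Helper41.SK.SC01

set_option autoImplicit false

open scoped ENNReal NNReal Topology
open MeasureTheory ProbabilityTheory Set Filter

namespace Pool.Agent.Helper41.SK

/-! Processes are indexed by t. -/


/-! ## TARGETS: prove these (statements must not be changed; helper lemmas are welcome) -/

section exist

variable {Ω : Type*} [mΩ : MeasurableSpace Ω] {P : Measure Ω} [IsProbabilityMeasure P]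
  {F : ℝ → MeasurableSpace Ω} {B : ℝ → Ω → ℝ} {c : ℝ} {φ : ℝ → ℝ} {X L : ℝ → Ω → ℝ}

theorem aux_fatou_sq {f : ℕ → Ω → ℝ} {g : Ω → ℝ} (hf : ∀ k, MemLp (f k) 2 P)
    (hlim : ∀ᵐ ω ∂P, Tendsto (fun k => f k ω) atTop (𝓝 (g ω))) (K : ℝ)
    (hK : ∀ k, ∫ ω, (f k ω) ^ 2 ∂P ≤ K) : MemLp g 2 P ∧ ∫ ω, (g ω) ^ 2 ∂P ≤ K := by
  have hg : AEStronglyMeasurable g P :=
    aestronglyMeasurable_of_tendsto_ae atTop (fun k => (hf k).1) hlim
  have hK0 : 0 ≤ K := (integral_nonneg (fun ω => sq_nonneg (f 0 ω))).trans (hK 0)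
  have h1 : ∀ k, ∫⁻ ω, ENNReal.ofReal ((f k ω) ^ 2) ∂P ≤ ENNReal.ofReal K := by
    intro k
    rw [← ofReal_integral_eq_lintegral_ofReal (hf k).integrable_sq
      (Eventually.of_forall fun ω => sq_nonneg _)]
    exact ENNReal.ofReal_le_ofReal (hK k)
  have h2 : ∫⁻ ω, ENNReal.ofReal ((g ω) ^ 2) ∂P ≤ ENNReal.ofReal K := by
    have h3 : ∀ᵐ ω ∂P, ENNReal.ofReal ((g ω) ^ 2) =
        liminf (fun k => ENNReal.ofReal ((f k ω) ^ 2)) atTop := by
      filter_upwards [hlim] with ω hω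
      symm
      apply Tendsto.liminf_eq
      exact (ENNReal.continuous_ofReal.tendsto _).comp (hω.pow 2)
    rw [lintegral_congr_ae h3]
    refine (lintegral_liminf_le' (fun k => ?_)).trans ?_
    · exact ((hf k).1.aemeasurable.pow_const 2).ennreal_ofReal
    · exact liminf_le_of_le (by isBoundedDefault)
        (fun b hb => by
          obtain ⟨k, hk⟩ := hb.exists
          exact hk.trans (h1 k))
  have h4 : Integrable (fun ω => (g ω) ^ 2) P := by
    refine ⟨hg.pow 2, ?_⟩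
    rw [hasFiniteIntegral_iff_ofReal (Eventually.of_forall fun ω => sq_nonneg _)]
    exact h2.trans_lt ENNReal.ofReal_lt_top
  refine ⟨(memLp_two_iff_integrable_sq hg).2 h4, ?_⟩
  rw [integral_eq_lintegral_of_nonneg_ae (Eventually.of_forall fun ω => sq_nonneg _) h4.1]
  exact ENNReal.toReal_le_of_le_ofReal hK0 h2

theorem aux_kap_cont (e : ℝ) (he : 0 < e) : Continuous (kap e) := by
  have hchi : Continuous chi := by
    unfold chi cl
    fun_prop
  unfold kap kp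
  fun_prop

theorem aux_kap_bd (e : ℝ) (he : 0 < e) (x : ℝ) : |kap e x| ≤ 3 / 2 / e := by
  obtain ⟨h0, h1, -⟩ := chi_facts
  have hk : ∀ y, 0 ≤ kp e y ∧ kp e y ≤ 3 / 2 / e := by
    intro y
    unfold kp
    exact ⟨div_nonneg (h0 _) he.le, div_le_div_of_nonneg_right (h1 _) he.le⟩
  unfold kap
  rw [abs_of_nonneg (by linarith [(hk x).1, (hk (-x)).1])]
  linarith [(hk x).2, (hk (-x)).2]

theorem aux_memLp (hB : BMF P F B) {Y M : ℝ → Ω → ℝ}
    (Yad : ∀ t, 0 ≤ t → Measurable[F t] (Y t)) (Yc : ∀ ω, Continuous (fun t => Y t ω))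
    {T e : ℝ} (hT : 0 ≤ T) (he : 0 < e) (hM : MemLp (M T) 2 P) :
    MemLp (fun ω => (∫ s in (0:ℝ)..T, kap e (Y s ω)) - M T ω) 2 P := by
  have hm : Measurable (Function.uncurry (fun (s : ℝ) (ω : Ω) => Y (max s 0) ω)) := by
    apply measurable_uncurry_of_continuous_of_measurable
    · intro ω
      exact (Yc ω).comp (continuous_id.max continuous_const)
    · intro s
      exact (Yad (max s 0) (le_max_right _ _)).mono (hB.le _) le_rfl
  have h1 : Measurable (fun q : Ω × ℝ => kap e (Y (max q.2 0) q.1)) :=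
    (aux_kap_cont e he).measurable.comp (hm.comp measurable_swap)
  have h2 : StronglyMeasurable (fun ω => ∫ s in Ioc (0:ℝ) T, kap e (Y (max s 0) ω)) :=
    h1.stronglyMeasurable.integral_prod_right (ν := volume.restrict (Ioc (0:ℝ) T))
  have h3 : (fun ω => ∫ s in (0:ℝ)..T, kap e (Y s ω)) =
      fun ω => ∫ s in Ioc (0:ℝ) T, kap e (Y (max s 0) ω) := by
    funext ω
    rw [intervalIntegral.integral_of_le hT]
    refine setIntegral_congr_fun measurableSet_Ioc fun s hs => ?_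
    show kap e (Y s ω) = kap e (Y (max s 0) ω)
    rw [max_eq_left hs.1.le]
  have h4 : MemLp (fun ω => ∫ s in (0:ℝ)..T, kap e (Y s ω)) 2 P := by
    refine MemLp.of_bound (C := 3 / 2 / e * |T - 0|) (by rw [h3]; exact h2.aestronglyMeasurable) ?_
    refine Eventually.of_forall fun ω => ?_
    exact intervalIntegral.norm_integral_le_of_norm_le_const fun s _ => by
      rw [Real.norm_eq_abs]; exact aux_kap_bd e he _
  exact h4.sub hM

theorem solc_closed (hB : BMF P F B) (hφ : ∀ s t, 0 ≤ s → 0 ≤ t → |φ s - φ t| ≤ |s - t|)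
    (h0 : φ 0 = c) (zk : ℕ → ℝ → ℝ) (Xk Lk : ℕ → ℝ → Ω → ℝ)
    (hk : ∀ k, SolC P F B c (zk k) (Xk k) (Lk k)) (η : ℕ → ℝ) (hη0 : Tendsto η atTop (𝓝 0))
    (hη : ∀ k l, 0 ≤ l → |zk k l - φ l| ≤ η k)
    (Lad : ∀ t, 0 ≤ t → Measurable[F t] (L t)) (Lc : ∀ ω, Continuous (fun t => L t ω))
    (L0 : ∀ ω, L 0 ω = 0) (Lmono : ∀ ω s t, 0 ≤ s → s ≤ t → L s ω ≤ L t ω)
    (Xad : ∀ t, 0 ≤ t → Measurable[F t] (X t)) (Xc : ∀ ω, Continuous (fun t => X t ω))
    (heq : ∀ᵐ ω ∂P, ∀ t, 0 ≤ t → X t ω = B t ω + φ (L t ω))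
    (hconv : ∀ᵐ ω ∂P, ∀ T ε : ℝ, 0 < ε → ∃ k0 : ℕ, ∀ k, k0 ≤ k → ∀ t, 0 ≤ t → t ≤ T →
      |Lk k t ω - L t ω| ≤ ε) :
    SolC P F B c φ X L := by
  have hLt : ∀ᵐ ω ∂P, ∀ t, 0 ≤ t → Tendsto (fun k => Lk k t ω) atTop (𝓝 (L t ω)) := by
    filter_upwards [hconv] with ω hω t ht
    rw [Metric.tendsto_atTop]
    intro ε hε
    obtain ⟨k0, hk0⟩ := hω t (ε / 2) (by linarith)
    refine ⟨k0, fun k hk => ?_⟩
    rw [Real.dist_eq]
    linarith [hk0 k hk t ht le_rfl]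
  have hXu : ∀ᵐ ω ∂P, ∀ T ε : ℝ, 0 < ε → ∃ k0 : ℕ, ∀ k, k0 ≤ k → ∀ t, 0 ≤ t → t ≤ T →
      |Xk k t ω - X t ω| ≤ ε := by
    have hall : ∀ᵐ ω ∂P, ∀ k, ∀ t, 0 ≤ t → Xk k t ω = B t ω + zk k (Lk k t ω) :=
      ae_all_iff.2 fun k => (hk k).eq
    filter_upwards [hconv, heq, hall] with ω h1 h2 h3 T ε hε
    obtain ⟨k1, hk1⟩ := h1 T (ε / 2) (by linarith)
    obtain ⟨k2, hk2⟩ := (Metric.tendsto_atTop.1 hη0) (ε / 2) (by linarith)
    refine ⟨max k1 k2, fun k hkk t ht htT => ?_⟩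
    have h4 := hk1 k ((le_max_left _ _).trans hkk) t ht htT
    have h5 := hk2 k ((le_max_right _ _).trans hkk)
    rw [Real.dist_eq, sub_zero] at h5
    have hL1 : 0 ≤ Lk k t ω := by
      have := (hk k).Lmono ω 0 t le_rfl ht
      rw [(hk k).L0 ω] at this
      exact this
    have hL2 : 0 ≤ L t ω := by
      have := Lmono ω 0 t le_rfl ht
      rw [L0 ω] at this
      exact this
    have h6 := hη k _ hL1
    have h7 := hφ _ _ hL1 hL2
    rw [h3 k t ht, h2 t ht]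
    have h8 : B t ω + zk k (Lk k t ω) - (B t ω + φ (L t ω)) =
        (zk k (Lk k t ω) - φ (Lk k t ω)) + (φ (Lk k t ω) - φ (L t ω)) := by ring
    rw [h8]
    have h9 := abs_add_le (zk k (Lk k t ω) - φ (Lk k t ω)) (φ (Lk k t ω) - φ (L t ω))
    have h10 := le_abs_self (η k)
    linarith
  refine ⟨hB, hφ, h0, Xad, Xc, Lad, Lc, L0, Lmono, heq, ?_, ?_, ?_⟩
  · intro t ht
    refine (aux_fatou_sq (fun k => (hk k).Lsq t ht) ?_ (100 * (1 + |c| + t) ^ 2)
      (fun k => (sol_l2 (hk k) t ht).2.2.1)).1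
    filter_upwards [hLt] with ω hω
    exact hω t ht
  · have hall : ∀ᵐ ω ∂P, ∀ k, ∀ s t, 0 ≤ s → s ≤ t → (∀ r ∈ Icc s t, Xk k r ω ≠ 0) →
        Lk k s ω = Lk k t ω := ae_all_iff.2 fun k => (hk k).flat
    filter_upwards [hXu, hall, hLt] with ω h1 h2 h3 s t hs hst hne
    obtain ⟨r0, hr0, hmin⟩ := isCompact_Icc.exists_isMinOn (nonempty_Icc.2 hst)
      ((Xc ω).abs.continuousOn (s := Icc s t))
    have hpos : 0 < |X r0 ω| := abs_pos.2 (hne r0 hr0)
    obtain ⟨k0, hk0⟩ := h1 t (|X r0 ω| / 2) (by linarith)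
    have h4 : ∀ k, k0 ≤ k → Lk k s ω = Lk k t ω := by
      intro k hkk
      refine h2 k s t hs hst fun r hr h5 => ?_
      have h6 := hk0 k hkk r (hs.trans hr.1) hr.2
      rw [h5, zero_sub, abs_neg] at h6
      have h7 : |X r0 ω| ≤ |X r ω| := hmin hr
      linarith
    refine tendsto_nhds_unique (h3 s hs) ((h3 t (hs.trans hst)).congr' ?_)
    filter_upwards [eventually_ge_atTop k0] with k hkk
    exact (h4 k hkk).symm
  · intro T e hT he he1
    refine (aux_fatou_sq (fun k => aux_memLp hB (hk k).Xad (hk k).Xc hT he ((hk k).Lsq T hT)) ?_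
      (20 * (1 + |c| + T) * e) (fun k => (hk k).loc T e hT he he1)).2
    filter_upwards [hXu, hLt] with ω h1 h2
    refine Tendsto.sub ?_ (h2 T hT)
    refine intervalIntegral.tendsto_integral_filter_of_dominated_convergence
      (fun _ => 3 / 2 / e) ?_ ?_ ?_ ?_
    · refine Eventually.of_forall fun k => ?_
      exact ((aux_kap_cont e he).comp ((hk k).Xc ω)).aestronglyMeasurable
    · refine Eventually.of_forall fun k => Eventually.of_forall fun s _ => ?_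
      rw [Real.norm_eq_abs]
      exact aux_kap_bd e he _
    · exact intervalIntegrable_const
    · refine Eventually.of_forall fun s hs => ?_
      rw [uIoc_of_le hT] at hs
      refine ((aux_kap_cont e he).tendsto _).comp ?_
      rw [Metric.tendsto_atTop]
      intro ε hε
      obtain ⟨k0, hk0⟩ := h1 T (ε / 2) (by linarith)
      refine ⟨k0, fun k hkk => ?_⟩
      rw [Real.dist_eq]
      linarith [hk0 k hkk s hs.1.le hs.2]

theorem lim_exists (hB : BMF P F B) (Lk : ℕ → ℝ → Ω → ℝ)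
    (Lad : ∀ k t, 0 ≤ t → Measurable[F t] (Lk k t)) (Lc : ∀ k ω, Continuous (fun t => Lk k t ω))
    (L0 : ∀ k ω, Lk k 0 ω = 0) (Lmono : ∀ k ω s t, 0 ≤ s → s ≤ t → Lk k s ω ≤ Lk k t ω)
    (hc : ∀ᵐ ω ∂P, ∀ T ε : ℝ, 0 < ε → ∃ k0 : ℕ, ∀ k k', k0 ≤ k → k0 ≤ k' →
      ∀ t, 0 ≤ t → t ≤ T → |Lk k t ω - Lk k' t ω| ≤ ε) :
    ∃ L : ℝ → Ω → ℝ, (∀ t, 0 ≤ t → Measurable[F t] (L t)) ∧
      (∀ ω, Continuous (fun t => L t ω)) ∧ (∀ ω, L 0 ω = 0) ∧
      (∀ ω s t, 0 ≤ s → s ≤ t → L s ω ≤ L t ω) ∧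
      ∀ᵐ ω ∂P, ∀ T ε : ℝ, 0 < ε → ∃ k0 : ℕ, ∀ k, k0 ≤ k → ∀ t, 0 ≤ t → t ≤ T →
        |Lk k t ω - L t ω| ≤ ε := by
  classical
  obtain ⟨G, hG⟩ : ∃ G : Set Ω, G = {ω | ∀ T ε : ℝ, 0 < ε → ∃ k0 : ℕ, ∀ k k', k0 ≤ k → k0 ≤ k' →
      ∀ t, 0 ≤ t → t ≤ T → |Lk k t ω - Lk k' t ω| ≤ ε} := ⟨_, rfl⟩
  have hGm : ∀ t, 0 ≤ t → MeasurableSet[F t] G := by
    intro t ht
    have h1 : MeasurableSet[F 0] Gᶜ := by
      apply hB.null
      rw [hG]
      exact hc
    have h2 : MeasurableSet[F 0] G := by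
      have := @MeasurableSet.compl _ _ (F 0) h1
      rwa [compl_compl] at this
    exact hB.mono ht _ h2
  have hex : ∀ ω ∈ G, ∀ t, ∃ l, Tendsto (fun k => Lk k (max t 0) ω) atTop (𝓝 l) := by
    intro ω hω t
    rw [hG] at hω
    apply cauchySeq_tendsto_of_complete
    rw [Metric.cauchySeq_iff]
    intro ε hε
    obtain ⟨k0, hk0⟩ := hω (max t 0) (ε / 2) (by linarith)
    refine ⟨k0, fun k hk k' hk' => ?_⟩
    rw [Real.dist_eq]
    linarith [hk0 k k' hk hk' (max t 0) (le_max_right _ _) le_rfl]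
  have hex2 : ∃ L : ℝ → Ω → ℝ, (∀ ω ∈ G, ∀ t, Tendsto (fun k => Lk k (max t 0) ω) atTop (𝓝 (L t ω))) ∧
      ∀ ω, ω ∉ G → ∀ t, L t ω = 0 := by
    refine ⟨fun t ω => if h : ω ∈ G then (hex ω h t).choose else 0, ?_, ?_⟩
    · intro ω hω t
      simp only [dif_pos hω]
      exact (hex ω hω t).choose_spec
    · intro ω hω t
      simp only [dif_neg hω]
  obtain ⟨L, hL, hLn⟩ := hex2
  have hLt : ∀ ω ∈ G, ∀ t, 0 ≤ t → Tendsto (fun k => Lk k t ω) atTop (𝓝 (L t ω)) := by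
    intro ω hω t ht
    have := hL ω hω t
    rwa [max_eq_left ht] at this
  have hun : ∀ ω ∈ G, ∀ T ε : ℝ, 0 < ε → ∃ k0 : ℕ, ∀ k, k0 ≤ k → ∀ t, 0 ≤ t → t ≤ T →
      |Lk k t ω - L t ω| ≤ ε := by
    intro ω hω T ε hε
    have hω' := hω
    rw [hG] at hω'
    obtain ⟨k0, hk0⟩ := hω' T ε hε
    refine ⟨k0, fun k hk t ht htT => ?_⟩
    have h1 : Tendsto (fun k' => |Lk k t ω - Lk k' t ω|) atTop (𝓝 |Lk k t ω - L t ω|) :=
      ((hLt ω hω t ht).const_sub _).abs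
    refine le_of_tendsto h1 ?_
    filter_upwards [eventually_ge_atTop k0] with k' hk'
    exact hk0 k k' hk hk' t ht htT
  have hLmax : ∀ ω ∈ G, ∀ t, L t ω = L (max t 0) ω := by
    intro ω hω t
    have h1 := hL ω hω t
    have h2 := hLt ω hω (max t 0) (le_max_right _ _)
    exact tendsto_nhds_unique h1 h2
  refine ⟨L, ?_, ?_, ?_, ?_, ?_⟩
  · intro t ht
    have h1 : ∀ k, Measurable[F t] (G.indicator (Lk k t)) := fun k =>
      (Lad k t ht).indicator (hGm t ht)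
    refine @measurable_of_tendsto_metrizable _ _ (F t) _ _ _ _ _ _ h1 ?_
    rw [tendsto_pi_nhds]
    intro ω
    by_cases hω : ω ∈ G
    · simp only [Set.indicator_of_mem hω]
      exact hLt ω hω t ht
    · simp only [Set.indicator_of_notMem hω, hLn ω hω t]
      exact tendsto_const_nhds
  · intro ω
    by_cases hω : ω ∈ G
    · have hu : TendstoLocallyUniformly (fun k t => Lk k (max t 0) ω) (fun t => L t ω) atTop := by
        rw [Metric.tendstoLocallyUniformly_iff]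
        intro ε hε x
        obtain ⟨k0, hk0⟩ := hun ω hω (max (x + 1) 0) (ε / 2) (by linarith)
        refine ⟨Iio (x + 1), Iio_mem_nhds (by linarith), ?_⟩
        filter_upwards [eventually_ge_atTop k0] with k hk y hy
        rw [hLmax ω hω y, Real.dist_eq, abs_sub_comm]
        have := hk0 k hk (max y 0) (le_max_right _ _) (max_le_max_right _ (le_of_lt hy))
        linarith
      refine hu.continuous (Frequently.of_forall fun k => ?_)
      exact (Lc k ω).comp (continuous_id.max continuous_const)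
    · have : (fun t => L t ω) = fun _ => 0 := by
        funext t
        exact hLn ω hω t
      rw [this]
      exact continuous_const
  · intro ω
    by_cases hω : ω ∈ G
    · have h1 := hLt ω hω 0 le_rfl
      simp only [L0] at h1
      exact tendsto_nhds_unique h1 tendsto_const_nhds
    · exact hLn ω hω 0
  · intro ω s t hs hst
    by_cases hω : ω ∈ G
    · exact le_of_tendsto_of_tendsto' (hLt ω hω s hs) (hLt ω hω t (hs.trans hst))
        fun k => Lmono k ω s t hs hst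
    · rw [hLn ω hω, hLn ω hω]
  · have h1 : ∀ᵐ ω ∂P, ω ∈ G := by
      rw [hG]
      exact hc
    filter_upwards [h1] with ω hω
    exact hun ω hω

end exist

end Pool.Agent.Helper41.SK
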