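import Pool.Agent.Helper41.SK.Defs
import Pool.Agent.Helper41.SK.MainDefs


set_option autoImplicit false

open scoped ENNReal NNReal Topology
open MeasureTheory ProbabilityTheory Set Filter

namespace Pool.Agent.Helper41.SK

/-! Processes are indexed by t. -/

/-! ## TARGETS: prove these (statements must not be changed; helper lemmas are welcome) -/

section zig

variable {Ω : Type*} [mΩ : MeasurableSpace Ω] {F : ℝ → MeasurableSpace Ω} {B : ℝ → Ω → ℝ}

theorem zig_rec (φ : ℝ → ℝ) (δ : ℝ) : ∃ (p : ℕ → ℝ) (sg : ℕ → ℝ), p 0 = φ 0 ∧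
    (∀ k, (p k ≤ φ (k * δ) ∧ sg k = 1) ∨ (φ (k * δ) < p k ∧ sg k = -1)) ∧
    (∀ k, p (k + 1) = p k + sg k * δ) := by
  classical
  let p : ℕ → ℝ := fun n => Nat.rec (motive := fun _ => ℝ) (φ 0)
    (fun (k : ℕ) (x : ℝ) => x + (if x ≤ φ ((k : ℝ) * δ) then (1 : ℝ) else -1) * δ) n
  let sg : ℕ → ℝ := fun k => if p k ≤ φ ((k : ℝ) * δ) then (1 : ℝ) else -1
  refine ⟨p, sg, rfl, ?_, fun k => rfl⟩
  intro k
  by_cases h : p k ≤ φ ((k : ℝ) * δ)
  · left
    refine ⟨h, ?_⟩
    show (if p k ≤ φ ((k : ℝ) * δ) then (1 : ℝ) else -1) = 1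
    exact if_pos h
  · right
    refine ⟨not_le.mp h, ?_⟩
    show (if p k ≤ φ ((k : ℝ) * δ) then (1 : ℝ) else -1) = -1
    exact if_neg h

theorem zig_exists (φ : ℝ → ℝ) (hφ : ∀ s t, 0 ≤ s → 0 ≤ t → |φ s - φ t| ≤ |s - t|) (δ : ℝ)
    (hδ : 0 < δ) :
    ∃ (sg : ℕ → ℝ) (z : ℝ → ℝ), (∀ k, sg k = 1 ∨ sg k = -1) ∧ z 0 = φ 0 ∧
      (∀ s t, 0 ≤ s → 0 ≤ t → |z s - z t| ≤ |s - t|) ∧ (∀ l, 0 ≤ l → |z l - φ l| ≤ 4 * δ) ∧
      (∀ (k : ℕ) (l : ℝ), k * δ ≤ l → l ≤ (k + 1) * δ → z l = z (k * δ) + sg k * (l - k * δ)) := by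
  obtain ⟨p, sg, hp0, hsg, hps⟩ := zig_rec φ δ
  have hsg1 : ∀ k, sg k = 1 ∨ sg k = -1 := fun k => by
    rcases hsg k with h | h
    · exact Or.inl h.2
    · exact Or.inr h.2
  have hsgabs : ∀ k, |sg k| = 1 := fun k => by
    rcases hsg1 k with h | h <;> rw [h] <;> simp
  set z : ℝ → ℝ := fun l => p ⌊l / δ⌋₊ + sg ⌊l / δ⌋₊ * (l - (⌊l / δ⌋₊ : ℝ) * δ) with hz
  -- value in the interval `[kδ, (k+1)δ]`
  have hzk : ∀ (k : ℕ) (l : ℝ), k * δ ≤ l → l ≤ (k + 1) * δ → z l = p k + sg k * (l - k * δ) := by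
    intro k l h1 h2
    rcases lt_or_eq_of_le h2 with h3 | h3
    · have hfl : ⌊l / δ⌋₊ = k := by
        rw [Nat.floor_eq_iff (div_nonneg (le_trans (by positivity) h1) hδ.le)]
        constructor
        · rw [le_div_iff₀ hδ]; exact h1
        · rw [div_lt_iff₀ hδ]; exact h3
      simp only [hz, hfl]
    · have hfl : ⌊l / δ⌋₊ = k + 1 := by
        rw [h3, mul_div_assoc, div_self hδ.ne', mul_one]
        have : ((k : ℝ) + 1) = ((k + 1 : ℕ) : ℝ) := by push_cast; ring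
        rw [this, Nat.floor_natCast]
      simp only [hz, hfl]
      rw [hps k, h3]
      push_cast
      ring
  have hzp : ∀ k : ℕ, z (k * δ) = p k := by
    intro k
    rw [hzk k (k * δ) le_rfl (by nlinarith)]
    ring
  have hfl : ∀ l : ℝ, 0 ≤ l → (⌊l / δ⌋₊ : ℝ) * δ ≤ l ∧ l ≤ ((⌊l / δ⌋₊ : ℝ) + 1) * δ := by
    intro l hl
    constructor
    · have := Nat.floor_le (div_nonneg hl hδ.le)
      rwa [le_div_iff₀ hδ] at this
    · have := (Nat.lt_floor_add_one (l / δ)).le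
      rwa [div_le_iff₀ hδ] at this
  have hp2 : ∀ k : ℕ, |p k - φ (k * δ)| ≤ 2 * δ := by
    intro k
    induction k with
    | zero => simp [hp0]; linarith
    | succ k ih =>
      have h1 := hφ ((k : ℝ) * δ) (((k + 1 : ℕ) : ℝ) * δ) (by positivity) (by positivity)
      have h2 : |(k : ℝ) * δ - ((k + 1 : ℕ) : ℝ) * δ| = δ := by
        push_cast
        have : (k : ℝ) * δ - (k + 1) * δ = -δ := by ring
        rw [this, abs_neg, abs_of_pos hδ]
      rw [h2] at h1
      rw [abs_le] at h1 ih ⊢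
      rw [hps k]
      rcases hsg k with h | h
      · rw [h.2]
        constructor <;> linarith [h.1, h1.1, h1.2, ih.1, ih.2]
      · rw [h.2]
        constructor <;> linarith [h.1, h1.1, h1.2, ih.1, ih.2]
  have hpl : ∀ (m n : ℕ), |p (m + n) - p m| ≤ n * δ := by
    intro m n
    induction n with
    | zero => simp
    | succ n ih =>
      have h1 : p (m + (n + 1)) - p m = (p (m + n) - p m) + sg (m + n) * δ := by
        rw [← add_assoc, hps (m + n)]; ring
      rw [h1]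
      refine (abs_add_le _ _).trans ?_
      rw [abs_mul, hsgabs, abs_of_pos hδ]
      push_cast
      linarith
  have hlip : ∀ s t, 0 ≤ s → s ≤ t → |z t - z s| ≤ t - s := by
    intro s t hs hst
    have ht : 0 ≤ t := hs.trans hst
    obtain ⟨a1, a2⟩ := hfl s hs
    obtain ⟨b1, b2⟩ := hfl t ht
    have hmn : ⌊s / δ⌋₊ ≤ ⌊t / δ⌋₊ := Nat.floor_mono (div_le_div_of_nonneg_right hst hδ.le)
    have e1 := hzk _ s a1 a2
    have e2 := hzk _ t b1 b2
    generalize ⌊s / δ⌋₊ = m at *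
    generalize ⌊t / δ⌋₊ = n at *
    rcases Nat.eq_or_lt_of_le hmn with h | h
    · subst h
      rw [e1, e2]
      have : p m + sg m * (t - m * δ) - (p m + sg m * (s - m * δ)) = sg m * (t - s) := by ring
      rw [this, abs_mul, hsgabs, one_mul, abs_of_nonneg (by linarith)]
    · obtain ⟨d, rfl⟩ := Nat.exists_eq_add_of_lt h
      have h1 : z t - z s = sg (m + d + 1) * (t - ((m + d + 1 : ℕ) : ℝ) * δ)
          + (p (m + 1 + d) - p (m + 1)) + sg m * (((m : ℝ) + 1) * δ - s) := by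
        rw [e1, e2, hps m]
        have : m + 1 + d = m + d + 1 := by ring
        rw [this]
        ring
      rw [h1]
      refine (abs_add_le _ _).trans ?_
      have h2 := abs_add_le (sg (m + d + 1) * (t - ((m + d + 1 : ℕ) : ℝ) * δ))
        (p (m + 1 + d) - p (m + 1))
      have h3 : |sg (m + d + 1) * (t - ((m + d + 1 : ℕ) : ℝ) * δ)|
          = t - ((m + d + 1 : ℕ) : ℝ) * δ := by
        rw [abs_mul, hsgabs, one_mul, abs_of_nonneg (by linarith)]
      have h4 : |sg m * (((m : ℝ) + 1) * δ - s)| = ((m : ℝ) + 1) * δ - s := by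
        rw [abs_mul, hsgabs, one_mul, abs_of_nonneg (by linarith)]
      have h5 := hpl (m + 1) d
      rw [h4]
      rw [h3] at h2
      push_cast at h2 ⊢
      nlinarith
  refine ⟨sg, z, hsg1, ?_, ?_, ?_, ?_⟩
  · have := hzp 0
    simpa [hp0] using this
  · intro s t hs ht
    rcases le_total s t with h | h
    · rw [abs_sub_comm, abs_sub_comm s t, abs_of_nonneg (sub_nonneg.mpr h)]
      exact hlip s t hs h
    · rw [abs_of_nonneg (sub_nonneg.mpr h)]
      exact hlip t s ht h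
  · intro l hl
    obtain ⟨b1, b2⟩ := hfl l hl
    have e := hzk _ l b1 b2
    generalize ⌊l / δ⌋₊ = k at *
    have h1 := hp2 k
    have h2 := hφ ((k : ℝ) * δ) l (by positivity) hl
    have h3 : |(k : ℝ) * δ - l| ≤ δ := by
      rw [abs_le]; constructor <;> linarith
    have h4 : z l - φ l = sg k * (l - k * δ) + (p k - φ (k * δ)) + (φ (k * δ) - φ l) := by
      rw [e]; ring
    rw [h4]
    have h5 : |sg k * (l - k * δ)| ≤ δ := by
      rw [abs_mul, hsgabs, one_mul, abs_of_nonneg (by linarith)]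
      linarith
    have h6 := abs_add_le (sg k * (l - k * δ) + (p k - φ (k * δ))) (φ (k * δ) - φ l)
    have h7 := abs_add_le (sg k * (l - k * δ)) (p k - φ (k * δ))
    linarith
  · intro k l h1 h2
    rw [hzp k]
    exact hzk k l h1 h2

end zig

end Pool.Agent.Helper41.SK
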