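import Pool.Agent.Helper41.SK.Defs
import Pool.Agent.Helper41.SK.MainDefs


set_option autoImplicit false

open scoped ENNReal NNReal Topology
open MeasureTheory ProbabilityTheory Set Filter

namespace Pool.Agent.Helper41.SK

/-! Processes are indexed by t. -/

/-! ## TARGETS: prove these (statements must not be changed; helper lemmas are welcome) -/

theorem rm_cl (z : ℝ) : 0 ≤ cl z ∧ cl z ≤ 1 := by
  unfold cl
  exact ⟨le_max_left _ _, max_le zero_le_one (min_le_left _ _)⟩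

theorem rm_cl' (z : ℝ) (h : z ∈ Icc (0:ℝ) 1) : cl z = z := by
  unfold cl
  rw [min_eq_right h.2, max_eq_right h.1]

theorem rm_clc : Continuous cl := by
  unfold cl
  fun_prop

/-- deterministic running maximum -/
theorem rm_det (g : ℝ → ℝ) (hg : ContinuousOn g (Ici 0)) :
    Continuous (fun t => sSup ((fun θ => g (cl θ * max t 0)) '' Icc 0 1)) ∧
    ∀ t, 0 ≤ t → (∀ s, 0 ≤ s → s ≤ t → g s ≤ sSup ((fun θ => g (cl θ * max t 0)) '' Icc 0 1)) ∧
      (∃ θ ∈ Icc (0:ℝ) 1, sSup ((fun θ => g (cl θ * max t 0)) '' Icc 0 1) = g (cl θ * t)) := by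
  have hj : Continuous (fun p : ℝ × ℝ => g (cl p.2 * max p.1 0)) := by
    apply hg.comp_continuous
    · exact (rm_clc.comp continuous_snd).mul (continuous_fst.max continuous_const)
    · intro p
      exact mul_nonneg (rm_cl _).1 (le_max_right _ _)
  refine ⟨?_, ?_⟩
  · exact IsCompact.continuous_sSup (f := fun t θ => g (cl θ * max t 0)) isCompact_Icc hj
  · intro t ht
    have hct : Continuous (fun θ => g (cl θ * max t 0)) :=
      hj.comp (continuous_const.prodMk continuous_id)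
    have hcomp : IsCompact ((fun θ => g (cl θ * max t 0)) '' Icc (0:ℝ) 1) :=
      isCompact_Icc.image hct
    refine ⟨?_, ?_⟩
    · intro s hs hst
      apply le_csSup hcomp.bddAbove
      rcases ht.eq_or_lt with h0 | h0
      · refine ⟨0, ⟨le_rfl, zero_le_one⟩, ?_⟩
        have hs0 : s = 0 := le_antisymm (by rw [h0]; exact hst) hs
        simp only
        rw [hs0, ← h0, max_self, mul_zero]
      · have hθ : s / t ∈ Icc (0:ℝ) 1 := ⟨by positivity, (div_le_one h0).2 hst⟩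
        refine ⟨s / t, hθ, ?_⟩
        simp only
        rw [rm_cl' _ hθ, max_eq_left ht, div_mul_cancel₀ _ h0.ne']
    · obtain ⟨θ, hθ, he⟩ := isCompact_Icc.exists_sSup_image_eq (nonempty_Icc.2 zero_le_one)
        hct.continuousOn
      refine ⟨θ, hθ, ?_⟩
      rw [he, max_eq_left ht]

section zig

variable {Ω : Type*} [mΩ : MeasurableSpace Ω] {F : ℝ → MeasurableSpace Ω} {B : ℝ → Ω → ℝ}

theorem run_max (hm : Monotone F) (u : ℝ → Ω → ℝ) (hu : ∀ t, 0 ≤ t → Measurable[F t] (u t))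
    (hc : ∀ ω, ContinuousOn (fun t => u t ω) (Ici 0)) :
    ∃ m : ℝ → Ω → ℝ, (∀ t, 0 ≤ t → Measurable[F t] (m t)) ∧ (∀ ω, Continuous (fun t => m t ω)) ∧
      (∀ ω s t, 0 ≤ s → s ≤ t → m s ω ≤ m t ω) ∧ (∀ ω t, 0 ≤ t → u t ω ≤ m t ω) ∧
      (∀ ω t, 0 ≤ t → ∃ s, 0 ≤ s ∧ s ≤ t ∧ u s ω = m t ω ∧ ∀ r, 0 ≤ r → r < s → m r ω < m t ω) ∧
      (∀ ω, m 0 ω = u 0 ω) := by
  obtain ⟨m, hm'⟩ : ∃ m : ℝ → Ω → ℝ, ∀ t ω, m t ω =
    sSup ((fun θ => u (cl θ * max t 0) ω) '' Icc 0 1) := ⟨_, fun _ _ => rfl⟩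
  have hdet := fun ω => rm_det (fun t => u t ω) (hc ω)
  have hcont : ∀ ω, Continuous (fun t => m t ω) := by
    intro ω
    have h1 := (hdet ω).1
    simp only [hm']
    exact h1
  have hA : ∀ ω t, 0 ≤ t → ∀ s, 0 ≤ s → s ≤ t → u s ω ≤ m t ω := by
    intro ω t ht s hs hst
    rw [hm']
    exact ((hdet ω).2 t ht).1 s hs hst
  have hB' : ∀ ω t, 0 ≤ t → ∃ θ ∈ Icc (0:ℝ) 1, m t ω = u (cl θ * t) ω := by
    intro ω t ht
    rw [hm']
    exact ((hdet ω).2 t ht).2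
  have hcl : ∀ θ t, 0 ≤ t → 0 ≤ cl θ * t ∧ cl θ * t ≤ t := fun θ t ht =>
    ⟨mul_nonneg (rm_cl θ).1 ht, by
      have h1 := mul_le_mul_of_nonneg_right (rm_cl θ).2 ht
      rwa [one_mul] at h1⟩
  have hBs : ∀ ω t, 0 ≤ t → ∃ s, 0 ≤ s ∧ s ≤ t ∧ u s ω = m t ω := by
    intro ω t ht
    obtain ⟨θ, _, h1⟩ := hB' ω t ht
    exact ⟨cl θ * t, (hcl θ t ht).1, (hcl θ t ht).2, h1.symm⟩
  have hmono : ∀ ω s t, 0 ≤ s → s ≤ t → m s ω ≤ m t ω := by
    intro ω s t hs hst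
    obtain ⟨r, hr0, hrs, hr⟩ := hBs ω s hs
    rw [← hr]
    exact hA ω t (hs.trans hst) r hr0 (hrs.trans hst)
  refine ⟨m, ?_, hcont, hmono, fun ω t ht => hA ω t ht t ht le_rfl, ?_, ?_⟩
  · intro t ht
    have hmeas : ∀ x : ℝ, MeasurableSet[F t] (m t ⁻¹' Ioi x) := by
      intro x
      have h1 : m t ⁻¹' Ioi x = ⋃ q : ℚ, {ω | x < u (cl (q : ℝ) * t) ω} := by
        ext ω
        rw [mem_iUnion]
        constructor
        · intro h2
          have h2' : x < m t ω := h2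
          obtain ⟨θ, _, h3⟩ := hB' ω t ht
          have hcq : Continuous (fun θ => u (cl θ * t) ω) := by
            apply (hc ω).comp_continuous (rm_clc.mul continuous_const)
            intro θ
            exact (hcl θ t ht).1
          have hop : IsOpen {θ : ℝ | x < u (cl θ * t) ω} := isOpen_lt continuous_const hcq
          obtain ⟨q, hq⟩ := Rat.denseRange_cast (𝕜 := ℝ) |>.exists_mem_open hop
            ⟨θ, by show x < u (cl θ * t) ω; rw [← h3]; exact h2'⟩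
          exact ⟨q, hq⟩
        · rintro ⟨q, hq⟩
          have hq' : x < u (cl (q : ℝ) * t) ω := hq
          exact hq'.trans_le (hA ω t ht _ (hcl _ t ht).1 (hcl _ t ht).2)
      rw [h1]
      apply MeasurableSet.iUnion
      intro q
      have h2 : Measurable[F t] (u (cl (q : ℝ) * t)) :=
        (hu _ (hcl q t ht).1).mono (hm (hcl q t ht).2) le_rfl
      exact h2 measurableSet_Ioi
    exact measurable_of_Ioi hmeas
  · intro ω t ht
    have hcl' : IsCompact {s | s ∈ Icc 0 t ∧ u s ω = m t ω} := by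
      have h1 : IsClosed {s | s ∈ Icc 0 t ∧ u s ω = m t ω} := by
        have h2 : ContinuousOn (fun s => u s ω) (Icc 0 t) := (hc ω).mono Icc_subset_Ici_self
        exact h2.preimage_isClosed_of_isClosed isClosed_Icc (isClosed_singleton (x := m t ω))
      exact isCompact_Icc.of_isClosed_subset h1 (fun s hs => hs.1)
    obtain ⟨s1, h10, h11, h12⟩ := hBs ω t ht
    obtain ⟨s, hs, hleast⟩ := hcl'.exists_isLeast ⟨s1, ⟨h10, h11⟩, h12⟩
    refine ⟨s, hs.1.1, hs.1.2, hs.2, ?_⟩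
    intro r hr0 hrs
    obtain ⟨r', hr'0, hr'r, hr'⟩ := hBs ω r hr0
    have h3 : m r ω ≤ m t ω := hmono ω r t hr0 (hrs.le.trans hs.1.2)
    refine lt_of_le_of_ne h3 ?_
    intro h4
    have h5 := hleast (a := r') ⟨⟨hr'0, hr'r.trans (hrs.le.trans hs.1.2)⟩, by rw [hr', h4]⟩
    linarith
  · intro ω
    obtain ⟨s, h0, h1, h2⟩ := hBs ω 0 le_rfl
    have h3 : s = 0 := le_antisymm h1 h0
    rw [← h2, h3]

/-- the invariant of the stages -/
structure StInv {Ω : Type*} (F : ℝ → MeasurableSpace Ω) (B : ℝ → Ω → ℝ) (δ : ℝ)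
    (A : ℝ → Ω → ℝ) (w : ℝ) : Prop where
  ad : ∀ t, 0 ≤ t → Measurable[F t] (A t)
  co : ∀ ω, Continuous (fun t => A t ω)
  mo : ∀ ω s t, 0 ≤ s → s ≤ t → A s ω ≤ A t ω
  ra : ∀ t ω, 0 ≤ t → 0 ≤ A t ω ∧ A t ω ≤ δ
  fi : ∀ t ω, 0 ≤ t → A t ω = δ → ∃ s, 0 ≤ s ∧ s ≤ t ∧ A s ω = δ ∧ B s ω = -w ∧
        ∀ r, 0 ≤ r → r < s → A r ω < δ

/-- the relation between two consecutive stages -/
structure StRel {Ω : Type*} (B : ℝ → Ω → ℝ) (δ σ : ℝ)
    (A : ℝ → Ω → ℝ) (w : ℝ) (A' : ℝ → Ω → ℝ) : Prop where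
  p5 : ∀ t ω, 0 ≤ t → 0 < A' t ω → A t ω = δ
  p6 : ∀ t ω, 0 ≤ t → A t ω = δ → min δ (σ * (-w - B t ω)) ≤ A' t ω
  p7 : ∀ ω s t, 0 ≤ s → s ≤ t → A' s ω < A' t ω →
        ∃ r, s ≤ r ∧ r ≤ t ∧ A' r ω = σ * (-w - B r ω) ∧ A r ω = δ
  p10 : ∀ ω, A' 0 ω = 0

theorem st_base {Ω : Type*} [mΩ : MeasurableSpace Ω] {F : ℝ → MeasurableSpace Ω} {B : ℝ → Ω → ℝ}
    (hm : Monotone F) (hB : ∀ t, 0 ≤ t → Measurable[F t] (B t))
    (hc : ∀ ω, Continuous (fun t => B t ω)) (δ : ℝ) (hδ : 0 < δ) (w : ℝ) :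
    ∃ A : ℝ → Ω → ℝ, StInv F B δ A w ∧
      (∀ t ω, 0 ≤ t → (∃ s, 0 ≤ s ∧ s ≤ t ∧ B s ω = -w) → A t ω = δ) := by
  obtain ⟨m, m1, m2, m3, m4, m5, m6⟩ := run_max hm (fun t ω => δ - min δ |B t ω + w|)
    (fun t ht => measurable_const.sub (measurable_const.min
      (continuous_abs.measurable.comp ((hB t ht).add_const w))))
    (fun ω => by
      apply Continuous.continuousOn
      exact continuous_const.sub (continuous_const.min ((hc ω).add continuous_const).abs))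
  have hu0 : ∀ t ω, 0 ≤ δ - min δ |B t ω + w| := fun t ω => by
    have := min_le_left δ |B t ω + w|
    linarith
  have hu1 : ∀ t ω, δ - min δ |B t ω + w| ≤ δ := fun t ω => by
    have h1 : 0 ≤ min δ |B t ω + w| := le_min hδ.le (abs_nonneg _)
    linarith
  have hra : ∀ t ω, 0 ≤ t → 0 ≤ m t ω ∧ m t ω ≤ δ := by
    intro t ω ht
    obtain ⟨s, hs0, hst, hs, -⟩ := m5 ω t ht
    rw [← hs]
    exact ⟨hu0 _ _, hu1 _ _⟩
  refine ⟨m, ⟨m1, m2, m3, hra, ?_⟩, ?_⟩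
  · intro t ω ht htδ
    obtain ⟨s, hs0, hst, hs, hr⟩ := m5 ω t ht
    rw [htδ] at hs hr
    refine ⟨s, hs0, hst, ?_, ?_, hr⟩
    · apply le_antisymm (hra s ω hs0).2
      have h1 := m4 ω s hs0
      linarith
    · have h2 : min δ |B s ω + w| = 0 := by linarith
      have h3 : |B s ω + w| = 0 := by
        rcases min_choice δ |B s ω + w| with h4 | h4
        · rw [h4] at h2
          exact absurd h2 hδ.ne'
        · rw [h4] at h2
          exact h2
      have h5 := abs_eq_zero.1 h3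
      linarith
  · rintro t ω ht ⟨s, hs0, hst, hs⟩
    apply le_antisymm (hra t ω ht).2
    have h1 := m4 ω s hs0
    have h2 := m3 ω s t hs0 hst
    have h3 : B s ω + w = 0 := by rw [hs]; ring
    have h4 : δ - min δ |B s ω + w| ≤ m s ω := h1
    rw [h3, abs_zero, min_eq_right hδ.le] at h4
    linarith

theorem st_step {Ω : Type*} [mΩ : MeasurableSpace Ω] {F : ℝ → MeasurableSpace Ω} {B : ℝ → Ω → ℝ}
    (hm : Monotone F) (hB : ∀ t, 0 ≤ t → Measurable[F t] (B t))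
    (hc : ∀ ω, Continuous (fun t => B t ω)) (δ : ℝ) (hδ : 0 < δ) (w σ : ℝ)
    (hσ : σ = 1 ∨ σ = -1) (A : ℝ → Ω → ℝ) (hA : StInv F B δ A w) :
    ∃ A' : ℝ → Ω → ℝ, StInv F B δ A' (w + σ * δ) ∧ StRel B δ σ A w A' := by
  obtain ⟨u, hu⟩ : ∃ u : ℝ → Ω → ℝ, ∀ t ω, u t ω =
    if δ ≤ A t ω then max 0 (σ * (-w - B t ω)) else 0 := ⟨_, fun _ _ => rfl⟩
  have hu0 : ∀ t ω, 0 ≤ u t ω := by
    intro t ω
    rw [hu]
    split_ifs
    · exact le_max_left _ _
    · exact le_rfl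
  have hupos : ∀ t ω, 0 ≤ t → 0 < u t ω → A t ω = δ ∧ u t ω = σ * (-w - B t ω) := by
    intro t ω ht h
    by_cases h1 : δ ≤ A t ω
    · refine ⟨le_antisymm (hA.ra t ω ht).2 h1, ?_⟩
      rw [hu, if_pos h1] at h ⊢
      rcases max_choice 0 (σ * (-w - B t ω)) with h2 | h2
      · rw [h2] at h
        exact absurd h (lt_irrefl _)
      · exact h2
    · rw [hu, if_neg h1] at h
      exact absurd h (lt_irrefl _)
  have hum : ∀ t, 0 ≤ t → Measurable[F t] (u t) := by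
    intro t ht
    have h1 : u t = fun ω => if δ ≤ A t ω then max 0 (σ * (-w - B t ω)) else 0 := by
      funext ω
      rw [hu]
    rw [h1]
    have h2 : MeasurableSet[F t] {ω | δ ≤ A t ω} := (hA.ad t ht) measurableSet_Ici
    have h3 : Measurable[F t] (fun ω => max 0 (σ * (-w - B t ω))) :=
      measurable_const.max ((measurable_const.sub (hB t ht)).const_mul σ)
    exact Measurable.ite h2 h3 measurable_const
  have huc : ∀ ω, ContinuousOn (fun t => u t ω) (Ici 0) := by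
    intro ω
    by_cases hex : ∃ t, 0 ≤ t ∧ A t ω = δ
    · obtain ⟨t, ht, htδ⟩ := hex
      obtain ⟨s0, hs0, hst, hAs, hBs, hr⟩ := hA.fi t ω ht htδ
      have h1 : Continuous (fun s => max 0 (σ * (-w - B (max s s0) ω))) := by
        apply continuous_const.max
        apply continuous_const.mul
        exact continuous_const.sub ((hc ω).comp (continuous_id.max continuous_const))
      apply h1.continuousOn.congr
      intro s hs
      have hs' : 0 ≤ s := hs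
      simp only
      rw [hu]
      rcases lt_or_ge s s0 with h2 | h2
      · rw [if_neg (not_le.2 (hr s hs' h2)), max_eq_right h2.le, hBs]
        simp
      · have h3 := hA.mo ω s0 s hs0 h2
        rw [hAs] at h3
        rw [if_pos h3, max_eq_left h2]
    · have h1 : ∀ s ∈ Ici (0:ℝ), u s ω = 0 := by
        intro s hs
        have hs' : 0 ≤ s := hs
        rw [hu, if_neg]
        intro h2
        exact hex ⟨s, hs', le_antisymm (hA.ra s ω hs').2 h2⟩
      exact (continuousOn_const (c := (0:ℝ))).congr h1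
  obtain ⟨m, m1, m2, m3, m4, m5, m6⟩ := run_max hm u hum huc
  have hm0 : ∀ t ω, 0 ≤ t → 0 ≤ m t ω := fun t ω ht => (hu0 t ω).trans (m4 ω t ht)
  have hmz : ∀ ω, m 0 ω = 0 := by
    intro ω
    rw [m6]
    by_contra h
    have h1 : 0 < u 0 ω := lt_of_le_of_ne (hu0 0 ω) (Ne.symm h)
    obtain ⟨h2, h3⟩ := hupos 0 ω le_rfl h1
    obtain ⟨s, hs0, hst, hAs, hBs, -⟩ := hA.fi 0 ω le_rfl h2
    have h4 : s = 0 := le_antisymm hst hs0
    rw [h4] at hBs
    rw [hBs] at h3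
    have h5 : σ * (-w - -w) = 0 := by ring
    rw [h5] at h3
    exact h h3
  -- the maximum takes the value `y` at the time `r`, where `u` takes this value
  have hivt : ∀ ω s t y, 0 ≤ s → s ≤ t → m s ω < y → y ≤ m t ω → ∃ r, s ≤ r ∧ r ≤ t ∧
      m r ω = y ∧ u r ω = y ∧ ∀ q, 0 ≤ q → q < r → m q ω < y := by
    intro ω s t y hs hst h1 h2
    obtain ⟨τ, hτ, hτy⟩ := intermediate_value_Icc hst (m2 ω).continuousOn ⟨h1.le, h2⟩
    have hτy' : m τ ω = y := hτy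
    have hτ0 : 0 ≤ τ := hs.trans hτ.1
    obtain ⟨r, hr0, hrτ, hur, hq⟩ := m5 ω τ hτ0
    rw [hτy'] at hur hq
    have h3 : m r ω = y := by
      apply le_antisymm
      · rw [← hτy']
        exact m3 ω r τ hr0 hrτ
      · rw [← hur]
        exact m4 ω r hr0
    refine ⟨r, ?_, hrτ.trans hτ.2, h3, hur, hq⟩
    by_contra h4
    have h5 := m3 ω r s hr0 (not_le.1 h4).le
    linarith
  have hra : ∀ t ω, 0 ≤ t → 0 ≤ min δ (m t ω) ∧ min δ (m t ω) ≤ δ := fun t ω ht =>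
    ⟨le_min hδ.le (hm0 t ω ht), min_le_left _ _⟩
  refine ⟨fun t ω => min δ (m t ω), ⟨?_, ?_, ?_, hra, ?_⟩, ⟨?_, ?_, ?_, ?_⟩⟩
  · intro t ht
    exact measurable_const.min (m1 t ht)
  · intro ω
    exact continuous_const.min (m2 ω)
  · intro ω s t hs hst
    exact min_le_min le_rfl (m3 ω s t hs hst)
  · intro t ω ht h
    have h1 : δ ≤ m t ω := by
      have h2 : min δ (m t ω) ≤ m t ω := min_le_right _ _
      have h' : min δ (m t ω) = δ := h
      rw [h'] at h2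
      exact h2
    obtain ⟨r, hr0, hrt, hmr, hur, hq⟩ := hivt ω 0 t δ le_rfl ht (by rw [hmz]; exact hδ) h1
    refine ⟨r, hr0, hrt, ?_, ?_, ?_⟩
    · show min δ (m r ω) = δ
      rw [hmr, min_self]
    · obtain ⟨h2, h3⟩ := hupos r ω hr0 (by rw [hur]; exact hδ)
      rw [hur] at h3
      rcases hσ with h4 | h4
      · rw [h4] at h3 ⊢
        linarith
      · rw [h4] at h3 ⊢
        linarith
    · intro q hq0 hqr
      exact lt_of_le_of_lt (min_le_right _ _) (hq q hq0 hqr)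
  · intro t ω ht h
    have h1 : 0 < m t ω := lt_of_lt_of_le h (min_le_right _ _)
    obtain ⟨s, hs0, hst, hus, -⟩ := m5 ω t ht
    obtain ⟨h2, -⟩ := hupos s ω hs0 (by rw [hus]; exact h1)
    apply le_antisymm (hA.ra t ω ht).2
    rw [← h2]
    exact hA.mo ω s t hs0 hst
  · intro t ω ht h
    apply min_le_min le_rfl
    refine le_trans ?_ (m4 ω t ht)
    rw [hu, if_pos h.ge]
    exact le_max_right _ _
  · intro ω s t hs hst h
    have h' : min δ (m s ω) < min δ (m t ω) := h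
    have h1 : m s ω < min δ (m t ω) := by
      rcases min_choice δ (m s ω) with h2 | h2
      · rw [h2] at h'
        have h3 := min_le_left δ (m t ω)
        linarith
      · rwa [h2] at h'
    obtain ⟨r, hr0, hrt, hmr, hur, hq⟩ := hivt ω s t _ hs hst h1 (min_le_right _ _)
    have h4 : 0 < min δ (m t ω) := lt_of_le_of_lt (hm0 s ω hs) h1
    obtain ⟨h2, h3⟩ := hupos r ω (hs.trans hr0) (by rw [hur]; exact h4)
    refine ⟨r, hr0, hrt, ?_, h2⟩
    show min δ (m r ω) = _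
    rw [hmr, ← h3, hur]
    exact min_eq_right (min_le_left _ _)
  · intro ω
    show min δ (m 0 ω) = 0
    rw [hmz, min_eq_right hδ.le]

theorem stage_seq (hm : Monotone F) (hB : ∀ t, 0 ≤ t → Measurable[F t] (B t))
    (hc : ∀ ω, Continuous (fun t => B t ω)) (δ : ℝ) (hδ : 0 < δ) (sg : ℕ → ℝ)
    (hsg : ∀ k, sg k = 1 ∨ sg k = -1) (v : ℕ → ℝ) (hv : ∀ k, v (k + 1) = v k + sg k * δ) :
    ∃ a : ℕ → ℝ → Ω → ℝ, (∀ k t, 0 ≤ t → Measurable[F t] (a k t)) ∧
      (∀ k ω, Continuous (fun t => a k t ω)) ∧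
      (∀ k ω s t, 0 ≤ s → s ≤ t → a k s ω ≤ a k t ω) ∧
      (∀ k t ω, 0 ≤ t → 0 ≤ a k t ω ∧ a k t ω ≤ δ) ∧
      (∀ k t ω, 0 ≤ t → 0 < a (k + 1) t ω → a k t ω = δ) ∧
      (∀ k t ω, 0 ≤ t → a k t ω = δ → min δ (sg k * (-v k - B t ω)) ≤ a (k + 1) t ω) ∧
      (∀ k ω s t, 0 ≤ s → s ≤ t → a (k + 1) s ω < a (k + 1) t ω →
        ∃ r, s ≤ r ∧ r ≤ t ∧ a (k + 1) r ω = sg k * (-v k - B r ω) ∧ a k r ω = δ) ∧
      (∀ k t ω, 0 ≤ t → a k t ω = δ → ∃ s, 0 ≤ s ∧ s ≤ t ∧ a k s ω = δ ∧ B s ω = -v k ∧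
        ∀ r, 0 ≤ r → r < s → a k r ω < δ) ∧
      (∀ t ω, 0 ≤ t → (∃ s, 0 ≤ s ∧ s ≤ t ∧ B s ω = -v 0) → a 0 t ω = δ) ∧
      (∀ k ω, a (k + 1) 0 ω = 0) := by
  obtain ⟨A0, hA0, h9⟩ := st_base hm hB hc δ hδ (v 0)
  have step : ∀ (k : ℕ) (A : ℝ → Ω → ℝ), StInv F B δ A (v k) → ∃ A' : ℝ → Ω → ℝ,
      StInv F B δ A' (v (k + 1)) ∧ StRel B δ (sg k) A (v k) A' := by
    intro k A hA
    rw [hv]
    exact st_step hm hB hc δ hδ (v k) (sg k) (hsg k) A hA
  choose nx hnx using step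
  obtain ⟨st, hst0, hsts⟩ : ∃ st : (k : ℕ) → {A : ℝ → Ω → ℝ // StInv F B δ A (v k)},
      (st 0).1 = A0 ∧ ∀ k, (st (k + 1)).1 = nx k (st k).1 (st k).2 :=
    ⟨fun k => Nat.rec ⟨A0, hA0⟩ (fun k s => ⟨nx k s.1 s.2, (hnx k s.1 s.2).1⟩) k, rfl,
      fun k => rfl⟩
  have hrel : ∀ k, StRel B δ (sg k) (st k).1 (v k) (st (k + 1)).1 := by
    intro k
    rw [hsts]
    exact (hnx k (st k).1 (st k).2).2
  refine ⟨fun k => (st k).1, fun k => (st k).2.ad, fun k => (st k).2.co, fun k => (st k).2.mo,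
    fun k => (st k).2.ra, fun k => (hrel k).p5, fun k => (hrel k).p6, fun k => (hrel k).p7,
    fun k => (st k).2.fi, ?_, fun k => (hrel k).p10⟩
  intro t ω ht h
  simp only
  rw [hst0]
  exact h9 t ω ht h

end zig

end Pool.Agent.Helper41.SK
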