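import Pool.Agent.Helper41.SK.Defs
import Pool.Agent.Helper41.SK.MainDefs


set_option autoImplicit false

open scoped ENNReal NNReal Topology
open MeasureTheory ProbabilityTheory Set Filter

namespace Pool.Agent.Helper41.SK

/-! Processes are indexed by t. -/

/-! ## TARGETS: prove these (statements must not be changed; helper lemmas are welcome) -/

section zig

variable {Ω : Type*} [mΩ : MeasurableSpace Ω] {F : ℝ → MeasurableSpace Ω} {B : ℝ → Ω → ℝ}

theorem stage_fin (hc : ∀ ω, Continuous (fun t => B t ω)) (δ : ℝ) (hδ : 0 < δ) (sg : ℕ → ℝ)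
    (hsg : ∀ k, sg k = 1 ∨ sg k = -1) (v : ℕ → ℝ) (hv : ∀ k, v (k + 1) = v k + sg k * δ)
    (a : ℕ → ℝ → Ω → ℝ) (h1 : ∀ k ω s t, 0 ≤ s → s ≤ t → a k s ω ≤ a k t ω)
    (h2 : ∀ k t ω, 0 ≤ t → 0 ≤ a k t ω ∧ a k t ω ≤ δ)
    (h3 : ∀ k t ω, 0 ≤ t → 0 < a (k + 1) t ω → a k t ω = δ)
    (h4 : ∀ k t ω, 0 ≤ t → a k t ω = δ → ∃ s, 0 ≤ s ∧ s ≤ t ∧ a k s ω = δ ∧ B s ω = -v k ∧
        ∀ r, 0 ≤ r → r < s → a k r ω < δ) (ω : Ω) (T : ℝ) (hT : 0 ≤ T) :
    ∃ K : ℕ, ∀ k, K ≤ k → ∀ t, 0 ≤ t → t ≤ T → a (k + 1) t ω = 0 := by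
  by_contra hcon
  push Not at hcon
  have hall : ∀ j, a j T ω = δ := by
    intro j
    obtain ⟨k, hk, t, ht0, htT, hne⟩ := hcon j
    have hpos : 0 < a (k + 1) t ω := lt_of_le_of_ne (h2 (k + 1) t ω ht0).1 (Ne.symm hne)
    have hdown : ∀ i, i ≤ k → a (k - i) t ω = δ := by
      intro i
      induction i with
      | zero => intro _; exact h3 k t ω ht0 hpos
      | succ i ih =>
        intro hi
        have h5 := ih (by omega)
        have e : k - i = (k - (i + 1)) + 1 := by omega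
        rw [e] at h5
        exact h3 _ t ω ht0 (by rw [h5]; exact hδ)
    have h5 : a j t ω = δ := by
      have := hdown (k - j) (Nat.sub_le _ _)
      have e : k - (k - j) = j := by omega
      rwa [e] at this
    apply le_antisymm (h2 j T ω hT).2
    rw [← h5]
    exact h1 j ω t T ht0 htT
  choose s hs0 hsT hsδ hsB hsr using fun j => h4 j T ω hT (hall j)
  have hmono : Monotone s := by
    apply monotone_nat_of_le_succ
    intro j
    by_contra hlt
    push Not at hlt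
    have h5 := hsr j (s (j + 1)) (hs0 (j + 1)) hlt
    have h6 := h3 j (s (j + 1)) ω (hs0 (j + 1)) (by rw [hsδ]; exact hδ)
    linarith
  have hbdd : BddAbove (Set.range s) := ⟨T, by rintro _ ⟨j, rfl⟩; exact hsT j⟩
  have hlim := tendsto_atTop_ciSup hmono hbdd
  have hB : Tendsto (fun j => B (s j) ω) atTop (𝓝 (B (⨆ i, s i) ω)) :=
    ((hc ω).tendsto _).comp hlim
  have hB1 : Tendsto (fun j => B (s (j + 1)) ω) atTop (𝓝 (B (⨆ i, s i) ω)) :=
    hB.comp (tendsto_add_atTop_nat 1)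
  have hd : Tendsto (fun j => |B (s (j + 1)) ω - B (s j) ω|) atTop (𝓝 0) := by
    have := (hB1.sub hB).abs
    simpa using this
  have he : ∀ j, |B (s (j + 1)) ω - B (s j) ω| = δ := by
    intro j
    rw [hsB, hsB, hv]
    have e : -(v j + sg j * δ) - -v j = -(sg j * δ) := by ring
    rw [e, abs_neg, abs_mul, abs_of_pos hδ]
    rcases hsg j with h | h <;> rw [h] <;> simp
  have h7 : Tendsto (fun _ : ℕ => δ) atTop (𝓝 0) := by
    refine hd.congr fun j => he j
  have h8 := tendsto_nhds_unique h7 tendsto_const_nhds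
  linarith

end zig

end Pool.Agent.Helper41.SK
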