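import Pool.Agent.Helper41.SK.Defs
import Pool.Agent.Helper41.SK.MainDefs
import Pool.Agent.Helper41.SK.SA01
import Pool.Agent.Helper41.SK.SD02
import Pool.Agent.Helper41.SK.SD03

set_option autoImplicit false

open scoped ENNReal NNReal Topology
open MeasureTheory ProbabilityTheory Set Filter

namespace Pool.Agent.Helper41.SK

/-! Processes are indexed by t. -/


/-! ## TARGETS: prove these (statements must not be changed; helper lemmas are welcome) -/

section det671

open Classical in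
theorem zm_find {Ω : Type*} [MeasurableSpace Ω] (a : ℕ → Ω → ℝ) (δ : ℝ)
    (ha : ∀ k, Measurable (a k)) (hex : ∀ ω, ∃ j, a j ω < δ) :
    Measurable (fun ω => Nat.find (hex ω)) :=
  measurable_find hex fun k => (ha k) measurableSet_Iio

theorem zm_sum {Ω : Type*} [MeasurableSpace Ω] (a : ℕ → Ω → ℝ)
    (ha : ∀ k, Measurable (a k)) (L : Ω → ℝ) (m : Ω → ℕ)
    (hL : ∀ ω n, m ω ≤ n → L ω = ∑ k ∈ Finset.range n, a k ω) : Measurable L := by
  have h1 : ∀ n : ℕ, Measurable (fun ω => ∑ k ∈ Finset.range n, a k ω) :=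
    fun n => Finset.measurable_fun_sum _ fun k _ => ha k
  refine measurable_of_tendsto_metrizable h1 ?_
  rw [tendsto_pi_nhds]
  intro ω
  refine tendsto_const_nhds.congr' ?_
  filter_upwards [eventually_ge_atTop (m ω)] with n hn
  exact hL ω n hn

theorem zm_nat {Ω : Type*} [MeasurableSpace Ω] (g : ℕ → ℝ) (m : Ω → ℕ) (hm : Measurable m) :
    Measurable (fun ω => g (m ω)) :=
  (measurable_of_countable g).comp hm

/-- deterministic data of the zigzag -/
structure ZD (δ : ℝ) (sg : ℕ → ℝ) (z : ℝ → ℝ) (b : ℝ → ℝ) (a : ℕ → ℝ → ℝ) : Prop where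
  d0 : 0 < δ
  hsg : ∀ k, sg k = 1 ∨ sg k = -1
  hz : ∀ (k : ℕ) (l : ℝ), k * δ ≤ l → l ≤ (k + 1) * δ → z l = z (k * δ) + sg k * (l - k * δ)
  bc : Continuous b
  b0 : b 0 = 0
  a2 : ∀ k, Continuous (a k)
  a3 : ∀ k s t, 0 ≤ s → s ≤ t → a k s ≤ a k t
  a4 : ∀ k t, 0 ≤ t → 0 ≤ a k t ∧ a k t ≤ δ
  a5 : ∀ k t, 0 ≤ t → 0 < a (k + 1) t → a k t = δ
  a6 : ∀ k t, 0 ≤ t → a k t = δ → min δ (sg k * (-z (k * δ) - b t)) ≤ a (k + 1) t
  a7 : ∀ k s t, 0 ≤ s → s ≤ t → a (k + 1) s < a (k + 1) t →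
        ∃ r, s ≤ r ∧ r ≤ t ∧ a (k + 1) r = sg k * (-z (k * δ) - b r) ∧ a k r = δ
  a8 : ∀ (k : ℕ) t, 0 ≤ t → a k t = δ → ∃ s, 0 ≤ s ∧ s ≤ t ∧ a k s = δ ∧ b s = -z (k * δ) ∧
        ∀ r, 0 ≤ r → r < s → a k r < δ
  a9 : ∀ t, 0 ≤ t → (∃ s, 0 ≤ s ∧ s ≤ t ∧ b s = -z 0) → a 0 t = δ
  a10 : ∀ k, a (k + 1) 0 = 0
  fin : ∀ T, 0 ≤ T → ∃ K : ℕ, ∀ k, K ≤ k → ∀ t, 0 ≤ t → t ≤ T → a (k + 1) t = 0

open Classical in
/-- current stage (shifted by one; `0` before the first visit) -/
noncomputable def mm (δ : ℝ) (a : ℕ → ℝ → ℝ) (t : ℝ) : ℕ :=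
  if h : ∃ j, a j (max t 0) < δ then Nat.find h else 0

/-- the local time -/
noncomputable def LL (δ : ℝ) (a : ℕ → ℝ → ℝ) (t : ℝ) : ℝ :=
  ∑ k ∈ Finset.range (mm δ a t), a (k + 1) (max t 0)

/-- the sign during a stage -/
def hh (s0 : ℝ) (sg : ℕ → ℝ) : ℕ → ℝ
  | 0 => s0
  | k + 1 => sg k

/-- the constant during a stage -/
def cc (s0 δ : ℝ) (sg : ℕ → ℝ) (z : ℝ → ℝ) : ℕ → ℝ
  | 0 => s0 * z 0
  | k + 1 => sg k * z (k * δ) - k * δ

variable {δ : ℝ} {sg : ℕ → ℝ} {z b : ℝ → ℝ} {a : ℕ → ℝ → ℝ}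

theorem ZD.ex (h : ZD δ sg z b a) (t : ℝ) (ht : 0 ≤ t) : ∃ j, a j t < δ := by
  obtain ⟨K, hK⟩ := h.fin t ht
  exact ⟨K + 1, by rw [hK K le_rfl t ht le_rfl]; exact h.d0⟩

theorem ZD.mm_eq (h : ZD δ sg z b a) (t : ℝ) (ht : 0 ≤ t) :
    a (mm δ a t) t < δ ∧ ∀ j, a j t < δ → mm δ a t ≤ j := by
  classical
  have hmax : max t 0 = t := max_eq_left ht
  have hex : ∃ j, a j (max t 0) < δ := by rw [hmax]; exact h.ex t ht
  have e : mm δ a t = Nat.find hex := dif_pos hex
  constructor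
  · have h6 : ∀ s, s = t → a (Nat.find hex) s < δ → a (mm δ a t) t < δ := by
      intro s hs h7
      subst hs
      rw [e]; exact h7
    exact h6 _ hmax (Nat.find_spec hex)
  · intro j hj
    rw [e]
    exact Nat.find_min' hex (by rw [hmax]; exact hj)

theorem ZD.lt_mm (h : ZD δ sg z b a) (t : ℝ) (ht : 0 ≤ t) (i : ℕ) (hi : i < mm δ a t) :
    a i t = δ := by
  refine le_antisymm (h.a4 i t ht).2 ?_
  by_contra hlt
  push Not at hlt
  have := (h.mm_eq t ht).2 i hlt
  omega

theorem ZD.gt_mm (h : ZD δ sg z b a) (t : ℝ) (ht : 0 ≤ t) (i : ℕ) (hi : mm δ a t < i) :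
    a i t = 0 := by
  have key : ∀ n, a (mm δ a t + n) t < δ ∧ a (mm δ a t + n + 1) t = 0 := by
    intro n
    have step : ∀ j, a j t < δ → a (j + 1) t = 0 := by
      intro j hj
      by_contra hne
      have h1 : 0 < a (j + 1) t := lt_of_le_of_ne (h.a4 _ t ht).1 (Ne.symm hne)
      have := h.a5 j t ht h1
      linarith
    induction n with
    | zero => exact ⟨(h.mm_eq t ht).1, step _ (h.mm_eq t ht).1⟩
    | succ n ih =>
      have h1 : a (mm δ a t + (n + 1)) t < δ := by
        have : mm δ a t + (n + 1) = mm δ a t + n + 1 := by ring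
        rw [this, ih.2]; exact h.d0
      exact ⟨h1, step _ h1⟩
  obtain ⟨n, rfl⟩ : ∃ n, i = mm δ a t + n + 1 := ⟨i - mm δ a t - 1, by omega⟩
  exact (key n).2

theorem ZD.le_of_eq (h : ZD δ sg z b a) (t : ℝ) (ht : 0 ≤ t) (k : ℕ) (hk : a k t = δ) :
    k < mm δ a t := by
  by_contra hle
  push Not at hle
  rcases hle.lt_or_eq with h1 | h1
  · have := h.gt_mm t ht k h1
    have := h.d0
    linarith
  · have := (h.mm_eq t ht).1
    rw [h1] at this
    linarith

theorem ZD.LL_sum (h : ZD δ sg z b a) (t : ℝ) (ht : 0 ≤ t) (N : ℕ) (hN : mm δ a t ≤ N) :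
    LL δ a t = ∑ k ∈ Finset.range N, a (k + 1) t := by
  unfold LL
  rw [max_eq_left ht]
  refine Finset.sum_subset (Finset.range_subset_range.2 hN) ?_
  intro k _ hk
  rw [Finset.mem_range, not_lt] at hk
  exact h.gt_mm t ht (k + 1) (by omega)

theorem ZD.mm_le (h : ZD δ sg z b a) (T : ℝ) (hT : 0 ≤ T) :
    ∃ N : ℕ, ∀ t, 0 ≤ t → t ≤ T → mm δ a t ≤ N := by
  obtain ⟨K, hK⟩ := h.fin T hT
  refine ⟨K + 1, fun t ht htT => (h.mm_eq t ht).2 _ ?_⟩
  rw [hK K le_rfl t ht htT]; exact h.d0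

theorem ZD.mm_mono (h : ZD δ sg z b a) (s t : ℝ) (hs : 0 ≤ s) (hst : s ≤ t) :
    mm δ a s ≤ mm δ a t :=
  (h.mm_eq s hs).2 _ (lt_of_le_of_lt (h.a3 _ s t hs hst) (h.mm_eq t (hs.trans hst)).1)

theorem ZD.LL_mono (h : ZD δ sg z b a) (s t : ℝ) (hs : 0 ≤ s) (hst : s ≤ t) :
    LL δ a s ≤ LL δ a t := by
  rw [h.LL_sum s hs _ (h.mm_mono s t hs hst), h.LL_sum t (hs.trans hst) _ le_rfl]
  exact Finset.sum_le_sum fun k _ => h.a3 _ s t hs hst

theorem ZD.LL_zero (h : ZD δ sg z b a) : LL δ a 0 = 0 := by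
  rw [h.LL_sum 0 le_rfl _ le_rfl]
  exact Finset.sum_eq_zero fun k _ => h.a10 k

theorem ZD.LL_nonneg (h : ZD δ sg z b a) (t : ℝ) (ht : 0 ≤ t) : 0 ≤ LL δ a t := by
  rw [← h.LL_zero]; exact h.LL_mono 0 t le_rfl ht

theorem ZD.LL_cont (h : ZD δ sg z b a) : Continuous (LL δ a) := by
  rw [continuous_iff_continuousAt]
  intro t0
  obtain ⟨N, hN⟩ := h.mm_le (max t0 0 + 1) (by positivity)
  have h1 : ∀ᶠ t in 𝓝 t0, LL δ a t = ∑ k ∈ Finset.range N, a (k + 1) (max t 0) := by
    have h2 : ∀ᶠ t in 𝓝 t0, t < max t0 0 + 1 :=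
      gt_mem_nhds (by have := le_max_left t0 0; linarith)
    filter_upwards [h2] with t ht
    have e : LL δ a t = LL δ a (max t 0) := by
      have hmx : max (max t 0) 0 = max t 0 := max_eq_left (le_max_right _ _)
      have em : ∀ u v : ℝ, max u 0 = max v 0 → LL δ a u = LL δ a v := by
        intro u v huv
        have e1 : mm δ a u = mm δ a v := by
          unfold mm
          generalize max u 0 = p at huv
          subst huv
          rfl
        unfold LL
        rw [e1, huv]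
      exact em _ _ hmx.symm
    rw [e]
    have ht0 : 0 ≤ max t 0 := le_max_right _ _
    exact h.LL_sum (max t 0) ht0 N (hN _ ht0 (max_le ht.le (by positivity)))
  refine ContinuousAt.congr_of_eventuallyEq ?_ h1
  refine Continuous.continuousAt ?_
  exact continuous_finsetSum _ fun k _ => (h.a2 (k + 1)).comp (continuous_id.max continuous_const)

theorem ZD.LL_succ (h : ZD δ sg z b a) (t : ℝ) (ht : 0 ≤ t) (k : ℕ) (hk : mm δ a t = k + 1) :
    LL δ a t = k * δ + a (k + 1) t := by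
  rw [h.LL_sum t ht (k + 1) hk.le, Finset.sum_range_succ]
  congr 1
  rw [Finset.sum_congr rfl (fun i hi => h.lt_mm t ht (i + 1) (by
    rw [Finset.mem_range] at hi; omega)), Finset.sum_const, Finset.card_range, nsmul_eq_mul]

theorem ZD.LL_of_zero (h : ZD δ sg z b a) (t : ℝ) (ht : 0 ≤ t) (hk : mm δ a t = 0) :
    LL δ a t = 0 := by
  rw [h.LL_sum t ht 0 hk.le, Finset.sum_range_zero]

theorem ZD.zLL (h : ZD δ sg z b a) (t : ℝ) (ht : 0 ≤ t) (k : ℕ) (hk : mm δ a t = k + 1) :
    z (LL δ a t) = z (k * δ) + sg k * a (k + 1) t := by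
  have h4 := h.a4 (k + 1) t ht
  rw [h.LL_succ t ht k hk, h.hz k (k * δ + a (k + 1) t) (by linarith) (by linarith)]
  ring

theorem ZD.sgsq (h : ZD δ sg z b a) (k : ℕ) : sg k * sg k = 1 := by
  rcases h.hsg k with h1 | h1 <;> rw [h1] <;> norm_num

/-- the sign identity -/
theorem ZD.sign_id (h : ZD δ sg z b a) (s0 : ℝ) (hs0 : s0 = if 0 ≤ z 0 then 1 else -1) (t : ℝ)
    (ht : 0 ≤ t) :
    hh s0 sg (mm δ a t) * (b t + z (LL δ a t)) = |b t + z (LL δ a t)| ∧
    |b t + z (LL δ a t)| - LL δ a t = hh s0 sg (mm δ a t) * b t + cc s0 δ sg z (mm δ a t) := by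
  rcases hm : mm δ a t with _ | k
  · -- before the first visit
    have hL := h.LL_of_zero t ht hm
    have h1 : a 0 t < δ := by
      have := (h.mm_eq t ht).1
      rwa [hm] at this
    have hno : ∀ s, 0 ≤ s → s ≤ t → b s + z 0 ≠ 0 := by
      intro s hs hst h2
      have := h.a9 t ht ⟨s, hs, hst, by linarith⟩
      linarith
    have h00 := hno 0 le_rfl ht
    rw [h.b0, zero_add] at h00
    have hsign : s0 * (b t + z 0) = |b t + z 0| := by
      rcases lt_or_gt_of_ne h00 with h2 | h2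
      · -- negative
        have h3 : s0 = -1 := by rw [hs0, if_neg (not_le.2 h2)]
        have h4 : b t + z 0 < 0 := by
          by_contra h5
          push Not at h5
          have hcont : ContinuousOn (fun s => b s + z 0) (Icc 0 t) :=
            (h.bc.add continuous_const).continuousOn
          have hmem : (0 : ℝ) ∈ Icc ((fun s => b s + z 0) 0) ((fun s => b s + z 0) t) := by
            constructor
            · show b 0 + z 0 ≤ 0
              rw [h.b0]; linarith
            · exact h5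
          obtain ⟨s, hs, hs2⟩ := intermediate_value_Icc ht hcont hmem
          exact hno s hs.1 hs.2 hs2
        rw [h3, abs_of_neg h4]; ring
      · have h3 : s0 = 1 := by rw [hs0, if_pos h2.le]
        have h4 : 0 < b t + z 0 := by
          by_contra h5
          push Not at h5
          have hcont : ContinuousOn (fun s => b s + z 0) (Icc 0 t) :=
            (h.bc.add continuous_const).continuousOn
          have hmem : (0 : ℝ) ∈ Icc ((fun s => b s + z 0) t) ((fun s => b s + z 0) 0) := by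
            constructor
            · exact h5
            · show 0 ≤ b 0 + z 0
              rw [h.b0]; linarith
          obtain ⟨s, hs, hs2⟩ := intermediate_value_Icc' ht hcont hmem
          exact hno s hs.1 hs.2 hs2
        rw [h3, abs_of_pos h4]; ring
    rw [hL]
    constructor
    · exact hsign
    · show |b t + z 0| - 0 = s0 * b t + s0 * z 0
      rw [← hsign]; ring
  · have hak : a k t = δ := h.lt_mm t ht k (by omega)
    have hlt : a (k + 1) t < δ := by
      have := (h.mm_eq t ht).1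
      rwa [hm] at this
    have h6 := h.a6 k t ht hak
    have h7 : sg k * (-z (k * δ) - b t) ≤ a (k + 1) t := by
      rcases le_total δ (sg k * (-z (k * δ) - b t)) with h8 | h8
      · rw [min_eq_left h8] at h6; linarith
      · rw [min_eq_right h8] at h6; exact h6
    have hsq := h.sgsq k
    rw [h.zLL t ht k hm]
    have e1 : sg k * (b t + (z (k * δ) + sg k * a (k + 1) t)) =
        a (k + 1) t - sg k * (-z (k * δ) - b t) := by
      linear_combination (a (k + 1) t) * hsq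
    have h8 : 0 ≤ sg k * (b t + (z (k * δ) + sg k * a (k + 1) t)) := by rw [e1]; linarith
    have h9 : sg k * (b t + (z (k * δ) + sg k * a (k + 1) t)) =
        |b t + (z (k * δ) + sg k * a (k + 1) t)| := by
      rcases h.hsg k with h10 | h10
      · rw [h10] at h8 ⊢
        rw [abs_of_nonneg (by linarith)]; ring
      · rw [h10] at h8 ⊢
        rw [abs_of_nonpos (by linarith)]; ring
    constructor
    · exact h9
    · rw [← h9, e1, h.LL_succ t ht k hm]
      show a (k + 1) t - sg k * (-z (k * δ) - b t) - (k * δ + a (k + 1) t) =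
        sg k * b t + (sg k * z (k * δ) - k * δ)
      ring

/-- the local time only grows at the zeros -/
theorem ZD.flat (h : ZD δ sg z b a) (s t : ℝ) (hs : 0 ≤ s) (hst : s ≤ t)
    (hne : ∀ r ∈ Icc s t, b r + z (LL δ a r) ≠ 0) : LL δ a s = LL δ a t := by
  have ht := hs.trans hst
  by_contra hL
  have hlt : LL δ a s < LL δ a t := lt_of_le_of_ne (h.LL_mono s t hs hst) hL
  rw [h.LL_sum s hs _ (h.mm_mono s t hs hst), h.LL_sum t ht _ le_rfl] at hlt
  obtain ⟨k, -, hk⟩ := Finset.exists_lt_of_sum_lt hlt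
  obtain ⟨r, hr1, hr2, hr3, hr4⟩ := h.a7 k s t hs hst hk
  have hr0 := hs.trans hr1
  have hkm : k < mm δ a r := h.le_of_eq r hr0 k hr4
  rcases (h.a4 (k + 1) r hr0).2.lt_or_eq with h1 | h1
  · have hm : mm δ a r = k + 1 := le_antisymm ((h.mm_eq r hr0).2 _ h1) (by omega)
    apply hne r ⟨hr1, hr2⟩
    rw [h.zLL r hr0 k hm, hr3]
    linear_combination (-z (k * δ) - b r) * h.sgsq k
  · obtain ⟨s', hs1, hs2, hs3, hs4, hs5⟩ := h.a8 (k + 1) r hr0 h1
    have hss : s ≤ s' := by
      by_contra hlt'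
      push Not at hlt'
      have h2 := h.a3 (k + 1) s' s hs1 hlt'.le
      have h3 := (h.a4 (k + 1) t ht).2
      linarith
    have hs'0 : 0 < s' := by
      rcases hs1.lt_or_eq with h2 | h2
      · exact h2
      · exfalso
        rw [← h2, h.a10 k] at hs3
        have := h.d0
        linarith
    have hz2 : a (k + 2) s' = 0 := by
      have h2 : ∀ r', 0 ≤ r' → r' < s' → a (k + 2) r' = 0 := by
        intro r' hr' hr's
        by_contra hne'
        have h3 : 0 < a (k + 1 + 1) r' := lt_of_le_of_ne (h.a4 (k + 2) r' hr').1 (Ne.symm hne')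
        have h4 := h.a5 (k + 1) r' hr' h3
        have h5 := hs5 r' hr' hr's
        linarith
      have h3 : Tendsto (a (k + 2)) (𝓝[<] s') (𝓝 (a (k + 2) s')) :=
        ((h.a2 (k + 2)).tendsto s').mono_left nhdsWithin_le_nhds
      have h4 : ∀ᶠ r' in 𝓝[<] s', (0 : ℝ) = a (k + 2) r' := by
        have h5 : ∀ᶠ r' in 𝓝[<] s', r' ∈ Ioo 0 s' := Ioo_mem_nhdsLT hs'0
        filter_upwards [h5] with r' hr'
        exact (h2 r' hr'.1.le hr'.2).symm
      exact tendsto_nhds_unique h3 (tendsto_const_nhds.congr' h4)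
    have hkm' : k + 1 < mm δ a s' := h.le_of_eq s' hs1 (k + 1) hs3
    have hm : mm δ a s' = (k + 1) + 1 := le_antisymm ((h.mm_eq s' hs1).2 _ (by
      show a (k + 2) s' < δ
      rw [hz2]; exact h.d0)) (by omega)
    apply hne s' ⟨hss, hs2.trans hr2⟩
    rw [h.zLL s' hs1 (k + 1) hm, hs4]
    have h6 : a (k + 1 + 1) s' = 0 := hz2
    rw [h6]
    ring

theorem ZD.zlip (h : ZD δ sg z b a) (l l' : ℝ) (hl : 0 ≤ l) (hll : l ≤ l') :
    |z l' - z l| ≤ l' - l := by
  have key : ∀ (n : ℕ) (l l' : ℝ), 0 ≤ l → l ≤ l' → l' ≤ n * δ → |z l' - z l| ≤ l' - l := by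
    intro n
    induction n with
    | zero =>
      intro l l' h1 h2 h3
      have h4 : l' ≤ 0 := by simpa using h3
      have h5 : l = 0 := by linarith
      have h6 : l' = 0 := by linarith
      rw [h5, h6]; simp
    | succ n ih =>
      intro l l' h1 h2 h3
      push_cast at h3
      have hcell : ∀ x y : ℝ, n * δ ≤ x → x ≤ y → y ≤ (n + 1) * δ → |z y - z x| ≤ y - x := by
        intro x y hx hxy hy
        rw [h.hz n x hx (hxy.trans hy), h.hz n y (hx.trans hxy) hy]
        have e : z (n * δ) + sg n * (y - n * δ) - (z (n * δ) + sg n * (x - n * δ)) =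
          sg n * (y - x) := by ring
        rw [e, abs_mul, abs_of_nonneg (by linarith : 0 ≤ y - x)]
        rcases h.hsg n with h5 | h5 <;> rw [h5] <;> simp
      rcases le_total l' (n * δ) with h4 | h4
      · exact ih l l' h1 h2 h4
      · rcases le_total l (n * δ) with h5 | h5
        · have h6 := ih l (n * δ) h1 h5 le_rfl
          have h7 := hcell (n * δ) l' le_rfl h4 h3
          have e : z l' - z l = (z l' - z (n * δ)) + (z (n * δ) - z l) := by ring
          rw [e]
          refine (abs_add_le _ _).trans ?_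
          linarith
        · exact hcell l l' h5 h2 h3
  obtain ⟨n, hn⟩ := exists_nat_ge (l' / δ)
  exact key n l l' hl hll (by rw [div_le_iff₀ h.d0] at hn; exact hn)

/-- increments of `|X| - L` -/
theorem ZD.incr (h : ZD δ sg z b a) (s t e : ℝ) (hs : 0 ≤ s) (hst : s ≤ t)
    (hb : |b t - b s| ≤ e) (hL : |LL δ a t - LL δ a s| ≤ e) :
    |(|b t + z (LL δ a t)| - LL δ a t) - (|b s + z (LL δ a s)| - LL δ a s)| ≤ 3 * e := by
  have h1 := h.zlip (LL δ a s) (LL δ a t) (h.LL_nonneg s hs) (h.LL_mono s t hs hst)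
  have h2 := abs_abs_sub_abs_le_abs_sub (b t + z (LL δ a t)) (b s + z (LL δ a s))
  have h3 : |b t + z (LL δ a t) - (b s + z (LL δ a s))| ≤ e + e := by
    have e1 : b t + z (LL δ a t) - (b s + z (LL δ a s)) =
      (b t - b s) + (z (LL δ a t) - z (LL δ a s)) := by ring
    rw [e1]
    refine (abs_add_le _ _).trans (add_le_add hb (h1.trans ?_))
    exact (le_abs_self _).trans hL
  have e2 : (|b t + z (LL δ a t)| - LL δ a t) - (|b s + z (LL δ a s)| - LL δ a s) =
    (|b t + z (LL δ a t)| - |b s + z (LL δ a s)|) + -(LL δ a t - LL δ a s) := by ring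
  rw [e2]
  refine (abs_add_le _ _).trans ?_
  rw [abs_neg]
  linarith

theorem hh_le (s0 : ℝ) (hs0 : |s0| ≤ 1) (hsg : ∀ k, sg k = 1 ∨ sg k = -1) (m : ℕ) :
    |hh s0 sg m| ≤ 1 := by
  cases m with
  | zero => exact hs0
  | succ k =>
    show |sg k| ≤ 1
    rcases hsg k with h | h <;> rw [h] <;> simp

/-- the Riemann sums -/
theorem ZD.rep (h : ZD δ sg z b a) (s0 : ℝ) (hs0 : s0 = if 0 ≤ z 0 then 1 else -1) (t r : ℝ)
    (ht : 0 < t) (hr : 0 ≤ r) (hrt : r ≤ t) :
    Tendsto (fun n : ℕ => ∑ i ∈ Finset.range n,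
        if gp 0 t n i < r then
          hh s0 sg (mm δ a (gp 0 t n i)) * (b (gp 0 t n (i + 1)) - b (gp 0 t n i)) else 0) atTop
        (𝓝 (|b r + z (LL δ a r)| - |z 0| - LL δ a r)) := by
  set M : ℝ → ℝ := fun u => (|b u + z (LL δ a u)| - LL δ a u) - |z 0| with hM
  have hM0 : M 0 = 0 := by
    show (|b 0 + z (LL δ a 0)| - LL δ a 0) - |z 0| = 0
    rw [h.LL_zero, h.b0]; simp
  have hs01 : |s0| ≤ 1 := by rw [hs0]; split_ifs <;> simp
  have hgoal : |b r + z (LL δ a r)| - |z 0| - LL δ a r = M r := by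
    show _ = (|b r + z (LL δ a r)| - LL δ a r) - |z 0|
    ring
  rw [hgoal, Metric.tendsto_atTop]
  intro ε hε
  -- uniform continuity
  set N : ℕ := mm δ a r with hN
  set e : ℝ := ε / (4 * (N + 1) + 1) with he
  have hN0 : (0 : ℝ) ≤ N := Nat.cast_nonneg _
  have he0 : 0 < e := by positivity
  have hucb : UniformContinuousOn b (Icc 0 t) :=
    isCompact_Icc.uniformContinuousOn_of_continuous h.bc.continuousOn
  have hucL : UniformContinuousOn (LL δ a) (Icc 0 t) :=
    isCompact_Icc.uniformContinuousOn_of_continuous h.LL_cont.continuousOn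
  rw [Metric.uniformContinuousOn_iff] at hucb hucL
  obtain ⟨η1, hη1, hb1⟩ := hucb e he0
  obtain ⟨η2, hη2, hL1⟩ := hucL e he0
  obtain ⟨n0, hn0⟩ := exists_nat_gt (t / min η1 η2)
  have hη : 0 < min η1 η2 := lt_min hη1 hη2
  refine ⟨n0 + 1, fun n hn => ?_⟩
  have hnpos : 0 < n := by omega
  have hnR : (0 : ℝ) < n := by exact_mod_cast hnpos
  have hstep : t / n < min η1 η2 := by
    rw [div_lt_iff₀ hnR]
    rw [div_lt_iff₀ hη] at hn0
    have h1 : (n0 : ℝ) ≤ n := by exact_mod_cast (by omega : n0 ≤ n)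
    calc t < n0 * min η1 η2 := hn0
      _ ≤ n * min η1 η2 := by gcongr
      _ = min η1 η2 * n := mul_comm _ _
  obtain ⟨g0, gn, gmono, gstep, gge, gle, -⟩ := gp_facts 0 t ht.le n hnpos
  -- small increments
  have hsmall : ∀ u v, 0 ≤ u → u ≤ v → v ≤ t → v - u ≤ t / n →
      |b v - b u| ≤ e ∧ |LL δ a v - LL δ a u| ≤ e := by
    intro u v hu huv hv huv'
    have hd : dist v u < min η1 η2 := by
      rw [Real.dist_eq, abs_of_nonneg (by linarith)]; linarith
    have hmu : u ∈ Icc 0 t := ⟨hu, huv.trans hv⟩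
    have hmv : v ∈ Icc 0 t := ⟨hu.trans huv, hv⟩
    have h1 := hb1 v hmv u hmu (lt_of_lt_of_le hd (min_le_left _ _))
    have h2 := hL1 v hmv u hmu (lt_of_lt_of_le hd (min_le_right _ _))
    rw [Real.dist_eq] at h1 h2
    exact ⟨h1.le, h2.le⟩
  have hMincr : ∀ u v, 0 ≤ u → u ≤ v → v ≤ t → v - u ≤ t / n → |M v - M u| ≤ 3 * e := by
    intro u v hu huv hv huv'
    obtain ⟨h1, h2⟩ := hsmall u v hu huv hv huv'
    have h3 := h.incr u v e hu huv h1 h2
    have h4 : M v - M u = (|b v + z (LL δ a v)| - LL δ a v) - (|b u + z (LL δ a u)| - LL δ a u) := by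
      show ((|b v + z (LL δ a v)| - LL δ a v) - |z 0|) - ((|b u + z (LL δ a u)| - LL δ a u) - |z 0|) = _
      ring
    rw [h4]; exact h3
  have hMeq : ∀ u v, 0 ≤ u → 0 ≤ v → mm δ a u = mm δ a v →
      M v - M u = hh s0 sg (mm δ a u) * (b v - b u) := by
    intro u v hu hv huv
    have h1 := (h.sign_id s0 hs0 u hu).2
    have h2 := (h.sign_id s0 hs0 v hv).2
    show ((|b v + z (LL δ a v)| - LL δ a v) - |z 0|) - ((|b u + z (LL δ a u)| - LL δ a u) - |z 0|) = _
    rw [h1, h2, ← huv]; ring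
  -- induction over the grid
  have key : ∀ j, j ≤ n → |(∑ i ∈ Finset.range j,
        if gp 0 t n i < r then
          hh s0 sg (mm δ a (gp 0 t n i)) * (b (gp 0 t n (i + 1)) - b (gp 0 t n i)) else 0)
        - M (min (gp 0 t n j) r)| ≤ 4 * e * mm δ a (min (gp 0 t n j) r) +
          (if r < gp 0 t n j then 4 * e else 0) := by
    intro j
    induction j with
    | zero =>
      intro _
      rw [Finset.sum_range_zero, g0, min_eq_left hr, hM0, sub_zero, abs_zero]
      have : (0 : ℝ) ≤ mm δ a 0 := Nat.cast_nonneg _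
      rw [if_neg (not_lt.2 hr), add_zero]
      positivity
    | succ j ih =>
      intro hj
      have ih' := ih (by omega)
      rw [Finset.sum_range_succ]
      set S := ∑ i ∈ Finset.range j,
        if gp 0 t n i < r then
          hh s0 sg (mm δ a (gp 0 t n i)) * (b (gp 0 t n (i + 1)) - b (gp 0 t n i)) else 0 with hS
      have hg1 := gmono j
      have hg2 := gstep j
      rw [sub_zero] at hg2
      have hg3 := gge j
      have hg4 := gle (j + 1) hj
      rcases lt_or_ge (gp 0 t n j) r with h1 | h1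
      · rw [if_pos h1]
        rw [min_eq_left h1.le, if_neg (not_lt.2 h1.le), add_zero] at ih'
        rcases le_or_gt (gp 0 t n (j + 1)) r with h2 | h2
        · rw [min_eq_left h2, if_neg (not_lt.2 h2), add_zero]
          have hmono := h.mm_mono _ _ hg3 hg1
          rcases hmono.lt_or_eq with h3 | h3
          · -- a switch
            obtain ⟨h4, -⟩ := hsmall _ _ hg3 hg1 hg4 hg2.le
            have h5 := hMincr _ _ hg3 hg1 hg4 hg2.le
            have h6 : |hh s0 sg (mm δ a (gp 0 t n j)) * (b (gp 0 t n (j + 1)) - b (gp 0 t n j))| ≤ e := by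
              rw [abs_mul]
              calc |hh s0 sg (mm δ a (gp 0 t n j))| * |b (gp 0 t n (j + 1)) - b (gp 0 t n j)|
                  ≤ 1 * e := by
                    gcongr
                    exact hh_le s0 hs01 h.hsg _
                _ = e := one_mul e
            have e3 : S + hh s0 sg (mm δ a (gp 0 t n j)) * (b (gp 0 t n (j + 1)) - b (gp 0 t n j))
                - M (gp 0 t n (j + 1)) = (S - M (gp 0 t n j)) +
                (hh s0 sg (mm δ a (gp 0 t n j)) * (b (gp 0 t n (j + 1)) - b (gp 0 t n j)) +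
                - (M (gp 0 t n (j + 1)) - M (gp 0 t n j))) := by ring
            rw [e3]
            refine (abs_add_le _ _).trans ?_
            have h7 := abs_add_le (hh s0 sg (mm δ a (gp 0 t n j)) *
              (b (gp 0 t n (j + 1)) - b (gp 0 t n j))) (-(M (gp 0 t n (j + 1)) - M (gp 0 t n j)))
            rw [abs_neg] at h7
            have h8 : ((mm δ a (gp 0 t n j) : ℝ)) + 1 ≤ (mm δ a (gp 0 t n (j + 1)) : ℝ) := by
              exact_mod_cast h3
            nlinarith
          · have h5 := hMeq _ _ hg3 (hg3.trans hg1) h3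
            have e3 : S + hh s0 sg (mm δ a (gp 0 t n j)) * (b (gp 0 t n (j + 1)) - b (gp 0 t n j))
                - M (gp 0 t n (j + 1)) = S - M (gp 0 t n j) := by
              rw [← h5]; ring
            rw [e3, ← h3]
            exact ih'
        · rw [min_eq_right h2.le, if_pos h2]
          have hmono : mm δ a (gp 0 t n j) ≤ mm δ a r := h.mm_mono _ _ hg3 h1.le
          obtain ⟨h4, -⟩ := hsmall _ _ hg3 hg1 hg4 hg2.le
          have h5 := hMincr _ r hg3 h1.le hrt (by linarith)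
          have h6 : |hh s0 sg (mm δ a (gp 0 t n j)) * (b (gp 0 t n (j + 1)) - b (gp 0 t n j))| ≤ e := by
            rw [abs_mul]
            calc |hh s0 sg (mm δ a (gp 0 t n j))| * |b (gp 0 t n (j + 1)) - b (gp 0 t n j)|
                ≤ 1 * e := by
                  gcongr
                  exact hh_le s0 hs01 h.hsg _
              _ = e := one_mul e
          have e3 : S + hh s0 sg (mm δ a (gp 0 t n j)) * (b (gp 0 t n (j + 1)) - b (gp 0 t n j))
              - M r = (S - M (gp 0 t n j)) +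
              (hh s0 sg (mm δ a (gp 0 t n j)) * (b (gp 0 t n (j + 1)) - b (gp 0 t n j)) +
              - (M r - M (gp 0 t n j))) := by ring
          rw [e3]
          refine (abs_add_le _ _).trans ?_
          have h7 := abs_add_le (hh s0 sg (mm δ a (gp 0 t n j)) *
            (b (gp 0 t n (j + 1)) - b (gp 0 t n j))) (-(M r - M (gp 0 t n j)))
          rw [abs_neg] at h7
          have h8 : ((mm δ a (gp 0 t n j) : ℝ)) ≤ (mm δ a r : ℝ) := by
            exact_mod_cast hmono
          nlinarith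
      · rw [if_neg (not_lt.2 h1), add_zero, min_eq_right (h1.trans hg1)]
        rw [min_eq_right h1] at ih'
        refine ih'.trans ?_
        have h3 : (if r < gp 0 t n j then 4 * e else 0) ≤ (if r < gp 0 t n (j + 1) then 4 * e else 0) := by
          split_ifs with h4 h5 h5
          · exact le_rfl
          · exact absurd (lt_of_lt_of_le h4 hg1) h5
          · positivity
          · exact le_rfl
        linarith
  have hfin := key n le_rfl
  rw [gn, min_eq_right hrt] at hfin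
  rw [Real.dist_eq]
  refine lt_of_le_of_lt hfin ?_
  have h1 : (if r < t then 4 * e else 0) ≤ 4 * e := by
    split_ifs
    · exact le_rfl
    · positivity
  have h2 : 4 * e * (mm δ a r : ℝ) + 4 * e < ε := by
    have h3 : e * (4 * (N + 1) + 1) = ε := by rw [he]; field_simp
    have h4 : (mm δ a r : ℝ) = N := by rw [hN]
    rw [h4]
    nlinarith
  linarith

end det671

section zig

variable {Ω : Type*} [mΩ : MeasurableSpace Ω] {F : ℝ → MeasurableSpace Ω} {B : ℝ → Ω → ℝ}

theorem zig_proc (hm : Monotone F) (hB : ∀ t, 0 ≤ t → Measurable[F t] (B t))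
    (hc : ∀ ω, Continuous (fun t => B t ω)) (h0 : ∀ ω, B 0 ω = 0) (δ : ℝ) (hδ : 0 < δ)
    (sg : ℕ → ℝ) (hsg : ∀ k, sg k = 1 ∨ sg k = -1) (z : ℝ → ℝ)
    (hz : ∀ (k : ℕ) (l : ℝ), k * δ ≤ l → l ≤ (k + 1) * δ → z l = z (k * δ) + sg k * (l - k * δ)) :
    ∃ L H : ℝ → Ω → ℝ, (∀ t, 0 ≤ t → Measurable[F t] (L t)) ∧
      (∀ ω, Continuous (fun t => L t ω)) ∧ (∀ ω, L 0 ω = 0) ∧
      (∀ ω s t, 0 ≤ s → s ≤ t → L s ω ≤ L t ω) ∧
      (∀ t, 0 ≤ t → Measurable[F t] (H t)) ∧ (∀ t ω, |H t ω| ≤ 1) ∧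
      (∀ ω s t, 0 ≤ s → s ≤ t → (∀ r ∈ Icc s t, B r ω + z (L r ω) ≠ 0) → L s ω = L t ω) ∧
      (∀ ω t, 0 ≤ t → H t ω * (B t ω + z (L t ω)) = |B t ω + z (L t ω)|) ∧
      (∀ ω t r, 0 < t → 0 ≤ r → r ≤ t → Tendsto (fun n : ℕ => ∑ i ∈ Finset.range n,
        if gp 0 t n i < r then
          H (gp 0 t n i) ω * (B (gp 0 t n (i + 1)) ω - B (gp 0 t n i) ω) else 0) atTop
        (𝓝 (|B r ω + z (L r ω)| - |z 0| - L r ω))) := by
  classical
  have hv : ∀ k : ℕ, z ((k + 1 : ℕ) * δ) = z (k * δ) + sg k * δ := by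
    intro k
    have h1 := hz k ((k + 1 : ℕ) * δ) (by push_cast; nlinarith) (by push_cast; exact le_rfl)
    rw [h1]; push_cast; ring
  obtain ⟨a, a1, a2, a3, a4, a5, a6, a7, a8, a9, a10⟩ :=
    stage_seq hm hB hc δ hδ sg hsg (fun k => z (k * δ)) hv
  have hfin := fun ω T hT => stage_fin hc δ hδ sg hsg (fun k => z (k * δ)) hv a a3 a4 a5 a8 ω T hT
  have hZ : ∀ ω, ZD δ sg z (fun t => B t ω) (fun k t => a k t ω) := by
    intro ω
    refine ⟨hδ, hsg, hz, hc ω, h0 ω, fun k => a2 k ω, fun k s t => a3 k ω s t,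
      fun k t ht => a4 k t ω ht, fun k t ht => a5 k t ω ht, fun k t ht => a6 k t ω ht,
      fun k s t => a7 k ω s t, fun k t ht => a8 k t ω ht, ?_, fun k => a10 k ω, hfin ω⟩
    intro t ht hs
    obtain ⟨s, h1, h2, h3⟩ := hs
    refine a9 t ω ht ⟨s, h1, h2, ?_⟩
    show B s ω = -z ((0 : ℕ) * δ)
    rw [Nat.cast_zero, zero_mul]
    exact h3
  set s0 : ℝ := if 0 ≤ z 0 then 1 else -1 with hs0
  have hs01 : |s0| ≤ 1 := by rw [hs0]; split_ifs <;> simp
  have hmm : ∀ t, 0 ≤ t → @Measurable Ω ℕ (F t) _ (fun ω => mm δ (fun k t => a k t ω) t) := by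
    intro t ht
    have hex : ∀ ω, ∃ j, a j t ω < δ := fun ω => (hZ ω).ex t ht
    have e : (fun ω => mm δ (fun k t => a k t ω) t) = fun ω => Nat.find (hex ω) := by
      funext ω
      have hmax : max t 0 = t := max_eq_left ht
      apply le_antisymm
      · exact ((hZ ω).mm_eq t ht).2 _ (Nat.find_spec (hex ω))
      · exact Nat.find_min' (hex ω) ((hZ ω).mm_eq t ht).1
    rw [e]
    exact @zm_find Ω (F t) (fun j ω => a j t ω) δ (fun k => a1 k t ht) hex
  refine ⟨fun t ω => LL δ (fun k t => a k t ω) t,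
    fun t ω => hh s0 sg (mm δ (fun k t => a k t ω) t), ?_, fun ω => (hZ ω).LL_cont,
    fun ω => (hZ ω).LL_zero, fun ω s t => (hZ ω).LL_mono s t, ?_, fun t ω => hh_le s0 hs01 hsg _,
    fun ω s t => (hZ ω).flat s t, fun ω t ht => ((hZ ω).sign_id s0 hs0 t ht).1,
    fun ω t r => (hZ ω).rep s0 hs0 t r⟩
  · intro t ht
    exact @zm_sum Ω (F t) (fun k ω => a (k + 1) t ω) (fun k => a1 (k + 1) t ht) _
      (fun ω => mm δ (fun k t => a k t ω) t) (fun ω n hn => (hZ ω).LL_sum t ht n hn)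
  · intro t ht
    exact @zm_nat Ω (F t) (hh s0 sg) _ (hmm t ht)

end zig

end Pool.Agent.Helper41.SK
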