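import Pool.Agent.Helper41.SK.Defs
import Pool.Agent.Helper41.SK.MainDefs
import Pool.Agent.Helper41.SK.SA01
import Pool.Agent.Helper41.SK.SA05
import Pool.Agent.Helper41.SK.SA06
import Pool.Agent.Helper41.SK.SA07
import Pool.Agent.Helper41.SK.SA08
import Pool.Agent.Helper41.SK.SA09
import Pool.Agent.Helper41.SK.SB01
import Pool.Agent.Helper41.SK.SD04

set_option autoImplicit false

open scoped ENNReal NNReal Topology
open MeasureTheory ProbabilityTheory Set Filter

namespace Pool.Agent.Helper41.SK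

/-! Processes are indexed by t. -/


section zigaux

variable {Ω : Type*} [mΩ : MeasurableSpace Ω] {P : Measure Ω} [IsProbabilityMeasure P]
  {F : ℝ → MeasurableSpace Ω} {B : ℝ → Ω → ℝ}

/-- Fatou for second moments -/
theorem zg_fatou (f : ℕ → Ω → ℝ) (g : Ω → ℝ) (M : ℕ → ℝ) (M0 : ℝ)
    (hf : ∀ n, MemLp (f n) 2 P) (hlim : ∀ᵐ ω ∂P, Tendsto (fun n => f n ω) atTop (𝓝 (g ω)))
    (hM : ∀ n, ∫ ω, (f n ω) ^ 2 ∂P ≤ M n) (hMlim : Tendsto M atTop (𝓝 M0)) :
    MemLp g 2 P ∧ ∫ ω, (g ω) ^ 2 ∂P ≤ M0 := by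
  have hgm : AEStronglyMeasurable g P :=
    aestronglyMeasurable_of_tendsto_ae atTop (fun n => (hf n).1) hlim
  have hM0 : 0 ≤ M0 := by
    apply ge_of_tendsto' hMlim
    intro n
    exact (integral_nonneg fun ω => sq_nonneg _).trans (hM n)
  have h1 : ∀ n, ∫⁻ ω, ENNReal.ofReal ((f n ω) ^ 2) ∂P ≤ ENNReal.ofReal (M n) := by
    intro n
    rw [← ofReal_integral_eq_lintegral_ofReal (hf n).integrable_sq
      (Eventually.of_forall fun ω => sq_nonneg _)]
    exact ENNReal.ofReal_le_ofReal (hM n)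
  have h2 : ∫⁻ ω, ENNReal.ofReal ((g ω) ^ 2) ∂P ≤ ENNReal.ofReal M0 := by
    have h3 : ∫⁻ ω, ENNReal.ofReal ((g ω) ^ 2) ∂P =
        ∫⁻ ω, liminf (fun n => ENNReal.ofReal ((f n ω) ^ 2)) atTop ∂P := by
      apply lintegral_congr_ae
      filter_upwards [hlim] with ω hω
      symm
      apply Tendsto.liminf_eq
      exact (ENNReal.continuous_ofReal.tendsto _).comp (hω.pow 2)
    rw [h3]
    refine (lintegral_liminf_le' fun n => ?_).trans ?_
    · exact (((hf n).1.aemeasurable.pow_const 2).ennreal_ofReal)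
    · have h4 : Tendsto (fun n => ENNReal.ofReal (M n)) atTop (𝓝 (ENNReal.ofReal M0)) :=
        (ENNReal.continuous_ofReal.tendsto _).comp hMlim
      rw [← h4.liminf_eq]
      exact liminf_le_liminf (Eventually.of_forall h1)
  have h5 : Integrable (fun ω => (g ω) ^ 2) P := by
    refine ⟨hgm.pow 2, ?_⟩
    rw [hasFiniteIntegral_iff_ofReal (Eventually.of_forall fun ω => sq_nonneg _)]
    exact lt_of_le_of_lt h2 ENNReal.ofReal_lt_top
  refine ⟨(memLp_two_iff_integrable_sq hgm).2 h5, ?_⟩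
  rw [integral_eq_lintegral_of_nonneg_ae (Eventually.of_forall fun ω => sq_nonneg _)
    (hgm.pow 2)]
  exact ENNReal.toReal_le_of_le_ofReal hM0 h2

/-- Riemann sums of a continuous function -/
theorem zg_riemann (h : ℝ → ℝ) (hh : Continuous h) (T : ℝ) (hT : 0 < T) :
    Tendsto (fun n : ℕ => ∑ i ∈ Finset.range n, h (gp 0 T n i) * (T / n)) atTop
      (𝓝 (∫ s in (0:ℝ)..T, h s)) := by
  have huc : UniformContinuousOn h (Icc 0 T) :=
    isCompact_Icc.uniformContinuousOn_of_continuous hh.continuousOn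
  rw [Metric.tendsto_atTop]
  intro ε hε
  rw [Metric.uniformContinuousOn_iff] at huc
  obtain ⟨δ, hδ, huc⟩ := huc (ε / (2 * T)) (by positivity)
  obtain ⟨N, hN⟩ := exists_nat_gt (T / δ)
  refine ⟨max N 1, fun n hn => ?_⟩
  have hn1 : 1 ≤ n := le_trans (le_max_right _ _) hn
  have hnN : N ≤ n := le_trans (le_max_left _ _) hn
  have hn0 : (0:ℝ) < n := by exact_mod_cast hn1
  have hnδ : T / n < δ := by
    rw [div_lt_iff₀ hn0]
    rw [div_lt_iff₀ hδ] at hN
    have : (N:ℝ) ≤ n := by exact_mod_cast hnN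
    nlinarith
  obtain ⟨hg0, hgn, hgm, hgd, hga, hgb, hgmono⟩ := gp_facts 0 T hT.le n (by omega)
  have hint : ∀ a b : ℝ, IntervalIntegrable h volume a b := fun a b => hh.intervalIntegrable a b
  have h1 : ∑ i ∈ Finset.range n, ∫ s in (gp 0 T n i)..(gp 0 T n (i + 1)), h s =
      ∫ s in (0:ℝ)..T, h s := by
    rw [intervalIntegral.sum_integral_adjacent_intervals (fun k _ => hint _ _), hg0, hgn]
  rw [Real.dist_eq, ← h1, ← Finset.sum_sub_distrib]
  have h2 : ∀ i ∈ Finset.range n, |h (gp 0 T n i) * (T / n) -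
      ∫ s in (gp 0 T n i)..(gp 0 T n (i + 1)), h s| ≤ ε / (2 * T) * (T / n) := by
    intro i hi
    have hi' : i < n := Finset.mem_range.1 hi
    have h3 : h (gp 0 T n i) * (T / n) = ∫ s in (gp 0 T n i)..(gp 0 T n (i + 1)), h (gp 0 T n i) := by
      rw [intervalIntegral.integral_const, hgd, sub_zero, smul_eq_mul, mul_comm]
    rw [h3, ← intervalIntegral.integral_sub intervalIntegrable_const (hint _ _), ← Real.norm_eq_abs]
    refine (intervalIntegral.norm_integral_le_of_norm_le_const (C := ε / (2 * T)) ?_).trans ?_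
    · intro s hs
      rw [uIoc_of_le (hgm i)] at hs
      have h4 : gp 0 T n (i + 1) ≤ T := hgb (i + 1) (by omega)
      have h5 : gp 0 T n i ∈ Icc 0 T := ⟨hga i, hgb i hi'.le⟩
      have h6 : s ∈ Icc 0 T := ⟨(hga i).trans hs.1.le, hs.2.trans h4⟩
      have h7 := huc _ h5 _ h6 (by
        rw [Real.dist_eq, abs_sub_comm, abs_of_nonneg (by linarith [hs.1])]
        have := hgd i
        rw [sub_zero] at this
        linarith [hs.2])
      rw [Real.dist_eq] at h7
      rw [Real.norm_eq_abs]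
      exact h7.le
    · rw [hgd, sub_zero, abs_of_nonneg (by positivity)]
  calc |∑ i ∈ Finset.range n, (h (gp 0 T n i) * (T / n) -
      ∫ s in (gp 0 T n i)..(gp 0 T n (i + 1)), h s)|
      ≤ ∑ i ∈ Finset.range n, |h (gp 0 T n i) * (T / n) -
      ∫ s in (gp 0 T n i)..(gp 0 T n (i + 1)), h s| := Finset.abs_sum_le_sum_abs _ _
    _ ≤ ∑ i ∈ Finset.range n, ε / (2 * T) * (T / n) := Finset.sum_le_sum h2
    _ = ε / 2 := by
      rw [Finset.sum_const, Finset.card_range, nsmul_eq_mul]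
      field_simp
    _ < ε := by linarith

/-- the conclusion of `zig_proc` -/
structure ZG (F : ℝ → MeasurableSpace Ω) (B : ℝ → Ω → ℝ) (z : ℝ → ℝ) (L H : ℝ → Ω → ℝ) :
    Prop where
  Lad : ∀ t, 0 ≤ t → Measurable[F t] (L t)
  Lc : ∀ ω, Continuous (fun t => L t ω)
  L0 : ∀ ω, L 0 ω = 0
  Lm : ∀ ω s t, 0 ≤ s → s ≤ t → L s ω ≤ L t ω
  Had : ∀ t, 0 ≤ t → Measurable[F t] (H t)
  Hb : ∀ t ω, |H t ω| ≤ 1
  flat : ∀ ω s t, 0 ≤ s → s ≤ t → (∀ r ∈ Icc s t, B r ω + z (L r ω) ≠ 0) → L s ω = L t ω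
  HX : ∀ ω t, 0 ≤ t → H t ω * (B t ω + z (L t ω)) = |B t ω + z (L t ω)|
  lim : ∀ ω t r, 0 < t → 0 ≤ r → r ≤ t → Tendsto (fun n : ℕ => ∑ i ∈ Finset.range n,
        if gp 0 t n i < r then
          H (gp 0 t n i) ω * (B (gp 0 t n (i + 1)) ω - B (gp 0 t n i) ω) else 0) atTop
        (𝓝 (|B r ω + z (L r ω)| - |z 0| - L r ω))

theorem zg_filt (hB : BMF P F B) : IsFilt P F :=
  ⟨fun t _ => hB.le t, fun _ _ _ hst => hB.mono hst, hB.null⟩

theorem ZG.ca {z : ℝ → ℝ} {L H : ℝ → Ω → ℝ} (hG : ZG F B z L H) : IsCA F L :=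
  ⟨hG.Lad, fun ω => (hG.Lc ω).continuousOn⟩

theorem ZG.nn {z : ℝ → ℝ} {L H : ℝ → Ω → ℝ} (hG : ZG F B z L H) (ω : Ω) (t : ℝ) (ht : 0 ≤ t) :
    0 ≤ L t ω := by
  rw [← hG.L0 ω]; exact hG.Lm ω 0 t le_rfl ht

/-- extension of `z` -/
def zx (z : ℝ → ℝ) (l : ℝ) : ℝ := z (max l 0)

theorem zx_cont (z : ℝ → ℝ) (hl : ∀ s t, 0 ≤ s → 0 ≤ t → |z s - z t| ≤ |s - t|) :
    Continuous (zx z) := by
  have : LipschitzWith 1 (zx z) := by
    apply LipschitzWith.of_dist_le_mul
    intro x y
    rw [Real.dist_eq, Real.dist_eq, NNReal.coe_one, one_mul]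
    exact (hl _ _ (le_max_right _ _) (le_max_right _ _)).trans
      (abs_max_sub_max_le_abs x y 0)
  exact this.continuous

theorem zx_eq (z : ℝ → ℝ) {l : ℝ} (hl : 0 ≤ l) : zx z l = z l := by
  unfold zx
  rw [max_eq_left hl]

/-- the stopped process -/
def sL (L : ℝ → Ω → ℝ) (R : Ω → ℝ) (t : ℝ) (ω : Ω) : ℝ := L (min (max t 0) (R ω)) ω

theorem zg_zp {z : ℝ → ℝ} (hl : ∀ s t, 0 ≤ s → 0 ≤ t → |z s - z t| ≤ |s - t|) {L H : ℝ → Ω → ℝ}
    (hB : BMF P F B) (hG : ZG F B z L H) {T : ℝ} (hT : 0 < T) {R : Ω → ℝ} (hR : IsStop F R)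
    (hRT : ∀ ω, R ω ≤ T) (hJ : MemLp (sL L R T) 2 P) :
    ZP P F B (z 0) T (fun t ω => z (sL L R t ω)) (sL L R) R := by
  have hF := zg_filt hB
  have hst := stopped_adp hF L hG.ca R hR
  have hJad : ∀ t, 0 ≤ t → Measurable[F t] (sL L R t) := by
    intro t ht
    have h1 := hst.adap t ht
    have h2 : sL L R t = fun ω => L (min t (R ω)) ω := by
      funext ω
      unfold sL
      rw [max_eq_left ht]
    rw [h2]
    exact h1
  have hJc : ∀ ω, Continuous (fun t => sL L R t ω) := by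
    intro ω
    exact (hG.Lc ω).comp ((continuous_id.max continuous_const).min continuous_const)
  have hnn : ∀ ω t, 0 ≤ sL L R t ω := by
    intro ω t
    exact hG.nn ω _ (le_min (le_max_right _ _) (hR.nonneg ω))
  have hzz : ∀ t ω, z (sL L R t ω) = zx z (sL L R t ω) := fun t ω => (zx_eq z (hnn ω t)).symm
  have hmono : ∀ ω s t, 0 ≤ s → s ≤ t → sL L R s ω ≤ sL L R t ω := by
    intro ω s t hs hst'
    apply hG.Lm
    · exact le_min (le_max_right _ _) (hR.nonneg ω)
    · exact min_le_min_right _ (max_le_max_right _ hst')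
  refine ⟨hB, hT, ?_, ?_, ?_, hJad, hJc, ?_, ?_, hJ, hR.nonneg, hRT, ?_, ?_, ?_⟩
  · intro t ht
    simp only [hzz]
    exact (zx_cont z hl).measurable.comp (hJad t ht)
  · intro ω
    simp only [hzz]
    exact (zx_cont z hl).comp (hJc ω)
  · refine Eventually.of_forall fun ω => ?_
    show z (sL L R 0 ω) = z 0
    unfold sL
    rw [max_self, min_eq_left (hR.nonneg ω), hG.L0]
  · refine Eventually.of_forall fun ω => ?_
    unfold sL
    rw [max_self, min_eq_left (hR.nonneg ω), hG.L0]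
  · refine Eventually.of_forall fun ω s t hs hst' => ?_
    refine (hl _ _ (hnn ω t) (hnn ω s)).trans ?_
    rw [abs_of_nonneg (by linarith [hmono ω s t hs hst'])]
  · exact fun t ht => (stop_lt hF R hR t ht).1
  · refine Eventually.of_forall fun ω t ht => ?_
    show z (sL L R t ω) = z (sL L R (R ω) ω)
    have h1 := hR.nonneg ω
    unfold sL
    rw [max_eq_left (h1.trans ht), max_eq_left h1, min_eq_right ht, min_self]
  · refine Eventually.of_forall fun ω s t hs hst' htR hne => ?_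
    have h1 : ∀ r, 0 ≤ r → r ≤ R ω → sL L R r ω = L r ω := by
      intro r hr hrR
      unfold sL
      rw [max_eq_left hr, min_eq_left hrR]
    show z (sL L R s ω) = z (sL L R t ω)
    rw [h1 s hs (hst'.trans htR), h1 t (hs.trans hst') htR]
    congr 1
    apply hG.flat ω s t hs hst'
    intro r hr
    have h2 := hne r hr
    show B r ω + z (L r ω) ≠ 0
    rw [← h1 r (hs.trans hr.1) (hr.2.trans htR)]
    exact h2

end zigaux

section zigaux2

variable {Ω : Type*} [mΩ : MeasurableSpace Ω] {P : Measure Ω} [IsProbabilityMeasure P]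
  {F : ℝ → MeasurableSpace Ω} {B : ℝ → Ω → ℝ}

theorem gp_lt (T : ℝ) (hT : 0 < T) (n : ℕ) (hn : 0 < n) (i : ℕ) (hi : i < n) :
    gp 0 T n i < T := by
  obtain ⟨hg0, hgn, hgm, hgd, hga, hgb, hgmono⟩ := gp_facts 0 T hT.le n hn
  have h1 := hgb (i + 1) (by omega)
  have h2 := hgd i
  have h3 : 0 < (T - 0) / n := by
    rw [sub_zero]
    have : (0:ℝ) < n := by exact_mod_cast hn
    positivity
  linarith

/-- second moment of the martingale part up to `R` -/
theorem zg_mart {z : ℝ → ℝ} {L H : ℝ → Ω → ℝ}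
    (hB : BMF P F B) (hG : ZG F B z L H) {T : ℝ} (hT : 0 < T) {R : Ω → ℝ} (hR : IsStop F R)
    (hRT : ∀ ω, R ω ≤ T) :
    MemLp (fun ω => |B (R ω) ω + z (L (R ω) ω)| - |z 0| - L (R ω) ω) 2 P ∧
    ∫ ω, (|B (R ω) ω + z (L (R ω) ω)| - |z 0| - L (R ω) ω) ^ 2 ∂P ≤ T := by
  have hF := zg_filt hB
  have hiso : ∀ n : ℕ, MemLp (fun ω => ∑ i ∈ Finset.range (n + 1),
      (if gp 0 T (n + 1) i < R ω then H (gp 0 T (n + 1) i) ω else 0) *
        (B (gp 0 T (n + 1) (i + 1)) ω - B (gp 0 T (n + 1) i) ω)) 2 P ∧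
      ∫ ω, (∑ i ∈ Finset.range (n + 1),
      (if gp 0 T (n + 1) i < R ω then H (gp 0 T (n + 1) i) ω else 0) *
        (B (gp 0 T (n + 1) (i + 1)) ω - B (gp 0 T (n + 1) i) ω)) ^ 2 ∂P ≤ T := by
    intro n
    obtain ⟨hg0, hgn, hgm, hgd, hga, hgb, hgmono⟩ := gp_facts 0 T hT.le (n + 1) (by omega)
    have hb : ∀ i, i < n + 1 → ∀ ω,
        |(if gp 0 T (n + 1) i < R ω then H (gp 0 T (n + 1) i) ω else 0)| ≤ (1 : ℝ) := by
      intro i _ ω
      split_ifs
      · exact hG.Hb _ _
      · simp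
    obtain ⟨h1, h2, -⟩ := iso_sum hB 0 T le_rfl hT.le (n + 1) (by omega)
      (fun i ω => if gp 0 T (n + 1) i < R ω then H (gp 0 T (n + 1) i) ω else 0) 1
      (fun i _ => Measurable.ite (stop_lt hF R hR _ (hga i)).1 (hG.Had _ (hga i))
        measurable_const) hb (n + 1) le_rfl
    refine ⟨h1, ?_⟩
    rw [h2]
    have h3 : ∀ i ∈ Finset.range (n + 1),
        (∫ ω, (if gp 0 T (n + 1) i < R ω then H (gp 0 T (n + 1) i) ω else 0) ^ 2 ∂P) *
          ((T - 0) / ((n + 1 : ℕ) : ℝ)) ≤ 1 * ((T - 0) / ((n + 1 : ℕ) : ℝ)) := by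
      intro i hi
      apply mul_le_mul_of_nonneg_right
      · have h4 : ∫ ω, (if gp 0 T (n + 1) i < R ω then H (gp 0 T (n + 1) i) ω else 0) ^ 2 ∂P ≤
            ∫ _, (1 : ℝ) ∂P := by
          apply integral_mono_of_nonneg (Eventually.of_forall fun ω => sq_nonneg _)
            (integrable_const _)
          refine Eventually.of_forall fun ω => ?_
          have h5 := hb i (Finset.mem_range.1 hi) ω
          exact (sq_le_one_iff_abs_le_one _).2 h5
        simpa using h4
      · rw [sub_zero]; positivity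
    refine (Finset.sum_le_sum h3).trans ?_
    rw [Finset.sum_const, Finset.card_range, nsmul_eq_mul, sub_zero, one_mul]
    apply le_of_eq
    field_simp
  apply zg_fatou (fun n ω => ∑ i ∈ Finset.range (n + 1),
      (if gp 0 T (n + 1) i < R ω then H (gp 0 T (n + 1) i) ω else 0) *
        (B (gp 0 T (n + 1) (i + 1)) ω - B (gp 0 T (n + 1) i) ω)) _ (fun _ => T) T
      (fun n => (hiso n).1) _ (fun n => (hiso n).2) tendsto_const_nhds
  refine Eventually.of_forall fun ω => ?_
  have h1 := (hG.lim ω T (R ω) hT (hR.nonneg ω) (hRT ω)).comp (tendsto_add_atTop_nat 1)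
  refine h1.congr fun n => ?_
  apply Finset.sum_congr rfl
  intro i _
  show (if gp 0 T (n + 1) i < R ω then _ else _) = _
  rw [ite_mul, zero_mul]

theorem zg_L2 {z : ℝ → ℝ} (hl : ∀ s t, 0 ≤ s → 0 ≤ t → |z s - z t| ≤ |s - t|) {L H : ℝ → Ω → ℝ}
    (hB : BMF P F B) (hG : ZG F B z L H) {T : ℝ} (hT : 0 < T) : MemLp (L T) 2 P := by
  have hF := zg_filt hB
  have hex := fun n : ℕ => hit_stop hF L hG.ca (n : ℝ) T hT.le
  choose R hR1 hR2 hR3 hR4 hR5 using hex
  have hbd : ∀ n ω, L (R n ω) ω ≤ n := by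
    intro n ω
    rcases eq_or_lt_of_le ((hR1 n).nonneg ω) with h | h
    · rw [← h, hG.L0]; positivity
    · have h1 : ∀ t ∈ Ioo 0 (R n ω), L t ω ≤ n := fun t ht => (hR3 n ω t ht.1.le ht.2).le
      have h2 : R n ω ∈ closure (Ioo 0 (R n ω)) := by
        rw [closure_Ioo h.ne]
        exact right_mem_Icc.2 h.le
      exact closure_minimal h1 (isClosed_le (hG.Lc ω) continuous_const) h2
  have hnn : ∀ n ω, 0 ≤ L (R n ω) ω := fun n ω => hG.nn ω _ ((hR1 n).nonneg ω)
  have hmeas : ∀ n, Measurable (fun ω => L (R n ω) ω) := by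
    intro n
    have h1 := (stopped_adp hF L hG.ca (R n) (hR1 n)).adap T hT.le
    have h2 := h1.mono (hB.le T) le_rfl
    have h3 : (fun ω => L (min T (R n ω)) ω) = fun ω => L (R n ω) ω := by
      funext ω
      rw [min_eq_right (hR2 n ω)]
    rw [← h3]
    exact h2
  have hmem : ∀ n, MemLp (fun ω => L (R n ω) ω) 2 P := by
    intro n
    apply MemLp.of_bound (hmeas n).aestronglyMeasurable (n : ℝ)
    refine Eventually.of_forall fun ω => ?_
    rw [Real.norm_eq_abs, abs_of_nonneg (hnn n ω)]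
    exact hbd n ω
  set m := 1 + |z 0| + T with hm
  have hbound : ∀ n, ∫ ω, (L (R n ω) ω) ^ 2 ∂P ≤ 3 * (4 * m ^ 2 + (z 0) ^ 2 + T) := by
    intro n
    have hsL : sL L (R n) T = fun ω => L (R n ω) ω := by
      funext ω
      unfold sL
      rw [max_eq_left hT.le, min_eq_right (hR2 n ω)]
    have hZ := zg_zp hl hB hG hT (hR1 n) (hR2 n) (by rw [hsL]; exact hmem n)
    obtain ⟨hx1, hx2, -⟩ := xr_l2 hZ
    have hVR : ∀ ω, z (sL L (R n) (R n ω) ω) = z (L (R n ω) ω) := by
      intro ω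
      unfold sL
      rw [max_eq_left ((hR1 n).nonneg ω), min_self]
    simp only [hVR] at hx1 hx2
    obtain ⟨hd1, hd2⟩ := zg_mart hB hG hT (hR1 n) (hR2 n)
    have hi : Integrable (fun ω => 3 * ((B (R n ω) ω + z (L (R n ω) ω)) ^ 2 + (z 0) ^ 2 +
        (|B (R n ω) ω + z (L (R n ω) ω)| - |z 0| - L (R n ω) ω) ^ 2)) P :=
      ((hx1.integrable_sq.add (integrable_const _)).add hd1.integrable_sq).const_mul 3
    have h1 : ∫ ω, (L (R n ω) ω) ^ 2 ∂P ≤
        ∫ ω, 3 * ((B (R n ω) ω + z (L (R n ω) ω)) ^ 2 + (z 0) ^ 2 +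
        (|B (R n ω) ω + z (L (R n ω) ω)| - |z 0| - L (R n ω) ω) ^ 2) ∂P := by
      apply integral_mono_of_nonneg (Eventually.of_forall fun ω => sq_nonneg _) hi
      refine Eventually.of_forall fun ω => ?_
      show (L (R n ω) ω) ^ 2 ≤ _
      set a := |B (R n ω) ω + z (L (R n ω) ω)| with ha
      have ha2 : a ^ 2 = (B (R n ω) ω + z (L (R n ω) ω)) ^ 2 := sq_abs _
      have hb2 : |z 0| ^ 2 = (z 0) ^ 2 := sq_abs _
      simp only []
      rw [← ha2, ← hb2]
      nlinarith [sq_nonneg (a + |z 0|), sq_nonneg (a - |z 0| - L (R n ω) ω + |z 0| - 0),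
        sq_nonneg (a + (a - |z 0| - L (R n ω) ω)), sq_nonneg (|z 0| - (a - |z 0| - L (R n ω) ω))]
    refine h1.trans ?_
    have hi1 : Integrable (fun ω => (B (R n ω) ω + z (L (R n ω) ω)) ^ 2 + (z 0) ^ 2) P :=
      hx1.integrable_sq.add (integrable_const _)
    rw [integral_const_mul, integral_add hi1 hd1.integrable_sq,
      integral_add hx1.integrable_sq (integrable_const _)]
    simp only [integral_const, probReal_univ, smul_eq_mul, one_mul]
    linarith
  refine (zg_fatou (fun n ω => L (R n ω) ω) (L T) (fun _ => 3 * (4 * m ^ 2 + (z 0) ^ 2 + T))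
    (3 * (4 * m ^ 2 + (z 0) ^ 2 + T)) hmem ?_ hbound tendsto_const_nhds).1
  refine Eventually.of_forall fun ω => ?_
  obtain ⟨N, hN⟩ := exists_nat_gt (L T ω)
  apply tendsto_const_nhds.congr'
  filter_upwards [eventually_ge_atTop N] with n hn
  have h1 : R n ω = T := by
    apply le_antisymm (hR2 n ω)
    apply hR5 n ω T hT.le le_rfl
    intro s hs hsT
    have h2 := hG.Lm ω s T hs hsT
    have h3 : (N : ℝ) ≤ n := by exact_mod_cast hn
    linarith
  rw [h1]

/-- the trapezoidal kernel -/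
noncomputable def kk_sd05 (y : ℝ) : ℝ := max 0 (min 1 (2 - |y|))

theorem kk_cont_sd05 : Continuous kk_sd05 := by
  unfold kk_sd05
  fun_prop

theorem kk_nn (y : ℝ) : 0 ≤ kk_sd05 y := le_max_left _ _

theorem kk_le (y : ℝ) : kk_sd05 y ≤ 1 := max_le (by norm_num) (min_le_left _ _)

theorem kk_ind (e x : ℝ) (he : 0 < e) : kk_sd05 (x / e) ≤ if |x| ≤ 2 * e then 1 else 0 := by
  split_ifs with h
  · exact kk_le _
  · unfold kk_sd05
    apply max_le le_rfl
    refine (min_le_right _ _).trans ?_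
    rw [abs_div, abs_of_pos he]
    have : 2 ≤ |x| / e := by
      rw [le_div_iff₀ he]
      linarith
    linarith

theorem zg_g (e x h : ℝ) (he : 0 < e) (hh : |h| ≤ 1) (hx : h * x = |x|) :
    (I1 (x / e) - I1 (-x / e) - h) ^ 2 ≤ kk_sd05 (x / e) := by
  obtain ⟨-, hI0, hI1, hIn, hIp, -⟩ := I1_facts
  have hh' := abs_le.1 hh
  rcases lt_trichotomy x 0 with h0 | h0 | h0
  · have hh1 : h = -1 := by
      rw [abs_of_neg h0] at hx
      have : (h + 1) * x = 0 := by linarith
      rcases mul_eq_zero.1 this with h2 | h2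
      · linarith
      · exact absurd h2 h0.ne
    have h1 : I1 (x / e) = 0 := hIn _ (div_nonpos_of_nonpos_of_nonneg h0.le he.le)
    rw [h1, hh1]
    rcases le_or_gt e (-x) with h2 | h2
    · have h3 : I1 (-x / e) = 1 := hIp _ ((one_le_div he).2 h2)
      rw [h3]
      have := kk_nn (x / e)
      norm_num
      exact this
    · have h3 : kk_sd05 (x / e) = 1 := by
        unfold kk_sd05
        have h4 : |x / e| ≤ 1 := by
          rw [abs_div, abs_of_pos he, abs_of_neg h0, div_le_one he]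
          exact h2.le
        rw [min_eq_left (by linarith), max_eq_right (by norm_num)]
      rw [h3]
      have h5 := hI0 (-x / e)
      have h6 := hI1 (-x / e)
      nlinarith
  · subst h0
    have h1 : I1 (0 / e) = 0 := hIn _ (by simp)
    have h2 : I1 (-0 / e) = 0 := hIn _ (by simp)
    rw [h1, h2]
    have h3 : kk_sd05 (0 / e) = 1 := by
      unfold kk_sd05
      simp
    rw [h3]
    nlinarith
  · have hh1 : h = 1 := by
      rw [abs_of_pos h0] at hx
      have : (h - 1) * x = 0 := by linarith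
      rcases mul_eq_zero.1 this with h2 | h2
      · linarith
      · exact absurd h2 h0.ne'
    have h1 : I1 (-x / e) = 0 := hIn _ (div_nonpos_of_nonpos_of_nonneg (by linarith) he.le)
    rw [h1, hh1]
    rcases le_or_gt e x with h2 | h2
    · have h3 : I1 (x / e) = 1 := hIp _ ((one_le_div he).2 h2)
      rw [h3]
      have := kk_nn (x / e)
      norm_num
      exact this
    · have h3 : kk_sd05 (x / e) = 1 := by
        unfold kk_sd05
        have h4 : |x / e| ≤ 1 := by
          rw [abs_div, abs_of_pos he, abs_of_pos h0, div_le_one he]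
          exact h2.le
        rw [min_eq_left (by linarith), max_eq_right (by norm_num)]
      rw [h3]
      have h5 := hI0 (x / e)
      have h6 := hI1 (x / e)
      nlinarith

theorem zg_near (e x : ℝ) (he : 0 < e) : abs ((Fp e x + Fp e (-x)) - |x|) ≤ e / 2 := by
  obtain ⟨-, hJn, -, -, -⟩ := J1_facts
  rcases le_total 0 x with h0 | h0
  · have h1 : Fp e (-x) = 0 := by
      unfold Fp
      rw [hJn _ (div_nonpos_of_nonpos_of_nonneg (by linarith) he.le), mul_zero]
    have h2 := Fp_near e x he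
    rw [max_eq_left h0] at h2
    rw [h1, add_zero, abs_of_nonneg h0, abs_sub_comm]
    exact h2
  · have h1 : Fp e x = 0 := by
      unfold Fp
      rw [hJn _ (div_nonpos_of_nonpos_of_nonneg h0 he.le), mul_zero]
    have h2 := Fp_near e (-x) he
    rw [max_eq_left (by linarith)] at h2
    rw [h1, zero_add, abs_of_nonpos h0, abs_sub_comm]
    exact h2

end zigaux2

section zigaux3

variable {Ω : Type*} [mΩ : MeasurableSpace Ω] {P : Measure Ω} [IsProbabilityMeasure P]
  {F : ℝ → MeasurableSpace Ω} {B : ℝ → Ω → ℝ}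

theorem kk_bound_int (X : ℝ → Ω → ℝ) (T : ℝ) (hT : 0 < T) (e : ℝ) (hX : ∀ ω, Continuous (fun s => X s ω)) (ω : Ω) :
    0 ≤ ∫ s in (0:ℝ)..T, kk_sd05 (X s ω / e) ∧ ∫ s in (0:ℝ)..T, kk_sd05 (X s ω / e) ≤ T := by
  have hc : Continuous (fun s => kk_sd05 (X s ω / e)) := kk_cont_sd05.comp ((hX ω).div_const e)
  constructor
  · exact intervalIntegral.integral_nonneg hT.le fun s _ => kk_nn _
  · have h1 : ∫ s in (0:ℝ)..T, kk_sd05 (X s ω / e) ≤ ∫ s in (0:ℝ)..T, (1:ℝ) :=
      intervalIntegral.integral_mono_on hT.le (hc.intervalIntegrable _ _)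
        intervalIntegrable_const (fun s _ => kk_le _)
    simpa using h1

/-- the occupation bound -/
theorem zg_q {c T : ℝ} {V J : ℝ → Ω → ℝ}
    (hZ : ZP P F B c T V J (fun _ => T)) (e : ℝ) (he : 0 < e) :
    ∫ ω, (∫ s in (0:ℝ)..T, kk_sd05 ((B s ω + V s ω) / e)) ∂P ≤ 6 * e * (1 + |c| + T) := by
  have hT := hZ.T0
  have hX : ∀ ω, Continuous (fun s => B s ω + V s ω) := fun ω => (hZ.bm.cont ω).add (hZ.Vc ω)
  have hb := kk_bound_int (fun s ω => B s ω + V s ω) T hT e hX
  have hc0 := abs_nonneg c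
  rcases le_or_gt (2 * e) 1 with h2 | h2
  · have hocc := occ hZ (2 * e) (by positivity) h2
    have hmeas := occ_meas hZ (2 * e)
    have hind : ∀ ω, IntervalIntegrable (fun s => if |B s ω + V s ω| ≤ 2 * e then (1:ℝ) else 0)
        volume 0 T := by
      intro ω
      rw [intervalIntegrable_iff]
      have hm : Measurable (fun s => if |B s ω + V s ω| ≤ 2 * e then (1:ℝ) else 0) := by
        apply Measurable.ite _ measurable_const measurable_const
        exact (isClosed_le (hX ω).abs continuous_const).measurableSet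
      refine (integrableOn_const (C := (1:ℝ)) (by simp)).mono' hm.aestronglyMeasurable ?_
      refine Eventually.of_forall fun s => ?_
      split_ifs <;> simp
    have hoccb : ∀ ω, 0 ≤ (∫ s in (0:ℝ)..T, if |B s ω + V s ω| ≤ 2 * e then (1:ℝ) else 0) ∧
        (∫ s in (0:ℝ)..T, if |B s ω + V s ω| ≤ 2 * e then (1:ℝ) else 0) ≤ T := by
      intro ω
      constructor
      · apply intervalIntegral.integral_nonneg hT.le
        intro s _
        split_ifs <;> norm_num
      · have h1 : (∫ s in (0:ℝ)..T, if |B s ω + V s ω| ≤ 2 * e then (1:ℝ) else 0) ≤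
            ∫ s in (0:ℝ)..T, (1:ℝ) := by
          apply intervalIntegral.integral_mono_on hT.le (hind ω) intervalIntegrable_const
          intro s _
          split_ifs <;> norm_num
        simpa using h1
    have hint : Integrable (fun ω => ∫ s in (0:ℝ)..T,
        if |B s ω + V s ω| ≤ 2 * e then (1:ℝ) else 0) P := by
      refine (integrable_const T).mono' hmeas.aestronglyMeasurable ?_
      refine Eventually.of_forall fun ω => ?_
      rw [Real.norm_eq_abs, abs_of_nonneg (hoccb ω).1]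
      exact (hoccb ω).2
    have h3 : ∫ ω, (∫ s in (0:ℝ)..T, kk_sd05 ((B s ω + V s ω) / e)) ∂P ≤
        ∫ ω, (∫ s in (0:ℝ)..T, if |B s ω + V s ω| ≤ 2 * e then (1:ℝ) else 0) ∂P := by
      apply integral_mono_of_nonneg (Eventually.of_forall fun ω => (hb ω).1) hint
      refine Eventually.of_forall fun ω => ?_
      apply intervalIntegral.integral_mono_on hT.le
        ((kk_cont_sd05.comp ((hX ω).div_const e)).intervalIntegrable _ _) (hind ω)
      intro s _
      exact kk_ind e _ he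
    linarith
  · have h3 : ∫ ω, (∫ s in (0:ℝ)..T, kk_sd05 ((B s ω + V s ω) / e)) ∂P ≤ ∫ _, T ∂P := by
      apply integral_mono_of_nonneg (Eventually.of_forall fun ω => (hb ω).1) (integrable_const _)
      exact Eventually.of_forall fun ω => (hb ω).2
    rw [integral_const, probReal_univ, one_smul] at h3
    have h4 : 1 * T ≤ (6 * e) * (1 + |c| + T) := by
      apply mul_le_mul (by linarith) (by linarith) hT.le (by linarith)
    linarith

theorem zg_key {c T : ℝ} {V J H : ℝ → Ω → ℝ} {D : Ω → ℝ}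
    (hZ : ZP P F B c T V J (fun _ => T)) (hV0 : ∀ ω, V 0 ω = c) (e : ℝ) (he : 0 < e) (he1 : e ≤ 1)
    (hHad : ∀ t, 0 ≤ t → Measurable[F t] (H t)) (hHb : ∀ t ω, |H t ω| ≤ 1)
    (hHX : ∀ ω t, 0 ≤ t → t ≤ T → H t ω * (B t ω + V t ω) = |B t ω + V t ω|)
    (hlim : ∀ ω, Tendsto (fun n : ℕ => ∑ i ∈ Finset.range n,
      H (gp 0 T n i) ω * (B (gp 0 T n (i + 1)) ω - B (gp 0 T n i) ω)) atTop (𝓝 (D ω))) :
    MemLp (fun ω => (Fp e (B T ω + V T ω) + Fp e (-(B T ω + V T ω))) - (Fp e c + Fp e (-c)) -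
      (∫ s in (0:ℝ)..T, kap e (B s ω + V s ω)) - D ω) 2 P ∧
    ∫ ω, ((Fp e (B T ω + V T ω) + Fp e (-(B T ω + V T ω))) - (Fp e c + Fp e (-c)) -
      (∫ s in (0:ℝ)..T, kap e (B s ω + V s ω)) - D ω) ^ 2 ∂P ≤ 9 * e * (1 + |c| + T) := by
  have hB := hZ.bm
  have hT := hZ.T0
  have hX : ∀ ω, Continuous (fun s => B s ω + V s ω) := fun ω => (hZ.bm.cont ω).add (hZ.Vc ω)
  have hf := Fs_tf e he he1
  obtain ⟨err, herr, hrem⟩ := ito2 hZ hf 0 T le_rfl hT.le le_rfl
  have hf1c : Continuous (fun x => I1 (x / e) - I1 (-x / e)) := by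
    rw [continuous_iff_continuousAt]
    exact fun x => (hf.h2 x).continuousAt
  -- the coefficients
  set co : ℕ → ℕ → Ω → ℝ := fun n i ω =>
    (I1 ((B (gp 0 T (n + 1) i) ω + V (gp 0 T (n + 1) i) ω) / e) -
      I1 (-(B (gp 0 T (n + 1) i) ω + V (gp 0 T (n + 1) i) ω) / e)) - H (gp 0 T (n + 1) i) ω
    with hco
  have hkey : ∀ n i, i < n + 1 → ∀ ω, (co n i ω) ^ 2 ≤
      kk_sd05 ((B (gp 0 T (n + 1) i) ω + V (gp 0 T (n + 1) i) ω) / e) := by
    intro n i hi ω
    obtain ⟨hg0, hgn, hgm, hgd, hga, hgb, hgmono⟩ := gp_facts 0 T hT.le (n + 1) (by omega)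
    exact zg_g e _ _ he (hHb _ _) (hHX ω _ (hga i) (hgb i hi.le))
  have hiso : ∀ n : ℕ, MemLp (fun ω => ∑ i ∈ Finset.range (n + 1),
      co n i ω * (B (gp 0 T (n + 1) (i + 1)) ω - B (gp 0 T (n + 1) i) ω)) 2 P ∧
      ∫ ω, (∑ i ∈ Finset.range (n + 1),
      co n i ω * (B (gp 0 T (n + 1) (i + 1)) ω - B (gp 0 T (n + 1) i) ω)) ^ 2 ∂P ≤
      ∫ ω, (∑ i ∈ Finset.range (n + 1),
        kk_sd05 ((B (gp 0 T (n + 1) i) ω + V (gp 0 T (n + 1) i) ω) / e) *
          (T / ((n + 1 : ℕ) : ℝ))) ∂P := by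
    intro n
    obtain ⟨hg0, hgn, hgm, hgd, hga, hgb, hgmono⟩ := gp_facts 0 T hT.le (n + 1) (by omega)
    obtain ⟨h1, h2, -⟩ := iso_sum hB 0 T le_rfl hT.le (n + 1) (by omega) (co n) 1
      (fun i _ => by
        have h3 : Measurable[F (gp 0 T (n + 1) i)] (fun ω =>
            B (gp 0 T (n + 1) i) ω + V (gp 0 T (n + 1) i) ω) :=
          (hB.adap _ (hga i)).add (hZ.Vad _ (hga i))
        exact (hf1c.measurable.comp h3).sub (hHad _ (hga i)))
      (fun i hi ω => by
        have h3 := (hkey n i hi ω).trans (kk_le _)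
        exact (sq_le_one_iff_abs_le_one _).1 h3) (n + 1) le_rfl
    refine ⟨h1, ?_⟩
    have hkint : ∀ i, Integrable (fun ω =>
        kk_sd05 ((B (gp 0 T (n + 1) i) ω + V (gp 0 T (n + 1) i) ω) / e)) P := by
      intro i
      have h3 : Measurable (fun ω =>
            B (gp 0 T (n + 1) i) ω + V (gp 0 T (n + 1) i) ω) :=
        ((hB.adap _ (hga i)).add (hZ.Vad _ (hga i))).mono (hB.le _) le_rfl
      refine (integrable_const (1:ℝ)).mono'
        (kk_cont_sd05.measurable.comp (h3.div_const e)).aestronglyMeasurable ?_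
      refine Eventually.of_forall fun ω => ?_
      rw [Real.norm_eq_abs, abs_of_nonneg (kk_nn _)]
      exact kk_le _
    rw [h2, integral_finset_sum _ (fun i _ => (hkint i).mul_const _)]
    apply Finset.sum_le_sum
    intro i hi
    rw [integral_mul_const, sub_zero]
    apply mul_le_mul_of_nonneg_right _ (by positivity)
    apply integral_mono_of_nonneg (Eventually.of_forall fun ω => sq_nonneg _) (hkint i)
    exact Eventually.of_forall fun ω => hkey n i (Finset.mem_range.1 hi) ω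
  -- the limit of the bounds
  have hqlim : Tendsto (fun n : ℕ => ∫ ω, (∑ i ∈ Finset.range (n + 1),
        kk_sd05 ((B (gp 0 T (n + 1) i) ω + V (gp 0 T (n + 1) i) ω) / e) *
          (T / ((n + 1 : ℕ) : ℝ))) ∂P) atTop
      (𝓝 (∫ ω, (∫ s in (0:ℝ)..T, kk_sd05 ((B s ω + V s ω) / e)) ∂P)) := by
    apply tendsto_integral_of_dominated_convergence (fun _ => T)
    · intro n
      obtain ⟨hg0, hgn, hgm, hgd, hga, hgb, hgmono⟩ := gp_facts 0 T hT.le (n + 1) (by omega)
      apply Measurable.aestronglyMeasurable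
      apply Finset.measurable_sum
      intro i _
      have h3 : Measurable (fun ω =>
            B (gp 0 T (n + 1) i) ω + V (gp 0 T (n + 1) i) ω) :=
        ((hB.adap _ (hga i)).add (hZ.Vad _ (hga i))).mono (hB.le _) le_rfl
      exact (kk_cont_sd05.measurable.comp (h3.div_const e)).mul_const _
    · exact integrable_const _
    · intro n
      refine Eventually.of_forall fun ω => ?_
      rw [Real.norm_eq_abs, abs_of_nonneg (Finset.sum_nonneg fun i _ =>
        mul_nonneg (kk_nn _) (by positivity))]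
      calc _ ≤ ∑ i ∈ Finset.range (n + 1), 1 * (T / ((n + 1 : ℕ) : ℝ)) := by
            apply Finset.sum_le_sum
            intro i _
            exact mul_le_mul_of_nonneg_right (kk_le _) (by positivity)
        _ = T := by
            rw [Finset.sum_const, Finset.card_range, nsmul_eq_mul, one_mul]
            field_simp
        _ ≤ T := le_rfl
    · refine Eventually.of_forall fun ω => ?_
      have h1 := zg_riemann (fun s => kk_sd05 ((B s ω + V s ω) / e))
        (kk_cont_sd05.comp ((hX ω).div_const e)) T hT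
      exact h1.comp (tendsto_add_atTop_nat 1)
  have hq := zg_q hZ e he
  -- identification of the remainder
  have hRem : ∀ n ω, Rem B V (fun _ => T) (fun x => Fp e x + Fp e (-x))
      (fun x => I1 (x / e) - I1 (-x / e)) (fun x => 2 * kap e x) 0 T (n + 1) (n + 1) ω =
      (Fp e (B T ω + V T ω) + Fp e (-(B T ω + V T ω))) - (Fp e c + Fp e (-c)) -
      (∫ s in (0:ℝ)..T, kap e (B s ω + V s ω)) -
      ∑ i ∈ Finset.range (n + 1),
        (I1 ((B (gp 0 T (n + 1) i) ω + V (gp 0 T (n + 1) i) ω) / e) -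
          I1 (-(B (gp 0 T (n + 1) i) ω + V (gp 0 T (n + 1) i) ω) / e)) *
        (B (gp 0 T (n + 1) (i + 1)) ω - B (gp 0 T (n + 1) i) ω) := by
    intro n ω
    obtain ⟨hg0, hgn, hgm, hgd, hga, hgb, hgmono⟩ := gp_facts 0 T hT.le (n + 1) (by omega)
    unfold Rem
    have h1 : min (gp 0 T (n + 1) (n + 1)) T = T := by rw [hgn, min_self]
    have h2 : min 0 T = (0:ℝ) := min_eq_left hT.le
    simp only [h1, h2]
    rw [hB.zero ω, hV0 ω, zero_add, intervalIntegral.integral_const_mul]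
    congr 1
    · congr 1
      ring
    · apply Finset.sum_congr rfl
      intro i hi
      rw [if_pos (gp_lt T hT (n + 1) (by omega) i (Finset.mem_range.1 hi))]
  have hsum : ∀ n ω, Rem B V (fun _ => T) (fun x => Fp e x + Fp e (-x))
      (fun x => I1 (x / e) - I1 (-x / e)) (fun x => 2 * kap e x) 0 T (n + 1) (n + 1) ω +
      (∑ i ∈ Finset.range (n + 1),
      co n i ω * (B (gp 0 T (n + 1) (i + 1)) ω - B (gp 0 T (n + 1) i) ω)) =
      (Fp e (B T ω + V T ω) + Fp e (-(B T ω + V T ω))) - (Fp e c + Fp e (-c)) -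
      (∫ s in (0:ℝ)..T, kap e (B s ω + V s ω)) -
      ∑ i ∈ Finset.range (n + 1),
        H (gp 0 T (n + 1) i) ω * (B (gp 0 T (n + 1) (i + 1)) ω - B (gp 0 T (n + 1) i) ω) := by
    intro n ω
    rw [hRem]
    have h1 : ∑ i ∈ Finset.range (n + 1),
      co n i ω * (B (gp 0 T (n + 1) (i + 1)) ω - B (gp 0 T (n + 1) i) ω) =
      ∑ i ∈ Finset.range (n + 1),
        (I1 ((B (gp 0 T (n + 1) i) ω + V (gp 0 T (n + 1) i) ω) / e) -
          I1 (-(B (gp 0 T (n + 1) i) ω + V (gp 0 T (n + 1) i) ω) / e)) *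
        (B (gp 0 T (n + 1) (i + 1)) ω - B (gp 0 T (n + 1) i) ω) -
      ∑ i ∈ Finset.range (n + 1),
        H (gp 0 T (n + 1) i) ω * (B (gp 0 T (n + 1) (i + 1)) ω - B (gp 0 T (n + 1) i) ω) := by
      rw [← Finset.sum_sub_distrib]
      apply Finset.sum_congr rfl
      intro i _
      rw [hco]
      ring
    rw [h1]
    ring
  refine zg_fatou (fun n ω => Rem B V (fun _ => T) (fun x => Fp e x + Fp e (-x))
      (fun x => I1 (x / e) - I1 (-x / e)) (fun x => 2 * kap e x) 0 T (n + 1) (n + 1) ω +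
      (∑ i ∈ Finset.range (n + 1),
      co n i ω * (B (gp 0 T (n + 1) (i + 1)) ω - B (gp 0 T (n + 1) i) ω))) _
    (fun n => 3 * err (n + 1) + 3 / 2 * (6 * e * (1 + |c| + T) +
      ((∫ ω, (∑ i ∈ Finset.range (n + 1),
        kk_sd05 ((B (gp 0 T (n + 1) i) ω + V (gp 0 T (n + 1) i) ω) / e) *
          (T / ((n + 1 : ℕ) : ℝ))) ∂P) -
        (∫ ω, (∫ s in (0:ℝ)..T, kk_sd05 ((B s ω + V s ω) / e)) ∂P)))) _ ?_ ?_ ?_ ?_
  · intro n
    exact (hrem (n + 1) (by omega) (n + 1) le_rfl).1.add (hiso n).1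
  · refine Eventually.of_forall fun ω => ?_
    simp only [hsum]
    have h1 := (hlim ω).comp (tendsto_add_atTop_nat 1)
    exact tendsto_const_nhds.sub h1
  · intro n
    obtain ⟨hr1, hr2⟩ := hrem (n + 1) (by omega) (n + 1) le_rfl
    obtain ⟨hs1, hs2⟩ := hiso n
    have hi := (hr1.integrable_sq.const_mul 3).add (hs1.integrable_sq.const_mul (3 / 2))
    have h1 := integral_mono_of_nonneg (μ := P) (f := fun ω =>
      (Rem B V (fun _ => T) (fun x => Fp e x + Fp e (-x))
      (fun x => I1 (x / e) - I1 (-x / e)) (fun x => 2 * kap e x) 0 T (n + 1) (n + 1) ω +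
      (∑ i ∈ Finset.range (n + 1),
      co n i ω * (B (gp 0 T (n + 1) (i + 1)) ω - B (gp 0 T (n + 1) i) ω))) ^ 2)
      (Eventually.of_forall fun ω => sq_nonneg _) hi (by
        refine Eventually.of_forall fun ω => ?_
        simp only [Pi.add_apply]
        set a := Rem B V (fun _ => T) (fun x => Fp e x + Fp e (-x))
          (fun x => I1 (x / e) - I1 (-x / e)) (fun x => 2 * kap e x) 0 T (n + 1) (n + 1) ω
        set b := ∑ i ∈ Finset.range (n + 1),
          co n i ω * (B (gp 0 T (n + 1) (i + 1)) ω - B (gp 0 T (n + 1) i) ω)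
        nlinarith [sq_nonneg (2 * a - b)])
    refine h1.trans ?_
    have h2 := integral_add (hr1.integrable_sq.const_mul 3) (hs1.integrable_sq.const_mul (3 / 2))
    simp only [Pi.add_apply]
    rw [h2, integral_const_mul, integral_const_mul]
    linarith
  · have h1 : Tendsto (fun n : ℕ => err (n + 1)) atTop (𝓝 0) := herr.comp (tendsto_add_atTop_nat 1)
    have h2 := (h1.const_mul 3).add (((hqlim.sub_const
      (∫ ω, (∫ s in (0:ℝ)..T, kk_sd05 ((B s ω + V s ω) / e)) ∂P)).const_add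
      (6 * e * (1 + |c| + T))).const_mul (3 / 2))
    have h3 : 3 * 0 + 3 / 2 * (6 * e * (1 + |c| + T) +
        ((∫ ω, (∫ s in (0:ℝ)..T, kk_sd05 ((B s ω + V s ω) / e)) ∂P) -
        (∫ ω, (∫ s in (0:ℝ)..T, kk_sd05 ((B s ω + V s ω) / e)) ∂P))) = 9 * e * (1 + |c| + T) := by
      ring
    rw [h3] at h2
    exact h2

end zigaux3

/-! ## TARGETS: prove these (statements must not be changed; helper lemmas are welcome) -/

section exist

variable {Ω : Type*} [mΩ : MeasurableSpace Ω] {P : Measure Ω} [IsProbabilityMeasure P]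
  {F : ℝ → MeasurableSpace Ω} {B : ℝ → Ω → ℝ} {c : ℝ} {φ : ℝ → ℝ} {X L : ℝ → Ω → ℝ}

theorem zig_solc (hB : BMF P F B) (δ : ℝ) (hδ : 0 < δ) (sg : ℕ → ℝ)
    (hsg : ∀ k, sg k = 1 ∨ sg k = -1) (z : ℝ → ℝ)
    (hl : ∀ s t, 0 ≤ s → 0 ≤ t → |z s - z t| ≤ |s - t|)
    (hz : ∀ (k : ℕ) (l : ℝ), k * δ ≤ l → l ≤ (k + 1) * δ → z l = z (k * δ) + sg k * (l - k * δ)) :
    ∃ X L : ℝ → Ω → ℝ, SolC P F B (z 0) z X L := by
  obtain ⟨L, H, hLad, hLc, hL0, hLm, hHad, hHb, hflat, hHX, hlim⟩ :=
    zig_proc hB.mono hB.adap hB.cont hB.zero δ hδ sg hsg z hz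
  have hG : ZG F B z L H := ⟨hLad, hLc, hL0, hLm, hHad, hHb, hflat, hHX, hlim⟩
  have hF := zg_filt hB
  have hL2 : ∀ t, 0 ≤ t → MemLp (L t) 2 P := by
    intro t ht
    rcases eq_or_lt_of_le ht with h | h
    · rw [← h]
      have : L 0 = fun _ => (0:ℝ) := funext hL0
      rw [this]
      exact memLp_const 0
    · exact zg_L2 hl hB hG h
  have hzX : ∀ t ω, z (L (max t 0) ω) = zx z (L (max t 0) ω) :=
    fun t ω => (zx_eq z (hG.nn ω _ (le_max_right _ _))).symm
  refine ⟨fun t ω => B t ω + z (L (max t 0) ω), L, hB, hl, rfl, ?_, ?_, hLad, hLc, hL0, hLm, ?_,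
    hL2, ?_, ?_⟩
  · intro t ht
    simp only [hzX]
    rw [max_eq_left ht]
    exact (hB.adap t ht).add ((zx_cont z hl).measurable.comp (hLad t ht))
  · intro ω
    simp only [hzX]
    exact (hB.cont ω).add ((zx_cont z hl).comp
      ((hLc ω).comp (continuous_id.max continuous_const)))
  · refine Eventually.of_forall fun ω t ht => ?_
    show B t ω + z (L (max t 0) ω) = _
    rw [max_eq_left ht]
  · refine Eventually.of_forall fun ω s t hs hst hne => ?_
    apply hflat ω s t hs hst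
    intro r hr
    have h1 : B r ω + z (L (max r 0) ω) ≠ 0 := hne r hr
    rwa [max_eq_left (hs.trans hr.1)] at h1
  · intro T e hT he he1
    rcases eq_or_lt_of_le hT with h0 | hT'
    · subst h0
      have h1 : ∀ ω, ((∫ s in (0:ℝ)..0, kap e (B s ω + z (L (max s 0) ω))) - L 0 ω) ^ 2 = 0 := by
        intro ω
        rw [intervalIntegral.integral_same, hL0]
        norm_num
      simp only [h1]
      rw [integral_zero]
      have := abs_nonneg (z 0)
      positivity
    · have hRs : IsStop F (fun _ : Ω => T) := ⟨fun _ => hT, fun t _ => MeasurableSet.const _⟩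
      have hsLT : sL L (fun _ => T) T = L T := by
        funext ω
        unfold sL
        rw [max_eq_left hT, min_self]
      have hZ := zg_zp hl hB hG hT' hRs (fun _ => le_rfl) (by rw [hsLT]; exact hL2 T hT)
      have hV : ∀ t ω, 0 ≤ t → t ≤ T → sL L (fun _ => T) t ω = L t ω := by
        intro t ω h1 h2
        unfold sL
        rw [max_eq_left h1, min_eq_left h2]
      obtain ⟨hk1, hk2⟩ := zg_key (H := H)
        (D := fun ω => |B T ω + z (L T ω)| - |z 0| - L T ω) hZ
        (fun ω => by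
          show z (sL L (fun _ => T) 0 ω) = z 0
          rw [hV 0 ω le_rfl hT, hL0]) e he he1 hHad hHb
        (fun ω t h1 h2 => by
          show H t ω * (B t ω + z (sL L (fun _ => T) t ω)) = |B t ω + z (sL L (fun _ => T) t ω)|
          rw [hV t ω h1 h2]
          exact hHX ω t h1)
        (fun ω => by
          refine (hlim ω T T hT' hT le_rfl).congr' ?_
          filter_upwards [eventually_gt_atTop 0] with n hn
          apply Finset.sum_congr rfl
          intro i hi
          rw [if_pos (gp_lt T hT' n hn i (Finset.mem_range.1 hi))])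
      have hVT : ∀ ω, z (sL L (fun _ => T) T ω) = z (L T ω) := fun ω => by rw [hV T ω hT le_rfl]
      have hVs : ∀ ω, ∫ s in (0:ℝ)..T, kap e (B s ω + z (sL L (fun _ => T) s ω)) =
          ∫ s in (0:ℝ)..T, kap e (B s ω + z (L (max s 0) ω)) := by
        intro ω
        apply intervalIntegral.integral_congr
        intro s hs
        rw [uIcc_of_le hT] at hs
        show kap e (B s ω + z (sL L (fun _ => T) s ω)) = kap e (B s ω + z (L (max s 0) ω))
        rw [hV s ω hs.1 hs.2, max_eq_left hs.1]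
      simp only [hVT, hVs] at hk1 hk2
      have hi : Integrable (fun ω => 2 * e ^ 2 + 2 * ((Fp e (B T ω + z (L T ω)) +
          Fp e (-(B T ω + z (L T ω)))) - (Fp e (z 0) + Fp e (-(z 0))) -
          (∫ s in (0:ℝ)..T, kap e (B s ω + z (L (max s 0) ω))) -
          (|B T ω + z (L T ω)| - |z 0| - L T ω)) ^ 2) P :=
        (integrable_const _).add (hk1.integrable_sq.const_mul 2)
      have h1 : ∫ ω, ((∫ s in (0:ℝ)..T, kap e (B s ω + z (L (max s 0) ω))) - L T ω) ^ 2 ∂P ≤
          ∫ ω, (2 * e ^ 2 + 2 * ((Fp e (B T ω + z (L T ω)) +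
          Fp e (-(B T ω + z (L T ω)))) - (Fp e (z 0) + Fp e (-(z 0))) -
          (∫ s in (0:ℝ)..T, kap e (B s ω + z (L (max s 0) ω))) -
          (|B T ω + z (L T ω)| - |z 0| - L T ω)) ^ 2) ∂P := by
        apply integral_mono_of_nonneg (Eventually.of_forall fun ω => sq_nonneg _) hi
        refine Eventually.of_forall fun ω => ?_
        have h2 := abs_le.1 (zg_near e (B T ω + z (L T ω)) he)
        have h3 := abs_le.1 (zg_near e (z 0) he)
        simp only []
        set a := (Fp e (B T ω + z (L T ω)) + Fp e (-(B T ω + z (L T ω)))) -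
          |B T ω + z (L T ω)| with ha
        set b := (Fp e (z 0) + Fp e (-(z 0))) - |z 0| with hb
        set I := ∫ s in (0:ℝ)..T, kap e (B s ω + z (L (max s 0) ω)) with hI
        have h4 : (Fp e (B T ω + z (L T ω)) +
          Fp e (-(B T ω + z (L T ω)))) - (Fp e (z 0) + Fp e (-(z 0))) - I -
          (|B T ω + z (L T ω)| - |z 0| - L T ω) = (a - b) - (I - L T ω) := by
          rw [ha, hb]; ring
        rw [h4]
        have h5 : (a - b) ^ 2 ≤ e ^ 2 := by
          apply sq_le_sq'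
          · linarith [h2.1, h2.2, h3.1, h3.2]
          · linarith [h2.1, h2.2, h3.1, h3.2]
        nlinarith [sq_nonneg ((a - b) + ((a - b) - (I - L T ω)))]
      refine h1.trans ?_
      rw [integral_add (integrable_const _) (hk1.integrable_sq.const_mul 2), integral_const,
        probReal_univ, one_smul, integral_const_mul]
      have hc0 := abs_nonneg (z 0)
      have h6 : e ^ 2 ≤ e * (1 + |z 0| + T) := by
        rw [sq]
        apply mul_le_mul_of_nonneg_left _ he.le
        linarith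
      have h8 := add_le_add (mul_le_mul_of_nonneg_left h6 (by norm_num : (0:ℝ) ≤ 2))
        (mul_le_mul_of_nonneg_left hk2 (by norm_num : (0:ℝ) ≤ 2))
      have h9 : 2 * (e * (1 + |z 0| + T)) + 2 * (9 * e * (1 + |z 0| + T)) =
          20 * (1 + |z 0| + T) * e := by ring
      rw [h9] at h8
      exact h8

end exist

end Pool.Agent.Helper41.SK
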