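import Pool.Agent.Helper41.SK.Defs
import Pool.Agent.Helper41.SK.MainDefs
import Pool.Agent.Helper41.SK.SC04
import Pool.Agent.Helper41.SK.SC14
import Pool.Agent.Helper41.SK.SD01
import Pool.Agent.Helper41.SK.SD05

set_option autoImplicit false

open scoped ENNReal NNReal Topology
open MeasureTheory ProbabilityTheory Set Filter

namespace Pool.Agent.Helper41.SK

/-! Processes are indexed by t. -/


/-! ## TARGETS: prove these (statements must not be changed; helper lemmas are welcome) -/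

section exist

variable {Ω : Type*} [mΩ : MeasurableSpace Ω] {P : Measure Ω} [IsProbabilityMeasure P]
  {F : ℝ → MeasurableSpace Ω} {B : ℝ → Ω → ℝ} {c : ℝ} {φ : ℝ → ℝ} {X L : ℝ → Ω → ℝ}

theorem cauchy_seq (hB : BMF P F B) (hφ : ∀ s t, 0 ≤ s → 0 ≤ t → |φ s - φ t| ≤ |s - t|) :
    ∃ (zk : ℕ → ℝ → ℝ) (Xk Lk : ℕ → ℝ → Ω → ℝ) (η : ℕ → ℝ),
      (∀ k, SolC P F B (φ 0) (zk k) (Xk k) (Lk k)) ∧ Tendsto η atTop (𝓝 0) ∧
      (∀ k l, 0 ≤ l → |zk k l - φ l| ≤ η k) ∧
      ∀ᵐ ω ∂P, ∀ T ε : ℝ, 0 < ε → ∃ k0 : ℕ, ∀ k k', k0 ≤ k → k0 ≤ k' →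
        ∀ t, 0 ≤ t → t ≤ T → |Lk k t ω - Lk k' t ω| ≤ ε := by
  -- thresholds
  have hr0ex : ∀ k : ℕ, ∃ r0 : ℝ, 0 < r0 ∧ ∀ r, 0 < r → r ≤ r0 →
      2000 * (1 + |φ 0| + ((k:ℝ) + 1)) * 2 ^ k ≤ hr r ((1/2:ℝ) ^ k) := by
    intro k
    exact hr_large ((1/2:ℝ) ^ k) _ (by positivity)
  choose r0 hr0pos hr0 using hr0ex
  -- the sequence δ
  let δ : ℕ → ℝ := fun k => Nat.rec (min (r0 0) 1 / 32)
    (fun k d => min d (min (r0 (k+1)) ((1/2:ℝ) ^ (k+1)) / 32)) k
  have hδ0 : δ 0 = min (r0 0) 1 / 32 := rfl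
  have hδs : ∀ k, δ (k+1) = min (δ k) (min (r0 (k+1)) ((1/2:ℝ) ^ (k+1)) / 32) := fun k => rfl
  have hδpos : ∀ k, 0 < δ k := by
    intro k
    induction k with
    | zero =>
      rw [hδ0]
      have := hr0pos 0
      positivity
    | succ k ih =>
      rw [hδs]
      have := hr0pos (k+1)
      refine lt_min ih ?_
      positivity
  have hδanti : ∀ k, δ (k+1) ≤ δ k := by
    intro k
    rw [hδs]
    exact min_le_left _ _
  have hδr : ∀ k, 32 * δ k ≤ r0 k := by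
    intro k
    cases k with
    | zero =>
      rw [hδ0]
      have := min_le_left (r0 0) 1
      linarith
    | succ k =>
      rw [hδs]
      have h1 := min_le_right (δ k) (min (r0 (k+1)) ((1/2:ℝ) ^ (k+1)) / 32)
      have h2 := min_le_left (r0 (k+1)) ((1/2:ℝ) ^ (k+1))
      linarith
  have hδp : ∀ k, 32 * δ k ≤ (1/2:ℝ) ^ k := by
    intro k
    cases k with
    | zero =>
      rw [hδ0]
      have := min_le_right (r0 0) 1
      simp only [pow_zero]
      linarith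
    | succ k =>
      rw [hδs]
      have h1 := min_le_right (δ k) (min (r0 (k+1)) ((1/2:ℝ) ^ (k+1)) / 32)
      have h2 := min_le_right (r0 (k+1)) ((1/2:ℝ) ^ (k+1))
      linarith
  have hpow1 : ∀ k : ℕ, ((1/2:ℝ)) ^ k ≤ 1 := fun k => pow_le_one₀ (by norm_num) (by norm_num)
  -- zigzags
  have hzex : ∀ k : ℕ, ∃ (sg : ℕ → ℝ) (z : ℝ → ℝ), (∀ k, sg k = 1 ∨ sg k = -1) ∧ z 0 = φ 0 ∧
      (∀ s t, 0 ≤ s → 0 ≤ t → |z s - z t| ≤ |s - t|) ∧ (∀ l, 0 ≤ l → |z l - φ l| ≤ 4 * δ k) ∧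
      (∀ (i : ℕ) (l : ℝ), i * δ k ≤ l → l ≤ (i + 1) * δ k →
        z l = z (i * δ k) + sg i * (l - i * δ k)) :=
    fun k => zig_exists φ hφ (δ k) (hδpos k)
  choose sg z hsg hz0 hzl hzc hzs using hzex
  have hsol : ∀ k : ℕ, ∃ X L : ℝ → Ω → ℝ, SolC P F B (φ 0) (z k) X L := by
    intro k
    have := zig_solc (P := P) (F := F) (B := B) hB (δ k) (hδpos k) (sg k) (hsg k) (z k) (hzl k) (hzs k)
    rw [hz0 k] at this
    exact this
  choose Xk Lk hSol using hsol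
  refine ⟨z, Xk, Lk, fun k => 4 * δ k, hSol, ?_, fun k l hl => hzc k l hl, ?_⟩
  · -- η → 0
    have h1 : Tendsto (fun k : ℕ => ((1/2:ℝ)) ^ k) atTop (𝓝 0) :=
      tendsto_pow_atTop_nhds_zero_of_lt_one (by norm_num) (by norm_num)
    refine squeeze_zero (fun k => ?_) (fun k => ?_) h1
    · have := hδpos k
      positivity
    · have := hδp k
      have := hδpos k
      linarith
  · -- Borel–Cantelli
    have hprob : ∀ k : ℕ, P {ω | ∃ t, 0 ≤ t ∧ t ≤ ((k:ℝ) + 1) ∧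
        2 * ((1/2:ℝ)) ^ k < |Lk k t ω - Lk (k+1) t ω|} ≤ ENNReal.ofReal (((1/2:ℝ)) ^ k) := by
      intro k
      have hd := hδpos k
      have hst := stab (P := P) (hSol k) (hSol (k+1)) (8 * δ k) (16 * δ k) ((k:ℝ)+1) (((1/2:ℝ)) ^ k)
        (by
          intro s hs
          have h1 := hzc k s hs
          have h2 := hzc (k+1) s hs
          have h3 := hδanti k
          have e : z k s - z (k+1) s = (z k s - φ s) - (z (k+1) s - φ s) := by ring
          rw [e]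
          have h4 := abs_sub (z k s - φ s) (z (k+1) s - φ s)
          linarith)
        (by linarith) (by linarith)
        (by
          have := hδp k
          have := hpow1 k
          linarith)
        (by positivity) (by positivity)
      refine hst.trans (ENNReal.ofReal_le_ofReal ?_)
      have h5 := hr0 k (2 * (16 * δ k)) (by linarith) (by have := hδr k; linarith)
      have hA : 0 < 2000 * (1 + |φ 0| + ((k:ℝ) + 1)) := by positivity
      have hApos : 0 < 2000 * (1 + |φ 0| + ((k:ℝ) + 1)) * 2 ^ k := by positivity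
      have hhr : 0 < hr (2 * (16 * δ k)) ((1/2:ℝ) ^ k) := lt_of_lt_of_le hApos h5
      rw [div_le_iff₀ hhr]
      have h6 : (1/2:ℝ) ^ k * (2000 * (1 + |φ 0| + ((k:ℝ) + 1)) * 2 ^ k) ≤
          (1/2:ℝ) ^ k * hr (2 * (16 * δ k)) ((1/2:ℝ) ^ k) :=
        mul_le_mul_of_nonneg_left h5 (by positivity)
      have h7 : (1/2:ℝ) ^ k * (2000 * (1 + |φ 0| + ((k:ℝ) + 1)) * 2 ^ k) =
          2000 * (1 + |φ 0| + ((k:ℝ) + 1)) := by
        have : (1/2:ℝ) ^ k * 2 ^ k = 1 := by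
          rw [← mul_pow]; norm_num
        calc (1/2:ℝ) ^ k * (2000 * (1 + |φ 0| + ((k:ℝ) + 1)) * 2 ^ k)
            = 2000 * (1 + |φ 0| + ((k:ℝ) + 1)) * ((1/2:ℝ) ^ k * 2 ^ k) := by ring
          _ = _ := by rw [this, mul_one]
      linarith
    have hsum : ∑' k : ℕ, P {ω | ∃ t, 0 ≤ t ∧ t ≤ ((k:ℝ) + 1) ∧
        2 * ((1/2:ℝ)) ^ k < |Lk k t ω - Lk (k+1) t ω|} ≠ ∞ := by
      have hs : Summable (fun k : ℕ => ((1/2:ℝ)) ^ k) :=
        summable_geometric_of_lt_one (by norm_num) (by norm_num)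
      have h8 : ∑' k : ℕ, ENNReal.ofReal (((1/2:ℝ)) ^ k) ≠ ∞ := by
        rw [← ENNReal.ofReal_tsum_of_nonneg (fun n => by positivity) hs]
        exact ENNReal.ofReal_ne_top
      exact ne_top_of_le_ne_top h8 (ENNReal.tsum_le_tsum hprob)
    filter_upwards [ae_eventually_notMem hsum] with ω hω
    obtain ⟨N, hN⟩ := eventually_atTop.1 hω
    have hN' : ∀ n : ℕ, N ≤ n → ∀ t, 0 ≤ t → t ≤ ((n:ℝ) + 1) →
        |Lk n t ω - Lk (n+1) t ω| ≤ 2 * ((1/2:ℝ)) ^ n := by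
      intro n hn t ht0 ht1
      by_contra hcon
      exact hN n hn ⟨t, ht0, ht1, not_le.1 hcon⟩
    intro T ε hε
    obtain ⟨n1, hn1⟩ := exists_nat_ge T
    obtain ⟨n2, hn2⟩ := exists_pow_lt_of_lt_one (show (0:ℝ) < ε / 8 by positivity)
      (show (1/2:ℝ) < 1 by norm_num)
    refine ⟨max N (max n1 n2), ?_⟩
    set K := max N (max n1 n2) with hK
    have hKN : N ≤ K := le_max_left _ _
    have hKn1 : n1 ≤ K := (le_max_left _ _).trans (le_max_right _ _)
    have hKn2 : n2 ≤ K := (le_max_right _ _).trans (le_max_right _ _)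
    have hpK : (1/2:ℝ) ^ K ≤ ε / 8 := by
      have : (1/2:ℝ) ^ K ≤ (1/2:ℝ) ^ n2 := pow_le_pow_of_le_one (by norm_num) (by norm_num) hKn2
      linarith
    have key : ∀ m : ℕ, ∀ t, 0 ≤ t → t ≤ T →
        |Lk K t ω - Lk (K + m) t ω| ≤ 4 * (1/2:ℝ) ^ K - 4 * (1/2:ℝ) ^ (K + m) := by
      intro m t ht0 htT
      induction m with
      | zero => simp
      | succ m ih =>
        have hTk : t ≤ ((K + m : ℕ) : ℝ) + 1 := by
          have h9 : (n1:ℝ) ≤ ((K + m : ℕ) : ℝ) := by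
            exact_mod_cast hKn1.trans (Nat.le_add_right _ _)
          linarith
        have h10 := hN' (K + m) (hKN.trans (Nat.le_add_right _ _)) t ht0 hTk
        have h11 : |Lk K t ω - Lk (K + (m+1)) t ω| ≤ |Lk K t ω - Lk (K + m) t ω| +
            |Lk (K + m) t ω - Lk (K + m + 1) t ω| := by
          have e : Lk K t ω - Lk (K + (m+1)) t ω = (Lk K t ω - Lk (K + m) t ω) +
            (Lk (K + m) t ω - Lk (K + m + 1) t ω) := by
            rw [← add_assoc]; ring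
          rw [e]
          exact abs_add_le _ _
        have h12 : (1/2:ℝ) ^ (K + (m+1)) = (1/2:ℝ) ^ (K + m) * (1/2) := by
          rw [← add_assoc, pow_succ]
        rw [h12]
        linarith
    intro k k' hk hk' t ht0 htT
    obtain ⟨m, rfl⟩ := Nat.exists_eq_add_of_le hk
    obtain ⟨m', rfl⟩ := Nat.exists_eq_add_of_le hk'
    have e1 := key m t ht0 htT
    have e2 := key m' t ht0 htT
    have p1 : 0 ≤ (1/2:ℝ) ^ (K + m) := by positivity
    have p2 : 0 ≤ (1/2:ℝ) ^ (K + m') := by positivity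
    have e3 : Lk (K + m) t ω - Lk (K + m') t ω =
      (Lk K t ω - Lk (K + m') t ω) - (Lk K t ω - Lk (K + m) t ω) := by ring
    rw [e3]
    have e4 := abs_sub (Lk K t ω - Lk (K + m') t ω) (Lk K t ω - Lk (K + m) t ω)
    linarith

end exist

end Pool.Agent.Helper41.SK
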