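import Pool.Agent.Helper41.SK.Defs
import Pool.Agent.Helper41.SK.MainDefs
import Pool.Agent.Helper41.SK.SD06
import Pool.Agent.Helper41.SK.SD07

set_option autoImplicit false

open scoped ENNReal NNReal Topology
open MeasureTheory ProbabilityTheory Set Filter

namespace Pool.Agent.Helper41.SK

/-! Processes are indexed by t. -/


/-! ## TARGETS: prove these (statements must not be changed; helper lemmas are welcome) -/

section exist

variable {Ω : Type*} [mΩ : MeasurableSpace Ω] {P : Measure Ω} [IsProbabilityMeasure P]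
  {F : ℝ → MeasurableSpace Ω} {B : ℝ → Ω → ℝ} {c : ℝ} {φ : ℝ → ℝ} {X L : ℝ → Ω → ℝ}

theorem solc_exists (hB : BMF P F B) (hφ : ∀ s t, 0 ≤ s → 0 ≤ t → |φ s - φ t| ≤ |s - t|) :
    ∃ X L : ℝ → Ω → ℝ, SolC P F B (φ 0) φ X L := by
  have hψ : Continuous (fun x : ℝ => φ (max x 0)) := by
    refine (LipschitzWith.of_dist_le_mul (K := 1) fun x y => ?_).continuous
    rw [NNReal.coe_one, one_mul, Real.dist_eq, Real.dist_eq]
    exact (hφ _ _ (le_max_right _ _) (le_max_right _ _)).trans (abs_max_sub_max_le_abs x y 0)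
  obtain ⟨zk, Xk, Lk, η, hk, hη0, hη, hc⟩ := cauchy_seq hB hφ
  obtain ⟨L, Lad, Lc, L0, Lmono, hconv⟩ := lim_exists hB Lk (fun k => (hk k).Lad)
    (fun k => (hk k).Lc) (fun k => (hk k).L0) (fun k => (hk k).Lmono) hc
  refine ⟨fun t ω => B t ω + φ (max (L t ω) 0), L,
    solc_closed hB hφ rfl zk Xk Lk hk η hη0 hη Lad Lc L0 Lmono ?_ ?_ ?_ hconv⟩
  · intro t ht
    exact (hB.adap t ht).add (hψ.measurable.comp (Lad t ht))
  · intro ω
    exact (hB.cont ω).add (hψ.comp (Lc ω))
  · refine Filter.Eventually.of_forall fun ω t ht => ?_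
    have h1 := Lmono ω 0 t le_rfl ht
    rw [L0 ω] at h1
    show B t ω + φ (max (L t ω) 0) = B t ω + φ (L t ω)
    rw [max_eq_left h1]

end exist

end Pool.Agent.Helper41.SK
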