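import Pool.Agent.Helper41.SK.Defs
import Pool.Agent.Helper41.SK.MainDefs
import Pool.Agent.Helper41.SK.SA01
import Pool.Agent.Helper41.SK.SA03
import Pool.Agent.Helper41.SK.SA04
import Pool.Agent.Helper41.SK.SA05
import Pool.Agent.Helper41.SK.SA07
import Pool.Agent.Helper41.SK.SA08
import Pool.Agent.Helper41.SK.SA09

set_option autoImplicit false

open scoped ENNReal NNReal Topology
open MeasureTheory ProbabilityTheory Set Filter

namespace Pool.Agent.Helper41.SK


/-! ### auxiliary lemmas for `gen_kernel` -/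

section gkaux

theorem gk_K {k : ℝ → ℝ} {K : ℝ} (hlip : ∀ x y, |k x - k y| ≤ K * |x - y|) : 0 ≤ K := by
  have h := hlip 1 0
  norm_num at h
  exact (abs_nonneg _).trans h

theorem gk_cont {k : ℝ → ℝ} {K : ℝ} (hlip : ∀ x y, |k x - k y| ≤ K * |x - y|) :
    Continuous k := by
  have h : LipschitzWith K.toNNReal k := by
    refine LipschitzWith.of_dist_le_mul fun x y => ?_
    rw [Real.dist_eq, Real.dist_eq, Real.coe_toNNReal _ (gk_K hlip)]
    exact hlip x y
  exact h.continuous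

/-- primitive of the kernel -/
noncomputable def gkG (k : ℝ → ℝ) (u : ℝ) : ℝ := ∫ x in (0:ℝ)..u, k x

theorem gkG_neg {k : ℝ → ℝ} (hev : ∀ x, k (-x) = k x) (u : ℝ) : gkG k (-u) = - gkG k u := by
  unfold gkG
  have h1 := intervalIntegral.integral_comp_neg (a := 0) (b := u) k
  simp only [hev, neg_zero] at h1
  rw [h1, intervalIntegral.integral_symm]

theorem gkG_two {k : ℝ → ℝ} (hc : Continuous k) (hev : ∀ x, k (-x) = k x) :
    gkG k 2 = (∫ x in (-2:ℝ)..2, k x) / 2 := by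
  have h1 : (∫ x in (-2:ℝ)..2, k x) = (∫ x in (-2:ℝ)..0, k x) + ∫ x in (0:ℝ)..2, k x :=
    (intervalIntegral.integral_add_adjacent_intervals (hc.intervalIntegrable _ _)
      (hc.intervalIntegrable _ _)).symm
  have h2 := gkG_neg hev 2
  unfold gkG at *
  rw [intervalIntegral.integral_symm] at h2
  rw [h1]
  linarith

theorem gkG_big {k : ℝ → ℝ} (hc : Continuous k) (hev : ∀ x, k (-x) = k x)
    (h2 : ∀ x, 2 ≤ |x| → k x = 0) (u : ℝ) (hu : 2 ≤ u) :
    gkG k u = (∫ x in (-2:ℝ)..2, k x) / 2 := by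
  rw [← gkG_two hc hev]
  unfold gkG
  rw [← intervalIntegral.integral_add_adjacent_intervals (hc.intervalIntegrable 0 2)
    (hc.intervalIntegrable 2 u)]
  have h3 : ∫ x in (2:ℝ)..u, k x = 0 := by
    apply intervalIntegral.integral_zero_ae
    refine Eventually.of_forall fun x hx => ?_
    rw [uIoc_of_le hu] at hx
    apply h2
    rw [abs_of_nonneg (by linarith [hx.1])]
    exact hx.1.le
  rw [h3, add_zero]

theorem gkG_bd {k : ℝ → ℝ} (hc : Continuous k) (hev : ∀ x, k (-x) = k x) (h0 : ∀ x, 0 ≤ k x)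
    (h2 : ∀ x, 2 ≤ |x| → k x = 0) (u : ℝ) (hu : 0 ≤ u) :
    0 ≤ gkG k u ∧ gkG k u ≤ (∫ x in (-2:ℝ)..2, k x) / 2 := by
  refine ⟨intervalIntegral.integral_nonneg hu fun x _ => h0 x, ?_⟩
  rcases le_total u 2 with h | h
  · rw [← gkG_two hc hev]
    unfold gkG
    rw [← intervalIntegral.integral_add_adjacent_intervals (hc.intervalIntegrable 0 u)
      (hc.intervalIntegrable u 2)]
    have : 0 ≤ ∫ x in u..2, k x := intervalIntegral.integral_nonneg h fun x _ => h0 x
    linarith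
  · rw [gkG_big hc hev h2 u h]

theorem gk_mu {k : ℝ → ℝ} (hc : Continuous k) (h0 : ∀ x, 0 ≤ k x) (h1 : ∀ x, k x ≤ 1) :
    0 ≤ (∫ x in (-2:ℝ)..2, k x) ∧ (∫ x in (-2:ℝ)..2, k x) ≤ 4 := by
  refine ⟨intervalIntegral.integral_nonneg (by norm_num) fun x _ => h0 x, ?_⟩
  calc (∫ x in (-2:ℝ)..2, k x) ≤ ∫ x in (-2:ℝ)..2, (1:ℝ) :=
        intervalIntegral.integral_mono_on (by norm_num) (hc.intervalIntegrable _ _)
          (continuous_const.intervalIntegrable _ _) fun x _ => h1 x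
    _ = 4 := by simp; norm_num

/-- first derivative of the test function -/
noncomputable def gk1 (k : ℝ → ℝ) (e x : ℝ) : ℝ :=
  2 * gkG k (x / e) - (∫ x in (-2:ℝ)..2, k x) * (I1 (x / e) - I1 (-x / e))

/-- second derivative of the test function -/
noncomputable def gk2 (k : ℝ → ℝ) (e x : ℝ) : ℝ :=
  2 * (k (x / e) / e) - (∫ x in (-2:ℝ)..2, k x) * (2 * kap e x)

/-- the test function -/
noncomputable def gk0 (k : ℝ → ℝ) (e x : ℝ) : ℝ := ∫ y in (0:ℝ)..x, gk1 k e y

theorem gk1_deriv {k : ℝ → ℝ} (hc : Continuous k) (e : ℝ) (he : 0 < e) (he1 : e ≤ 1) (x : ℝ) :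
    HasDerivAt (gk1 k e) (gk2 k e x) x := by
  have h1 : HasDerivAt (gkG k) (k (x / e)) (x / e) :=
    (hc.integral_hasStrictDerivAt 0 (x / e)).hasDerivAt
  have h2 : HasDerivAt (fun x : ℝ => x / e) (1 / e) x := (hasDerivAt_id x).div_const e
  have h3 := (h1.comp x h2).const_mul 2
  have h4 := ((Fs_tf e he he1).h2 x).const_mul (∫ x in (-2:ℝ)..2, k x)
  have h5 := h3.sub h4
  have h6 : gk2 k e x = 2 * (k (x / e) * (1 / e)) - (∫ x in (-2:ℝ)..2, k x) * (2 * kap e x) := by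
    unfold gk2
    ring
  rw [h6]
  exact h5

theorem gk1_bd {k : ℝ → ℝ} (hc : Continuous k) (hev : ∀ x, k (-x) = k x) (h0 : ∀ x, 0 ≤ k x)
    (h1 : ∀ x, k x ≤ 1) (h2 : ∀ x, 2 ≤ |x| → k x = 0) (e : ℝ) (x : ℝ) :
    |gk1 k e x| ≤ 4 := by
  obtain ⟨m0, m4⟩ := gk_mu hc h0 h1
  obtain ⟨μ, hμ⟩ : ∃ μ, μ = ∫ x in (-2:ℝ)..2, k x := ⟨_, rfl⟩
  obtain ⟨-, i0, i1, i2, i3, -⟩ := I1_facts
  unfold gk1
  rw [neg_div]
  rcases le_total 0 (x / e) with h | h
  · have g := gkG_bd hc hev h0 h2 _ h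
    rw [i2 (-(x / e)) (by linarith), ← hμ]
    rw [← hμ] at g m0 m4
    have a0 := i0 (x / e)
    have a1 := i1 (x / e)
    have b0 : 0 ≤ μ * I1 (x / e) := mul_nonneg m0 a0
    have b1 : μ * I1 (x / e) ≤ μ * 1 := mul_le_mul_of_nonneg_left a1 m0
    rw [abs_le]
    constructor <;> linarith [g.1, g.2]
  · have h' : 0 ≤ -(x / e) := by linarith
    have g := gkG_bd hc hev h0 h2 _ h'
    rw [gkG_neg hev] at g
    rw [i2 (x / e) h, ← hμ]
    rw [← hμ] at g m0 m4
    have a0 := i0 (-(x / e))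
    have a1 := i1 (-(x / e))
    have b0 : 0 ≤ μ * I1 (-(x / e)) := mul_nonneg m0 a0
    have b1 : μ * I1 (-(x / e)) ≤ μ * 1 := mul_le_mul_of_nonneg_left a1 m0
    rw [abs_le]
    constructor <;> linarith [g.1, g.2]

theorem gk1_zero {k : ℝ → ℝ} (hc : Continuous k) (hev : ∀ x, k (-x) = k x)
    (h2 : ∀ x, 2 ≤ |x| → k x = 0) (e : ℝ) (he : 0 < e) (x : ℝ)
    (hx : 2 * e ≤ |x|) : gk1 k e x = 0 := by
  obtain ⟨-, i0, i1, i2, i3, -⟩ := I1_facts
  unfold gk1
  rw [neg_div]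
  rcases le_total 0 x with h | h
  · rw [abs_of_nonneg h] at hx
    have hxe : 2 ≤ x / e := by rw [le_div_iff₀ he]; exact hx
    rw [gkG_big hc hev h2 _ hxe, i3 _ (by linarith), i2 _ (by linarith)]
    ring
  · rw [abs_of_nonpos h] at hx
    have hxe : 2 ≤ -(x / e) := by rw [← neg_div, le_div_iff₀ he]; exact hx
    have g := gkG_big hc hev h2 _ hxe
    rw [gkG_neg hev] at g
    rw [i3 (-(x / e)) (by linarith), i2 (x / e) (by linarith)]
    linarith

theorem gk1_cont {k : ℝ → ℝ} (hc : Continuous k) (e : ℝ) (he : 0 < e) (he1 : e ≤ 1) :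
    Continuous (gk1 k e) :=
  continuous_iff_continuousAt.2 fun x => (gk1_deriv hc e he he1 x).continuousAt

theorem gk0_bd {k : ℝ → ℝ} (hc : Continuous k) (hev : ∀ x, k (-x) = k x) (h0 : ∀ x, 0 ≤ k x)
    (h1 : ∀ x, k x ≤ 1) (h2 : ∀ x, 2 ≤ |x| → k x = 0) (e : ℝ) (he : 0 < e) (he1 : e ≤ 1)
    (x : ℝ) : |gk0 k e x| ≤ 8 * e := by
  have hg := gk1_cont hc e he he1
  have small : ∀ y, |y| ≤ 2 * e → |gk0 k e y| ≤ 8 * e := by
    intro y hy
    have h3 := intervalIntegral.norm_integral_le_of_norm_le_const (a := 0) (b := y) (C := 4)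
      (f := gk1 k e) (fun z _ => gk1_bd hc hev h0 h1 h2 e z)
    rw [Real.norm_eq_abs, sub_zero] at h3
    unfold gk0
    linarith
  have zint : ∀ a b, (∀ z ∈ Set.uIoc a b, 2 * e ≤ |z|) → ∫ y in a..b, gk1 k e y = 0 := by
    intro a b hab
    apply intervalIntegral.integral_zero_ae
    exact Eventually.of_forall fun z hz => gk1_zero hc hev h2 e he z (hab z hz)
  by_cases hx : |x| ≤ 2 * e
  · exact small x hx
  · push Not at hx
    rcases le_total 0 x with h | h
    · rw [abs_of_nonneg h] at hx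
      have h4 : gk0 k e x = gk0 k e (2 * e) := by
        unfold gk0
        rw [← intervalIntegral.integral_add_adjacent_intervals (hg.intervalIntegrable 0 (2 * e))
          (hg.intervalIntegrable (2 * e) x), zint (2 * e) x, add_zero]
        intro z hz
        rw [uIoc_of_le hx.le] at hz
        rw [abs_of_nonneg (by linarith [hz.1])]
        exact hz.1.le
      rw [h4]
      apply small
      rw [abs_of_nonneg (by positivity)]
    · rw [abs_of_nonpos h] at hx
      have h4 : gk0 k e x = gk0 k e (-(2 * e)) := by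
        unfold gk0
        rw [← intervalIntegral.integral_add_adjacent_intervals (hg.intervalIntegrable 0 (-(2 * e)))
          (hg.intervalIntegrable (-(2 * e)) x), zint (-(2 * e)) x, add_zero]
        intro z hz
        rw [uIoc_of_ge (by linarith)] at hz
        rw [abs_of_nonpos (by linarith [hz.2])]
        linarith [hz.2]
      rw [h4]
      apply small
      rw [abs_neg, abs_of_nonneg (by positivity)]

theorem gk_tf {k : ℝ → ℝ} {K : ℝ} (hev : ∀ x, k (-x) = k x)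
    (h0 : ∀ x, 0 ≤ k x) (h1 : ∀ x, k x ≤ 1) (h2 : ∀ x, 2 ≤ |x| → k x = 0)
    (hlip : ∀ x y, |k x - k y| ≤ K * |x - y|) (e : ℝ) (he : 0 < e) (he1 : e ≤ 1) :
    TF (gk0 k e) (gk1 k e) (gk2 k e) (4 + 2 / e + 48 / e ^ 2 + 2 * K / e ^ 2) := by
  have hc := gk_cont hlip
  have hK := gk_K hlip
  obtain ⟨m0, m4⟩ := gk_mu hc h0 h1
  have hg := gk1_cont hc e he he1
  have hs := Fs_tf e he he1
  obtain ⟨μ, hμ⟩ : ∃ μ, μ = ∫ x in (-2:ℝ)..2, k x := ⟨_, rfl⟩
  rw [← hμ] at m0 m4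
  have p1 : 0 ≤ 2 / e := by positivity
  have p2 : 0 ≤ 48 / e ^ 2 := by positivity
  have p3 : 0 ≤ 2 * K / e ^ 2 := by positivity
  have e48 : 48 / e ^ 2 = 4 * (12 / e ^ 2) := by ring
  refine ⟨fun x => ?_, fun x => gk1_deriv hc e he he1 x, ?_, fun x => ?_, fun x => ?_,
    fun x y => ?_⟩
  · exact (hg.integral_hasStrictDerivAt 0 x).hasDerivAt
  · unfold gk1 gkG
    simp
  · refine (gk1_bd hc hev h0 h1 h2 e x).trans ?_
    linarith
  · unfold gk2
    rw [← hμ]
    have a1 : |2 * (k (x / e) / e)| ≤ 2 / e := by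
      rw [abs_of_nonneg (by have := h0 (x / e); positivity)]
      have : k (x / e) / e ≤ 1 / e := div_le_div_of_nonneg_right (h1 _) he.le
      have e2 : 2 / e = 2 * (1 / e) := by ring
      rw [e2]
      linarith
    have a2 : |μ * (2 * kap e x)| ≤ 48 / e ^ 2 := by
      rw [abs_mul, abs_of_nonneg m0, e48]
      exact mul_le_mul m4 (hs.b2 x) (abs_nonneg _) (by norm_num)
    have a3 := abs_sub (2 * (k (x / e) / e)) (μ * (2 * kap e x))
    linarith
  · unfold gk2
    rw [← hμ]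
    have a1 : |2 * (k (x / e) / e) - 2 * (k (y / e) / e)| ≤ 2 * K / e ^ 2 * |x - y| := by
      have b1 : 2 * (k (x / e) / e) - 2 * (k (y / e) / e) = (2 / e) * (k (x / e) - k (y / e)) := by
        ring
      rw [b1, abs_mul, abs_of_nonneg p1]
      have b2 := hlip (x / e) (y / e)
      have b3 : |x / e - y / e| = |x - y| / e := by rw [← sub_div, abs_div, abs_of_pos he]
      rw [b3] at b2
      calc (2 / e) * |k (x / e) - k (y / e)| ≤ (2 / e) * (K * (|x - y| / e)) :=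
            mul_le_mul_of_nonneg_left b2 p1
        _ = _ := by ring
    have a2 : |μ * (2 * kap e x) - μ * (2 * kap e y)| ≤ 48 / e ^ 2 * |x - y| := by
      rw [← mul_sub, abs_mul, abs_of_nonneg m0, e48, mul_assoc]
      exact mul_le_mul m4 (hs.lip x y) (abs_nonneg _) (by norm_num)
    have b4 : 2 * (k (x / e) / e) - μ * (2 * kap e x) - (2 * (k (y / e) / e) - μ * (2 * kap e y)) =
        (2 * (k (x / e) / e) - 2 * (k (y / e) / e)) - (μ * (2 * kap e x) - μ * (2 * kap e y)) := by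
      ring
    rw [b4]
    have a3 := abs_sub (2 * (k (x / e) / e) - 2 * (k (y / e) / e))
      (μ * (2 * kap e x) - μ * (2 * kap e y))
    have a4 : 0 ≤ (4 + 2 / e) * |x - y| := by positivity
    linarith

end gkaux

/-! ## TARGETS: prove these (statements must not be changed; helper lemmas are welcome) -/

section ito

variable {Ω : Type*} [mΩ : MeasurableSpace Ω] {P : Measure Ω} [IsProbabilityMeasure P]
  {F : ℝ → MeasurableSpace Ω} {B : ℝ → Ω → ℝ} {c T : ℝ} {V J : ℝ → Ω → ℝ} {R : Ω → ℝ}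
  {f f1 f2 : ℝ → ℝ} {C : ℝ}

theorem gk_sq_int (hZ : ZP P F B c T V J R) {k : ℝ → ℝ} (hc : Continuous k)
    (hev : ∀ x, k (-x) = k x)
    (h0 : ∀ x, 0 ≤ k x) (h1 : ∀ x, k x ≤ 1) (h2 : ∀ x, 2 ≤ |x| → k x = 0) (e : ℝ) (he : 0 < e)
    (he1 : e ≤ 1) :
    ∫ ω, (∫ s in (0:ℝ)..(R ω), (gk1 k e (B s ω + V s ω) - 0) ^ 2) ∂P ≤
      96 * e * (1 + |c| + T) := by
  have hg := gk1_cont hc e he he1
  have hX : ∀ ω, Continuous (fun s => B s ω + V s ω) := fun ω => (hZ.bm.cont ω).add (hZ.Vc ω)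
  have hT := hZ.T0
  have hsq : ∀ y, (gk1 k e y - 0) ^ 2 ≤ 16 := by
    intro y
    rw [sub_zero]
    have h3 := gk1_bd hc hev h0 h1 h2 e y
    rw [← sq_abs]
    nlinarith [abs_nonneg (gk1 k e y)]
  have hnn : ∀ ω, 0 ≤ ∫ s in (0:ℝ)..(R ω), (gk1 k e (B s ω + V s ω) - 0) ^ 2 := fun ω =>
    intervalIntegral.integral_nonneg (hZ.R0 ω) fun s _ => sq_nonneg _
  have hci : ∀ ω a b, IntervalIntegrable (fun s => (gk1 k e (B s ω + V s ω) - 0) ^ 2)
      volume a b := fun ω a b => (((hg.comp (hX ω)).sub continuous_const).pow 2).intervalIntegrable _ _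
  rcases le_or_gt (2 * e) 1 with h | h
  · have hmeas : ∀ ω, Measurable (fun s : ℝ => if |B s ω + V s ω| ≤ 2 * e then (1:ℝ) else 0) := by
      intro ω
      refine Measurable.ite ?_ measurable_const measurable_const
      exact measurableSet_le (hX ω).measurable.abs measurable_const
    have hii : ∀ ω a b, IntervalIntegrable
        (fun s : ℝ => if |B s ω + V s ω| ≤ 2 * e then (1:ℝ) else 0) volume a b := by
      intro ω a b
      have hb : IntervalIntegrable (fun _ : ℝ => (1:ℝ)) volume a b :=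
        continuous_const.intervalIntegrable _ _
      refine hb.mono_fun (hmeas ω).aestronglyMeasurable ?_
      refine Eventually.of_forall fun s => ?_
      simp only
      split_ifs <;> simp
    have hle : ∀ ω, ∫ s in (0:ℝ)..(R ω), (gk1 k e (B s ω + V s ω) - 0) ^ 2 ≤
        16 * ∫ s in (0:ℝ)..(R ω), if |B s ω + V s ω| ≤ 2 * e then (1:ℝ) else 0 := by
      intro ω
      rw [← intervalIntegral.integral_const_mul]
      refine intervalIntegral.integral_mono_on (hZ.R0 ω) (hci ω _ _) ((hii ω _ _).const_mul 16)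
        fun s _ => ?_
      split_ifs with h3
      · rw [mul_one]
        exact hsq _
      · rw [gk1_zero hc hev h2 e he _ (not_le.1 h3).le]
        norm_num
    have hom := occ_meas hZ (2 * e)
    have hoi : Integrable (fun ω => ∫ s in (0:ℝ)..(R ω),
        if |B s ω + V s ω| ≤ 2 * e then (1:ℝ) else 0) P := by
      refine Integrable.of_bound hom.aestronglyMeasurable T (Eventually.of_forall fun ω => ?_)
      have h3 := intervalIntegral.norm_integral_le_of_norm_le_const (a := 0) (b := R ω) (C := 1)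
        (f := fun s : ℝ => if |B s ω + V s ω| ≤ 2 * e then (1:ℝ) else 0) (fun s _ => by
          split_ifs <;> simp)
      rw [sub_zero, one_mul, abs_of_nonneg (hZ.R0 ω)] at h3
      exact h3.trans (hZ.RT ω)
    have hocc := occ hZ (2 * e) (by positivity) h
    calc ∫ ω, (∫ s in (0:ℝ)..(R ω), (gk1 k e (B s ω + V s ω) - 0) ^ 2) ∂P
        ≤ ∫ ω, (16 * ∫ s in (0:ℝ)..(R ω), if |B s ω + V s ω| ≤ 2 * e then (1:ℝ) else 0) ∂P :=
          integral_mono_of_nonneg (Eventually.of_forall hnn) (hoi.const_mul 16)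
            (Eventually.of_forall hle)
      _ = 16 * ∫ ω, (∫ s in (0:ℝ)..(R ω), if |B s ω + V s ω| ≤ 2 * e then (1:ℝ) else 0) ∂P :=
          integral_const_mul _ _
      _ ≤ 16 * (3 * (2 * e) * (1 + |c| + T)) := mul_le_mul_of_nonneg_left hocc (by norm_num)
      _ = _ := by ring
  · have hle : ∀ ω, ∫ s in (0:ℝ)..(R ω), (gk1 k e (B s ω + V s ω) - 0) ^ 2 ≤ 16 * T := by
      intro ω
      have h3 := intervalIntegral.norm_integral_le_of_norm_le_const (a := 0) (b := R ω) (C := 16)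
        (f := fun s : ℝ => (gk1 k e (B s ω + V s ω) - 0) ^ 2) (fun s _ => by
          rw [Real.norm_eq_abs, abs_of_nonneg (sq_nonneg _)]
          exact hsq _)
      rw [sub_zero, abs_of_nonneg (hZ.R0 ω), Real.norm_eq_abs, abs_of_nonneg (hnn ω)] at h3
      refine h3.trans ?_
      have := hZ.RT ω
      linarith
    calc ∫ ω, (∫ s in (0:ℝ)..(R ω), (gk1 k e (B s ω + V s ω) - 0) ^ 2) ∂P
        ≤ ∫ ω, 16 * T ∂P :=
          integral_mono_of_nonneg (Eventually.of_forall hnn) (integrable_const _)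
            (Eventually.of_forall hle)
      _ = 16 * T := by simp
      _ ≤ _ := by
        have h3 : 0 ≤ |c| := abs_nonneg c
        nlinarith

theorem gen_kernel (hZ : ZP P F B c T V J R) (k : ℝ → ℝ) (K : ℝ) (hev : ∀ x, k (-x) = k x)
    (h0 : ∀ x, 0 ≤ k x) (h1 : ∀ x, k x ≤ 1) (h2 : ∀ x, 2 ≤ |x| → k x = 0)
    (hlip : ∀ x y, |k x - k y| ≤ K * |x - y|) (e : ℝ) (he : 0 < e) (he1 : e ≤ 1) :
    ∫ ω, ((∫ s in (0:ℝ)..(R ω), k ((B s ω + V s ω) / e) / e)
      - (∫ x in (-2:ℝ)..2, k x) * ∫ s in (0:ℝ)..(R ω), kap e (B s ω + V s ω)) ^ 2 ∂P ≤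
      2000 * (1 + |c| + T) * e := by
  have hkc := gk_cont hlip
  have htf := gk_tf hev h0 h1 h2 hlip e he he1
  obtain ⟨hM, hMb⟩ := iso_ito hZ htf 0
  have hsq := gk_sq_int hZ hkc hev h0 h1 h2 e he he1
  have hT := hZ.T0
  have hX : ∀ ω, Continuous (fun s => B s ω + V s ω) := fun ω => (hZ.bm.cont ω).add (hZ.Vc ω)
  have hkap : Continuous (kap e) := by
    have h3 : Continuous (fun x => 2 * kap e x) := by
      have hs := Fs_tf e he he1
      have h4 : LipschitzWith (12 / e ^ 2).toNNReal (fun x => 2 * kap e x) := by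
        refine LipschitzWith.of_dist_le_mul fun x y => ?_
        rw [Real.dist_eq, Real.dist_eq, Real.coe_toNNReal _ (by positivity)]
        exact hs.lip x y
      exact h4.continuous
    have h5 : kap e = fun x => (1 / 2) * (2 * kap e x) := by
      funext x
      ring
    rw [h5]
    exact continuous_const.mul h3
  obtain ⟨μ, hμ⟩ : ∃ μ, μ = ∫ x in (-2:ℝ)..2, k x := ⟨_, rfl⟩
  have hD : ∀ ω, (∫ s in (0:ℝ)..(R ω), k ((B s ω + V s ω) / e) / e)
      - (∫ x in (-2:ℝ)..2, k x) * ∫ s in (0:ℝ)..(R ω), kap e (B s ω + V s ω) =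
      (∫ s in (0:ℝ)..(R ω), gk2 k e (B s ω + V s ω)) / 2 := by
    intro ω
    have c1 : Continuous (fun s => k ((B s ω + V s ω) / e) / e) :=
      (hkc.comp ((hX ω).div_const e)).div_const e
    have c2 : Continuous (fun s => kap e (B s ω + V s ω)) := hkap.comp (hX ω)
    have e1 : ∀ s, gk2 k e (B s ω + V s ω) = 2 * (k ((B s ω + V s ω) / e) / e) -
        (μ * 2) * kap e (B s ω + V s ω) := by
      intro s
      unfold gk2
      rw [← hμ]
      ring
    simp_rw [e1]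
    rw [intervalIntegral.integral_sub ((c1.intervalIntegrable _ _).const_mul 2)
      ((c2.intervalIntegrable _ _).const_mul (μ * 2)), intervalIntegral.integral_const_mul,
      intervalIntegral.integral_const_mul, ← hμ]
    ring
  simp_rw [hD]
  obtain ⟨M, hMd⟩ : ∃ M : Ω → ℝ, M = (fun ω => gk0 k e (B (R ω) ω + V (R ω) ω) - gk0 k e c
      - (∫ s in (0:ℝ)..(R ω), gk2 k e (B s ω + V s ω)) / 2 - 0 * B (R ω) ω) := ⟨_, rfl⟩
  have hMω : ∀ ω, M ω = gk0 k e (B (R ω) ω + V (R ω) ω) - gk0 k e c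
      - (∫ s in (0:ℝ)..(R ω), gk2 k e (B s ω + V s ω)) / 2 - 0 * B (R ω) ω := fun ω => by
    rw [hMd]
  simp_rw [← hMω] at hM hMb
  have hpt : ∀ ω, ((∫ s in (0:ℝ)..(R ω), gk2 k e (B s ω + V s ω)) / 2) ^ 2 ≤
      512 * e ^ 2 + 2 * (M ω) ^ 2 := by
    intro ω
    have b1 := gk0_bd hkc hev h0 h1 h2 e he he1 (B (R ω) ω + V (R ω) ω)
    have b2 := gk0_bd hkc hev h0 h1 h2 e he he1 c
    obtain ⟨u, hu⟩ : ∃ u, u = gk0 k e (B (R ω) ω + V (R ω) ω) - gk0 k e c := ⟨_, rfl⟩
    have hub : |u| ≤ 16 * e := by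
      rw [hu]
      have := abs_sub (gk0 k e (B (R ω) ω + V (R ω) ω)) (gk0 k e c)
      linarith
    have hu2 : u ^ 2 ≤ 256 * e ^ 2 := by
      rw [← sq_abs]
      nlinarith [abs_nonneg u]
    have e1 : (∫ s in (0:ℝ)..(R ω), gk2 k e (B s ω + V s ω)) / 2 = u - M ω := by
      rw [hMω, hu]
      ring
    rw [e1]
    nlinarith [sq_nonneg (u + M ω)]
  have hMi : Integrable (fun ω => (M ω) ^ 2) P := hM.integrable_sq
  have hgi : Integrable (fun ω => 512 * e ^ 2 + 2 * (M ω) ^ 2) P :=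
    (integrable_const _).add (hMi.const_mul 2)
  calc ∫ ω, ((∫ s in (0:ℝ)..(R ω), gk2 k e (B s ω + V s ω)) / 2) ^ 2 ∂P
      ≤ ∫ ω, (512 * e ^ 2 + 2 * (M ω) ^ 2) ∂P :=
        integral_mono_of_nonneg (Eventually.of_forall fun ω => sq_nonneg _) hgi
          (Eventually.of_forall hpt)
    _ = 512 * e ^ 2 + 2 * ∫ ω, (M ω) ^ 2 ∂P := by
        have e1 : ∫ ω, 2 * (M ω) ^ 2 ∂P = 2 * ∫ ω, (M ω) ^ 2 ∂P := integral_const_mul _ _
        rw [integral_add (integrable_const _) (hMi.const_mul 2), e1]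
        simp
    _ ≤ 512 * e ^ 2 + 2 * (96 * e * (1 + |c| + T)) := by
        have := hMb.trans hsq
        linarith
    _ ≤ 2000 * (1 + |c| + T) * e := by
        have h3 : 0 ≤ |c| := abs_nonneg c
        have h4 : e ^ 2 ≤ e * (1 + |c| + T) := by
          rw [pow_two]
          apply mul_le_mul_of_nonneg_left _ he.le
          linarith
        have h5 : 0 ≤ e * (1 + |c| + T) := by positivity
        linarith

end ito

end Pool.Agent.Helper41.SK
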