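import Pool.Agent.Helper41.SK.Defs
import Pool.Agent.Helper41.SK.MainDefs
import Pool.Agent.Helper41.SK.SA07
import Pool.Agent.Helper41.SK.SA11
import Pool.Agent.Helper41.SK.SC01

set_option autoImplicit false

open scoped ENNReal NNReal Topology
open MeasureTheory ProbabilityTheory Set Filter

namespace Pool.Agent.Helper41.SK

/-! Processes are indexed by t. -/


/-! ## TARGETS: prove these (statements must not be changed; helper lemmas are welcome) -/

section exist

variable {Ω : Type*} [mΩ : MeasurableSpace Ω] {P : Measure Ω} [IsProbabilityMeasure P]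
  {F : ℝ → MeasurableSpace Ω} {B : ℝ → Ω → ℝ} {c : ℝ} {φ : ℝ → ℝ} {X L : ℝ → Ω → ℝ}

theorem X_joint (h : SolC P F B c φ X L) :
    Measurable (Function.uncurry fun (ω : Ω) (s : ℝ) => X (max s 0) ω) := by
  have h1 : Measurable (Function.uncurry fun (s : ℝ) (ω : Ω) => X (max s 0) ω) := by
    apply measurable_uncurry_of_continuous_of_measurable
    · intro ω
      exact (h.Xc ω).comp (continuous_id.max continuous_const)
    · intro t
      exact (h.Xad _ (le_max_right _ _)).mono (h.bm.le _) le_rfl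
  exact h1.comp measurable_swap

theorem occ_meas_sd09 (h : SolC P F B c φ X L) {g : ℝ → ℝ} (hg : Measurable g) {T : ℝ} (hT : 0 ≤ T) :
    Measurable fun ω => ∫ s in (0:ℝ)..T, g (X s ω) := by
  have h1 : (fun ω => ∫ s in (0:ℝ)..T, g (X s ω)) =
      fun ω => ∫ s in Ioc 0 T, g (X (max s 0) ω) := by
    funext ω
    rw [intervalIntegral.integral_of_le hT]
    apply setIntegral_congr_fun measurableSet_Ioc
    intro s hs
    simp [max_eq_left hs.1.le]
  rw [h1]
  have h3 : Measurable (Function.uncurry fun (ω : Ω) (s : ℝ) => g (X (max s 0) ω)) :=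
    hg.comp (X_joint h)
  exact (h3.stronglyMeasurable.integral_prod_right (ν := volume.restrict (Ioc 0 T))).measurable

omit mΩ in
theorem occ_bound {g : ℝ → ℝ} {K : ℝ} (hK : ∀ x, |g x| ≤ K) {T : ℝ} (hT : 0 ≤ T) (ω : Ω) :
    |∫ s in (0:ℝ)..T, g (X s ω)| ≤ K * T := by
  have := intervalIntegral.norm_integral_le_of_norm_le_const (a := 0) (b := T) (C := K)
    (f := fun s => g (X s ω)) (fun s _ => hK _)
  rwa [sub_zero, abs_of_nonneg hT] at this

theorem L_meas (h : SolC P F B c φ X L) {T : ℝ} (hT : 0 ≤ T) : Measurable (L T) :=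
  (h.Lad T hT).mono (h.bm.le _) le_rfl

/-- the trapezoidal kernels -/
noncomputable def kk_sd09 (n : ℕ) (x : ℝ) : ℝ := max 0 (min 1 ((n : ℝ) * (1 - |x|)))

theorem kk_even (n : ℕ) (x : ℝ) : kk_sd09 n (-x) = kk_sd09 n x := by simp [kk_sd09]

theorem kk_nonneg (n : ℕ) (x : ℝ) : 0 ≤ kk_sd09 n x := le_max_left _ _

theorem kk_le_one (n : ℕ) (x : ℝ) : kk_sd09 n x ≤ 1 := max_le zero_le_one (min_le_left _ _)

theorem kk_zero (n : ℕ) (x : ℝ) (hx : 1 ≤ |x|) : kk_sd09 n x = 0 := by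
  unfold kk_sd09
  apply max_eq_left
  refine (min_le_right _ _).trans ?_
  exact mul_nonpos_of_nonneg_of_nonpos (Nat.cast_nonneg n) (by linarith)

theorem kk_lip (n : ℕ) (x y : ℝ) : |kk_sd09 n x - kk_sd09 n y| ≤ (n : ℝ) * |x - y| := by
  unfold kk_sd09
  have h1 : |max 0 (min 1 ((n : ℝ) * (1 - |x|))) - max 0 (min 1 ((n : ℝ) * (1 - |y|)))| ≤
      |min 1 ((n : ℝ) * (1 - |x|)) - min 1 ((n : ℝ) * (1 - |y|))| := by
    rw [max_comm 0, max_comm 0]
    exact abs_max_sub_max_le_abs _ _ _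
  have h2 : |min 1 ((n : ℝ) * (1 - |x|)) - min 1 ((n : ℝ) * (1 - |y|))| ≤
      |(n : ℝ) * (1 - |x|) - (n : ℝ) * (1 - |y|)| := by
    have := abs_min_sub_min_le_max 1 ((n : ℝ) * (1 - |x|)) 1 ((n : ℝ) * (1 - |y|))
    rwa [sub_self, abs_zero, max_eq_right (abs_nonneg _)] at this
  have h3 : |(n : ℝ) * (1 - |x|) - (n : ℝ) * (1 - |y|)| = n * |(|y| - |x|)| := by
    rw [← mul_sub, abs_mul, Nat.abs_cast]
    congr 2
    ring
  have h4 : |(|y| - |x|)| ≤ |x - y| := by
    rw [abs_sub_comm x y]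
    exact abs_abs_sub_abs_le_abs_sub y x
  rw [h3] at h2
  exact (h1.trans h2).trans (mul_le_mul_of_nonneg_left h4 (Nat.cast_nonneg n))

theorem kk_cont_sd09 (n : ℕ) : Continuous (kk_sd09 n) := by
  unfold kk_sd09; fun_prop

theorem kk_lim (x : ℝ) : Tendsto (fun n => kk_sd09 n x) atTop (𝓝 (if |x| < 1 then 1 else 0)) := by
  by_cases hx : |x| < 1
  · rw [if_pos hx]
    obtain ⟨N, hN⟩ := exists_nat_ge (1 / (1 - |x|))
    refine tendsto_const_nhds.congr' ?_
    filter_upwards [eventually_ge_atTop N] with n hn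
    unfold kk_sd09
    have h1 : (1 : ℝ) ≤ (n : ℝ) * (1 - |x|) := by
      have h2 : 0 < 1 - |x| := by linarith
      rw [← div_le_iff₀ h2]
      exact hN.trans (by exact_mod_cast hn)
    rw [min_eq_left h1, max_eq_right zero_le_one]
  · rw [if_neg hx]
    have : (fun n => kk_sd09 n x) = fun _ => 0 := funext fun n => kk_zero n x (not_lt.mp hx)
    rw [this]
    exact tendsto_const_nhds

theorem mu_lim : Tendsto (fun n => ∫ x in (-2:ℝ)..2, kk_sd09 n x) atTop (𝓝 2) := by
  have h1 : (∫ x in (-2:ℝ)..2, if |x| < 1 then (1:ℝ) else 0) = 2 := by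
    rw [intervalIntegral.integral_of_le (by norm_num)]
    have h2 : (fun x : ℝ => if |x| < 1 then (1:ℝ) else 0) = (Ioo (-1:ℝ) 1).indicator 1 := by
      funext x
      by_cases hx : |x| < 1
      · rw [if_pos hx, indicator_of_mem (show x ∈ Ioo (-1:ℝ) 1 from abs_lt.mp hx)]; rfl
      · rw [if_neg hx, indicator_of_notMem (show x ∉ Ioo (-1:ℝ) 1 from
          fun hh => hx (abs_lt.mpr hh))]
    rw [h2, integral_indicator_one measurableSet_Ioo, measureReal_restrict_apply measurableSet_Ioo]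
    have h3 : Ioo (-1:ℝ) 1 ∩ Ioc (-2) 2 = Ioo (-1) 1 := by
      apply inter_eq_left.mpr
      intro x hx
      exact ⟨by linarith [hx.1], by linarith [hx.2]⟩
    rw [h3, Real.volume_real_Ioo]
    norm_num
  suffices hm : Tendsto (fun n => ∫ x in (-2:ℝ)..2, kk_sd09 n x) atTop
      (𝓝 (∫ x in (-2:ℝ)..2, if |x| < 1 then (1:ℝ) else 0)) by rwa [h1] at hm
  apply intervalIntegral.tendsto_integral_filter_of_dominated_convergence (fun _ => (1:ℝ))
  · exact Filter.Eventually.of_forall fun n => (kk_cont_sd09 n).aestronglyMeasurable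
  · refine Filter.Eventually.of_forall fun n => Filter.Eventually.of_forall fun x _ => ?_
    rw [Real.norm_eq_abs, abs_of_nonneg (kk_nonneg n x)]
    exact kk_le_one n x
  · exact intervalIntegrable_const
  · exact Filter.Eventually.of_forall fun x _ => kk_lim x

theorem kap_cont (e : ℝ) : Continuous (kap e) := by
  unfold kap kp chi cl
  fun_prop

theorem kap_bd {e : ℝ} (he : 0 < e) (x : ℝ) : |kap e x| ≤ 3 / 2 / e := by
  obtain ⟨c0, c1, -⟩ := chi_facts
  have h1 := c0 (x / e)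
  have h2 := c1 (x / e)
  have h3 := c0 (-x / e)
  have h4 := c1 (-x / e)
  have e1 : kap e x = (chi (x / e) + chi (-x / e)) / 2 / e := by
    unfold kap kp; ring
  rw [e1, abs_of_nonneg (by positivity)]
  exact div_le_div_of_nonneg_right (by linarith) he.le

theorem occ_rate (h : SolC P F B c φ X L) (T e : ℝ) (hT : 0 ≤ T) (he : 0 < e) (he1 : e ≤ 1) :
    ∫ ω, (1 / (2 * e) * (∫ s in (0:ℝ)..T, if |X s ω| < e then (1:ℝ) else 0) - L T ω) ^ 2 ∂P ≤
      2000 * (1 + |c| + T) * e := by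
  rcases hT.eq_or_lt with rfl | hT'
  · simp only [intervalIntegral.integral_same, mul_zero, h.L0, sub_zero]
    have : (0:ℝ) ≤ 2000 * (1 + |c| + 0) * e := by positivity
    simpa using this
  have hM : (0:ℝ) ≤ (1 + |c| + T) * e := by positivity
  -- the kernel estimate
  set Kp : Ω → ℝ := fun ω => ∫ s in (0:ℝ)..T, kap e (X s ω) with hKp
  set Ik : ℕ → Ω → ℝ := fun n ω => ∫ s in (0:ℝ)..T, kk_sd09 n (X s ω / e) / e with hIk
  set I0 : Ω → ℝ := fun ω => ∫ s in (0:ℝ)..T, if |X s ω| < e then (1:ℝ) else 0 with hI0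
  have hKpm : Measurable Kp := occ_meas_sd09 h (kap_cont e).measurable hT
  have hIkm : ∀ n, Measurable (Ik n) := fun n =>
    occ_meas_sd09 h (g := fun x => kk_sd09 n (x / e) / e)
      (((kk_cont_sd09 n).comp (continuous_id.div_const e)).div_const e).measurable hT
  have hgm : Measurable fun x : ℝ => if |x| < e then (1:ℝ) else 0 :=
    Measurable.ite (measurableSet_lt measurable_id.abs measurable_const) measurable_const
      measurable_const
  have hI0m : Measurable I0 := occ_meas_sd09 h hgm hT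
  have hKpb : ∀ ω, |Kp ω| ≤ 3 / 2 / e * T := fun ω => occ_bound (kap_bd he) hT ω
  have hIkb : ∀ n ω, |Ik n ω| ≤ 1 / e * T := fun n ω =>
    occ_bound (g := fun x => kk_sd09 n (x / e) / e) (fun x => by
      rw [abs_div, abs_of_pos he, abs_of_nonneg (kk_nonneg _ _)]
      exact div_le_div_of_nonneg_right (kk_le_one _ _) he.le) hT ω
  have hI0b : ∀ ω, |I0 ω| ≤ 1 * T := fun ω =>
    occ_bound (g := fun x => if |x| < e then (1:ℝ) else 0) (fun x => by
      split_ifs <;> simp) hT ω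
  have hker : ∀ n, ∫ ω, (Ik n ω - (∫ x in (-2:ℝ)..2, kk_sd09 n x) * Kp ω) ^ 2 ∂P ≤
      2000 * (1 + |c| + T) * e := by
    intro n
    have h1 := gen_kernel (sol_zp h T hT') (kk_sd09 n) n (kk_even n) (kk_nonneg n) (kk_le_one n)
      (fun x hx => kk_zero n x (by linarith)) (kk_lip n) e he he1
    have h2 : ∀ ω, (∫ s in (0:ℝ)..T,
        kk_sd09 n ((B s ω + (X (min s T) ω - B (min s T) ω)) / e) / e) = Ik n ω := by
      intro ω
      apply intervalIntegral.integral_congr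
      intro s hs
      rw [uIcc_of_le hT] at hs
      simp only
      rw [min_eq_left hs.2, add_sub_cancel]
    have h3 : ∀ ω, (∫ s in (0:ℝ)..T,
        kap e (B s ω + (X (min s T) ω - B (min s T) ω))) = Kp ω := by
      intro ω
      apply intervalIntegral.integral_congr
      intro s hs
      rw [uIcc_of_le hT] at hs
      simp only
      rw [min_eq_left hs.2, add_sub_cancel]
    simp only [h2, h3] at h1
    exact h1
  have hmu : ∀ n, |∫ x in (-2:ℝ)..2, kk_sd09 n x| ≤ 4 := by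
    intro n
    have := intervalIntegral.norm_integral_le_of_norm_le_const (a := -2) (b := 2) (C := 1)
      (f := fun x => kk_sd09 n x) (fun x _ => by
        rw [Real.norm_eq_abs, abs_of_nonneg (kk_nonneg _ _)]; exact kk_le_one _ _)
    refine this.trans (le_of_eq ?_)
    norm_num
  -- the limit
  have hlimI : ∀ ω, Tendsto (fun n => Ik n ω) atTop (𝓝 (1 / e * I0 ω)) := by
    intro ω
    have h1 : 1 / e * I0 ω = ∫ s in (0:ℝ)..T, (if |X s ω| < e then (1:ℝ) else 0) / e := by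
      rw [intervalIntegral.integral_div, hI0]
      ring
    rw [h1]
    apply intervalIntegral.tendsto_integral_filter_of_dominated_convergence (fun _ => 1 / e)
    · refine Filter.Eventually.of_forall fun n => Continuous.aestronglyMeasurable ?_
      exact ((kk_cont_sd09 n).comp ((h.Xc ω).div_const e)).div_const e
    · refine Filter.Eventually.of_forall fun n => Filter.Eventually.of_forall fun x _ => ?_
      rw [Real.norm_eq_abs, abs_div, abs_of_pos he, abs_of_nonneg (kk_nonneg _ _)]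
      exact div_le_div_of_nonneg_right (kk_le_one _ _) he.le
    · exact intervalIntegrable_const
    · refine Filter.Eventually.of_forall fun x _ => ?_
      have h2 := (kk_lim (X x ω / e)).div_const e
      have h3 : (if |X x ω / e| < 1 then (1:ℝ) else 0) = if |X x ω| < e then (1:ℝ) else 0 := by
        congr 1
        rw [abs_div, abs_of_pos he, div_lt_one he]
      rw [h3] at h2
      exact h2
  have hbig : ∫ ω, (1 / e * I0 ω - 2 * Kp ω) ^ 2 ∂P ≤ 2000 * (1 + |c| + T) * e := by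
    have h1 : Tendsto (fun n => ∫ ω, (Ik n ω - (∫ x in (-2:ℝ)..2, kk_sd09 n x) * Kp ω) ^ 2 ∂P) atTop
        (𝓝 (∫ ω, (1 / e * I0 ω - 2 * Kp ω) ^ 2 ∂P)) := by
      apply tendsto_integral_of_dominated_convergence
        (fun _ => (1 / e * T + 4 * (3 / 2 / e * T)) ^ 2)
      · intro n
        exact (((hIkm n).sub (hKpm.const_mul _)).pow_const 2).aestronglyMeasurable
      · exact integrable_const _
      · intro n
        refine Filter.Eventually.of_forall fun ω => ?_
        rw [Real.norm_eq_abs, abs_pow]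
        apply pow_le_pow_left₀ (abs_nonneg _)
        refine (abs_sub _ _).trans (add_le_add (hIkb n ω) ?_)
        rw [abs_mul]
        exact mul_le_mul (hmu n) (hKpb ω) (abs_nonneg _) (by norm_num)
      · refine Filter.Eventually.of_forall fun ω => ?_
        exact ((hlimI ω).sub (mu_lim.mul_const _)).pow 2
    exact le_of_tendsto' h1 hker
  have hloc := h.loc T e hT he he1
  -- combine
  have hU : MemLp (fun ω => 1 / e * I0 ω - 2 * Kp ω) 2 P := by
    apply MemLp.of_bound ((hI0m.const_mul _).sub (hKpm.const_mul _)).aestronglyMeasurable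
      (1 / e * (1 * T) + 2 * (3 / 2 / e * T))
    refine Filter.Eventually.of_forall fun ω => ?_
    rw [Real.norm_eq_abs]
    refine (abs_sub _ _).trans (add_le_add ?_ ?_)
    · rw [abs_mul, abs_of_pos (by positivity : (0:ℝ) < 1 / e)]
      exact mul_le_mul_of_nonneg_left (hI0b ω) (by positivity)
    · rw [abs_mul, abs_two]
      exact mul_le_mul_of_nonneg_left (hKpb ω) (by norm_num)
  have hKL : MemLp Kp 2 P := by
    apply MemLp.of_bound hKpm.aestronglyMeasurable (3 / 2 / e * T)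
    exact Filter.Eventually.of_forall fun ω => hKpb ω
  have hV : MemLp (fun ω => Kp ω - L T ω) 2 P := hKL.sub (h.Lsq T hT)
  have hcomb : ∫ ω, (1 / (2 * e) * I0 ω - L T ω) ^ 2 ∂P ≤
      ∫ ω, (1 / 2 * (1 / e * I0 ω - 2 * Kp ω) ^ 2 + 2 * (Kp ω - L T ω) ^ 2) ∂P := by
    apply integral_mono_of_nonneg
    · exact Filter.Eventually.of_forall fun ω => sq_nonneg _
    · exact (hU.integrable_sq.const_mul _).add (hV.integrable_sq.const_mul _)
    · refine Filter.Eventually.of_forall fun ω => ?_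
      show (1 / (2 * e) * I0 ω - L T ω) ^ 2 ≤
        1 / 2 * (1 / e * I0 ω - 2 * Kp ω) ^ 2 + 2 * (Kp ω - L T ω) ^ 2
      have e1 : 1 / (2 * e) * I0 ω - L T ω =
          1 / 2 * (1 / e * I0 ω - 2 * Kp ω) + (Kp ω - L T ω) := by
        field_simp
        ring
      rw [e1]
      nlinarith [sq_nonneg (1 / 2 * (1 / e * I0 ω - 2 * Kp ω) - (Kp ω - L T ω))]
  refine hcomb.trans ?_
  rw [integral_add (hU.integrable_sq.const_mul _) (hV.integrable_sq.const_mul _),
    integral_const_mul, integral_const_mul]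
  have hloc' : ∫ ω, (Kp ω - L T ω) ^ 2 ∂P ≤ 20 * (1 + |c| + T) * e := hloc
  nlinarith

/-- sandwich along the sequence `1/(n+1)^2` -/
theorem sand (g : ℝ → ℝ) (hg : Monotone g) (l : ℝ)
    (h : Tendsto (fun n : ℕ => 1 / (2 * (1 / ((n : ℝ) + 1) ^ 2)) * g (1 / ((n : ℝ) + 1) ^ 2)) atTop
      (𝓝 l)) (hg0 : ∀ x, 0 ≤ g x) :
    Tendsto (fun ε : ℝ => 1 / (2 * ε) * g ε) (𝓝[>] 0) (𝓝 l) := by
  -- u n ≤ value ≤ v n for 1/(n+2)^2 ≤ ε ≤ 1/(n+1)^2
  have hr : Tendsto (fun n : ℕ => (((n : ℝ) + 2) / ((n : ℝ) + 1)) ^ 2) atTop (𝓝 1) := by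
    have h1 : Tendsto (fun n : ℕ => 1 + 1 / ((n : ℝ) + 1)) atTop (𝓝 (1 + 0)) :=
      tendsto_const_nhds.add tendsto_one_div_add_atTop_nhds_zero_nat
    have h2 := h1.pow 2
    rw [add_zero, one_pow] at h2
    refine h2.congr fun n => ?_
    have : (n : ℝ) + 1 ≠ 0 := by positivity
    congr 1
    field_simp
    ring
  have hup : Tendsto (fun n : ℕ => (((n : ℝ) + 2) / ((n : ℝ) + 1)) ^ 2 *
      (1 / (2 * (1 / ((n : ℝ) + 1) ^ 2)) * g (1 / ((n : ℝ) + 1) ^ 2))) atTop (𝓝 l) := by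
    simpa using hr.mul h
  have hlo : Tendsto (fun n : ℕ => ((((n : ℝ) + 2) / ((n : ℝ) + 1)) ^ 2)⁻¹ *
      (1 / (2 * (1 / (((n + 1 : ℕ) : ℝ) + 1) ^ 2)) * g (1 / (((n + 1 : ℕ) : ℝ) + 1) ^ 2))) atTop
      (𝓝 l) := by
    have h1 := hr.inv₀ one_ne_zero
    have h2 := h.comp (tendsto_add_atTop_nat 1)
    simpa using h1.mul h2
  have hN : Tendsto (fun ε : ℝ => ⌊1 / √ε⌋₊ - 1) (𝓝[>] 0) atTop := by
    apply (tendsto_sub_atTop_nat 1).comp
    apply tendsto_nat_floor_atTop.comp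
    have h1 : Tendsto (fun ε : ℝ => √ε) (𝓝[>] 0) (𝓝[>] 0) := by
      rw [tendsto_nhdsWithin_iff]
      constructor
      · have := Real.continuous_sqrt.tendsto 0
        rw [Real.sqrt_zero] at this
        exact this.mono_left nhdsWithin_le_nhds
      · filter_upwards [self_mem_nhdsWithin] with ε hε
        exact Real.sqrt_pos.mpr hε
    have h2 := tendsto_inv_nhdsGT_zero.comp h1
    refine h2.congr fun ε => ?_
    simp
  have hmem : ∀ᶠ ε : ℝ in 𝓝[>] 0, ε ∈ Ioc (0:ℝ) 1 := Ioc_mem_nhdsGT one_pos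
  have key : ∀ᶠ ε : ℝ in 𝓝[>] 0, 0 < ε ∧
      1 / (((⌊1 / √ε⌋₊ - 1 : ℕ) : ℝ) + 2) ^ 2 ≤ ε ∧ ε ≤ 1 / (((⌊1 / √ε⌋₊ - 1 : ℕ) : ℝ) + 1) ^ 2 := by
    filter_upwards [hmem] with ε hε
    have hs : 0 < √ε := Real.sqrt_pos.mpr hε.1
    have hs1 : √ε ≤ 1 := by
      exact Real.sqrt_le_one.mpr hε.2
    have hsq : √ε * √ε = ε := Real.mul_self_sqrt hε.1.le
    have h1 : (1 : ℝ) ≤ 1 / √ε := by rw [le_div_iff₀ hs]; linarith
    have hfl : 1 ≤ ⌊1 / √ε⌋₊ := Nat.le_floor (by exact_mod_cast h1)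
    obtain ⟨k, hk⟩ : ∃ k, ⌊1 / √ε⌋₊ = k + 1 := ⟨⌊1 / √ε⌋₊ - 1, by omega⟩
    have h2 : ((k : ℝ) + 1) ≤ 1 / √ε := by
      have := Nat.floor_le (a := 1 / √ε) (by positivity)
      rw [hk] at this
      push_cast at this
      exact this
    have h3 : 1 / √ε < (k : ℝ) + 2 := by
      have := Nat.lt_floor_add_one (1 / √ε)
      rw [hk] at this
      push_cast at this
      linarith
    rw [hk, Nat.add_sub_cancel]
    refine ⟨hε.1, ?_, ?_⟩
    · rw [div_le_iff₀ (by positivity)]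
      rw [div_lt_iff₀ hs] at h3
      nlinarith
    · rw [le_div_iff₀ (by positivity)]
      rw [le_div_iff₀ hs] at h2
      have h4 : 0 ≤ ((k : ℝ) + 1) * √ε := by positivity
      nlinarith
  refine tendsto_of_tendsto_of_tendsto_of_le_of_le' (hlo.comp hN) (hup.comp hN) ?_ ?_
  · filter_upwards [key] with ε hε
    obtain ⟨hε0, h1, h2⟩ := hε
    simp only [Function.comp]
    set k := ⌊1 / √ε⌋₊ - 1
    have e1 : ((k + 1 : ℕ) : ℝ) + 1 = (k : ℝ) + 2 := by push_cast; ring
    rw [e1]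
    have h3 := hg h1
    have h4 : ((((k : ℝ) + 2) / ((k : ℝ) + 1)) ^ 2)⁻¹ * (1 / (2 * (1 / ((k : ℝ) + 2) ^ 2)) *
        g (1 / ((k : ℝ) + 2) ^ 2)) = ((k : ℝ) + 1) ^ 2 / 2 * g (1 / ((k : ℝ) + 2) ^ 2) := by
      field_simp
    rw [h4]
    have h5 : ((k : ℝ) + 1) ^ 2 / 2 ≤ 1 / (2 * ε) := by
      rw [div_le_div_iff₀ (by norm_num) (by positivity)]
      rw [le_div_iff₀ (by positivity)] at h2
      linarith
    exact mul_le_mul h5 h3 (hg0 _) (by positivity)
  · filter_upwards [key] with ε hε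
    obtain ⟨hε0, h1, h2⟩ := hε
    simp only [Function.comp]
    set k := ⌊1 / √ε⌋₊ - 1
    have h3 := hg h2
    have h4 : (((k : ℝ) + 2) / ((k : ℝ) + 1)) ^ 2 * (1 / (2 * (1 / ((k : ℝ) + 1) ^ 2)) *
        g (1 / ((k : ℝ) + 1) ^ 2)) = ((k : ℝ) + 2) ^ 2 / 2 * g (1 / ((k : ℝ) + 1) ^ 2) := by
      field_simp
    rw [h4]
    have h5 : 1 / (2 * ε) ≤ ((k : ℝ) + 2) ^ 2 / 2 := by
      rw [div_le_div_iff₀ (by positivity) (by norm_num)]
      rw [div_le_iff₀ (by positivity)] at h1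
      linarith
    exact mul_le_mul h5 h3 (hg0 _) (by positivity)

theorem occ_eq (h : SolC P F B c φ X L) (ω : Ω) {t : ℝ} (ht : 0 ≤ t) (ε : ℝ) :
    (volume.restrict (Ici (0:ℝ))).real {s | 0 ≤ s ∧ s ≤ t ∧ |X s ω| < ε} =
      ∫ s in (0:ℝ)..t, if |X s ω| < ε then (1:ℝ) else 0 := by
  have hA : MeasurableSet {s : ℝ | |X s ω| < ε} :=
    (isOpen_lt (h.Xc ω).abs continuous_const).measurableSet
  have hS : {s : ℝ | 0 ≤ s ∧ s ≤ t ∧ |X s ω| < ε} = {s : ℝ | |X s ω| < ε} ∩ Icc 0 t := by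
    ext s
    simp only [mem_ofPred_eq, mem_inter_iff, mem_Icc]
    tauto
  have h1 : (fun s : ℝ => if |X s ω| < ε then (1:ℝ) else 0) =
      ({s : ℝ | |X s ω| < ε}).indicator 1 := by
    funext s
    by_cases hs : |X s ω| < ε
    · rw [if_pos hs, indicator_of_mem (show s ∈ {s : ℝ | |X s ω| < ε} from hs)]; rfl
    · rw [if_neg hs, indicator_of_notMem (show s ∉ {s : ℝ | |X s ω| < ε} from hs)]
  rw [intervalIntegral.integral_of_le ht, ← integral_Icc_eq_integral_Ioc, h1,
    integral_indicator_one hA, measureReal_restrict_apply hA, hS,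
    measureReal_restrict_apply (hA.inter measurableSet_Icc)]
  congr 1
  apply inter_eq_left.mpr
  intro s hs
  exact hs.2.1

theorem occ_mono (h : SolC P F B c φ X L) (ω : Ω) {t : ℝ} (ht : 0 ≤ t) :
    Monotone fun ε : ℝ => ∫ s in (0:ℝ)..t, if |X s ω| < ε then (1:ℝ) else 0 := by
  intro a b hab
  simp only
  rw [← occ_eq h ω ht, ← occ_eq h ω ht]
  apply measureReal_mono
  · rintro s ⟨h1, h2, h3⟩
    exact ⟨h1, h2, h3.trans_le hab⟩
  · apply ne_top_of_le_ne_top (b := volume (Icc 0 t))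
    · simp
    · refine (Measure.restrict_apply_le _ _).trans (measure_mono ?_)
      rintro s ⟨h1, h2, h3⟩
      exact ⟨h1, h2⟩

theorem occ_monoT (h : SolC P F B c φ X L) (ω : Ω) {t t' : ℝ} (ht : 0 ≤ t) (htt : t ≤ t')
    (ε : ℝ) : (∫ s in (0:ℝ)..t, if |X s ω| < ε then (1:ℝ) else 0) ≤
      ∫ s in (0:ℝ)..t', if |X s ω| < ε then (1:ℝ) else 0 := by
  rw [← occ_eq h ω ht, ← occ_eq h ω (ht.trans htt)]
  apply measureReal_mono
  · rintro s ⟨h1, h2, h3⟩
    exact ⟨h1, h2.trans htt, h3⟩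
  · apply ne_top_of_le_ne_top (b := volume (Icc 0 t'))
    · simp
    · refine (Measure.restrict_apply_le _ _).trans (measure_mono ?_)
      rintro s ⟨h1, h2, h3⟩
      exact ⟨h1, h2⟩

theorem loc_fixed (h : SolC P F B c φ X L) (t : ℝ) (ht : 0 ≤ t) :
    ∀ᵐ ω ∂P, Tendsto (fun ε : ℝ => 1 / (2 * ε) *
      ∫ s in (0:ℝ)..t, if |X s ω| < ε then (1:ℝ) else 0) (𝓝[>] 0) (𝓝 (L t ω)) := by
  let en : ℕ → ℝ := fun n => 1 / ((n : ℝ) + 1) ^ 2
  have hen0 : ∀ n, 0 < en n := fun n => by positivity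
  have hen1 : ∀ n, en n ≤ 1 := fun n => by
    show 1 / ((n : ℝ) + 1) ^ 2 ≤ 1
    rw [div_le_one (by positivity)]
    have : (0:ℝ) ≤ n := Nat.cast_nonneg n
    nlinarith
  let D : ℕ → Ω → ℝ := fun n ω =>
    1 / (2 * en n) * (∫ s in (0:ℝ)..t, if |X s ω| < en n then (1:ℝ) else 0) - L t ω
  have hgm : ∀ e : ℝ, Measurable fun x : ℝ => if |x| < e then (1:ℝ) else 0 := fun e =>
    Measurable.ite (measurableSet_lt measurable_id.abs measurable_const) measurable_const
      measurable_const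
  have hDm : ∀ n, Measurable (D n) := fun n =>
    ((occ_meas_sd09 h (hgm (en n)) ht).const_mul _).sub (L_meas h ht)
  have hDL : ∀ n, MemLp (D n) 2 P := by
    intro n
    refine MemLp.sub ?_ (h.Lsq t ht)
    apply MemLp.of_bound ((occ_meas_sd09 h (hgm (en n)) ht).const_mul _).aestronglyMeasurable
      (1 / (2 * en n) * (1 * t))
    refine Filter.Eventually.of_forall fun ω => ?_
    have h0 : 0 < 1 / (2 * en n) := by have := hen0 n; positivity
    rw [Real.norm_eq_abs, abs_mul, abs_of_pos h0]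
    exact mul_le_mul_of_nonneg_left (occ_bound (g := fun x => if |x| < en n then (1:ℝ) else 0)
      (fun x => by split_ifs <;> simp) ht ω) h0.le
  have hD2 : ∀ n, ∫ ω, (D n ω) ^ 2 ∂P ≤ 2000 * (1 + |c| + t) * en n := fun n =>
    occ_rate h t (en n) ht (hen0 n) (hen1 n)
  have hsum : Summable fun n => 2000 * (1 + |c| + t) * en n := by
    apply Summable.mul_left
    have h1 : Summable fun n : ℕ => 1 / ((n : ℝ)) ^ 2 :=
      Real.summable_one_div_nat_pow.mpr (by norm_num)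
    have h2 := (summable_nat_add_iff 1).mpr h1
    refine h2.congr fun n => ?_
    show _ = 1 / ((n : ℝ) + 1) ^ 2
    push_cast
    rfl
  have hlin : ∫⁻ ω, ∑' n, ENNReal.ofReal ((D n ω) ^ 2) ∂P ≠ ⊤ := by
    rw [lintegral_tsum fun n => ((hDm n).pow_const 2).ennreal_ofReal.aemeasurable]
    have h1 : ∀ n, ∫⁻ ω, ENNReal.ofReal ((D n ω) ^ 2) ∂P ≤
        ENNReal.ofReal (2000 * (1 + |c| + t) * en n) := by
      intro n
      rw [← ofReal_integral_eq_lintegral_ofReal (hDL n).integrable_sq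
        (Filter.Eventually.of_forall fun ω => sq_nonneg _)]
      exact ENNReal.ofReal_le_ofReal (hD2 n)
    refine ne_top_of_le_ne_top ?_ (ENNReal.tsum_le_tsum h1)
    rw [← ENNReal.ofReal_tsum_of_nonneg (fun n => by have := hen0 n; positivity) hsum]
    exact ENNReal.ofReal_ne_top
  have hae := ae_lt_top' (AEMeasurable.ennreal_tsum
    fun n => ((hDm n).pow_const 2).ennreal_ofReal.aemeasurable) hlin
  filter_upwards [hae] with ω hω
  have h1 : Summable fun n => (D n ω) ^ 2 := by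
    have h2 := ENNReal.summable_toReal hω.ne
    refine h2.congr fun n => ?_
    rw [ENNReal.toReal_ofReal (sq_nonneg _)]
  have h2 : Tendsto (fun n => D n ω) atTop (𝓝 0) := by
    rw [tendsto_zero_iff_abs_tendsto_zero]
    have h3 := (Real.continuous_sqrt.tendsto 0).comp h1.tendsto_atTop_zero
    rw [Real.sqrt_zero] at h3
    refine h3.congr fun n => ?_
    simp only [Function.comp]
    rw [Real.sqrt_sq_eq_abs]
  apply sand _ (occ_mono h ω ht)
  · have h3 := h2.add_const (L t ω)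
    rw [zero_add] at h3
    refine h3.congr fun n => ?_
    show 1 / (2 * en n) * (∫ s in (0:ℝ)..t, if |X s ω| < en n then (1:ℝ) else 0) - L t ω + L t ω = _
    rw [sub_add_cancel]
  · intro x
    show 0 ≤ ∫ s in (0:ℝ)..t, if |X s ω| < x then (1:ℝ) else 0
    rw [← occ_eq h ω ht]
    exact measureReal_nonneg

theorem loc_as (h : SolC P F B c φ X L) :
    ∀ᵐ ω ∂P, ∀ t, 0 ≤ t → Tendsto (fun ε : ℝ => 1 / (2 * ε) *
      (volume.restrict (Ici (0:ℝ))).real {s | 0 ≤ s ∧ s ≤ t ∧ |X s ω| < ε}) (𝓝[>] 0)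
      (𝓝 (L t ω)) := by
  have h1 : ∀ᵐ ω ∂P, ∀ r : ℚ, 0 ≤ (r : ℝ) → Tendsto (fun ε : ℝ => 1 / (2 * ε) *
      ∫ s in (0:ℝ)..(r : ℝ), if |X s ω| < ε then (1:ℝ) else 0) (𝓝[>] 0) (𝓝 (L r ω)) := by
    rw [ae_all_iff]
    intro r
    by_cases hr : 0 ≤ (r : ℝ)
    · filter_upwards [loc_fixed h r hr] with ω hω _
      exact hω
    · exact Filter.Eventually.of_forall fun ω hh => absurd hh hr
  filter_upwards [h1] with ω hω t ht
  have h2 : (fun ε : ℝ => 1 / (2 * ε) *
      (volume.restrict (Ici (0:ℝ))).real {s | 0 ≤ s ∧ s ≤ t ∧ |X s ω| < ε}) =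
      fun ε : ℝ => 1 / (2 * ε) * ∫ s in (0:ℝ)..t, if |X s ω| < ε then (1:ℝ) else 0 := by
    funext ε
    rw [occ_eq h ω ht]
  rw [h2, tendsto_order]
  have hpos : ∀ᶠ ε : ℝ in 𝓝[>] 0, 0 < ε := self_mem_nhdsWithin
  constructor
  · intro a ha
    rcases ht.eq_or_lt with rfl | ht'
    · rw [h.L0] at ha
      filter_upwards with ε
      rw [intervalIntegral.integral_same, mul_zero]
      exact ha
    · have h3 : ∀ᶠ s in 𝓝 t, a < L s ω := (h.Lc ω).continuousAt.eventually (lt_mem_nhds ha)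
      obtain ⟨δ, hδ, hδ'⟩ := Metric.eventually_nhds_iff.mp h3
      obtain ⟨r, hr1, hr2⟩ := exists_rat_btwn (show max 0 (t - δ) < t from
        max_lt ht' (by linarith))
      have hr0 : (0:ℝ) ≤ r := (le_max_left _ _).trans hr1.le
      have h4 : a < L r ω := by
        apply hδ'
        rw [Real.dist_eq, abs_lt]
        have := (le_max_right 0 (t - δ)).trans_lt hr1
        constructor <;> linarith
      filter_upwards [(hω r hr0).eventually (lt_mem_nhds h4), hpos] with ε hε hε0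
      refine hε.trans_le ?_
      exact mul_le_mul_of_nonneg_left (occ_monoT h ω hr0 hr2.le ε) (by positivity)
  · intro a ha
    have h3 : ∀ᶠ s in 𝓝 t, L s ω < a := (h.Lc ω).continuousAt.eventually (gt_mem_nhds ha)
    obtain ⟨δ, hδ, hδ'⟩ := Metric.eventually_nhds_iff.mp h3
    obtain ⟨r, hr1, hr2⟩ := exists_rat_btwn (show t < t + δ by linarith)
    have hr0 : (0:ℝ) ≤ r := ht.trans hr1.le
    have h4 : L r ω < a := by
      apply hδ'
      rw [Real.dist_eq, abs_lt]
      constructor <;> linarith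
    filter_upwards [(hω r hr0).eventually (gt_mem_nhds h4), hpos] with ε hε hε0
    refine lt_of_le_of_lt ?_ hε
    exact mul_le_mul_of_nonneg_left (occ_monoT h ω ht hr1.le ε) (by positivity)

end exist

end Pool.Agent.Helper41.SK
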