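import Pool.Agent.Helper41.SK.Defs
import Pool.Agent.Helper41.SK.MainDefs
import Pool.Agent.Helper41.SK.SB01
import Pool.Agent.Helper41.SK.SB03
import Pool.Agent.Helper41.SK.SB07
import Pool.Agent.Helper41.SK.SD09

set_option autoImplicit false

open scoped ENNReal NNReal Topology
open MeasureTheory ProbabilityTheory Set Filter

namespace Pool.Agent.Helper41.SK

/-! Processes are indexed by t. -/


/-! ## TARGETS: prove these (statements must not be changed; helper lemmas are welcome) -/

section exist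

variable {Ω : Type*} [mΩ : MeasurableSpace Ω] {P : Measure Ω} [IsProbabilityMeasure P]
  {F : ℝ → MeasurableSpace Ω} {B : ℝ → Ω → ℝ} {c : ℝ} {φ : ℝ → ℝ} {X L : ℝ → Ω → ℝ}

theorem clamp_bm (hB : IsBM P F B) :
    BMF P (fun t => F (max t 0)) (fun t ω => B (max t 0) ω) := by
  refine ⟨fun t => hB.filt.le _ (le_max_right _ _),
    fun s t hst => hB.filt.mono _ _ (le_max_right _ _) (max_le_max_right 0 hst),
    ?_, fun t ht => hB.ca.adap _ (le_max_right _ _), ?_, ?_, ?_, ?_⟩
  · intro A hA
    have h0 : max (0:ℝ) 0 = 0 := max_self 0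
    show MeasurableSet[F (max 0 0)] A
    rw [h0]
    exact hB.filt.null A hA
  · intro ω
    exact (hB.ca.cont ω).comp_continuous (by fun_prop) (fun t => le_max_right t 0)
  · intro ω
    show B (max 0 0) ω = 0
    rw [max_self]
    exact hB.zero ω
  · intro s t hs hst
    have h1 : max s 0 = s := max_eq_left hs
    have h2 : max t 0 = t := max_eq_left (hs.trans hst)
    show P.map (fun ω => B (max t 0) ω - B (max s 0) ω) = _
    rw [h1, h2]
    exact hB.law s t hs hst
  · intro s t hs hst
    have h1 : max s 0 = s := max_eq_left hs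
    have h2 : max t 0 = t := max_eq_left (hs.trans hst)
    show Indep (MeasurableSpace.comap (fun ω => B (max t 0) ω - B (max s 0) ω) inferInstance)
      (F (max s 0)) P
    rw [h1, h2]
    exact hB.indep s t hs hst

theorem mart_comb (hF : IsFilt P F) {M N : ℝ → Ω → ℝ} (hM : IsMart P F M) (hN : IsMart P F N)
    (a d : ℝ) : IsMart P F (fun t ω => M t ω + a * N t ω + d) := by
  refine ⟨fun t ht => ?_, fun t ht => ?_, fun s t hs hst G hG => ?_⟩
  · exact ((hM.adap t ht).add ((hN.adap t ht).const_mul a)).add_const d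
  · exact ((hM.int t ht).add ((hN.int t ht).const_mul a)).add (integrable_const d)
  · have ht : 0 ≤ t := hs.trans hst
    have key : ∀ r, 0 ≤ r → ∫ ω in G, (M r ω + a * N r ω + d) ∂P
        = (∫ ω in G, M r ω ∂P) + a * (∫ ω in G, N r ω ∂P) + ∫ ω in G, d ∂P := by
      intro r hr
      have i1 : Integrable (M r) (P.restrict G) := (hM.int r hr).integrableOn
      have i2 : Integrable (fun ω => a * N r ω) (P.restrict G) :=
        ((hN.int r hr).const_mul a).integrableOn
      have i3 : Integrable (fun _ : Ω => d) (P.restrict G) := integrable_const d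
      have i12 : Integrable (fun ω => M r ω + a * N r ω) (P.restrict G) := i1.add i2
      rw [integral_add i12 i3, integral_add i1 i2, integral_const_mul]
    rw [key t ht, key s hs, hM.eq s t hs hst G hG, hN.eq s t hs hst G hG]

theorem solc_sol (hB : IsBM P F B)
    (h : SolC P (fun t => F (max t 0)) (fun t ω => B (max t 0) ω) (φ 0) φ X L) :
    IsSol P F B φ X := by
  have hF : IsFilt P F := hB.filt
  have hmx : ∀ t : ℝ, 0 ≤ t → max t 0 = t := fun t ht => max_eq_left ht
  have hLn : ∀ ω t, 0 ≤ t → 0 ≤ L t ω := by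
    intro ω t ht
    have := h.Lmono ω 0 t le_rfl ht
    rwa [h.L0] at this
  have hXad : ∀ t, 0 ≤ t → Measurable[F t] (X t) := by
    intro t ht
    have := h.Xad t ht
    have e : F (max t 0) = F t := by rw [hmx t ht]
    change @Measurable Ω ℝ (F (max t 0)) _ (X t) at this
    rwa [e] at this
  have hLad : ∀ t, 0 ≤ t → Measurable[F t] (L t) := by
    intro t ht
    have := h.Lad t ht
    have e : F (max t 0) = F t := by rw [hmx t ht]
    change @Measurable Ω ℝ (F (max t 0)) _ (L t) at this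
    rwa [e] at this
  -- clamped phi
  have hψ : Continuous (fun y : ℝ => φ (max y 0)) := by
    have hl : LipschitzWith 1 (fun y : ℝ => φ (max y 0)) := by
      apply LipschitzWith.of_dist_le_mul
      intro x y
      rw [Real.dist_eq, Real.dist_eq]
      have h1 := h.lip (max x 0) (max y 0) (le_max_right _ _) (le_max_right _ _)
      have h2 : |max x 0 - max y 0| ≤ |x - y| := abs_max_sub_max_le_abs x y 0
      simpa using h1.trans h2
    exact hl.continuous
  have hφad : ∀ t, 0 ≤ t → Measurable[F t] (fun ω => φ (L t ω)) := by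
    intro t ht
    have h1 : (fun ω => φ (L t ω)) = (fun y : ℝ => φ (max y 0)) ∘ (L t) := by
      funext ω
      show φ (L t ω) = φ (max (L t ω) 0)
      rw [max_eq_left (hLn ω t ht)]
    rw [h1]
    exact hψ.measurable.comp (hLad t ht)
  have hφc : ∀ ω, ContinuousOn (fun t => φ (L t ω)) (Ici 0) := by
    intro ω
    have h1 : ContinuousOn (fun t => φ (max (L t ω) 0)) (Ici 0) :=
      (hψ.comp (h.Lc ω)).continuousOn
    refine h1.congr fun t ht => ?_
    show φ (L t ω) = φ (max (L t ω) 0)
    rw [max_eq_left (hLn ω t ht)]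
  have hCL : IsCA F L := ⟨hLad, fun ω => (h.Lc ω).continuousOn⟩
  have hIL : IsIncr F L := ⟨hCL, h.L0, fun ω s t hs hst => h.Lmono ω s t hs hst⟩
  have hA1 : IsIncr F (fun t ω => (L t ω + φ (L t ω) - φ 0) / 2) := by
    refine ⟨⟨fun t ht => ?_, fun ω => ?_⟩, fun ω => ?_, fun ω s t hs hst => ?_⟩
    · exact (((hLad t ht).add (hφad t ht)).sub_const (φ 0)).div_const 2
    · exact ((((h.Lc ω).continuousOn).add (hφc ω)).sub continuousOn_const).div_const 2
    · show (L 0 ω + φ (L 0 ω) - φ 0) / 2 = 0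
      rw [h.L0]; ring
    · have h1 := h.Lmono ω s t hs hst
      have h2 := h.lip (L s ω) (L t ω) (hLn ω s hs) (hLn ω t (hs.trans hst))
      rw [abs_of_nonpos (by linarith : L s ω - L t ω ≤ 0)] at h2
      have h3 := abs_le.1 h2
      show (L s ω + φ (L s ω) - φ 0) / 2 ≤ (L t ω + φ (L t ω) - φ 0) / 2
      linarith [h3.1, h3.2]
  have hA2 : IsIncr F (fun t ω => (L t ω - φ (L t ω) + φ 0) / 2) := by
    refine ⟨⟨fun t ht => ?_, fun ω => ?_⟩, fun ω => ?_, fun ω s t hs hst => ?_⟩
    · exact (((hLad t ht).sub (hφad t ht)).add_const (φ 0)).div_const 2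
    · exact ((((h.Lc ω).continuousOn).sub (hφc ω)).add continuousOn_const).div_const 2
    · show (L 0 ω - φ (L 0 ω) + φ 0) / 2 = 0
      rw [h.L0]; ring
    · have h1 := h.Lmono ω s t hs hst
      have h2 := h.lip (L s ω) (L t ω) (hLn ω s hs) (hLn ω t (hs.trans hst))
      rw [abs_of_nonpos (by linarith : L s ω - L t ω ≤ 0)] at h2
      have h3 := abs_le.1 h2
      show (L s ω - φ (L s ω) + φ 0) / 2 ≤ (L t ω - φ (L t ω) + φ 0) / 2
      linarith [h3.1, h3.2]
  obtain ⟨hm1, hm2⟩ := bm_mart hB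
  have hq : IsIncr F (fun (t : ℝ) (_ : Ω) => t) :=
    ⟨⟨fun t _ => measurable_const, fun ω => continuousOn_id⟩, fun _ => rfl,
      fun _ s t _ hst => hst⟩
  have hMm : IsMart P F (fun t ω => φ 0 + B t ω) := by
    have h1 := mart_comb hF hm1 hm1 0 (φ 0)
    have h2 : (fun (t : ℝ) (ω : Ω) => φ 0 + B t ω)
        = (fun t ω => B t ω + 0 * B t ω + φ 0) := by
      funext t ω; ring
    rw [h2]; exact h1
  have hMc : IsCA F (fun t ω => φ 0 + B t ω) :=
    ⟨fun t ht => (hB.ca.adap t ht).const_add (φ 0),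
      fun ω => continuousOn_const.add (hB.ca.cont ω)⟩
  have hQm : IsMart P F (fun t ω => (φ 0 + B t ω) ^ 2 - t) := by
    have h1 := mart_comb hF hm2 hm1 (2 * φ 0) ((φ 0) ^ 2)
    have h2 : (fun (t : ℝ) (ω : Ω) => (φ 0 + B t ω) ^ 2 - t)
        = (fun t ω => ((B t ω) ^ 2 - t) + (2 * φ 0) * B t ω + (φ 0) ^ 2) := by
      funext t ω; ring
    rw [h2]; exact h1
  have hQc : IsCA F (fun t ω => (φ 0 + B t ω) ^ 2 - t) :=
    ⟨fun t ht => ((hMc.adap t ht).pow_const 2).sub_const t,
      fun ω => ((hMc.cont ω).pow 2).sub continuousOn_id⟩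
  refine ⟨fun t _ => t, L, ⟨⟨hXad, fun ω => (h.Xc ω).continuousOn⟩,
    fun t ω => φ 0 + B t ω, fun t ω => (L t ω + φ (L t ω) - φ 0) / 2,
    fun t ω => (L t ω - φ (L t ω) + φ 0) / 2,
    mart_locmart hF _ hMm hMc, hA1, hA2, ?_, hq, mart_locmart hF _ hQm hQc⟩, ⟨hIL, ?_⟩, ?_⟩
  · filter_upwards [h.eq] with ω hω t ht
    have := hω t ht
    simp only [hmx t ht] at this
    rw [this]; ring
  · filter_upwards [loc_as h] with ω hω t ht
    have := hω t ht
    rw [dmeas_id (fun s => s) (fun t _ => rfl)]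
    exact this
  · filter_upwards [h.eq] with ω hω t ht
    have := hω t ht
    simp only [hmx t ht] at this
    exact this

end exist

end Pool.Agent.Helper41.SK
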