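import Pool.Agent.Helper41.SK.Defs
import Pool.Agent.Helper41.SK.MainDefs


set_option autoImplicit false

open scoped ENNReal NNReal Topology
open MeasureTheory ProbabilityTheory Set Filter

namespace Pool.Agent.Helper41.SK

/-! Processes are indexed by t. -/

/-! ## TARGETS: prove these (statements must not be changed; helper lemmas are welcome) -/

section exist

variable {Ω : Type*} [mΩ : MeasurableSpace Ω] {P : Measure Ω} [IsProbabilityMeasure P]
  {F : ℝ → MeasurableSpace Ω} {B : ℝ → Ω → ℝ} {c : ℝ} {φ : ℝ → ℝ} {X L : ℝ → Ω → ℝ}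

theorem aug_le (hc : P.IsComplete) (hB : IsBM0 P B) (t : ℝ) (ht : 0 ≤ t) : augF P B t ≤ mΩ := by
  unfold augF
  refine iInf_le_of_le ⟨t + 1, by linarith⟩ (sup_le (iSup_le fun r => ?_) ?_)
  · exact (hB.meas r.1 r.2.1).comap_le
  · exact MeasurableSpace.generateFrom_le fun A hA => hc.out' A hA

theorem aug_le_G (s u : ℝ) (h : s < u) : augF P B s ≤
    (⨆ r : {r : ℝ // 0 ≤ r ∧ r ≤ u},
      MeasurableSpace.comap (B r.1) inferInstance) ⊔ MeasurableSpace.generateFrom {A | P A = 0} :=
  iInf_le_of_le ⟨u, h⟩ le_rfl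

theorem G_approx (u : ℝ) (C : Set Ω)
    (hC : MeasurableSet[(⨆ r : {r : ℝ // 0 ≤ r ∧ r ≤ u},
      MeasurableSpace.comap (B r.1) inferInstance) ⊔
        MeasurableSpace.generateFrom {A | P A = 0}] C) :
    ∃ C', MeasurableSet[⨆ r : {r : ℝ // 0 ≤ r ∧ r ≤ u},
      MeasurableSpace.comap (B r.1) inferInstance] C' ∧ C =ᵐ[P] C' := by
  set m : MeasurableSpace Ω := ⨆ r : {r : ℝ // 0 ≤ r ∧ r ≤ u},
      MeasurableSpace.comap (B r.1) inferInstance with hm
  have h : m ⊔ MeasurableSpace.generateFrom {A | P A = 0} ≤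
      @eventuallyMeasurableSpace Ω m (ae P) _ := by
    refine sup_le le_eventuallyMeasurableSpace ?_
    refine MeasurableSpace.generateFrom_le fun A hA => ?_
    refine ⟨∅, @MeasurableSet.empty Ω m, ?_⟩
    exact ae_eq_empty.2 hA
  exact h C hC

theorem G_indep (hB : IsBM0 P B) (u t : ℝ) (hu : 0 ≤ u) (hut : u ≤ t) (S : Set ℝ)
    (hS : MeasurableSet S) (C : Set Ω)
    (hC : MeasurableSet[(⨆ r : {r : ℝ // 0 ≤ r ∧ r ≤ u},
      MeasurableSpace.comap (B r.1) inferInstance) ⊔
        MeasurableSpace.generateFrom {A | P A = 0}] C) :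
    P ((fun ω => B t ω - B u ω) ⁻¹' S ∩ C) = P ((fun ω => B t ω - B u ω) ⁻¹' S) * P C := by
  obtain ⟨C', hC', he⟩ := G_approx u C hC
  have h := (Indep_iff _ _ P).1 (hB.indep u t hu hut) _ C' ⟨S, hS, rfl⟩ hC'
  have h1 : ((fun ω => B t ω - B u ω) ⁻¹' S ∩ C : Set Ω) =ᵐ[P]
      ((fun ω => B t ω - B u ω) ⁻¹' S ∩ C' : Set Ω) :=
    (ae_eq_refl _).inter he
  rw [measure_congr h1, measure_congr he, h]

theorem aug_bm (hc : P.IsComplete) (hB : IsBM0 P B) : IsBM P (augF P B) B := by
  refine ⟨⟨aug_le hc hB, ?_, ?_⟩, ⟨?_, hB.cont⟩, hB.zero, hB.law, ?_⟩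
  · intro s t _ hst
    unfold augF
    exact le_iInf fun u => iInf_le_of_le ⟨u.1, lt_of_le_of_lt hst u.2⟩ le_rfl
  · intro A hA
    unfold augF
    rw [MeasurableSpace.measurableSet_iInf]
    intro u
    exact (le_sup_right : MeasurableSpace.generateFrom {A | P A = 0} ≤ _) A
      (MeasurableSpace.measurableSet_generateFrom hA)
  · intro t ht
    rw [measurable_iff_comap_le]
    unfold augF
    refine le_iInf fun u => le_sup_of_le_left ?_
    exact le_iSup_of_le (⟨t, ht, u.2.le⟩ : {r : ℝ // 0 ≤ r ∧ r ≤ u.1}) le_rfl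
  · intro s t hs hst
    have hmt : Measurable (B t) := hB.meas t (hs.trans hst)
    rw [Indep_iff]
    rintro _ A ⟨S, hS, rfl⟩ hA
    rcases hst.eq_or_lt with rfl | hlt
    · have h0 : (fun ω => B s ω - B s ω) = fun _ => (0:ℝ) := by
        funext ω; simp
      rw [h0]
      by_cases h : (0:ℝ) ∈ S
      · have : (fun _ : Ω => (0:ℝ)) ⁻¹' S = Set.univ := by ext; simp [h]
        rw [this]; simp
      · have : (fun _ : Ω => (0:ℝ)) ⁻¹' S = ∅ := by ext; simp [h]
        rw [this]; simp
    have hAm : MeasurableSet A := aug_le hc hB s hs A hA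
    have hms : Measurable (B s) := hB.meas s hs
    have hDm : ∀ u, 0 ≤ u → Measurable (fun ω => B t ω - B u ω) := fun u hu =>
      hmt.sub (hB.meas u hu)
    -- the identity for u
    have key : ∀ u ∈ Ioc s t, ∀ g : BoundedContinuousFunction ℝ ℝ,
        ∫ ω in A, g (B t ω - B u ω) ∂P = P.real A * ∫ ω, g (B t ω - B u ω) ∂P := by
      intro u hu g
      have hu0 : 0 ≤ u := hs.trans hu.1.le
      have hmeas : (P.restrict A).map (fun ω => B t ω - B u ω) =
          P A • P.map (fun ω => B t ω - B u ω) := by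
        ext S hS
        rw [Measure.map_apply (hDm u hu0) hS, Measure.smul_apply,
          Measure.map_apply (hDm u hu0) hS, Measure.restrict_apply (hDm u hu0 hS), smul_eq_mul,
          mul_comm]
        exact G_indep hB u t hu0 hu.2 S hS A (aug_le_G s u hu.1 A hA)
      have h1 : ∫ x, g x ∂((P.restrict A).map (fun ω => B t ω - B u ω)) =
          ∫ ω in A, g (B t ω - B u ω) ∂P :=
        integral_map (hDm u hu0).aemeasurable g.continuous.aestronglyMeasurable
      have h2 : ∫ x, g x ∂(P.map (fun ω => B t ω - B u ω)) =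
          ∫ ω, g (B t ω - B u ω) ∂P :=
        integral_map (hDm u hu0).aemeasurable g.continuous.aestronglyMeasurable
      rw [← h1, hmeas, integral_smul_measure, h2]
      rfl
    -- limit
    have hlim : ∀ g : BoundedContinuousFunction ℝ ℝ, ∀ Q : Measure Ω, IsFiniteMeasure Q →
        Tendsto (fun u => ∫ ω, g (B t ω - B u ω) ∂Q) (𝓝[>] s)
          (𝓝 (∫ ω, g (B t ω - B s ω) ∂Q)) := by
      intro g Q hQ
      refine tendsto_integral_filter_of_dominated_convergence (fun _ => ‖g‖) ?_ ?_ ?_ ?_
      · filter_upwards [self_mem_nhdsWithin] with u hu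
        exact (g.continuous.measurable.comp
          (hDm u (hs.trans (le_of_lt hu)))).aestronglyMeasurable
      · exact Eventually.of_forall fun u => Eventually.of_forall fun ω => g.norm_coe_le_norm _
      · exact integrable_const _
      · refine Eventually.of_forall fun ω => ?_
        have hc1 : Tendsto (fun u => B u ω) (𝓝[>] s) (𝓝 (B s ω)) := by
          have := (hB.cont ω) s hs
          exact (this.mono (fun x hx => hs.trans (le_of_lt hx) : Ioi s ⊆ Ici 0))
        exact (g.continuous.tendsto _).comp (tendsto_const_nhds.sub hc1)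
    have key2 : ∀ g : BoundedContinuousFunction ℝ ℝ,
        ∫ ω in A, g (B t ω - B s ω) ∂P = P.real A * ∫ ω, g (B t ω - B s ω) ∂P := by
      intro g
      have h1 := hlim g (P.restrict A) inferInstance
      have h2 := (hlim g P inferInstance).const_mul (P.real A)
      refine tendsto_nhds_unique h1 (h2.congr' ?_)
      have : Ioc s t ∈ 𝓝[>] s := Ioc_mem_nhdsGT hlt
      filter_upwards [this] with u hu
      exact (key u hu g).symm
    have hfin : (P.restrict A).map (fun ω => B t ω - B s ω) =
        P A • P.map (fun ω => B t ω - B s ω) := by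
      have : IsFiniteMeasure (P A • P.map (fun ω => B t ω - B s ω)) := by
        refine ⟨?_⟩
        rw [Measure.smul_apply, smul_eq_mul]
        exact ENNReal.mul_lt_top (measure_lt_top _ _) (measure_lt_top _ _)
      refine ext_of_forall_integral_eq_of_IsFiniteMeasure fun g => ?_
      rw [integral_map (hDm s hs).aemeasurable g.continuous.aestronglyMeasurable,
        integral_smul_measure,
        integral_map (hDm s hs).aemeasurable g.continuous.aestronglyMeasurable]
      exact key2 g
    have := congrArg (fun μ : Measure ℝ => μ S) hfin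
    simp only [Measure.smul_apply, smul_eq_mul] at this
    rw [Measure.map_apply (hDm s hs) hS, Measure.map_apply (hDm s hs) hS,
      Measure.restrict_apply (hDm s hs hS), mul_comm] at this
    exact this

end exist

end Pool.Agent.Helper41.SK
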