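import Pool.Agent.Helper41.SK.Defs
import Pool.Agent.Helper41.SK.MainDefs
import Pool.Agent.Helper41.SK.SB11
import Pool.Agent.Helper41.SK.SC15
import Pool.Agent.Helper41.SK.SD08
import Pool.Agent.Helper41.SK.SD10
import Pool.Agent.Helper41.SK.SD11

set_option autoImplicit false
set_option warn.classDefReducibility false

open scoped ENNReal NNReal Topology
open MeasureTheory ProbabilityTheory Set Filter

namespace Pool.Agent.Helper41.SK

/-- the completed natural filtration of `B` -/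
def natF {Ω : Type*} [mΩ : MeasurableSpace Ω] (P : Measure Ω) (B : ℝ → Ω → ℝ) (t : ℝ) :
    MeasurableSpace Ω :=
  (⨆ r : {r : ℝ // 0 ≤ r ∧ r ≤ max t 0}, MeasurableSpace.comap (B r.1) inferInstance) ⊔
    MeasurableSpace.generateFrom {A | P A = 0}

variable {Ω : Type*} [mΩ : MeasurableSpace Ω] {P : Measure Ω} [IsProbabilityMeasure P]
  {F G : ℝ → MeasurableSpace Ω} {B : ℝ → Ω → ℝ} {c : ℝ} {φ : ℝ → ℝ} {X L Y : ℝ → Ω → ℝ}

theorem natF_le (hB : IsBM P F B) (t : ℝ) : natF P B t ≤ F (max t 0) := by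
  refine sup_le (iSup_le fun r => ?_) ?_
  · have h1 : Measurable[F (max t 0)] (B r.1) :=
      (hB.ca.adap r.1 r.2.1).mono (hB.filt.mono _ _ r.2.1 r.2.2) le_rfl
    exact h1.comap_le
  · refine MeasurableSpace.generateFrom_le fun A hA => ?_
    exact hB.filt.mono 0 _ le_rfl (le_max_right _ _) _ (hB.filt.null A hA)

theorem natF_bm (hB : IsBM P F B) : BMF P (natF P B) (fun t ω => B (max t 0) ω) := by
  have h0 := clamp_bm hB
  refine ⟨fun t => (natF_le hB t).trans (h0.le t), ?_, ?_, ?_, h0.cont, h0.zero, h0.law, ?_⟩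
  · intro s t hst
    refine sup_le_sup ?_ le_rfl
    refine iSup_le fun r => ?_
    exact le_iSup_of_le (⟨r.1, r.2.1, r.2.2.trans (max_le_max hst le_rfl)⟩ :
      {r : ℝ // 0 ≤ r ∧ r ≤ max t 0}) le_rfl
  · intro A hA
    have h1 : MeasurableSet[MeasurableSpace.generateFrom {A : Set Ω | P A = 0}] A :=
      MeasurableSpace.measurableSet_generateFrom hA
    exact (le_sup_right : MeasurableSpace.generateFrom {A : Set Ω | P A = 0} ≤ natF P B 0) _ h1
  · intro t ht
    have e : max t 0 = t := max_eq_left ht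
    have h1 : MeasurableSpace.comap (B t) inferInstance ≤ natF P B t := by
      refine le_sup_of_le_left ?_
      exact le_iSup_of_le (⟨t, ht, le_max_left _ _⟩ : {r : ℝ // 0 ≤ r ∧ r ≤ max t 0}) le_rfl
    simp only [e]
    exact measurable_iff_comap_le.2 h1
  · intro s t hs hst
    refine indep_of_indep_of_le_right (h0.indep s t hs hst) ?_
    exact natF_le hB s

theorem solc_mono (h : SolC P F B c φ X L) (hG : BMF P G B) (hFG : ∀ t, 0 ≤ t → F t ≤ G t) :
    SolC P G B c φ X L :=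
  ⟨hG, h.lip, h.c0, fun t ht => (h.Xad t ht).mono (hFG t ht) le_rfl, h.Xc,
    fun t ht => (h.Lad t ht).mono (hFG t ht) le_rfl, h.Lc, h.L0, h.Lmono, h.eq, h.Lsq, h.flat,
    h.loc⟩

theorem uniq_two (hB : IsBM P F B) (hB' : IsBM P G B) (hX : IsSol P F B φ X)
    (hY : IsSol P G B φ Y) : ∀ᵐ ω ∂P, ∀ t, 0 ≤ t → X t ω = Y t ω := by
  obtain ⟨hφ, L, hL⟩ := necessity φ hB X hX
  obtain ⟨-, M, hM⟩ := necessity φ hB' Y hY
  obtain ⟨Z, K, hZ⟩ := solc_exists (natF_bm hB) hφ
  have h1 := uniq hL (solc_mono hZ hL.bm fun t _ => natF_le hB t)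
  have h2 := uniq hM (solc_mono hZ hM.bm fun t _ => natF_le hB' t)
  filter_upwards [h1, h2] with ω a1 a2 t ht
  have e : max t 0 = t := max_eq_left ht
  have b1 := a1 t ht
  have b2 := a2 t ht
  simp only [e] at b1 b2
  rw [b1, b2]

theorem strong_exists (hc : P.IsComplete) (hB : IsBM0 P B)
    (hφ : ∀ s t, 0 ≤ s → 0 ≤ t → |φ s - φ t| ≤ |s - t|) : ∃ X, IsSol P (augF P B) B φ X := by
  have h1 := aug_bm hc hB
  obtain ⟨X, L, h⟩ := solc_exists (clamp_bm h1) hφ
  exact ⟨X, solc_sol h1 h⟩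

end Pool.Agent.Helper41.SK
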